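import Pool.Agent.LQ.DIAG
import Pool.Agent.LF2.MIX2

/-!
Estimates which hold uniformly for the densities of a class and for their superpositions.
-/

set_option autoImplicit false

namespace Pool.Agent.LFD

open MeasureTheory Set Pool.Agent.MP_6cbfb8_an
open scoped ENNReal Real

/-- The estimate `∫ |extn g| ^ p ≤ C (ν W) ^ p`, with one constant `C`, for all the superpositions
`g` of rotated and modulated functions of the class `H`, over all finite measure spaces `(W, ν)`. -/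
def Bd (n : ℕ) (p : ℝ) (H : (E n → ℂ) → Prop) : Prop :=
  ∃ C : ℝ≥0∞, C ≠ ⊤ ∧ ∀ (W : Type) [MeasurableSpace W] (ν : Measure W) [IsFiniteMeasure ν]
    (R : W → (E n ≃ₗᵢ[ℝ] E n)) (η : W → E n) (h : W → E n → ℂ),
    (Measurable fun q : W × E n => R q.1 q.2) → Measurable η →
    (Measurable fun q : W × E n => h q.1 q.2) → (∀ w, H (h w)) →
    ∫⁻ ξ, ‖extn (mix ν R η h) ξ‖ₑ ^ p ≤ C * ν univ ^ p

/-- From single densities to superpositions. -/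
theorem bd_of {n : ℕ} {p M : ℝ} (hp : 1 ≤ p) (H : (E n → ℂ) → Prop)
    (hM : ∀ g, H g → ∀ x, ‖g x‖ ≤ M)
    (hC : ∃ C : ℝ≥0∞, C ≠ ⊤ ∧ ∀ g, Measurable g → H g → ∫⁻ ξ, ‖extn g ξ‖ₑ ^ p ≤ C) :
    Bd n p H := by
  obtain ⟨C, hC, hg⟩ := hC
  refine ⟨C, hC, fun W _ ν _ R η h hR hη hh hcl => ?_⟩
  exact Pool.Agent.LF.mix_le hp (M := max 1 M) (lt_max_of_lt_left one_pos) H
    (fun g h1 _ h2 => hg g h1 h2) ν R η h hR hη hh
    (fun w x => (hM _ (hcl w) x).trans (le_max_right _ _)) hcl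

/-- Functions of `Q` times the indicator functions of `N` half-spaces. -/
def QHS {n : ℕ} (Q : E n → ℝ) (N : ℕ) (g : E n → ℂ) : Prop :=
  ∃ (F : ℝ → ℂ) (v : Fin N → E n) (c : Fin N → ℝ), Measurable F ∧ (∀ t, ‖F t‖ ≤ 1) ∧
    ∀ x, g x = F (Q x) * ∏ j, if c j < inner ℝ x (v j) then 1 else 0

theorem norm_hprod_le {n N : ℕ} (v : Fin N → E n) (c : Fin N → ℝ) (x : E n) :
    ‖∏ i, (if c i < inner ℝ x (v i) then (1 : ℂ) else 0)‖ ≤ 1 := by
  rw [norm_prod]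
  refine Finset.prod_le_one (fun _ _ => norm_nonneg _) fun i _ => ?_
  split_ifs <;> simp

theorem one_le_exp {n : ℕ} (hn : 3 ≤ n) : 1 ≤ 2 * (n : ℝ) / (n - 1) := by
  have hn' : (3 : ℝ) ≤ n := by exact_mod_cast hn
  rw [le_div_iff₀ (by linarith)]
  linarith

/-- The estimate for the class `QHS` of a quadratic form. -/
theorem bd_qhs {n : ℕ} (hn : 3 ≤ n) (Q : QuadraticForm ℝ (E n))
    (hQ : ∃ (b : Fin n → ℝ) (R : E n ≃ₗᵢ[ℝ] E n), LQ.Full n b ∧ ∀ x, Q x = ∑ i, b i * R x i ^ 2)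
    (N : ℕ) {p : ℝ} (hp : 2 * (n : ℝ) / (n - 1) < p) : Bd n p (QHS Q N) := by
  obtain ⟨b, R, hb, hR⟩ := hQ
  refine bd_of (M := 1) ((one_le_exp hn).trans hp.le) _ ?_ ?_
  · rintro g ⟨F, v, c, -, hF1, hg⟩ x
    rw [hg, norm_mul]
    exact mul_le_one₀ (hF1 _) (norm_nonneg _) (norm_hprod_le _ _ _)
  · obtain ⟨C, hC, H⟩ := LQ.full_rot_cut hn hb N hp
    refine ⟨C, hC, ?_⟩
    rintro g - ⟨F, v, c, hF, hF1, hg⟩
    have : g = fun x => F (Q x) * ∏ i, hsn (c i) (v i) x := by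
      funext x
      rw [hg]
      rfl
    rw [this]
    exact H Q ⟨R, hR⟩ F hF hF1 v c

/-- The estimate for the class `QHS` of every quadratic form. -/
theorem bd_qhs_all {n : ℕ} (hn : 3 ≤ n) (h : ∀ b : Fin n → ℝ, LQ.Full n b)
    (Q : QuadraticForm ℝ (E n)) (N : ℕ) {p : ℝ} (hp : 2 * (n : ℝ) / (n - 1) < p) :
    Bd n p (QHS Q N) := by
  obtain ⟨b, R, hR⟩ := LQ.exists_diag Q
  exact bd_qhs hn Q ⟨b, R, h b, hR⟩ N hp

end Pool.Agent.LFD
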