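import Mathlib

/-!
The area inequality with a bounded number of preimages.
-/

set_option autoImplicit false

namespace Pool.Agent.LQ

open MeasureTheory Set
open scoped ENNReal NNReal

/-- A differentiable map with invertible derivatives is injective on the parts of a countable
partition. -/
theorem area_part {E : Type*} [NormedAddCommGroup E] [NormedSpace ℝ E] [FiniteDimensional ℝ E]
    [Nontrivial E] [MeasurableSpace E] [BorelSpace E] {f : E → E} {f' : E → E →L[ℝ] E} {S : Set E}
    (hf : ∀ x ∈ S, HasFDerivWithinAt f (f' x) S x) (hdet : ∀ x ∈ S, (f' x).det ≠ 0) :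
    ∃ t : ℕ → Set E, Pairwise (Function.onFun Disjoint t) ∧ (∀ n, MeasurableSet (t n)) ∧
      (S ⊆ ⋃ n, t n) ∧ ∀ n, InjOn f (S ∩ t n) := by
  classical
  set r : (E →L[ℝ] E) → ℝ≥0 := fun A => if h : A.det ≠ 0 then
    ‖((A.toContinuousLinearEquivOfDetNeZero h).symm : E →L[ℝ] E)‖₊⁻¹ / 2 else 1 with hr
  have hpos : ∀ B : E ≃L[ℝ] E, 0 < ‖(B.symm : E →L[ℝ] E)‖₊⁻¹ := by
    intro B
    have h1 : ‖(B.symm : E →L[ℝ] E)‖₊ ≠ 0 := by
      rw [nnnorm_ne_zero_iff]
      intro h0
      obtain ⟨x, hx⟩ := exists_ne (0 : E)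
      apply hx
      have h2 := B.symm.injective
      apply h2
      have h3 := congrArg (fun L : E →L[ℝ] E => L x) h0
      simpa using h3
    positivity
  have rpos : ∀ A, r A ≠ 0 := by
    intro A
    simp only [hr]
    split_ifs with h
    · have := hpos (A.toContinuousLinearEquivOfDetNeZero h)
      positivity
    · exact one_ne_zero
  obtain ⟨t, A, h1, h2, h3, h4, h5⟩ :=
    exists_partition_approximatesLinearOn_of_hasFDerivWithinAt f S f' hf r rpos
  refine ⟨t, h1, h2, h3, fun n => ?_⟩
  rcases S.eq_empty_or_nonempty with hS | hS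
  · rw [hS, empty_inter]
    exact injOn_empty f
  · obtain ⟨y, hy, hAy⟩ := h5 hS n
    have hA : (A n).det ≠ 0 := by
      rw [hAy]
      exact hdet y hy
    set B := (A n).toContinuousLinearEquivOfDetNeZero hA with hB
    have h6 : ApproximatesLinearOn f (B : E →L[ℝ] E) (S ∩ t n) (r (A n)) := by
      have := h4 n
      rwa [hB, ContinuousLinearMap.coe_toContinuousLinearEquivOfDetNeZero]
    refine h6.injOn (Or.inr ?_)
    simp only [hr]
    rw [dif_pos hA]
    exact NNReal.half_lt_self (hpos B).ne'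

/-- The area inequality. -/
theorem area_le {E : Type*} [NormedAddCommGroup E] [NormedSpace ℝ E] [FiniteDimensional ℝ E]
    [Nontrivial E] [MeasurableSpace E] [BorelSpace E] (μ : Measure E) [μ.IsAddHaarMeasure]
    {f : E → E} {f' : E → E →L[ℝ] E} {S : Set E} (hS : MeasurableSet S)
    (hf : ∀ x ∈ S, HasFDerivWithinAt f (f' x) S x) (hdet : ∀ x ∈ S, (f' x).det ≠ 0) (N : ℕ)
    (hN : ∀ᵐ z ∂μ, (S ∩ f ⁻¹' {z}).encard ≤ N) {g : E → ℝ≥0∞} (hg : Measurable g) :
    ∫⁻ x in S, ENNReal.ofReal |(f' x).det| * g (f x) ∂μ ≤ N * ∫⁻ z, g z ∂μ := by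
  classical
  obtain ⟨t, h1, h2, h3, h4⟩ := area_part hf hdet
  have hSt : S = ⋃ n, S ∩ t n := by
    rw [← inter_iUnion, inter_eq_left.2 h3]
  have hSm : ∀ n, MeasurableSet (S ∩ t n) := fun n => hS.inter (h2 n)
  have hdis : Pairwise (Function.onFun Disjoint fun n => S ∩ t n) := fun i j hij =>
    (h1 hij).mono inter_subset_right inter_subset_right
  have hfn : ∀ n, ∀ x ∈ S ∩ t n, HasFDerivWithinAt f (f' x) (S ∩ t n) x := fun n x hx =>
    (hf x hx.1).mono inter_subset_left
  have him : ∀ n, MeasurableSet (f '' (S ∩ t n)) := fun n =>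
    measurable_image_of_fderivWithin (hSm n) (hfn n) (h4 n)
  calc ∫⁻ x in S, ENNReal.ofReal |(f' x).det| * g (f x) ∂μ
      = ∫⁻ x in ⋃ n, S ∩ t n, ENNReal.ofReal |(f' x).det| * g (f x) ∂μ := by rw [← hSt]
    _ = ∑' n, ∫⁻ x in S ∩ t n, ENNReal.ofReal |(f' x).det| * g (f x) ∂μ :=
        lintegral_iUnion hSm hdis _
    _ = ∑' n, ∫⁻ z, (f '' (S ∩ t n)).indicator g z ∂μ := by
        refine tsum_congr fun n => ?_
        rw [← lintegral_image_eq_lintegral_abs_det_fderiv_mul μ (hSm n) (hfn n) (h4 n),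
          lintegral_indicator (him n)]
    _ = ∫⁻ z, ∑' n, (f '' (S ∩ t n)).indicator g z ∂μ :=
        (lintegral_tsum fun n => (hg.indicator (him n)).aemeasurable).symm
    _ ≤ ∫⁻ z, N * g z ∂μ := by
        refine lintegral_mono_ae ?_
        filter_upwards [hN] with z hz
        rw [ENNReal.tsum_eq_iSup_sum]
        refine iSup_le fun s => ?_
        have h5 : ∑ n ∈ s, (f '' (S ∩ t n)).indicator g z =
            (s.filter fun n => z ∈ f '' (S ∩ t n)).card * g z := by
          rw [← nsmul_eq_mul, ← Finset.sum_const, Finset.sum_filter]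
          refine Finset.sum_congr rfl fun n _ => ?_
          by_cases h6 : z ∈ f '' (S ∩ t n)
          · rw [indicator_of_mem h6, if_pos h6]
          · rw [indicator_of_notMem h6, if_neg h6]
        rw [h5]
        gcongr
        have h7 : ∀ n, ∃ x, z ∈ f '' (S ∩ t n) → x ∈ S ∩ t n ∧ f x = z := by
          intro n
          by_cases h8 : z ∈ f '' (S ∩ t n)
          · obtain ⟨x, hx, hxz⟩ := h8
            exact ⟨x, fun _ => ⟨hx, hxz⟩⟩
          · exact ⟨0, fun h => absurd h h8⟩
        choose x hx using h7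
        have h9 : (((s.filter fun n => z ∈ f '' (S ∩ t n)) : Finset ℕ) : Set ℕ).encard ≤
            (S ∩ f ⁻¹' {z}).encard := by
          refine Set.encard_le_encard_of_injOn (f := x) ?_ ?_
          · intro n hn
            have h10 := hx n (Finset.mem_filter.1 hn).2
            exact ⟨h10.1.1, h10.2⟩
          · intro n hn k hk hnk
            by_contra hne
            have h10 := (hx n (Finset.mem_filter.1 hn).2).1.2
            have h11 := (hx k (Finset.mem_filter.1 hk).2).1.2
            rw [hnk] at h10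
            exact (Set.disjoint_left.1 (h1 hne)) h10 h11
        have h12 := h9.trans hz
        rw [Set.encard_coe_eq_coe_finsetCard] at h12
        exact_mod_cast h12
    _ = N * ∫⁻ z, g z ∂μ := lintegral_const_mul' _ _ (ENNReal.natCast_ne_top N)

end Pool.Agent.LQ
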