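import Pool.Agent.LQ.MAIN
import Pool.Agent.LQ.UNI

/-!
Densities of bounded variation along the level curves of an arbitrary quadratic form of `R^3`:
from the distinct eigenvalues (`bvq`) and the form `x_3²`.
-/

set_option autoImplicit false

namespace Pool.Agent.LFD

open MeasureTheory Set Pool.Agent.MP_6cbfb8_an Pool.Agent.LF
open scoped ENNReal Real

/-- The estimate is invariant under the isometries. -/
theorem bd_iso {n : ℕ} {p : ℝ} {H H' : (E n → ℂ) → Prop} (R0 : E n ≃ₗᵢ[ℝ] E n)
    (hH : ∀ g, H' g → H fun x => g (R0.symm x)) (h : Bd n p H) : Bd n p H' := by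
  obtain ⟨C, hC, h⟩ := h
  refine ⟨C, hC, fun W _ ν _ R η k hR hη hk hcl => ?_⟩
  have h1 := h W ν (fun w => (R w).trans R0) η (fun w x => k w (R0.symm x))
    (R0.continuous.measurable.comp hR) hη
    (hk.comp (measurable_fst.prodMk (R0.symm.continuous.measurable.comp measurable_snd)))
    (fun w => hH _ (hcl w))
  have h2 : mix ν (fun w => (R w).trans R0) η (fun w x => k w (R0.symm x)) = mix ν R η k := by
    funext x
    unfold mix
    simp
  rwa [h2] at h1

/-- Transport of the class `ClV`. -/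
theorem clV_iso {n : ℕ} {φ ψ : E n → ℝ} (R : E n ≃ₗᵢ[ℝ] E n)
    (h : ∀ x y, ‖x‖ = 1 → ‖y‖ = 1 → ψ x = ψ y → φ (R.symm x) = φ (R.symm y)) {V : ℝ}
    {g : E n → ℂ} (hg : ClV φ V g) : ClV ψ V fun x => g (R.symm x) := by
  obtain ⟨hm, hb, hv⟩ := hg
  refine ⟨hm.comp R.symm.continuous.measurable, fun x => hb _, fun γ hγ hi hs => ?_⟩
  refine hv (fun u => R.symm (γ u)) ?_ (fun u hu v hv' huv => hi hu hv' (R.symm.injective huv))
    fun u hu => ⟨?_, ?_⟩
  · have := R.symm.isometry.lipschitz.comp hγ
    rwa [one_mul] at this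
  · rw [R.symm.norm_map]
    exact (hs u hu).1
  · exact h _ _ (hs u hu).1 (hs 0 (by simp)).1 (hs u hu).2

/-- **Every quadratic form**, `n = 3` (for a form which is constant on the sphere the class is
contained in the class of `x_3²`). -/
theorem bvq_all_of {p : ℝ} (hp : 3 < p) (V : ℝ) (bvz : Bd 3 p (ClV (fun x : E 3 => x 2 ^ 2) V))
    (Q : QuadraticForm ℝ (E 3)) : Bd 3 p (ClV Q V) := by
  obtain ⟨b, R, hR⟩ := LQ.exists_diag Q
  by_cases hb : Function.Injective b
  · refine bd_iso (H := ClV (fun x : E 3 => ∑ i, b i * x i ^ 2) V) R (fun g hg => ?_) ?_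
    · refine clV_iso R (fun x y _ _ hxy => ?_) hg
      rw [hR, hR]
      simpa using hxy
    · refine bd_of (M := V) (by linarith) _ (fun g hg x => hg.2.1 x) ?_
      obtain ⟨C, hC, H⟩ := LQ.bvq hb hp V
      exact ⟨C, hC, fun g _ hg => H g hg⟩
  · -- two equal coefficients
    obtain ⟨k, a, hka⟩ : ∃ (k : Fin 3) (a : ℝ), ∀ i, i ≠ k → b i = a := by
      unfold Function.Injective at hb
      push Not at hb
      obtain ⟨i, j, hij, hne⟩ := hb
      fin_cases i <;> fin_cases j <;> simp at hne hij ⊢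
      · exact ⟨2, b 0, fun i hi => by fin_cases i <;> simp_all⟩
      · exact ⟨1, b 0, fun i hi => by fin_cases i <;> simp_all⟩
      · exact ⟨2, b 0, fun i hi => by fin_cases i <;> simp_all⟩
      · exact ⟨0, b 1, fun i hi => by fin_cases i <;> simp_all⟩
      · exact ⟨1, b 0, fun i hi => by fin_cases i <;> simp_all⟩
      · exact ⟨0, b 1, fun i hi => by fin_cases i <;> simp_all⟩
    have hval : ∀ x : E 3, ‖x‖ = 1 → ∑ i, b i * x i ^ 2 = a + (b k - a) * x k ^ 2 := by
      intro x hx
      have h1 : ∑ i, x i ^ 2 = 1 := by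
        have := EuclideanSpace.norm_sq_eq x
        rw [hx] at this
        simpa using this.symm
      have h2 : ∑ i, b i * x i ^ 2 = ∑ i, (a * x i ^ 2 + if i = k then (b k - a) * x k ^ 2 else 0) := by
        refine Finset.sum_congr rfl fun i _ => ?_
        by_cases hi : i = k
        · rw [hi, if_pos rfl]
          ring
        · rw [if_neg hi, hka i hi]
          ring
      rw [h2, Finset.sum_add_distrib, ← Finset.mul_sum, h1, Finset.sum_ite_eq' Finset.univ k]
      simp
    set P : E 3 ≃ₗᵢ[ℝ] E 3 := LinearIsometryEquiv.piLpCongrLeft 2 ℝ ℝ (Equiv.swap k 2) with hP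
    have hP2 : ∀ z : E 3, P z 2 = z k := by
      intro z
      rw [hP]
      simp
    refine bd_iso (R.trans P) (fun g hg => ?_) bvz
    refine clV_iso (R.trans P) (fun x y hx hy hxy => ?_) hg
    have key : ∀ x : E 3, ‖x‖ = 1 → Q ((R.trans P).symm x) = a + (b k - a) * x 2 ^ 2 := by
      intro x hx
      obtain ⟨z, hz⟩ : ∃ z : E 3, z = (R.trans P).symm x := ⟨_, rfl⟩
      have hx' : x = P (R z) := by
        rw [hz]
        simp
      rw [← hz, hR, hval (R z) (by
        have := hx
        rw [hx', P.norm_map] at this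
        exact this), hx', hP2]
    rw [key x hx, key y hy]
    rw [hxy]

end Pool.Agent.LFD
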