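import Pool.Agent.LQ.BVZ2
import Pool.Agent.LQ.UNI

/-!
[BVZ] `n = 3`, bounded variation along the parallels, superpositions.
-/

set_option autoImplicit false

namespace Pool.Agent.LFD

open MeasureTheory Set Pool.Agent.MP_6cbfb8_an Pool.Agent.LF
open scoped ENNReal Real

theorem bvz {p : ℝ} (hp : 3 < p) (V : ℝ) : Bd 3 p (ClV (fun x : E 3 => x 2 ^ 2) V) := by
  refine bd_of (M := V) (by linarith) _ (fun _ hg x => hg.2.1 x) ?_
  obtain ⟨C, hC, H⟩ := Pool.Agent.LQ.BVZ.bvz0 hp V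
  exact ⟨C, hC, fun g _ hg => H g hg⟩

end Pool.Agent.LFD
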