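import Pool.Agent.LQ.BVALL
import Pool.Agent.LQ.BVZ

/-!
`n = 3`: the functions of bounded variation along the level curves of any quadratic form.
-/

set_option autoImplicit false

namespace Pool.Agent.LFD

open MeasureTheory Set Pool.Agent.MP_6cbfb8_an Pool.Agent.LF
open scoped ENNReal

/-- **`n = 3`, every quadratic form.** -/
theorem bvq_every (Q : QuadraticForm ℝ (E 3)) {p : ℝ} (hp : 3 < p) (V : ℝ) :
    Bd 3 p (ClV Q V) := bvq_all_of hp V (bvz hp V) Q

end Pool.Agent.LFD
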