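import Pool.Agent.LF2.ClH

/-!
[BVQ] Variation along an arc given by monotone coordinates, and of a function cut off to an
interval (helper11).
-/

set_option autoImplicit false

namespace Pool.Agent.LQ.BVQ

open MeasureTheory Set Pool.Agent.MP_6cbfb8_an Pool.Agent.LF
open scoped ENNReal NNReal

/-- The variation along an arc whose length function `ℓ` grows by at most one. -/
theorem arc_piece {n : ℕ} {φ : E n → ℝ} {V : ℝ} {g : E n → ℂ} (hg : ClV φ V g) {x : ℝ → E n}
    {ℓ : ℝ → ℝ} {a b : ℝ} (hab : a ≤ b) (hℓ : ContinuousOn ℓ (Icc a b))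
    (hm : StrictMonoOn ℓ (Icc a b)) (h1 : ℓ b - ℓ a ≤ 1)
    (hx : ∀ s ∈ Icc a b, ∀ s' ∈ Icc a b, s ≤ s' → ‖x s' - x s‖ ≤ ℓ s' - ℓ s)
    (hinj : InjOn x (Icc a b)) (hS : ∀ s ∈ Icc a b, ‖x s‖ = 1)
    (hφ : ∀ s ∈ Icc a b, φ (x s) = φ (x a)) :
    eVariationOn (fun s => g (x s)) (Icc a b) ≤ ENNReal.ofReal V := by
  rcases hab.eq_or_lt with rfl | hlt
  · rw [Icc_self, eVariationOn.subsingleton _ subsingleton_singleton]
    exact zero_le
  have ha : a ∈ Icc a b := left_mem_Icc.2 hab
  have hb : b ∈ Icc a b := right_mem_Icc.2 hab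
  set lam : ℝ := ℓ b - ℓ a with hlam
  have hlam0 : 0 < lam := sub_pos.2 (hm ha hb hlt)
  set pr : ℝ → ℝ := fun u => max 0 (min 1 u) with hpr
  have hpr01 : ∀ u, pr u ∈ Icc (0 : ℝ) 1 := fun u =>
    ⟨le_max_left _ _, max_le zero_le_one (min_le_left _ _)⟩
  have hprid : ∀ u ∈ Icc (0 : ℝ) 1, pr u = u := by
    intro u hu
    rw [hpr]
    simp only
    rw [min_eq_right hu.2, max_eq_right hu.1]
  have hprL : ∀ u u', |pr u' - pr u| ≤ |u' - u| := by
    intro u u'
    rw [hpr]
    simp only
    rw [max_comm 0, max_comm 0]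
    refine (abs_max_sub_max_le_abs _ _ _).trans ?_
    rw [min_comm 1, min_comm 1]
    exact (abs_min_sub_min_le_max _ _ _ _).trans (by simp)
  have hex : ∀ u, ∃ s ∈ Icc a b, ℓ s = ℓ a + lam * pr u := by
    intro u
    have h2 : ℓ a + lam * pr u ∈ Icc (ℓ a) (ℓ b) := by
      obtain ⟨h3, h4⟩ := hpr01 u
      constructor
      · nlinarith
      · nlinarith
    obtain ⟨s, hs, hs'⟩ := intermediate_value_Icc hab hℓ h2
    exact ⟨s, hs, hs'⟩
  choose σ hσ1 hσ2 using hex
  have hxa : ∀ s ∈ Icc a b, ∀ s' ∈ Icc a b, ‖x s' - x s‖ ≤ |ℓ s' - ℓ s| := by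
    intro s hs s' hs'
    rcases le_total s s' with h | h
    · exact (hx s hs s' hs' h).trans (le_abs_self _)
    · rw [norm_sub_rev, abs_sub_comm]
      exact (hx s' hs' s hs h).trans (le_abs_self _)
  have hL : LipschitzWith 1 (fun u => x (σ u)) := by
    apply LipschitzWith.of_dist_le_mul
    intro u u'
    rw [dist_eq_norm, NNReal.coe_one, one_mul]
    refine (hxa _ (hσ1 u') _ (hσ1 u)).trans ?_
    rw [hσ2, hσ2, Real.dist_eq]
    have e : ℓ a + lam * pr u - (ℓ a + lam * pr u') = lam * (pr u - pr u') := by ring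
    rw [e, abs_mul, abs_of_pos hlam0]
    calc lam * |pr u - pr u'| ≤ 1 * |pr u - pr u'| := by gcongr
      _ = |pr u - pr u'| := one_mul _
      _ ≤ |u - u'| := hprL _ _
  have hI : InjOn (fun u => x (σ u)) (Icc 0 1) := by
    intro u hu u' hu' h
    have h2 : σ u = σ u' := hinj (hσ1 u) (hσ1 u') h
    have h3 : lam * pr u = lam * pr u' := by
      have h4 := hσ2 u
      have h5 := hσ2 u'
      rw [h2] at h4
      linarith
    have h6 := mul_left_cancel₀ hlam0.ne' h3
    rwa [hprid u hu, hprid u' hu'] at h6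
  have hV := hg.2.2 (fun u => x (σ u)) hL hI fun u _ =>
    ⟨hS _ (hσ1 u), (hφ _ (hσ1 u)).trans (hφ _ (hσ1 0)).symm⟩
  set τ : ℝ → ℝ := fun s => (ℓ s - ℓ a) / lam with hτ
  have hτm : MonotoneOn τ (Icc a b) := by
    intro s hs s' hs' h
    rw [hτ]
    simp only
    have := hm.monotoneOn hs hs' h
    gcongr
  have hτ01 : MapsTo τ (Icc a b) (Icc 0 1) := by
    intro s hs
    rw [hτ]
    have h2 := hm.monotoneOn ha hs hs.1
    have h3 := hm.monotoneOn hs hb hs.2
    exact ⟨div_nonneg (by linarith) hlam0.le, (div_le_one hlam0).2 (by linarith)⟩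
  have hback : ∀ s ∈ Icc a b, σ (τ s) = s := by
    intro s hs
    apply hm.injOn (hσ1 _) hs
    rw [hσ2, hprid _ (hτ01 hs), hτ]
    simp only
    rw [mul_div_cancel₀ _ hlam0.ne']
    ring
  have e : EqOn (fun s => g (x s)) ((fun u => g (x (σ u))) ∘ τ) (Icc a b) := by
    intro s hs
    simp only [Function.comp]
    rw [hback s hs]
  rw [eVariationOn.eq_of_eqOn e]
  exact (eVariationOn.comp_le_of_monotoneOn _ τ hτm hτ01).trans hV

/-- The variation along a longer arc. -/
theorem arc_var {n : ℕ} {φ : E n → ℝ} {V : ℝ} {g : E n → ℂ} (hg : ClV φ V g) {x : ℝ → E n}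
    {ℓ : ℝ → ℝ} (N : ℕ) : ∀ {a b : ℝ}, a ≤ b → ContinuousOn ℓ (Icc a b) →
    StrictMonoOn ℓ (Icc a b) → ℓ b - ℓ a ≤ N →
    (∀ s ∈ Icc a b, ∀ s' ∈ Icc a b, s ≤ s' → ‖x s' - x s‖ ≤ ℓ s' - ℓ s) →
    InjOn x (Icc a b) → (∀ s ∈ Icc a b, ‖x s‖ = 1) → (∀ s ∈ Icc a b, φ (x s) = φ (x a)) →
    eVariationOn (fun s => g (x s)) (Icc a b) ≤ N * ENNReal.ofReal V := by
  induction N with
  | zero =>
    intro a b hab hℓ hm h1 hx hinj hS hφ
    have hab' : a = b := by
      by_contra h
      have hlt := lt_of_le_of_ne hab h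
      have := hm (left_mem_Icc.2 hab) (right_mem_Icc.2 hab) hlt
      simp only [Nat.cast_zero] at h1
      linarith
    subst hab'
    rw [Icc_self, eVariationOn.subsingleton _ subsingleton_singleton]
    exact zero_le
  | succ N ih =>
    intro a b hab hℓ hm h1 hx hinj hS hφ
    have ha : a ∈ Icc a b := left_mem_Icc.2 hab
    have hb : b ∈ Icc a b := right_mem_Icc.2 hab
    by_cases h2 : ℓ b - ℓ a ≤ 1
    · refine (arc_piece hg hab hℓ hm h2 hx hinj hS hφ).trans ?_
      calc ENNReal.ofReal V = 1 * ENNReal.ofReal V := (one_mul _).symm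
        _ ≤ ((N + 1 : ℕ) : ℝ≥0∞) * ENNReal.ofReal V := by
          gcongr
          exact_mod_cast Nat.succ_le_succ (Nat.zero_le N)
    · push Not at h2
      have h3 : ℓ a + 1 ∈ Icc (ℓ a) (ℓ b) := ⟨by linarith, by linarith⟩
      obtain ⟨c, hc, hc'⟩ := intermediate_value_Icc hab hℓ h3
      have s1 : Icc a c ⊆ Icc a b := Icc_subset_Icc le_rfl hc.2
      have s2 : Icc c b ⊆ Icc a b := Icc_subset_Icc hc.1 le_rfl
      have v1 := arc_piece hg hc.1 (hℓ.mono s1) (hm.mono s1) (by linarith)
        (fun s hs s' hs' => hx s (s1 hs) s' (s1 hs')) (hinj.mono s1) (fun s hs => hS s (s1 hs))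
        (fun s hs => hφ s (s1 hs))
      have v2 := ih hc.2 (hℓ.mono s2) (hm.mono s2) (by push_cast at h1; linarith)
        (fun s hs s' hs' => hx s (s2 hs) s' (s2 hs')) (hinj.mono s2) (fun s hs => hS s (s2 hs))
        (fun s hs => (hφ s (s2 hs)).trans (hφ c hc).symm)
      have e := eVariationOn.Icc_add_Icc (fun s => g (x s)) (s := univ) hc.1 hc.2 (mem_univ c)
      simp only [univ_inter] at e
      rw [← e]
      calc eVariationOn (fun s => g (x s)) (Icc a c) + eVariationOn (fun s => g (x s)) (Icc c b)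
          ≤ ENNReal.ofReal V + N * ENNReal.ofReal V := add_le_add v1 v2
        _ = ((N + 1 : ℕ) : ℝ≥0∞) * ENNReal.ofReal V := by
            push_cast
            ring

/-- The variation on the line of a function cut off to an interval. -/
theorem var_indicator {I : Set ℝ} (hI : I.OrdConnected) {h : ℝ → ℂ} {M : ℝ} (hM : ∀ s, ‖h s‖ ≤ M)
    {B : ℝ≥0∞} (hB : ∀ a ∈ I, ∀ b ∈ I, a ≤ b → eVariationOn h (Icc a b) ≤ B) :
    eVariationOn (I.indicator h) univ ≤ B + 2 * ENNReal.ofReal M := by
  classical
  refine iSup_le ?_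
  rintro ⟨n, u, hu, -⟩
  simp only
  set P : ℕ → Prop := fun i => u i ∈ I with hP
  have hconn : ∀ i j k, i ≤ j → j ≤ k → P i → P k → P j := fun i j k hij hjk hi hk =>
    hI.out hi hk ⟨hu hij, hu hjk⟩
  have hMe : ∀ s, ‖h s‖ₑ ≤ ENNReal.ofReal M := fun s => by
    rw [← ofReal_norm]
    exact ENNReal.ofReal_le_ofReal (hM s)
  by_cases hne : ((Finset.range (n + 1)).filter P).Nonempty
  · set a := ((Finset.range (n + 1)).filter P).min' hne with ha
    set b := ((Finset.range (n + 1)).filter P).max' hne with hb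
    have ha' := Finset.mem_filter.1 (((Finset.range (n + 1)).filter P).min'_mem hne)
    have hb' := Finset.mem_filter.1 (((Finset.range (n + 1)).filter P).max'_mem hne)
    have hamin : ∀ i, i < n + 1 → P i → a ≤ i := fun i hi hPi =>
      Finset.min'_le _ _ (Finset.mem_filter.2 ⟨Finset.mem_range.2 hi, hPi⟩)
    have hbmax : ∀ i, i < n + 1 → P i → i ≤ b := fun i hi hPi =>
      Finset.le_max' _ _ (Finset.mem_filter.2 ⟨Finset.mem_range.2 hi, hPi⟩)
    have hab : a ≤ b := hamin b (Finset.mem_range.1 hb'.1) hb'.2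
    have hbn : b ≤ n := Nat.lt_succ_iff.1 (Finset.mem_range.1 hb'.1)
    -- the sum over the middle
    have hmid : ∑ i ∈ Finset.Ico a b, edist (h (u (i + 1))) (h (u i)) ≤ B := by
      refine le_trans ?_ (hB (u a) ha'.2 (u b) hb'.2 (hu hab))
      exact eVariationOn.sum_le_of_monotoneOn_Icc (hu.monotoneOn _)
        fun i hi => ⟨hu hi.1, hu hi.2⟩
    have hterm : ∀ i ∈ Finset.range n, edist (I.indicator h (u (i + 1))) (I.indicator h (u i)) ≤
        (if a ≤ i ∧ i < b then edist (h (u (i + 1))) (h (u i)) else 0) +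
          ((if i + 1 = a then ENNReal.ofReal M else 0) + (if i = b then ENNReal.ofReal M else 0)) := by
      intro i hi
      have hin : i < n := Finset.mem_range.1 hi
      by_cases h1 : P i
      · have hai := hamin i (by omega) h1
        have hib := hbmax i (by omega) h1
        by_cases h2 : P (i + 1)
        · have hib1 := hbmax (i + 1) (by omega) h2
          rw [indicator_of_mem h1, indicator_of_mem h2, if_pos ⟨hai, by omega⟩]
          exact le_self_add
        · have hib2 : i = b := by
            by_contra hne2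
            exact h2 (hconn i (i + 1) b (by omega) (by omega) h1 hb'.2)
          rw [indicator_of_mem h1, indicator_of_notMem h2, if_pos hib2]
          have : edist (0 : ℂ) (h (u i)) ≤ ENNReal.ofReal M := by
            rw [edist_comm, edist_zero_right]
            exact hMe _
          exact this.trans (le_add_left (le_add_left le_rfl))
      · by_cases h2 : P (i + 1)
        · have hai1 := hamin (i + 1) (by omega) h2
          have hia : i + 1 = a := by
            by_contra hne2
            exact h1 (hconn a i (i + 1) (by omega) (by omega) ha'.2 h2)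
          rw [indicator_of_notMem h1, indicator_of_mem h2, if_pos hia]
          have : edist (h (u (i + 1))) (0 : ℂ) ≤ ENNReal.ofReal M := by
            rw [edist_zero_right]
            exact hMe _
          exact this.trans (le_add_left (le_add_right le_rfl))
        · rw [indicator_of_notMem h1, indicator_of_notMem h2, edist_self]
          exact zero_le
    refine (Finset.sum_le_sum hterm).trans ?_
    rw [Finset.sum_add_distrib, Finset.sum_add_distrib]
    have s1 : ∑ i ∈ Finset.range n,
        (if a ≤ i ∧ i < b then edist (h (u (i + 1))) (h (u i)) else 0) ≤ B := by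
      rw [← Finset.sum_filter]
      refine le_trans (Finset.sum_le_sum_of_subset ?_) hmid
      intro i hi
      rw [Finset.mem_filter] at hi
      exact Finset.mem_Ico.2 hi.2
    have s2 : ∑ i ∈ Finset.range n, (if i + 1 = a then ENNReal.ofReal M else 0) ≤
        ENNReal.ofReal M := by
      rw [← Finset.sum_filter, Finset.sum_const]
      have : ((Finset.range n).filter fun i => i + 1 = a).card ≤ 1 := by
        rw [Finset.card_le_one]
        intro i hi j hj
        have := (Finset.mem_filter.1 hi).2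
        have := (Finset.mem_filter.1 hj).2
        omega
      calc ((Finset.range n).filter fun i => i + 1 = a).card • ENNReal.ofReal M
          ≤ 1 • ENNReal.ofReal M := by gcongr
        _ = ENNReal.ofReal M := one_smul _ _
    have s3 : ∑ i ∈ Finset.range n, (if i = b then ENNReal.ofReal M else 0) ≤
        ENNReal.ofReal M := by
      rw [← Finset.sum_filter, Finset.sum_const]
      have : ((Finset.range n).filter fun i => i = b).card ≤ 1 := by
        rw [Finset.card_le_one]
        intro i hi j hj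
        have := (Finset.mem_filter.1 hi).2
        have := (Finset.mem_filter.1 hj).2
        omega
      calc ((Finset.range n).filter fun i => i = b).card • ENNReal.ofReal M
          ≤ 1 • ENNReal.ofReal M := by gcongr
        _ = ENNReal.ofReal M := one_smul _ _
    calc _ ≤ B + (ENNReal.ofReal M + ENNReal.ofReal M) := add_le_add s1 (add_le_add s2 s3)
      _ = B + 2 * ENNReal.ofReal M := by rw [two_mul]
  · rw [Finset.not_nonempty_iff_eq_empty] at hne
    have hno : ∀ i, i < n + 1 → ¬ P i := fun i hi hPi => by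
      have : i ∈ (Finset.range (n + 1)).filter P :=
        Finset.mem_filter.2 ⟨Finset.mem_range.2 hi, hPi⟩
      rw [hne] at this
      exact absurd this (Finset.notMem_empty _)
    rw [Finset.sum_eq_zero]
    · exact zero_le
    · intro i hi
      have hin : i < n := Finset.mem_range.1 hi
      rw [indicator_of_notMem (hno i (by omega)), indicator_of_notMem (hno (i + 1) (by omega)),
        edist_self]

end Pool.Agent.LQ.BVQ
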