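import Pool.Agent.LQ.BVQ1

/-!
[BVQ] The level curves of `Q = ∑ b_i x_i²` in an octant of the sphere (helper11).
-/

set_option autoImplicit false

namespace Pool.Agent.LQ.BVQ

open MeasureTheory Set Pool.Agent.MP_6cbfb8_an Pool.Agent.LF
open scoped ENNReal NNReal

/-- The square of the second coordinate of the point of the sphere with `Q = t` and `x 0 = s`. -/
noncomputable def A1 (b : Fin 3 → ℝ) (t s : ℝ) : ℝ :=
  (b 2 * (1 - s ^ 2) - (t - b 0 * s ^ 2)) / (b 2 - b 1)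

/-- The square of the third coordinate. -/
noncomputable def A2 (b : Fin 3 → ℝ) (t s : ℝ) : ℝ :=
  ((t - b 0 * s ^ 2) - b 1 * (1 - s ^ 2)) / (b 2 - b 1)

/-- The point of the octant `σ`. -/
noncomputable def pt (b : Fin 3 → ℝ) (σ : Fin 3 → ℝ) (t s : ℝ) : E 3 :=
  !₂[s, σ 1 * √(A1 b t s), σ 2 * √(A2 b t s)]

/-- The admissible parameters. -/
def St (b : Fin 3 → ℝ) (σ : Fin 3 → ℝ) (t : ℝ) : Set ℝ :=
  {s | 0 < σ 0 * s ∧ 0 < A1 b t s ∧ 0 < A2 b t s}

variable {b : Fin 3 → ℝ} {σ : Fin 3 → ℝ}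

theorem A_add (hb : Function.Injective b) (t s : ℝ) : A1 b t s + A2 b t s = 1 - s ^ 2 := by
  have h : b 2 - b 1 ≠ 0 := sub_ne_zero.2 (hb.ne (by decide))
  unfold A1 A2
  field_simp
  ring

theorem A_Q (hb : Function.Injective b) (t s : ℝ) :
    b 0 * s ^ 2 + b 1 * A1 b t s + b 2 * A2 b t s = t := by
  have h : b 2 - b 1 ≠ 0 := sub_ne_zero.2 (hb.ne (by decide))
  unfold A1 A2
  field_simp
  ring

theorem A1_diff (hb : Function.Injective b) (t s s' : ℝ) :
    A1 b t s' - A1 b t s = (b 0 - b 2) / (b 2 - b 1) * (s' ^ 2 - s ^ 2) := by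
  have h : b 2 - b 1 ≠ 0 := sub_ne_zero.2 (hb.ne (by decide))
  unfold A1
  field_simp
  ring

theorem A2_diff (hb : Function.Injective b) (t s s' : ℝ) :
    A2 b t s' - A2 b t s = (b 1 - b 0) / (b 2 - b 1) * (s' ^ 2 - s ^ 2) := by
  have h : b 2 - b 1 ≠ 0 := sub_ne_zero.2 (hb.ne (by decide))
  unfold A2
  field_simp
  ring

theorem A1_of (hb : Function.Injective b) {x : E 3} (hx : x 0 ^ 2 + x 1 ^ 2 + x 2 ^ 2 = 1) :
    A1 b (∑ i, b i * x i ^ 2) (x 0) = x 1 ^ 2 := by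
  have h : b 2 - b 1 ≠ 0 := sub_ne_zero.2 (hb.ne (by decide))
  unfold A1
  rw [Fin.sum_univ_three, div_eq_iff h]
  linear_combination (-b 2) * hx

theorem A2_of (hb : Function.Injective b) {x : E 3} (hx : x 0 ^ 2 + x 1 ^ 2 + x 2 ^ 2 = 1) :
    A2 b (∑ i, b i * x i ^ 2) (x 0) = x 2 ^ 2 := by
  have h : b 2 - b 1 ≠ 0 := sub_ne_zero.2 (hb.ne (by decide))
  unfold A2
  rw [Fin.sum_univ_three, div_eq_iff h]
  linear_combination b 1 * hx

theorem norm_sq3 (x : E 3) : ‖x‖ ^ 2 = x 0 ^ 2 + x 1 ^ 2 + x 2 ^ 2 := by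
  rw [EuclideanSpace.norm_sq_eq, Fin.sum_univ_three]
  simp

theorem pt_norm (hb : Function.Injective b) (hσ : ∀ i, σ i ^ 2 = 1) {t s : ℝ}
    (hs : s ∈ St b σ t) : ‖pt b σ t s‖ = 1 := by
  have h1 : ‖pt b σ t s‖ ^ 2 = 1 := by
    rw [norm_sq3]
    simp only [pt, PiLp.toLp_apply, Matrix.cons_val_zero, Matrix.cons_val_one, Matrix.cons_val]
    rw [mul_pow, mul_pow, hσ, hσ, Real.sq_sqrt hs.2.1.le, Real.sq_sqrt hs.2.2.le]
    linarith [A_add hb t s]
  have h2 := norm_nonneg (pt b σ t s)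
  nlinarith

theorem pt_Q (hb : Function.Injective b) (hσ : ∀ i, σ i ^ 2 = 1) {t s : ℝ}
    (hs : s ∈ St b σ t) : ∑ i, b i * (pt b σ t s) i ^ 2 = t := by
  rw [Fin.sum_univ_three]
  simp only [pt, PiLp.toLp_apply, Matrix.cons_val_zero, Matrix.cons_val_one, Matrix.cons_val]
  rw [mul_pow, mul_pow, hσ, hσ, Real.sq_sqrt hs.2.1.le, Real.sq_sqrt hs.2.2.le]
  linarith [A_Q hb t s]

theorem pt_zero (t s : ℝ) : (pt b σ t s) 0 = s := by
  simp [pt]

/-- The point of the octant is recovered from `Q` and the first coordinate. -/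
theorem pt_of (hb : Function.Injective b) (hσ : ∀ i, σ i ^ 2 = 1) {x : E 3} (hx : ‖x‖ = 1)
    (ho : ∀ i, 0 < σ i * x i) : pt b σ (∑ i, b i * x i ^ 2) (x 0) = x ∧
      x 0 ∈ St b σ (∑ i, b i * x i ^ 2) := by
  have h1 : x 0 ^ 2 + x 1 ^ 2 + x 2 ^ 2 = 1 := by rw [← norm_sq3, hx, one_pow]
  have h2 : ∀ i, σ i * √(x i ^ 2) = x i := by
    intro i
    have h3 : √(x i ^ 2) = σ i * x i := by
      rw [Real.sqrt_eq_iff_mul_self_eq (by positivity) (ho i).le]
      have := hσ i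
      nlinarith
    rw [h3, ← mul_assoc, ← sq, hσ, one_mul]
  have h4 : ∀ i, 0 < x i ^ 2 := by
    intro i
    have : x i ≠ 0 := by
      intro h
      have := ho i
      rw [h, mul_zero] at this
      exact lt_irrefl _ this
    positivity
  constructor
  · ext i
    unfold pt
    rw [A1_of hb h1, A2_of hb h1, h2, h2]
    fin_cases i <;> simp
  · refine ⟨ho 0, ?_, ?_⟩
    · rw [A1_of hb h1]
      exact h4 1
    · rw [A2_of hb h1]
      exact h4 2

/-- Between two admissible parameters the square is between the squares. -/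
theorem sq_mono {σ0 s s' : ℝ} (hs : 0 < σ0 * s) (h : s ≤ s')
    (hs' : 0 < σ0 * s') : 0 ≤ σ0 * (s' ^ 2 - s ^ 2) := by
  have h1 : σ0 * (s' ^ 2 - s ^ 2) = (s' - s) * (σ0 * s + σ0 * s') := by ring
  rw [h1]
  exact mul_nonneg (by linarith) (by linarith)

theorem St_ord (hb : Function.Injective b) (hσ : ∀ i, σ i ^ 2 = 1) (t : ℝ) :
    (St b σ t).OrdConnected := by
  constructor
  intro s1 hs1 s2 hs2 s hs
  have hσ0 : σ 0 = 1 ∨ σ 0 = -1 := by
    have h1 : (σ 0 - 1) * (σ 0 + 1) = 0 := by linarith [hσ 0, sq (σ 0)]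
    rcases mul_eq_zero.1 h1 with h | h
    · exact Or.inl (by linarith)
    · exact Or.inr (by linarith)
  have h0 : 0 < σ 0 * s := by
    rcases hσ0 with h | h
    · have := hs1.1
      rw [h] at this ⊢
      linarith [hs.1]
    · have := hs2.1
      rw [h] at this ⊢
      linarith [hs.2]
  have h1 := sq_mono hs1.1 hs.1 h0
  have h2 := sq_mono h0 hs.2 hs2.1
  -- affine functions of the square
  have key : ∀ f : ℝ → ℝ, ∀ c : ℝ, (∀ u v, f v - f u = c * (v ^ 2 - u ^ 2)) → 0 < f s1 →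
      0 < f s2 → 0 < f s := by
    intro f c hf hf1 hf2
    have e1 := hf s1 s
    have e2 := hf s s2
    rcases hσ0 with h | h
    · rw [h, one_mul] at h1 h2
      rcases le_total 0 c with hc | hc
      · nlinarith [mul_nonneg hc h1]
      · nlinarith [mul_nonneg (neg_nonneg.2 hc) h2]
    · rw [h] at h1 h2
      rcases le_total 0 c with hc | hc
      · nlinarith [mul_nonneg hc h2]
      · nlinarith [mul_nonneg (neg_nonneg.2 hc) h1]
  exact ⟨h0, key (A1 b t) _ (fun u v => A1_diff hb t u v) hs1.2.1 hs2.2.1,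
    key (A2 b t) _ (fun u v => A2_diff hb t u v) hs1.2.2 hs2.2.2⟩


/-- The sign with which the square root of an affine function of the square grows. -/
noncomputable def eg (c σ0 : ℝ) : ℝ := if 0 ≤ c * σ0 then 1 else -1

theorem eg_abs (c σ0 : ℝ) : |eg c σ0| = 1 := by
  unfold eg
  split_ifs <;> simp

theorem sqrt_mono {c σ0 s s' a a' : ℝ} (hσ : σ0 ^ 2 = 1) (h : 0 ≤ σ0 * (s' ^ 2 - s ^ 2))
    (ha : a' - a = c * (s' ^ 2 - s ^ 2)) : |√a' - √a| = eg c σ0 * (√a' - √a) := by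
  have h1 : a' - a = (c * σ0) * (σ0 * (s' ^ 2 - s ^ 2)) := by
    rw [ha]
    linear_combination (-(c * (s' ^ 2 - s ^ 2))) * hσ
  unfold eg
  split_ifs with hc
  · have h2 : a ≤ a' := by linarith [mul_nonneg hc h]
    rw [one_mul, abs_of_nonneg (sub_nonneg.2 (Real.sqrt_le_sqrt h2))]
  · have h2 : a' ≤ a := by nlinarith [mul_nonneg (neg_nonneg.2 (not_le.1 hc).le) h]
    rw [abs_of_nonpos (sub_nonpos.2 (Real.sqrt_le_sqrt h2))]
    ring

/-- The length function. -/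
noncomputable def len (b : Fin 3 → ℝ) (σ : Fin 3 → ℝ) (t s : ℝ) : ℝ :=
  s + eg ((b 0 - b 2) / (b 2 - b 1)) (σ 0) * √(A1 b t s) +
    eg ((b 1 - b 0) / (b 2 - b 1)) (σ 0) * √(A2 b t s)

theorem len_cont (t : ℝ) : Continuous (len b σ t) := by
  unfold len A1 A2
  fun_prop

theorem len_diff (hb : Function.Injective b) (hσ : ∀ i, σ i ^ 2 = 1) {t s s' : ℝ}
    (hs : s ∈ St b σ t) (hs' : s' ∈ St b σ t) (h : s ≤ s') :
    len b σ t s' - len b σ t s =
      (s' - s) + |√(A1 b t s') - √(A1 b t s)| + |√(A2 b t s') - √(A2 b t s)| := by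
  have h0 := sq_mono hs.1 h hs'.1
  rw [sqrt_mono (hσ 0) h0 (A1_diff hb t s s'), sqrt_mono (hσ 0) h0 (A2_diff hb t s s')]
  unfold len
  ring

theorem len_lip (hb : Function.Injective b) (hσ : ∀ i, σ i ^ 2 = 1) {t s s' : ℝ}
    (hs : s ∈ St b σ t) (hs' : s' ∈ St b σ t) (h : s ≤ s') :
    ‖pt b σ t s' - pt b σ t s‖ ≤ len b σ t s' - len b σ t s := by
  rw [len_diff hb hσ hs hs' h]
  have h1 : 0 ≤ s' - s := by linarith
  set u := |√(A1 b t s') - √(A1 b t s)| with hu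
  set v := |√(A2 b t s') - √(A2 b t s)| with hv
  have hu0 : 0 ≤ u := abs_nonneg _
  have hv0 : 0 ≤ v := abs_nonneg _
  have e : ‖pt b σ t s' - pt b σ t s‖ ^ 2 = (s' - s) ^ 2 + u ^ 2 + v ^ 2 := by
    rw [norm_sq3, hu, hv, sq_abs, sq_abs]
    simp only [pt, PiLp.sub_apply, Matrix.cons_val_zero, Matrix.cons_val_one,
      Matrix.cons_val]
    rw [← mul_sub, ← mul_sub, mul_pow, mul_pow, hσ, hσ, one_mul, one_mul]
  refine abs_le_of_sq_le_sq' ?_ (by positivity) |>.2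
  rw [e]
  nlinarith [mul_nonneg h1 hu0, mul_nonneg h1 hv0, mul_nonneg hu0 hv0]

theorem len_strict (hb : Function.Injective b) (hσ : ∀ i, σ i ^ 2 = 1) (t : ℝ) :
    StrictMonoOn (len b σ t) (St b σ t) := by
  intro s hs s' hs' h
  have h1 := len_diff hb hσ hs hs' h.le
  have h2 := abs_nonneg (√(A1 b t s') - √(A1 b t s))
  have h3 := abs_nonneg (√(A2 b t s') - √(A2 b t s))
  linarith

theorem len_three (hb : Function.Injective b) (hσ : ∀ i, σ i ^ 2 = 1) {t s s' : ℝ}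
    (hs : s ∈ St b σ t) (hs' : s' ∈ St b σ t) (h : s ≤ s') :
    len b σ t s' - len b σ t s ≤ (3 : ℕ) := by
  rw [len_diff hb hσ hs hs' h]
  have hsq : ∀ r ∈ St b σ t, r ^ 2 ≤ 1 ∧ A1 b t r ≤ 1 ∧ A2 b t r ≤ 1 := by
    intro r hr
    have h1 := A_add hb t r
    have h2 := hr.2.1
    have h3 := hr.2.2
    have h4 := sq_nonneg r
    exact ⟨by linarith, by linarith, by linarith⟩
  have hr1 : ∀ a a' : ℝ, a ≤ 1 → a' ≤ 1 → |√a' - √a| ≤ 1 := by
    intro a a' ha ha'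
    have h1 : √a ≤ 1 := Real.sqrt_le_one.2 ha
    have h2 : √a' ≤ 1 := Real.sqrt_le_one.2 ha'
    have h3 := Real.sqrt_nonneg a
    have h4 := Real.sqrt_nonneg a'
    rw [abs_le]
    constructor <;> linarith
  have h1 := hr1 _ _ (hsq s hs).2.1 (hsq s' hs').2.1
  have h2 := hr1 _ _ (hsq s hs).2.2 (hsq s' hs').2.2
  have h3 : s' - s ≤ 1 := by
    have a1 : |s| ≤ 1 := (sq_le_one_iff_abs_le_one s).1 (hsq s hs).1
    have a2 : |s'| ≤ 1 := (sq_le_one_iff_abs_le_one s').1 (hsq s' hs').1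
    rw [abs_le] at a1 a2
    have hσ0 : σ 0 = 1 ∨ σ 0 = -1 := by
      have h1 : (σ 0 - 1) * (σ 0 + 1) = 0 := by linarith [hσ 0, sq (σ 0)]
      rcases mul_eq_zero.1 h1 with h | h
      · exact Or.inl (by linarith)
      · exact Or.inr (by linarith)
    rcases hσ0 with h5 | h5
    · have := hs.1
      rw [h5] at this
      linarith
    · have := hs'.1
      rw [h5] at this
      linarith
  push_cast
  linarith

/-- The variation of `g` along the level curve in the octant, between two parameters. -/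
theorem var_St (hb : Function.Injective b) (hσ : ∀ i, σ i ^ 2 = 1) {V : ℝ} {g : E 3 → ℂ}
    (hg : ClV (fun x => ∑ i, b i * x i ^ 2) V g) (t : ℝ) :
    ∀ a ∈ St b σ t, ∀ c ∈ St b σ t, a ≤ c →
      eVariationOn (fun s => g (pt b σ t s)) (Icc a c) ≤ (3 : ℕ) * ENNReal.ofReal V := by
  intro a ha c hc hac
  have hI : Icc a c ⊆ St b σ t := (St_ord hb hσ t).out ha hc
  refine arc_var hg 3 hac (len_cont t).continuousOn ((len_strict hb hσ t).mono hI)
    (len_three hb hσ ha hc hac) (fun s hs s' hs' h => len_lip hb hσ (hI hs) (hI hs') h)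
    ?_ (fun s hs => pt_norm hb hσ (hI hs)) ?_
  · intro s _ s' _ h
    have h1 := congrArg (fun x : E 3 => x 0) h
    simp only [pt_zero] at h1
    exact h1
  · intro s hs
    simp only
    rw [pt_Q hb hσ (hI hs), pt_Q hb hσ ha]

/-- The function of `(Q, x 0)` on the octant. -/
noncomputable def Go (b : Fin 3 → ℝ) (σ : Fin 3 → ℝ) (g : E 3 → ℂ) (t s : ℝ) : ℂ :=
  (St b σ t).indicator (fun s => g (pt b σ t s)) s

theorem Go_var (hb : Function.Injective b) (hσ : ∀ i, σ i ^ 2 = 1) {V : ℝ} {g : E 3 → ℂ}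
    (hg : ClV (fun x => ∑ i, b i * x i ^ 2) V g) (t : ℝ) :
    eVariationOn (Go b σ g t) univ ≤ ENNReal.ofReal (5 * V) := by
  have h1 := var_indicator (St_ord hb hσ t) (h := fun s => g (pt b σ t s)) (M := V)
    (fun s => hg.2.1 _) (var_St hb hσ hg t)
  refine h1.trans (le_of_eq ?_)
  rw [ENNReal.ofReal_mul (by norm_num)]
  rw [← add_mul]
  congr 1
  norm_num

theorem Go_eq (hb : Function.Injective b) (hσ : ∀ i, σ i ^ 2 = 1) (g : E 3 → ℂ) {x : E 3}
    (hx : ‖x‖ = 1) (ho : ∀ i, 0 < σ i * x i) : Go b σ g (∑ i, b i * x i ^ 2) (x 0) = g x := by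
  obtain ⟨h1, h2⟩ := pt_of hb hσ hx ho
  unfold Go
  rw [indicator_of_mem h2, h1]

theorem pt_cont : Continuous fun q : ℝ × ℝ => pt b σ q.1 q.2 := by
  unfold pt A1 A2
  refine (PiLp.continuous_toLp 2 _).comp ?_
  refine continuous_pi fun i => ?_
  fin_cases i
  · simp only [Fin.zero_eta, Matrix.cons_val_zero]
    fun_prop
  · simp only [Fin.mk_one, Matrix.cons_val_one, Matrix.cons_val_zero]
    fun_prop
  · simp only [Fin.reduceFinMk, Matrix.cons_val]
    fun_prop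

theorem Go_meas {g : E 3 → ℂ} (hg : Measurable g) :
    Measurable fun q : ℝ × ℝ => Go b σ g q.1 q.2 := by
  have h1 : MeasurableSet {q : ℝ × ℝ | q.2 ∈ St b σ q.1} := by
    have e : {q : ℝ × ℝ | q.2 ∈ St b σ q.1} = {q : ℝ × ℝ | 0 < σ 0 * q.2} ∩
        ({q : ℝ × ℝ | 0 < A1 b q.1 q.2} ∩ {q : ℝ × ℝ | 0 < A2 b q.1 q.2}) := by
      ext q
      rfl
    rw [e]
    refine (IsOpen.inter ?_ (IsOpen.inter ?_ ?_)).measurableSet
    · exact isOpen_lt continuous_const (by fun_prop)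
    · exact isOpen_lt continuous_const (by unfold A1; fun_prop)
    · exact isOpen_lt continuous_const (by unfold A2; fun_prop)
  have h2 : (fun q : ℝ × ℝ => Go b σ g q.1 q.2) =
      {q : ℝ × ℝ | q.2 ∈ St b σ q.1}.indicator (fun q => g (pt b σ q.1 q.2)) := by
    funext q
    unfold Go
    by_cases h : q.2 ∈ St b σ q.1
    · rw [indicator_of_mem h, indicator_of_mem (by exact h)]
    · rw [indicator_of_notMem h, indicator_of_notMem (by exact h)]
  rw [h2]
  exact (hg.comp pt_cont.measurable).indicator h1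

theorem Go_le {V : ℝ} (hV : 0 ≤ V) {g : E 3 → ℂ} (hg : ∀ x, ‖g x‖ ≤ V) (t s : ℝ) :
    ‖Go b σ g t s‖ ≤ V := by
  unfold Go
  by_cases h : s ∈ St b σ t
  · rw [indicator_of_mem h]
    exact hg _
  · rw [indicator_of_notMem h, norm_zero]
    exact hV

end Pool.Agent.LQ.BVQ
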