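import Pool.Agent.LQ.PART
import Pool.Agent.MP_6cbfb8_an.SteinTomas

/-!
[LEAFQ] row R1: from the pieces to the whole sphere, by signed permutations of the coordinates.
-/

set_option autoImplicit false

namespace Pool.Agent.LQ

open MeasureTheory Set Pool.Agent.MP_6cbfb8_an Pool.Agent.LF
open scoped RealInnerProductSpace ContDiff ENNReal NNReal

/-! ### The isometries -/

/-- The signed permutations of the coordinates. -/
noncomputable def sg (σ : Equiv.Perm (Fin 3)) (e : Fin 3 → ℝ) (he : ∀ i, e i ^ 2 = 1) :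
    E 3 ≃ₗᵢ[ℝ] E 3 :=
  LinearIsometry.toLinearIsometryEquiv
    { toFun := fun x => WithLp.toLp 2 fun i => e i * x (σ i)
      map_add' := fun x y => by ext i; simp [mul_add]
      map_smul' := fun c x => by ext i; simp; ring
      norm_map' := fun x => by
        rw [EuclideanSpace.norm_eq, EuclideanSpace.norm_eq]
        congr 1
        simp only [Real.norm_eq_abs, sq_abs, LinearMap.coe_mk, AddHom.coe_mk, mul_pow, he, one_mul]
        exact Equiv.sum_comp σ fun i => x i ^ 2 } rfl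

theorem sg_apply (σ : Equiv.Perm (Fin 3)) (e : Fin 3 → ℝ) (he : ∀ i, e i ^ 2 = 1) (x : E 3)
    (i : Fin 3) : sg σ e he x i = e i * x (σ i) := rfl

theorem extn_iso {n : ℕ} (R : E n ≃ₗᵢ[ℝ] E n) {g : E n → ℂ} (hg : Measurable g) (ξ : E n) :
    extn (fun x => g (R x)) ξ = extn g (R ξ) := by
  have hmp := measurePreserving_isometry R
  unfold extn
  have h1 : ∫ x : S n, g x *
      Complex.exp (((-(2 * Real.pi * inner ℝ (x : E n) (R ξ)) : ℝ) : ℂ) * Complex.I) ∂(sm n) =
      ∫ x : S n, g (R x) * Complex.exp (((-(2 * Real.pi * inner ℝ (R (x : E n)) (R ξ)) : ℝ) : ℂ) *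
        Complex.I) ∂(sm n) := by
    conv_lhs => rw [← hmp.map_eq]
    rw [integral_map hmp.measurable.aemeasurable]
    refine Measurable.aestronglyMeasurable ?_
    refine (hg.comp measurable_subtype_coe).mul (Continuous.measurable ?_)
    fun_prop
  rw [h1]
  refine integral_congr_ae (Filter.Eventually.of_forall fun x => ?_)
  simp only [LinearIsometryEquiv.inner_map_map]

open scoped Pointwise in
/-- Coordinate planes are null sets on the sphere. -/
theorem sm_plane (i : Fin 3) : sm 3 {x : S 3 | (x : E 3) i = 0} = 0 := by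
  have hm : MeasurableSet {x : S 3 | (x : E 3) i = 0} := by
    have h1 : Continuous fun x : S 3 => (x : E 3) i := by fun_prop
    exact h1.measurable (measurableSet_singleton 0)
  rw [Measure.toSphere_apply' _ hm]
  have h2 : volume (Ioo (0 : ℝ) 1 • ((↑) '' {x : S 3 | (x : E 3) i = 0} : Set (E 3))) = 0 := by
    refine measure_mono_null (t := {x : E 3 | x i = 0}) ?_ ?_
    · rintro x ⟨a, ha, _, ⟨y, hy, rfl⟩, rfl⟩
      have hy' : (y : E 3) i = 0 := hy
      show (a • (y : E 3)) i = 0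
      rw [PiLp.smul_apply, hy', smul_zero]
    · have h3 : {x : E 3 | x i = 0} =
          ((LinearMap.ker (EuclideanSpace.proj i : E 3 →L[ℝ] ℝ).toLinearMap : Submodule ℝ (E 3)) :
            Set (E 3)) := by
        ext x
        simp
      rw [h3]
      refine Measure.addHaar_submodule volume _ fun h4 => ?_
      have h5 : (EuclideanSpace.single i (1 : ℝ)) ∈
          LinearMap.ker (EuclideanSpace.proj i : E 3 →L[ℝ] ℝ).toLinearMap := by
        rw [h4]; trivial
      rw [LinearMap.mem_ker] at h5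
      simp at h5
  rw [h2, mul_zero]

/-! ### Smooth functions with bounded derivatives -/

/-- Smooth, all derivatives bounded. -/
def Bd {V : Type*} [NormedAddCommGroup V] [NormedSpace ℝ V] (f : V → ℝ) : Prop :=
  ContDiff ℝ ∞ f ∧ ∀ k : ℕ, ∃ C : ℝ, ∀ x, ‖iteratedFDeriv ℝ k f x‖ ≤ C

theorem Bd.mul {V : Type*} [NormedAddCommGroup V] [NormedSpace ℝ V] {f g : V → ℝ} (hf : Bd f)
    (hg : Bd g) : Bd fun x => f x * g x := by
  refine ⟨hf.1.mul hg.1, fun k => ?_⟩
  choose Cf hCf using hf.2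
  choose Cg hCg using hg.2
  refine ⟨∑ i ∈ Finset.range (k + 1), (k.choose i : ℝ) * Cf i * Cg (k - i), fun x => ?_⟩
  refine (norm_iteratedFDeriv_mul_le hf.1 hg.1 x (n := k) (by exact_mod_cast le_top)).trans ?_
  refine Finset.sum_le_sum fun i _ => ?_
  have h0 : 0 ≤ Cf i := (norm_nonneg _).trans (hCf i x)
  exact mul_le_mul (mul_le_mul_of_nonneg_left (hCf i x) (by positivity)) (hCg _ x)
    (norm_nonneg _) (by positivity)

theorem Bd.one_sub {V : Type*} [NormedAddCommGroup V] [NormedSpace ℝ V] {f : V → ℝ} (hf : Bd f) :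
    Bd fun x => 1 - f x := by
  refine ⟨contDiff_const.sub hf.1, fun k => ?_⟩
  obtain ⟨C, hC⟩ := hf.2 k
  refine ⟨1 + C, fun x => ?_⟩
  have h1 : iteratedFDeriv ℝ k (fun x => 1 - f x) x =
      iteratedFDeriv ℝ k (fun _ => (1 : ℝ)) x - iteratedFDeriv ℝ k f x := by
    rw [← iteratedFDeriv_sub_apply contDiff_const.contDiffAt
      (hf.1.of_le (by exact_mod_cast le_top)).contDiffAt]
    rfl
  rw [h1]
  refine (norm_sub_le _ _).trans (add_le_add ?_ (hC x))
  rcases k with _ | k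
  · simp
  · rw [iteratedFDeriv_succ_const]
    simp

theorem Bd.of_supp {V : Type*} [NormedAddCommGroup V] [NormedSpace ℝ V] {f : V → ℝ}
    (hf : ContDiff ℝ ∞ f) (hs : HasCompactSupport f) : Bd f :=
  ⟨hf, fun k => (hs.iteratedFDeriv k).exists_bound_of_continuous
    (hf.continuous_iteratedFDeriv (by exact_mod_cast le_top))⟩

theorem Bd.coord {u : ℝ → ℝ} (hu : Bd u) (i : Fin 3) : Bd fun x : E 3 => u (x i) := by
  have h0 : (fun x : E 3 => u (x i)) = u ∘ (EuclideanSpace.proj i : E 3 →L[ℝ] ℝ) := by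
    funext x; rfl
  refine ⟨?_, fun k => ?_⟩
  · rw [h0]
    exact hu.1.comp (ContinuousLinearMap.contDiff _)
  obtain ⟨C, hC⟩ := hu.2 k
  refine ⟨C * ‖(EuclideanSpace.proj i : E 3 →L[ℝ] ℝ)‖ ^ k, fun x => ?_⟩
  rw [h0, ContinuousLinearMap.iteratedFDeriv_comp_right _ (hu.1.of_le (by exact_mod_cast le_top)) _
    le_rfl]
  refine (ContinuousMultilinearMap.norm_compContinuousLinearMap_le _ _).trans ?_
  rw [Finset.prod_const, Finset.card_univ, Fintype.card_fin]
  exact mul_le_mul_of_nonneg_right (hC _) (by positivity)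

theorem Bd.neg_arg {u : ℝ → ℝ} (hu : Bd u) (c : ℝ) : Bd fun y : ℝ => u (c * y) := by
  have h0 : (fun y : ℝ => u (c * y)) = u ∘ (c • ContinuousLinearMap.id ℝ ℝ) := by
    funext x; simp
  refine ⟨?_, fun k => ?_⟩
  · rw [h0]
    exact hu.1.comp (ContinuousLinearMap.contDiff _)
  obtain ⟨C, hC⟩ := hu.2 k
  refine ⟨C * ‖(c • ContinuousLinearMap.id ℝ ℝ : ℝ →L[ℝ] ℝ)‖ ^ k, fun x => ?_⟩
  rw [h0, ContinuousLinearMap.iteratedFDeriv_comp_right _ (hu.1.of_le (by exact_mod_cast le_top)) _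
    le_rfl]
  refine (ContinuousMultilinearMap.norm_compContinuousLinearMap_le _ _).trans ?_
  rw [Finset.prod_const, Finset.card_univ, Fintype.card_fin]
  exact mul_le_mul_of_nonneg_right (hC _) (by positivity)

/-! ### The cut-off functions -/

theorem contDiff_th1 : ContDiff ℝ ∞ th1 :=
  Real.smoothTransition.contDiff.comp (by fun_prop)

theorem contDiff_th2 : ContDiff ℝ ∞ th2 :=
  Real.smoothTransition.contDiff.comp (by fun_prop)

/-- The square of a coordinate is large. -/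
theorem bd_th1 : Bd fun y : ℝ => th1 (y ^ 2) := by
  have h1 : Bd fun y : ℝ => 1 - th1 (y ^ 2) := by
    refine Bd.of_supp (contDiff_const.sub (contDiff_th1.comp (by fun_prop))) ?_
    refine HasCompactSupport.intro (isCompact_closedBall (0 : ℝ) 1) fun y hy => ?_
    rw [Metric.mem_closedBall, dist_zero_right, not_le, Real.norm_eq_abs] at hy
    have h2 : 1 ≤ y ^ 2 := by
      rw [← sq_abs]
      nlinarith [abs_nonneg y]
    rw [th1_one (by linarith), sub_self]
  have h2 := h1.one_sub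
  have h3 : (fun y : ℝ => 1 - (1 - th1 (y ^ 2))) = fun y => th1 (y ^ 2) := by
    funext y; ring
  rwa [h3] at h2

/-- Cut-off to `y ≥ 1/2`. -/
noncomputable def sp (y : ℝ) : ℝ :=
  Real.smoothTransition (4 * y - 1) * Real.smoothTransition (3 - 2 * y)

theorem sp_one {y : ℝ} (h1 : 1 / 2 ≤ y) (h2 : y ≤ 1) : sp y = 1 := by
  unfold sp
  rw [Real.smoothTransition.one_of_one_le (by linarith),
    Real.smoothTransition.one_of_one_le (by linarith), one_mul]

theorem sp_zero {y : ℝ} (h1 : y ≤ 1 / 4) : sp y = 0 := by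
  unfold sp
  rw [Real.smoothTransition.zero_of_nonpos (by linarith), zero_mul]

theorem bd_sp : Bd sp := by
  refine Bd.of_supp ?_ ?_
  · exact (Real.smoothTransition.contDiff.comp (by fun_prop)).mul
      (Real.smoothTransition.contDiff.comp (by fun_prop))
  · refine HasCompactSupport.intro (isCompact_closedBall (0 : ℝ) 2) fun y hy => ?_
    rw [Metric.mem_closedBall, dist_zero_right, not_le, Real.norm_eq_abs] at hy
    rcases le_total 0 y with h | h
    · rw [abs_of_nonneg h] at hy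
      unfold sp
      rw [Real.smoothTransition.zero_of_nonpos (x := 3 - 2 * y) (by linarith), mul_zero]
    · exact sp_zero (by linarith)

/-- The weights of the three axes. -/
noncomputable def wt (k : Fin 3) (x : E 3) : ℝ :=
  if k = 2 then th1 (x 2 ^ 2)
  else if k = 0 then th1 (x 0 ^ 2) * (1 - th1 (x 2 ^ 2))
  else th1 (x 1 ^ 2) * ((1 - th1 (x 0 ^ 2)) * (1 - th1 (x 2 ^ 2)))

theorem wt_bd (k : Fin 3) : Bd (wt k) := by
  have h : ∀ i : Fin 3, Bd fun x : E 3 => th1 (x i ^ 2) := fun i => bd_th1.coord i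
  unfold wt
  by_cases h2 : k = 2
  · simp only [h2, if_true]
    exact h 2
  by_cases h0 : k = 0
  · simp only [h0, show ((0 : Fin 3) = 2) = False by simp, if_false, if_true]
    exact (h 0).mul (h 2).one_sub
  · simp only [h2, h0, if_false]
    exact (h 1).mul ((h 0).one_sub.mul (h 2).one_sub)

theorem wt_zero {k : Fin 3} {x : E 3} (h : x k ^ 2 ≤ 1 / 4) : wt k x = 0 := by
  unfold wt
  by_cases h2 : k = 2
  · subst h2
    rw [if_pos rfl, th1_zero h]
  by_cases h0 : k = 0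
  · subst h0
    rw [if_neg h2, if_pos rfl, th1_zero h, zero_mul]
  · have h1 : k = 1 := by omega
    subst h1
    rw [if_neg h2, if_neg h0, th1_zero h, zero_mul]

theorem wt_sum {x : E 3} (hx : x 0 ^ 2 + x 1 ^ 2 + x 2 ^ 2 = 1) :
    wt 0 x + wt 1 x + wt 2 x = 1 := by
  have h1 : (1 - th1 (x 0 ^ 2)) * (1 - th1 (x 1 ^ 2)) * (1 - th1 (x 2 ^ 2)) = 0 := by
    rcases le_or_gt (1 / 3) (x 0 ^ 2) with ha | ha
    · rw [th1_one ha]; ring
    rcases le_or_gt (1 / 3) (x 1 ^ 2) with hb | hb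
    · rw [th1_one hb]; ring
    · rw [th1_one (show 1 / 3 ≤ x 2 ^ 2 by linarith)]; ring
  unfold wt
  simp only [show ((0 : Fin 3) = 2) = False by simp, show ((1 : Fin 3) = 2) = False by simp,
    show ((1 : Fin 3) = 0) = False by simp, if_false, if_true]
  linear_combination -h1

/-- The signs. -/
noncomputable def sb (s : Bool) : ℝ := if s then 1 else -1

theorem sb_sq (s : Bool) : sb s ^ 2 = 1 := by cases s <;> simp [sb]

theorem sum_sb (f : ℝ → ℝ) : ∑ s : Bool, f (sb s) = f 1 + f (-1) := by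
  rw [Fintype.sum_bool]; simp [sb]

/-- The angular cut-off. -/
noncomputable def ga (σ : Equiv.Perm (Fin 3)) : ℝ → ℝ :=
  if σ 0 < σ 1 then th2 else fun r => 1 - th2 (1 - r)

theorem contDiff_ga (σ : Equiv.Perm (Fin 3)) : ContDiff ℝ ∞ (ga σ) := by
  unfold ga
  split_ifs
  · exact contDiff_th2
  · exact contDiff_const.sub (contDiff_th2.comp (by fun_prop))

theorem ga_zero (σ : Equiv.Perm (Fin 3)) {r : ℝ} (h : r ≤ 1 / 4) : ga σ r = 0 := by
  unfold ga
  split_ifs
  · exact th2_zero h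
  · show 1 - th2 (1 - r) = 0
    rw [th2_one (by linarith), sub_self]

theorem ga_abs (σ : Equiv.Perm (Fin 3)) (r : ℝ) : |ga σ r| ≤ 1 := by
  unfold ga
  split_ifs
  · rw [abs_of_nonneg (th2_nonneg _)]
    exact th2_le_one _
  · have h1 := th2_nonneg (1 - r)
    have h2 := th2_le_one (1 - r)
    rw [abs_le]
    constructor <;> linarith

/-- The weight of a piece. -/
noncomputable def wp (c : Equiv.Perm (Fin 3) × (Bool × Bool)) (x : E 3) : ℝ :=
  if 0 < sb c.2.1 * x (c.1 0) then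
    ga c.1 (x (c.1 0) ^ 2 / (x (c.1 0) ^ 2 + x (c.1 1) ^ 2)) *
      (wt (c.1 2) x * sp (sb c.2.2 * x (c.1 2))) else 0

theorem sum_perm (F : Fin 3 → Fin 3 → Fin 3 → ℝ) :
    ∑ σ : Equiv.Perm (Fin 3), F (σ 0) (σ 1) (σ 2) =
      (F 0 1 2 + F 1 0 2) + (F 0 2 1 + F 2 0 1) + (F 1 2 0 + F 2 1 0) := by
  have h2 : (Finset.univ : Finset (Equiv.Perm (Fin 3))) =
      {1, Equiv.swap 0 1, Equiv.swap 0 2, Equiv.swap 1 2,
        Equiv.swap 0 1 * Equiv.swap 1 2, Equiv.swap 1 2 * Equiv.swap 0 1} := by decide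
  rw [h2]
  rw [Finset.sum_insert (by decide), Finset.sum_insert (by decide),
    Finset.sum_insert (by decide), Finset.sum_insert (by decide),
    Finset.sum_insert (by decide), Finset.sum_singleton]
  have g1 : (Equiv.swap (0 : Fin 3) 1 * Equiv.swap 1 2 : Equiv.Perm (Fin 3)) 0 = 1 := by decide
  have g2 : (Equiv.swap (0 : Fin 3) 1 * Equiv.swap 1 2 : Equiv.Perm (Fin 3)) 1 = 2 := by decide
  have g3 : (Equiv.swap (0 : Fin 3) 1 * Equiv.swap 1 2 : Equiv.Perm (Fin 3)) 2 = 0 := by decide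
  have g4 : (Equiv.swap (1 : Fin 3) 2 * Equiv.swap 0 1 : Equiv.Perm (Fin 3)) 0 = 2 := by decide
  have g5 : (Equiv.swap (1 : Fin 3) 2 * Equiv.swap 0 1 : Equiv.Perm (Fin 3)) 1 = 0 := by decide
  have g6 : (Equiv.swap (1 : Fin 3) 2 * Equiv.swap 0 1 : Equiv.Perm (Fin 3)) 2 = 1 := by decide
  have k1 : (Equiv.swap (0 : Fin 3) 1) 0 = 1 := by decide
  have k2 : (Equiv.swap (0 : Fin 3) 1) 1 = 0 := by decide
  have k3 : (Equiv.swap (0 : Fin 3) 1) 2 = 2 := by decide
  have k4 : (Equiv.swap (0 : Fin 3) 2) 0 = 2 := by decide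
  have k5 : (Equiv.swap (0 : Fin 3) 2) 1 = 1 := by decide
  have k6 : (Equiv.swap (0 : Fin 3) 2) 2 = 0 := by decide
  have k7 : (Equiv.swap (1 : Fin 3) 2) 0 = 0 := by decide
  have k8 : (Equiv.swap (1 : Fin 3) 2) 1 = 2 := by decide
  have k9 : (Equiv.swap (1 : Fin 3) 2) 2 = 1 := by decide
  rw [g1, g2, g3, g4, g5, g6, k1, k2, k3, k4, k5, k6, k7, k8, k9]
  simp only [Equiv.Perm.coe_one, id_eq]
  ring

/-- The weights of the pieces sum up to one. -/
theorem wp_sum {x : E 3} (hx : ‖x‖ = 1) (h0 : ∀ i, x i ≠ 0) : ∑ c, wp c x = 1 := by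
  have hn : x 0 ^ 2 + x 1 ^ 2 + x 2 ^ 2 = 1 := by
    have h1 := EuclideanSpace.real_norm_sq_eq x
    rw [hx, Fin.sum_univ_three] at h1
    linarith
  have hpos : ∀ i, 0 < x i ^ 2 := fun i => by
    have := h0 i
    positivity
  have hle : ∀ i, |x i| ≤ 1 := by
    intro i
    rw [← hx]
    exact PiLp.norm_apply_le x i
  -- the signs of the first coordinate
  have hs1 : ∀ (i : Fin 3) (w : ℝ), ∑ s : Bool, (if 0 < sb s * x i then w else 0) = w := by
    intro i w
    rw [sum_sb (fun a => if 0 < a * x i then w else 0)]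
    rcases lt_or_gt_of_ne (h0 i) with h | h
    · have : ¬ 0 < x i := not_lt.2 h.le
      simp [h, this]
    · have : ¬ x i < 0 := not_lt.2 h.le
      simp [h, this]
  -- the signs of the last coordinate
  have hs2 : ∀ k : Fin 3, ∑ s : Bool, wt k x * sp (sb s * x k) = wt k x := by
    intro k
    rw [sum_sb (fun a => wt k x * sp (a * x k))]
    rcases le_or_gt (x k ^ 2) (1 / 4) with h | h
    · rw [wt_zero h]; ring
    · have h1 : 1 / 2 < |x k| := by
        by_contra h2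
        rw [not_lt] at h2
        have : x k ^ 2 ≤ 1 / 4 := by
          rw [← sq_abs]
          nlinarith [abs_nonneg (x k)]
        linarith
      rcases le_total 0 (x k) with hk | hk
      · have hl := hle k
        rw [abs_of_nonneg hk] at h1 hl
        rw [one_mul, neg_one_mul, sp_one h1.le hl, sp_zero (by linarith)]
        ring
      · have hl := hle k
        rw [abs_of_nonpos hk] at h1 hl
        rw [one_mul, neg_one_mul, sp_one h1.le hl, sp_zero (by linarith)]
        ring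
  have h3 : ∀ σ : Equiv.Perm (Fin 3), ∑ s : Bool × Bool, wp (σ, s) x =
      ga σ (x (σ 0) ^ 2 / (x (σ 0) ^ 2 + x (σ 1) ^ 2)) * wt (σ 2) x := by
    intro σ
    rw [Fintype.sum_prod_type_right]
    unfold wp
    simp only
    simp_rw [hs1 (σ 0)]
    rw [← Finset.mul_sum, hs2]
  rw [Fintype.sum_prod_type]
  simp_rw [h3]
  have h4 : ∀ σ : Equiv.Perm (Fin 3),
      ga σ (x (σ 0) ^ 2 / (x (σ 0) ^ 2 + x (σ 1) ^ 2)) * wt (σ 2) x =
      (fun i j k : Fin 3 => (if i < j then th2 (x i ^ 2 / (x i ^ 2 + x j ^ 2)) else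
        1 - th2 (1 - x i ^ 2 / (x i ^ 2 + x j ^ 2))) * wt k x) (σ 0) (σ 1) (σ 2) := by
    intro σ
    simp only
    congr 1
    unfold ga
    split_ifs <;> rfl
  simp_rw [h4]
  rw [sum_perm (fun i j k : Fin 3 => (if i < j then th2 (x i ^ 2 / (x i ^ 2 + x j ^ 2)) else
        1 - th2 (1 - x i ^ 2 / (x i ^ 2 + x j ^ 2))) * wt k x)]
  have h5 : ∀ i j : Fin 3, 1 - x j ^ 2 / (x j ^ 2 + x i ^ 2) = x i ^ 2 / (x i ^ 2 + x j ^ 2) := by
    intro i j
    have hi := hpos i
    have hj := hpos j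
    field_simp
    ring
  simp only [show ((0 : Fin 3) < 1) = True by simp, show ((1 : Fin 3) < 0) = False by simp,
    show ((0 : Fin 3) < 2) = True by simp, show ((2 : Fin 3) < 0) = False by simp,
    show ((1 : Fin 3) < 2) = True by simp, show ((2 : Fin 3) < 1) = False by simp,
    if_false, if_true]
  rw [h5 0 1, h5 0 2, h5 1 2]
  linear_combination wt_sum hn

/-! ### Classes of functions -/

theorem GC.mono {B B' : ℕ → ℝ} (h : ∀ k, B k ≤ B' k) {G : ℝ → E 3 → ℂ} (hG : GC B G) : GC B' G :=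
  ⟨hG.1, hG.2.1, fun k t x => (hG.2.2 k t x).trans (h k)⟩

theorem GC.norm_le {B : ℕ → ℝ} {G : ℝ → E 3 → ℂ} (hG : GC B G) (t : ℝ) (x : E 3) :
    ‖G t x‖ ≤ B 0 := by
  have h := hG.2.2 0 t x
  rwa [norm_iteratedFDeriv_zero] at h

theorem GC.mul_bd {B : ℕ → ℝ} {G : ℝ → E 3 → ℂ} (hG : GC B G) {V : E 3 → ℝ} {Cv : ℕ → ℝ}
    (hV : ContDiff ℝ ∞ V) (hC : ∀ k x, ‖iteratedFDeriv ℝ k V x‖ ≤ Cv k) :
    GC (fun k => ∑ i ∈ Finset.range (k + 1), (k.choose i : ℝ) * Cv i * B (k - i))
      fun t x => (V x : ℂ) * G t x := by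
  have hV' : ContDiff ℝ ∞ fun x => (V x : ℂ) := Complex.ofRealCLM.contDiff.comp hV
  refine ⟨?_, fun t => hV'.mul (hG.2.1 t), fun k t x => ?_⟩
  · have h1 : Measurable fun q : ℝ × E 3 => (V q.2 : ℂ) :=
      (hV'.continuous.comp continuous_snd).measurable
    exact h1.mul hG.1
  refine (norm_iteratedFDeriv_mul_le hV' (hG.2.1 t) x (n := k)
    (by exact_mod_cast le_top)).trans ?_
  refine Finset.sum_le_sum fun i _ => ?_
  have h2 : ‖iteratedFDeriv ℝ i (fun x => (V x : ℂ)) x‖ ≤ Cv i := by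
    have h3 : (fun x => (V x : ℂ)) = Complex.ofRealLI ∘ V := rfl
    rw [h3, LinearIsometry.norm_iteratedFDeriv_comp_left _ hV.contDiffAt
      (by exact_mod_cast le_top)]
    exact hC i x
  have h0 : 0 ≤ Cv i := (norm_nonneg _).trans (hC i x)
  exact mul_le_mul (mul_le_mul_of_nonneg_left h2 (by positivity)) (hG.2.2 _ t x)
    (norm_nonneg _) (by positivity)

theorem GC.comp_iso {B : ℕ → ℝ} {G : ℝ → E 3 → ℂ} (hG : GC B G) (R : E 3 ≃ₗᵢ[ℝ] E 3) :
    GC B fun t x => G t (R x) := by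
  refine ⟨?_, fun t => (hG.2.1 t).comp R.contDiff, fun k t x => ?_⟩
  · exact hG.1.comp (measurable_fst.prodMk (R.continuous.measurable.comp measurable_snd))
  · have h := R.norm_iteratedFDeriv_comp_right (G t) x k
    have h1 : ‖iteratedFDeriv ℝ k (G t ∘ R) x‖ ≤ B k := by
      rw [h]
      exact hG.2.2 k t _
    exact h1

/-! ### The reduction -/

/-- The density of a piece. -/
noncomputable def pc (g0 : ℝ → ℝ) (b : Fin 3 → ℝ) (G : ℝ → E 3 → ℂ) (x : E 3) : ℂ :=
  if 0 < x 0 then (g0 (x 0 ^ 2 / (x 0 ^ 2 + x 1 ^ 2)) : ℂ) * G (∑ i, b i * x i ^ 2) x else 0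

theorem meas_coord (i : Fin 3) : Measurable fun x : E 3 => x i :=
  (by fun_prop : Continuous fun x : E 3 => x i).measurable

theorem meas_comp {B : ℕ → ℝ} {G : ℝ → E 3 → ℂ} (hG : GC B G) (b : Fin 3 → ℝ) :
    Measurable fun x : E 3 => G (∑ i, b i * x i ^ 2) x := by
  have h1 : Measurable fun x : E 3 => ∑ i, b i * x i ^ 2 :=
    (by fun_prop : Continuous fun x : E 3 => ∑ i, b i * x i ^ 2).measurable
  exact hG.1.comp (h1.prodMk measurable_id)

theorem pc_meas {B : ℕ → ℝ} {G : ℝ → E 3 → ℂ} (hG : GC B G) (b : Fin 3 → ℝ) {g0 : ℝ → ℝ}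
    (hg : Measurable g0) : Measurable (pc g0 b G) := by
  unfold pc
  refine Measurable.ite (measurableSet_lt measurable_const (meas_coord 0)) ?_ measurable_const
  refine Measurable.mul ?_ (meas_comp hG b)
  exact Complex.measurable_ofReal.comp (hg.comp (((meas_coord 0).pow_const 2).div
    (((meas_coord 0).pow_const 2).add ((meas_coord 1).pow_const 2))))

theorem pc_le {B : ℕ → ℝ} {G : ℝ → E 3 → ℂ} (hG : GC B G) (b : Fin 3 → ℝ) {g0 : ℝ → ℝ}
    (hg : ∀ r, |g0 r| ≤ 1) (x : E 3) : ‖pc g0 b G x‖ ≤ B 0 := by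
  have h0 : 0 ≤ B 0 := (norm_nonneg _).trans (hG.norm_le 0 x)
  unfold pc
  split_ifs
  · rw [norm_mul, Complex.norm_real, Real.norm_eq_abs]
    calc _ ≤ 1 * B 0 := mul_le_mul (hg _) (hG.norm_le _ _) (norm_nonneg _) zero_le_one
      _ = B 0 := one_mul _
  · rw [norm_zero]; exact h0

theorem extn_integrable {n : ℕ} {g : E n → ℂ} (hg : Measurable g) {b : ℝ}
    (hb : ∀ x, ‖g x‖ ≤ b) (ξ : E n) : Integrable (fun x : S n => g x *
      Complex.exp (((-(2 * Real.pi * inner ℝ (x : E n) ξ) : ℝ) : ℂ) * Complex.I)) (sm n) := by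
  have h2 : Measurable fun x : S n =>
      Complex.exp (((-(2 * Real.pi * inner ℝ (x : E n) ξ) : ℝ) : ℂ) * Complex.I) :=
    (by fun_prop : Continuous fun x : S n =>
      Complex.exp (((-(2 * Real.pi * inner ℝ (x : E n) ξ) : ℝ) : ℂ) * Complex.I)).measurable
  have h1 := hg.comp (measurable_subtype_coe (p := fun x : E n => x ∈ S n))
  refine Integrable.mono' (integrable_const b) (h1.mul h2).aestronglyMeasurable ?_
  refine Filter.Eventually.of_forall fun x => ?_
  rw [norm_mul, Complex.norm_exp_ofReal_mul_I, mul_one]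
  exact hb _

/-- The signs of a piece. -/
noncomputable def se (s : Bool × Bool) : Fin 3 → ℝ :=
  fun i => if i = 0 then sb s.1 else if i = 2 then sb s.2 else 1

theorem se_sq (s : Bool × Bool) (i : Fin 3) : se s i ^ 2 = 1 := by
  unfold se
  split_ifs
  · exact sb_sq _
  · exact sb_sq _
  · norm_num

/-- From the pieces to the whole sphere, for the mean over a rotation invariant set `A`. -/
theorem red {b : Fin 3 → ℝ} {p : ℝ} (hp : 1 ≤ p) (B : ℕ → ℝ) : ∃ B' : ℕ → ℝ,
    ∀ (A : Set (E 3)) (M : ℝ≥0∞), (∀ R : E 3 ≃ₗᵢ[ℝ] E 3, R ⁻¹' A = A) →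
      (∀ (σ : Equiv.Perm (Fin 3)) (G : ℝ → E 3 → ℂ), GC B' G → (∀ t x, x 2 ≤ 1 / 2 → G t x = 0) →
        ∫⁻ ξ in A, ‖extn (pc (ga σ) (fun i => b (σ i)) G) ξ‖ₑ ^ p ≤ M) →
      ∀ G : ℝ → E 3 → ℂ, GC B G →
        ∫⁻ ξ in A, ‖extn (fun x => G (∑ i, b i * x i ^ 2) x) ξ‖ₑ ^ p ≤ (24 : ℝ≥0∞) ^ p * M := by
  -- the weights
  have hbd : ∀ c : Equiv.Perm (Fin 3) × (Bool × Bool),
      Bd fun x : E 3 => wt (c.1 2) x * sp (sb c.2.2 * x (c.1 2)) := fun c =>
    (wt_bd _).mul ((bd_sp.neg_arg _).coord _)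
  choose Cv hCv using fun c => (hbd c).2
  refine ⟨fun k => ∑ c, |∑ i ∈ Finset.range (k + 1), (k.choose i : ℝ) * Cv c i * B (k - i)|, ?_⟩
  intro A M hA hM G hG
  -- the pieces
  let G1 : Equiv.Perm (Fin 3) × (Bool × Bool) → ℝ → E 3 → ℂ := fun c t x =>
    ((wt (c.1 2) x * sp (sb c.2.2 * x (c.1 2)) : ℝ) : ℂ) * G t x
  have hG1 : ∀ c, GC (fun k => ∑ c, |∑ i ∈ Finset.range (k + 1), (k.choose i : ℝ) * Cv c i *
      B (k - i)|) (G1 c) := by
    intro c
    refine (hG.mul_bd (hbd c).1 (hCv c)).mono fun k => ?_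
    refine (le_abs_self _).trans ?_
    exact Finset.single_le_sum (f := fun c => |∑ i ∈ Finset.range (k + 1), (k.choose i : ℝ) *
      Cv c i * B (k - i)|) (fun _ _ => abs_nonneg _) (Finset.mem_univ c)
  let R : Equiv.Perm (Fin 3) × (Bool × Bool) → E 3 ≃ₗᵢ[ℝ] E 3 := fun c =>
    sg c.1 (se c.2) (se_sq c.2)
  have hR0 : ∀ c x, R c x 0 = sb c.2.1 * x (c.1 0) := fun c x => by
    show se c.2 0 * x (c.1 0) = _
    rw [se, if_pos rfl]
  have hR1 : ∀ c x, R c x 1 = x (c.1 1) := fun c x => by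
    show se c.2 1 * x (c.1 1) = _
    rw [se, if_neg (by decide), if_neg (by decide), one_mul]
  have hR2 : ∀ c x, R c x 2 = sb c.2.2 * x (c.1 2) := fun c x => by
    show se c.2 2 * x (c.1 2) = _
    rw [se, if_neg (by decide), if_pos rfl]
  let G2 : Equiv.Perm (Fin 3) × (Bool × Bool) → ℝ → E 3 → ℂ := fun c t y => G1 c t ((R c).symm y)
  have hG2 : ∀ c, GC (fun k => ∑ c, |∑ i ∈ Finset.range (k + 1), (k.choose i : ℝ) * Cv c i *
      B (k - i)|) (G2 c) := fun c => (hG1 c).comp_iso (R c).symm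
  have hG2z : ∀ c t y, y 2 ≤ 1 / 2 → G2 c t y = 0 := by
    intro c t y hy
    have h1 : y 2 = sb c.2.2 * ((R c).symm y) (c.1 2) := by
      rw [← hR2, LinearIsometryEquiv.apply_symm_apply]
    rw [h1] at hy
    show ((wt (c.1 2) ((R c).symm y) * sp (sb c.2.2 * ((R c).symm y) (c.1 2)) : ℝ) : ℂ) *
      G t ((R c).symm y) = 0
    generalize (R c).symm y = x at hy ⊢
    rcases le_or_gt (x (c.1 2) ^ 2) (1 / 4) with h2 | h2
    · rw [wt_zero h2]; simp
    · have h3 : sb c.2.2 * x (c.1 2) ≤ 1 / 4 := by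
        by_contra h4
        rw [not_le] at h4
        have h5 : (sb c.2.2 * x (c.1 2)) ^ 2 = x (c.1 2) ^ 2 := by
          rw [mul_pow, sb_sq, one_mul]
        nlinarith
      rw [sp_zero h3]; simp
  -- the identity of a piece
  have hpc : ∀ c x, pc (ga c.1) (fun i => b (c.1 i)) (G2 c) (R c x) =
      (wp c x : ℂ) * G (∑ i, b i * x i ^ 2) x := by
    intro c x
    have h1 : ∑ i, b (c.1 i) * (R c x) i ^ 2 = ∑ i, b i * x i ^ 2 := by
      have h2 : ∀ i, b (c.1 i) * (R c x) i ^ 2 = (fun j => b j * x j ^ 2) (c.1 i) := by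
        intro i
        show b (c.1 i) * (se c.2 i * x (c.1 i)) ^ 2 = b (c.1 i) * x (c.1 i) ^ 2
        rw [mul_pow, se_sq, one_mul]
      simp_rw [h2]
      exact Equiv.sum_comp c.1 fun j => b j * x j ^ 2
    unfold pc wp
    rw [h1, hR0, hR1]
    split_ifs with h
    · show _ * (((wt (c.1 2) ((R c).symm (R c x)) *
        sp (sb c.2.2 * ((R c).symm (R c x)) (c.1 2)) : ℝ) : ℂ) * G _ ((R c).symm (R c x))) = _
      rw [LinearIsometryEquiv.symm_apply_apply, mul_pow, sb_sq, one_mul]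
      push_cast
      ring
    · simp
  -- measurability
  have hgm : ∀ σ, Measurable (ga σ) := fun σ => (contDiff_ga σ).continuous.measurable
  have hpm : ∀ c, Measurable (pc (ga c.1) (fun i => b (c.1 i)) (G2 c)) := fun c =>
    pc_meas (hG2 c) _ (hgm _)
  -- the sum
  have hsum : ∀ ξ, extn (fun x => G (∑ i, b i * x i ^ 2) x) ξ =
      ∑ c, extn (pc (ga c.1) (fun i => b (c.1 i)) (G2 c)) (R c ξ) := by
    intro ξ
    have h1 : ∀ c, extn (pc (ga c.1) (fun i => b (c.1 i)) (G2 c)) (R c ξ) =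
        extn (fun x => pc (ga c.1) (fun i => b (c.1 i)) (G2 c) (R c x)) ξ := fun c =>
      (extn_iso (R c) (hpm c) ξ).symm
    simp_rw [h1]
    unfold extn
    rw [← integral_finsetSum]
    · refine integral_congr_ae ?_
      have h2 : ∀ i : Fin 3, ∀ᵐ x : S 3 ∂(sm 3), (x : E 3) i ≠ 0 := fun i => by
        rw [ae_iff]
        simpa using sm_plane i
      have h3 : ∀ᵐ x : S 3 ∂(sm 3), ∀ i : Fin 3, (x : E 3) i ≠ 0 := ae_all_iff.2 h2
      filter_upwards [h3] with x hx
      have h4 : ‖(x : E 3)‖ = 1 := mem_sphere_zero_iff_norm.mp x.2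
      simp_rw [hpc]
      rw [← Finset.sum_mul, ← Finset.sum_mul, ← Complex.ofReal_sum, wp_sum h4 hx,
        Complex.ofReal_one, one_mul]
    · intro c _
      exact extn_integrable ((hpm c).comp (R c).continuous.measurable)
        (fun x => pc_le (hG2 c) _ (ga_abs _) _) ξ
  calc ∫⁻ ξ in A, ‖extn (fun x => G (∑ i, b i * x i ^ 2) x) ξ‖ₑ ^ p
      ≤ ∫⁻ ξ in A, (24 : ℝ≥0∞) ^ (p - 1) *
        ∑ c, ‖extn (pc (ga c.1) (fun i => b (c.1 i)) (G2 c)) (R c ξ)‖ₑ ^ p := by
        refine lintegral_mono fun ξ => ?_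
        simp only
        rw [hsum]
        refine (ENNReal.rpow_le_rpow (enorm_sum_le _ _) (by linarith)).trans ?_
        refine (ENNReal.rpow_sum_le_const_mul_sum_rpow _ _ hp).trans (le_of_eq ?_)
        have h24 : ((Finset.univ : Finset (Equiv.Perm (Fin 3) × (Bool × Bool))).card : ℝ≥0∞) =
            24 := by
          rw [Finset.card_univ, Fintype.card_prod, Fintype.card_prod, Fintype.card_perm]
          simp [Nat.factorial]
        rw [h24]
    _ = (24 : ℝ≥0∞) ^ (p - 1) * ∑ c, ∫⁻ ξ in A,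
        ‖extn (pc (ga c.1) (fun i => b (c.1 i)) (G2 c)) (R c ξ)‖ₑ ^ p := by
        rw [lintegral_const_mul, lintegral_finsetSum]
        · intro c _
          exact ((measurable_extn _ (hpm c)).comp (R c).continuous.measurable).enorm.pow_const p
        · refine Finset.measurable_sum _ fun c _ => ?_
          exact ((measurable_extn _ (hpm c)).comp (R c).continuous.measurable).enorm.pow_const p
    _ ≤ (24 : ℝ≥0∞) ^ (p - 1) *
        ∑ _c : Equiv.Perm (Fin 3) × (Bool × Bool), M := by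
        gcongr with c _
        have h1 := (R c).measurePreserving.setLIntegral_comp_preimage_emb
          (R c).toHomeomorph.measurableEmbedding
          (fun ξ => ‖extn (pc (ga c.1) (fun i => b (c.1 i)) (G2 c)) ξ‖ₑ ^ p) A
        rw [hA (R c)] at h1
        rw [h1]
        exact hM c.1 (G2 c) (hG2 c) (hG2z c)
    _ = (24 : ℝ≥0∞) ^ p * M := by
        rw [Finset.sum_const, nsmul_eq_mul, Finset.card_univ, Fintype.card_prod,
          Fintype.card_prod, Fintype.card_perm, ← mul_assoc]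
        congr 1
        have h1 : (((Fintype.card (Fin 3)).factorial * (Fintype.card Bool * Fintype.card Bool) : ℕ)
            : ℝ≥0∞) = 24 := by
          simp [Nat.factorial]
        rw [h1]
        have h2 : p = (p - 1) + 1 := by ring
        conv_rhs => rw [h2, ENNReal.rpow_add _ _ (by norm_num) (by norm_num), ENNReal.rpow_one]

end Pool.Agent.LQ
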