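import Pool.Agent.LQ.BVQ2
import Pool.Agent.LQ.RED

/-!
[BVQ] Null sets of the parameters of the octant are null on the sphere (helper11).
-/

set_option autoImplicit false

namespace Pool.Agent.LQ.BVQ

open MeasureTheory Set Pool.Agent.MP_6cbfb8_an Pool.Agent.LF
open scoped ENNReal NNReal

variable {b : Fin 3 → ℝ} {σ : Fin 3 → ℝ}

/-- The cylinder over a null set of the first two coordinates. -/
theorem cyl_null {N : Set (ℝ × ℝ)} (hN : MeasurableSet N)
    (h0 : ∀ t, volume {s | (t, s) ∈ N} = 0) : volume {y : E 3 | (y 0, y 1) ∈ N} = 0 := by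
  have hmE : Measurable fun y : E 3 => (y 0, y 1) := by
    have h1 : ∀ i : Fin 3, Measurable fun y : E 3 => y i := fun i =>
      (by fun_prop : Continuous fun y : E 3 => y i).measurable
    exact (h1 0).prodMk (h1 1)
  have e1 := (EuclideanSpace.volume_preserving_symm_measurableEquiv_toLp (Fin 3))
  have e2 := volume_preserving_piFinSuccAbove (fun _ : Fin 3 => ℝ) 1
  have e := e2.comp e1
  set T : Set (ℝ × (Fin 2 → ℝ)) := {q | (q.2 0, q.1) ∈ N} with hT
  have hTm : MeasurableSet T := by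
    have h2 : Measurable fun q : ℝ × (Fin 2 → ℝ) => (q.2 0, q.1) :=
      ((measurable_pi_apply 0).comp measurable_snd).prodMk measurable_fst
    exact h2 hN
  have h1 : {y : E 3 | (y 0, y 1) ∈ N} =
      ((MeasurableEquiv.piFinSuccAbove (fun _ : Fin 3 => ℝ) 1) ∘
        (MeasurableEquiv.toLp 2 (Fin 3 → ℝ)).symm) ⁻¹' T := by
    ext y
    simp only [mem_setOf_eq, mem_preimage, Function.comp, hT]
    rfl
  rw [h1, e.measure_preimage hTm.nullMeasurableSet]
  change (volume.prod volume) T = 0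
  rw [Measure.prod_apply_symm hTm, lintegral_eq_zero_iff' ?_]
  · refine Filter.Eventually.of_forall fun w => ?_
    exact h0 (w 0)
  · exact (measurable_measure_prodMk_right hTm).aemeasurable

theorem pt_diff {t s : ℝ} (hs : s ∈ St b σ t) :
    DifferentiableAt ℝ (fun q : ℝ × ℝ => pt b σ q.1 q.2) (t, s) := by
  have h1 : DifferentiableAt ℝ (fun q : ℝ × ℝ => √(A1 b q.1 q.2)) (t, s) := by
    refine DifferentiableAt.sqrt ?_ hs.2.1.ne'
    unfold A1
    fun_prop
  have h2 : DifferentiableAt ℝ (fun q : ℝ × ℝ => √(A2 b q.1 q.2)) (t, s) := by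
    refine DifferentiableAt.sqrt ?_ hs.2.2.ne'
    unfold A2
    fun_prop
  rw [differentiableAt_euclidean]
  intro i
  fin_cases i
  · simp only [pt, Fin.zero_eta, PiLp.toLp_apply, Matrix.cons_val_zero]
    fun_prop
  · simp only [pt, Fin.mk_one, PiLp.toLp_apply, Matrix.cons_val_one, Matrix.cons_val_zero]
    exact h1.const_mul _
  · simp only [pt, Fin.reduceFinMk, PiLp.toLp_apply, Matrix.cons_val]
    exact h2.const_mul _

open scoped Pointwise in
/-- Null sets of the parameters are null on the octant of the sphere. -/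
theorem null_oct (hb : Function.Injective b) (hσ : ∀ i, σ i ^ 2 = 1) {N : Set (ℝ × ℝ)}
    (hN : MeasurableSet N) (h0 : ∀ t, volume {s | (t, s) ∈ N} = 0) :
    sm 3 {x : S 3 | (∀ i, 0 < σ i * (x : E 3) i) ∧
      (∑ i, b i * (x : E 3) i ^ 2, (x : E 3) 0) ∈ N} = 0 := by
  set A : Set (S 3) := {x : S 3 | (∀ i, 0 < σ i * (x : E 3) i) ∧
      (∑ i, b i * (x : E 3) i ^ 2, (x : E 3) 0) ∈ N} with hA
  have hc : ∀ i : Fin 3, Continuous fun x : S 3 => (x : E 3) i := fun i => by fun_prop
  have hAm : MeasurableSet A := by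
    have h1 : MeasurableSet {x : S 3 | ∀ i, 0 < σ i * (x : E 3) i} := by
      rw [setOf_forall]
      exact MeasurableSet.iInter fun i => (isOpen_lt continuous_const
        (continuous_const.mul (hc i))).measurableSet
    have h2 : Measurable fun x : S 3 => (∑ i, b i * (x : E 3) i ^ 2, (x : E 3) 0) := by
      refine Continuous.measurable ?_
      refine Continuous.prodMk ?_ (hc 0)
      exact continuous_finset_sum _ fun i _ => continuous_const.mul ((hc i).pow 2)
    exact h1.inter (h2 hN)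
  rw [Measure.toSphere_apply' _ hAm]
  set M : Set (E 3) := {y : E 3 | (y 0, y 1) ∈ N ∧ y 1 ∈ St b σ (y 0)} with hM
  have hM0 : volume M = 0 := measure_mono_null (fun y hy => hy.1) (cyl_null hN h0)
  set Ψ : E 3 → E 3 := fun y => y 2 • pt b σ (y 0) (y 1) with hΨ
  have hd : DifferentiableOn ℝ Ψ M := by
    intro y hy
    apply DifferentiableAt.differentiableWithinAt
    have h1 : DifferentiableAt ℝ (fun y : E 3 => pt b σ (y 0) (y 1)) y := by
      have h2 : DifferentiableAt ℝ (fun y : E 3 => ((y 0, y 1) : ℝ × ℝ)) y := by fun_prop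
      exact DifferentiableAt.comp (g := fun q : ℝ × ℝ => pt b σ q.1 q.2) y (pt_diff hy.2) h2
    have h3 : DifferentiableAt ℝ (fun y : E 3 => y 2) y := by fun_prop
    exact h3.smul h1
  have himg : volume (Ψ '' M) = 0 :=
    addHaar_image_eq_zero_of_differentiableOn_of_addHaar_eq_zero volume hd hM0
  have hsub : (Ioo (0 : ℝ) 1 • ((↑) '' A : Set (E 3))) ⊆ Ψ '' M := by
    rintro _ ⟨r, hr, _, ⟨x, hx, rfl⟩, rfl⟩
    have hx1 : ‖(x : E 3)‖ = 1 := by simpa using x.2
    obtain ⟨h1, h2⟩ := pt_of hb hσ hx1 hx.1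
    refine ⟨!₂[∑ i, b i * (x : E 3) i ^ 2, (x : E 3) 0, r], ⟨?_, ?_⟩, ?_⟩
    · exact hx.2
    · exact h2
    · change r • pt b σ (∑ i, b i * (x : E 3) i ^ 2) ((x : E 3) 0) = r • (x : E 3)
      rw [h1]
  rw [measure_mono_null hsub himg, mul_zero]

end Pool.Agent.LQ.BVQ
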