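import Pool.Agent.LQ.BVQ3
import Pool.Agent.HSL.X
import Pool.Agent.LF2.VAR

/-!
[BVQ] Densities on the whole sphere of `R^3` of bounded variation along the level curves of
`Q = ∑ b_i x_i²`, nothing across them (helper11).
-/

set_option autoImplicit false

namespace Pool.Agent.LQ.BVQ

open MeasureTheory Set Pool.Agent.MP_6cbfb8_an Pool.Agent.LF
open scoped ENNReal NNReal

variable {b : Fin 3 → ℝ} {σ : Fin 3 → ℝ}

/-- The input: tails for the functions of `Q`. -/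
def QTail (b : Fin 3 → ℝ) (p : ℝ) : Prop :=
  ∃ C η : ℝ, 0 < η ∧ ∀ F : ℝ → ℂ, Measurable F → (∀ t, ‖F t‖ ≤ 1) → ∀ R : ℝ, 1 ≤ R →
    ∫⁻ ξ in {ξ : E 3 | R ≤ ‖ξ‖}, ‖extn (fun x => F (∑ i, b i * x i ^ 2)) ξ‖ₑ ^ p ≤
      ENNReal.ofReal (C * R ^ (-η))

theorem extn_cg {g h : E 3 → ℂ} (e : ∀ x, ‖x‖ = 1 → g x = h x) : extn g = extn h := by
  funext ξ
  unfold extn
  refine integral_congr_ae (Filter.Eventually.of_forall fun x => ?_)
  simp only
  rw [e x (by simp)]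

/-- The octant. -/
def Oc (σ : Fin 3 → ℝ) : Set (E 3) := {x | ∀ j, 0 < σ j * x j}

theorem Oc_meas : MeasurableSet (Oc σ) := by
  have h1 : ∀ i : Fin 3, Continuous fun y : E 3 => y i := fun i => by fun_prop
  have e : Oc σ = ⋂ j, {x : E 3 | 0 < σ j * x j} := by
    ext x
    simp [Oc]
  rw [e]
  exact MeasurableSet.iInter fun i => (isOpen_lt continuous_const
    (continuous_const.mul (h1 i))).measurableSet

theorem Q_meas (b : Fin 3 → ℝ) : Measurable fun x : E 3 => ∑ i, b i * x i ^ 2 := by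
  have : Continuous fun x : E 3 => ∑ i, b i * x i ^ 2 := by fun_prop
  exact this.measurable

/-- Step 1: the octants. -/
theorem step1 {p : ℝ} (hp : 1 < p) (hq : QTail b p) :
    ∃ C η : ℝ, 0 < η ∧ ∀ σ : Fin 3 → ℝ, (∀ i, σ i ^ 2 = 1) → ∀ F : ℝ → ℂ, Measurable F →
      (∀ t, ‖F t‖ ≤ 1) → ∀ R : ℝ, 1 ≤ R →
      ∫⁻ ξ in {ξ : E 3 | R ≤ ‖ξ‖},
        ‖extn ((Oc σ).indicator (fun x => F (∑ i, b i * x i ^ 2))) ξ‖ₑ ^ p ≤
        ENNReal.ofReal (C * R ^ (-η)) := by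
  obtain ⟨C, η, hη, h⟩ := hq
  obtain ⟨C', η', hη', h'⟩ := HSL.halfspaces 3 3 (C := C) hp hη
  refine ⟨C', η', hη', fun σ hσ F hF hF1 R hR => ?_⟩
  have h2 := h' (T := ℝ) (fun x : E 3 => ∑ i, b i * x i ^ 2)
    (fun f => ∃ F : ℝ → ℂ, Measurable F ∧ (∀ t, ‖F t‖ ≤ 1) ∧ f = fun x => F (∑ i, b i * x i ^ 2))
    (Q_meas b) ?_ ?_ ?_ ?_ (fun x => F (∑ i, b i * x i ^ 2)) ⟨F, hF, hF1, rfl⟩
    (fun j => EuclideanSpace.single j (σ j)) ?_ (fun _ _ => 0) (fun _ => measurable_const) R hR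
  · have e : {x : E 3 | ∀ j, (fun _ _ => 0 : Fin 3 → ℝ → ℝ) j (∑ i, b i * x i ^ 2) <
        inner ℝ ((fun j => EuclideanSpace.single j (σ j)) j : E 3) x} = Oc σ := by
      ext x
      simp only [mem_ofPred_eq, Oc, EuclideanSpace.inner_single_left, conj_trivial]
    rwa [e] at h2
  · rintro f ⟨F, hF, -, rfl⟩
    exact hF.comp (Q_meas b)
  · rintro f ⟨F, -, hF1, rfl⟩ x
    exact hF1 _
  · rintro f ⟨F, hF, hF1, rfl⟩ F' hF' hF'1
    refine ⟨fun t => F t * F' t, hF.mul hF', fun t => ?_, rfl⟩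
    rw [norm_mul, hF'1, mul_one]
    exact hF1 t
  · rintro f ⟨F, hF, hF1, rfl⟩ R hR
    exact h F hF hF1 R hR
  · intro j
    rw [PiLp.norm_single, Real.norm_eq_abs]
    have h3 := hσ j
    rw [← sq_abs] at h3
    have h4 := abs_nonneg (σ j)
    nlinarith

/-- Step 2: the factor of bounded variation on an octant. -/
theorem step2 (hb : Function.Injective b) {p : ℝ} (hp : 1 < p) (hq : QTail b p) (V : ℝ) :
    ∃ C η : ℝ, 0 < η ∧ ∀ σ : Fin 3 → ℝ, (∀ i, σ i ^ 2 = 1) → ∀ g : E 3 → ℂ,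
      ClV (fun x => ∑ i, b i * x i ^ 2) V g → (∀ x, ‖g x‖ ≤ 1) → ∀ R : ℝ, 1 ≤ R →
      ∫⁻ ξ in {ξ : E 3 | R ≤ ‖ξ‖}, ‖extn ((Oc σ).indicator g) ξ‖ₑ ^ p ≤
        ENNReal.ofReal (C * R ^ (-η)) := by
  obtain ⟨C, η, hη, h⟩ := step1 hp hq
  obtain ⟨C', η', hη', h'⟩ := HSL.bvfac 3 (C := C) hp hη (5 * V)
  refine ⟨C', η', hη', fun σ hσ g hg hg1 R hR => ?_⟩
  set Φ : E 3 → ℝ := fun x => ∑ i, b i * x i ^ 2 with hΦ
  set Cl : (E 3 → ℂ) → Prop := fun f => ∃ F : ℝ → ℂ, Measurable F ∧ (∀ t, ‖F t‖ ≤ 1) ∧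
    f = (Oc σ).indicator (fun x => F (Φ x)) with hCl
  have hT : HSL.Tl Φ p η C Cl := by
    refine ⟨Q_meas b, ?_, ?_, ?_, ?_⟩
    · rintro f ⟨F, hF, -, rfl⟩
      exact (hF.comp (Q_meas b)).indicator Oc_meas
    · rintro f ⟨F, -, hF1, rfl⟩ x
      by_cases hx : x ∈ Oc σ
      · rw [indicator_of_mem hx]
        exact hF1 _
      · rw [indicator_of_notMem hx, norm_zero]
        exact zero_le_one
    · rintro f ⟨F, hF, hF1, rfl⟩ F' hF' hF'1
      refine ⟨fun t => F t * F' t, hF.mul hF', fun t => ?_, ?_⟩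
      · rw [norm_mul, hF'1, mul_one]
        exact hF1 t
      · funext x
        by_cases hx : x ∈ Oc σ
        · rw [indicator_of_mem hx, indicator_of_mem hx]
        · rw [indicator_of_notMem hx, indicator_of_notMem hx, zero_mul]
    · rintro f ⟨F, hF, hF1, rfl⟩ R hR
      exact h σ hσ F hF hF1 R hR
  have h2 := h' Φ Cl hT ((Oc σ).indicator fun _ => 1)
    ⟨fun _ => 1, measurable_const, fun _ => by simp, rfl⟩
    (EuclideanSpace.single 0 1) (by rw [PiLp.norm_single]; simp) (Go b σ g)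
    (Go_meas hg.1) (fun t s => Go_le zero_le_one hg1 t s) ?_ ?_ R hR
  · have e : extn ((Oc σ).indicator g) = extn (fun x => (Oc σ).indicator (fun _ => (1 : ℂ)) x *
        Go b σ g (Φ x) (inner ℝ (EuclideanSpace.single (0 : Fin 3) (1 : ℝ) : E 3) x)) := by
      refine extn_cg fun x hx => ?_
      rw [EuclideanSpace.inner_single_left]
      simp only [conj_trivial, one_mul]
      by_cases ho : x ∈ Oc σ
      · rw [indicator_of_mem ho, indicator_of_mem ho, one_mul, hΦ]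
        exact (Go_eq hb hσ g hx ho).symm
      · rw [indicator_of_notMem ho, indicator_of_notMem ho, zero_mul]
    rw [e]
    exact h2
  · intro t s hs
    have hm : Measurable (Go b σ g t) := (Go_meas hg.1).comp measurable_prodMk_left
    refine (var_shift _ hm s hs).trans ?_
    calc ENNReal.ofReal s * eVariationOn (Go b σ g t) univ
        ≤ ENNReal.ofReal s * ENNReal.ofReal (5 * V) := by
          gcongr
          exact Go_var hb hσ hg t
      _ = ENNReal.ofReal (5 * V * s) := by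
          rw [← ENNReal.ofReal_mul hs.le, mul_comm]
  · intro N hN h0
    have h3 := null_oct hb hσ hN h0
    rw [← compl_mem_ae_iff] at h3
    filter_upwards [h3] with x hx
    by_cases ho : (x : E 3) ∈ Oc σ
    · right
      intro hN'
      apply hx
      refine ⟨ho, ?_⟩
      rw [EuclideanSpace.inner_single_left] at hN'
      simpa using hN'
    · left
      rw [indicator_of_notMem ho]

/-- The signs. -/
noncomputable def sgn (s : Fin 3 → Bool) (i : Fin 3) : ℝ := if s i then 1 else -1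

theorem sgn_sq (s : Fin 3 → Bool) (i : Fin 3) : sgn s i ^ 2 = 1 := by
  unfold sgn
  split_ifs <;> norm_num

theorem oct_sum (g : E 3 → ℂ) {x : E 3} (hx : ∀ i, x i ≠ 0) :
    ∑ s : Fin 3 → Bool, (Oc (sgn s)).indicator g x = g x := by
  rw [Finset.sum_eq_single fun i => decide (0 < x i)]
  · rw [indicator_of_mem]
    intro i
    unfold sgn
    rcases lt_or_gt_of_ne (hx i) with h | h
    · rw [if_neg]
      · linarith
      · simpa using h.le
    · rw [if_pos]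
      · linarith
      · simpa using h
  · intro s _ hs
    rw [indicator_of_notMem]
    intro h
    apply hs
    funext i
    have h1 := h i
    unfold sgn at h1
    cases hsi : s i
    · rw [hsi] at h1
      symm
      rw [decide_eq_false_iff_not]
      simp only [Bool.false_eq_true, if_false] at h1
      linarith
    · rw [hsi] at h1
      symm
      rw [decide_eq_true_iff]
      simp only [if_true] at h1
      linarith
  · intro h
    exact absurd (Finset.mem_univ _) h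

theorem extn_oct {g : E 3 → ℂ} (hg : Measurable g) {B : ℝ} (hB : ∀ x, ‖g x‖ ≤ B) (ξ : E 3) :
    extn g ξ = ∑ s : Fin 3 → Bool, extn ((Oc (sgn s)).indicator g) ξ := by
  unfold extn
  rw [← integral_finsetSum]
  · refine integral_congr_ae ?_
    have h1 : ∀ᵐ x : S 3 ∂(sm 3), ∀ i, (x : E 3) i ≠ 0 := by
      rw [ae_all_iff]
      intro i
      have := sm_plane i
      rwa [← compl_mem_ae_iff] at this
    filter_upwards [h1] with x hx
    rw [← Finset.sum_mul, oct_sum g hx]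
  · intro s _
    have hB0 : 0 ≤ B := (norm_nonneg _).trans (hB 0)
    refine extn_integrable (hg.indicator Oc_meas) (b := B) (fun x => ?_) ξ
    by_cases hx : x ∈ Oc (sgn s)
    · rw [indicator_of_mem hx]
      exact hB x
    · rw [indicator_of_notMem hx, norm_zero]
      exact hB0

theorem sum8 (a : (Fin 3 → Bool) → ℝ≥0∞) {p : ℝ} (hp : 0 ≤ p) :
    (∑ s, a s) ^ p ≤ 8 ^ p * ∑ s, a s ^ p := by
  obtain ⟨s0, -, hs0⟩ := Finset.exists_max_image (Finset.univ : Finset (Fin 3 → Bool)) a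
    ⟨fun _ => true, Finset.mem_univ _⟩
  have h1 : ∑ s, a s ≤ 8 * a s0 := by
    refine (Finset.sum_le_card_nsmul _ _ _ hs0).trans (le_of_eq ?_)
    rw [nsmul_eq_mul]
    congr 1
  calc (∑ s, a s) ^ p ≤ (8 * a s0) ^ p := by gcongr
    _ = 8 ^ p * a s0 ^ p := ENNReal.mul_rpow_of_nonneg _ _ hp
    _ ≤ 8 ^ p * ∑ s, a s ^ p := by
        gcongr
        exact Finset.single_le_sum (f := fun s => a s ^ p) (fun _ _ => zero_le) (Finset.mem_univ s0)

/-- **Bounded variation along the level curves of `Q`**, from the functions of `Q`: tails. -/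
theorem bvq_one (hb : Function.Injective b) {p : ℝ} (hp : 1 < p) (hq : QTail b p) (V : ℝ) :
    ∃ C η : ℝ, 0 < η ∧ ∀ g : E 3 → ℂ, ClV (fun x => ∑ i, b i * x i ^ 2) V g →
      (∀ x, ‖g x‖ ≤ 1) → ∀ R : ℝ, 1 ≤ R →
      ∫⁻ ξ in {ξ : E 3 | R ≤ ‖ξ‖}, ‖extn g ξ‖ₑ ^ p ≤ ENNReal.ofReal (C * R ^ (-η)) := by
  obtain ⟨C, η, hη, h⟩ := step2 hb hp hq V
  refine ⟨8 ^ p * (8 * |C|), η, hη, fun g hg hg1 R hR => ?_⟩
  have hR0 : 0 < R := by linarith
  have hpt : ∀ ξ, ‖extn g ξ‖ₑ ^ p ≤ 8 ^ p *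
      ∑ s : Fin 3 → Bool, ‖extn ((Oc (sgn s)).indicator g) ξ‖ₑ ^ p := by
    intro ξ
    rw [extn_oct hg.1 hg1 ξ]
    calc ‖∑ s : Fin 3 → Bool, extn ((Oc (sgn s)).indicator g) ξ‖ₑ ^ p
        ≤ (∑ s : Fin 3 → Bool, ‖extn ((Oc (sgn s)).indicator g) ξ‖ₑ) ^ p := by
          gcongr
          exact enorm_sum_le _ _
      _ ≤ _ := sum8 _ (by linarith)
  have h8 : (8 : ℝ≥0∞) ^ p ≠ ⊤ := ENNReal.rpow_ne_top_of_nonneg (by linarith) (by norm_num)
  calc ∫⁻ ξ in {ξ : E 3 | R ≤ ‖ξ‖}, ‖extn g ξ‖ₑ ^ p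
      ≤ ∫⁻ ξ in {ξ : E 3 | R ≤ ‖ξ‖}, 8 ^ p *
        ∑ s : Fin 3 → Bool, ‖extn ((Oc (sgn s)).indicator g) ξ‖ₑ ^ p := lintegral_mono hpt
    _ = 8 ^ p * ∑ s : Fin 3 → Bool,
        ∫⁻ ξ in {ξ : E 3 | R ≤ ‖ξ‖}, ‖extn ((Oc (sgn s)).indicator g) ξ‖ₑ ^ p := by
        rw [lintegral_const_mul' _ _ h8, lintegral_finsetSum]
        intro s _
        exact ((HSL.extn_meas (hg.1.indicator Oc_meas)).enorm.pow_const p)
    _ ≤ 8 ^ p * ∑ _s : Fin 3 → Bool, ENNReal.ofReal (|C| * R ^ (-η)) := by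
        gcongr with s
        refine (h (sgn s) (sgn_sq s) g hg hg1 R hR).trans (ENNReal.ofReal_le_ofReal ?_)
        gcongr
        exact le_abs_self C
    _ = ENNReal.ofReal (8 ^ p * (8 * |C|) * R ^ (-η)) := by
        have e1 : (8 : ℝ≥0∞) ^ p = ENNReal.ofReal (8 ^ p) := by
          rw [← ENNReal.ofReal_rpow_of_nonneg (by norm_num) (by linarith)]
          norm_num
        have e2 : (8 : ℝ≥0∞) = ENNReal.ofReal 8 := by norm_num
        rw [Finset.sum_const, nsmul_eq_mul, e1]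
        have e3 : ((Finset.univ : Finset (Fin 3 → Bool)).card : ℝ≥0∞) = 8 := by
          simp [Finset.card_univ]
        rw [e3, e2, ← ENNReal.ofReal_mul (by norm_num), ← ENNReal.ofReal_mul (by positivity)]
        congr 1
        ring
    _ ≤ _ := le_rfl

/-- Division by a constant `K ≥ 1`. -/
theorem clV_div {V K : ℝ} (hK : 1 ≤ K) {φ : E 3 → ℝ} {g : E 3 → ℂ} (hg : ClV φ V g) :
    ClV φ V fun x => ((K⁻¹ : ℝ) : ℂ) * g x := by
  have hK0 : 0 < K := by linarith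
  have hn : ‖((K⁻¹ : ℝ) : ℂ)‖ = K⁻¹ := by
    rw [Complex.norm_real, Real.norm_eq_abs, abs_of_pos (inv_pos.2 hK0)]
  have hK1 : K⁻¹ ≤ 1 := inv_le_one_of_one_le₀ hK
  obtain ⟨h1, h2, h3⟩ := hg
  refine ⟨measurable_const.mul h1, fun x => ?_, fun γ hγ hi hs => ?_⟩
  · rw [norm_mul, hn]
    calc K⁻¹ * ‖g x‖ ≤ 1 * ‖g x‖ := by gcongr
      _ ≤ V := by rw [one_mul]; exact h2 x
  · have hL : LipschitzWith 1 fun z : ℂ => ((K⁻¹ : ℝ) : ℂ) * z := by
      refine LipschitzWith.of_dist_le_mul fun z w => ?_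
      rw [dist_eq_norm, dist_eq_norm, ← mul_sub, norm_mul, hn, NNReal.coe_one]
      gcongr
    have h4 := (hL.lipschitzOnWith (s := univ)).comp_eVariationOn_le
      (g := fun u => g (γ u)) (s := Icc 0 1) (fun _ _ => mem_univ _)
    refine (le_trans (le_of_eq rfl) h4).trans ?_
    rw [ENNReal.coe_one, one_mul]
    exact h3 γ hγ hi hs

/-- **Every bounded measurable density on the whole sphere of `R^3` whose variation along the
level curves of `Q` is bounded; nothing is assumed across the curves**: tails. -/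
theorem bvq_tail (hb : Function.Injective b) {p : ℝ} (hp : 1 < p) (hq : QTail b p) (V : ℝ) :
    ∃ C η : ℝ, 0 < η ∧ ∀ g : E 3 → ℂ, ClV (fun x => ∑ i, b i * x i ^ 2) V g → ∀ R : ℝ, 1 ≤ R →
      ∫⁻ ξ in {ξ : E 3 | R ≤ ‖ξ‖}, ‖extn g ξ‖ₑ ^ p ≤ ENNReal.ofReal (C * R ^ (-η)) := by
  obtain ⟨C, η, hη, h⟩ := bvq_one hb hp hq V
  set K : ℝ := max V 1 with hK
  have hK1 : 1 ≤ K := le_max_right _ _
  have hK0 : 0 < K := by linarith
  have hn : ‖((K⁻¹ : ℝ) : ℂ)‖ = K⁻¹ := by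
    rw [Complex.norm_real, Real.norm_eq_abs, abs_of_pos (inv_pos.2 hK0)]
  refine ⟨K ^ p * C, η, hη, fun g hg R hR => ?_⟩
  have h1 := h _ (clV_div hK1 hg) (fun x => by
    rw [norm_mul, hn, inv_mul_le_iff₀ hK0, mul_one]
    exact (hg.2.1 x).trans (le_max_left _ _)) R hR
  have h2 := HSL.tail_smul (n := 3) (p := p) (by linarith) {ξ : E 3 | R ≤ ‖ξ‖} _ (K : ℂ) h1
  have e : (fun x => (K : ℂ) * (((K⁻¹ : ℝ) : ℂ) * g x)) = g := by
    funext x
    rw [← mul_assoc, ← Complex.ofReal_mul, mul_inv_cancel₀ hK0.ne', Complex.ofReal_one, one_mul]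
  rw [e] at h2
  refine h2.trans (le_of_eq ?_)
  have hKn : ‖(K : ℂ)‖ = K := by
    rw [Complex.norm_real, Real.norm_eq_abs, abs_of_pos hK0]
  rw [hKn, ← ENNReal.ofReal_mul (by positivity)]
  congr 1
  ring

/-- The same on the whole space. -/
theorem bvq (hb : Function.Injective b) {p : ℝ} (hp : 1 < p) (hq : QTail b p) (V : ℝ) :
    ∃ C : ℝ≥0∞, C ≠ ⊤ ∧ ∀ g : E 3 → ℂ, ClV (fun x => ∑ i, b i * x i ^ 2) V g →
      ∫⁻ ξ, ‖extn g ξ‖ₑ ^ p ≤ C := by
  obtain ⟨C, η, hη, h⟩ := bvq_one hb hp hq V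
  obtain ⟨C0, hC0, h0⟩ := HSL.tail_all 3 (p := p) (η := η) (C := |C|) (by linarith) hη
    (abs_nonneg C)
  set K : ℝ := max V 1 with hK
  have hK1 : 1 ≤ K := le_max_right _ _
  have hK0 : 0 < K := by linarith
  have hn : ‖((K⁻¹ : ℝ) : ℂ)‖ = K⁻¹ := by
    rw [Complex.norm_real, Real.norm_eq_abs, abs_of_pos (inv_pos.2 hK0)]
  refine ⟨ENNReal.ofReal (‖(K : ℂ)‖ ^ p) * ENNReal.ofReal C0,
    ENNReal.mul_ne_top ENNReal.ofReal_ne_top ENNReal.ofReal_ne_top, fun g hg => ?_⟩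
  have hb1 : ∀ x, ‖((K⁻¹ : ℝ) : ℂ) * g x‖ ≤ 1 := fun x => by
    rw [norm_mul, hn, inv_mul_le_iff₀ hK0, mul_one]
    exact (hg.2.1 x).trans (le_max_left _ _)
  have h1 := (h0 _ hb1 fun R hR => (h _ (clV_div hK1 hg) hb1 R hR).trans
    (ENNReal.ofReal_le_ofReal (mul_le_mul_of_nonneg_right (le_abs_self C) (by positivity)))).2
  have h2 := HSL.tail_smul (n := 3) (p := p) (by linarith) univ
    (ENNReal.ofReal C0) (K : ℂ) (by rw [Measure.restrict_univ]; exact h1)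
  have e : (fun x => (K : ℂ) * (((K⁻¹ : ℝ) : ℂ) * g x)) = g := by
    funext x
    rw [← mul_assoc, ← Complex.ofReal_mul, mul_inv_cancel₀ hK0.ne', Complex.ofReal_one, one_mul]
  rw [e, Measure.restrict_univ] at h2
  exact h2

open scoped ContDiff in
/-- The input from the theorem for the class `GC`. -/
theorem qtail_of {p : ℝ}
    (h : ∃ η : ℝ, 0 < η ∧ ∀ B : ℕ → ℝ, ∃ C : ℝ, ∀ G : ℝ → E 3 → ℂ, GC B G → ∀ R : ℝ, 1 ≤ R →
      ∫⁻ ξ in {ξ : E 3 | R ≤ ‖ξ‖}, ‖extn (fun x => G (∑ i, b i * x i ^ 2) x) ξ‖ₑ ^ p ≤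
        ENNReal.ofReal (C * R ^ (-η))) : QTail b p := by
  obtain ⟨η, hη, h⟩ := h
  obtain ⟨C, hC⟩ := h fun _ => 1
  refine ⟨C, η, hη, fun F hF hF1 R hR => hC (fun t _ => F t) ⟨?_, ?_, ?_⟩ R hR⟩
  · exact hF.comp measurable_fst
  · exact fun t => contDiff_const
  · intro k t x
    rcases Nat.eq_zero_or_pos k with rfl | hk
    · rw [norm_iteratedFDeriv_zero]
      exact hF1 t
    · rw [iteratedFDeriv_const_of_ne hk.ne']
      simp

end Pool.Agent.LQ.BVQ
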