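import Pool.Agent.LQ.BVQ1
import Pool.Agent.LF2.BVS
import Pool.Agent.MP_6cbfb8_an.LonF
import Pool.Agent.MP_6cbfb8_an.Main

/-!
[BVZ] `n = 3`, variation along the parallels: the energy of a parallel (helper11).
-/

set_option autoImplicit false

namespace Pool.Agent.LQ.BVZ

open MeasureTheory Set Pool.Agent.MP_6cbfb8_an Pool.Agent.LF
open scoped ENNReal NNReal Real

theorem c_norm (u t : ℝ) : ‖lonF_c u - lonF_c (u + t)‖ = 2 * |Real.sin (t / 2)| := by
  have h1 : ‖lonF_c u - lonF_c (u + t)‖ ^ 2 = (2 * |Real.sin (t / 2)|) ^ 2 := by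
    rw [EuclideanSpace.norm_sq_eq, Fin.sum_univ_two]
    simp only [PiLp.sub_apply, lonF_c_zero, lonF_c_one, Real.norm_eq_abs, sq_abs, mul_pow]
    have h2 : Real.cos t = 1 - 2 * Real.sin (t / 2) ^ 2 := by
      have h3 := Real.cos_two_mul (t / 2)
      have h4 := Real.sin_sq_add_cos_sq (t / 2)
      rw [show 2 * (t / 2) = t by ring] at h3
      linarith
    have h5 := Real.sin_sq_add_cos_sq u
    have h6 := Real.sin_sq_add_cos_sq (u + t)
    have h7 : Real.cos t = Real.cos (u + t) * Real.cos u + Real.sin (u + t) * Real.sin u := by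
      rw [← Real.cos_sub]
      congr 1
      ring
    nlinarith
  exact (pow_left_inj₀ (norm_nonneg _) (by positivity) two_ne_zero).1 h1

theorem c_lip (u t : ℝ) : ‖lonF_c u - lonF_c (u + t)‖ ≤ |t| := by
  rw [c_norm]
  have h1 : |Real.sin (t / 2)| ≤ |t / 2| := Real.abs_sin_le_abs
  rw [abs_div, abs_of_pos (two_pos : (0 : ℝ) < 2)] at h1
  linarith

theorem c_lower {t : ℝ} (ht : |t| ≤ π) (u : ℝ) :
    2 / π * |t| ≤ ‖lonF_c u - lonF_c (u + t)‖ := by
  rw [c_norm]
  have h1 : 2 / π * (|t| / 2) ≤ Real.sin (|t| / 2) :=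
    Real.mul_le_sin (by positivity) (by linarith)
  have h2 : Real.sin (|t| / 2) ≤ |Real.sin (t / 2)| := by
    rcases abs_cases t with ⟨h, -⟩ | ⟨h, -⟩
    · rw [h]
      exact le_abs_self _
    · rw [h, neg_div, Real.sin_neg]
      exact neg_le_abs _
  calc 2 / π * |t| = 2 * (2 / π * (|t| / 2)) := by ring
    _ ≤ 2 * |Real.sin (t / 2)| := by linarith

theorem pt_sub_eq (θ : ℝ) (ω ω' : E 2) : ‖pt θ ω - pt θ ω'‖ = |Real.sin θ| * ‖ω - ω'‖ := by
  have h1 : pt θ ω - pt θ ω' = join (Real.sin θ • (ω - ω')) 0 := by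
    unfold pt join
    ext i
    refine Fin.lastCases ?_ (fun j => ?_) i
    · have e : ∀ (x : E 2) (t : ℝ), (WithLp.toLp 2 (Fin.snoc (α := fun _ => ℝ) (fun i => x i) t) :
          E 3) (Fin.last 2) = t := by
        intro x t
        change Fin.snoc (α := fun _ => ℝ) (fun i => x i) t (Fin.last 2) = t
        exact Fin.snoc_last _ _
      rw [PiLp.sub_apply, e, e, e, sub_self]
    · simp [mul_sub]
  have h2 : ‖pt θ ω - pt θ ω'‖ ^ 2 = (|Real.sin θ| * ‖ω - ω'‖) ^ 2 := by
    rw [h1, norm_join_sq, norm_smul, Real.norm_eq_abs]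
    ring
  exact (pow_left_inj₀ (norm_nonneg _) (by positivity) two_ne_zero).1 h2

/-- The variation along a parallel. -/
theorem par_var {V : ℝ} {g : E 3 → ℂ} (hg : ClV (fun x : E 3 => x 2 ^ 2) V g) {θ : ℝ}
    (hθ : Real.sin θ ≠ 0) (a : ℝ) :
    eVariationOn (fun u => g (pt θ (lonF_c u))) (Icc a (a + π)) ≤
      ((4 : ℕ) : ℝ≥0∞) * ENNReal.ofReal V := by
  refine BVQ.arc_var hg (x := fun u => pt θ (lonF_c u)) (ℓ := fun u => u) 4
    (by linarith [Real.pi_pos]) continuousOn_id (strictMono_id.strictMonoOn _) ?_ ?_ ?_ ?_ ?_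
  · have := Real.pi_le_four
    push_cast
    linarith
  · intro s _ s' _ hss
    rw [norm_sub_rev, pt_sub_eq]
    have h1 := c_lip s (s' - s)
    rw [show s + (s' - s) = s' by ring, abs_of_nonneg (sub_nonneg.2 hss)] at h1
    calc |Real.sin θ| * ‖lonF_c s - lonF_c s'‖ ≤ 1 * (s' - s) :=
          mul_le_mul (Real.abs_sin_le_one θ) h1 (norm_nonneg _) zero_le_one
      _ = s' - s := one_mul _
  · intro s hs s' hs' h
    have h0 : ‖pt θ (lonF_c s) - pt θ (lonF_c s')‖ = 0 := by
      simp only at h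
      rw [h, sub_self, norm_zero]
    rw [pt_sub_eq] at h0
    have h1 : ‖lonF_c s - lonF_c s'‖ = 0 := by
      rcases mul_eq_zero.1 h0 with h2 | h2
      · exact absurd (abs_eq_zero.1 h2) hθ
      · exact h2
    have h3 : |s' - s| ≤ π := by
      rw [abs_le]
      constructor <;> linarith [hs.1, hs.2, hs'.1, hs'.2]
    have h4 := c_lower h3 s
    rw [show s + (s' - s) = s' by ring, h1] at h4
    have h5 : 0 < 2 / π := by positivity
    have h6 : |s' - s| ≤ 0 := by
      by_contra h7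
      push Not at h7
      have := mul_pos h5 h7
      linarith
    have h8 := abs_eq_zero.1 (le_antisymm h6 (abs_nonneg _))
    linarith
  · intro s _
    exact norm_pt θ ⟨lonF_c s, lonF_mem s⟩
  · intro s _
    have h1 : ∀ ω : E 2, (pt θ ω) 2 = Real.cos θ := by
      intro ω
      unfold pt join
      change Fin.snoc (α := fun _ => ℝ) (fun i => (Real.sin θ • ω) i) (Real.cos θ) (Fin.last 2) = _
      exact Fin.snoc_last _ _
    simp only [h1]

/-- The variation along `k` half turns. -/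
theorem par_steps {V : ℝ} {g : E 3 → ℂ} (hg : ClV (fun x : E 3 => x 2 ^ 2) V g) {θ : ℝ}
    (hθ : Real.sin θ ≠ 0) (k : ℕ) : ∀ a : ℝ,
    eVariationOn (fun u => g (pt θ (lonF_c u))) (Icc a (a + k * π)) ≤
      (k : ℝ≥0∞) * (((4 : ℕ) : ℝ≥0∞) * ENNReal.ofReal V) := by
  induction k with
  | zero =>
    intro a
    rw [Nat.cast_zero, zero_mul, add_zero, Icc_self,
      eVariationOn.subsingleton _ subsingleton_singleton]
    exact zero_le
  | succ k ih =>
    intro a
    have hπ := Real.pi_pos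
    have h1 : a ≤ a + π := by linarith
    have h2 : a + π ≤ a + ((k + 1 : ℕ) : ℝ) * π := by
      push_cast
      nlinarith [Nat.cast_nonneg (α := ℝ) k]
    have e := eVariationOn.Icc_add_Icc (fun u => g (pt θ (lonF_c u))) (s := univ) h1 h2
      (mem_univ _)
    simp only [univ_inter] at e
    rw [← e]
    have h3 := ih (a + π)
    have e2 : a + π + k * π = a + ((k + 1 : ℕ) : ℝ) * π := by
      push_cast
      ring
    rw [e2] at h3
    calc _ ≤ ((4 : ℕ) : ℝ≥0∞) * ENNReal.ofReal V +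
          (k : ℝ≥0∞) * (((4 : ℕ) : ℝ≥0∞) * ENNReal.ofReal V) := add_le_add (par_var hg hθ a) h3
      _ = _ := by
        push_cast
        ring

/-- The shift estimate on a parallel. -/
theorem par_shift {V : ℝ} {g : E 3 → ℂ} (hg : ClV (fun x : E 3 => x 2 ^ 2) V g) {θ : ℝ}
    (hθ : Real.sin θ ≠ 0) {t : ℝ} (ht : |t| ≤ π) :
    ∫⁻ u in Ioo (-π) π, edist (g (pt θ (lonF_c (u + t)))) (g (pt θ (lonF_c u))) ≤
      ENNReal.ofReal |t| * (18 * ENNReal.ofReal V) := by
  set h : ℝ → ℂ := fun u => g (pt θ (lonF_c u)) with hh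
  set I : Set ℝ := Icc (-(2 * π)) (2 * π) with hI
  have hπ := Real.pi_pos
  have h1 : eVariationOn h I ≤ 16 * ENNReal.ofReal V := by
    have h2 := par_steps hg hθ 4 (-(2 * π))
    have e : -(2 * π) + ((4 : ℕ) : ℝ) * π = 2 * π := by
      push_cast
      ring
    rw [e] at h2
    refine h2.trans (le_of_eq ?_)
    push_cast
    ring
  have h2 := BVQ.var_indicator (I := I) ordConnected_Icc (h := h) (M := V)
    (fun s => hg.2.1 _) (B := 16 * ENNReal.ofReal V) fun a ha b hb _ =>
      (eVariationOn.mono h (Icc_subset_Icc ha.1 hb.2)).trans h1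
  have h3 : eVariationOn (I.indicator h) univ ≤ 18 * ENNReal.ofReal V := by
    refine h2.trans (le_of_eq ?_)
    rw [← add_mul]
    norm_num
  have h4 := LF2.bv_shift (I.indicator h) _ h3 t
  refine le_trans ?_ h4
  refine le_trans (setLIntegral_mono_ae' measurableSet_Ioo ?_) (setLIntegral_le_lintegral _ _)
  refine Filter.Eventually.of_forall fun u hu => ?_
  have h5 := abs_le.1 ht
  have m1 : u ∈ I := ⟨by linarith [hu.1], by linarith [hu.2]⟩
  have m2 : u + t ∈ I := ⟨by linarith [hu.1, h5.1], by linarith [hu.2, h5.2]⟩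
  rw [indicator_of_mem m1, indicator_of_mem m2]

end Pool.Agent.LQ.BVZ
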