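import Pool.Agent.LQ.BVZ0

/-!
[BVZ] The energy of a function on the circle in terms of its shifts (helper11).
-/

set_option autoImplicit false

namespace Pool.Agent.LQ.BVZ

open MeasureTheory Set Pool.Agent.MP_6cbfb8_an Pool.Agent.LF
open scoped ENNReal NNReal Real

theorem c_period (u : ℝ) : lonF_c (u + 2 * π) = lonF_c u := by
  unfold lonF_c
  rw [Real.cos_add_two_pi, Real.sin_add_two_pi]

theorem c_period_int (k : ℤ) (u : ℝ) : lonF_c (k * (2 * π) + u) = lonF_c u := by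
  unfold lonF_c
  rw [add_comm, Real.cos_add_int_mul_two_pi, Real.sin_add_int_mul_two_pi]

/-- Integrals over the circle. -/
theorem circle_lintegral (F : E 2 → ℝ≥0∞) (hF : Measurable F) (u : ℝ) :
    ∫⁻ ω : S 2, F ω ∂(sm 2) = ∫⁻ t in Ioc (-π) π, F (lonF_c (u + t)) := by
  have hπ := Real.pi_pos
  have e1 : ∫⁻ ω : S 2, F ω ∂(sm 2) = ∫⁻ t in Ioo (-π) π, F (lonF_c t) :=
    (lonF_circle.lintegral_comp (f := fun ω : S 2 => F ω) (hF.comp measurable_subtype_coe)).symm
  have e2 : ∫⁻ t in Ioo (-π) π, F (lonF_c t) = ∫⁻ t in Ioc (-π) (-π + 2 * π), F (lonF_c t) := by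
    rw [show -π + 2 * π = π by ring]
    exact setLIntegral_congr Ioo_ae_eq_Ioc
  have e3 : ∫⁻ t in Ioc (-π) (-π + 2 * π), F (lonF_c t) =
      ∫⁻ t in Ioc (u - π) (u - π + 2 * π), F (lonF_c t) := by
    have h1 := isAddFundamentalDomain_Ioc (T := 2 * π) (by positivity) (-π) (μ := volume)
    have h2 := isAddFundamentalDomain_Ioc (T := 2 * π) (by positivity) (u - π) (μ := volume)
    refine h1.setLIntegral_eq h2 (fun t => F (lonF_c t)) ?_
    rintro ⟨g, hg⟩ x
    obtain ⟨k, rfl⟩ := AddSubgroup.mem_zmultiples_iff.1 hg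
    change F (lonF_c (k • (2 * π) + x)) = F (lonF_c x)
    rw [zsmul_eq_mul, c_period_int]
  have e4 : ∫⁻ t in Ioc (-π) π, F (lonF_c (u + t)) =
      ∫⁻ t in Ioc (u - π) (u - π + 2 * π), F (lonF_c t) := by
    have h1 := (measurePreserving_add_left (volume : Measure ℝ) u).setLIntegral_comp_preimage
      (s := Ioc (u - π) (u - π + 2 * π)) measurableSet_Ioc
      (f := fun t => F (lonF_c t)) (hF.comp lonF_continuous.measurable)
    rw [preimage_const_add_Ioc] at h1
    rw [← h1]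
    congr 2
    congr 1
    · ring
    · ring
  rw [e1, e2, e3, e4]

theorem kern_finite : ∫⁻ t in Ioc (-π) π, ENNReal.ofReal |t| /
    ENNReal.ofReal ((2 / π * |t|) ^ (9 / 5 : ℝ)) ≠ ⊤ := by
  have hπ := Real.pi_pos
  set f : ℝ → ℝ≥0∞ := fun t => ENNReal.ofReal |t| / ENNReal.ofReal ((2 / π * |t|) ^ (9 / 5 : ℝ))
    with hf
  have h0 : ∫⁻ t in Ioc 0 π, f t ≠ ⊤ := by
    have h1 : IntegrableOn (fun t : ℝ => (2 / π) ^ (-(9 / 5) : ℝ) * t ^ (-(4 / 5) : ℝ)) (Ioc 0 π) := by
      have h2 : IntervalIntegrable (fun t : ℝ => t ^ (-(4 / 5) : ℝ)) volume 0 π :=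
        intervalIntegral.intervalIntegrable_rpow' (by norm_num)
      exact ((intervalIntegrable_iff_integrableOn_Ioc_of_le hπ.le).1 h2).const_mul _
    refine ne_of_lt (lt_of_le_of_lt ?_ h1.lintegral_lt_top)
    refine setLIntegral_mono_ae' measurableSet_Ioc (Filter.Eventually.of_forall fun t ht => ?_)
    have ht0 : 0 < t := ht.1
    rw [hf]
    simp only
    rw [abs_of_pos ht0, ← ENNReal.ofReal_div_of_pos (by positivity)]
    refine ENNReal.ofReal_le_ofReal (le_of_eq ?_)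
    rw [Real.mul_rpow (by positivity) ht0.le, Real.rpow_neg (by positivity),
      show (-(4 / 5) : ℝ) = 1 - 9 / 5 by norm_num, Real.rpow_sub ht0, Real.rpow_one]
    field_simp
  have h1 : ∫⁻ t in Ioc (-π) 0, f t ≠ ⊤ := by
    have e : ∫⁻ t in Ioc (-π) 0, f t = ∫⁻ t in Ico 0 π, f t := by
      have h2 := (Measure.measurePreserving_neg (volume : Measure ℝ)).setLIntegral_comp_preimage
        (s := Ioc (-π) 0) measurableSet_Ioc (f := f) (by rw [hf]; fun_prop)
      rw [← h2]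
      have e3 : (fun a : ℝ => -a) ⁻¹' Ioc (-π) 0 = Ico 0 π := by
        ext x
        simp only [mem_preimage, mem_Ioc, mem_Ico]
        constructor
        · rintro ⟨h4, h5⟩
          constructor <;> linarith
        · rintro ⟨h4, h5⟩
          constructor <;> linarith
      change ∫⁻ a in (fun a : ℝ => -a) ⁻¹' Ioc (-π) 0, f (-a) = _
      rw [e3]
      simp only [hf, abs_neg]
    rw [e, setLIntegral_congr Ico_ae_eq_Ioc]
    exact h0
  have e : Ioc (-π) π = Ioc (-π) 0 ∪ Ioc 0 π := (Ioc_union_Ioc_eq_Ioc (by linarith) hπ.le).symm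
  rw [e]
  exact ne_top_of_le_ne_top (ENNReal.add_ne_top.2 ⟨h1, h0⟩) (lintegral_union_le _ _ _)

/-- The energy of a function on the circle. -/
theorem circle_energy {f : E 2 → ℂ} (hf : Measurable f) {V : ℝ} (hV : ∀ x, ‖f x‖ ≤ V)
    {B : ℝ≥0∞} (hsh : ∀ t, |t| ≤ π → ∫⁻ u in Ioo (-π) π, edist (f (lonF_c (u + t))) (f (lonF_c u)) ≤
      ENNReal.ofReal |t| * B) :
    ∫⁻ ω : S 2, (∫⁻ ω' : S 2, ‖f (ω : E 2) - f (ω' : E 2)‖ₑ ^ (2 : ℝ) /
        ENNReal.ofReal (‖(ω : E 2) - (ω' : E 2)‖ ^ (9 / 5 : ℝ)) ∂(sm 2)) ∂(sm 2) ≤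
      ENNReal.ofReal (2 * V) * B * ∫⁻ t in Ioc (-π) π, ENNReal.ofReal |t| /
        ENNReal.ofReal ((2 / π * |t|) ^ (9 / 5 : ℝ)) := by
  have hπ := Real.pi_pos
  set F : E 2 → E 2 → ℝ≥0∞ := fun ω ω' => ‖f ω - f ω'‖ₑ ^ (2 : ℝ) /
    ENNReal.ofReal (‖ω - ω'‖ ^ (9 / 5 : ℝ)) with hF
  have hFm : Measurable fun q : E 2 × E 2 => F q.1 q.2 := by
    rw [hF]
    refine Measurable.div ?_ ?_
    · exact (((hf.comp measurable_fst).sub (hf.comp measurable_snd)).enorm).pow_const _
    · exact ENNReal.measurable_ofReal.comp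
        (((measurable_fst.sub measurable_snd).norm).pow_const _)
  have hFG : Measurable fun q : ℝ × ℝ => F (lonF_c q.1) (lonF_c (q.1 + q.2)) := by
    have h1 : Measurable fun q : ℝ × ℝ => lonF_c q.1 :=
      lonF_continuous.measurable.comp measurable_fst
    have h2 : Measurable fun q : ℝ × ℝ => lonF_c (q.1 + q.2) :=
      lonF_continuous.measurable.comp (measurable_fst.add measurable_snd)
    have h3 : Measurable fun q : ℝ × ℝ => (lonF_c q.1, lonF_c (q.1 + q.2)) := h1.prodMk h2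
    exact Measurable.comp (g := fun q : E 2 × E 2 => F q.1 q.2)
      (f := fun q : ℝ × ℝ => (lonF_c q.1, lonF_c (q.1 + q.2))) hFm h3
  have hF1 : ∀ ω : E 2, Measurable (F ω) := by
    intro ω
    have h3 : Measurable fun ω' : E 2 => (ω, ω') := measurable_const.prodMk measurable_id
    exact Measurable.comp (g := fun q : E 2 × E 2 => F q.1 q.2)
      (f := fun ω' : E 2 => (ω, ω')) hFm h3
  -- in polar angles
  have e1 : ∫⁻ ω : S 2, (∫⁻ ω' : S 2, F ω ω' ∂(sm 2)) ∂(sm 2) =
      ∫⁻ u in Ioo (-π) π, ∫⁻ t in Ioc (-π) π, F (lonF_c u) (lonF_c (u + t)) := by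
    have h1 := lonF_circle.lintegral_comp
      (f := fun ω : S 2 => ∫⁻ ω' : S 2, F ω ω' ∂(sm 2)) ?_
    · rw [← h1]
      refine lintegral_congr fun u => ?_
      exact circle_lintegral (F (lonF_c u)) (hF1 _) u
    · have h3 : Measurable fun q : S 2 × S 2 => ((q.1 : E 2), (q.2 : E 2)) :=
        (measurable_subtype_coe.comp measurable_fst).prodMk
          (measurable_subtype_coe.comp measurable_snd)
      have h2 : Measurable fun q : S 2 × S 2 => F q.1 q.2 :=
        Measurable.comp (g := fun q : E 2 × E 2 => F q.1 q.2)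
          (f := fun q : S 2 × S 2 => ((q.1 : E 2), (q.2 : E 2))) hFm h3
      exact h2.lintegral_prod_right'
  change ∫⁻ ω : S 2, (∫⁻ ω' : S 2, F ω ω' ∂(sm 2)) ∂(sm 2) ≤ _
  rw [e1, lintegral_lintegral_swap hFG.aemeasurable]
  -- one shift
  have h2 : ∀ t ∈ Ioc (-π) π, ∫⁻ u in Ioo (-π) π, F (lonF_c u) (lonF_c (u + t)) ≤
      ENNReal.ofReal (2 * V) * B * (ENNReal.ofReal |t| /
        ENNReal.ofReal ((2 / π * |t|) ^ (9 / 5 : ℝ))) := by
    intro t ht
    have ht' : |t| ≤ π := abs_le.2 ⟨ht.1.le, ht.2⟩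
    rcases eq_or_ne t 0 with rfl | ht0
    · have e3 : ∀ u, F (lonF_c u) (lonF_c (u + 0)) = 0 := by
        intro u
        rw [hF]
        simp only [add_zero, sub_self, enorm_zero]
        rw [ENNReal.zero_rpow_of_pos (by norm_num), ENNReal.zero_div]
      simp only [e3, lintegral_const, zero_mul]
      exact zero_le
    · have ht1 : 0 < |t| := abs_pos.2 ht0
      set D : ℝ≥0∞ := ENNReal.ofReal ((2 / π * |t|) ^ (9 / 5 : ℝ)) with hD
      have hD0 : D ≠ 0 := by
        rw [hD]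
        simp only [ne_eq, ENNReal.ofReal_eq_zero, not_le]
        positivity
      have hp : ∀ u, F (lonF_c u) (lonF_c (u + t)) ≤
          (ENNReal.ofReal (2 * V) / D) * edist (f (lonF_c (u + t))) (f (lonF_c u)) := by
        intro u
        rw [hF]
        simp only
        have h3 : D ≤ ENNReal.ofReal (‖lonF_c u - lonF_c (u + t)‖ ^ (9 / 5 : ℝ)) := by
          rw [hD]
          refine ENNReal.ofReal_le_ofReal (Real.rpow_le_rpow (by positivity) (c_lower ht' u)
            (by norm_num))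
        have h4 : ‖f (lonF_c u) - f (lonF_c (u + t))‖ₑ ≤ ENNReal.ofReal (2 * V) := by
          rw [← ofReal_norm]
          refine ENNReal.ofReal_le_ofReal ((norm_sub_le _ _).trans ?_)
          linarith [hV (lonF_c u), hV (lonF_c (u + t))]
        have h5 : edist (f (lonF_c (u + t))) (f (lonF_c u)) =
            ‖f (lonF_c u) - f (lonF_c (u + t))‖ₑ := by
          rw [edist_comm, edist_eq_enorm_sub]
        rw [h5]
        calc ‖f (lonF_c u) - f (lonF_c (u + t))‖ₑ ^ (2 : ℝ) /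
              ENNReal.ofReal (‖lonF_c u - lonF_c (u + t)‖ ^ (9 / 5 : ℝ))
            ≤ ‖f (lonF_c u) - f (lonF_c (u + t))‖ₑ ^ (2 : ℝ) / D := ENNReal.div_le_div_left h3 _
          _ = (‖f (lonF_c u) - f (lonF_c (u + t))‖ₑ * ‖f (lonF_c u) - f (lonF_c (u + t))‖ₑ) / D := by
              congr 1
              rw [show (2 : ℝ) = ((2 : ℕ) : ℝ) by norm_num, ENNReal.rpow_natCast, sq]
          _ ≤ (ENNReal.ofReal (2 * V) * ‖f (lonF_c u) - f (lonF_c (u + t))‖ₑ) / D := by gcongr
          _ = _ := by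
              rw [ENNReal.div_eq_inv_mul, ENNReal.div_eq_inv_mul]
              ring
      have hVD : ENNReal.ofReal (2 * V) / D ≠ ⊤ := (ENNReal.div_lt_top ENNReal.ofReal_ne_top hD0).ne
      calc ∫⁻ u in Ioo (-π) π, F (lonF_c u) (lonF_c (u + t))
          ≤ ∫⁻ u in Ioo (-π) π, (ENNReal.ofReal (2 * V) / D) *
              edist (f (lonF_c (u + t))) (f (lonF_c u)) := lintegral_mono hp
        _ = (ENNReal.ofReal (2 * V) / D) *
              ∫⁻ u in Ioo (-π) π, edist (f (lonF_c (u + t))) (f (lonF_c u)) :=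
            lintegral_const_mul' _ _ hVD
        _ ≤ (ENNReal.ofReal (2 * V) / D) * (ENNReal.ofReal |t| * B) := by
            gcongr
            exact hsh t ht'
        _ = _ := by
            rw [ENNReal.div_eq_inv_mul, ENNReal.div_eq_inv_mul]
            ring
  refine (setLIntegral_mono_ae' measurableSet_Ioc (Filter.Eventually.of_forall h2)).trans
    (le_of_eq ?_)
  rw [lintegral_const_mul _ (by fun_prop)]

end Pool.Agent.LQ.BVZ
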