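import Pool.Agent.LQ.BVZ1

/-!
[BVZ] `n = 3`, bounded variation along the parallels: the estimate (helper11).
-/

set_option autoImplicit false

namespace Pool.Agent.LQ.BVZ

open MeasureTheory Set Pool.Agent.MP_6cbfb8_an Pool.Agent.LF
open scoped ENNReal NNReal Real

theorem angEnergy_const_mul {n : ℕ} (s : ℝ) (c : ℂ) (g : E (n + 1) → ℂ) :
    angEnergy s (fun x => c * g x) = ‖c‖ₑ ^ (2 : ℝ) * angEnergy s g := by
  have hk : ‖c‖ₑ ^ (2 : ℝ) ≠ ⊤ := ENNReal.rpow_ne_top_of_nonneg (by norm_num) enorm_ne_top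
  unfold angEnergy
  rw [← lintegral_const_mul' _ _ hk]
  refine lintegral_congr fun θ => ?_
  rw [mul_left_comm, ← lintegral_const_mul' _ _ hk]
  congr 1
  refine lintegral_congr fun ω => ?_
  rw [← lintegral_const_mul' _ _ hk]
  refine lintegral_congr fun ω' => ?_
  rw [← mul_sub, enorm_mul, ENNReal.mul_rpow_of_nonneg _ _ (by norm_num), mul_div_assoc]

theorem energy_le (V : ℝ) : ∃ A : ℝ, 0 ≤ A ∧ ∀ g : E 3 → ℂ,
    ClV (fun x : E 3 => x 2 ^ 2) V g → angEnergy (n := 2) (2 / 5) g ≤ ENNReal.ofReal A := by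
  set K : ℝ≥0∞ := ∫⁻ t in Ioc (-π) π, ENNReal.ofReal |t| /
    ENNReal.ofReal ((2 / π * |t|) ^ (9 / 5 : ℝ)) with hK
  set T : ℝ≥0∞ := ENNReal.ofReal (2 * V) * (18 * ENNReal.ofReal V) * K with hT
  have hTt : T * ENNReal.ofReal π ≠ ⊤ := by
    refine ENNReal.mul_ne_top (ENNReal.mul_ne_top (ENNReal.mul_ne_top ENNReal.ofReal_ne_top
      (ENNReal.mul_ne_top (by norm_num) ENNReal.ofReal_ne_top)) kern_finite) ENNReal.ofReal_ne_top
  refine ⟨(T * ENNReal.ofReal π).toReal, ENNReal.toReal_nonneg, fun g hg => ?_⟩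
  rw [ENNReal.ofReal_toReal hTt]
  unfold angEnergy
  calc _ ≤ ∫⁻ _ in Ioo 0 π, T := by
        refine setLIntegral_mono_ae' measurableSet_Ioo (Filter.Eventually.of_forall fun θ hθ => ?_)
        have hs : Real.sin θ ≠ 0 := (Real.sin_pos_of_pos_of_lt_pi hθ.1 hθ.2).ne'
        have e1 : ENNReal.ofReal (Real.sin θ ^ (2 - 2)) = 1 := by
          rw [show (2 - 2 : ℕ) = 0 from rfl, pow_zero, ENNReal.ofReal_one]
        have e2 : ((2 : ℕ) : ℝ) - 1 + 2 * (2 / 5) = 9 / 5 := by norm_num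
        rw [e1, one_mul, e2]
        have hm : Measurable fun ω : E 2 => g (pt θ ω) := by
          have h1 : Continuous fun ω : E 2 => (θ, ω) := by fun_prop
          exact hg.1.comp (continuous_pt.comp h1).measurable
        exact circle_energy hm (fun x => hg.2.1 _) fun t ht => par_shift hg hs ht
    _ = T * ENNReal.ofReal π := by
        rw [setLIntegral_const, Real.volume_Ioo, sub_zero]

/-- Every bounded measurable density on the sphere of `R^3` whose variation along the parallels is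
bounded; nothing is assumed across the parallels. -/
theorem bvz0 {p : ℝ} (hp : 3 < p) (V : ℝ) :
    ∃ C : ℝ≥0∞, C ≠ ⊤ ∧ ∀ g : E 3 → ℂ, ClV (fun x : E 3 => x 2 ^ 2) V g →
      ∫⁻ ξ, ‖extn g ξ‖ₑ ^ p ≤ C := by
  obtain ⟨A, hA, hE⟩ := energy_le V
  obtain ⟨C, hC, H⟩ := main 2 le_rfl (2 / 5) p (by norm_num) (by norm_num; linarith)
    (by norm_num; linarith)
  have hV0 := abs_nonneg V
  set L : ℝ := 1 + |V| + A with hLd
  have hL : 1 ≤ L := by linarith
  have hL0 : 0 < L := by linarith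
  have hp0 : 0 ≤ p := by linarith
  refine ⟨ENNReal.ofReal L ^ p * C,
    ENNReal.mul_ne_top (ENNReal.rpow_ne_top_of_nonneg hp0 ENNReal.ofReal_ne_top) hC,
    fun g hg => ?_⟩
  set g1 : E 3 → ℂ := fun x => ((L⁻¹ : ℝ) : ℂ) * g x with hg1
  have hn : ‖((L⁻¹ : ℝ) : ℂ)‖ = L⁻¹ := by
    rw [Complex.norm_real, Real.norm_of_nonneg (inv_nonneg.2 hL0.le)]
  have h1 := H g1 (hg.1.const_mul _) (fun x => by
    rw [hg1]
    simp only
    rw [norm_mul, hn]
    calc L⁻¹ * ‖g x‖ ≤ L⁻¹ * L := by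
          refine mul_le_mul_of_nonneg_left ?_ (inv_nonneg.2 hL0.le)
          have := (hg.2.1 x).trans (le_abs_self V)
          linarith
      _ = 1 := inv_mul_cancel₀ hL0.ne') (by
    rw [hg1, angEnergy_const_mul]
    have h2 := hE g hg
    have h3 : ‖((L⁻¹ : ℝ) : ℂ)‖ₑ ^ (2 : ℝ) = ENNReal.ofReal (L⁻¹ ^ 2) := by
      rw [← ofReal_norm, hn, ENNReal.ofReal_rpow_of_nonneg (inv_nonneg.2 hL0.le) (by norm_num)]
      norm_num
    rw [h3]
    calc ENNReal.ofReal (L⁻¹ ^ 2) * angEnergy (n := 2) (2 / 5) g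
        ≤ ENNReal.ofReal (L⁻¹ ^ 2) * ENNReal.ofReal A := by gcongr
      _ = ENNReal.ofReal (L⁻¹ ^ 2 * A) := (ENNReal.ofReal_mul (by positivity)).symm
      _ ≤ ENNReal.ofReal 1 := by
          refine ENNReal.ofReal_le_ofReal ?_
          rw [inv_pow, inv_mul_le_iff₀ (by positivity)]
          nlinarith
      _ = 1 := ENNReal.ofReal_one)
  have h3 : ∀ ξ, extn g ξ = (L : ℂ) * extn g1 ξ := by
    intro ξ
    unfold extn
    rw [← integral_const_mul]
    refine integral_congr_ae (Filter.Eventually.of_forall fun x => ?_)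
    simp only [hg1]
    have hLc : ((L : ℝ) : ℂ) ≠ 0 := Complex.ofReal_ne_zero.2 hL0.ne'
    push_cast
    field_simp
  have h4 : ‖((L : ℝ) : ℂ)‖ₑ = ENNReal.ofReal L := by
    rw [← ofReal_norm, Complex.norm_real, Real.norm_eq_abs, abs_of_pos hL0]
  calc ∫⁻ ξ, ‖extn g ξ‖ₑ ^ p = ∫⁻ ξ, ENNReal.ofReal L ^ p * ‖extn g1 ξ‖ₑ ^ p := by
        refine lintegral_congr fun ξ => ?_
        rw [h3, enorm_mul, ENNReal.mul_rpow_of_nonneg _ _ hp0, h4]
    _ = ENNReal.ofReal L ^ p * ∫⁻ ξ, ‖extn g1 ξ‖ₑ ^ p :=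
        lintegral_const_mul' _ _ (ENNReal.rpow_ne_top_of_nonneg hp0 ENNReal.ofReal_ne_top)
    _ ≤ _ := by gcongr

end Pool.Agent.LQ.BVZ
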