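import Pool.Agent.MP_6cbfb8_an.Slice

/-!
The energy of spherical caps.
-/

set_option autoImplicit false

namespace Pool.Agent.LFD

open MeasureTheory Set Pool.Agent.MP_6cbfb8_an
open scoped ENNReal Real RealInnerProductSpace

theorem cap_rot {j : ℕ} (u : E (j + 2)) (hu : ‖u‖ = 1) :
    ∃ R : E (j + 2) ≃ₗᵢ[ℝ] E (j + 2), ∀ x, (R x) (Fin.last (j + 1)) = ⟪x, u⟫ := by
  set e : E (j + 2) := EuclideanSpace.single (Fin.last (j + 1)) (1 : ℝ) with he
  have hn : ‖u‖ = ‖e‖ := by rw [hu, he]; simp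
  refine ⟨(ℝ ∙ (u - e))ᗮ.reflection, fun x => ?_⟩
  have h1 : (ℝ ∙ (u - e))ᗮ.reflection u = e := Submodule.reflection_sub hn
  have h2 : ⟪(ℝ ∙ (u - e))ᗮ.reflection x, (ℝ ∙ (u - e))ᗮ.reflection u⟫ = ⟪x, u⟫ :=
    LinearIsometryEquiv.inner_map_map _ _ _
  rw [← h2, h1, he, EuclideanSpace.inner_single_right]
  simp

/-- Zonal functions in polar coordinates. -/
theorem zonal_int {j : ℕ} (f : ℝ → ℝ≥0∞) (hf : Measurable f) (u : E (j + 2)) (hu : ‖u‖ = 1) :
    ∫⁻ x : S (j + 2), f ⟪(x : E (j + 2)), u⟫ ∂(sm (j + 2)) =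
      sm (j + 1) univ * ∫⁻ θ in Ioo 0 π, ENNReal.ofReal (Real.sin θ ^ j) * f (Real.cos θ) := by
  obtain ⟨R, hR⟩ := cap_rot u hu
  have h0 : Measurable fun y : E (j + 2) => f (y (Fin.last (j + 1))) := by
    refine hf.comp ?_
    fun_prop
  have h1 := (measurePreserving_isometry R).lintegral_comp
    (f := fun y : S (j + 2) => f ((y : E (j + 2)) (Fin.last (j + 1))))
    (h0.comp measurable_subtype_coe)
  have h2 : ∫⁻ x : S (j + 2), f ⟪(x : E (j + 2)), u⟫ ∂(sm (j + 2)) =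
      ∫⁻ y : S (j + 2), f ((y : E (j + 2)) (Fin.last (j + 1))) ∂(sm (j + 2)) := by
    rw [← h1]
    refine lintegral_congr fun x => ?_
    simp only
    rw [hR]
  rw [h2, lintegral_slice j (fun y => f (y (Fin.last (j + 1)))) h0, mul_comm,
    ← lintegral_mul_const']
  · refine lintegral_congr fun θ => ?_
    have h3 : ∀ ω : S (j + 1), (pt θ (ω : E (j + 1))) (Fin.last (j + 1)) = Real.cos θ := by
      intro ω
      unfold pt
      exact join_last _ _
    simp only [h3, lintegral_const]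
    ring
  · exact sm_univ_ne_top _

theorem cap_angle {n : ℕ} (x y : E n) (hx : ‖x‖ = 1) (hy : ‖y‖ = 1) :
    2 / π * Real.arccos ⟪y, x⟫ ≤ ‖x - y‖ := by
  set t := Real.arccos ⟪y, x⟫ with ht
  have hab : |⟪y, x⟫| ≤ 1 := by
    have := abs_real_inner_le_norm y x
    rwa [hx, hy, mul_one] at this
  have hc : Real.cos t = ⟪y, x⟫ := Real.cos_arccos (abs_le.1 hab).1 (abs_le.1 hab).2
  have ht0 : 0 ≤ t := Real.arccos_nonneg _
  have ht1 : t ≤ π := Real.arccos_le_pi _
  have h1 : ‖x - y‖ ^ 2 = (2 * Real.sin (t / 2)) ^ 2 := by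
    rw [norm_sub_sq_real, hx, hy, real_inner_comm, ← hc]
    have h2 : Real.cos t = 1 - 2 * Real.sin (t / 2) ^ 2 := by
      have := Real.cos_two_mul (t / 2)
      rw [Real.cos_sq', mul_div_cancel₀ t (by norm_num : (2:ℝ) ≠ 0)] at this
      linarith
    rw [h2]
    ring
  have h3 : 0 ≤ Real.sin (t / 2) := Real.sin_nonneg_of_nonneg_of_le_pi (by linarith) (by linarith)
  have h4 : ‖x - y‖ = 2 * Real.sin (t / 2) := by
    have := (sq_eq_sq₀ (norm_nonneg _) (by linarith)).1 h1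
    exact this
  rw [h4]
  have h5 := Real.mul_le_sin (x := t / 2) (by linarith) (by linarith)
  linarith

theorem cap_sep {n : ℕ} (u x y : E n) (hx : ‖x‖ = 1) (hy : ‖y‖ = 1) (hu : ‖u‖ = 1) {a : ℝ}
    (h1 : a < ⟪x, u⟫ ∧ ⟪y, u⟫ ≤ a ∨ a < ⟪y, u⟫ ∧ ⟪x, u⟫ ≤ a) :
    |Real.arccos ⟪x, u⟫ - Real.arccos a| ≤ Real.arccos ⟪y, x⟫ := by
  have hg : ∀ z w : E n, ‖z‖ = 1 → ‖w‖ = 1 → InnerProductGeometry.angle z w = Real.arccos ⟪z, w⟫ :=
    fun z w hz hw => by
      rw [InnerProductGeometry.angle, hz, hw, mul_one, div_one]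
  have t1 : Real.arccos ⟪y, u⟫ ≤ Real.arccos ⟪y, x⟫ + Real.arccos ⟪x, u⟫ := by
    rw [← hg y u hy hu, ← hg y x hy hx, ← hg x u hx hu]
    exact InnerProductGeometry.angle_le_angle_add_angle y x u
  have t2 : Real.arccos ⟪x, u⟫ ≤ Real.arccos ⟪y, x⟫ + Real.arccos ⟪y, u⟫ := by
    rw [real_inner_comm x y, ← hg y u hy hu, ← hg x y hx hy, ← hg x u hx hu]
    exact InnerProductGeometry.angle_le_angle_add_angle x y u
  rcases h1 with ⟨h1, h2⟩ | ⟨h1, h2⟩
  · have h3 := Real.antitone_arccos h1.le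
    have h4 := Real.antitone_arccos h2
    rw [abs_le]
    constructor <;> linarith
  · have h3 := Real.antitone_arccos h1.le
    have h4 := Real.antitone_arccos h2
    rw [abs_le]
    constructor <;> linarith


theorem cap_inner (j : ℕ) {s : ℝ} (hs : 0 < s) : ∃ C : ℝ≥0∞, C ≠ ⊤ ∧ ∀ x : E (j + 2), ‖x‖ = 1 →
    ∀ d : ℝ, 0 ≤ d →
    ∫⁻ y : S (j + 2), (if d ≤ Real.arccos ⟪(y : E (j + 2)), x⟫ then
      ENNReal.ofReal (Real.arccos ⟪(y : E (j + 2)), x⟫) ^ (-((j : ℝ) + 1 + 2 * s)) else 0)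
      ∂(sm (j + 2)) ≤ C * ENNReal.ofReal d ^ (-(2 * s)) := by
  refine ⟨sm (j + 1) univ * ENNReal.ofReal (1 / (2 * s)) + 1, ?_, fun x hx d hd => ?_⟩
  · exact ENNReal.add_ne_top.2 ⟨ENNReal.mul_ne_top (sm_univ_ne_top _) ENNReal.ofReal_ne_top,
      ENNReal.one_ne_top⟩
  rcases hd.eq_or_lt with h0 | h0
  · rw [← h0, ENNReal.ofReal_zero, ENNReal.zero_rpow_of_neg (by linarith), ENNReal.mul_top]
    · exact le_top
    · simp
  have hf : Measurable fun t : ℝ => (if d ≤ Real.arccos t then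
      ENNReal.ofReal (Real.arccos t) ^ (-((j : ℝ) + 1 + 2 * s)) else 0) := by
    have h1 : Measurable Real.arccos := Real.continuous_arccos.measurable
    exact Measurable.ite (measurableSet_le measurable_const h1)
      (h1.ennreal_ofReal.pow_const _) measurable_const
  rw [zonal_int _ hf x hx]
  have h2 : ∫⁻ θ in Ioo 0 π, ENNReal.ofReal (Real.sin θ ^ j) *
      (if d ≤ Real.arccos (Real.cos θ) then
        ENNReal.ofReal (Real.arccos (Real.cos θ)) ^ (-((j : ℝ) + 1 + 2 * s)) else 0) ≤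
      ∫⁻ θ in Ioi d, ENNReal.ofReal (θ ^ (-1 - 2 * s)) := by
    rw [← lintegral_indicator measurableSet_Ioo, ← lintegral_indicator measurableSet_Ioi]
    refine lintegral_mono_ae ?_
    have h3 : ∀ᵐ θ : ℝ, θ ≠ d := by
      rw [ae_iff]
      simp
    filter_upwards [h3] with θ hθd
    by_cases hθ : θ ∈ Ioo 0 π
    · rw [indicator_of_mem hθ, Real.arccos_cos hθ.1.le hθ.2.le]
      by_cases hd' : d ≤ θ
      · rw [if_pos hd', indicator_of_mem (mem_Ioi.2 (lt_of_le_of_ne hd' (Ne.symm hθd))),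
          ENNReal.ofReal_rpow_of_pos hθ.1, ← ENNReal.ofReal_mul (by
            have := (Real.sin_pos_of_mem_Ioo hθ).le
            positivity)]
        refine ENNReal.ofReal_le_ofReal ?_
        have h4 : Real.sin θ ^ j ≤ θ ^ j :=
          pow_le_pow_left₀ (Real.sin_pos_of_mem_Ioo hθ).le (Real.sin_le hθ.1.le) j
        calc Real.sin θ ^ j * θ ^ (-((j : ℝ) + 1 + 2 * s))
            ≤ θ ^ j * θ ^ (-((j : ℝ) + 1 + 2 * s)) :=
              mul_le_mul_of_nonneg_right h4 (Real.rpow_nonneg hθ.1.le _)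
          _ = θ ^ (-1 - 2 * s) := by
              rw [← Real.rpow_natCast, ← Real.rpow_add hθ.1]
              congr 1
              ring
      · rw [if_neg hd', mul_zero]
        exact zero_le
    · rw [indicator_of_notMem hθ]
      exact zero_le
  have h5 : ∫⁻ θ in Ioi d, ENNReal.ofReal (θ ^ (-1 - 2 * s)) =
      ENNReal.ofReal (1 / (2 * s)) * ENNReal.ofReal d ^ (-(2 * s)) := by
    have hi : IntegrableOn (fun θ : ℝ => θ ^ (-1 - 2 * s)) (Ioi d) :=
      integrableOn_Ioi_rpow_of_lt (by linarith) h0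
    rw [← ofReal_integral_eq_lintegral_ofReal hi (by
      filter_upwards [ae_restrict_mem measurableSet_Ioi] with θ hθ
      exact Real.rpow_nonneg (h0.le.trans (mem_Ioi.1 hθ).le) _),
      integral_Ioi_rpow_of_lt (by linarith) h0, ENNReal.ofReal_rpow_of_pos h0,
      ← ENNReal.ofReal_mul (by positivity)]
    congr 1
    have e1 : -1 - 2 * s + 1 = -(2 * s) := by ring
    rw [e1]
    field_simp
  rw [add_mul, one_mul]
  refine le_trans ?_ le_self_add
  rw [mul_assoc, ← h5]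
  exact mul_le_mul_right h2 _

theorem cap_line {s : ℝ} (hs2 : s < 1 / 2) :
    ∃ C : ℝ≥0∞, C ≠ ⊤ ∧ ∀ α : ℝ, 0 ≤ α → α ≤ π →
      ∫⁻ θ in Ioo 0 π, ENNReal.ofReal |θ - α| ^ (-(2 * s)) ≤ C := by
  set G : ℝ → ℝ≥0∞ := (Ioo 0 π).indicator fun t => ENNReal.ofReal t ^ (-(2 * s)) with hG
  have hfin : ∫⁻ t, G t ≠ ⊤ := by
    rw [hG, lintegral_indicator measurableSet_Ioo]
    have h1 : ∫⁻ t in Ioo 0 π, ENNReal.ofReal t ^ (-(2 * s)) =
        ∫⁻ t in Ioo 0 π, ENNReal.ofReal (t ^ (-(2 * s))) := by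
      refine setLIntegral_congr_fun measurableSet_Ioo fun t ht => ?_
      exact ENNReal.ofReal_rpow_of_pos ht.1
    rw [h1]
    have h2 : IntegrableOn (fun t : ℝ => t ^ (-(2 * s))) (Ioo 0 π) := by
      have := (intervalIntegral.intervalIntegrable_rpow' (a := 0) (b := π) (r := -(2 * s))
        (by linarith)).1
      exact this.mono_set Ioo_subset_Ioc_self
    exact h2.lintegral_lt_top.ne
  refine ⟨2 * ∫⁻ t, G t, ENNReal.mul_ne_top (by norm_num) hfin, fun α h0 h1 => ?_⟩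
  have hGm : Measurable G := by
    rw [hG]
    exact (ENNReal.measurable_ofReal.pow_const _).indicator measurableSet_Ioo
  calc ∫⁻ θ in Ioo 0 π, ENNReal.ofReal |θ - α| ^ (-(2 * s))
      ≤ ∫⁻ θ, (G (θ - α) + G (α - θ)) := by
        rw [← lintegral_indicator measurableSet_Ioo]
        refine lintegral_mono_ae ?_
        have h3 : ∀ᵐ θ : ℝ, θ ≠ α := by
          rw [ae_iff]
          simp
        filter_upwards [h3] with θ hθd
        by_cases hθ : θ ∈ Ioo 0 π
        · rw [indicator_of_mem hθ]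
          rcases lt_or_gt_of_ne hθd with h4 | h4
          · refine le_trans ?_ le_add_self
            rw [hG, indicator_of_mem (show α - θ ∈ Ioo 0 π from
              ⟨by linarith, by linarith [hθ.1]⟩), abs_of_neg (by linarith), neg_sub]
          · refine le_trans ?_ le_self_add
            rw [hG, indicator_of_mem (show θ - α ∈ Ioo 0 π from
              ⟨by linarith, by linarith [hθ.2]⟩), abs_of_pos (by linarith)]
        · rw [indicator_of_notMem hθ]
          exact zero_le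
    _ = 2 * ∫⁻ t, G t := by
        have h5 : Measurable fun θ : ℝ => G (θ - α) := hGm.comp (measurable_id.sub_const α)
        rw [lintegral_add_left h5, lintegral_sub_right_eq_self G α,
          lintegral_sub_left_eq_self G α, two_mul]

theorem cap_outer (j : ℕ) {s : ℝ} (hs2 : s < 1 / 2) :
    ∃ C : ℝ≥0∞, C ≠ ⊤ ∧ ∀ u : E (j + 2), ‖u‖ = 1 → ∀ α : ℝ, 0 ≤ α → α ≤ π →
      ∫⁻ x : S (j + 2), ENNReal.ofReal |Real.arccos ⟪(x : E (j + 2)), u⟫ - α| ^ (-(2 * s))
        ∂(sm (j + 2)) ≤ C := by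
  obtain ⟨C, hC, h⟩ := cap_line hs2
  refine ⟨sm (j + 1) univ * C, ENNReal.mul_ne_top (sm_univ_ne_top _) hC, fun u hu α h0 h1 => ?_⟩
  have hf : Measurable fun t : ℝ => ENNReal.ofReal |Real.arccos t - α| ^ (-(2 * s)) := by
    have h1 : Measurable fun t : ℝ => |Real.arccos t - α| :=
      (Real.continuous_arccos.sub continuous_const).abs.measurable
    exact h1.ennreal_ofReal.pow_const _
  rw [zonal_int _ hf u hu]
  refine mul_le_mul_right (le_trans ?_ (h α h0 h1)) _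
  refine setLIntegral_mono' measurableSet_Ioo fun θ hθ => ?_
  rw [Real.arccos_cos hθ.1.le hθ.2.le]
  refine mul_le_of_le_one_left zero_le ?_
  rw [← ENNReal.ofReal_one]
  exact ENNReal.ofReal_le_ofReal (pow_le_one₀ (Real.sin_pos_of_mem_Ioo hθ).le (Real.sin_le_one _))

/-- **The energy of a spherical cap**, uniformly. -/
theorem cap_energy {n : ℕ} (hn : 2 ≤ n) {s : ℝ} (hs : 0 < s) (hs2 : s < 1 / 2) :
    ∃ C : ℝ≥0∞, C ≠ ⊤ ∧ ∀ (u : E n) (a : ℝ), ∫⁻ ω : S n, ∫⁻ ω' : S n,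
      ‖(if a < inner ℝ (ω : E n) u then (1 : ℂ) else 0) -
        (if a < inner ℝ (ω' : E n) u then (1 : ℂ) else 0)‖ₑ ^ (2 : ℝ) /
        ENNReal.ofReal (‖(ω : E n) - (ω' : E n)‖ ^ ((n : ℝ) - 1 + 2 * s)) ∂(sm n) ∂(sm n) ≤ C := by
  obtain ⟨j, rfl⟩ : ∃ j, n = j + 2 := ⟨n - 2, by omega⟩
  obtain ⟨C1, hC1, H1⟩ := cap_inner j hs
  obtain ⟨C2, hC2, H2⟩ := cap_outer j hs2
  set e : ℝ := (j : ℝ) + 1 + 2 * s with he
  have he0 : 0 < e := by positivity
  have hee : ((j + 2 : ℕ) : ℝ) - 1 + 2 * s = e := by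
    rw [he]
    push_cast
    ring
  set K : ℝ≥0∞ := (ENNReal.ofReal (2 / π) ^ e)⁻¹ with hK
  have hp : 0 < ENNReal.ofReal (2 / π) := ENNReal.ofReal_pos.2 (by positivity)
  have hKt : K ≠ ⊤ := by
    rw [hK]
    exact ENNReal.inv_ne_top.2 (ENNReal.rpow_pos hp ENNReal.ofReal_ne_top).ne'
  refine ⟨K * (C1 * C2), ENNReal.mul_ne_top hKt (ENNReal.mul_ne_top hC1 hC2), ?_⟩
  -- unit vectors
  have key : ∀ (u : E (j + 2)), ‖u‖ = 1 → ∀ a : ℝ, ∫⁻ ω : S (j + 2), ∫⁻ ω' : S (j + 2),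
      ‖(if a < inner ℝ (ω : E (j + 2)) u then (1 : ℂ) else 0) -
        (if a < inner ℝ (ω' : E (j + 2)) u then (1 : ℂ) else 0)‖ₑ ^ (2 : ℝ) /
        ENNReal.ofReal (‖(ω : E (j + 2)) - (ω' : E (j + 2))‖ ^ (((j + 2 : ℕ) : ℝ) - 1 + 2 * s))
        ∂(sm (j + 2)) ∂(sm (j + 2)) ≤ K * (C1 * C2) := by
    intro u hu a
    rw [hee]
    calc _ ≤ ∫⁻ ω : S (j + 2), K * (C1 *
          ENNReal.ofReal |Real.arccos ⟪(ω : E (j + 2)), u⟫ - Real.arccos a| ^ (-(2 * s)))
          ∂(sm (j + 2)) := by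
          refine lintegral_mono fun x => ?_
          have hx : ‖(x : E (j + 2))‖ = 1 := by simp
          set d := |Real.arccos ⟪(x : E (j + 2)), u⟫ - Real.arccos a| with hd
          refine le_trans ?_ (mul_le_mul_right (H1 x hx d (abs_nonneg _)) K)
          rw [← lintegral_const_mul' _ _ hKt]
          refine lintegral_mono fun y => ?_
          have hy : ‖(y : E (j + 2))‖ = 1 := by simp
          simp only
          by_cases hxy : (a < inner ℝ (x : E (j + 2)) u ↔ a < inner ℝ (y : E (j + 2)) u)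
          · have h3 : (if a < inner ℝ (x : E (j + 2)) u then (1 : ℂ) else 0) -
                (if a < inner ℝ (y : E (j + 2)) u then (1 : ℂ) else 0) = 0 := by
              by_cases h4 : a < inner ℝ (x : E (j + 2)) u
              · rw [if_pos h4, if_pos (hxy.1 h4), sub_self]
              · rw [if_neg h4, if_neg fun h => h4 (hxy.2 h), sub_self]
            rw [h3, enorm_zero, ENNReal.zero_rpow_of_pos (by norm_num), ENNReal.zero_div]
            exact zero_le
          · have h5 : a < ⟪(x : E (j + 2)), u⟫ ∧ ⟪(y : E (j + 2)), u⟫ ≤ a ∨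
                a < ⟪(y : E (j + 2)), u⟫ ∧ ⟪(x : E (j + 2)), u⟫ ≤ a := by
              by_cases h4 : a < inner ℝ (x : E (j + 2)) u
              · left
                refine ⟨h4, not_lt.1 fun h => hxy ⟨fun _ => h, fun _ => h4⟩⟩
              · right
                refine ⟨?_, not_lt.1 h4⟩
                by_contra h
                exact hxy ⟨fun h' => absurd h' h4, fun h' => absurd h' h⟩
            have h6 := cap_sep u x y hx hy hu h5
            rw [if_pos h6]
            have h7 : ‖(if a < inner ℝ (x : E (j + 2)) u then (1 : ℂ) else 0) -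
                (if a < inner ℝ (y : E (j + 2)) u then (1 : ℂ) else 0)‖ₑ = 1 := by
              rcases h5 with ⟨h8, h9⟩ | ⟨h8, h9⟩
              · rw [if_pos h8, if_neg (not_lt.2 h9)]
                simp
              · rw [if_neg (not_lt.2 h9), if_pos h8]
                simp
            rw [h7, ENNReal.one_rpow, one_div, ENNReal.rpow_neg, hK,
              ← ENNReal.mul_inv (Or.inr (by
                exact ENNReal.rpow_ne_top_of_nonneg he0.le ENNReal.ofReal_ne_top))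
                (Or.inl (ENNReal.rpow_ne_top_of_nonneg he0.le ENNReal.ofReal_ne_top)),
              ← ENNReal.mul_rpow_of_nonneg _ _ he0.le, ← ENNReal.ofReal_mul (by positivity),
              ← ENNReal.ofReal_rpow_of_nonneg (norm_nonneg _) he0.le]
            refine ENNReal.inv_le_inv.2 (ENNReal.rpow_le_rpow
              (ENNReal.ofReal_le_ofReal (cap_angle _ _ hx hy)) he0.le)
      _ = K * (C1 * ∫⁻ ω : S (j + 2),
          ENNReal.ofReal |Real.arccos ⟪(ω : E (j + 2)), u⟫ - Real.arccos a| ^ (-(2 * s))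
          ∂(sm (j + 2))) := by
          rw [lintegral_const_mul' _ _ hKt, lintegral_const_mul' _ _ hC1]
      _ ≤ _ := mul_le_mul_right (mul_le_mul_right
          (H2 u hu _ (Real.arccos_nonneg _) (Real.arccos_le_pi _)) _) _
  intro u a
  by_cases hu : u = 0
  · have h0 : ∀ ω ω' : S (j + 2), ‖(if a < inner ℝ (ω : E (j + 2)) u then (1 : ℂ) else 0) -
        (if a < inner ℝ (ω' : E (j + 2)) u then (1 : ℂ) else 0)‖ₑ ^ (2 : ℝ) /
        ENNReal.ofReal (‖(ω : E (j + 2)) - (ω' : E (j + 2))‖ ^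
          (((j + 2 : ℕ) : ℝ) - 1 + 2 * s)) = 0 := by
      intro ω ω'
      rw [hu, inner_zero_right, inner_zero_right, sub_self, enorm_zero,
        ENNReal.zero_rpow_of_pos (by norm_num), ENNReal.zero_div]
    simp only [h0, lintegral_zero]
    exact zero_le
  · have hu0 : 0 < ‖u‖ := norm_pos_iff.2 hu
    have h1 := key (‖u‖⁻¹ • u) (by rw [norm_smul, norm_inv, norm_norm, inv_mul_cancel₀ hu0.ne'])
      (‖u‖⁻¹ * a)
    have h2 : ∀ x : E (j + 2), (‖u‖⁻¹ * a < inner ℝ x (‖u‖⁻¹ • u)) = (a < inner ℝ x u) := by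
      intro x
      rw [inner_smul_right]
      exact propext (mul_lt_mul_iff_right₀ (inv_pos.2 hu0))
    simp only [h2] at h1
    exact h1

end Pool.Agent.LFD
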