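import Mathlib.Analysis.SpecialFunctions.Pow.Real
import Mathlib.Tactic

/-!
[LEAFQ] two vectors of the plane almost parallel to a third one.
-/

set_option autoImplicit false

namespace Pool.Agent.LQ

/-- A symmetric form on the plane. -/
def pg (g1 g2 g3 u1 u2 v1 v2 : ℝ) : ℝ := g1 * u1 * v1 + g2 * (u1 * v2 + u2 * v1) + g3 * u2 * v2

theorem pg_le {g1 g2 g3 G : ℝ} (h1 : |g1| ≤ G) (h2 : |g2| ≤ G) (h3 : |g3| ≤ G)
    (u1 u2 v1 v2 : ℝ) : |pg g1 g2 g3 u1 u2 v1 v2| ≤ G * ((|u1| + |u2|) * (|v1| + |v2|)) := by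
  have hG : 0 ≤ G := (abs_nonneg _).trans h1
  unfold pg
  have e1 : |g1 * u1 * v1| ≤ G * (|u1| * |v1|) := by
    rw [mul_assoc, abs_mul, abs_mul u1]
    gcongr
  have e3 : |g3 * u2 * v2| ≤ G * (|u2| * |v2|) := by
    rw [mul_assoc, abs_mul, abs_mul u2]
    gcongr
  have e2 : |g2 * (u1 * v2 + u2 * v1)| ≤ G * (|u1| * |v2| + |u2| * |v1|) := by
    rw [abs_mul]
    have : |u1 * v2 + u2 * v1| ≤ |u1| * |v2| + |u2| * |v1| := by
      refine (abs_add_le _ _).trans ?_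
      rw [abs_mul, abs_mul]
    gcongr
  calc |g1 * u1 * v1 + g2 * (u1 * v2 + u2 * v1) + g3 * u2 * v2|
      ≤ |g1 * u1 * v1| + |g2 * (u1 * v2 + u2 * v1)| + |g3 * u2 * v2| := abs_add_three _ _ _
    _ ≤ G * (|u1| * |v1|) + G * (|u1| * |v2| + |u2| * |v1|) + G * (|u2| * |v2|) := by linarith
    _ = _ := by ring

/-- Two vectors almost parallel to `k` are far from orthogonal. -/
theorem pg_par {g1 g2 g3 G γ η : ℝ} (hγ : 0 < γ) (h1 : |g1| ≤ G) (h2 : |g2| ≤ G) (h3 : |g3| ≤ G)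
    (hpos : ∀ x y : ℝ, γ * (x ^ 2 + y ^ 2) ≤ pg g1 g2 g3 x y x y) (hη : 0 ≤ η)
    (hη1 : η * (16 * γ + 96 * G) ≤ γ) {k1 k2 u1 u2 v1 v2 : ℝ} (hk : 0 < |k1| + |k2|)
    (hu : |u1 * k2 - u2 * k1| ≤ η * ((|u1| + |u2|) * (|k1| + |k2|)))
    (hv : |v1 * k2 - v2 * k1| ≤ η * ((|v1| + |v2|) * (|k1| + |k2|))) :
    γ / 8 * ((|u1| + |u2|) * (|v1| + |v2|)) ≤ |pg g1 g2 g3 u1 u2 v1 v2| := by
  have hG : 0 ≤ G := (abs_nonneg _).trans h1
  have hη2 : η ≤ 1 / 16 := by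
    have : η * (16 * γ) ≤ γ := by
      have : 0 ≤ η * (96 * G) := by positivity
      linarith
    have h5 : η * 16 ≤ 1 := by
      by_contra h
      push Not at h
      nlinarith
    linarith
  -- Euclidean norms
  obtain ⟨U, hU⟩ : ∃ U : ℝ, U = √(u1 ^ 2 + u2 ^ 2) := ⟨_, rfl⟩
  obtain ⟨V, hV⟩ : ∃ V : ℝ, V = √(v1 ^ 2 + v2 ^ 2) := ⟨_, rfl⟩
  obtain ⟨K, hK⟩ : ∃ K : ℝ, K = √(k1 ^ 2 + k2 ^ 2) := ⟨_, rfl⟩
  have hU0 : 0 ≤ U := by rw [hU]; exact Real.sqrt_nonneg _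
  have hV0 : 0 ≤ V := by rw [hV]; exact Real.sqrt_nonneg _
  have hK0' : 0 ≤ K := by rw [hK]; exact Real.sqrt_nonneg _
  have hU2 : U ^ 2 = u1 ^ 2 + u2 ^ 2 := by rw [hU]; exact Real.sq_sqrt (by positivity)
  have hV2 : V ^ 2 = v1 ^ 2 + v2 ^ 2 := by rw [hV]; exact Real.sq_sqrt (by positivity)
  have hK2 : K ^ 2 = k1 ^ 2 + k2 ^ 2 := by rw [hK]; exact Real.sq_sqrt (by positivity)
  have hn : ∀ a b N : ℝ, 0 ≤ N → N ^ 2 = a ^ 2 + b ^ 2 → |a| + |b| ≤ 3 / 2 * N := by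
    intro a b N hN h
    have h5 : (|a| + |b|) ^ 2 ≤ (3 / 2 * N) ^ 2 := by
      have : (|a| + |b|) ^ 2 ≤ 2 * (a ^ 2 + b ^ 2) := by
        nlinarith [sq_nonneg (|a| - |b|), sq_abs a, sq_abs b]
      nlinarith
    exact (abs_le_of_sq_le_sq' h5 (by positivity)).2
  have hUn := hn u1 u2 U hU0 hU2
  have hVn := hn v1 v2 V hV0 hV2
  have hKn := hn k1 k2 K hK0' hK2
  have hK0 : 0 < K := by
    by_contra h
    push Not at h
    have : K = 0 := le_antisymm h hK0'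
    rw [this] at hKn
    linarith
  -- the cross products
  have hc : ∀ (a b N : ℝ), 0 ≤ N → |a| + |b| ≤ 3 / 2 * N →
      |a * k2 - b * k1| ≤ η * ((|a| + |b|) * (|k1| + |k2|)) → |a * k2 - b * k1| ≤ 3 * η * (N * K) := by
    intro a b N hN h h'
    refine h'.trans ?_
    calc η * ((|a| + |b|) * (|k1| + |k2|)) ≤ η * ((3 / 2 * N) * (3 / 2 * K)) := by gcongr
      _ ≤ 3 * η * (N * K) := by nlinarith [mul_nonneg hη (mul_nonneg hN hK0.le)]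
  have hcu := hc u1 u2 U hU0 hUn hu
  have hcv := hc v1 v2 V hV0 hVn hv
  -- the inner products
  have hi : ∀ (a b N : ℝ), 0 ≤ N → N ^ 2 = a ^ 2 + b ^ 2 → |a * k2 - b * k1| ≤ 3 * η * (N * K) →
      (1 - 3 * η) * (N * K) ≤ |a * k1 + b * k2| ∧ |a * k1 + b * k2| ≤ N * K := by
    intro a b N hN h h'
    have e1 : (a * k1 + b * k2) ^ 2 + (a * k2 - b * k1) ^ 2 = (N * K) ^ 2 := by
      rw [mul_pow, h, hK2]; ring
    have e2 : (a * k2 - b * k1) ^ 2 ≤ (3 * η * (N * K)) ^ 2 := by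
      rw [← sq_abs]
      exact pow_le_pow_left₀ (abs_nonneg _) h' 2
    have hNK : 0 ≤ N * K := by positivity
    constructor
    · refine le_trans ?_ (le_of_eq (Real.sqrt_sq_eq_abs _))
      refine Real.le_sqrt_of_sq_le ?_
      have e3 : ((1 - 3 * η) * (N * K)) ^ 2 ≤ (1 - (3 * η) ^ 2) * (N * K) ^ 2 := by
        rw [mul_pow]
        refine mul_le_mul_of_nonneg_right ?_ (sq_nonneg _)
        nlinarith
      nlinarith
    · refine abs_le_of_sq_le_sq ?_ hNK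
      nlinarith [sq_nonneg (a * k2 - b * k1)]
  obtain ⟨hiu, hiu'⟩ := hi u1 u2 U hU0 hU2 hcu
  obtain ⟨hiv, hiv'⟩ := hi v1 v2 V hV0 hV2 hcv
  -- the decomposition
  obtain ⟨iu, hiu0⟩ : ∃ iu : ℝ, iu = u1 * k1 + u2 * k2 := ⟨_, rfl⟩
  obtain ⟨iv, hiv0⟩ : ∃ iv : ℝ, iv = v1 * k1 + v2 * k2 := ⟨_, rfl⟩
  obtain ⟨cu, hcu0⟩ : ∃ cu : ℝ, cu = u1 * k2 - u2 * k1 := ⟨_, rfl⟩
  obtain ⟨cv, hcv0⟩ : ∃ cv : ℝ, cv = v1 * k2 - v2 * k1 := ⟨_, rfl⟩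
  rw [← hiu0] at hiu hiu'
  rw [← hiv0] at hiv hiv'
  rw [← hcu0] at hcu
  rw [← hcv0] at hcv
  have hdec : K ^ 2 * K ^ 2 * pg g1 g2 g3 u1 u2 v1 v2 =
      iu * iv * pg g1 g2 g3 k1 k2 k1 k2 + (iu * cv * pg g1 g2 g3 k1 k2 k2 (-k1) +
      cu * iv * pg g1 g2 g3 k2 (-k1) k1 k2 + cu * cv * pg g1 g2 g3 k2 (-k1) k2 (-k1)) := by
    rw [hK2, hiu0, hiv0, hcu0, hcv0]
    unfold pg
    ring
  have hb : ∀ a b a' b' : ℝ, |a| + |b| ≤ 3 / 2 * K → |a'| + |b'| ≤ 3 / 2 * K →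
      |pg g1 g2 g3 a b a' b'| ≤ 9 / 4 * G * K ^ 2 := by
    intro a b a' b' ha ha'
    refine (pg_le h1 h2 h3 a b a' b').trans ?_
    calc G * ((|a| + |b|) * (|a'| + |b'|)) ≤ G * ((3 / 2 * K) * (3 / 2 * K)) := by gcongr
      _ = _ := by ring
  have hKn' : |k2| + |(-k1)| ≤ 3 / 2 * K := by rw [abs_neg]; linarith
  have hUVK : 0 ≤ U * V * K ^ 2 := by positivity
  have hmain : γ * K ^ 2 * ((1 - 3 * η) ^ 2 * (U * V * K ^ 2)) ≤
      |iu * iv * pg g1 g2 g3 k1 k2 k1 k2| := by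
    rw [abs_mul, abs_mul]
    have h5 : γ * K ^ 2 ≤ |pg g1 g2 g3 k1 k2 k1 k2| := by
      rw [hK2]
      exact (hpos k1 k2).trans (le_abs_self _)
    have h6 : (1 - 3 * η) * (U * K) * ((1 - 3 * η) * (V * K)) ≤ |iu| * |iv| := by
      have : 0 ≤ 1 - 3 * η := by linarith
      gcongr
    calc γ * K ^ 2 * ((1 - 3 * η) ^ 2 * (U * V * K ^ 2)) =
          (1 - 3 * η) * (U * K) * ((1 - 3 * η) * (V * K)) * (γ * K ^ 2) := by ring
      _ ≤ |iu| * |iv| * |pg g1 g2 g3 k1 k2 k1 k2| := by gcongr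
  have herr : |iu * cv * pg g1 g2 g3 k1 k2 k2 (-k1) + cu * iv * pg g1 g2 g3 k2 (-k1) k1 k2 +
      cu * cv * pg g1 g2 g3 k2 (-k1) k2 (-k1)| ≤
      27 * η * G * K ^ 2 * (U * V * K ^ 2) := by
    have t1 : |iu * cv * pg g1 g2 g3 k1 k2 k2 (-k1)| ≤
        (U * K) * (3 * η * (V * K)) * (9 / 4 * G * K ^ 2) := by
      rw [abs_mul, abs_mul]
      have := hb k1 k2 k2 (-k1) hKn hKn'
      gcongr
    have t2 : |cu * iv * pg g1 g2 g3 k2 (-k1) k1 k2| ≤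
        (3 * η * (U * K)) * (V * K) * (9 / 4 * G * K ^ 2) := by
      rw [abs_mul, abs_mul]
      have := hb k2 (-k1) k1 k2 hKn' hKn
      gcongr
    have t3 : |cu * cv * pg g1 g2 g3 k2 (-k1) k2 (-k1)| ≤
        (3 * η * (U * K)) * (3 * η * (V * K)) * (9 / 4 * G * K ^ 2) := by
      rw [abs_mul, abs_mul]
      have := hb k2 (-k1) k2 (-k1) hKn' hKn'
      gcongr
    have t4 : (3 * η * (U * K)) * (3 * η * (V * K)) * (9 / 4 * G * K ^ 2) ≤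
        (U * K) * (3 * η * (V * K)) * (9 / 4 * G * K ^ 2) := by
      have : 3 * η * (U * K) ≤ U * K := by
        have : 0 ≤ U * K := by positivity
        nlinarith
      gcongr
    have h5 := abs_add_three (iu * cv * pg g1 g2 g3 k1 k2 k2 (-k1))
      (cu * iv * pg g1 g2 g3 k2 (-k1) k1 k2) (cu * cv * pg g1 g2 g3 k2 (-k1) k2 (-k1))
    have h6 : 0 ≤ η * G * K ^ 2 * (U * V * K ^ 2) := by positivity
    calc _ ≤ (U * K) * (3 * η * (V * K)) * (9 / 4 * G * K ^ 2) +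
          (3 * η * (U * K)) * (V * K) * (9 / 4 * G * K ^ 2) +
          (U * K) * (3 * η * (V * K)) * (9 / 4 * G * K ^ 2) := by linarith
      _ = 81 / 4 * (η * G * K ^ 2 * (U * V * K ^ 2)) := by ring
      _ ≤ 27 * η * G * K ^ 2 * (U * V * K ^ 2) := by linarith
  have hfin : γ / 2 * K ^ 2 * (U * V * K ^ 2) ≤ |K ^ 2 * K ^ 2 * pg g1 g2 g3 u1 u2 v1 v2| := by
    rw [hdec]
    have h5 := abs_sub_abs_le_abs_sub (iu * iv * pg g1 g2 g3 k1 k2 k1 k2)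
      (-(iu * cv * pg g1 g2 g3 k1 k2 k2 (-k1) + cu * iv * pg g1 g2 g3 k2 (-k1) k1 k2 +
        cu * cv * pg g1 g2 g3 k2 (-k1) k2 (-k1)))
    rw [sub_neg_eq_add, abs_neg] at h5
    have h6 : γ / 2 * K ^ 2 * (U * V * K ^ 2) + 27 * η * G * K ^ 2 * (U * V * K ^ 2) ≤
        γ * K ^ 2 * ((1 - 3 * η) ^ 2 * (U * V * K ^ 2)) := by
      have h7 : γ / 2 + 27 * η * G ≤ γ * (1 - 3 * η) ^ 2 := by nlinarith [mul_nonneg hη hG]
      have h8 : 0 ≤ K ^ 2 * (U * V * K ^ 2) := by positivity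
      calc _ = (γ / 2 + 27 * η * G) * (K ^ 2 * (U * V * K ^ 2)) := by ring
        _ ≤ γ * (1 - 3 * η) ^ 2 * (K ^ 2 * (U * V * K ^ 2)) := mul_le_mul_of_nonneg_right h7 h8
        _ = _ := by ring
    linarith
  have hK4 : 0 < K ^ 2 * K ^ 2 := by positivity
  rw [abs_mul, abs_of_pos hK4] at hfin
  have h9 : γ / 2 * (U * V) ≤ |pg g1 g2 g3 u1 u2 v1 v2| := by
    have : γ / 2 * K ^ 2 * (U * V * K ^ 2) = K ^ 2 * K ^ 2 * (γ / 2 * (U * V)) := by ring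
    rw [this] at hfin
    exact le_of_mul_le_mul_left hfin hK4
  refine le_trans ?_ h9
  calc γ / 8 * ((|u1| + |u2|) * (|v1| + |v2|)) ≤ γ / 8 * ((3 / 2 * U) * (3 / 2 * V)) := by gcongr
    _ ≤ γ / 2 * (U * V) := by nlinarith [mul_nonneg hγ.le (mul_nonneg hU0 hV0)]

end Pool.Agent.LQ
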