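import Pool.Agent.LQ.Df
import Pool.Agent.LQ.PL

/-!
[LEAFQ] exact differences (no derivatives).
-/

set_option autoImplicit false

namespace Pool.Agent.LQ

theorem di_ss {α β t y : ℝ} (hα : α ≠ 0) : ss α β t y = rr α β t y + y ^ 2 := by
  unfold ss rr
  field_simp
  ring

/-- Bounds in the large region. -/
theorem rg_bd {α β d t y : ℝ} (hα : α ≠ 0) (h : Rg α β d t y) :
    1 / 8 ≤ AA α β t y ∧ AA α β t y ≤ 3 ∧ 1 / 4 ≤ HH α β d t y ∧ HH α β d t y ≤ 1 ∧ |y| ≤ 3 ∧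
      AA α β t y ^ 2 = rr α β t y ∧ HH α β d t y ^ 2 = 1 - d ^ 2 * ss α β t y := by
  obtain ⟨h1, h2, h3, h4⟩ := h
  unfold AA HH
  refine ⟨?_, ?_, ?_, ?_, h1, ?_, ?_⟩
  · exact Real.le_sqrt_of_sq_le (by linarith)
  · rw [Real.sqrt_le_left (by norm_num)]
    linarith
  · exact Real.le_sqrt_of_sq_le (by linarith)
  · rw [Real.sqrt_le_left (by norm_num)]
    have : 0 ≤ ss α β t y := by
      rw [di_ss hα]
      have := sq_nonneg y
      linarith
    have : 0 ≤ d ^ 2 * ss α β t y := by positivity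
    linarith
  · exact Real.sq_sqrt (by linarith)
  · exact Real.sq_sqrt (by linarith)

/-- The differences of the three coordinates. -/
theorem dif {α β d t y t' y' : ℝ} (hα : α ≠ 0) (h : Rg α β d t y) (h' : Rg α β d t' y') :
    AA α β t y - AA α β t' y' =
        ((t - t') - β * (y ^ 2 - y' ^ 2)) / (α * (AA α β t y + AA α β t' y')) ∧
      HH α β d t y - HH α β d t' y' = -(d ^ 2 * ((t - t') + (α - β) * (y ^ 2 - y' ^ 2)) /
        (α * (HH α β d t y + HH α β d t' y'))) ∧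
      hh α β d t y - hh α β d t' y' =
        ((t - t') + (α - β) * (y ^ 2 - y' ^ 2)) / (α * (HH α β d t y + HH α β d t' y')) := by
  obtain ⟨a1, -, a3, -, -, a6, a7⟩ := rg_bd hα h
  obtain ⟨b1, -, b3, -, -, b6, b7⟩ := rg_bd hα h'
  have hh1 : hh α β d t y * (1 + HH α β d t y) = ss α β t y := by
    unfold hh
    have : 1 + HH α β d t y ≠ 0 := by linarith
    field_simp
  have hh2 : hh α β d t' y' * (1 + HH α β d t' y') = ss α β t' y' := by
    unfold hh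
    have : 1 + HH α β d t' y' ≠ 0 := by linarith
    field_simp
  -- `d² h = 1 - H`
  have e1 : d ^ 2 * hh α β d t y = 1 - HH α β d t y := by
    have h5 : (1 + HH α β d t y) * (d ^ 2 * hh α β d t y) =
        (1 + HH α β d t y) * (1 - HH α β d t y) := by
      calc _ = d ^ 2 * (hh α β d t y * (1 + HH α β d t y)) := by ring
        _ = 1 - HH α β d t y ^ 2 := by rw [hh1, a7]; ring
        _ = _ := by ring
    exact mul_left_cancel₀ (by linarith) h5
  have e2 : d ^ 2 * hh α β d t' y' = 1 - HH α β d t' y' := by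
    have h5 : (1 + HH α β d t' y') * (d ^ 2 * hh α β d t' y') =
        (1 + HH α β d t' y') * (1 - HH α β d t' y') := by
      calc _ = d ^ 2 * (hh α β d t' y' * (1 + HH α β d t' y')) := by ring
        _ = 1 - HH α β d t' y' ^ 2 := by rw [hh2, b7]; ring
        _ = _ := by ring
    exact mul_left_cancel₀ (by linarith) h5
  have hA : 0 < AA α β t y + AA α β t' y' := by linarith
  have hH : 0 < HH α β d t y + HH α β d t' y' := by linarith
  have r1 : α * (rr α β t y - rr α β t' y') = (t - t') - β * (y ^ 2 - y' ^ 2) := by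
    unfold rr
    field_simp
    ring
  have r2 : α * (ss α β t y - ss α β t' y') = (t - t') + (α - β) * (y ^ 2 - y' ^ 2) := by
    unfold ss
    field_simp
    ring
  refine ⟨?_, ?_, ?_⟩
  · rw [eq_div_iff (by positivity), ← r1, ← a6, ← b6]
    ring
  · rw [← neg_div, eq_div_iff (by positivity), ← r2]
    have : (HH α β d t y - HH α β d t' y') * (HH α β d t y + HH α β d t' y') =
        -(d ^ 2 * (ss α β t y - ss α β t' y')) := by
      calc _ = HH α β d t y ^ 2 - HH α β d t' y' ^ 2 := by ring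
        _ = _ := by rw [a7, b7]; ring
    calc _ = α * ((HH α β d t y - HH α β d t' y') * (HH α β d t y + HH α β d t' y')) := by ring
      _ = _ := by rw [this]; ring
  · rw [eq_div_iff (by positivity), ← r2]
    have : (hh α β d t y - hh α β d t' y') * (HH α β d t y + HH α β d t' y') =
        ss α β t y - ss α β t' y' := by
      rw [← hh1, ← hh2]
      linear_combination hh α β d t y * e2 - hh α β d t' y' * e1
    calc _ = α * ((hh α β d t y - hh α β d t' y') * (HH α β d t y + HH α β d t' y')) := by ring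
      _ = _ := by rw [this]

/-- `N(p) - N(p')` in the third coordinate. -/
theorem difH {α β d t y t' y' : ℝ} (hα : α ≠ 0) (h : Rg α β d t y) (h' : Rg α β d t' y') :
    HH α β d t y - HH α β d t' y' = -(d ^ 2 * (hh α β d t y - hh α β d t' y')) := by
  obtain ⟨-, h2, h3⟩ := dif hα h h'
  rw [h2, h3]
  ring

/-- Differences are controlled by the parameters. -/
theorem dif_le {α β d t y t' y' : ℝ} (hα : α ≠ 0) (hd0 : 0 ≤ d) (hd : d ≤ 1)
    (h : Rg α β d t y) (h' : Rg α β d t' y') :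
    |AA α β t y - AA α β t' y'| ≤
        4 * (1 + |α| + |β|) / |α| * (|t - t'| + |y ^ 2 - y' ^ 2|) ∧
      |HH α β d t y - HH α β d t' y'| ≤
        4 * (1 + |α| + |β|) / |α| * (|t - t'| + |y ^ 2 - y' ^ 2|) ∧
      |hh α β d t y - hh α β d t' y'| ≤
        4 * (1 + |α| + |β|) / |α| * (|t - t'| + |y ^ 2 - y' ^ 2|) := by
  obtain ⟨a1, -, a3, -, -, -, -⟩ := rg_bd hα h
  obtain ⟨b1, -, b3, -, -, -, -⟩ := rg_bd hα h'
  obtain ⟨e1, e2, e3⟩ := dif hα h h'
  have hα' : 0 < |α| := abs_pos.2 hα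
  have hN1 : |(t - t') - β * (y ^ 2 - y' ^ 2)| ≤
      (1 + |α| + |β|) * (|t - t'| + |y ^ 2 - y' ^ 2|) := by
    refine (abs_sub _ _).trans ?_
    rw [abs_mul]
    nlinarith [abs_nonneg (t - t'), abs_nonneg (y ^ 2 - y' ^ 2), abs_nonneg α, abs_nonneg β,
      mul_nonneg (abs_nonneg α) (abs_nonneg (t - t')),
      mul_nonneg (abs_nonneg β) (abs_nonneg (t - t')),
      mul_nonneg (abs_nonneg α) (abs_nonneg (y ^ 2 - y' ^ 2))]
  have hN2 : |(t - t') + (α - β) * (y ^ 2 - y' ^ 2)| ≤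
      (1 + |α| + |β|) * (|t - t'| + |y ^ 2 - y' ^ 2|) := by
    refine (abs_add_le _ _).trans ?_
    rw [abs_mul]
    have h5 : |α - β| ≤ |α| + |β| := abs_sub _ _
    nlinarith [abs_nonneg (t - t'), abs_nonneg (y ^ 2 - y' ^ 2), abs_nonneg α, abs_nonneg β,
      mul_nonneg (abs_nonneg α) (abs_nonneg (t - t')),
      mul_nonneg (abs_nonneg β) (abs_nonneg (t - t')),
      mul_le_mul_of_nonneg_right h5 (abs_nonneg (y ^ 2 - y' ^ 2))]
  have key : ∀ N S : ℝ, 1 / 4 ≤ S →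
      |N| ≤ (1 + |α| + |β|) * (|t - t'| + |y ^ 2 - y' ^ 2|) →
      |N / (α * S)| ≤ 4 * (1 + |α| + |β|) / |α| * (|t - t'| + |y ^ 2 - y' ^ 2|) := by
    intro N S hS hN
    have hS0 : 0 < S := by linarith
    rw [abs_div, abs_mul, abs_of_pos hS0, div_le_iff₀ (by positivity)]
    have h5 : 4 * (1 + |α| + |β|) / |α| * (|t - t'| + |y ^ 2 - y' ^ 2|) * (|α| * S) =
        (1 + |α| + |β|) * (|t - t'| + |y ^ 2 - y' ^ 2|) * (4 * S) := by
      field_simp
    rw [h5]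
    refine hN.trans (le_mul_of_one_le_right (by positivity) (by linarith))
  refine ⟨?_, ?_, ?_⟩
  · rw [e1]
    exact key _ _ (by linarith) hN1
  · rw [e2, abs_neg]
    refine key _ _ (by linarith) ?_
    rw [abs_mul]
    have : |d ^ 2| ≤ 1 := by
      rw [abs_of_nonneg (by positivity)]
      nlinarith
    calc |d ^ 2| * |(t - t') + (α - β) * (y ^ 2 - y' ^ 2)|
        ≤ 1 * |(t - t') + (α - β) * (y ^ 2 - y' ^ 2)| := by gcongr
      _ ≤ _ := by rw [one_mul]; exact hN2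
  · rw [e3]
    exact key _ _ (by linarith) hN2

/-- The exact quotient in `n`, `m`. -/
noncomputable def qd (a a' : ℝ) : ℝ := 1 / (a * a' * (a + a'))

theorem qd_bd {a a' : ℝ} (h : 1 / 8 ≤ a) (h' : 1 / 8 ≤ a') : 0 < qd a a' ∧ qd a a' ≤ 256 := by
  have h1 : 1 / 256 ≤ a * a' * (a + a') := by
    calc (1 / 256 : ℝ) = 1 / 8 * (1 / 8) * (1 / 8 + 1 / 8) := by norm_num
      _ ≤ a * a' * (a + a') := by gcongr
  unfold qd
  refine ⟨by positivity, ?_⟩
  rw [div_le_iff₀ (by linarith)]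
  linarith

theorem qd_lip {a a' : ℝ} (h : 1 / 8 ≤ a) (h' : 1 / 8 ≤ a') (h3 : a ≤ 3) (h3' : a' ≤ 3) :
    |qd a a' - qd a a| ≤ 73728 * |a - a'| := by
  have ha : 0 < a := by linarith
  have ha' : 0 < a' := by linarith
  have e : qd a a' - qd a a = (a - a') * ((2 * a + a') / (2 * a ^ 3 * a' * (a + a'))) := by
    unfold qd
    field_simp
    ring
  rw [e, abs_mul, mul_comm]
  refine mul_le_mul_of_nonneg_right ?_ (abs_nonneg _)
  rw [abs_of_pos (by positivity), div_le_iff₀ (by positivity)]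
  have h1 : 1 / 8192 ≤ 2 * a ^ 3 * a' * (a + a') := by
    calc (1 / 8192 : ℝ) ≤ 2 * (1 / 8) ^ 3 * (1 / 8) * (1 / 8 + 1 / 8) := by norm_num
      _ ≤ 2 * a ^ 3 * a' * (a + a') := by gcongr
  nlinarith

/-- `∂_{y²}` of `Lw`, exactly. -/
noncomputable def nf (α β d w1 w3 A A' H H' : ℝ) : ℝ :=
  (-(β ^ 2 * w1) * qd A A' + (α - β) ^ 2 * d ^ 2 * w3 * qd H H') / α ^ 2
/-- `∂_t` of `Lw`, exactly. -/
noncomputable def mf (α β d w1 w3 A A' H H' : ℝ) : ℝ :=
  (β * w1 * qd A A' + (α - β) * d ^ 2 * w3 * qd H H') / α ^ 2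

/-- The difference of `Lw`. -/
theorem difL {α β d t y t' y' : ℝ} (w1 w3 : ℝ) (hα : α ≠ 0) (h : Rg α β d t y)
    (h' : Rg α β d t' y') :
    Lw α β d w1 w3 t y - Lw α β d w1 w3 t' y' =
      (t - t') * mf α β d w1 w3 (AA α β t y) (AA α β t' y') (HH α β d t y) (HH α β d t' y') +
      (y ^ 2 - y' ^ 2) *
        nf α β d w1 w3 (AA α β t y) (AA α β t' y') (HH α β d t y) (HH α β d t' y') := by
  obtain ⟨a1, -, a3, -, -, -, -⟩ := rg_bd hα h
  obtain ⟨b1, -, b3, -, -, -, -⟩ := rg_bd hα h'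
  obtain ⟨e1, e2, -⟩ := dif hα h h'
  have hA : 0 < AA α β t y := by linarith
  have hA' : 0 < AA α β t' y' := by linarith
  have hH : 0 < HH α β d t y := by linarith
  have hH' : 0 < HH α β d t' y' := by linarith
  unfold Lw nf mf qd
  generalize AA α β t y = A at *
  generalize AA α β t' y' = A' at *
  generalize HH α β d t y = H at *
  generalize HH α β d t' y' = H' at *
  have f1 : 1 / A - 1 / A' = -(((t - t') - β * (y ^ 2 - y' ^ 2)) / (α * (A + A'))) / (A * A') := by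
    rw [← e1]
    field_simp
    ring
  have f2 : 1 / H - 1 / H' =
      (d ^ 2 * ((t - t') + (α - β) * (y ^ 2 - y' ^ 2)) / (α * (H + H'))) / (H * H') := by
    have : 1 / H - 1 / H' = -(H - H') / (H * H') := by
      field_simp
      ring
    rw [this, e2, neg_neg]
  have f3 : (-(β * w1 / A) + (α - β) * w3 / H) / α - (-(β * w1 / A') + (α - β) * w3 / H') / α =
      (-(β * w1) * (1 / A - 1 / A') + (α - β) * w3 * (1 / H - 1 / H')) / α := by ring
  rw [f3, f1, f2]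
  field_simp
  ring

/-- The difference of `Uw`. -/
theorem difU {α β d t y t' y' : ℝ} (w1 w2 w3 : ℝ) (hα : α ≠ 0) (h : Rg α β d t y)
    (h' : Rg α β d t' y') :
    Uw α β d w1 w2 w3 t y - Uw α β d w1 w2 w3 t' y' =
      (y - y') * (Lw α β d w1 w3 t y + y' * (y + y') *
        nf α β d w1 w3 (AA α β t y) (AA α β t' y') (HH α β d t y) (HH α β d t' y')) +
      (t - t') * (y' *
        mf α β d w1 w3 (AA α β t y) (AA α β t' y') (HH α β d t y) (HH α β d t' y')) := by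
  have e := difL w1 w3 hα h h'
  unfold Uw
  linear_combination y' * e

theorem lw_eq {α β d t y : ℝ} (w1 w3 : ℝ) (hα : α ≠ 0) (h : Rg α β d t y) :
    lw α β d w1 w3 t y = Lw α β d w1 w3 t y + 2 * y ^ 2 *
      nf α β d w1 w3 (AA α β t y) (AA α β t y) (HH α β d t y) (HH α β d t y) := by
  obtain ⟨a1, -, a3, -, -, a6, a7⟩ := rg_bd hα h
  have hA : 0 < AA α β t y := by linarith
  have hH : 0 < HH α β d t y := by linarith
  have g1 : t = α * AA α β t y ^ 2 + β * y ^ 2 := by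
    rw [a6]; unfold rr; field_simp; ring
  have g2 : d ^ 2 * t = α * (1 - HH α β d t y ^ 2) - (α - β) * (d ^ 2 * y ^ 2) := by
    rw [a7]; unfold ss; field_simp; ring
  have g3 : (α - β) * (α - d ^ 2 * t) =
      (α - β) * (α * HH α β d t y ^ 2 + (α - β) * (d ^ 2 * y ^ 2)) := by
    rw [g2]; ring
  have g4 : β * t * w1 = β * (α * AA α β t y ^ 2 + β * y ^ 2) * w1 := by rw [← g1]
  unfold lw Lw nf qd
  rw [g3, g4]
  generalize AA α β t y = A at *
  generalize HH α β d t y = H at *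
  field_simp
  ring

theorem mw_eq {α β d t y : ℝ} (w1 w3 : ℝ) (hα : α ≠ 0) (h : Rg α β d t y) :
    mw α β d w1 w3 t y =
      mf α β d w1 w3 (AA α β t y) (AA α β t y) (HH α β d t y) (HH α β d t y) := by
  obtain ⟨a1, -, a3, -, -, -, -⟩ := rg_bd hα h
  have hA : 0 < AA α β t y := by linarith
  have hH : 0 < HH α β d t y := by linarith
  unfold mw mf qd
  generalize AA α β t y = A at *
  generalize HH α β d t y = H at *
  field_simp
  ring

theorem di_lin {c1 c3 w1 w3 x z X : ℝ} (hx : |x| ≤ X) (hz : |z| ≤ X) :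
    |c1 * w1 * x + c3 * w3 * z| ≤ (|c1| + |c3|) * (|w1| + |w3|) * X := by
  have hX : 0 ≤ X := (abs_nonneg _).trans hx
  have e1 : |c1 * w1 * x| ≤ |c1| * |w1| * X := by
    rw [abs_mul, abs_mul]
    gcongr
  have e3 : |c3 * w3 * z| ≤ |c3| * |w3| * X := by
    rw [abs_mul, abs_mul]
    gcongr
  have h5 := abs_add_le (c1 * w1 * x) (c3 * w3 * z)
  have h6 : 0 ≤ |c1| * |w3| * X := by positivity
  have h7 : 0 ≤ |c3| * |w1| * X := by positivity
  calc _ ≤ |c1| * |w1| * X + |c3| * |w3| * X := by linarith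
    _ ≤ |c1| * |w1| * X + |c3| * |w3| * X + (|c1| * |w3| * X + |c3| * |w1| * X) := by linarith
    _ = _ := by ring

/-- `n`, `m` are bounded and Lipschitz. -/
theorem nm_bd {α β : ℝ} (hα : α ≠ 0) : ∃ C : ℝ, 0 < C ∧
    ∀ d, 0 ≤ d → d ≤ 1 → ∀ t y t' y' w1 w3, Rg α β d t y → Rg α β d t' y' →
      |nf α β d w1 w3 (AA α β t y) (AA α β t' y') (HH α β d t y) (HH α β d t' y')| ≤
          C * (|w1| + |w3|) ∧
        |mf α β d w1 w3 (AA α β t y) (AA α β t' y') (HH α β d t y) (HH α β d t' y')| ≤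
          C * (|w1| + |w3|) ∧
        |nf α β d w1 w3 (AA α β t y) (AA α β t' y') (HH α β d t y) (HH α β d t' y') -
            nf α β d w1 w3 (AA α β t y) (AA α β t y) (HH α β d t y) (HH α β d t y)| ≤
          C * (|w1| + |w3|) * (|t - t'| + |y ^ 2 - y' ^ 2|) ∧
        |mf α β d w1 w3 (AA α β t y) (AA α β t' y') (HH α β d t y) (HH α β d t' y') -
            mf α β d w1 w3 (AA α β t y) (AA α β t y) (HH α β d t y) (HH α β d t y)| ≤
          C * (|w1| + |w3|) * (|t - t'| + |y ^ 2 - y' ^ 2|) := by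
  have hα' : 0 < |α| := abs_pos.2 hα
  obtain ⟨S, hS⟩ : ∃ S : ℝ, S = (|β| + |α - β| + (β ^ 2 + (α - β) ^ 2)) / α ^ 2 := ⟨_, rfl⟩
  obtain ⟨P, hP⟩ : ∃ P : ℝ, P = 4 * (1 + |α| + |β|) / |α| := ⟨_, rfl⟩
  have hS0 : 0 ≤ S := by rw [hS]; positivity
  have hP0 : 0 ≤ P := by rw [hP]; positivity
  refine ⟨1 + S * 256 + S * (73728 * P), by positivity, ?_⟩
  intro d hd0 hd t y t' y' w1 w3 h h'
  obtain ⟨a1, a2, a3, a4, -, -, -⟩ := rg_bd hα h
  obtain ⟨b1, b2, b3, b4, -, -, -⟩ := rg_bd hα h'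
  obtain ⟨e1, e2, -⟩ := dif_le hα hd0 hd h h'
  rw [← hP] at e1 e2
  have hd2 : d ^ 2 ≤ 1 := by nlinarith
  have hd20 : 0 ≤ d ^ 2 := sq_nonneg d
  -- the two coefficient sums
  have c1 : (|(-(β ^ 2))| + |(α - β) ^ 2 * d ^ 2|) / α ^ 2 ≤ S := by
    rw [hS]
    refine div_le_div_of_nonneg_right ?_ (sq_nonneg α)
    rw [abs_neg, abs_of_nonneg (sq_nonneg β), abs_of_nonneg (by positivity)]
    have : (α - β) ^ 2 * d ^ 2 ≤ (α - β) ^ 2 * 1 :=
      mul_le_mul_of_nonneg_left hd2 (sq_nonneg _)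
    have := abs_nonneg β
    have := abs_nonneg (α - β)
    linarith
  have c2 : (|β| + |(α - β) * d ^ 2|) / α ^ 2 ≤ S := by
    rw [hS]
    refine div_le_div_of_nonneg_right ?_ (sq_nonneg α)
    rw [abs_mul, abs_of_nonneg hd20]
    have : |α - β| * d ^ 2 ≤ |α - β| * 1 := mul_le_mul_of_nonneg_left hd2 (abs_nonneg _)
    have := sq_nonneg β
    have := sq_nonneg (α - β)
    linarith
  have hW : 0 ≤ |w1| + |w3| := by positivity
  have gen : ∀ k1 k3 x z X : ℝ, (|k1| + |k3|) / α ^ 2 ≤ S → |x| ≤ X → |z| ≤ X →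
      |(k1 * w1 * x + k3 * w3 * z) / α ^ 2| ≤ S * (|w1| + |w3|) * X := by
    intro k1 k3 x z X hk hx hz
    have hX : 0 ≤ X := (abs_nonneg _).trans hx
    rw [abs_div, abs_of_pos (by positivity : 0 < α ^ 2)]
    calc |k1 * w1 * x + k3 * w3 * z| / α ^ 2
        ≤ (|k1| + |k3|) * (|w1| + |w3|) * X / α ^ 2 :=
          div_le_div_of_nonneg_right (di_lin hx hz) (sq_nonneg α)
      _ = (|k1| + |k3|) / α ^ 2 * (|w1| + |w3|) * X := by ring
      _ ≤ _ := by gcongr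
  generalize AA α β t y = A at *
  generalize AA α β t' y' = A' at *
  generalize HH α β d t y = H at *
  generalize HH α β d t' y' = H' at *
  have q1 := qd_bd a1 b1
  have q2 := qd_bd (a := H) (a' := H') (by linarith) (by linarith)
  have q3 := qd_lip a1 b1 a2 b2
  have q4 := qd_lip (a := H) (a' := H') (by linarith) (by linarith) (by linarith) (by linarith)
  have hq1 : |qd A A'| ≤ 256 := by rw [abs_of_pos q1.1]; exact q1.2
  have hq2 : |qd H H'| ≤ 256 := by rw [abs_of_pos q2.1]; exact q2.2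
  have hT : 0 ≤ |t - t'| + |y ^ 2 - y' ^ 2| := by positivity
  have hq3 : |qd A A' - qd A A| ≤ 73728 * (P * (|t - t'| + |y ^ 2 - y' ^ 2|)) := by
    refine q3.trans ?_
    gcongr
  have hq4 : |qd H H' - qd H H| ≤ 73728 * (P * (|t - t'| + |y ^ 2 - y' ^ 2|)) := by
    refine q4.trans ?_
    gcongr
  have up1 : S * (|w1| + |w3|) * 256 ≤
      (1 + S * 256 + S * (73728 * P)) * (|w1| + |w3|) := by
    have : 0 ≤ (1 + S * (73728 * P)) * (|w1| + |w3|) := by positivity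
    linarith
  have up2 : S * (|w1| + |w3|) * (73728 * (P * (|t - t'| + |y ^ 2 - y' ^ 2|))) ≤
      (1 + S * 256 + S * (73728 * P)) * (|w1| + |w3|) * (|t - t'| + |y ^ 2 - y' ^ 2|) := by
    have : 0 ≤ (1 + S * 256) * (|w1| + |w3|) * (|t - t'| + |y ^ 2 - y' ^ 2|) := by positivity
    linarith
  refine ⟨?_, ?_, ?_, ?_⟩
  · refine le_trans (le_of_eq ?_) ((gen (-(β ^ 2)) ((α - β) ^ 2 * d ^ 2) _ _ _ c1 hq1 hq2).trans up1)
    unfold nf
    congr 1
    ring
  · refine le_trans (le_of_eq ?_) ((gen β ((α - β) * d ^ 2) _ _ _ c2 hq1 hq2).trans up1)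
    rfl
  · refine le_trans (le_of_eq ?_) ((gen (-(β ^ 2)) ((α - β) ^ 2 * d ^ 2) _ _ _ c1 hq3 hq4).trans up2)
    unfold nf
    congr 1
    ring
  · refine le_trans (le_of_eq ?_) ((gen β ((α - β) * d ^ 2) _ _ _ c2 hq3 hq4).trans up2)
    unfold mf
    congr 1
    ring

/-- Taylor for `Uw`, with the error needed in CH. -/
theorem U_exp {α β : ℝ} (hα : α ≠ 0) : ∃ C : ℝ, 0 < C ∧
    ∀ d, 0 ≤ d → d ≤ 1 → ∀ t y t' y' w1 w2 w3, Rg α β d t y → Rg α β d t' y' →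
      |Uw α β d w1 w2 w3 t y - Uw α β d w1 w2 w3 t' y' -
          (lw α β d w1 w3 t y * (y - y') + y * mw α β d w1 w3 t y * (t - t'))| ≤
        C * (|w1| + |w3|) * nn t y t' y' *
          (|y - y'| + |y| * (|t - t'| + |y ^ 2 - y' ^ 2|)) := by
  obtain ⟨C, hC, H⟩ := nm_bd (β := β) hα
  refine ⟨18 * C, by positivity, ?_⟩
  intro d hd0 hd t y t' y' w1 w2 w3 h h'
  obtain ⟨h1, h2, h3, h4⟩ := H d hd0 hd t y t' y' w1 w3 h h'
  rw [difU w1 w2 w3 hα h h', lw_eq w1 w3 hα h, mw_eq w1 w3 hα h]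
  have hy := h.1
  have hy' := h'.1
  obtain ⟨n', hn'⟩ : ∃ n' : ℝ, n' = nf α β d w1 w3 (AA α β t y) (AA α β t' y') (HH α β d t y)
    (HH α β d t' y') := ⟨_, rfl⟩
  obtain ⟨n0, hn0⟩ : ∃ n0 : ℝ, n0 = nf α β d w1 w3 (AA α β t y) (AA α β t y) (HH α β d t y)
    (HH α β d t y) := ⟨_, rfl⟩
  obtain ⟨m', hm'⟩ : ∃ m' : ℝ, m' = mf α β d w1 w3 (AA α β t y) (AA α β t' y') (HH α β d t y)
    (HH α β d t' y') := ⟨_, rfl⟩
  obtain ⟨m0, hm0⟩ : ∃ m0 : ℝ, m0 = mf α β d w1 w3 (AA α β t y) (AA α β t y) (HH α β d t y)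
    (HH α β d t y) := ⟨_, rfl⟩
  rw [← hn'] at h1
  rw [← hm'] at h2
  rw [← hn', ← hn0] at h3
  rw [← hm', ← hm0] at h4
  rw [← hn', ← hn0, ← hm', ← hm0]
  have hW : 0 ≤ |w1| + |w3| := by positivity
  obtain ⟨W, hWe⟩ : ∃ W : ℝ, W = |w1| + |w3| := ⟨_, rfl⟩
  rw [← hWe] at h1 h2 h3 h4 hW ⊢
  obtain ⟨T, hTe⟩ : ∃ T : ℝ, T = |t - t'| + |y ^ 2 - y' ^ 2| := ⟨_, rfl⟩
  have hT : 0 ≤ T := by rw [hTe]; positivity
  rw [← hTe] at h3 h4 ⊢
  have e : (y - y') * (Lw α β d w1 w3 t y + y' * (y + y') * n') + (t - t') * (y' * m') -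
      ((Lw α β d w1 w3 t y + 2 * y ^ 2 * n0) * (y - y') + y * m0 * (t - t')) =
      (y - y') * (-((y - y') * (y' + 2 * y)) * n' + 2 * y ^ 2 * (n' - n0)) +
      (t - t') * (-(y - y') * m' + y * (m' - m0)) := by ring
  rw [e]
  have b1 : |(-((y - y') * (y' + 2 * y)) * n' + 2 * y ^ 2 * (n' - n0))| ≤
      18 * C * W * (|y - y'| + |y| * T) := by
    refine (abs_add_le _ _).trans ?_
    rw [abs_mul, abs_neg, abs_mul, abs_mul, abs_mul, abs_pow]
    have k1 : |y' + 2 * y| ≤ 9 := by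
      refine (abs_add_le _ _).trans ?_
      rw [abs_mul]
      norm_num
      linarith
    have k2 : |(2 : ℝ)| = 2 := by norm_num
    rw [k2]
    have k3 : |y| ^ 2 ≤ 3 * |y| := by
      rw [sq]
      gcongr
    have s1 : |y - y'| * |y' + 2 * y| * |n'| ≤ |y - y'| * 9 * (C * W) := by gcongr
    have s2 : 2 * |y| ^ 2 * |n' - n0| ≤ 2 * (3 * |y|) * (C * W * T) := by gcongr
    have s3 : 0 ≤ C * W * |y - y'| := by positivity
    have s4 : 0 ≤ C * W * (|y| * T) := by positivity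
    calc _ ≤ |y - y'| * 9 * (C * W) + 2 * (3 * |y|) * (C * W * T) := by linarith
      _ = 9 * (C * W * |y - y'|) + 6 * (C * W * (|y| * T)) := by ring
      _ ≤ 18 * (C * W * |y - y'|) + 18 * (C * W * (|y| * T)) := by linarith
      _ = _ := by ring
  have b2 : |(-(y - y') * m' + y * (m' - m0))| ≤ 18 * C * W * (|y - y'| + |y| * T) := by
    refine (abs_add_le _ _).trans ?_
    rw [abs_mul, abs_neg, abs_mul]
    have s1 : |y - y'| * |m'| ≤ |y - y'| * (C * W) := by gcongr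
    have s2 : |y| * |m' - m0| ≤ |y| * (C * W * T) := by gcongr
    have s3 : 0 ≤ C * W * |y - y'| := by positivity
    have s4 : 0 ≤ C * W * (|y| * T) := by positivity
    calc _ ≤ |y - y'| * (C * W) + |y| * (C * W * T) := by linarith
      _ = 1 * (C * W * |y - y'|) + 1 * (C * W * (|y| * T)) := by ring
      _ ≤ 18 * (C * W * |y - y'|) + 18 * (C * W * (|y| * T)) := by linarith
      _ = _ := by ring
  refine (abs_add_le _ _).trans ?_
  rw [abs_mul, abs_mul]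
  calc |y - y'| * |(-((y - y') * (y' + 2 * y)) * n' + 2 * y ^ 2 * (n' - n0))| +
        |t - t'| * |(-(y - y') * m' + y * (m' - m0))| ≤
      |y - y'| * (18 * C * W * (|y - y'| + |y| * T)) +
        |t - t'| * (18 * C * W * (|y - y'| + |y| * T)) := by gcongr
    _ = _ := by unfold nn; ring

/-- The chord of the box. -/
theorem bx_le {c0 t0 y0 t y t' y' : ℝ} (hc1 : c0 ≤ 1 / 8) (hy0 : |y0| ≤ 2)
    (h : Bx c0 t0 y0 t y) (h' : Bx c0 t0 y0 t' y') :
    |t - t'| ≤ 2 * c0 ∧ |y - y'| ≤ 2 * c0 * |y0| ∧ |y| ≤ 2 * |y0| ∧ |y0| ≤ 2 * |y| ∧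
      |y ^ 2 - y' ^ 2| ≤ 32 * c0 ∧ nn t y t' y' ≤ 6 * c0 := by
  obtain ⟨h1, h2⟩ := h
  obtain ⟨h3, h4⟩ := h'
  have hc0 : 0 ≤ c0 := (abs_nonneg _).trans h1
  have hyy : 0 ≤ |y0| := abs_nonneg _
  have k1 : |t - t'| ≤ 2 * c0 := by
    have : t - t' = (t - t0) - (t' - t0) := by ring
    rw [this]
    refine (abs_sub _ _).trans ?_
    linarith
  have k2 : |y - y'| ≤ 2 * c0 * |y0| := by
    have : y - y' = (y - y0) - (y' - y0) := by ring
    rw [this]
    refine (abs_sub _ _).trans ?_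
    linarith
  have k0 : c0 * |y0| ≤ 1 / 8 * |y0| := by gcongr
  have k3 : ∀ z : ℝ, |z - y0| ≤ c0 * |y0| → |z| ≤ 2 * |y0| := by
    intro z hz
    have := abs_sub_abs_le_abs_sub z y0
    linarith
  have k4 : |y0| ≤ 2 * |y| := by
    have := abs_sub_abs_le_abs_sub y0 y
    rw [abs_sub_comm] at this
    linarith
  have k5 : |y ^ 2 - y' ^ 2| ≤ 32 * c0 := by
    have e : y ^ 2 - y' ^ 2 = (y - y') * (y + y') := by ring
    rw [e, abs_mul]
    have h5 : |y + y'| ≤ 2 * |y0| + 2 * |y0| := (abs_add_le _ _).trans (by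
      have := k3 y h2
      have := k3 y' h4
      linarith)
    calc |y - y'| * |y + y'| ≤ (2 * c0 * |y0|) * (2 * |y0| + 2 * |y0|) := by gcongr
      _ = 8 * c0 * (|y0| * |y0|) := by ring
      _ ≤ 8 * c0 * (2 * 2) := by gcongr
      _ = _ := by ring
  refine ⟨k1, k2, k3 y h2, k4, k5, ?_⟩
  unfold nn
  have : 2 * c0 * |y0| ≤ 2 * c0 * 2 := by gcongr
  linarith

/-- The row CH, from the box in the large region. -/
theorem ch_of {α β : ℝ} (hα : α ≠ 0) : ∃ C : ℝ, 0 < C ∧ ∀ c0, 0 < c0 → c0 ≤ 1 / 8 →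
    ∀ d, 0 ≤ d → d ≤ 1 → ∀ t0 y0, |y0| ≤ 2 → ∀ t y t' y', Rg α β d t y → Rg α β d t' y' →
      Bx c0 t0 y0 t y → Bx c0 t0 y0 t' y' → ∀ w1 w2 w3 ε, |Uw α β d w1 w2 w3 t y| ≤ ε →
        |Uw α β d w1 w2 w3 t' y'| ≤ ε →
        |lw α β d w1 w3 t y * (y - y') + y * mw α β d w1 w3 t y * (t - t')| ≤
          C * (|w1| + |w3|) * c0 * |y0| * nn t y t' y' + 2 * ε := by
  obtain ⟨C, hC, H⟩ := U_exp (β := β) hα
  refine ⟨C * 100, by positivity, ?_⟩
  intro c0 hc0 hc1 d hd0 hd t0 y0 hy0 t y t' y' h h' b b' w1 w2 w3 ε hu hu'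
  have k := H d hd0 hd t y t' y' w1 w2 w3 h h'
  obtain ⟨x1, x2, x3, x4, x5, x6⟩ := bx_le hc1 hy0 b b'
  have hyy : 0 ≤ |y0| := abs_nonneg _
  have hn : 0 ≤ nn t y t' y' := by unfold nn; positivity
  have k1 : |y - y'| + |y| * (|t - t'| + |y ^ 2 - y' ^ 2|) ≤ 100 * c0 * |y0| := by
    calc |y - y'| + |y| * (|t - t'| + |y ^ 2 - y' ^ 2|)
        ≤ 2 * c0 * |y0| + 2 * |y0| * (2 * c0 + 32 * c0) := by gcongr
      _ = 70 * (c0 * |y0|) := by ring
      _ ≤ 100 * (c0 * |y0|) := by gcongr; norm_num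
      _ = _ := by ring
  have k2 := abs_sub_abs_le_abs_sub
    (lw α β d w1 w3 t y * (y - y') + y * mw α β d w1 w3 t y * (t - t'))
    (Uw α β d w1 w2 w3 t y - Uw α β d w1 w2 w3 t' y')
  have k5 := abs_sub_comm
    (lw α β d w1 w3 t y * (y - y') + y * mw α β d w1 w3 t y * (t - t'))
    (Uw α β d w1 w2 w3 t y - Uw α β d w1 w2 w3 t' y')
  have k3 := abs_sub (Uw α β d w1 w2 w3 t y) (Uw α β d w1 w2 w3 t' y')
  have k4 : C * (|w1| + |w3|) * nn t y t' y' *
      (|y - y'| + |y| * (|t - t'| + |y ^ 2 - y' ^ 2|)) ≤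
      C * (|w1| + |w3|) * nn t y t' y' * (100 * c0 * |y0|) := by gcongr
  calc _ ≤ C * (|w1| + |w3|) * nn t y t' y' * (100 * c0 * |y0|) + 2 * ε := by linarith
    _ = _ := by ring

/-- The metric, `uu`. -/
noncomputable def gm1 (α β d t y : ℝ) : ℝ :=
  (1 / (2 * α * AA α β t y)) ^ 2 + d ^ 2 * (1 / (2 * α * HH α β d t y)) ^ 2
/-- The metric, `uv`. -/
noncomputable def gm2 (α β d t y : ℝ) : ℝ :=
  (1 / (2 * α * AA α β t y)) * (-(β * y) / (α * AA α β t y)) +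
    d ^ 2 * ((1 / (2 * α * HH α β d t y)) * ((α - β) * y / (α * HH α β d t y)))
/-- The metric, `vv`. -/
noncomputable def gm3 (α β d t y : ℝ) : ℝ :=
  (-(β * y) / (α * AA α β t y)) ^ 2 + 1 + d ^ 2 * ((α - β) * y / (α * HH α β d t y)) ^ 2

theorem pg_gm (α β d t y u1 u2 v1 v2 : ℝ) :
    pg (gm1 α β d t y) (gm2 α β d t y) (gm3 α β d t y) u1 u2 v1 v2 =
      ((1 / (2 * α * AA α β t y)) * u1 + (-(β * y) / (α * AA α β t y)) * u2) *
        ((1 / (2 * α * AA α β t y)) * v1 + (-(β * y) / (α * AA α β t y)) * v2) + u2 * v2 +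
      d ^ 2 * (((1 / (2 * α * HH α β d t y)) * u1 + ((α - β) * y / (α * HH α β d t y)) * u2) *
        ((1 / (2 * α * HH α β d t y)) * v1 + ((α - β) * y / (α * HH α β d t y)) * v2)) := by
  unfold pg gm1 gm2 gm3
  ring

/-- Bounds of the coefficients. -/
theorem gm_cf {α β d t y : ℝ} (hα : α ≠ 0) (h : Rg α β d t y) :
    |1 / (2 * α * AA α β t y)| ≤ 24 * (1 + |α| + |β|) / |α| ∧
      |-(β * y) / (α * AA α β t y)| ≤ 24 * (1 + |α| + |β|) / |α| ∧
      |1 / (2 * α * HH α β d t y)| ≤ 24 * (1 + |α| + |β|) / |α| ∧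
      |(α - β) * y / (α * HH α β d t y)| ≤ 24 * (1 + |α| + |β|) / |α| ∧
      1 / (6 * |α|) ≤ |1 / (2 * α * AA α β t y)| := by
  have hα' : 0 < |α| := abs_pos.2 hα
  obtain ⟨a1, a2, a3, a4, a5, -, -⟩ := rg_bd hα h
  have hα1 := abs_nonneg α
  have hβ1 := abs_nonneg β
  generalize AA α β t y = A at *
  generalize HH α β d t y = H at *
  have key : ∀ N S : ℝ, 1 / 8 ≤ S → |N| ≤ 3 * (1 + |α| + |β|) →
      |N / (α * S)| ≤ 24 * (1 + |α| + |β|) / |α| := by
    intro N S hS hN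
    have hS0 : 0 < S := by linarith
    rw [abs_div, abs_mul, abs_of_pos hS0, div_le_iff₀ (by positivity)]
    have h5 : 24 * (1 + |α| + |β|) / |α| * (|α| * S) = 3 * (1 + |α| + |β|) * (8 * S) := by
      field_simp
      ring
    rw [h5]
    refine hN.trans (le_mul_of_one_le_right (by positivity) (by linarith))
  have n1 : |(1 : ℝ) / 2| ≤ 3 * (1 + |α| + |β|) := by
    rw [abs_of_pos (by norm_num)]
    linarith
  have n2 : |(-(β * y))| ≤ 3 * (1 + |α| + |β|) := by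
    rw [abs_neg, abs_mul]
    nlinarith [mul_le_mul_of_nonneg_left a5 hβ1]
  have n3 : |(α - β) * y| ≤ 3 * (1 + |α| + |β|) := by
    rw [abs_mul]
    have h5 : |α - β| ≤ |α| + |β| := abs_sub _ _
    calc |α - β| * |y| ≤ (|α| + |β|) * 3 := by gcongr
      _ ≤ _ := by linarith
  refine ⟨?_, ?_, ?_, ?_, ?_⟩
  · have e : 1 / (2 * α * A) = 1 / 2 / (α * A) := by field_simp
    rw [e]
    exact key _ _ a1 n1
  · exact key _ _ a1 n2
  · have e : 1 / (2 * α * H) = 1 / 2 / (α * H) := by field_simp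
    rw [e]
    exact key _ _ (by linarith) n1
  · exact key _ _ (by linarith) n3
  · rw [abs_div, abs_one, abs_mul, abs_mul, abs_of_pos (by linarith : (0 : ℝ) < A)]
    have : |(2 : ℝ)| = 2 := by norm_num
    rw [this]
    have hA0 : 0 < A := by linarith
    refine one_div_le_one_div_of_le (by positivity) ?_
    nlinarith

/-- The metric is bounded and positive definite. -/
theorem gm_bd {α β : ℝ} (hα : α ≠ 0) : ∃ γ G : ℝ, 0 < γ ∧ 0 < G ∧
    ∀ d, 0 ≤ d → d ≤ 1 → ∀ t y, Rg α β d t y →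
      |gm1 α β d t y| ≤ G ∧ |gm2 α β d t y| ≤ G ∧ |gm3 α β d t y| ≤ G ∧
        ∀ u v : ℝ, γ * (u ^ 2 + v ^ 2) ≤
          pg (gm1 α β d t y) (gm2 α β d t y) (gm3 α β d t y) u v u v := by
  have hα' : 0 < |α| := abs_pos.2 hα
  obtain ⟨P, hP⟩ : ∃ P : ℝ, P = 24 * (1 + |α| + |β|) / |α| := ⟨_, rfl⟩
  have hP0 : 0 < P := by rw [hP]; positivity
  obtain ⟨Q, hQ⟩ : ∃ Q : ℝ, Q = 1 + 2 * (6 * |α|) ^ 2 * (1 + P ^ 2) := ⟨_, rfl⟩
  have hQ0 : 0 < Q := by rw [hQ]; positivity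
  refine ⟨1 / Q, 1 + 2 * P ^ 2, by positivity, by positivity, ?_⟩
  intro d hd0 hd t y h
  obtain ⟨c1, c2, c3, c4, c5⟩ := gm_cf hα h
  rw [← hP] at c1 c2 c3 c4
  have hd2 : d ^ 2 ≤ 1 := by nlinarith
  have hd20 : 0 ≤ d ^ 2 := sq_nonneg d
  have hpg := pg_gm α β d t y
  unfold gm1 gm2 gm3 at hpg ⊢
  generalize 1 / (2 * α * AA α β t y) = a at *
  generalize -(β * y) / (α * AA α β t y) = b at *
  generalize 1 / (2 * α * HH α β d t y) = e at *
  generalize (α - β) * y / (α * HH α β d t y) = f at *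
  have sq_le : ∀ x : ℝ, |x| ≤ P → x ^ 2 ≤ P ^ 2 := by
    intro x hx
    rw [← sq_abs]
    gcongr
  have hd2x : ∀ x : ℝ, 0 ≤ x → d ^ 2 * x ≤ x := by
    intro x hx
    nlinarith
  refine ⟨?_, ?_, ?_, ?_⟩
  · rw [abs_of_nonneg (by positivity)]
    have := sq_le a c1
    have := sq_le e c3
    have := hd2x (e ^ 2) (sq_nonneg _)
    linarith
  · refine (abs_add_le _ _).trans ?_
    rw [abs_mul, abs_mul (d ^ 2), abs_of_nonneg hd20, abs_mul]
    have s1 : |a| * |b| ≤ P * P := by gcongr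
    have s2 : |e| * |f| ≤ P * P := by gcongr
    have s3 := hd2x (|e| * |f|) (by positivity)
    nlinarith
  · rw [abs_of_nonneg (by positivity)]
    have := sq_le b c2
    have := sq_le f c4
    have := hd2x (f ^ 2) (sq_nonneg _)
    linarith
  · intro u v
    rw [hpg u v u v]
    have s0 : 0 ≤ d ^ 2 * ((e * u + f * v) * (e * u + f * v)) := by
      have := mul_self_nonneg (e * u + f * v)
      positivity
    rw [div_mul_eq_mul_div, one_mul, div_le_iff₀ hQ0]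
    obtain ⟨z, hz⟩ : ∃ z : ℝ, z = a * u + b * v := ⟨_, rfl⟩
    have s1 : 1 ≤ (6 * |α|) ^ 2 * a ^ 2 := by
      have : 1 ≤ 6 * |α| * |a| := by
        calc (1 : ℝ) = 6 * |α| * (1 / (6 * |α|)) := by field_simp
          _ ≤ _ := by gcongr
      rw [← sq_abs a]
      nlinarith
    have s2 : (a * u) ^ 2 ≤ 2 * z ^ 2 + 2 * (P ^ 2 * v ^ 2) := by
      have e1 : a * u = z - b * v := by rw [hz]; ring
      rw [e1]
      have := sq_le b c2
      have h5 : (b * v) ^ 2 ≤ P ^ 2 * v ^ 2 := by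
        rw [mul_pow]
        gcongr
      nlinarith [sq_nonneg (z + b * v)]
    have s3 : u ^ 2 ≤ (6 * |α|) ^ 2 * (2 * z ^ 2 + 2 * (P ^ 2 * v ^ 2)) := by
      calc u ^ 2 = 1 * u ^ 2 := by ring
        _ ≤ (6 * |α|) ^ 2 * a ^ 2 * u ^ 2 := by gcongr
        _ = (6 * |α|) ^ 2 * (a * u) ^ 2 := by ring
        _ ≤ _ := by gcongr
    rw [← hz]
    have hz2 : 0 ≤ z ^ 2 := sq_nonneg z
    have hv2 : 0 ≤ v ^ 2 := sq_nonneg v
    obtain ⟨M, hM⟩ : ∃ M : ℝ, M = (6 * |α|) ^ 2 := ⟨_, rfl⟩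
    have hM0 : 0 ≤ M := by rw [hM]; positivity
    rw [← hM] at s3 hQ
    have s4 : 0 ≤ d ^ 2 * ((e * u + f * v) * (e * u + f * v)) * Q := mul_nonneg s0 hQ0.le
    calc u ^ 2 + v ^ 2 ≤ M * (2 * z ^ 2 + 2 * (P ^ 2 * v ^ 2)) + v ^ 2 := by linarith
      _ ≤ (z ^ 2 + v ^ 2) * Q := by
        rw [hQ]
        nlinarith [mul_nonneg hM0 hz2, mul_nonneg hM0 hv2, mul_nonneg (mul_nonneg hM0 (sq_nonneg P)) hz2,
          mul_nonneg (mul_nonneg hM0 (sq_nonneg P)) hv2]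
      _ ≤ (z * z + v * v + d ^ 2 * ((e * u + f * v) * (e * u + f * v))) * Q := by
        nlinarith

end Pool.Agent.LQ
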