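import Pool.Agent.LQ.EXPL
import Pool.Agent.LQ.DI

/-!
[LEAFQ] row CH: nearly critical points of one `w` lie on a curve.
-/

set_option autoImplicit false

namespace Pool.Agent.LQ

theorem Bx.mono {c0 c1 t0 y0 t y : ℝ} (h : Bx c0 t0 y0 t y) (hc : c0 ≤ c1) :
    Bx c1 t0 y0 t y :=
  ⟨h.1.trans hc, h.2.trans (mul_le_mul_of_nonneg_right hc (abs_nonneg _))⟩

theorem row_CH {α β : ℝ} (hα : α ≠ 0) : ∃ C c1 : ℝ, 0 < C ∧ 0 < c1 ∧ ∀ c0, 0 < c0 → c0 ≤ c1 →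
    ∀ d, 0 ≤ d → d ≤ 1 → ∀ t0 y0, Rs α β d t0 y0 → y0 ≠ 0 → ∀ t y t' y', Bx c0 t0 y0 t y →
      Bx c0 t0 y0 t' y' → ∀ w1 w2 w3 ε, |w1| + |w3| ≤ 16 → |Uw α β d w1 w2 w3 t y| ≤ ε →
        |Uw α β d w1 w2 w3 t' y'| ≤ ε →
        |lw α β d w1 w3 t y * (y - y') + y * mw α β d w1 w3 t y * (t - t')| ≤
          C * c0 * |y0| * nn t y t' y' + 2 * ε := by
  obtain ⟨c1, h1, h2, hb⟩ := box_sub (β := β) hα
  obtain ⟨C, hC, H⟩ := ch_of (β := β) hα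
  refine ⟨C * 16, c1, by positivity, h1, ?_⟩
  intro c0 hc0 hc1 d hd0 hd t0 y0 hs hy0 t y t' y' b b' w1 w2 w3 ε hw hu hu'
  have k := H c0 hc0 (hc1.trans h2) d hd0 hd t0 y0 hs.1 t y t' y'
    (hb d hd0 hd t0 y0 t y hs (b.mono hc1)) (hb d hd0 hd t0 y0 t' y' hs (b'.mono hc1)) b b'
    w1 w2 w3 ε hu hu'
  refine k.trans ?_
  have hn : 0 ≤ nn t y t' y' := by unfold nn; positivity
  have : C * (|w1| + |w3|) * c0 * |y0| * nn t y t' y' ≤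
      C * 16 * c0 * |y0| * nn t y t' y' := by gcongr
  linarith

end Pool.Agent.LQ
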