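import Pool.Agent.LQ.Df

/-!
LEAFQ, row CNT: the number of related quadruples of grid points.
-/

set_option autoImplicit false

namespace Pool.Agent.LQ

open Set

/-- The relation of four grid points. -/
def Rel (α β d c0 t0 y0 r K : ℝ) (p1 p2 p3 p4 : ℝ × ℝ) : Prop :=
  ∃ q1 q2 q3 q4 : ℝ × ℝ, ∃ w1 w2 w3 : ℝ,
    (Bx c0 t0 y0 q1.1 q1.2 ∧ Bx c0 t0 y0 q2.1 q2.2 ∧ Bx c0 t0 y0 q3.1 q3.2 ∧
      Bx c0 t0 y0 q4.1 q4.2) ∧
    (‖q1 - p1‖ ≤ K * r ∧ ‖q2 - p2‖ ≤ K * r ∧ ‖q3 - p3‖ ≤ K * r ∧ ‖q4 - p4‖ ≤ K * r) ∧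
    (1 / 16 ≤ w1 ^ 2 + w2 ^ 2 + w3 ^ 2 ∧ w1 ^ 2 + w2 ^ 2 + w3 ^ 2 ≤ 64) ∧
    (|Uw α β d w1 w2 w3 q1.1 q1.2| ≤ K * r ∧ |Uw α β d w1 w2 w3 q2.1 q2.2| ≤ K * r ∧
      |Uw α β d w1 w2 w3 q3.1 q3.2| ≤ K * r ∧ |Uw α β d w1 w2 w3 q4.1 q4.2| ≤ K * r) ∧
    |AA α β q1.1 q1.2 + AA α β q2.1 q2.2 - AA α β q3.1 q3.2 - AA α β q4.1 q4.2| ≤ (K * r) ^ 2 ∧
    |q1.2 + q2.2 - q3.2 - q4.2| ≤ (K * r) ^ 2 ∧
    |hh α β d q1.1 q1.2 + hh α β d q2.1 q2.2 - hh α β d q3.1 q3.2 - hh α β d q4.1 q4.2| ≤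
      (K * r) ^ 2

namespace CN

/-! ### Separated sets -/

theorem sep_card {κ : Type*} (S : Finset κ) (f : κ → ℝ) {d u L : ℝ} (hd : 0 < d) (hL : 0 ≤ L)
    (hf : ∀ a ∈ S, u ≤ f a ∧ f a ≤ u + L) (hsep : ∀ a ∈ S, ∀ b ∈ S, a ≠ b → d ≤ |f a - f b|) :
    (S.card : ℝ) ≤ 1 + L / d := by
  have h1 : S.card ≤ (Finset.range (⌊L / d⌋₊ + 1)).card := by
    refine Finset.card_le_card_of_injOn (fun a => ⌊(f a - u) / d⌋₊) (fun a ha => ?_)
      (fun a ha b hb hab => ?_)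
    · have h2 := hf a ha
      simp only [Finset.coe_range, Set.mem_Iio]
      refine Nat.lt_succ_of_le (Nat.floor_le_floor ?_)
      exact div_le_div_of_nonneg_right (by linarith) hd.le
    · by_contra hne
      have h2 := hsep a ha b hb hne
      simp only at hab
      have h3 : 0 ≤ (f a - u) / d := div_nonneg (by linarith [(hf a ha).1]) hd.le
      have h4 : 0 ≤ (f b - u) / d := div_nonneg (by linarith [(hf b hb).1]) hd.le
      have h5 := Nat.floor_le h3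
      have h6 := Nat.lt_floor_add_one ((f a - u) / d)
      have h7 := Nat.floor_le h4
      have h8 := Nat.lt_floor_add_one ((f b - u) / d)
      rw [hab] at h5 h6
      have h9 : |(f a - u) / d - (f b - u) / d| < 1 := by
        rw [abs_lt]
        constructor <;> linarith
      rw [← sub_div, abs_div, abs_of_pos hd, div_lt_one hd] at h9
      have h10 : f a - u - (f b - u) = f a - f b := by ring
      rw [h10] at h9
      linarith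
  rw [Finset.card_range] at h1
  have h2 : (S.card : ℝ) ≤ (⌊L / d⌋₊ : ℝ) + 1 := by exact_mod_cast h1
  have h3 := Nat.floor_le (div_nonneg hL hd.le)
  linarith

/-- Separated points near `u`. -/
theorem sep_near {I : Type} [Fintype I] (f : I → ℝ) {r : ℝ} (hr : 0 < r)
    (hsep : ∀ i j, i ≠ j → r ≤ |f i - f j|) (u : ℝ) {D K : ℝ} (hK : 0 ≤ K) (hD : D ≤ K * r) :
    ({i | |f i - u| ≤ D}.ncard : ℝ) ≤ 1 + 2 * K := by
  classical
  rw [Set.ncard_eq_toFinset_card']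
  have h1 := sep_card ({i | |f i - u| ≤ D} : Set I).toFinset f (d := r) (u := u - K * r)
    (L := 2 * (K * r)) hr (by positivity) (fun a ha => by
      rw [Set.mem_toFinset, mem_ofPred_eq, abs_le] at ha
      constructor <;> linarith [ha.1, ha.2]) (fun a _ b _ hab => hsep a b hab)
  refine h1.trans (le_of_eq ?_)
  field_simp

/-! ### The surface -/

variable {α β d : ℝ}

theorem ss_eq (hα : α ≠ 0) (t y : ℝ) : ss α β t y = rr α β t y + y ^ 2 := by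
  unfold ss rr
  field_simp
  ring

theorem AA_pos {t y : ℝ} (h : Rg α β d t y) : 1 / 8 ≤ AA α β t y ∧ AA α β t y ≤ 3 ∧
    AA α β t y ^ 2 = rr α β t y := by
  obtain ⟨_, h2, h3, _⟩ := h
  refine ⟨?_, ?_, Real.sq_sqrt (by linarith)⟩
  · refine Real.le_sqrt_of_sq_le ?_
    norm_num
    linarith
  · refine Real.sqrt_le_iff.2 ⟨by norm_num, ?_⟩
    norm_num
    linarith

theorem HH_pos {t y : ℝ} (h : Rg α β d t y) : 1 / 4 ≤ HH α β d t y ∧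
    HH α β d t y ^ 2 = 1 - d ^ 2 * ss α β t y := by
  obtain ⟨_, _, _, h4⟩ := h
  refine ⟨?_, Real.sq_sqrt (by linarith)⟩
  refine Real.le_sqrt_of_sq_le ?_
  norm_num
  linarith

theorem ss_bd (hα : α ≠ 0) {t y : ℝ} (h : Rg α β d t y) : 0 ≤ ss α β t y ∧ ss α β t y ≤ 18 := by
  obtain ⟨h1, h2, h3, _⟩ := h
  rw [ss_eq hα]
  have h5 : y ^ 2 ≤ 9 := by
    have := abs_le.1 h1
    nlinarith [this.1, this.2]
  constructor
  · nlinarith [sq_nonneg y]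
  · linarith

theorem hh_bd (hα : α ≠ 0) {t y : ℝ} (h : Rg α β d t y) : 0 ≤ hh α β d t y ∧
    hh α β d t y ≤ 18 ∧ hh α β d t y * (1 + HH α β d t y) = ss α β t y ∧
    d ^ 2 * hh α β d t y = 1 - HH α β d t y := by
  obtain ⟨s1, s2⟩ := ss_bd hα h
  obtain ⟨k1, k2⟩ := HH_pos h
  have hp : 0 < 1 + HH α β d t y := by linarith
  have e1 : hh α β d t y * (1 + HH α β d t y) = ss α β t y := by
    unfold hh
    field_simp
  refine ⟨div_nonneg s1 hp.le, ?_, e1, ?_⟩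
  · unfold hh
    rw [div_le_iff₀ hp]
    nlinarith
  · have h5 : (d ^ 2 * hh α β d t y - (1 - HH α β d t y)) * (1 + HH α β d t y) = 0 := by
      have : (d ^ 2 * hh α β d t y - (1 - HH α β d t y)) * (1 + HH α β d t y) =
        d ^ 2 * (hh α β d t y * (1 + HH α β d t y)) - (1 - HH α β d t y ^ 2) := by ring
      rw [this, e1, k2]
      ring
    rcases mul_eq_zero.1 h5 with h6 | h6
    · linarith
    · linarith

theorem quadr (hα : α ≠ 0) {t y : ℝ} (h : Rg α β d t y) :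
    AA α β t y ^ 2 + y ^ 2 + d ^ 2 * hh α β d t y ^ 2 = 2 * hh α β d t y := by
  obtain ⟨_, _, a3⟩ := AA_pos h
  obtain ⟨_, _, b3, b4⟩ := hh_bd hα h
  have h1 : AA α β t y ^ 2 + y ^ 2 = ss α β t y := by rw [a3, ss_eq hα]
  have h2 : d ^ 2 * hh α β d t y ^ 2 = (1 - HH α β d t y) * hh α β d t y := by
    rw [← b4]; ring
  rw [h1, h2, ← b3]
  ring

/-- The Lipschitz bounds. -/
theorem lip (hα : α ≠ 0) : ∃ C : ℝ, 1 ≤ C ∧ ∀ d, 0 ≤ d → d ≤ 1 → ∀ t y t' y',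
    Rg α β d t y → Rg α β d t' y' →
    |AA α β t y - AA α β t' y'| ≤ C * nn t y t' y' ∧
      |hh α β d t y - hh α β d t' y'| ≤ C * nn t y t' y' ∧
      |t - t'| ≤ C * (|AA α β t y - AA α β t' y'| + |y - y'|) := by
  have hα' : 0 < |α| := abs_pos.2 hα
  set C1 : ℝ := (1 + 6 * |β|) / |α| with hC1
  set C2 : ℝ := (1 + 6 * |α - β|) / |α| with hC2
  have hC10 : 0 ≤ C1 := by positivity
  have hC20 : 0 ≤ C2 := by positivity
  refine ⟨1 + 4 * C1 + 37 * C2 + 6 * |α| + 6 * |β|, by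
    have := abs_nonneg β
    linarith, fun d hd0 hd1 t y t' y' h h' => ?_⟩
  have hn : 0 ≤ nn t y t' y' := by unfold nn; positivity
  have hn1 : |t - t'| ≤ nn t y t' y' := by
    unfold nn
    linarith [abs_nonneg (y - y')]
  have hn2 : |y - y'| ≤ nn t y t' y' := by
    unfold nn
    linarith [abs_nonneg (t - t')]
  have hy2 : |y ^ 2 - y' ^ 2| ≤ 6 * |y - y'| := by
    have e : y ^ 2 - y' ^ 2 = (y + y') * (y - y') := by ring
    rw [e, abs_mul]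
    refine mul_le_mul_of_nonneg_right ?_ (abs_nonneg _)
    refine (abs_add_le _ _).trans ?_
    linarith [h.1, h'.1]
  have hr1 : |rr α β t y - rr α β t' y'| ≤ C1 * nn t y t' y' := by
    have e : rr α β t y - rr α β t' y' = ((t - t') - β * (y ^ 2 - y' ^ 2)) / α := by
      unfold rr
      field_simp
      ring
    rw [e, abs_div, hC1, div_mul_eq_mul_div]
    refine div_le_div_of_nonneg_right ?_ hα'.le
    refine (abs_sub _ _).trans ?_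
    rw [abs_mul]
    have h1 : |β| * |y ^ 2 - y' ^ 2| ≤ |β| * (6 * nn t y t' y') :=
      mul_le_mul_of_nonneg_left (by linarith) (abs_nonneg _)
    linarith
  have hs1 : |ss α β t y - ss α β t' y'| ≤ C2 * nn t y t' y' := by
    have e : ss α β t y - ss α β t' y' = ((t - t') + (α - β) * (y ^ 2 - y' ^ 2)) / α := by
      unfold ss
      field_simp
      ring
    rw [e, abs_div, hC2, div_mul_eq_mul_div]
    refine div_le_div_of_nonneg_right ?_ hα'.le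
    refine (abs_add_le _ _).trans ?_
    rw [abs_mul]
    have h1 : |α - β| * |y ^ 2 - y' ^ 2| ≤ |α - β| * (6 * nn t y t' y') :=
      mul_le_mul_of_nonneg_left (by linarith) (abs_nonneg _)
    linarith
  obtain ⟨a1, a2, a3⟩ := AA_pos h
  obtain ⟨a1', a2', a3'⟩ := AA_pos h'
  have hAd : (AA α β t y - AA α β t' y') * (AA α β t y + AA α β t' y') =
      rr α β t y - rr α β t' y' := by rw [← a3, ← a3']; ring
  have hA1 : |AA α β t y - AA α β t' y'| ≤ 4 * |rr α β t y - rr α β t' y'| := by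
    rw [← hAd, abs_mul, abs_of_pos (by linarith : 0 < AA α β t y + AA α β t' y')]
    have := abs_nonneg (AA α β t y - AA α β t' y')
    nlinarith
  obtain ⟨k1, k2⟩ := HH_pos h
  obtain ⟨k1', k2'⟩ := HH_pos h'
  have hHd : (HH α β d t y - HH α β d t' y') * (HH α β d t y + HH α β d t' y') =
      -(d ^ 2 * (ss α β t y - ss α β t' y')) := by
    have : (HH α β d t y - HH α β d t' y') * (HH α β d t y + HH α β d t' y') =
      HH α β d t y ^ 2 - HH α β d t' y' ^ 2 := by ring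
    rw [this, k2, k2']
    ring
  have hd2 : d ^ 2 ≤ 1 := pow_le_one₀ hd0 hd1
  have hH1 : |HH α β d t y - HH α β d t' y'| ≤ 2 * |ss α β t y - ss α β t' y'| := by
    have e1 : |HH α β d t y - HH α β d t' y'| * (HH α β d t y + HH α β d t' y') =
        d ^ 2 * |ss α β t y - ss α β t' y'| := by
      have := congrArg abs hHd
      rw [abs_mul, abs_neg, abs_mul, abs_of_nonneg (sq_nonneg d),
        abs_of_pos (by linarith : 0 < HH α β d t y + HH α β d t' y')] at this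
      exact this
    have e2 : d ^ 2 * |ss α β t y - ss α β t' y'| ≤ 1 * |ss α β t y - ss α β t' y'| :=
      mul_le_mul_of_nonneg_right hd2 (abs_nonneg _)
    have := abs_nonneg (HH α β d t y - HH α β d t' y')
    nlinarith
  obtain ⟨s1, s2⟩ := ss_bd hα h
  obtain ⟨s1', s2'⟩ := ss_bd hα h'
  obtain ⟨g1, g2, g3, _⟩ := hh_bd hα h
  obtain ⟨g1', g2', g3', _⟩ := hh_bd hα h'
  have hh1 : |hh α β d t y - hh α β d t' y'| ≤ |ss α β t y - ss α β t' y'| +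
      18 * |HH α β d t y - HH α β d t' y'| := by
    have e1 : (hh α β d t y - hh α β d t' y') * (1 + HH α β d t y) =
        (ss α β t y - ss α β t' y') - hh α β d t' y' * (HH α β d t y - HH α β d t' y') := by
      have : (hh α β d t y - hh α β d t' y') * (1 + HH α β d t y) =
        hh α β d t y * (1 + HH α β d t y) - hh α β d t' y' * (1 + HH α β d t' y') -
          hh α β d t' y' * (HH α β d t y - HH α β d t' y') := by ring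
      rw [this, g3, g3']
    have e2 : |hh α β d t y - hh α β d t' y'| * (1 + HH α β d t y) ≤
        |ss α β t y - ss α β t' y'| + 18 * |HH α β d t y - HH α β d t' y'| := by
      have := congrArg abs e1
      rw [abs_mul, abs_of_pos (by linarith : 0 < 1 + HH α β d t y)] at this
      rw [this]
      refine (abs_sub _ _).trans (add_le_add le_rfl ?_)
      rw [abs_mul, abs_of_nonneg g1']
      exact mul_le_mul_of_nonneg_right g2' (abs_nonneg _)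
    have := abs_nonneg (hh α β d t y - hh α β d t' y')
    nlinarith
  have hβ0 := abs_nonneg β
  have hC1n : 0 ≤ C1 * nn t y t' y' := by positivity
  have hC2n : 0 ≤ C2 * nn t y t' y' := by positivity
  have hαn : 0 ≤ |α| * nn t y t' y' := by positivity
  have hβn : 0 ≤ |β| * nn t y t' y' := by positivity
  refine ⟨?_, ?_, ?_⟩
  · nlinarith
  · nlinarith
  · have e : t - t' = α * ((AA α β t y - AA α β t' y') * (AA α β t y + AA α β t' y')) +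
        β * (y ^ 2 - y' ^ 2) := by
      rw [hAd]
      unfold rr
      field_simp
      ring
    have h1 : |t - t'| ≤ |α| * (|AA α β t y - AA α β t' y'| * 6) + |β| * (6 * |y - y'|) := by
      rw [e]
      refine (abs_add_le _ _).trans (add_le_add ?_ ?_)
      · rw [abs_mul, abs_mul]
        refine mul_le_mul_of_nonneg_left (mul_le_mul_of_nonneg_left ?_ (abs_nonneg _))
          (abs_nonneg _)
        rw [abs_of_pos (by linarith : 0 < AA α β t y + AA α β t' y')]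
        linarith
      · rw [abs_mul]
        exact mul_le_mul_of_nonneg_left hy2 (abs_nonneg _)
    have p1 := abs_nonneg (AA α β t y - AA α β t' y')
    have p2 := abs_nonneg (y - y')
    have q1 : 0 ≤ C1 * |AA α β t y - AA α β t' y'| := by positivity
    have q2 : 0 ≤ C2 * |AA α β t y - AA α β t' y'| := by positivity
    have q3 : 0 ≤ |β| * |AA α β t y - AA α β t' y'| := by positivity
    have q4 : 0 ≤ C1 * |y - y'| := by positivity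
    have q5 : 0 ≤ C2 * |y - y'| := by positivity
    have q6 : 0 ≤ |α| * |y - y'| := by positivity
    nlinarith

/-- The box stays in the large region. -/
theorem box (hα : α ≠ 0) : ∃ c1 : ℝ, 0 < c1 ∧ c1 ≤ 1 / 8 ∧
    ∀ c0, c0 ≤ c1 → ∀ d, 0 ≤ d → d ≤ 1 → ∀ t0 y0 t y, Rs α β d t0 y0 → Bx c0 t0 y0 t y →
      Rg α β d t y := by
  have hα' : 0 < |α| := abs_pos.2 hα
  have hβ0 := abs_nonneg β
  have hαβ0 := abs_nonneg (α - β)
  obtain ⟨c1, hc1, h8, hb1, hb2⟩ : ∃ c1 : ℝ, 0 < c1 ∧ c1 ≤ 1 / 8 ∧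
      (1 + 9 * |β|) * c1 ≤ 3 / 64 * |α| ∧ (1 + 9 * |α - β|) * c1 ≤ 3 / 64 * |α| := by
    refine ⟨min (1 / 8) (min (3 / 64 * |α| / (1 + 9 * |β|)) (3 / 64 * |α| / (1 + 9 * |α - β|))),
      lt_min (by norm_num) (lt_min (by positivity) (by positivity)), min_le_left _ _, ?_, ?_⟩
    · have : min (1 / 8) (min (3 / 64 * |α| / (1 + 9 * |β|)) (3 / 64 * |α| / (1 + 9 * |α - β|))) ≤
        3 / 64 * |α| / (1 + 9 * |β|) := (min_le_right _ _).trans (min_le_left _ _)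
      rw [le_div_iff₀ (by positivity)] at this
      linarith
    · have : min (1 / 8) (min (3 / 64 * |α| / (1 + 9 * |β|)) (3 / 64 * |α| / (1 + 9 * |α - β|))) ≤
        3 / 64 * |α| / (1 + 9 * |α - β|) := (min_le_right _ _).trans (min_le_right _ _)
      rw [le_div_iff₀ (by positivity)] at this
      linarith
  refine ⟨c1, hc1, h8, fun c0 hc0 d hd0 hd1 t0 y0 t y h0 hb => ?_⟩
  obtain ⟨r1, r2, r3, r4⟩ := h0
  obtain ⟨b1, b2⟩ := hb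
  have b1' : |t - t0| ≤ c1 := b1.trans hc0
  have b2' : |y - y0| ≤ c1 * |y0| := b2.trans (mul_le_mul_of_nonneg_right hc0 (abs_nonneg _))
  have b3 : |y - y0| ≤ 2 * c1 := b2'.trans (by nlinarith [abs_nonneg y0])
  have y1 : |y| ≤ 9 / 4 := by
    have e : y = y0 + (y - y0) := by ring
    rw [e]
    refine (abs_add_le _ _).trans ?_
    linarith
  have hy2 : |y ^ 2 - y0 ^ 2| ≤ 9 * c1 := by
    have e : y ^ 2 - y0 ^ 2 = (y + y0) * (y - y0) := by ring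
    rw [e, abs_mul]
    have h1 : |y + y0| ≤ 17 / 4 := (abs_add_le _ _).trans (by linarith)
    have := mul_le_mul h1 b3 (abs_nonneg _) (by norm_num)
    linarith
  have hr : |rr α β t y - rr α β t0 y0| ≤ 3 / 64 := by
    have e : rr α β t y - rr α β t0 y0 = ((t - t0) - β * (y ^ 2 - y0 ^ 2)) / α := by
      unfold rr
      field_simp
      ring
    rw [e, abs_div, div_le_iff₀ hα']
    refine (abs_sub _ _).trans ?_
    rw [abs_mul]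
    have h1 : |β| * |y ^ 2 - y0 ^ 2| ≤ |β| * (9 * c1) := mul_le_mul_of_nonneg_left hy2 hβ0
    linarith
  have hs : |ss α β t y - ss α β t0 y0| ≤ 3 / 64 := by
    have e : ss α β t y - ss α β t0 y0 = ((t - t0) + (α - β) * (y ^ 2 - y0 ^ 2)) / α := by
      unfold ss
      field_simp
      ring
    rw [e, abs_div, div_le_iff₀ hα']
    refine (abs_add_le _ _).trans ?_
    rw [abs_mul]
    have h1 : |α - β| * |y ^ 2 - y0 ^ 2| ≤ |α - β| * (9 * c1) := mul_le_mul_of_nonneg_left hy2 hαβ0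
    linarith
  rw [abs_le] at hr hs
  have hd2 : d ^ 2 ≤ 1 := pow_le_one₀ hd0 hd1
  refine ⟨by linarith, by linarith [hr.1], by linarith [hr.2], ?_⟩
  have h3 : d ^ 2 * (ss α β t y - ss α β t0 y0) ≤ 3 / 64 := by
    have := sq_nonneg d
    nlinarith [hs.2]
  nlinarith

/-! ### The rectangle -/

/-- Four points of the quadric whose alternating sum is small. -/
theorem thales {d x1 y1 z1 x2 y2 z2 x3 y3 z3 x4 y4 z4 e : ℝ} (hd0 : 0 ≤ d) (hd1 : d ≤ 1)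
    (hx1 : |x1| ≤ 3) (hx2 : |x2| ≤ 3) (hx3 : |x3| ≤ 3) (hx4 : |x4| ≤ 3)
    (hy1 : |y1| ≤ 3) (hy2 : |y2| ≤ 3) (hy3 : |y3| ≤ 3) (hy4 : |y4| ≤ 3)
    (hz1 : |z1| ≤ 18) (hz2 : |z2| ≤ 18) (hz3 : |z3| ≤ 18) (hz4 : |z4| ≤ 18)
    (q1 : x1 ^ 2 + y1 ^ 2 + d ^ 2 * z1 ^ 2 = 2 * z1) (q2 : x2 ^ 2 + y2 ^ 2 + d ^ 2 * z2 ^ 2 = 2 * z2)
    (q3 : x3 ^ 2 + y3 ^ 2 + d ^ 2 * z3 ^ 2 = 2 * z3) (q4 : x4 ^ 2 + y4 ^ 2 + d ^ 2 * z4 ^ 2 = 2 * z4)
    (ex : |x1 + x2 - x3 - x4| ≤ e) (ey : |y1 + y2 - y3 - y4| ≤ e)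
    (ez : |z1 + z2 - z3 - z4| ≤ e) :
    |(x3 - x1) * (x3 - x2) + (y3 - y1) * (y3 - y2) + d ^ 2 * ((z3 - z1) * (z3 - z2))| ≤ 73 * e ∧
      |(x1 - x3) * (x1 - x4) + (y1 - y3) * (y1 - y4) + d ^ 2 * ((z1 - z3) * (z1 - z4))| ≤
        121 * e := by
  have he : 0 ≤ e := (abs_nonneg _).trans ex
  have hd2 : d ^ 2 ≤ 1 := pow_le_one₀ hd0 hd1
  have hd2' : 0 ≤ d ^ 2 := sq_nonneg d
  obtain ⟨u, hu⟩ : ∃ u, u = x1 + x2 - x3 - x4 := ⟨_, rfl⟩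
  obtain ⟨v, hv⟩ : ∃ v, v = y1 + y2 - y3 - y4 := ⟨_, rfl⟩
  obtain ⟨w, hw⟩ : ∃ w, w = z1 + z2 - z3 - z4 := ⟨_, rfl⟩
  rw [← hu] at ex
  rw [← hv] at ey
  rw [← hw] at ez
  have prod : ∀ a b A : ℝ, |a| ≤ A → |b| ≤ e → 0 ≤ A → |a * b| ≤ A * e := fun a b A ha hb hA => by
    rw [abs_mul]
    exact mul_le_mul ha hb (abs_nonneg _) hA
  have dprod : ∀ a A : ℝ, |a| ≤ A * e → 0 ≤ A → |d ^ 2 * a| ≤ A * e := fun a A ha hA => by
    rw [abs_mul, abs_of_nonneg hd2']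
    calc d ^ 2 * |a| ≤ 1 * (A * e) := mul_le_mul hd2 ha (abs_nonneg _) (by norm_num)
      _ = A * e := one_mul _
  have bu : |u| ≤ 12 := by
    rw [hu]
    rw [abs_le] at hx1 hx2 hx3 hx4 ⊢
    constructor <;> linarith [hx1.1, hx1.2, hx2.1, hx2.2, hx3.1, hx3.2, hx4.1, hx4.2]
  have bv : |v| ≤ 12 := by
    rw [hv]
    rw [abs_le] at hy1 hy2 hy3 hy4 ⊢
    constructor <;> linarith [hy1.1, hy1.2, hy2.1, hy2.2, hy3.1, hy3.2, hy4.1, hy4.2]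
  have bw : |w| ≤ 72 := by
    rw [hw]
    rw [abs_le] at hz1 hz2 hz3 hz4 ⊢
    constructor <;> linarith [hz1.1, hz1.2, hz2.1, hz2.2, hz3.1, hz3.2, hz4.1, hz4.2]
  have key : 2 * ((x3 - x1) * (x3 - x2) + (y3 - y1) * (y3 - y2) + d ^ 2 * ((z3 - z1) * (z3 - z2)))
      = -(2 * w) + 2 * (x4 * u + y4 * v + d ^ 2 * (z4 * w)) + (u * u + v * v + d ^ 2 * (w * w)) := by
    rw [hu, hv, hw]
    linear_combination -q1 - q2 + q3 + q4
  have m1 := prod x4 u 3 hx4 ex (by norm_num)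
  have m2 := prod y4 v 3 hy4 ey (by norm_num)
  have m3 := dprod _ _ (prod z4 w 18 hz4 ez (by norm_num)) (by norm_num)
  have m4 := prod u u 12 bu ex (by norm_num)
  have m5 := prod v v 12 bv ey (by norm_num)
  have m6 := dprod _ _ (prod w w 72 bw ez (by norm_num)) (by norm_num)
  have r1 : |(x3 - x1) * (x3 - x2) + (y3 - y1) * (y3 - y2) + d ^ 2 * ((z3 - z1) * (z3 - z2))| ≤
      73 * e := by
    rw [abs_le] at m1 m2 m3 m4 m5 m6 ez ⊢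
    constructor <;> linarith [m1.1, m1.2, m2.1, m2.2, m3.1, m3.2, m4.1, m4.2, m5.1, m5.2,
      m6.1, m6.2, ez.1, ez.2]
  refine ⟨r1, ?_⟩
  have key2 : (x1 - x3) * (x1 - x4) + (y1 - y3) * (y1 - y4) + d ^ 2 * ((z1 - z3) * (z1 - z4)) =
      -((x3 - x1) * (x3 - x2) + (y3 - y1) * (y3 - y2) + d ^ 2 * ((z3 - z1) * (z3 - z2))) +
        ((x1 - x3) * u + (y1 - y3) * v + d ^ 2 * ((z1 - z3) * w)) := by
    rw [hu, hv, hw]
    ring
  rw [key2]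
  have n1 := prod (x1 - x3) u 6 ((abs_sub _ _).trans (by linarith)) ex (by norm_num)
  have n2 := prod (y1 - y3) v 6 ((abs_sub _ _).trans (by linarith)) ey (by norm_num)
  have n3 := dprod _ _ (prod (z1 - z3) w 36 ((abs_sub _ _).trans (by linarith)) ez (by norm_num))
    (by norm_num)
  rw [abs_le] at r1 n1 n2 n3 ⊢
  constructor <;> linarith [r1.1, r1.2, n1.1, n1.2, n2.1, n2.2, n3.1, n3.2]

/-- Perturbation of the two chords. -/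
theorem pert {d C x1 y1 z1 x2 y2 z2 x3 y3 z3 x1' y1' z1' x2' y2' z2' n31 n32 n11 n22 : ℝ}
    (hd0 : 0 ≤ d) (hd1 : d ≤ 1) (hC : 1 ≤ C) (h31 : 0 ≤ n31) (h32 : 0 ≤ n32) (h11 : 0 ≤ n11)
    (h22 : 0 ≤ n22)
    (a1 : |x3 - x1| ≤ C * n31) (a2 : |x3 - x2| ≤ C * n32) (a3 : |x1 - x1'| ≤ C * n11)
    (a4 : |x2 - x2'| ≤ C * n22)
    (b1 : |y3 - y1| ≤ C * n31) (b2 : |y3 - y2| ≤ C * n32) (b3 : |y1 - y1'| ≤ C * n11)
    (b4 : |y2 - y2'| ≤ C * n22)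
    (c1 : |z3 - z1| ≤ C * n31) (c2 : |z3 - z2| ≤ C * n32) (c3 : |z1 - z1'| ≤ C * n11)
    (c4 : |z2 - z2'| ≤ C * n22) :
    |(x3 - x1') * (x3 - x2') + (y3 - y1') * (y3 - y2') + d ^ 2 * ((z3 - z1') * (z3 - z2'))| ≤
      |(x3 - x1) * (x3 - x2) + (y3 - y1) * (y3 - y2) + d ^ 2 * ((z3 - z1) * (z3 - z2))| +
        3 * C ^ 2 * (n31 * n22 + n11 * n32 + n11 * n22) := by
  have hd2 : d ^ 2 ≤ 1 := pow_le_one₀ hd0 hd1
  have hd2' : 0 ≤ d ^ 2 := sq_nonneg d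
  have hC0 : 0 ≤ C := by linarith
  have one : ∀ u v w w' : ℝ, |u| ≤ C * n31 → |v| ≤ C * n32 → |w| ≤ C * n11 → |w'| ≤ C * n22 →
      |u * w' + w * v + w * w'| ≤ C ^ 2 * (n31 * n22 + n11 * n32 + n11 * n22) := by
    intro u v w w' hu hv hw hw'
    refine (abs_add_le _ _).trans ((add_le_add (abs_add_le _ _) le_rfl).trans ?_)
    rw [abs_mul, abs_mul, abs_mul]
    have m1 := mul_le_mul hu hw' (abs_nonneg _) (by positivity)
    have m2 := mul_le_mul hw hv (abs_nonneg _) (by positivity)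
    have m3 := mul_le_mul hw hw' (abs_nonneg _) (by positivity)
    linarith
  have o1 := one (x3 - x1) (x3 - x2) (x1 - x1') (x2 - x2') a1 a2 a3 a4
  have o2 := one (y3 - y1) (y3 - y2) (y1 - y1') (y2 - y2') b1 b2 b3 b4
  have o3 := one (z3 - z1) (z3 - z2) (z1 - z1') (z2 - z2') c1 c2 c3 c4
  set Tt := C ^ 2 * (n31 * n22 + n11 * n32 + n11 * n22) with hTt
  have hT0 : 0 ≤ Tt := by positivity
  have o3' : |d ^ 2 * ((z3 - z1) * (z2 - z2') + (z1 - z1') * (z3 - z2) +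
      (z1 - z1') * (z2 - z2'))| ≤ Tt := by
    rw [abs_mul, abs_of_nonneg hd2']
    calc _ ≤ 1 * Tt := mul_le_mul hd2 o3 (abs_nonneg _) (by norm_num)
      _ = Tt := one_mul _
  have e : (x3 - x1') * (x3 - x2') + (y3 - y1') * (y3 - y2') + d ^ 2 * ((z3 - z1') * (z3 - z2')) =
      ((x3 - x1) * (x3 - x2) + (y3 - y1) * (y3 - y2) + d ^ 2 * ((z3 - z1) * (z3 - z2))) +
        (((x3 - x1) * (x2 - x2') + (x1 - x1') * (x3 - x2) + (x1 - x1') * (x2 - x2')) +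
          ((y3 - y1) * (y2 - y2') + (y1 - y1') * (y3 - y2) + (y1 - y1') * (y2 - y2')) +
          d ^ 2 * ((z3 - z1) * (z2 - z2') + (z1 - z1') * (z3 - z2) +
            (z1 - z1') * (z2 - z2'))) := by ring
  rw [e]
  refine (abs_add_le _ _).trans (add_le_add le_rfl ?_)
  refine (abs_add_le _ _).trans ((add_le_add (abs_add_le _ _) le_rfl).trans ?_)
  linarith

/-! ### Counting -/

theorem prod_card {I J : Type} [Fintype I] [Fintype J] (f : I → ℝ) (g : J → ℝ) {r : ℝ}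
    (hr : 0 < r) (hf : ∀ i j, i ≠ j → r ≤ |f i - f j|) (hg : ∀ i j, i ≠ j → r ≤ |g i - g j|)
    (u v : ℝ) {D1 D2 K1 K2 : ℝ} (hK1 : 0 ≤ K1) (hK2 : 0 ≤ K2) (hD1 : D1 ≤ K1 * r)
    (hD2 : D2 ≤ K2 * r) :
    ({c : I × J | |f c.1 - u| ≤ D1 ∧ |g c.2 - v| ≤ D2}.ncard : ℝ) ≤
      (1 + 2 * K1) * (1 + 2 * K2) := by
  have e : {c : I × J | |f c.1 - u| ≤ D1 ∧ |g c.2 - v| ≤ D2} =
      {i | |f i - u| ≤ D1} ×ˢ {j | |g j - v| ≤ D2} := by
    ext c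
    simp [Set.mem_prod]
  rw [e, Set.ncard_prod]
  push_cast
  exact mul_le_mul (sep_near f hr hf u hK1 hD1) (sep_near g hr hg v hK2 hD2) (Nat.cast_nonneg _)
    (by positivity)

theorem cover {G ι : Type} [Finite G] (T : Set G) (Z : Set ι) (hfin : Z.Finite) (F : ι → Set G)
    (hT : T ⊆ ⋃ x ∈ Z, F x) {N0 N : ℝ} (hN0 : (Z.ncard : ℝ) ≤ N0)
    (hF : ∀ x ∈ Z, ((F x).ncard : ℝ) ≤ N) (hN : 0 ≤ N) : (T.ncard : ℝ) ≤ N0 * N := by
  classical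
  have h1 : (T.ncard : ℝ) ≤ ∑ x ∈ hfin.toFinset, ((F x).ncard : ℝ) := by
    have h2 : T.ncard ≤ (⋃ x ∈ hfin.toFinset, F x).ncard := by
      refine ncard_le_ncard ?_ (toFinite _)
      simpa using hT
    have h3 := Finset.set_ncard_biUnion_le hfin.toFinset F
    exact_mod_cast h2.trans h3
  refine h1.trans ((Finset.sum_le_card_nsmul _ _ N fun x hx => hF x (by simpa using hx)).trans ?_)
  rw [nsmul_eq_mul]
  refine mul_le_mul_of_nonneg_right ?_ hN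
  rwa [← Set.ncard_eq_toFinset_card _ hfin]

theorem fib_card {G : Type} [Fintype G] (R : G → G → Prop) {N1 N2 : ℝ}
    (h1 : ({c | ∃ e, R c e}.ncard : ℝ) ≤ N1) (h2 : ∀ c, ({e | R c e}.ncard : ℝ) ≤ N2)
    (hN2 : 0 ≤ N2) : ({q : G × G | R q.1 q.2}.ncard : ℝ) ≤ N1 * N2 := by
  refine cover _ {c | ∃ e, R c e} (toFinite _) (fun c => (fun e => (c, e)) '' {e | R c e}) ?_ h1
    (fun c _ => ?_) hN2
  · rintro ⟨c, e⟩ h
    simp only [mem_iUnion, exists_prop]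
    exact ⟨c, ⟨e, h⟩, e, h, rfl⟩
  · refine le_trans ?_ (h2 c)
    exact_mod_cast ncard_image_le (toFinite _)

/-! ### The relation without frequencies -/

/-- `Rel` without the frequency, with a short first chord. -/
def Rl (α β d c0 t0 y0 r K ρ : ℝ) (p1 p2 p3 p4 : ℝ × ℝ) : Prop :=
  ∃ q1 q2 q3 q4 : ℝ × ℝ,
    (Bx c0 t0 y0 q1.1 q1.2 ∧ Bx c0 t0 y0 q2.1 q2.2 ∧ Bx c0 t0 y0 q3.1 q3.2 ∧
      Bx c0 t0 y0 q4.1 q4.2) ∧
    (‖q1 - p1‖ ≤ K * r ∧ ‖q2 - p2‖ ≤ K * r ∧ ‖q3 - p3‖ ≤ K * r ∧ ‖q4 - p4‖ ≤ K * r) ∧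
    (|AA α β q1.1 q1.2 + AA α β q2.1 q2.2 - AA α β q3.1 q3.2 - AA α β q4.1 q4.2| ≤ (K * r) ^ 2 ∧
    |q1.2 + q2.2 - q3.2 - q4.2| ≤ (K * r) ^ 2 ∧
    |hh α β d q1.1 q1.2 + hh α β d q2.1 q2.2 - hh α β d q3.1 q3.2 - hh α β d q4.1 q4.2| ≤
      (K * r) ^ 2) ∧ nn q1.1 q1.2 q3.1 q3.2 ≤ ρ

theorem nn_nonneg (t y t' y' : ℝ) : 0 ≤ nn t y t' y' := by unfold nn; positivity

theorem nn_symm (t y t' y' : ℝ) : nn t y t' y' = nn t' y' t y := by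
  unfold nn
  rw [abs_sub_comm t t', abs_sub_comm y y']

theorem nn_tri (a b c : ℝ × ℝ) : nn a.1 a.2 c.1 c.2 ≤ nn a.1 a.2 b.1 b.2 + nn b.1 b.2 c.1 c.2 := by
  unfold nn
  linarith [abs_sub_le a.1 b.1 c.1, abs_sub_le a.2 b.2 c.2]

theorem near_coord {q p : ℝ × ℝ} {D : ℝ} (h : ‖q - p‖ ≤ D) : |q.1 - p.1| ≤ D ∧ |q.2 - p.2| ≤ D := by
  rw [Prod.norm_def] at h
  exact ⟨(le_max_left _ _).trans h, (le_max_right _ _).trans h⟩

theorem near_two {q q' p : ℝ × ℝ} {D : ℝ} (h : ‖q - p‖ ≤ D) (h' : ‖q' - p‖ ≤ D) :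
    nn q.1 q.2 q'.1 q'.2 ≤ 4 * D := by
  obtain ⟨a1, a2⟩ := near_coord h
  obtain ⟨b1, b2⟩ := near_coord h'
  unfold nn
  have h1 := abs_sub_le q.1 p.1 q'.1
  have h2 := abs_sub_le q.2 p.2 q'.2
  rw [abs_sub_comm p.1 q'.1] at h1
  rw [abs_sub_comm p.2 q'.2] at h2
  linarith

theorem yy_bd {α β d : ℝ} {q : ℝ × ℝ} (h : Rg α β d q.1 q.2) : |q.2| ≤ 3 := h.1

/-- The Thales circle of the first two points. -/
theorem rl_bb {α β d : ℝ} (hα : α ≠ 0) (hd0 : 0 ≤ d) (hd1 : d ≤ 1) {CL : ℝ} (hCL : 1 ≤ CL)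
    (hl : ∀ t y t' y', Rg α β d t y → Rg α β d t' y' →
      |AA α β t y - AA α β t' y'| ≤ CL * nn t y t' y' ∧
      |hh α β d t y - hh α β d t' y'| ≤ CL * nn t y t' y')
    {x : ℝ} (hx : 0 ≤ x) {q1 q2 q3 q4 r1 r2 : ℝ × ℝ} (g1 : Rg α β d q1.1 q1.2)
    (g2 : Rg α β d q2.1 q2.2) (g3 : Rg α β d q3.1 q3.2) (g4 : Rg α β d q4.1 q4.2)
    (k1 : Rg α β d r1.1 r1.2) (k2 : Rg α β d r2.1 r2.2)
    (eA : |AA α β q1.1 q1.2 + AA α β q2.1 q2.2 - AA α β q3.1 q3.2 - AA α β q4.1 q4.2| ≤ x ^ 2)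
    (eY : |q1.2 + q2.2 - q3.2 - q4.2| ≤ x ^ 2)
    (eH : |hh α β d q1.1 q1.2 + hh α β d q2.1 q2.2 - hh α β d q3.1 q3.2 -
      hh α β d q4.1 q4.2| ≤ x ^ 2)
    (n1 : nn q1.1 q1.2 r1.1 r1.2 ≤ 4 * x) (n2 : nn q2.1 q2.2 r2.1 r2.2 ≤ 4 * x) :
    |BB α β d q3.1 q3.2 r1.1 r1.2 r2.1 r2.2| ≤
      300 * CL ^ 2 * (x * (nn q3.1 q3.2 r1.1 r1.2 + nn q3.1 q3.2 r2.1 r2.2) + x ^ 2) := by
  have ab : ∀ q : ℝ × ℝ, Rg α β d q.1 q.2 → |AA α β q.1 q.2| ≤ 3 := fun q h => by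
    obtain ⟨a1, a2, _⟩ := AA_pos h
    rw [abs_le]; constructor <;> linarith
  have hb : ∀ q : ℝ × ℝ, Rg α β d q.1 q.2 → |hh α β d q.1 q.2| ≤ 18 := fun q h => by
    obtain ⟨a1, a2, _⟩ := hh_bd hα h
    rw [abs_le]; constructor <;> linarith
  have t1 := (thales hd0 hd1 (ab q1 g1) (ab q2 g2) (ab q3 g3) (ab q4 g4) g1.1 g2.1 g3.1 g4.1
    (hb q1 g1) (hb q2 g2) (hb q3 g3) (hb q4 g4) (quadr hα g1) (quadr hα g2) (quadr hα g3)
    (quadr hα g4) eA eY eH).1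
  have yl : ∀ a b : ℝ × ℝ, |a.2 - b.2| ≤ CL * nn a.1 a.2 b.1 b.2 := fun a b => by
    have h1 : |a.2 - b.2| ≤ nn a.1 a.2 b.1 b.2 := by
      unfold nn
      linarith [abs_nonneg (a.1 - b.1)]
    have h2 := nn_nonneg a.1 a.2 b.1 b.2
    nlinarith
  have t2 := pert hd0 hd1 hCL (nn_nonneg _ _ _ _) (nn_nonneg _ _ _ _) (nn_nonneg _ _ _ _)
    (nn_nonneg _ _ _ _) (hl _ _ _ _ g3 g1).1 (hl _ _ _ _ g3 g2).1 (hl _ _ _ _ g1 k1).1
    (hl _ _ _ _ g2 k2).1 (yl q3 q1) (yl q3 q2) (yl q1 r1) (yl q2 r2) (hl _ _ _ _ g3 g1).2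
    (hl _ _ _ _ g3 g2).2 (hl _ _ _ _ g1 k1).2 (hl _ _ _ _ g2 k2).2
  have t3 := nn_tri q3 r1 q1
  have t4 := nn_tri q3 r2 q2
  rw [nn_symm r1.1 r1.2 q1.1 q1.2] at t3
  rw [nn_symm r2.1 r2.2 q2.1 q2.2] at t4
  have p31 := nn_nonneg q3.1 q3.2 q1.1 q1.2
  have p32 := nn_nonneg q3.1 q3.2 q2.1 q2.2
  have p1 := nn_nonneg q1.1 q1.2 r1.1 r1.2
  have p2 := nn_nonneg q2.1 q2.2 r2.1 r2.2
  have s1 := nn_nonneg q3.1 q3.2 r1.1 r1.2
  have s2 := nn_nonneg q3.1 q3.2 r2.1 r2.2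
  refine t2.trans ?_
  obtain ⟨a, ha⟩ : ∃ a, a = nn q3.1 q3.2 r1.1 r1.2 := ⟨_, rfl⟩
  obtain ⟨b, hb'⟩ : ∃ b, b = nn q3.1 q3.2 r2.1 r2.2 := ⟨_, rfl⟩
  rw [← ha, ← hb']
  rw [← ha] at t3 s1
  rw [← hb'] at t4 s2
  have m1 : nn q3.1 q3.2 q1.1 q1.2 * nn q2.1 q2.2 r2.1 r2.2 ≤ (a + 4 * x) * (4 * x) :=
    mul_le_mul (by linarith) n2 p2 (by linarith)
  have m2 : nn q1.1 q1.2 r1.1 r1.2 * nn q3.1 q3.2 q2.1 q2.2 ≤ (4 * x) * (b + 4 * x) :=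
    mul_le_mul n1 (by linarith) p32 (by linarith)
  have m3 : nn q1.1 q1.2 r1.1 r1.2 * nn q2.1 q2.2 r2.1 r2.2 ≤ (4 * x) * (4 * x) :=
    mul_le_mul n1 n2 p2 (by linarith)
  have m4 : nn q3.1 q3.2 q1.1 q1.2 * nn q2.1 q2.2 r2.1 r2.2 +
      nn q1.1 q1.2 r1.1 r1.2 * nn q3.1 q3.2 q2.1 q2.2 +
      nn q1.1 q1.2 r1.1 r1.2 * nn q2.1 q2.2 r2.1 r2.2 ≤ 4 * (x * (a + b)) + 48 * x ^ 2 := by
    nlinarith
  have hC2 : 1 ≤ CL ^ 2 := by nlinarith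
  have m5 := mul_le_mul_of_nonneg_left m4 (by positivity : (0 : ℝ) ≤ 3 * CL ^ 2)
  have hxa : 0 ≤ x * (a + b) := by positivity
  have hx2 : 0 ≤ x ^ 2 := sq_nonneg x
  have m6 : 73 * x ^ 2 ≤ 73 * CL ^ 2 * x ^ 2 := by nlinarith
  have m7 : 0 ≤ CL ^ 2 * (x * (a + b)) := by positivity
  have m8 : 0 ≤ CL ^ 2 * x ^ 2 := by positivity
  linarith

/-- The fourth point is determined by the other three. -/
theorem rl_four {α β d : ℝ} {CL : ℝ} (hCL : 1 ≤ CL)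
    (hl : ∀ t y t' y', Rg α β d t y → Rg α β d t' y' →
      |AA α β t y - AA α β t' y'| ≤ CL * nn t y t' y' ∧
      |t - t'| ≤ CL * (|AA α β t y - AA α β t' y'| + |y - y'|))
    {x : ℝ} (hx : 0 ≤ x) {q1 q2 q3 q4 r1 r2 r3 r4 p1 p2 p3 p4 p4' : ℝ × ℝ}
    (g1 : Rg α β d q1.1 q1.2) (g2 : Rg α β d q2.1 q2.2) (g3 : Rg α β d q3.1 q3.2)
    (g4 : Rg α β d q4.1 q4.2) (k1 : Rg α β d r1.1 r1.2) (k2 : Rg α β d r2.1 r2.2)
    (k3 : Rg α β d r3.1 r3.2) (k4 : Rg α β d r4.1 r4.2)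
    (eA : |AA α β q1.1 q1.2 + AA α β q2.1 q2.2 - AA α β q3.1 q3.2 - AA α β q4.1 q4.2| ≤ x ^ 2)
    (eY : |q1.2 + q2.2 - q3.2 - q4.2| ≤ x ^ 2)
    (fA : |AA α β r1.1 r1.2 + AA α β r2.1 r2.2 - AA α β r3.1 r3.2 - AA α β r4.1 r4.2| ≤ x ^ 2)
    (fY : |r1.2 + r2.2 - r3.2 - r4.2| ≤ x ^ 2)
    (a1 : ‖q1 - p1‖ ≤ x) (a2 : ‖q2 - p2‖ ≤ x) (a3 : ‖q3 - p3‖ ≤ x) (a4 : ‖q4 - p4‖ ≤ x)
    (b1 : ‖r1 - p1‖ ≤ x) (b2 : ‖r2 - p2‖ ≤ x) (b3 : ‖r3 - p3‖ ≤ x) (b4 : ‖r4 - p4'‖ ≤ x) :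
    |p4.1 - p4'.1| ≤ 68 * CL ^ 2 * x ∧ |p4.2 - p4'.2| ≤ 32 * x := by
  have small : ∀ u : ℝ, |u| ≤ x ^ 2 → |u| ≤ 12 → |u| ≤ 12 * x := fun u h1 h2 => by
    rcases le_or_gt x 1 with h | h
    · nlinarith
    · linarith
  have ab : ∀ q : ℝ × ℝ, Rg α β d q.1 q.2 → |AA α β q.1 q.2| ≤ 3 := fun q h => by
    obtain ⟨a1, a2, _⟩ := AA_pos h
    rw [abs_le]; constructor <;> linarith
  have four : ∀ a b c e : ℝ, |a| ≤ 3 → |b| ≤ 3 → |c| ≤ 3 → |e| ≤ 3 → |a + b - c - e| ≤ 12 := by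
    intro a b c e ha hb hc he
    rw [abs_le] at ha hb hc he ⊢
    constructor <;> linarith [ha.1, ha.2, hb.1, hb.2, hc.1, hc.2, he.1, he.2]
  have eA' := small _ eA (four _ _ _ _ (ab q1 g1) (ab q2 g2) (ab q3 g3) (ab q4 g4))
  have fA' := small _ fA (four _ _ _ _ (ab r1 k1) (ab r2 k2) (ab r3 k3) (ab r4 k4))
  have eY' := small _ eY (four _ _ _ _ g1.1 g2.1 g3.1 g4.1)
  have fY' := small _ fY (four _ _ _ _ k1.1 k2.1 k3.1 k4.1)
  have n1 := near_two a1 b1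
  have n2 := near_two a2 b2
  have n3 := near_two a3 b3
  have l1 := (hl _ _ _ _ g1 k1).1.trans (mul_le_mul_of_nonneg_left n1 (by linarith))
  have l2 := (hl _ _ _ _ g2 k2).1.trans (mul_le_mul_of_nonneg_left n2 (by linarith))
  have l3 := (hl _ _ _ _ g3 k3).1.trans (mul_le_mul_of_nonneg_left n3 (by linarith))
  obtain ⟨c11, c12⟩ := near_coord a1
  obtain ⟨c21, c22⟩ := near_coord a2
  obtain ⟨c31, c32⟩ := near_coord a3
  obtain ⟨c41, c42⟩ := near_coord a4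
  obtain ⟨d11, d12⟩ := near_coord b1
  obtain ⟨d21, d22⟩ := near_coord b2
  obtain ⟨d31, d32⟩ := near_coord b3
  obtain ⟨d41, d42⟩ := near_coord b4
  have hA4 : |AA α β q4.1 q4.2 - AA α β r4.1 r4.2| ≤ 36 * CL * x := by
    have hxc : x ≤ CL * x := by nlinarith
    rw [abs_le] at l1 l2 l3 eA' fA' ⊢
    constructor <;> linarith [l1.1, l1.2, l2.1, l2.2, l3.1, l3.2, eA'.1, eA'.2, fA'.1, fA'.2]
  have hY4 : |q4.2 - r4.2| ≤ 30 * x := by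
    rw [abs_le] at c12 c22 c32 d12 d22 d32 eY' fY' ⊢
    constructor <;> linarith [c12.1, c12.2, c22.1, c22.2, c32.1, c32.2, d12.1, d12.2, d22.1,
      d22.2, d32.1, d32.2, eY'.1, eY'.2, fY'.1, fY'.2]
  have hT4 : |q4.1 - r4.1| ≤ 66 * CL ^ 2 * x := by
    refine (hl _ _ _ _ g4 k4).2.trans ?_
    have h1 : CL * (|AA α β q4.1 q4.2 - AA α β r4.1 r4.2| + |q4.2 - r4.2|) ≤
        CL * (36 * CL * x + 30 * x) := mul_le_mul_of_nonneg_left (by linarith) (by linarith)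
    have h2 : CL * x ≤ CL ^ 2 * x := by nlinarith [mul_nonneg (by linarith : (0 : ℝ) ≤ CL) hx]
    nlinarith
  constructor
  · have hxc : x ≤ CL ^ 2 * x := by
      have : 1 ≤ CL ^ 2 := by nlinarith
      nlinarith
    rw [abs_le] at c41 d41 hT4 ⊢
    constructor <;> linarith [c41.1, c41.2, d41.1, d41.2, hT4.1, hT4.2]
  · rw [abs_le] at c42 d42 hY4 ⊢
    constructor <;> linarith [c42.1, c42.2, d42.1, d42.2, hY4.1, hY4.2]

/-- The final constants. -/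
theorem final_num {Ca CL M' K y x : ℝ} (hCa : 0 < Ca) (hCL : 1 ≤ CL) (hM : 1 ≤ M') (hK : 1 ≤ K)
    (hy : 0 < y) (hy2 : y ≤ 2) (hx : x = K) :
    2 * (Ca * (300 * CL ^ 2 * K ^ 2) ^ 3 * (1 + (M' * K / y + 4 * K)) *
      ((1 + 2 * (K + 1)) * (1 + 2 * (K + 1))) *
        ((1 + 2 * (68 * CL ^ 2 * x)) * (1 + 2 * (32 * x)))) ≤
      2 * Ca * (300 * CL ^ 2) ^ 3 * (M' + 11) * 25 * (137 * CL ^ 2) * 65 * K ^ 12 / y := by
  subst hx
  have hC2 : 1 ≤ CL ^ 2 := by nlinarith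
  have hy1 : 1 / 2 ≤ 1 / y := one_div_le_one_div_of_le hy hy2
  have h1 : 1 + (M' * x / y + 4 * x) ≤ (M' + 11) * x / y := by
    have e1 : M' * x / y = M' * x * (1 / y) := by ring
    have e2 : (M' + 11) * x / y = M' * x * (1 / y) + 11 * x * (1 / y) := by ring
    rw [e1, e2]
    have h2 : 11 * x * (1 / 2) ≤ 11 * x * (1 / y) := by
      refine mul_le_mul_of_nonneg_left hy1 (by positivity)
    linarith
  have h2 : (1 + 2 * (x + 1)) * (1 + 2 * (x + 1)) ≤ 25 * x ^ 2 := by nlinarith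
  have h3 : (1 + 2 * (68 * CL ^ 2 * x)) * (1 + 2 * (32 * x)) ≤ 137 * CL ^ 2 * 65 * x ^ 2 := by
    have a1 : 1 + 2 * (68 * CL ^ 2 * x) ≤ 137 * CL ^ 2 * x := by nlinarith
    have a2 : 1 + 2 * (32 * x) ≤ 65 * x := by linarith
    have := mul_le_mul a1 a2 (by positivity) (by positivity)
    nlinarith
  have h4 : x ^ 11 ≤ x ^ 12 := pow_le_pow_right₀ hK (by norm_num)
  calc _ ≤ 2 * (Ca * (300 * CL ^ 2 * x ^ 2) ^ 3 * ((M' + 11) * x / y) * (25 * x ^ 2) *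
        (137 * CL ^ 2 * 65 * x ^ 2)) := by
        gcongr
    _ = 2 * Ca * (300 * CL ^ 2) ^ 3 * (M' + 11) * 25 * (137 * CL ^ 2) * 65 * x ^ 11 / y := by ring
    _ ≤ _ := by
        gcongr

end CN

/-- ROW CNT over the texts of RE and CNTa. -/
theorem row_CNT_of {α β : ℝ} (hα : α ≠ 0)
    (hRE : ∃ c M c1 : ℝ, 0 < c ∧ 1 ≤ M ∧
      0 < c1 ∧ ∀ c0, 0 < c0 → c0 ≤ c1 → ∀ d, 0 ≤ d → d ≤ 1 → ∀ t0 y0, Rs α β d t0 y0 → y0 ≠ 0 →
        ∀ t y t' y' t'' y'', Bx c0 t0 y0 t y → Bx c0 t0 y0 t' y' → Bx c0 t0 y0 t'' y'' →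
        ∀ w1 w2 w3 ε, 0 ≤ ε → 1 / 16 ≤ w1 ^ 2 + w2 ^ 2 + w3 ^ 2 → w1 ^ 2 + w2 ^ 2 + w3 ^ 2 ≤ 64 →
          |Uw α β d w1 w2 w3 t y| ≤ ε → |Uw α β d w1 w2 w3 t' y'| ≤ ε →
          |Uw α β d w1 w2 w3 t'' y''| ≤ ε → M * ε ≤ |y0| * nn t y t' y' →
          M * ε ≤ |y0| * nn t y t'' y'' →
          c * (nn t y t' y' * nn t y t'' y'') ≤ |BB α β d t y t' y' t'' y''|)
    (hCa : ∃ C c1 : ℝ, 0 < C ∧
      0 < c1 ∧ ∀ c0, 0 < c0 → c0 ≤ c1 → ∀ d, 0 ≤ d → d ≤ 1 → ∀ t0 y0, Rs α β d t0 y0 →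
        y0 ≠ 0 → ∀ r L ρ, 0 < r → r ≤ 1 → 1 ≤ L → 0 ≤ ρ → ∀ q1 q2 : ℝ × ℝ,
        Bx c0 t0 y0 q1.1 q1.2 → Bx c0 t0 y0 q2.1 q2.2 →
        ((fun q : ℝ × ℝ => (⌊q.1 / r⌋, ⌊q.2 / r⌋)) '' {q : ℝ × ℝ | Bx c0 t0 y0 q.1 q.2 ∧
          nn q.1 q.2 q1.1 q1.2 ≤ ρ ∧ |BB α β d q.1 q.2 q1.1 q1.2 q2.1 q2.2| ≤
            L * (r * (nn q.1 q.2 q1.1 q1.2 + nn q.1 q.2 q2.1 q2.2) + r ^ 2)}).Finite ∧
        (((fun q : ℝ × ℝ => (⌊q.1 / r⌋, ⌊q.2 / r⌋)) '' {q : ℝ × ℝ | Bx c0 t0 y0 q.1 q.2 ∧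
          nn q.1 q.2 q1.1 q1.2 ≤ ρ ∧ |BB α β d q.1 q.2 q1.1 q1.2 q2.1 q2.2| ≤
            L * (r * (nn q.1 q.2 q1.1 q1.2 + nn q.1 q.2 q2.1 q2.2) + r ^ 2)}).ncard : ℝ) ≤
          C * L ^ 3 * (1 + ρ / r)) : ∃ C c1 : ℝ, 0 < C ∧
    0 < c1 ∧ ∀ c0, 0 < c0 → c0 ≤ c1 → ∀ d, 0 ≤ d → d ≤ 1 → ∀ t0 y0, Rs α β d t0 y0 →
      y0 ≠ 0 → ∀ r K, 0 < r → r ≤ 1 → 1 ≤ K → r ≤ |y0| →
      ∀ (I J : Type) [Fintype I] [Fintype J] (tt : I → ℝ) (yy : J → ℝ),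
      (∀ i j, i ≠ j → r ≤ |tt i - tt j|) → (∀ i j, i ≠ j → r ≤ |yy i - yy j|) →
      (∀ a b : I × J, (({q : (I × J) × (I × J) | Rel α β d c0 t0 y0 r K (tt a.1, yy a.2)
        (tt b.1, yy b.2) (tt q.1.1, yy q.1.2) (tt q.2.1, yy q.2.2)}.ncard : ℕ) : ℝ) ≤
          C * K ^ 12 / |y0|) := by
  obtain ⟨CL, hCL, hlip⟩ := CN.lip (β := β) hα
  obtain ⟨cb, hcb, -, hbox⟩ := CN.box (β := β) hα
  obtain ⟨c, M, cr, hc, hM, hcr, hRE⟩ := hRE
  obtain ⟨Ca, ca, hCa0, hca, hCa⟩ := hCa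
  obtain ⟨M', hM1, hMM, hMc⟩ : ∃ M' : ℝ, 1 ≤ M' ∧ M ≤ M' ∧ 484 ≤ c * M' ^ 2 := by
    refine ⟨max M (484 / c + 1), hM.trans (le_max_left _ _), le_max_left _ _, ?_⟩
    have h1 : 484 / c + 1 ≤ max M (484 / c + 1) := le_max_right _ _
    have h2 : 1 ≤ max M (484 / c + 1) := hM.trans (le_max_left _ _)
    have h3 : 484 ≤ c * max M (484 / c + 1) := by
      have : 484 / c ≤ max M (484 / c + 1) := by linarith
      rwa [div_le_iff₀ hc, mul_comm] at this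
    nlinarith [mul_pos hc (by linarith : (0 : ℝ) < max M (484 / c + 1))]
  refine ⟨2 * Ca * (300 * CL ^ 2) ^ 3 * (M' + 11) * 25 * (137 * CL ^ 2) * 65,
    min cb (min cr ca), by positivity, lt_min hcb (lt_min hcr hca), ?_⟩
  intro c0 hc00 hc01 d hd0 hd1 t0 y0 hRs hy0 r K hr hr1 hK hry I J _ _ tt yy htt hyy a b
  have hcb' : c0 ≤ cb := hc01.trans (min_le_left _ _)
  have hcr' : c0 ≤ cr := hc01.trans ((min_le_right _ _).trans (min_le_left _ _))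
  have hca' : c0 ≤ ca := hc01.trans ((min_le_right _ _).trans (min_le_right _ _))
  have hbx : ∀ q : ℝ × ℝ, Bx c0 t0 y0 q.1 q.2 → Rg α β d q.1 q.2 := fun q hq =>
    hbox c0 hcb' d hd0 hd1 t0 y0 q.1 q.2 hRs hq
  have hya : 0 < |y0| := abs_pos.2 hy0
  have hy2 : |y0| ≤ 2 := hRs.1
  set x : ℝ := K * r with hx
  have hx0 : 0 < x := by positivity
  set ρ0 : ℝ := M' * x / |y0| with hρ0
  -- the two cases
  have hcase : ∀ p1 p2 p3 p4 : ℝ × ℝ, Rel α β d c0 t0 y0 r K p1 p2 p3 p4 →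
      CN.Rl α β d c0 t0 y0 r K ρ0 p1 p2 p3 p4 ∨ CN.Rl α β d c0 t0 y0 r K ρ0 p1 p2 p4 p3 := by
    rintro p1 p2 p3 p4 ⟨q1, q2, q3, q4, w1, w2, w3, ⟨x1, x2, x3, x4⟩, ⟨n1, n2, n3, n4⟩,
      ⟨v1, v2⟩, ⟨u1, u2, u3, u4⟩, eA, eY, eH⟩
    by_cases h3 : nn q1.1 q1.2 q3.1 q3.2 ≤ ρ0
    · exact Or.inl ⟨q1, q2, q3, q4, ⟨x1, x2, x3, x4⟩, ⟨n1, n2, n3, n4⟩, ⟨eA, eY, eH⟩, h3⟩
    by_cases h4 : nn q1.1 q1.2 q4.1 q4.2 ≤ ρ0
    · refine Or.inr ⟨q1, q2, q4, q3, ⟨x1, x2, x4, x3⟩, ⟨n1, n2, n4, n3⟩, ⟨?_, ?_, ?_⟩, h4⟩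
      · rwa [sub_right_comm]
      · rwa [sub_right_comm]
      · rwa [sub_right_comm]
    exfalso
    push Not at h3 h4
    have hM3 : M' * x < |y0| * nn q1.1 q1.2 q3.1 q3.2 := by
      rw [hρ0, div_lt_iff₀ hya] at h3
      linarith
    have hM4 : M' * x < |y0| * nn q1.1 q1.2 q4.1 q4.2 := by
      rw [hρ0, div_lt_iff₀ hya] at h4
      linarith
    have hMx : M * x ≤ M' * x := mul_le_mul_of_nonneg_right hMM hx0.le
    have h5 := hRE c0 hc00 hcr' d hd0 hd1 t0 y0 hRs hy0 q1.1 q1.2 q3.1 q3.2 q4.1 q4.2 x1 x3 x4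
      w1 w2 w3 x hx0.le v1 v2 u1 u3 u4 (hMx.trans hM3.le) (hMx.trans hM4.le)
    have ab : ∀ q : ℝ × ℝ, Rg α β d q.1 q.2 → |AA α β q.1 q.2| ≤ 3 := fun q h => by
      obtain ⟨a1, a2, _⟩ := CN.AA_pos h
      rw [abs_le]; constructor <;> linarith
    have hb : ∀ q : ℝ × ℝ, Rg α β d q.1 q.2 → |hh α β d q.1 q.2| ≤ 18 := fun q h => by
      obtain ⟨a1, a2, _⟩ := CN.hh_bd hα h
      rw [abs_le]; constructor <;> linarith
    have g1 := hbx q1 x1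
    have g2 := hbx q2 x2
    have g3 := hbx q3 x3
    have g4 := hbx q4 x4
    have h6 := (CN.thales hd0 hd1 (ab q1 g1) (ab q2 g2) (ab q3 g3) (ab q4 g4) g1.1 g2.1 g3.1 g4.1
      (hb q1 g1) (hb q2 g2) (hb q3 g3) (hb q4 g4) (CN.quadr hα g1) (CN.quadr hα g2)
      (CN.quadr hα g3) (CN.quadr hα g4) eA eY eH).2
    have h7 : c * (nn q1.1 q1.2 q3.1 q3.2 * nn q1.1 q1.2 q4.1 q4.2) ≤ 121 * x ^ 2 :=
      h5.trans h6
    have h8 : M' * x < 2 * nn q1.1 q1.2 q3.1 q3.2 :=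
      hM3.trans_le (mul_le_mul_of_nonneg_right hy2 (CN.nn_nonneg _ _ _ _))
    have h9 : M' * x < 2 * nn q1.1 q1.2 q4.1 q4.2 :=
      hM4.trans_le (mul_le_mul_of_nonneg_right hy2 (CN.nn_nonneg _ _ _ _))
    have hMx0 : 0 < M' * x := by positivity
    have h10 : (M' * x) * (M' * x) < (2 * nn q1.1 q1.2 q3.1 q3.2) * (2 * nn q1.1 q1.2 q4.1 q4.2) :=
      mul_lt_mul'' h8 h9 hMx0.le hMx0.le
    have h11 : c * ((M' * x) * (M' * x)) < c * ((2 * nn q1.1 q1.2 q3.1 q3.2) *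
      (2 * nn q1.1 q1.2 q4.1 q4.2)) := mul_lt_mul_of_pos_left h10 hc
    have h12 : 484 * x ^ 2 ≤ c * M' ^ 2 * x ^ 2 := mul_le_mul_of_nonneg_right hMc (sq_nonneg x)
    nlinarith
  -- the number of pairs with a short first chord
  set P : I × J → ℝ × ℝ := fun c => (tt c.1, yy c.2) with hP
  set ρ : ℝ := ρ0 + 4 * x with hρ
  have hρ00 : 0 ≤ ρ0 := by positivity
  set L : ℝ := 300 * CL ^ 2 * K ^ 2 with hL
  have hC2 : 1 ≤ CL ^ 2 := by nlinarith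
  have hK2 : 1 ≤ K ^ 2 := by nlinarith
  have hL1 : 1 ≤ L := by
    have : 1 ≤ CL ^ 2 * K ^ 2 := by nlinarith
    rw [hL]
    linarith
  set N0 : ℝ := Ca * L ^ 3 * (1 + ρ / r) with hN0
  have hN00 : 0 ≤ N0 := by positivity
  set N : ℝ := (1 + 2 * (K + 1)) * (1 + 2 * (K + 1)) with hN
  have hNn : 0 ≤ N := by positivity
  set N2 : ℝ := (1 + 2 * (68 * CL ^ 2 * K)) * (1 + 2 * (32 * K)) with hN2
  have hN2n : 0 ≤ N2 := by positivity
  have hT3 : ({c : I × J | ∃ e : I × J,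
      CN.Rl α β d c0 t0 y0 r K ρ0 (P a) (P b) (P c) (P e)}.ncard : ℝ) ≤ N0 * N := by
    by_cases hne : ∃ c e : I × J, CN.Rl α β d c0 t0 y0 r K ρ0 (P a) (P b) (P c) (P e)
    · obtain ⟨-, -, r1, r2, -, -, ⟨k1, k2, -, -⟩, ⟨m1, m2, -, -⟩, -, -⟩ := hne
      obtain ⟨hfin, hcard⟩ := hCa c0 hc00 hca' d hd0 hd1 t0 y0 hRs hy0 r L ρ hr hr1 hL1
        (by positivity) r1 r2 k1 k2
      refine CN.cover _ _ hfin (fun z => {c : I × J | |tt c.1 - r * z.1| ≤ (K + 1) * r ∧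
        |yy c.2 - r * z.2| ≤ (K + 1) * r}) ?_ hcard (fun z _ => ?_) hNn
      · rintro c ⟨e, q1, q2, q3, q4, ⟨x1, x2, x3, x4⟩, ⟨n1, n2, n3, n4⟩, ⟨eA, eY, eH⟩, h3⟩
        simp only [mem_iUnion, exists_prop]
        refine ⟨_, ⟨q3, ⟨x3, ?_, ?_⟩, rfl⟩, ?_⟩
        · have h4 := CN.nn_tri q3 q1 r1
          rw [CN.nn_symm q3.1 q3.2 q1.1 q1.2] at h4
          have h5 := CN.near_two n1 m1
          rw [hρ]
          linarith
        · have h6 := CN.rl_bb hα hd0 hd1 hCL (fun t y t' y' h h' =>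
            ⟨(hlip d hd0 hd1 t y t' y' h h').1, (hlip d hd0 hd1 t y t' y' h h').2.1⟩) hx0.le
            (hbx q1 x1) (hbx q2 x2) (hbx q3 x3) (hbx q4 x4) (hbx r1 k1) (hbx r2 k2) eA eY eH
            (CN.near_two n1 m1) (CN.near_two n2 m2)
          refine h6.trans ?_
          have hs := add_nonneg (CN.nn_nonneg q3.1 q3.2 r1.1 r1.2)
            (CN.nn_nonneg q3.1 q3.2 r2.1 r2.2)
          obtain ⟨s, hs'⟩ : ∃ s, s = nn q3.1 q3.2 r1.1 r1.2 + nn q3.1 q3.2 r2.1 r2.2 := ⟨_, rfl⟩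
          rw [← hs'] at hs ⊢
          have e1 : x * s + x ^ 2 ≤ K ^ 2 * (r * s + r ^ 2) := by
            have : K * (r * s) ≤ K ^ 2 * (r * s) := by
              refine mul_le_mul_of_nonneg_right ?_ (by positivity)
              nlinarith
            rw [hx]
            nlinarith
          rw [hL]
          calc 300 * CL ^ 2 * (x * s + x ^ 2) ≤ 300 * CL ^ 2 * (K ^ 2 * (r * s + r ^ 2)) :=
                mul_le_mul_of_nonneg_left e1 (by positivity)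
            _ = _ := by ring
        · obtain ⟨j1, j2⟩ := CN.near_coord n3
          have fl : ∀ u : ℝ, |u - r * (⌊u / r⌋ : ℝ)| ≤ r := fun u => by
            have f1 := Int.floor_le (u / r)
            have f2 := Int.lt_floor_add_one (u / r)
            rw [le_div_iff₀ hr] at f1
            rw [div_lt_iff₀ hr] at f2
            rw [abs_le]
            constructor <;> nlinarith
          have f1 := fl q3.1
          have f2 := fl q3.2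
          simp only [hP] at j1 j2
          constructor
          · rw [abs_le] at j1 f1 ⊢
            constructor <;> linarith [j1.1, j1.2, f1.1, f1.2]
          · rw [abs_le] at j2 f2 ⊢
            constructor <;> linarith [j2.1, j2.2, f2.1, f2.2]
      · exact CN.prod_card tt yy hr htt hyy _ _ (by linarith) (by linarith) le_rfl le_rfl
    · have : {c : I × J | ∃ e : I × J,
          CN.Rl α β d c0 t0 y0 r K ρ0 (P a) (P b) (P c) (P e)} = ∅ := by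
        ext c
        simp only [mem_ofPred_eq, mem_empty_iff_false, iff_false]
        exact fun ⟨e, he⟩ => hne ⟨c, e, he⟩
      rw [this, ncard_empty, Nat.cast_zero]
      positivity
  have hT4 : ∀ c : I × J, ({e : I × J |
      CN.Rl α β d c0 t0 y0 r K ρ0 (P a) (P b) (P c) (P e)}.ncard : ℝ) ≤ N2 := by
    intro c
    by_cases hne : ∃ e : I × J, CN.Rl α β d c0 t0 y0 r K ρ0 (P a) (P b) (P c) (P e)
    · obtain ⟨e0, r1, r2, r3, r4, ⟨k1, k2, k3, k4⟩, ⟨m1, m2, m3, m4⟩, ⟨fA, fY, -⟩, -⟩ := hne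
      refine le_trans ?_ (CN.prod_card tt yy hr htt hyy (tt e0.1) (yy e0.2)
        (D1 := 68 * CL ^ 2 * x) (D2 := 32 * x) (K1 := 68 * CL ^ 2 * K) (K2 := 32 * K)
        (by positivity) (by positivity) (by rw [hx]; linarith) (by rw [hx]; linarith))
      refine Nat.cast_le.2 (ncard_le_ncard ?_ (toFinite _))
      rintro e ⟨q1, q2, q3, q4, ⟨x1, x2, x3, x4⟩, ⟨n1, n2, n3, n4⟩, ⟨eA, eY, -⟩, -⟩
      exact CN.rl_four hCL (fun t y t' y' h h' =>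
        ⟨(hlip d hd0 hd1 t y t' y' h h').1, (hlip d hd0 hd1 t y t' y' h h').2.2⟩) hx0.le
        (hbx q1 x1) (hbx q2 x2) (hbx q3 x3) (hbx q4 x4) (hbx r1 k1) (hbx r2 k2) (hbx r3 k3)
        (hbx r4 k4) eA eY fA fY n1 n2 n3 n4 m1 m2 m3 m4
    · have : {e : I × J | CN.Rl α β d c0 t0 y0 r K ρ0 (P a) (P b) (P c) (P e)} = ∅ := by
        ext e
        simp only [mem_ofPred_eq, mem_empty_iff_false, iff_false]
        exact fun he => hne ⟨e, he⟩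
      rw [this, ncard_empty, Nat.cast_zero]
      positivity
  have hS := CN.fib_card (fun c e : I × J =>
    CN.Rl α β d c0 t0 y0 r K ρ0 (P a) (P b) (P c) (P e)) hT3 hT4 hN2n
  have hsub : {q : (I × J) × (I × J) | Rel α β d c0 t0 y0 r K (P a) (P b) (P q.1) (P q.2)} ⊆
      {q : (I × J) × (I × J) | CN.Rl α β d c0 t0 y0 r K ρ0 (P a) (P b) (P q.1) (P q.2)} ∪
        Prod.swap '' {q : (I × J) × (I × J) |
          CN.Rl α β d c0 t0 y0 r K ρ0 (P a) (P b) (P q.1) (P q.2)} := by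
    rintro q hq
    rcases hcase _ _ _ _ hq with h | h
    · exact Or.inl h
    · exact Or.inr ⟨q.swap, h, Prod.swap_swap q⟩
  have h1 : ({q : (I × J) × (I × J) |
      Rel α β d c0 t0 y0 r K (P a) (P b) (P q.1) (P q.2)}.ncard : ℝ) ≤ 2 * (N0 * N * N2) := by
    have h2 := (ncard_le_ncard hsub (toFinite _)).trans (ncard_union_le _ _)
    have h3 := ncard_image_le (f := Prod.swap) (toFinite {q : (I × J) × (I × J) |
      CN.Rl α β d c0 t0 y0 r K ρ0 (P a) (P b) (P q.1) (P q.2)})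
    have h4 : ({q : (I × J) × (I × J) |
      Rel α β d c0 t0 y0 r K (P a) (P b) (P q.1) (P q.2)}.ncard : ℝ) ≤
        ({q : (I × J) × (I × J) |
          CN.Rl α β d c0 t0 y0 r K ρ0 (P a) (P b) (P q.1) (P q.2)}.ncard : ℝ) +
        ({q : (I × J) × (I × J) |
          CN.Rl α β d c0 t0 y0 r K ρ0 (P a) (P b) (P q.1) (P q.2)}.ncard : ℝ) := by
      exact_mod_cast h2.trans (Nat.add_le_add_left h3 _)
    linarith
  refine h1.trans ?_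
  have hρr : ρ / r = M' * K / |y0| + 4 * K := by
    rw [hρ, hρ0, hx]
    field_simp
  rw [hN0, hρr, hN, hN2, hL]
  exact CN.final_num hCa0 hCL hM1 hK hya hy2 rfl

end Pool.Agent.LQ
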