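import Pool.Agent.LQ.CTA3

/-!
[LEAFQ] row CNTa: cells met by the Thales curve of two points.
-/

set_option autoImplicit false

namespace Pool.Agent.LQ

open Set

/-- Cells: in each column a short set. -/
theorem cz' {Z : Set (ℤ × ℤ)} {a b : ℝ} (ha : 0 ≤ a) (hb : 0 ≤ b) (i0 : ℤ)
    (h1 : ∀ z ∈ Z, |((z.1 - i0 : ℤ) : ℝ)| ≤ a)
    (h2 : ∀ z ∈ Z, ∀ z' ∈ Z, z.1 = z'.1 → |((z.2 - z'.2 : ℤ) : ℝ)| ≤ b) :
    Z.Finite ∧ (Z.ncard : ℝ) ≤ (2 * a + 1) * (2 * b + 1) := by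
  have hinj : Function.Injective (Prod.swap : ℤ × ℤ → ℤ × ℤ) := Prod.swap_injective
  have h := cz (Z := Prod.swap '' Z) ha hb i0
    (by rintro _ ⟨z, hz, rfl⟩; exact h1 z hz)
    (by rintro _ ⟨z, hz, rfl⟩ _ ⟨z', hz', rfl⟩ h3; exact h2 z hz z' hz' h3)
  rw [Set.ncard_image_of_injective _ hinj] at h
  exact ⟨(Set.finite_image_iff hinj.injOn).1 h.1, h.2⟩

/-- The bracket of the secant in `y` is positive. -/
theorem cta_br {α β : ℝ} (hα : α ≠ 0) : ∃ c1 : ℝ, 0 < c1 ∧ ∀ c0, 0 < c0 → c0 ≤ c1 →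
    ∀ d, 0 ≤ d → d ≤ 1 → ∀ t y t' y' t1 y1 t2 y2, Rg α β d t y → Rg α β d t' y' →
      Rg α β d t1 y1 → Rg α β d t2 y2 → nn t y t1 y1 ≤ 6 * c0 → nn t' y' t2 y2 ≤ 6 * c0 →
      0 ≤ (β * (AA α β t1 y1 + AA α β t2 y2) / (AA α β t y + AA α β t' y') +
        (α - β) * (HH α β d t1 y1 + HH α β d t2 y2) / (HH α β d t y + HH α β d t' y')) / α := by
  have hα' : 0 < |α| := abs_pos.2 hα
  obtain ⟨C, hC, H⟩ := chord (β := β) hα
  refine ⟨|α| / (48 * C * (|β| + |α - β| + 1)), by positivity, ?_⟩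
  intro c0 hc0 hc d hd0 hd t y t' y' t1 y1 t2 y2 h h' h1 h2 n1 n2
  obtain ⟨p1, p2, -, -, -, -, -⟩ := H d hd0 hd t y t1 y1 h h1
  obtain ⟨q1, q2, -, -, -, -, -⟩ := H d hd0 hd t' y' t2 y2 h' h2
  obtain ⟨a1, -, a3, -, -, -, -⟩ := rg_bd hα h
  obtain ⟨b1, -, b3, -, -, -, -⟩ := rg_bd hα h'
  generalize AA α β t y = A at *
  generalize AA α β t' y' = A' at *
  generalize AA α β t1 y1 = A1 at *
  generalize AA α β t2 y2 = A2 at *
  generalize HH α β d t y = K at *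
  generalize HH α β d t' y' = K' at *
  generalize HH α β d t1 y1 = K1 at *
  generalize HH α β d t2 y2 = K2 at *
  have hA : 0 < A + A' := by linarith
  have hK : 0 < K + K' := by linarith
  have e : (β * (A1 + A2) / (A + A') + (α - β) * (K1 + K2) / (K + K')) / α =
      1 + (β * ((A1 + A2 - (A + A')) / (A + A')) +
        (α - β) * ((K1 + K2 - (K + K')) / (K + K'))) / α := by
    field_simp
    ring
  rw [e]
  have m1 : C * nn t y t1 y1 ≤ C * (6 * c0) := by gcongr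
  have m2 : C * nn t' y' t2 y2 ≤ C * (6 * c0) := by gcongr
  have bd : ∀ u v S : ℝ, 1 / 4 ≤ S → |u| ≤ C * (6 * c0) → |v| ≤ C * (6 * c0) →
      |(-u - v) / S| ≤ 48 * C * c0 := by
    intro u v S hS hu hv
    have hS0 : 0 < S := by linarith
    rw [abs_div, abs_of_pos hS0, div_le_iff₀ hS0]
    have h5 : |(-u - v)| ≤ 12 * C * c0 := by
      refine (abs_sub _ _).trans ?_
      rw [abs_neg]
      linarith
    have h6 : 12 * C * c0 ≤ 48 * C * c0 * S := by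
      have : 0 ≤ 48 * C * c0 := by positivity
      nlinarith
    linarith
  have s1 : |(A1 + A2 - (A + A')) / (A + A')| ≤ 48 * C * c0 := by
    have := bd (A - A1) (A' - A2) (A + A') (by linarith) (p1.trans m1) (q1.trans m2)
    have e2 : -(A - A1) - (A' - A2) = A1 + A2 - (A + A') := by ring
    rwa [e2] at this
  have s2 : |(K1 + K2 - (K + K')) / (K + K')| ≤ 48 * C * c0 := by
    have := bd (K - K1) (K' - K2) (K + K') (by linarith) (p2.trans m1) (q2.trans m2)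
    have e2 : -(K - K1) - (K' - K2) = K1 + K2 - (K + K') := by ring
    rwa [e2] at this
  have s3 : |(β * ((A1 + A2 - (A + A')) / (A + A')) +
        (α - β) * ((K1 + K2 - (K + K')) / (K + K'))) / α| ≤ 1 := by
    rw [abs_div, div_le_one hα']
    refine (abs_add_le _ _).trans ?_
    rw [abs_mul, abs_mul]
    calc |β| * |(A1 + A2 - (A + A')) / (A + A')| +
          |α - β| * |(K1 + K2 - (K + K')) / (K + K')| ≤
          |β| * (48 * C * c0) + |α - β| * (48 * C * c0) := by gcongr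
      _ ≤ 48 * C * (|β| + |α - β| + 1) * c0 := by
          have : 0 ≤ 48 * C * c0 := by positivity
          linarith
      _ ≤ 48 * C * (|β| + |α - β| + 1) * (|α| / (48 * C * (|β| + |α - β| + 1))) := by gcongr
      _ = |α| := by field_simp
  have := (abs_le.1 s3).1
  linarith

theorem row_CNTa {α β : ℝ} (hα : α ≠ 0) : ∃ C c1 : ℝ, 0 < C ∧
    0 < c1 ∧ ∀ c0, 0 < c0 → c0 ≤ c1 → ∀ d, 0 ≤ d → d ≤ 1 → ∀ t0 y0, Rs α β d t0 y0 →
      y0 ≠ 0 → ∀ r L ρ, 0 < r → r ≤ 1 → 1 ≤ L → 0 ≤ ρ → ∀ q1 q2 : ℝ × ℝ,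
      Bx c0 t0 y0 q1.1 q1.2 → Bx c0 t0 y0 q2.1 q2.2 →
      ((fun q : ℝ × ℝ => (⌊q.1 / r⌋, ⌊q.2 / r⌋)) '' {q : ℝ × ℝ | Bx c0 t0 y0 q.1 q.2 ∧
        nn q.1 q.2 q1.1 q1.2 ≤ ρ ∧ |BB α β d q.1 q.2 q1.1 q1.2 q2.1 q2.2| ≤
          L * (r * (nn q.1 q.2 q1.1 q1.2 + nn q.1 q.2 q2.1 q2.2) + r ^ 2)}).Finite ∧
      (((fun q : ℝ × ℝ => (⌊q.1 / r⌋, ⌊q.2 / r⌋)) '' {q : ℝ × ℝ | Bx c0 t0 y0 q.1 q.2 ∧
        nn q.1 q.2 q1.1 q1.2 ≤ ρ ∧ |BB α β d q.1 q.2 q1.1 q1.2 q2.1 q2.2| ≤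
          L * (r * (nn q.1 q.2 q1.1 q1.2 + nn q.1 q.2 q2.1 q2.2) + r ^ 2)}).ncard : ℝ) ≤
        C * L ^ 3 * (1 + ρ / r) := by
  obtain ⟨ca, hca, hca8, hbox⟩ := box_sub (β := β) hα
  obtain ⟨γ, G, Cq, hγ, hG, hCq, HQ⟩ := cta_quad (β := β) hα
  obtain ⟨γ', C', hγ', hC', HG⟩ := cta_grad (β := β) hα
  obtain ⟨Cl, hCl, HL⟩ := BB_lip (β := β) hα
  obtain ⟨cb, hcb, HBr⟩ := cta_br (β := β) hα
  obtain ⟨K, Q, N, c4, c1, hK, hQ, hN, hc4, hc1, HN⟩ := cta_num hγ hG hCq hγ' hC'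
  obtain ⟨b0, hb0⟩ : ∃ b0 : ℝ, b0 = (Cl + 2) * (N + 1) * (2 / c4) := ⟨_, rfl⟩
  have hb00 : 0 < b0 := by rw [hb0]; positivity
  refine ⟨(2 * (Q + 1) + 1) * (2 * (2 * Q + 1) + 1) + 4 * (3 * (2 * (b0 + 1) + 1)),
    min ca (min cb c1), by positivity, by positivity, ?_⟩
  intro c0 hc0 hc d hd0 hd t0 y0 hs hy0 r L ρ hr hr1 hL hρ q1 q2 hq1 hq2
  have l1 : c0 ≤ ca := hc.trans (min_le_left _ _)
  have l2 : c0 ≤ cb := hc.trans ((min_le_right _ _).trans (min_le_left _ _))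
  have l3 : c0 ≤ c1 := hc.trans ((min_le_right _ _).trans (min_le_right _ _))
  have hL0 : 0 < L := by linarith
  have rg : ∀ t y, Bx c0 t0 y0 t y → Rg α β d t y := fun t y h =>
    hbox d hd0 hd t0 y0 t y hs (h.mono l1)
  have g1 := rg _ _ hq1
  have g2 := rg _ _ hq2
  have nb : ∀ t y t' y', Bx c0 t0 y0 t y → Bx c0 t0 y0 t' y' → nn t y t' y' ≤ 6 * c0 :=
    fun t y t' y' h h' => (bx_le (l1.trans hca8) hs.1 h h').2.2.2.2.2
  have nn0 : ∀ t y t' y', 0 ≤ nn t y t' y' := fun t y t' y' => by unfold nn; positivity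
  obtain ⟨x, hx⟩ : ∃ x : ℝ, x = L * r := ⟨_, rfl⟩
  have hx0 : 0 < x := by rw [hx]; positivity
  have hrx : r ≤ x := by rw [hx]; exact le_mul_of_one_le_left hr.le hL
  have hxr : x / r = L := by rw [hx]; field_simp
  set S : Set (ℝ × ℝ) := {q : ℝ × ℝ | Bx c0 t0 y0 q.1 q.2 ∧
        nn q.1 q.2 q1.1 q1.2 ≤ ρ ∧ |BB α β d q.1 q.2 q1.1 q1.2 q2.1 q2.2| ≤
          L * (r * (nn q.1 q.2 q1.1 q1.2 + nn q.1 q.2 q2.1 q2.2) + r ^ 2)} with hS
  set cel : ℝ × ℝ → ℤ × ℤ := fun q : ℝ × ℝ => (⌊q.1 / r⌋, ⌊q.2 / r⌋) with hcel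
  obtain ⟨D, hD⟩ : ∃ D : ℝ, D = nn q1.1 q1.2 q2.1 q2.2 := ⟨_, rfl⟩
  have hD0 : 0 ≤ D := by rw [hD]; exact nn0 _ _ _ _
  obtain ⟨Sa, hSa⟩ : ∃ Sa : ℝ, Sa = AA α β q1.1 q1.2 + AA α β q2.1 q2.2 := ⟨_, rfl⟩
  obtain ⟨Sh, hSh⟩ : ∃ Sh : ℝ, Sh = HH α β d q1.1 q1.2 + HH α β d q2.1 q2.2 := ⟨_, rfl⟩
  obtain ⟨a1, -, a3, -, -, -, -⟩ := rg_bd hα g1
  obtain ⟨b1, -, b3, -, -, -, -⟩ := rg_bd hα g2
  have hSa0 : 0 ≤ Sa := by rw [hSa]; linarith
  have hSh0 : 0 ≤ Sh := by rw [hSh]; linarith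
  obtain ⟨Pt, hPt⟩ : ∃ Pt : ℝ × ℝ → ℝ, Pt = fun q => sT α Sa Sh (AA α β q.1 q.2)
    (AA α β q.1 q.2) (HH α β d q.1 q.2) (HH α β d q.1 q.2) := ⟨_, rfl⟩
  obtain ⟨Py, hPy⟩ : ∃ Py : ℝ × ℝ → ℝ, Py = fun q => sY α β Sa Sh (q1.2 + q2.2) q.2 q.2
    (AA α β q.1 q.2) (AA α β q.1 q.2) (HH α β d q.1 q.2) (HH α β d q.1 q.2) := ⟨_, rfl⟩
  -- the numbers at each point
  have num : ∀ q ∈ S, (D ≤ K * x → nn q.1 q.2 q1.1 q1.2 + nn q.1 q.2 q2.1 q2.2 ≤ Q * x) ∧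
      (K * x < D → nn q.1 q.2 q1.1 q1.2 + nn q.1 q.2 q2.1 q2.2 ≤ N * D ∧
        |BB α β d q.1 q.2 q1.1 q1.2 q2.1 q2.2| ≤ (N + 1) * x * D ∧ x ≤ D ∧
          c4 * D ≤ |Pt q| + |Py q|) := by
    intro q hq
    obtain ⟨k1, k2, k3⟩ := hq
    have gq := rg _ _ k1
    obtain ⟨u1, u2, u3⟩ := HQ d hd0 hd q.1 q.2 q1.1 q1.2 q2.1 q2.2 gq g1 g2
    have u4 := HG d hd0 hd q.1 q.2 q1.1 q1.2 q2.1 q2.2 gq g1 g2
    rw [← hSa, ← hSh] at u4
    rw [← hD] at u1 u2 u3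
    refine HN c0 x r _ D _ _ _ _ hc0.le l3 hx0 (by positivity) hD0 (abs_nonneg _) (nn0 _ _ _ _)
      (nn0 _ _ _ _) (nb _ _ _ _ k1 hq1) (nb _ _ _ _ k1 hq2) u3 u1 u2 ?_ ?_
    · rw [hPt, hPy]
      exact u4
    · refine k3.trans ?_
      have h5 : L * r ^ 2 ≤ x ^ 2 := by
        rw [hx, mul_pow]
        have : L ≤ L ^ 2 := by nlinarith
        gcongr
      have h6 : L * (r * (nn q.1 q.2 q1.1 q1.2 + nn q.1 q.2 q2.1 q2.2) + r ^ 2) =
          x * (nn q.1 q.2 q1.1 q1.2 + nn q.1 q.2 q2.1 q2.2) + L * r ^ 2 := by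
        rw [hx]
        ring
      linarith
  have up : ∀ a : ℝ, 0 ≤ a → a * L ^ 2 ≤ a * L ^ 3 * (1 + ρ / r) := by
    intro a ha
    have h5 : L ^ 2 ≤ L ^ 3 := pow_le_pow_right₀ hL (by norm_num)
    have h6 : 1 ≤ 1 + ρ / r := by
      have : 0 ≤ ρ / r := by positivity
      linarith
    calc a * L ^ 2 ≤ a * L ^ 3 := by gcongr
      _ = a * L ^ 3 * 1 := by ring
      _ ≤ _ := by gcongr
  by_cases hcase : D ≤ K * x
  · -- short chord
    have hn : ∀ q ∈ S, nn q.1 q.2 q1.1 q1.2 ≤ Q * x := by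
      intro q hq
      have := (num q hq).1 hcase
      have := nn0 q.1 q.2 q2.1 q2.2
      linarith
    have h := cz (Z := cel '' S) (a := Q * L + 1) (b := 2 * Q * L + 1) (by positivity)
      (by positivity) ⌊q1.2 / r⌋ (by
        rintro _ ⟨q, hq, rfl⟩
        have h5 : |q.2 - q1.2| ≤ Q * x := by
          have := hn q hq
          unfold nn at this
          linarith [abs_nonneg (q.1 - q1.1)]
        have h6 := cz_floor hr h5
        rwa [mul_div_assoc, hxr] at h6) (by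
        rintro _ ⟨q, hq, rfl⟩ _ ⟨q', hq', rfl⟩ -
        have h5 : |q.1 - q'.1| ≤ 2 * Q * x := by
          have e1 := hn q hq
          have e2 := hn q' hq'
          unfold nn at e1 e2
          have e3 : q.1 - q'.1 = (q.1 - q1.1) - (q'.1 - q1.1) := by ring
          rw [e3]
          refine (abs_sub _ _).trans ?_
          linarith [abs_nonneg (q.2 - q1.2), abs_nonneg (q'.2 - q1.2)]
        have h6 := cz_floor hr h5
        rwa [mul_div_assoc, hxr] at h6)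
    refine ⟨h.1, h.2.trans ?_⟩
    have h7 : (2 * (Q * L + 1) + 1) * (2 * (2 * Q * L + 1) + 1) ≤
        ((2 * (Q + 1) + 1) * (2 * (2 * Q + 1) + 1)) * L ^ 2 := by
      have e1 : 2 * (Q * L + 1) + 1 ≤ (2 * (Q + 1) + 1) * L := by linarith
      have e2 : 2 * (2 * Q * L + 1) + 1 ≤ (2 * (2 * Q + 1) + 1) * L := by linarith
      calc (2 * (Q * L + 1) + 1) * (2 * (2 * Q * L + 1) + 1) ≤
          ((2 * (Q + 1) + 1) * L) * ((2 * (2 * Q + 1) + 1) * L) := by gcongr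
        _ = _ := by ring
    refine h7.trans ((up _ (by positivity)).trans ?_)
    have h8 : 0 ≤ 4 * (3 * (2 * (b0 + 1) + 1)) := by positivity
    have h9 : 0 ≤ L ^ 3 * (1 + ρ / r) := by positivity
    nlinarith
  · -- long chord
    push Not at hcase
    have hDp : 0 < D := lt_of_le_of_lt (by positivity) hcase
    have num2 := fun q hq => (num q hq).2 hcase
    -- one row
    have rowT : ∀ o ∈ S, ∀ b ∈ S, |o.2 - b.2| ≤ r →
        (o.1 - b.1) * Pt b ≤ (Cl + 2) * (N + 1) * (x * D) := by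
      intro o ho b hb hr2
      have go := rg _ _ ho.1
      have gb := rg _ _ hb.1
      have gm := rg o.1 b.2 ⟨ho.1.1, hb.1.2⟩
      obtain ⟨n1, n2, n3, -⟩ := num2 o ho
      obtain ⟨-, m2, -, -⟩ := num2 b hb
      have e1 := BB_sec hα gm gb g1 g2
      rw [← hSa, ← hSh, sub_self, zero_mul, add_zero] at e1
      have e2 := sT_mono (t := o.1) (t' := b.1) (y := b.2) (Sa := Sa) (Sh := Sh) hα gm gb hSa0 hSh0
      rw [← e1] at e2
      have e3 := HL d hd0 hd o.1 b.2 o.1 o.2 q1.1 q1.2 q2.1 q2.2 gm go g1 g2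
      have e4 : nn o.1 b.2 o.1 o.2 ≤ r := by
        unfold nn
        rw [sub_self, abs_zero, zero_add, abs_sub_comm]
        exact hr2
      have e5 : nn o.1 b.2 q1.1 q1.2 ≤ nn o.1 o.2 q1.1 q1.2 + r := by
        unfold nn
        have : |b.2 - q1.2| ≤ |o.2 - q1.2| + |o.2 - b.2| := by
          have e : b.2 - q1.2 = (o.2 - q1.2) - (o.2 - b.2) := by ring
          rw [e]
          exact abs_sub _ _
        linarith
      have e6 : Cl * nn o.1 b.2 o.1 o.2 * (nn o.1 b.2 q1.1 q1.2 + nn o.1 o.2 q2.1 q2.2) ≤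
          Cl * x * ((N + 1) * D) := by
        have h0 := nn0 o.1 b.2 o.1 o.2
        have h1 := nn0 o.1 b.2 q1.1 q1.2
        have h2 := nn0 o.1 o.2 q2.1 q2.2
        have : nn o.1 b.2 q1.1 q1.2 + nn o.1 o.2 q2.1 q2.2 ≤ (N + 1) * D := by linarith
        have : nn o.1 b.2 o.1 o.2 ≤ x := e4.trans hrx
        gcongr
      have e7 := abs_le.1 (le_refl |BB α β d o.1 o.2 q1.1 q1.2 q2.1 q2.2|)
      have e8 := abs_le.1 (le_refl |BB α β d b.1 b.2 q1.1 q1.2 q2.1 q2.2|)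
      have e9 := abs_le.1 (e3.trans e6)
      have e10 : (o.1 - b.1) * Pt b ≤
          BB α β d o.1 b.2 q1.1 q1.2 q2.1 q2.2 - BB α β d b.1 b.2 q1.1 q1.2 q2.1 q2.2 := by
        rw [hPt]
        exact e2
      linarith [e7.1, e7.2, e8.1, e8.2, e9.1, e9.2]
    have rowY : ∀ o ∈ S, ∀ b ∈ S, |o.1 - b.1| ≤ r →
        (o.2 - b.2) * Py b ≤ (Cl + 2) * (N + 1) * (x * D) := by
      intro o ho b hb hr2
      have go := rg _ _ ho.1
      have gb := rg _ _ hb.1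
      have hbm : Bx c0 t0 y0 b.1 o.2 := ⟨hb.1.1, ho.1.2⟩
      have gm := rg b.1 o.2 hbm
      obtain ⟨n1, n2, n3, -⟩ := num2 o ho
      obtain ⟨-, m2, -, -⟩ := num2 b hb
      have e1 := BB_sec hα gm gb g1 g2
      rw [← hSa, ← hSh, sub_self, zero_mul, zero_add] at e1
      have hyy : 0 ≤ b.2 * (o.2 + b.2) := by
        have i1 := ho.1.2
        have i2 := hb.1.2
        have i3 : c0 * |y0| ≤ 1 / 8 * |y0| := by
          have := l1.trans hca8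
          gcongr
        rcases le_total 0 y0 with h0 | h0
        · rw [abs_of_nonneg h0] at i1 i2 i3
          have j1 := (abs_le.1 i1).1
          have j2 := (abs_le.1 i2).1
          have : 0 ≤ o.2 := by linarith
          have : 0 ≤ b.2 := by linarith
          positivity
        · rw [abs_of_nonpos h0] at i1 i2 i3
          have j1 := (abs_le.1 i1).2
          have j2 := (abs_le.1 i2).2
          have k1 : o.2 ≤ 0 := by linarith
          have k2 : b.2 ≤ 0 := by linarith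
          exact mul_nonneg_of_nonpos_of_nonpos k2 (by linarith)
      have hbr := HBr c0 hc0 l2 d hd0 hd b.1 o.2 b.1 b.2 q1.1 q1.2 q2.1 q2.2 gm gb g1 g2
        (nb _ _ _ _ hbm hq1) (nb _ _ _ _ hb.1 hq2)
      rw [← hSa, ← hSh] at hbr
      have e2 := sY_mono (t := b.1) (y := o.2) (y' := b.2) (Sa := Sa) (Sh := Sh)
        (c := q1.2 + q2.2) hα gm gb hSa0 hSh0 hyy hbr
      rw [← e1] at e2
      have e3 := HL d hd0 hd b.1 o.2 o.1 o.2 q1.1 q1.2 q2.1 q2.2 gm go g1 g2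
      have e4 : nn b.1 o.2 o.1 o.2 ≤ r := by
        unfold nn
        rw [sub_self, abs_zero, add_zero, abs_sub_comm]
        exact hr2
      have e5 : nn b.1 o.2 q1.1 q1.2 ≤ nn o.1 o.2 q1.1 q1.2 + r := by
        unfold nn
        have : |b.1 - q1.1| ≤ |o.1 - q1.1| + |o.1 - b.1| := by
          have e : b.1 - q1.1 = (o.1 - q1.1) - (o.1 - b.1) := by ring
          rw [e]
          exact abs_sub _ _
        linarith
      have e6 : Cl * nn b.1 o.2 o.1 o.2 * (nn b.1 o.2 q1.1 q1.2 + nn o.1 o.2 q2.1 q2.2) ≤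
          Cl * x * ((N + 1) * D) := by
        have h0 := nn0 b.1 o.2 o.1 o.2
        have h1 := nn0 b.1 o.2 q1.1 q1.2
        have h2 := nn0 o.1 o.2 q2.1 q2.2
        have : nn b.1 o.2 q1.1 q1.2 + nn o.1 o.2 q2.1 q2.2 ≤ (N + 1) * D := by linarith
        have : nn b.1 o.2 o.1 o.2 ≤ x := e4.trans hrx
        gcongr
      have e7 := abs_le.1 (le_refl |BB α β d o.1 o.2 q1.1 q1.2 q2.1 q2.2|)
      have e8 := abs_le.1 (le_refl |BB α β d b.1 b.2 q1.1 q1.2 q2.1 q2.2|)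
      have e9 := abs_le.1 (e3.trans e6)
      have e10 : (o.2 - b.2) * Py b ≤
          BB α β d b.1 o.2 q1.1 q1.2 q2.1 q2.2 - BB α β d b.1 b.2 q1.1 q1.2 q2.1 q2.2 := by
        rw [hPy]
        exact e2
      linarith [e7.1, e7.2, e8.1, e8.2, e9.1, e9.2]
    -- from the slope to the length
    have len : ∀ s u P : ℝ, (s = 1 ∨ s = -1) → c4 / 2 * D ≤ s * P →
        u * P ≤ (Cl + 2) * (N + 1) * (x * D) → s * u ≤ b0 * x := by
      intro s u P hs1 hP hu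
      by_contra hcon
      push Not at hcon
      have hsu : 0 < s * u := lt_of_le_of_lt (by positivity) hcon
      have h5 : u * P = (s * u) * (s * P) := by
        rcases hs1 with h | h <;> rw [h] <;> ring
      have h6 : (s * u) * (c4 / 2 * D) ≤ (s * u) * (s * P) := by gcongr
      have h7 : b0 * x * (c4 / 2 * D) < (s * u) * (c4 / 2 * D) := by
        have : 0 < c4 / 2 * D := by positivity
        gcongr
      have h8 : b0 * x * (c4 / 2 * D) = (Cl + 2) * (N + 1) * (x * D) := by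
        rw [hb0]
        field_simp
      linarith
    have two : ∀ s u P P' : ℝ, (s = 1 ∨ s = -1) → c4 / 2 * D ≤ s * P → c4 / 2 * D ≤ s * P' →
        u * P ≤ (Cl + 2) * (N + 1) * (x * D) → -u * P' ≤ (Cl + 2) * (N + 1) * (x * D) →
        |u| ≤ b0 * x := by
      intro s u P P' hs1 hP hP' hu hu'
      have h5 := len s u P hs1 hP hu
      have h6 := len s (-u) P' hs1 hP' hu'
      rw [abs_le]
      rcases hs1 with h | h <;> rw [h] at h5 h6 <;> constructor <;> linarith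
    obtain ⟨B, hB⟩ : ∃ B : ℝ, B = (2 * (ρ / r + 1) + 1) * (2 * (b0 * L + 1) + 1) := ⟨_, rfl⟩
    have fT : ∀ s : ℝ, (s = 1 ∨ s = -1) → (cel '' {q ∈ S | c4 / 2 * D ≤ s * Pt q}).Finite ∧
        ((cel '' {q ∈ S | c4 / 2 * D ≤ s * Pt q}).ncard : ℝ) ≤ B := by
      intro s hs1
      rw [hB]
      refine cz (a := ρ / r + 1) (b := b0 * L + 1) (by positivity) (by positivity) ⌊q1.2 / r⌋ ?_ ?_
      · rintro _ ⟨q, ⟨hq, -⟩, rfl⟩
        refine cz_floor hr ?_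
        have := hq.2.1
        unfold nn at this
        linarith [abs_nonneg (q.1 - q1.1)]
      · rintro _ ⟨q, ⟨hq, hq2⟩, rfl⟩ _ ⟨q', ⟨hq', hq2'⟩, rfl⟩ h5
        have h6 : |q.2 - q'.2| ≤ r := cz_same hr h5
        have h7 := rowT q hq q' hq' h6
        have h8 := rowT q' hq' q hq (by rw [abs_sub_comm]; exact h6)
        have h9 := two s (q.1 - q'.1) (Pt q') (Pt q) hs1 hq2' hq2 h7
          (by rw [neg_sub]; exact h8)
        have h10 := cz_floor hr h9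
        rwa [mul_div_assoc, hxr] at h10
    have fY : ∀ s : ℝ, (s = 1 ∨ s = -1) → (cel '' {q ∈ S | c4 / 2 * D ≤ s * Py q}).Finite ∧
        ((cel '' {q ∈ S | c4 / 2 * D ≤ s * Py q}).ncard : ℝ) ≤ B := by
      intro s hs1
      rw [hB]
      refine cz' (a := ρ / r + 1) (b := b0 * L + 1) (by positivity) (by positivity) ⌊q1.1 / r⌋
        ?_ ?_
      · rintro _ ⟨q, ⟨hq, -⟩, rfl⟩
        refine cz_floor hr ?_
        have := hq.2.1
        unfold nn at this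
        linarith [abs_nonneg (q.2 - q1.2)]
      · rintro _ ⟨q, ⟨hq, hq2⟩, rfl⟩ _ ⟨q', ⟨hq', hq2'⟩, rfl⟩ h5
        have h6 : |q.1 - q'.1| ≤ r := cz_same hr h5
        have h7 := rowY q hq q' hq' h6
        have h8 := rowY q' hq' q hq (by rw [abs_sub_comm]; exact h6)
        have h9 := two s (q.2 - q'.2) (Py q') (Py q) hs1 hq2' hq2 h7
          (by rw [neg_sub]; exact h8)
        have h10 := cz_floor hr h9
        rwa [mul_div_assoc, hxr] at h10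
    have hcov : cel '' S ⊆ cel '' {q ∈ S | c4 / 2 * D ≤ 1 * Pt q} ∪
        cel '' {q ∈ S | c4 / 2 * D ≤ -1 * Pt q} ∪ cel '' {q ∈ S | c4 / 2 * D ≤ 1 * Py q} ∪
        cel '' {q ∈ S | c4 / 2 * D ≤ -1 * Py q} := by
      rintro _ ⟨q, hq, rfl⟩
      obtain ⟨-, -, -, h4⟩ := num2 q hq
      by_cases h5 : c4 / 2 * D ≤ |Pt q|
      · rcases abs_cases (Pt q) with ⟨h6, -⟩ | ⟨h6, -⟩
        · exact Or.inl (Or.inl (Or.inl ⟨q, ⟨hq, by rw [one_mul, ← h6]; exact h5⟩, rfl⟩))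
        · exact Or.inl (Or.inl (Or.inr ⟨q, ⟨hq, by rw [neg_one_mul, ← h6]; exact h5⟩, rfl⟩))
      · push Not at h5
        have h7 : c4 / 2 * D ≤ |Py q| := by linarith
        rcases abs_cases (Py q) with ⟨h6, -⟩ | ⟨h6, -⟩
        · exact Or.inl (Or.inr ⟨q, ⟨hq, by rw [one_mul, ← h6]; exact h7⟩, rfl⟩)
        · exact Or.inr ⟨q, ⟨hq, by rw [neg_one_mul, ← h6]; exact h7⟩, rfl⟩
    have hfin := cta_four hcov (fT 1 (Or.inl rfl)) (fT (-1) (Or.inr rfl)) (fY 1 (Or.inl rfl))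
      (fY (-1) (Or.inr rfl))
    refine ⟨hfin.1, hfin.2.trans ?_⟩
    have h5 : B ≤ 3 * (2 * (b0 + 1) + 1) * L ^ 3 * (1 + ρ / r) := by
      have e0 : 0 ≤ ρ / r := by positivity
      have e1 : 2 * (ρ / r + 1) + 1 ≤ 3 * (1 + ρ / r) := by linarith
      have e2 : 2 * (b0 * L + 1) + 1 ≤ (2 * (b0 + 1) + 1) * L := by linarith
      have e3 : L ≤ L ^ 3 := by
        calc L = L ^ 1 := (pow_one L).symm
          _ ≤ L ^ 3 := pow_le_pow_right₀ hL (by norm_num)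
      rw [hB]
      calc (2 * (ρ / r + 1) + 1) * (2 * (b0 * L + 1) + 1) ≤
          3 * (1 + ρ / r) * ((2 * (b0 + 1) + 1) * L) := by gcongr
        _ ≤ 3 * (1 + ρ / r) * ((2 * (b0 + 1) + 1) * L ^ 3) := by gcongr
        _ = _ := by ring
    have h8 : 0 ≤ (2 * (Q + 1) + 1) * (2 * (2 * Q + 1) + 1) := by positivity
    have h9 : 0 ≤ L ^ 3 * (1 + ρ / r) := by positivity
    calc 4 * B ≤ 4 * (3 * (2 * (b0 + 1) + 1) * L ^ 3 * (1 + ρ / r)) := by gcongr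
      _ = 4 * (3 * (2 * (b0 + 1) + 1)) * (L ^ 3 * (1 + ρ / r)) := by ring
      _ ≤ ((2 * (Q + 1) + 1) * (2 * (2 * Q + 1) + 1) + 4 * (3 * (2 * (b0 + 1) + 1))) *
          (L ^ 3 * (1 + ρ / r)) := by
          refine mul_le_mul_of_nonneg_right ?_ h9
          linarith
      _ = _ := by ring

end Pool.Agent.LQ
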