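import Pool.Agent.LQ.CNT
import Pool.Agent.LQ.CNTa

/-!
LEAFQ, row CNT, closed.
-/

set_option autoImplicit false

namespace Pool.Agent.LQ

theorem row_CNT {α β : ℝ} (hα : α ≠ 0) (hβ : β ≠ 0) (hαβ : α ≠ β) : ∃ C c1 : ℝ, 0 < C ∧
    0 < c1 ∧ ∀ c0, 0 < c0 → c0 ≤ c1 → ∀ d, 0 ≤ d → d ≤ 1 → ∀ t0 y0, Rs α β d t0 y0 →
      y0 ≠ 0 → ∀ r K, 0 < r → r ≤ 1 → 1 ≤ K → r ≤ |y0| →
      ∀ (I J : Type) [Fintype I] [Fintype J] (tt : I → ℝ) (yy : J → ℝ),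
      (∀ i j, i ≠ j → r ≤ |tt i - tt j|) → (∀ i j, i ≠ j → r ≤ |yy i - yy j|) →
      (∀ a b : I × J, (({q : (I × J) × (I × J) | Rel α β d c0 t0 y0 r K (tt a.1, yy a.2)
        (tt b.1, yy b.2) (tt q.1.1, yy q.1.2) (tt q.2.1, yy q.2.2)}.ncard : ℕ) : ℝ) ≤
          C * K ^ 12 / |y0|) :=
  row_CNT_of hα (row_RE hα hβ hαβ) (row_CNTa hα)

end Pool.Agent.LQ
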