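import Pool.Agent.LF.COREB0

/-!
LEAFQ: from the domination of the pieces to the square function; the counting of KAK is a
hypothesis with a general right side.
-/

set_option autoImplicit false

namespace Pool.Agent.LQ

open MeasureTheory Set Metric Pool.Agent.LF
open scoped ENNReal RealInnerProductSpace

/-- The square function of the pieces in a window. -/
theorem coreBz {m n : ℕ} (Mo : ℕ) {A C C2 : ℝ} (hA : 0 ≤ A) (hC : 0 ≤ C) (_hC2 : 0 ≤ C2)
    {V : EuclideanSpace ℝ (Fin n) → ℝ × EuclideanSpace ℝ (Fin m) → EuclideanSpace ℝ (Fin m)}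
    {T : ℝ × EuclideanSpace ℝ (Fin m) → EuclideanSpace ℝ (Fin n)}
    {R Λ0 e : ℝ} {Z : Set (EuclideanSpace ℝ (Fin m))} (hZm : MeasurableSet Z) (hR : 1 ≤ R)
    (hVL : ∀ ξ t z z', ‖V ξ (t, z) - V ξ (t, z')‖ ≤ A * ‖ξ‖ * ‖z - z'‖)
    (hTc : ∀ t, Continuous fun z => T (t, z))
    {κ ι : Type*} [Fintype κ] [Fintype ι] (pr : κ → ι) (t : ι → ℝ)
    (zc : κ → EuclideanSpace ℝ (Fin m)) (GG : ι → ℝ → ℝ≥0∞)
    (f : κ → EuclideanSpace ℝ (Fin n) → ℂ) (Qk : ℝ≥0∞)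
    (hkak : ∀ g : ι → ℝ → ℝ≥0∞,
        (∀ i, Measurable (g i)) → (∀ i, ∫⁻ τ, g i τ ≤ ENNReal.ofReal (1 / √R)) →
        (∀ i τ, g i τ ≤ ENNReal.ofReal (1 / R)) →
        ∫⁻ ξ in {ξ : EuclideanSpace ℝ (Fin n) | R / 2 ≤ ‖ξ‖ ∧ ‖ξ‖ ≤ 4 * R},
          (∑ i, ∫⁻ z in Z, ({z | ‖V ξ (t i, z)‖ ≤ Λ0 + 4 * A * C2 * √R}.indicator
            fun z => g i ⟪ξ, T (t i, z)⟫) z) ^ 2 ≤ Qk)
    (hGm : ∀ i, Measurable (GG i)) (hG1 : ∀ i, ∫⁻ τ, GG i τ ≤ ENNReal.ofReal (C / √R))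
    (hG2 : ∀ i τ, GG i τ ≤ ENNReal.ofReal (C / R))
    (hov : ∀ i z, ({c | pr c = i ∧ ‖z - zc c‖ ≤ C2 / √R} : Set κ).ncard ≤ Mo)
    (hdom : ∀ c ξ, ‖ξ‖ ≤ 4 * R → ‖f c ξ‖ₑ ^ 2 ≤ ENNReal.ofReal (C * (1 / √R) ^ m) *
      ∫⁻ z in closedBall (zc c) (C2 / √R) ∩ Z, GG (pr c) ⟪ξ, T (t (pr c), z)⟫)
    (hnsp : ∀ c ξ, R / 2 ≤ ‖ξ‖ → ‖ξ‖ ≤ 4 * R → Λ0 ≤ ‖V ξ (t (pr c), zc c)‖ → ‖f c ξ‖ ≤ e) :
    ∫⁻ ξ in {ξ : EuclideanSpace ℝ (Fin n) | R / 2 ≤ ‖ξ‖ ∧ ‖ξ‖ ≤ 4 * R},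
      (∑ c, ‖f c ξ‖ₑ ^ 2) ^ 2 ≤
      ENNReal.ofReal (2 * (C * (C + 1) * Mo) ^ 2 * (1 / R) ^ m) * Qk +
        2 * (Fintype.card κ * ENNReal.ofReal (e ^ 2)) ^ 2 *
          volume {ξ : EuclideanSpace ℝ (Fin n) | R / 2 ≤ ‖ξ‖ ∧ ‖ξ‖ ≤ 4 * R} := by
  classical
  set C' : ℝ := C + 1 with hC'
  have hC'0 : 0 < C' := by positivity
  have hC'1 : 1 ≤ C' := by linarith
  have hR0 : 0 < R := by linarith
  have hs : 0 < √R := Real.sqrt_pos.2 hR0
  have hsR : √R * √R = R := Real.mul_self_sqrt hR0.le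
  set An : Set (EuclideanSpace ℝ (Fin n)) := {ξ | R / 2 ≤ ‖ξ‖ ∧ ‖ξ‖ ≤ 4 * R} with hAn
  have hAnm : MeasurableSet An := by
    have b1 : MeasurableSet {ξ : EuclideanSpace ℝ (Fin n) | R / 2 ≤ ‖ξ‖} :=
      measurableSet_le measurable_const measurable_norm
    have b2 : MeasurableSet {ξ : EuclideanSpace ℝ (Fin n) | ‖ξ‖ ≤ 4 * R} :=
      measurableSet_le measurable_norm measurable_const
    exact b1.inter b2
  set Λ : ℝ := Λ0 + 4 * A * C2 * √R with hΛd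
  -- continuity of `V`
  have hVc : ∀ ξ t, Continuous fun z => V ξ (t, z) := by
    intro ξ t
    have hl : LipschitzWith (A * ‖ξ‖).toNNReal fun z => V ξ (t, z) := by
      refine LipschitzWith.of_dist_le_mul fun z z' => ?_
      rw [dist_eq_norm, dist_eq_norm, Real.coe_toNNReal _ (by positivity)]
      exact hVL ξ t z z'
    exact hl.continuous
  -- normalisation
  set g : ι → ℝ → ℝ≥0∞ := fun i τ => ENNReal.ofReal C'⁻¹ * GG i τ with hg
  have hgm : ∀ i, Measurable (g i) := fun i => (hGm i).const_mul _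
  have hCC : C'⁻¹ * C ≤ 1 := by
    rw [inv_mul_le_iff₀ hC'0]
    linarith
  have hg1 : ∀ i, ∫⁻ τ, g i τ ≤ ENNReal.ofReal (1 / √R) := by
    intro i
    simp only [hg]
    rw [lintegral_const_mul' _ _ ENNReal.ofReal_ne_top]
    calc ENNReal.ofReal C'⁻¹ * ∫⁻ τ, GG i τ ≤
          ENNReal.ofReal C'⁻¹ * ENNReal.ofReal (C / √R) := by
          gcongr
          exact hG1 i
      _ = ENNReal.ofReal (C'⁻¹ * C / √R) := by
          rw [← ENNReal.ofReal_mul (by positivity), mul_div_assoc]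
      _ ≤ _ := ENNReal.ofReal_le_ofReal (by gcongr)
  have hg2 : ∀ i τ, g i τ ≤ ENNReal.ofReal (1 / R) := by
    intro i τ
    simp only [hg]
    calc ENNReal.ofReal C'⁻¹ * GG i τ ≤
          ENNReal.ofReal C'⁻¹ * ENNReal.ofReal (C / R) := by
          gcongr
          exact hG2 i τ
      _ = ENNReal.ofReal (C'⁻¹ * C / R) := by
          rw [← ENNReal.ofReal_mul (by positivity), mul_div_assoc]
      _ ≤ _ := ENNReal.ofReal_le_ofReal (by gcongr)
  have hgG : ∀ i τ, GG i τ = ENNReal.ofReal C' * g i τ := by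
    intro i τ
    simp only [hg]
    rw [← mul_assoc, ← ENNReal.ofReal_mul hC'0.le, mul_inv_cancel₀ hC'0.ne', ENNReal.ofReal_one,
      one_mul]
  have hk := hkak g hgm hg1 hg2
  set w : ι → EuclideanSpace ℝ (Fin n) → EuclideanSpace ℝ (Fin m) → ℝ≥0∞ := fun i ξ =>
    {z | ‖V ξ (t i, z)‖ ≤ Λ}.indicator fun z => g i ⟪ξ, T (t i, z)⟫ with hw
  have hwm : ∀ i ξ, Measurable (w i ξ) := by
    intro i ξ
    have h1 : Measurable fun z => g i ⟪ξ, T (t i, z)⟫ := by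
      have h2 : Continuous fun z => (⟪ξ, T (t i, z)⟫ : ℝ) := continuous_const.inner (hTc (t i))
      exact (hgm i).comp h2.measurable
    refine h1.indicator ?_
    exact (isClosed_le (hVc ξ (t i)).norm continuous_const).measurableSet
  set G : κ → Set (EuclideanSpace ℝ (Fin m)) := fun c => closedBall (zc c) (C2 / √R) ∩ Z with hGd
  have hGmeas : ∀ c, MeasurableSet (G c) := fun c => measurableSet_closedBall.inter hZm
  have hGB : ∀ c, G c ⊆ Z := fun c => inter_subset_right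
  have hM : ∀ i z, ({c | pr c = i ∧ z ∈ G c} : Set κ).ncard ≤ Mo := by
    intro i z
    refine le_trans (Set.ncard_le_ncard ?_ (Set.toFinite _)) (hov i z)
    rintro c ⟨h1, h2, _⟩
    refine ⟨h1, ?_⟩
    rwa [mem_closedBall, dist_eq_norm] at h2
  set a : ℝ≥0∞ := ENNReal.ofReal (C * C' * (1 / √R) ^ m) with ha
  have hF : ∀ c, ∀ ξ ∈ An, ‖f c ξ‖ₑ ^ 2 ≤
      (a * ∫⁻ z in G c, w (pr c) ξ z) + ENNReal.ofReal (e ^ 2) := by
    intro c ξ hξ
    by_cases hV : Λ0 ≤ ‖V ξ (t (pr c), zc c)‖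
    · refine le_trans ?_ le_add_self
      rw [← ofReal_norm, ← ENNReal.ofReal_pow (norm_nonneg _)]
      exact ENNReal.ofReal_le_ofReal
        (pow_le_pow_left₀ (norm_nonneg _) (hnsp c ξ hξ.1 hξ.2 hV) 2)
    · refine le_trans ?_ le_self_add
      push Not at hV
      refine (hdom c ξ hξ.2).trans (le_of_eq ?_)
      have h1 : ∀ z ∈ G c, GG (pr c) ⟪ξ, T (t (pr c), z)⟫ =
          ENNReal.ofReal C' * w (pr c) ξ z := by
        intro z hz
        have h2 : ‖V ξ (t (pr c), z)‖ ≤ Λ := by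
          have h3 := hVL ξ (t (pr c)) z (zc c)
          have h4 : ‖z - zc c‖ ≤ C2 / √R := by
            have := hz.1
            rwa [mem_closedBall, dist_eq_norm] at this
          have h5 : A * ‖ξ‖ * ‖z - zc c‖ ≤ 4 * A * C2 * √R := by
            calc A * ‖ξ‖ * ‖z - zc c‖ ≤ A * (4 * R) * (C2 / √R) := by
                  gcongr
                  exact hξ.2
              _ = 4 * A * C2 * (R / √R) := by ring
              _ = 4 * A * C2 * √R := by rw [Real.div_sqrt]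
          have h6 : ‖V ξ (t (pr c), z)‖ ≤ ‖V ξ (t (pr c), zc c)‖ +
              ‖V ξ (t (pr c), z) - V ξ (t (pr c), zc c)‖ := by
            have := norm_add_le (V ξ (t (pr c), zc c)) (V ξ (t (pr c), z) - V ξ (t (pr c), zc c))
            simpa using this
          linarith
        simp only [hw]
        rw [indicator_of_mem (show z ∈ {z | ‖V ξ (t (pr c), z)‖ ≤ Λ} from h2), hgG]
      rw [setLIntegral_congr_fun (hGmeas c) h1, lintegral_const_mul' _ _ ENNReal.ofReal_ne_top,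
        ← mul_assoc, ← ENNReal.ofReal_mul (by positivity)]
      congr 2
      ring
  have key := corb_abs (volume : Measure (EuclideanSpace ℝ (Fin m)))
    (volume : Measure (EuclideanSpace ℝ (Fin n))) An hAnm pr G Z w
    (fun c ξ => ‖f c ξ‖ₑ ^ 2) Mo a (ENNReal.ofReal (e ^ 2)) ENNReal.ofReal_ne_top hGmeas hGB
    hZm hwm hM hF
  refine key.trans (add_le_add_left ?_ _)
  calc 2 * (a * Mo) ^ 2 * ∫⁻ ξ in An, (∑ i, ∫⁻ z in Z, w i ξ z) ^ 2 ≤
      2 * (a * Mo) ^ 2 * Qk := mul_le_mul' le_rfl hk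
    _ = _ := by
        congr 1
        have h1 : (1 / √R) ^ (m * 2) = (1 / R) ^ m := by
          rw [mul_comm, pow_mul, div_pow, one_pow, Real.sq_sqrt hR0.le]
        rw [ha, ← ENNReal.ofReal_natCast Mo, ← ENNReal.ofReal_mul (by positivity),
          ← ENNReal.ofReal_pow (by positivity),
          show (2 : ℝ≥0∞) = ENNReal.ofReal 2 by norm_num, ← ENNReal.ofReal_mul (by norm_num),
          ← h1, pow_mul (1 / √R) m 2]
        congr 1
        ring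

end Pool.Agent.LQ
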