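import Pool.Agent.LQ.HM0
import Pool.Agent.LQ.CNTF

/-!
LEAFQ, row HM.
-/

set_option autoImplicit false

namespace Pool.Agent.LQ

open MeasureTheory Set Pool.Agent.MP_6cbfb8_an Pool.Agent.LF
open scoped RealInnerProductSpace ContDiff

/-- The number of pairs of caps related to two given caps. -/
theorem hm {α β : ℝ} (hα : α ≠ 0) (hβ : β ≠ 0) (hαβ : α ≠ β) {X : ℝ → ℝ × E 1 → E 3}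
    {A : ℕ → ℝ} (hX : SF α β X A) :
    ∃ C c1 : ℝ, 0 < C ∧ 0 < c1 ∧ ∀ c0, 0 < c0 → c0 ≤ c1 → ∀ d, 0 ≤ d → d ≤ 1 →
      ∀ (t0 : ℝ) (z0 : E 1), Rs α β d t0 (z0 0) → z0 0 ≠ 0 →
      ∀ (r K : ℝ) (M : ℕ), 0 < r → r ≤ 1 → 1 ≤ K → r ≤ |z0 0| →
      ∀ T : ↥(gi M ×ˢ gk 1 M) → Set (ℝ × E 1),
      (∀ a, ∀ p ∈ T a, ‖p - pcs (t0, z0) r M a.1‖ ≤ r ∧ |p.1 - t0| ≤ c0 ∧
        ‖p.2 - z0‖ ≤ c0 * |z0 0|) →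
      ∀ a b, ({q : ↥(gi M ×ˢ gk 1 M) × ↥(gi M ×ˢ gk 1 M) | ∃ w : E 3, (1 / 2 ≤ ‖w‖ ∧ ‖w‖ ≤ 4) ∧
          ∃ p1 ∈ T a, ∃ p2 ∈ T b, ∃ p3 ∈ T q.1, ∃ p4 ∈ T q.2,
          (‖Vw (X d) w p1‖ ≤ K * r ∧ ‖Vw (X d) w p2‖ ≤ K * r ∧ ‖Vw (X d) w p3‖ ≤ K * r ∧
            ‖Vw (X d) w p4‖ ≤ K * r) ∧
          ‖X d p1 + X d p2 - X d p3 - X d p4‖ ≤ (K * r) ^ 2}.ncard : ℝ) ≤
        C * K ^ 12 / |z0 0| :=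
  hm_of hα hX (row_CNT hα hβ hαβ)

end Pool.Agent.LQ
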