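import Pool.Agent.LQ.Df
import Pool.Agent.LF.Tb

/-!
LEAFQ: surfaces in `R^3` with uniform bounds, cut-off functions.
-/

set_option autoImplicit false

namespace Pool.Agent.LQ

open MeasureTheory Set Pool.Agent.MP_6cbfb8_an Pool.Agent.LF
open scoped RealInnerProductSpace ContDiff

/-- `X d` is a smooth map on the whole plane with bounds uniform in `d ∈ [0, 1]`, equal to
`(A, y, h)` on the large region, where its gradients are the explicit ones. -/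
def SF (α β : ℝ) (X : ℝ → ℝ × E 1 → E 3) (A : ℕ → ℝ) : Prop :=
  ∀ d, 0 ≤ d → d ≤ 1 → ContDiff ℝ ∞ (X d) ∧ (∀ j p, ‖iteratedFDeriv ℝ j (X d) p‖ ≤ A j) ∧
    ∀ t (z : E 1), Rg α β d t (z 0) →
      X d (t, z) 0 = AA α β t (z 0) ∧ X d (t, z) 1 = z 0 ∧ X d (t, z) 2 = hh α β d t (z 0) ∧
      (∀ w : E 3, ⟪w, Xt (X d) (t, z)⟫ = Tw α β d (w 0) (w 2) t (z 0)) ∧
      ∀ w : E 3, Vw (X d) w (t, z) 0 = Uw α β d (w 0) (w 1) (w 2) t (z 0)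

/-- Cut-off: `0` for `q ≤ 1/4`, `1` for `q ≥ 1/3`. -/
noncomputable def th1 (q : ℝ) : ℝ := Real.smoothTransition (12 * q - 3)
/-- Cut-off: `0` for `r ≤ 1/4`, `1` for `r ≥ 1/2`. -/
noncomputable def th2 (r : ℝ) : ℝ := Real.smoothTransition (4 * r - 1)
/-- The piece `x3 ≥ 1/2`, `x1 ≥ |x'|/2` of a partition of unity. -/
noncomputable def kap (x : E 3) : ℝ :=
  if 0 < x 0 ∧ 0 < x 2 then
    th1 (x 2 ^ 2) / (th1 (x 0 ^ 2) + th1 (x 1 ^ 2) + th1 (x 2 ^ 2)) *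
      (th2 (x 0 ^ 2 / (x 0 ^ 2 + x 1 ^ 2)) /
        (th2 (x 0 ^ 2 / (x 0 ^ 2 + x 1 ^ 2)) + th2 (x 1 ^ 2 / (x 0 ^ 2 + x 1 ^ 2))))
  else 0

/-- Functions of `(t, x)`, measurable, smooth in `x` with bounds `B`. -/
def GC (B : ℕ → ℝ) (G : ℝ → E 3 → ℂ) : Prop :=
  Measurable (Function.uncurry G) ∧ (∀ t, ContDiff ℝ ∞ (G t)) ∧
    ∀ k t x, ‖iteratedFDeriv ℝ k (G t) x‖ ≤ B k

/-- Densities in the chart: measurable, smooth along the leaves. -/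
def DC (α β d : ℝ) (B : ℕ → ℝ) (b : ℝ × E 1 → ℂ) : Prop :=
  Measurable b ∧ (∀ t, ContDiff ℝ ∞ fun z => b (t, z)) ∧
    (∀ t k z, ‖iteratedFDeriv ℝ k (fun z => b (t, z)) z‖ ≤ B k) ∧
    ∀ t (z : E 1), ¬ Rs α β d t (z 0) → b (t, z) = 0

end Pool.Agent.LQ
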