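import Pool.Agent.LQ.KQ
import Pool.Agent.LQ.Df2

/-!
LEAFQ, row KQE: the row KQ in the language of the charts.
-/

set_option autoImplicit false

namespace Pool.Agent.LQ

open MeasureTheory Set Metric Pool.Agent.MP_6cbfb8_an Pool.Agent.LF
open scoped RealInnerProductSpace ContDiff ENNReal NNReal ComplexConjugate

/-- Coordinates of `R^3`. -/
theorem kqe_pres3 : MeasurePreserving (fun ξ : E 3 => ((ξ 0, ξ 1, ξ 2) : ℝ × ℝ × ℝ)) := by
  have e0 := PiLp.volume_preserving_ofLp (Fin 3)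
  have e1 := volume_preserving_piFinSuccAbove (fun _ : Fin 3 => ℝ) 0
  have e2 := volume_preserving_finTwoArrow ℝ
  have e3 : MeasurePreserving (Prod.map (id : ℝ → ℝ) (MeasurableEquiv.finTwoArrow (α := ℝ)))
      (volume : Measure (ℝ × (Fin 2 → ℝ))) (volume : Measure (ℝ × (ℝ × ℝ))) :=
    (MeasurePreserving.id volume).prod e2
  exact (e3.comp e1).comp e0

/-- The coordinate of `R^1`. -/
theorem kqe_pres1 : MeasurePreserving (fun u : ℝ => (EuclideanSpace.single 0 u : E 1)) := by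
  have h1 : (fun u : ℝ => (EuclideanSpace.single 0 u : E 1)) =
      (WithLp.toLp 2 : (Fin 1 → ℝ) → E 1) ∘ (MeasurableEquiv.funUnique (Fin 1) ℝ).symm := by
    funext u
    ext i
    fin_cases i
    simp [MeasurableEquiv.funUnique, uniqueElim]
  rw [h1]
  exact (PiLp.volume_preserving_toLp (Fin 1)).comp ((volume_preserving_funUnique (Fin 1) ℝ).symm _)

theorem kqe_emb1 : MeasurableEmbedding (fun u : ℝ => (EuclideanSpace.single 0 u : E 1)) :=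
  (Isometry.of_dist_eq fun u v => PiLp.dist_single_same 2 (fun _ => ℝ) 0 u v
    ).isClosedEmbedding.measurableEmbedding

/-- Integrals over intervals of `R^1`. -/
theorem kqe_ball (z0 : E 1) (r : ℝ) (F : E 1 → ℝ≥0∞) :
    ∫⁻ z in closedBall z0 r, F z =
      ∫⁻ u in {u : ℝ | |u - z0 0| ≤ r}, F (EuclideanSpace.single 0 u) := by
  rw [← kqe_pres1.setLIntegral_comp_preimage_emb kqe_emb1]
  have h1 : (fun u : ℝ => (EuclideanSpace.single 0 u : E 1)) ⁻¹' closedBall z0 r =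
      {u : ℝ | |u - z0 0| ≤ r} := by
    ext u
    have h2 : z0 = EuclideanSpace.single 0 (z0 0) := by
      ext i
      fin_cases i
      simp
    rw [mem_preimage, mem_closedBall, mem_ofPred_eq, h2, PiLp.dist_single_same, Real.dist_eq]
    simp
  rw [h1]

/-- ROW KQE. -/
theorem kqe {α β : ℝ} (hα : α ≠ 0) (hβ : β ≠ 0) (hαβ : α ≠ β) {X : ℝ → ℝ × E 1 → E 3}
    {A : ℕ → ℝ} (hX : SF α β X A) : ∃ C c1 : ℝ, 0 < C ∧ 0 < c1 ∧ ∀ c0, 0 < c0 → c0 ≤ c1 →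
    ∀ d, 0 ≤ d → d ≤ 1 → ∀ (t0 : ℝ) (z0 : E 1), Rs α β d t0 (z0 0) → z0 0 ≠ 0 →
    ∀ R Λ, 1 ≤ R → 1 ≤ R * z0 0 ^ 2 → √R ≤ Λ →
      ∀ (ι : Type) [Fintype ι] (t : ι → ℝ) (g : ι → ℝ → ℝ≥0∞), (∀ i, |t i - t0| ≤ c0) →
      (∀ i j, i ≠ j → 1 / √R ≤ |t i - t j|) → (∀ i, Measurable (g i)) →
      (∀ i, ∫⁻ τ, g i τ ≤ ENNReal.ofReal (1 / √R)) →
      (∀ i τ, g i τ ≤ ENNReal.ofReal (1 / R)) →
      ∫⁻ ξ in {ξ : E 3 | R / 2 ≤ ‖ξ‖ ∧ ‖ξ‖ ≤ 4 * R},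
          (∑ i, ∫⁻ z in closedBall z0 (c0 * |z0 0|),
            ({z | ‖Vw (X d) ξ (t i, z)‖ ≤ Λ}.indicator
              fun z => g i ⟪ξ, Xt (X d) (t i, z)⟫) z) ^ 2 ≤
        ENNReal.ofReal (C * (Λ / √R) ^ 3 * (1 + Real.log R) ^ 2) := by
  obtain ⟨C, k1, hC, hk1, KQ⟩ := row_KQ hα hβ hαβ
  obtain ⟨k3, hk3, hk38, BX⟩ := box_sub (β := β) hα
  refine ⟨C, min k1 k3, hC, lt_min hk1 hk3, ?_⟩
  intro c0 hc0 hc01 d hd0 hd1 t0 z0 hs hz0 R Λ hR hRy hΛ ι _ t g ht hsep hg hgi hgs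
  have hc1 : c0 ≤ k1 := hc01.trans (min_le_left _ _)
  have hc3 : c0 ≤ k3 := hc01.trans (min_le_right _ _)
  have h1 := KQ c0 hc0 hc1 d hd0 hd1 t0 (z0 0) hs hz0 R Λ hR hRy hΛ ι t g ht hsep hg hgi hgs
  refine le_trans (le_of_eq ?_) h1
  -- the inner integrals
  have hin : ∀ ξ : E 3, ∀ i, ∫⁻ z in closedBall z0 (c0 * |z0 0|),
      ({z | ‖Vw (X d) ξ (t i, z)‖ ≤ Λ}.indicator
        fun z => g i ⟪ξ, Xt (X d) (t i, z)⟫) z =
      ∫⁻ y in {y : ℝ | |y - z0 0| ≤ c0 * |z0 0|},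
        kF α β d Λ (t i) (g i) (ξ 0, ξ 1, ξ 2) y := by
    intro ξ i
    rw [kqe_ball]
    refine setLIntegral_congr_fun (measurableSet_le (by fun_prop) measurable_const)
      fun y hy => ?_
    have hrg : Rg α β d (t i) y := by
      refine BX d hd0 hd1 t0 (z0 0) (t i) y hs ⟨(ht i).trans hc3, ?_⟩
      refine le_trans hy ?_
      gcongr
    have e1 : (EuclideanSpace.single 0 y : E 1) 0 = y := by simp
    obtain ⟨-, -, -, h4, h5⟩ := (hX d hd0 hd1).2.2 (t i) (EuclideanSpace.single 0 y)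
      (by rw [e1]; exact hrg)
    have h6 := h4 ξ
    have h7 := h5 ξ
    rw [e1] at h6 h7
    have h8 : ‖Vw (X d) ξ (t i, EuclideanSpace.single 0 y)‖ = |Uw α β d (ξ 0) (ξ 1) (ξ 2) (t i) y| := by
      rw [← h7, EuclideanSpace.norm_eq]
      simp [Real.sqrt_sq_eq_abs]
    unfold kF
    by_cases hu : |Uw α β d (ξ 0) (ξ 1) (ξ 2) (t i) y| ≤ Λ
    · rw [indicator_of_mem (show y ∈ {z | |Uw α β d (ξ 0) (ξ 1) (ξ 2) (t i) z| ≤ Λ} from hu),
        indicator_of_mem]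
      · rw [h6]
      · rw [mem_ofPred_eq, h8]
        exact hu
    · rw [indicator_of_notMem (show y ∉ {z | |Uw α β d (ξ 0) (ξ 1) (ξ 2) (t i) z| ≤ Λ} from hu),
        indicator_of_notMem]
      rw [mem_ofPred_eq, h8]
      exact hu
  simp only [hin]
  -- the outer integral
  set Y : Set ℝ := {y : ℝ | |y - z0 0| ≤ c0 * |z0 0|} with hY
  have mΦ : Measurable fun w : ℝ × ℝ × ℝ => (∑ i, ∫⁻ y in Y,
      kF α β d Λ (t i) (g i) w y) ^ 2 := by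
    refine Measurable.pow_const ?_ 2
    refine Finset.measurable_sum _ fun i _ => ?_
    exact (kF_meas α β d Λ (t i) (hg i)).lintegral_prod_right'
  have h2 := kqe_pres3.setLIntegral_comp_preimage (measurableSet_WA R) mΦ
  have h3 : (fun ξ : E 3 => ((ξ 0, ξ 1, ξ 2) : ℝ × ℝ × ℝ)) ⁻¹'
      {w : ℝ × ℝ × ℝ | WA R w.1 w.2.1 w.2.2} = {ξ : E 3 | R / 2 ≤ ‖ξ‖ ∧ ‖ξ‖ ≤ 4 * R} := by
    ext ξ
    have h4 : ‖ξ‖ ^ 2 = ξ 0 ^ 2 + ξ 1 ^ 2 + ξ 2 ^ 2 := by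
      rw [EuclideanSpace.real_norm_sq_eq, Fin.sum_univ_three]
    have hξ := norm_nonneg ξ
    rw [mem_preimage, mem_ofPred_eq, mem_ofPred_eq]
    unfold WA
    simp only
    rw [← h4]
    constructor
    · rintro ⟨a, b⟩
      constructor
      · exact abs_le_of_sq_le_sq' (by nlinarith) hξ |>.2
      · exact abs_le_of_sq_le_sq' (by nlinarith) (by linarith) |>.2
    · rintro ⟨a, b⟩
      constructor
      · nlinarith
      · nlinarith
  rw [h3] at h2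
  rw [h2]
  rfl

end Pool.Agent.LQ
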