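import Pool.Agent.LQ.COREQa
import Pool.Agent.LQ.KQE
import Pool.Agent.LQ.HM

/-!
LEAFQ: COREQ, the `L^4` bound of a box.
-/

set_option autoImplicit false

namespace Pool.Agent.LQ

open MeasureTheory Set Metric Pool.Agent.MP_6cbfb8_an Pool.Agent.LF
open scoped RealInnerProductSpace ContDiff ENNReal

/-- COREQ: the `L^4` bound of a box. -/
theorem coreQ {α β : ℝ} (hα : α ≠ 0) (hβ : β ≠ 0) (hαβ : α ≠ β) {X : ℝ → ℝ × E 1 → E 3}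
    {A : ℕ → ℝ} (hX : SF α β X A) : ∃ c0 : ℝ, 0 < c0 ∧ c0 ≤ 1 / 8 ∧
    ∀ (B : ℕ → ℝ) (ε : ℝ), 0 < ε →
    ∃ C : ℝ, ∀ d, 0 ≤ d → d ≤ 1 → ∀ (t0 : ℝ) (z0 : E 1), Rs α β d t0 (z0 0) → z0 0 ≠ 0 →
    ∀ b : ℝ × E 1 → ℂ, Measurable b → (∀ t, ContDiff ℝ ∞ fun z => b (t, z)) →
      (∀ t k z, ‖iteratedFDeriv ℝ k (fun z => b (t, z)) z‖ ≤ B k * (1 / |z0 0|) ^ k) →
      (∀ t (z : E 1), c0 < |t - t0| ∨ c0 * |z0 0| < ‖z - z0‖ → b (t, z) = 0) →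
      ∀ R : ℝ, 1 ≤ R → 1 ≤ R * z0 0 ^ 2 →
        ∫⁻ ξ in {ξ : E 3 | R ≤ ‖ξ‖ ∧ ‖ξ‖ ≤ 2 * R}, ‖Tb (X d) b ξ‖ₑ ^ (4 : ℝ) ≤
          ENNReal.ofReal (C * R ^ (-1 + ε) / |z0 0|) :=
  coreQ_of hX (kqe hα hβ hαβ hX) (hm hα hβ hαβ hX)

end Pool.Agent.LQ
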