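import Mathlib.Analysis.SpecialFunctions.Pow.Asymptotics
import Mathlib.Analysis.SpecialFunctions.Pow.Real
import Mathlib.Tactic

/-!
LEAFQ: the powers of `R` in COREQ.
-/

set_option autoImplicit false

namespace Pool.Agent.LQ

theorem cq_num {N : ℕ} {ε σ R K ν : ℝ} (hε : 0 < ε) (hσ : 0 < σ) (hσ1 : σ ≤ 1)
    (hσε : σ * 15 ≤ ε / 2) (hN : 20 ≤ σ * N) (hR : 1 ≤ R) (hK : K = R ^ σ) (hν : 0 < ν)
    (hν2 : ν ≤ 2) {Cm Cb Ck L Cκ Ce Cv Co S n0 e v ε2 : ℝ} (hCm : 0 ≤ Cm) (hCb : 0 ≤ Cb)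
    (hCk : 0 ≤ Ck) (hL : 0 ≤ L) (hCκ : 0 ≤ Cκ) (hCe : 0 ≤ Ce) (hCv : 0 ≤ Cv) (hCo : 0 ≤ Co)
    (hS : 0 ≤ S) (hn00 : 0 ≤ n0) (he0 : 0 ≤ e) (hv0 : 0 ≤ v) (hε20 : 0 ≤ ε2)
    (hn0 : n0 ≤ Cκ * R ^ 2) (he : e ≤ Ce * (K ^ N)⁻¹) (hv : v ≤ Cv * R ^ 3)
    (hε2 : ε2 ≤ Co * R ^ 3 * (K ^ N)⁻¹) :
    Cm * K ^ 12 / ν * (Cb * (1 / R) * (Ck * (L * K) ^ 3 * (1 + Real.log R) ^ 2) +
      2 * (n0 * e ^ 2) ^ 2 * v) + n0 ^ 4 * (e * S ^ 3 * v + ε2) ≤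
    (Cm * Cb * Ck * L ^ 3 * (1 + 4 / ε) ^ 2 + 2 * Cm * Cκ ^ 2 * Ce ^ 4 * Cv +
      2 * Cκ ^ 4 * (Ce * S ^ 3 * Cv + Co)) * R ^ (-1 + ε) / ν := by
  have hR0 : 0 < R := by linarith
  have hK1 : 1 ≤ K := by rw [hK]; exact Real.one_le_rpow hR hσ.le
  have hK0 : 0 < K := by linarith
  have hKR : K ≤ R := by
    rw [hK]
    calc R ^ σ ≤ R ^ (1 : ℝ) := Real.rpow_le_rpow_of_exponent_le hR hσ1
      _ = R := Real.rpow_one R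
  have hKN : (K ^ N)⁻¹ ≤ (R ^ 20)⁻¹ := by
    refine inv_anti₀ (by positivity) ?_
    rw [hK, ← Real.rpow_natCast (R ^ σ), ← Real.rpow_mul hR0.le, ← Real.rpow_natCast R]
    refine Real.rpow_le_rpow_of_exponent_le hR ?_
    push_cast
    exact hN
  have hKN0 : 0 ≤ (K ^ N)⁻¹ := by positivity
  have hKN1 : (K ^ N)⁻¹ ≤ 1 := inv_le_one_of_one_le₀ (one_le_pow₀ hK1)
  have hlog0 : 0 ≤ Real.log R := Real.log_nonneg hR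
  have hlog : 1 + Real.log R ≤ (1 + 4 / ε) * R ^ (ε / 4) := by
    have h0 : (1 : ℝ) ≤ R ^ (ε / 4) := Real.one_le_rpow hR (by positivity)
    have h1 := Real.log_le_rpow_div hR0.le (ε := ε / 4) (by positivity)
    have h2 : R ^ (ε / 4) / (ε / 4) = 4 / ε * R ^ (ε / 4) := by
      field_simp
    rw [h2] at h1
    nlinarith
  have hlog2 : (1 + Real.log R) ^ 2 ≤ (1 + 4 / ε) ^ 2 * R ^ (ε / 2) := by
    calc (1 + Real.log R) ^ 2 ≤ ((1 + 4 / ε) * R ^ (ε / 4)) ^ 2 := by gcongr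
      _ = (1 + 4 / ε) ^ 2 * (R ^ (ε / 4) * R ^ (ε / 4)) := by ring
      _ = _ := by
          rw [← Real.rpow_add hR0]
          congr 2
          ring
  have hK15 : K ^ 15 ≤ R ^ (ε / 2) := by
    rw [hK, ← Real.rpow_natCast (R ^ σ), ← Real.rpow_mul hR0.le]
    refine Real.rpow_le_rpow_of_exponent_le hR ?_
    push_cast
    exact hσε
  set P : ℝ := R ^ (-1 + ε) with hP
  have hP1 : P = 1 / R * (R ^ (ε / 2) * R ^ (ε / 2)) := by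
    rw [hP, ← Real.rpow_add hR0, add_halves, Real.rpow_add hR0, Real.rpow_neg_one, one_div]
  have hRP : 1 / R ≤ P := by
    have h1 : (1 : ℝ) ≤ R ^ (ε / 2) := Real.one_le_rpow hR (by positivity)
    rw [hP1]
    refine le_mul_of_one_le_right (by positivity) ?_
    nlinarith
  have hP0 : 0 ≤ P := le_trans (by positivity) hRP
  have hmain : Cm * K ^ 12 / ν * (Cb * (1 / R) * (Ck * (L * K) ^ 3 * (1 + Real.log R) ^ 2)) ≤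
      Cm * Cb * Ck * L ^ 3 * (1 + 4 / ε) ^ 2 * (P / ν) := by
    calc Cm * K ^ 12 / ν * (Cb * (1 / R) * (Ck * (L * K) ^ 3 * (1 + Real.log R) ^ 2)) =
          Cm * Cb * Ck * L ^ 3 * (1 / R) / ν * (K ^ 15 * (1 + Real.log R) ^ 2) := by ring
      _ ≤ Cm * Cb * Ck * L ^ 3 * (1 / R) / ν *
          (R ^ (ε / 2) * ((1 + 4 / ε) ^ 2 * R ^ (ε / 2))) := by gcongr
      _ = Cm * Cb * Ck * L ^ 3 * (1 + 4 / ε) ^ 2 *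
          ((1 / R * (R ^ (ε / 2) * R ^ (ε / 2))) / ν) := by ring
      _ = _ := by rw [← hP1]
  have he1 : e ≤ Ce * (R ^ 20)⁻¹ := he.trans (by gcongr)
  have he4 : e ^ 4 ≤ Ce ^ 4 * (R ^ 20)⁻¹ := by
    calc e ^ 4 ≤ (Ce * (K ^ N)⁻¹) ^ 4 := by gcongr
      _ = Ce ^ 4 * ((K ^ N)⁻¹ * (K ^ N)⁻¹ * (K ^ N)⁻¹ * (K ^ N)⁻¹) := by ring
      _ ≤ Ce ^ 4 * (1 * 1 * 1 * (R ^ 20)⁻¹) := by gcongr
      _ = _ := by ring
  have hε21 : ε2 ≤ Co * R ^ 3 * (R ^ 20)⁻¹ := hε2.trans (by gcongr)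
  have hp1 : R ^ 19 * (R ^ 20)⁻¹ = 1 / R := by
    field_simp
  have hp2 : R ^ 11 * (R ^ 20)⁻¹ ≤ 1 / R := by
    rw [← hp1]
    gcongr
    norm_num
  have hE1 : Cm * K ^ 12 / ν * (2 * (n0 * e ^ 2) ^ 2 * v) ≤
      2 * Cm * Cκ ^ 2 * Ce ^ 4 * Cv * (P / ν) := by
    calc Cm * K ^ 12 / ν * (2 * (n0 * e ^ 2) ^ 2 * v) =
          2 * Cm * K ^ 12 / ν * (n0 ^ 2 * e ^ 4 * v) := by ring
      _ ≤ 2 * Cm * R ^ 12 / ν * ((Cκ * R ^ 2) ^ 2 * (Ce ^ 4 * (R ^ 20)⁻¹) * (Cv * R ^ 3)) := by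
          gcongr
      _ = 2 * Cm * Cκ ^ 2 * Ce ^ 4 * Cv * ((R ^ 19 * (R ^ 20)⁻¹) / ν) := by ring
      _ ≤ _ := by
          rw [hp1]
          gcongr
  have hPν : P ≤ 2 * (P / ν) := by
    rw [← mul_div_assoc, le_div_iff₀ hν]
    nlinarith
  have hE2 : n0 ^ 4 * (e * S ^ 3 * v + ε2) ≤
      2 * Cκ ^ 4 * (Ce * S ^ 3 * Cv + Co) * (P / ν) := by
    calc n0 ^ 4 * (e * S ^ 3 * v + ε2) ≤ (Cκ * R ^ 2) ^ 4 *
          (Ce * (R ^ 20)⁻¹ * S ^ 3 * (Cv * R ^ 3) + Co * R ^ 3 * (R ^ 20)⁻¹) := by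
          gcongr
      _ = Cκ ^ 4 * (Ce * S ^ 3 * Cv + Co) * (R ^ 11 * (R ^ 20)⁻¹) := by ring
      _ ≤ Cκ ^ 4 * (Ce * S ^ 3 * Cv + Co) * (2 * (P / ν)) :=
          mul_le_mul_of_nonneg_left (hp2.trans (hRP.trans hPν)) (by positivity)
      _ = _ := by ring
  calc _ = Cm * K ^ 12 / ν * (Cb * (1 / R) * (Ck * (L * K) ^ 3 * (1 + Real.log R) ^ 2)) +
        Cm * K ^ 12 / ν * (2 * (n0 * e ^ 2) ^ 2 * v) + n0 ^ 4 * (e * S ^ 3 * v + ε2) := by ring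
    _ ≤ _ := by
        refine (add_le_add (add_le_add hmain hE1) hE2).trans (le_of_eq ?_)
        ring

end Pool.Agent.LQ
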