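import Pool.Agent.LF.COREA1

/-!
LEAFQ, row `core_q`: orthogonality for a relation of four caps which is only counted.
-/

set_option autoImplicit false

namespace Pool.Agent.LQ

open MeasureTheory Set Finset
open scoped ENNReal Real ComplexConjugate

/-- **(ORTH), with a counted relation.** If the integral of `f c₁ f c₂ conj (f c₃) conj (f c₄)` is at
most `ε` unless the four indices are related, and for given `c₁`, `c₂` there are at most `M` pairs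
`(c₃, c₄)`, the fourth moment of the sum is bounded by that of the square function. -/
theorem lq_orth {κ α : Type*} [Fintype κ] [MeasurableSpace α] (μ : Measure α) [IsFiniteMeasure μ]
    (rel : κ → κ → κ → κ → Prop) (hsym : ∀ c1 c2 c3 c4, rel c1 c2 c3 c4 → rel c3 c4 c1 c2)
    {M B ε : ℝ} (hε : 0 ≤ ε) (hM : ∀ c1 c2, ({q : κ × κ | rel c1 c2 q.1 q.2}.ncard : ℝ) ≤ M)
    (f : κ → α → ℂ) (hf : ∀ c, Measurable (f c)) (hB : ∀ c x, ‖f c x‖ ≤ B)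
    (h : ∀ c1 c2 c3 c4, ¬rel c1 c2 c3 c4 →
      ‖∫ x, f c1 x * f c2 x * conj (f c3 x) * conj (f c4 x) ∂μ‖ ≤ ε) :
    ∫ x, ‖∑ c, f c x‖ ^ 4 ∂μ ≤
      M * ∫ x, (∑ c, ‖f c x‖ ^ 2) ^ 2 ∂μ + (Fintype.card κ : ℝ) ^ 4 * ε := by
  classical
  -- the products
  set g : (κ × κ) × κ × κ → α → ℂ := fun q x =>
    f q.1.1 x * f q.1.2 x * conj (f q.2.1 x) * conj (f q.2.2 x) with hg
  set b : κ × κ → α → ℝ := fun p x => ‖f p.1 x‖ * ‖f p.2 x‖ with hb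
  have hga : ∀ q x, ‖g q x‖ = b q.1 x * b q.2 x := by
    intro q x
    simp only [hg, hb, norm_mul, RCLike.norm_conj]
    ring
  have hgm : ∀ q, Measurable (g q) := fun q =>
    (((hf _).mul (hf _)).mul (Complex.continuous_conj.measurable.comp (hf _))).mul
      (Complex.continuous_conj.measurable.comp (hf _))
  have hbm : ∀ p, Measurable (b p) := fun p => (hf _).norm.mul (hf _).norm
  have hb0 : ∀ p x, 0 ≤ b p x := fun p x => by simp only [hb]; positivity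
  have hb2 : ∀ p x, b p x ≤ B ^ 2 := by
    intro p x
    have hB0 : 0 ≤ B := (norm_nonneg _).trans (hB p.1 x)
    calc b p x ≤ B * B := by
          simp only [hb]
          gcongr <;> exact hB _ _
      _ = B ^ 2 := by ring
  have hgi : ∀ q, Integrable (g q) μ := fun q =>
    Integrable.of_bound (hgm q).aestronglyMeasurable (B ^ 2 * B ^ 2)
      (Filter.Eventually.of_forall fun x => (hga q x).le.trans
        (mul_le_mul (hb2 _ _) (hb2 _ _) (hb0 _ _) ((hb0 q.1 x).trans (hb2 q.1 x))))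
  have hbi : ∀ p, Integrable (fun x => b p x ^ 2) μ := fun p =>
    Integrable.of_bound ((hbm p).pow_const 2).aestronglyMeasurable ((B ^ 2) ^ 2)
      (Filter.Eventually.of_forall fun x => by
        rw [Real.norm_of_nonneg (by positivity)]
        exact pow_le_pow_left₀ (hb0 _ _) (hb2 _ _) 2)
  -- the expansion
  have hexp : ∀ x, ((‖∑ c, f c x‖ ^ 4 : ℝ) : ℂ) = ∑ q, g q x := by
    intro x
    have e1 : ((‖∑ c, f c x‖ ^ 4 : ℝ) : ℂ) =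
        ((∑ c, f c x) * ∑ c, f c x) * ((∑ c, conj (f c x)) * ∑ c, conj (f c x)) := by
      rw [← map_sum]
      set F := ∑ c, f c x
      have e2 : F * conj F = ((‖F‖ ^ 2 : ℝ) : ℂ) := by
        rw [Complex.mul_conj, Complex.normSq_eq_norm_sq]
      calc ((‖F‖ ^ 4 : ℝ) : ℂ) = ((‖F‖ ^ 2 : ℝ) : ℂ) * ((‖F‖ ^ 2 : ℝ) : ℂ) := by
            push_cast; ring
        _ = (F * conj F) * (F * conj F) := by rw [e2]
        _ = _ := by ring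
    rw [e1, Finset.sum_mul_sum, Finset.sum_mul_sum]
    simp only [hg, Fintype.sum_prod_type]
    rw [Finset.sum_mul]
    refine sum_congr rfl fun c1 _ => ?_
    rw [Finset.sum_mul]
    refine sum_congr rfl fun c2 _ => ?_
    rw [mul_sum]
    refine sum_congr rfl fun c3 _ => ?_
    rw [mul_sum]
    refine sum_congr rfl fun c4 _ => ?_
    ring
  have hI : ∫ x, ‖∑ c, f c x‖ ^ 4 ∂μ ≤ ∑ q, ‖∫ x, g q x ∂μ‖ := by
    have e1 : ((∫ x, ‖∑ c, f c x‖ ^ 4 ∂μ : ℝ) : ℂ) = ∑ q, ∫ x, g q x ∂μ := by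
      rw [← integral_complex_ofReal, ← integral_finsetSum _ fun q _ => hgi q]
      exact integral_congr_ae (Filter.Eventually.of_forall hexp)
    calc ∫ x, ‖∑ c, f c x‖ ^ 4 ∂μ ≤ ‖((∫ x, ‖∑ c, f c x‖ ^ 4 ∂μ : ℝ) : ℂ)‖ := by
          rw [Complex.norm_real]
          exact Real.le_norm_self _
      _ = ‖∑ q, ∫ x, g q x ∂μ‖ := by rw [e1]
      _ ≤ _ := norm_sum_le _ _
  -- the square function
  set J : κ × κ → ℝ := fun p => ∫ x, b p x ^ 2 ∂μ with hJ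
  have hJ0 : ∀ p, 0 ≤ J p := fun p => integral_nonneg fun x => by positivity
  have hJs : ∑ p, J p = ∫ x, (∑ c, ‖f c x‖ ^ 2) ^ 2 ∂μ := by
    simp only [hJ]
    rw [← integral_finsetSum _ fun p _ => hbi p]
    refine integral_congr_ae (Filter.Eventually.of_forall fun x => ?_)
    simp only [hb, Fintype.sum_prod_type]
    rw [sq, sum_mul_sum]
    refine sum_congr rfl fun c1 _ => sum_congr rfl fun c2 _ => ?_
    ring
  have hterm : ∀ q, ‖∫ x, g q x ∂μ‖ ≤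
      (if rel q.1.1 q.1.2 q.2.1 q.2.2 then J q.1 / 2 else 0) +
        (if rel q.2.1 q.2.2 q.1.1 q.1.2 then J q.2 / 2 else 0) + ε := by
    intro q
    by_cases hn : rel q.1.1 q.1.2 q.2.1 q.2.2
    · rw [if_pos hn, if_pos (hsym _ _ _ _ hn)]
      have h1 : ‖∫ x, g q x ∂μ‖ ≤ ∫ x, (b q.1 x ^ 2 / 2 + b q.2 x ^ 2 / 2) ∂μ := by
        refine (norm_integral_le_integral_norm _).trans ?_
        refine integral_mono (hgi q).norm (((hbi q.1).div_const 2).add ((hbi q.2).div_const 2))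
          fun x => ?_
        simp only [hga]
        nlinarith [sq_nonneg (b q.1 x - b q.2 x)]
      rw [integral_add ((hbi q.1).div_const 2) ((hbi q.2).div_const 2), integral_div,
        integral_div] at h1
      linarith
    · have h1 := h _ _ _ _ hn
      have h2 : ‖∫ x, g q x ∂μ‖ ≤ ε := h1
      have h3 : 0 ≤ (if rel q.1.1 q.1.2 q.2.1 q.2.2 then J q.1 / 2 else 0) := by
        have := hJ0 q.1
        split_ifs <;> linarith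
      have h4 : 0 ≤ (if rel q.2.1 q.2.2 q.1.1 q.1.2 then J q.2 / 2 else 0) := by
        have := hJ0 q.2
        split_ifs <;> linarith
      linarith
  have hcard : ∀ p : κ × κ,
      ((univ.filter fun q : κ × κ => rel p.1 p.2 q.1 q.2).card : ℝ) ≤ M := by
    intro p
    refine le_trans (le_of_eq ?_) (hM p.1 p.2)
    congr 1
    rw [← Set.ncard_coe_finset]
    congr 1
    ext c'
    simp
  have hhalf : ∑ p : κ × κ, ∑ q : κ × κ, (if rel p.1 p.2 q.1 q.2 then J p / 2 else 0) ≤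
      M / 2 * ∑ p, J p := by
    rw [mul_sum]
    refine sum_le_sum fun p _ => ?_
    rw [← sum_filter, sum_const, nsmul_eq_mul]
    have h3 := mul_le_mul_of_nonneg_right (hcard p) (by have := hJ0 p; linarith : 0 ≤ J p / 2)
    linarith
  have hsum : ∑ q, ‖∫ x, g q x ∂μ‖ ≤ M * ∑ p, J p + (Fintype.card κ : ℝ) ^ 4 * ε := by
    have h1 := sum_le_sum fun q (_ : q ∈ (univ : Finset ((κ × κ) × κ × κ))) => hterm q
    refine h1.trans ?_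
    rw [sum_add_distrib, sum_add_distrib]
    have h2 : ∑ _q : (κ × κ) × κ × κ, ε = (Fintype.card κ : ℝ) ^ 4 * ε := by
      rw [sum_const, nsmul_eq_mul, card_univ]
      simp only [Fintype.card_prod]
      push_cast
      ring
    have h3 : ∑ q : (κ × κ) × κ × κ, (if rel q.1.1 q.1.2 q.2.1 q.2.2 then J q.1 / 2 else 0) ≤
        M / 2 * ∑ p, J p := by
      rw [Fintype.sum_prod_type]
      exact hhalf
    have h4 : ∑ q : (κ × κ) × κ × κ, (if rel q.2.1 q.2.2 q.1.1 q.1.2 then J q.2 / 2 else 0) ≤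
        M / 2 * ∑ p, J p := by
      rw [Fintype.sum_prod_type, sum_comm]
      exact hhalf
    linarith
  rw [hJs] at hsum
  exact hI.trans hsum

/-- **(CORE-A) with a counted relation**, on a finite measure carried by `A`. `V ξ` is the derivative of
the phase along the leaves, `T c` the region of the cap `c`, `pc c` its centre. -/
theorem core_q {κ P W E : Type*} [Fintype κ] [NormedAddCommGroup W] [NormedAddCommGroup E]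
    [MeasurableSpace E] (μ : Measure E) [IsFiniteMeasure μ] {A : Set E} (hA : ∀ᵐ ξ ∂μ, ξ ∈ A)
    {X : P → E} {V : E → P → W} (pc : κ → P) (T : κ → Set P)
    {e θ θ' M B ε1 ε2 : ℝ} (hε1 : 0 ≤ ε1)
    (hV : ∀ ξ ∈ A, ∀ a, ∀ p ∈ T a, ‖V ξ (pc a)‖ ≤ θ → ‖V ξ p‖ ≤ θ')
    (hM : ∀ a b, ({q : κ × κ | ∃ ξ ∈ A, ∃ p1 ∈ T a, ∃ p2 ∈ T b, ∃ p3 ∈ T q.1, ∃ p4 ∈ T q.2,
      (‖V ξ p1‖ ≤ θ' ∧ ‖V ξ p2‖ ≤ θ' ∧ ‖V ξ p3‖ ≤ θ' ∧ ‖V ξ p4‖ ≤ θ') ∧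
        ‖X p1 + X p2 - X p3 - X p4‖ ≤ e}.ncard : ℝ) ≤ M)
    (f : κ → E → ℂ) (hf : ∀ a, Measurable (f a)) (hB : ∀ a ξ, ‖f a ξ‖ ≤ B)
    (hnsp : ∀ a, ∀ ξ ∈ A, θ < ‖V ξ (pc a)‖ → ‖f a ξ‖ ≤ ε1)
    (horth : ∀ a1 a2 a3 a4, (∀ p1 ∈ T a1, ∀ p2 ∈ T a2, ∀ p3 ∈ T a3, ∀ p4 ∈ T a4,
      e < ‖X p1 + X p2 - X p3 - X p4‖) →
      ‖∫ ξ, f a1 ξ * f a2 ξ * conj (f a3 ξ) * conj (f a4 ξ) ∂μ‖ ≤ ε2) :
    ∫ ξ, ‖∑ a, f a ξ‖ ^ 4 ∂μ ≤ M * ∫ ξ, (∑ a, ‖f a ξ‖ ^ 2) ^ 2 ∂μ +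
      (Fintype.card κ : ℝ) ^ 4 * max (ε1 * B ^ 3 * μ.real univ) ε2 := by
  by_cases hκ : IsEmpty κ
  · simp
  rw [not_isEmpty_iff] at hκ
  obtain ⟨a0⟩ := hκ
  have hB0 : 0 ≤ B := (norm_nonneg _).trans (hB a0 0)
  have hμ0 : 0 ≤ μ.real univ := measureReal_nonneg
  refine lq_orth μ (fun a b c d => ∃ ξ ∈ A, ∃ p1 ∈ T a, ∃ p2 ∈ T b, ∃ p3 ∈ T c, ∃ p4 ∈ T d,
      (‖V ξ p1‖ ≤ θ' ∧ ‖V ξ p2‖ ≤ θ' ∧ ‖V ξ p3‖ ≤ θ' ∧ ‖V ξ p4‖ ≤ θ') ∧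
        ‖X p1 + X p2 - X p3 - X p4‖ ≤ e) ?_ (le_max_of_le_left (by positivity)) hM f hf hB ?_
  · rintro a b c d ⟨ξ, hξ, p1, h1, p2, h2, p3, h3, p4, h4, ⟨v1, v2, v3, v4⟩, h5⟩
    refine ⟨ξ, hξ, p3, h3, p4, h4, p1, h1, p2, h2, ⟨v3, v4, v1, v2⟩, ?_⟩
    rw [← norm_neg]
    have e1 : -(X p3 + X p4 - X p1 - X p2) = X p1 + X p2 - X p3 - X p4 := by abel
    rw [e1]
    exact h5
  intro a1 a2 a3 a4 hfar
  by_cases hX : ∀ p1 ∈ T a1, ∀ p2 ∈ T a2, ∀ p3 ∈ T a3, ∀ p4 ∈ T a4,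
      e < ‖X p1 + X p2 - X p3 - X p4‖
  · exact (horth a1 a2 a3 a4 hX).trans (le_max_right _ _)
  push Not at hX
  obtain ⟨p1, h1, p2, h2, p3, h3, p4, h4, he⟩ := hX
  refine le_trans ?_ (le_max_left _ _)
  refine LF.ca_small μ hA hε1 (hB a1) (hB a2) (hB a3) (hB a4) ?_
  intro ξ hξ
  by_contra hcon
  push Not at hcon
  obtain ⟨c1, c2, c3, c4⟩ := hcon
  have hθ : ∀ a, ε1 < ‖f a ξ‖ → ‖V ξ (pc a)‖ ≤ θ := by
    intro a ha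
    by_contra h5
    push Not at h5
    exact absurd (hnsp a ξ hξ h5) (not_le.2 ha)
  exact hfar ⟨ξ, hξ, p1, h1, p2, h2, p3, h3, p4, h4, ⟨hV ξ hξ a1 p1 h1 (hθ a1 c1),
    hV ξ hξ a2 p2 h2 (hθ a2 c2), hV ξ hξ a3 p3 h3 (hθ a3 c3), hV ξ hξ a4 p4 h4 (hθ a4 c4)⟩, he⟩

/-- **(CORE-A) with a counted relation**, in the annulus. -/
theorem coreAq {n : ℕ} {P W : Type*} [NormedAddCommGroup W] [NormedSpace ℝ W]
    (X : P → EuclideanSpace ℝ (Fin n)) (V : EuclideanSpace ℝ (Fin n) → P → W)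
    {R Λ e ε2 B M K : ℝ} {η : EuclideanSpace ℝ (Fin n) → ℝ} (hR : 0 < R) (he : 0 ≤ e)
    (hε2 : 0 ≤ ε2) (hVh : ∀ (s : ℝ) w p, V (s • w) p = s • V w p)
    (hηc : Continuous η) (hη0 : ∀ x, 0 ≤ η x) (hη1 : ∀ x, η x ≤ 1)
    (hηo : ∀ x, 1 ≤ ‖x‖ → ‖x‖ ≤ 2 → η x = 1) (hηs : ∀ x, η x ≠ 0 → 1 / 2 ≤ ‖x‖ ∧ ‖x‖ ≤ 4)
    {κ : Type*} [Fintype κ] (pc : κ → P) (T : κ → Set P) (f : κ → EuclideanSpace ℝ (Fin n) → ℂ)
    (hV : ∀ ξ, R / 2 ≤ ‖ξ‖ → ‖ξ‖ ≤ 4 * R → ∀ a, ∀ p ∈ T a, ‖V ξ (pc a)‖ ≤ Λ → ‖V ξ p‖ ≤ K * Λ)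
    (hM : ∀ a b, ({q : κ × κ | ∃ w, (1 / 2 ≤ ‖w‖ ∧ ‖w‖ ≤ 4) ∧
      ∃ p1 ∈ T a, ∃ p2 ∈ T b, ∃ p3 ∈ T q.1, ∃ p4 ∈ T q.2,
      (‖V w p1‖ ≤ K * (Λ / R) ∧ ‖V w p2‖ ≤ K * (Λ / R) ∧ ‖V w p3‖ ≤ K * (Λ / R) ∧
        ‖V w p4‖ ≤ K * (Λ / R)) ∧
        ‖X p1 + X p2 - X p3 - X p4‖ ≤ (Λ / R) ^ 2}.ncard : ℝ) ≤ M)
    (hf : ∀ a, Measurable (f a)) (hB : ∀ a ξ, ‖f a ξ‖ ≤ B)
    (hnsp : ∀ a ξ, R / 2 ≤ ‖ξ‖ → ‖ξ‖ ≤ 4 * R → Λ ≤ ‖V ξ (pc a)‖ → ‖f a ξ‖ ≤ e)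
    (horth : ∀ a1 a2 a3 a4, (∀ p1 ∈ T a1, ∀ p2 ∈ T a2, ∀ p3 ∈ T a3, ∀ p4 ∈ T a4,
      (Λ / R) ^ 2 < ‖X p1 + X p2 - X p3 - X p4‖) →
      ‖∫ ξ, (η (R⁻¹ • ξ) : ℂ) * (f a1 ξ * f a2 ξ * conj (f a3 ξ) * conj (f a4 ξ))‖ ≤ ε2) :
    ∫⁻ ξ in {ξ : EuclideanSpace ℝ (Fin n) | R ≤ ‖ξ‖ ∧ ‖ξ‖ ≤ 2 * R}, ‖∑ a, f a ξ‖ₑ ^ 4 ≤
      ENNReal.ofReal M *
        (∫⁻ ξ in {ξ : EuclideanSpace ℝ (Fin n) | R / 2 ≤ ‖ξ‖ ∧ ‖ξ‖ ≤ 4 * R},
          (∑ a, ‖f a ξ‖ₑ ^ 2) ^ 2) +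
      ENNReal.ofReal ((Fintype.card κ : ℝ) ^ 4 * (e * B ^ 3 *
        (volume : Measure (EuclideanSpace ℝ (Fin n))).real
          {ξ : EuclideanSpace ℝ (Fin n) | R / 2 ≤ ‖ξ‖ ∧ ‖ξ‖ ≤ 4 * R} + ε2)) := by
  by_cases hκ : IsEmpty κ
  · simp
  rw [not_isEmpty_iff] at hκ
  obtain ⟨a0⟩ := hκ
  have hB0 : 0 ≤ B := (norm_nonneg _).trans (hB a0 0)
  have hM0 : 0 ≤ M := le_trans (Nat.cast_nonneg _) (hM a0 a0)
  set μ := LF.ca_mu η R with hμ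
  have hfin : μ univ ≤ volume (LF.ca_an n R) := LF.ca_mu_fin hR hη1 hηs hηc
  have : IsFiniteMeasure μ := ⟨hfin.trans_lt (LF.ca_an_fin n R).lt_top⟩
  -- the estimate at one scale
  have key := core_q μ (A := LF.ca_an n R) (LF.ca_mu_ae hR hηs hηc) (X := X) (V := V)
    pc T (e := (Λ / R) ^ 2) (θ := Λ) (θ' := K * Λ) (M := M) (B := B) (ε1 := e) (ε2 := ε2) he
    (fun ξ hξ a p hp => hV ξ hξ.1 hξ.2 a p hp)
    (fun a b => by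
      refine le_trans ?_ (hM a b)
      refine Nat.cast_le.2 (Set.ncard_le_ncard ?_ (Set.toFinite _))
      rintro q ⟨ξ, hξ, p1, h1, p2, h2, p3, h3, p4, h4, ⟨v1, v2, v3, v4⟩, h5⟩
      have hw : ‖R⁻¹ • ξ‖ = R⁻¹ * ‖ξ‖ := by
        rw [norm_smul, norm_inv, Real.norm_of_nonneg hR.le]
      have hVw : ∀ p, ‖V ξ p‖ ≤ K * Λ → ‖V (R⁻¹ • ξ) p‖ ≤ K * (Λ / R) := by
        intro p h
        rw [hVh, norm_smul, norm_inv, Real.norm_of_nonneg hR.le, inv_mul_le_iff₀ hR]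
        refine h.trans (le_of_eq ?_)
        field_simp
      refine ⟨R⁻¹ • ξ, ⟨?_, ?_⟩, p1, h1, p2, h2, p3, h3, p4, h4,
        ⟨hVw _ v1, hVw _ v2, hVw _ v3, hVw _ v4⟩, h5⟩
      · rw [hw, le_inv_mul_iff₀ hR]
        linarith [hξ.1]
      · rw [hw, inv_mul_le_iff₀ hR]
        linarith [hξ.2])
    f hf hB (fun a ξ hξ h1 => hnsp a ξ hξ.1 hξ.2 h1.le)
    (fun a1 a2 a3 a4 h => by
      rw [hμ, LF.ca_mu_int hη0 hηc]
      exact horth a1 a2 a3 a4 h)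
  -- measurability
  have hms : Measurable fun ξ => ∑ a, f a ξ := Finset.measurable_fun_sum _ fun a _ => hf a
  have hm1 : Measurable fun ξ => ‖∑ a, f a ξ‖ₑ ^ 4 := hms.enorm.pow_const 4
  have hm2 : Measurable fun ξ => (∑ a, ‖f a ξ‖ₑ ^ 2) ^ 2 :=
    (Finset.measurable_fun_sum _ fun a _ => (hf a).enorm.pow_const 2).pow_const 2
  have hsum : ∀ ξ, ‖∑ a, f a ξ‖ ≤ ∑ _a : κ, B := fun ξ =>
    (norm_sum_le _ _).trans (Finset.sum_le_sum fun a _ => hB a ξ)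
  have hsq : ∀ ξ, ∑ a, ‖f a ξ‖ ^ 2 ≤ ∑ _a : κ, B ^ 2 := fun ξ =>
    Finset.sum_le_sum fun a _ => pow_le_pow_left₀ (norm_nonneg _) (hB a ξ) 2
  have hi1 : Integrable (fun ξ => ‖∑ a, f a ξ‖ ^ 4) μ := by
    refine Integrable.of_bound (hms.norm.pow_const 4).aestronglyMeasurable ((∑ _a : κ, B) ^ 4)
      (Filter.Eventually.of_forall fun ξ => ?_)
    rw [Real.norm_of_nonneg (by positivity)]
    exact pow_le_pow_left₀ (norm_nonneg _) (hsum ξ) 4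
  have hi2 : Integrable (fun ξ => (∑ a, ‖f a ξ‖ ^ 2) ^ 2) μ := by
    refine Integrable.of_bound ((Finset.measurable_fun_sum _ fun a _ =>
      (hf a).norm.pow_const 2).pow_const 2).aestronglyMeasurable ((∑ _a : κ, B ^ 2) ^ 2)
      (Filter.Eventually.of_forall fun ξ => ?_)
    rw [Real.norm_of_nonneg (by positivity)]
    exact pow_le_pow_left₀ (by positivity) (hsq ξ) 2
  have e1 : ∫⁻ ξ, ‖∑ a, f a ξ‖ₑ ^ 4 ∂μ = ENNReal.ofReal (∫ ξ, ‖∑ a, f a ξ‖ ^ 4 ∂μ) := by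
    rw [ofReal_integral_eq_lintegral_ofReal hi1 (Filter.Eventually.of_forall fun ξ => by positivity)]
    refine lintegral_congr fun ξ => ?_
    rw [ENNReal.ofReal_pow (norm_nonneg _), ofReal_norm]
  have e2 : ENNReal.ofReal (∫ ξ, (∑ a, ‖f a ξ‖ ^ 2) ^ 2 ∂μ) =
      ∫⁻ ξ, (∑ a, ‖f a ξ‖ₑ ^ 2) ^ 2 ∂μ := by
    rw [ofReal_integral_eq_lintegral_ofReal hi2 (Filter.Eventually.of_forall fun ξ => by positivity)]
    refine lintegral_congr fun ξ => ?_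
    rw [ENNReal.ofReal_pow (by positivity), ENNReal.ofReal_sum_of_nonneg fun a _ => by positivity]
    congr 1
    refine Finset.sum_congr rfl fun a _ => ?_
    rw [ENNReal.ofReal_pow (norm_nonneg _), ofReal_norm]
  have hreal : μ.real univ ≤
      (volume : Measure (EuclideanSpace ℝ (Fin n))).real (LF.ca_an n R) := by
    unfold Measure.real
    exact ENNReal.toReal_mono (LF.ca_an_fin n R) hfin
  have hi0 : 0 ≤ ∫ ξ, (∑ a, ‖f a ξ‖ ^ 2) ^ 2 ∂μ := integral_nonneg fun ξ => by positivity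
  calc ∫⁻ ξ in {ξ : EuclideanSpace ℝ (Fin n) | R ≤ ‖ξ‖ ∧ ‖ξ‖ ≤ 2 * R}, ‖∑ a, f a ξ‖ₑ ^ 4
      ≤ ∫⁻ ξ, ‖∑ a, f a ξ‖ₑ ^ 4 ∂μ := LF.ca_mu_ge hR hηo hηc hm1
    _ = ENNReal.ofReal (∫ ξ, ‖∑ a, f a ξ‖ ^ 4 ∂μ) := e1
    _ ≤ ENNReal.ofReal (M * ∫ ξ, (∑ a, ‖f a ξ‖ ^ 2) ^ 2 ∂μ +
          (Fintype.card κ : ℝ) ^ 4 * max (e * B ^ 3 * μ.real univ) ε2) :=
        ENNReal.ofReal_le_ofReal key
    _ ≤ ENNReal.ofReal (M * ∫ ξ, (∑ a, ‖f a ξ‖ ^ 2) ^ 2 ∂μ +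
          (Fintype.card κ : ℝ) ^ 4 * (e * B ^ 3 *
            (volume : Measure (EuclideanSpace ℝ (Fin n))).real (LF.ca_an n R) + ε2)) := by
        refine ENNReal.ofReal_le_ofReal ?_
        have h1 : max (e * B ^ 3 * μ.real univ) ε2 ≤ e * B ^ 3 *
            (volume : Measure (EuclideanSpace ℝ (Fin n))).real (LF.ca_an n R) + ε2 := by
          have h2 : e * B ^ 3 * μ.real univ ≤ e * B ^ 3 *
              (volume : Measure (EuclideanSpace ℝ (Fin n))).real (LF.ca_an n R) :=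
            mul_le_mul_of_nonneg_left hreal (by positivity)
          have h3 : 0 ≤ e * B ^ 3 *
              (volume : Measure (EuclideanSpace ℝ (Fin n))).real (LF.ca_an n R) := by positivity
          exact max_le (by linarith) (by linarith)
        have h2 : (0 : ℝ) ≤ (Fintype.card κ : ℝ) ^ 4 := by positivity
        linarith [mul_le_mul_of_nonneg_left h1 h2]
    _ = ENNReal.ofReal M * ∫⁻ ξ, (∑ a, ‖f a ξ‖ₑ ^ 2) ^ 2 ∂μ +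
          ENNReal.ofReal ((Fintype.card κ : ℝ) ^ 4 * (e * B ^ 3 *
            (volume : Measure (EuclideanSpace ℝ (Fin n))).real (LF.ca_an n R) + ε2)) := by
        rw [ENNReal.ofReal_add (by positivity) (by positivity), ENNReal.ofReal_mul hM0, e2]
    _ ≤ ENNReal.ofReal M *
            (∫⁻ ξ in {ξ : EuclideanSpace ℝ (Fin n) | R / 2 ≤ ‖ξ‖ ∧ ‖ξ‖ ≤ 4 * R},
              (∑ a, ‖f a ξ‖ₑ ^ 2) ^ 2) +
          ENNReal.ofReal ((Fintype.card κ : ℝ) ^ 4 * (e * B ^ 3 *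
            (volume : Measure (EuclideanSpace ℝ (Fin n))).real
              {ξ : EuclideanSpace ℝ (Fin n) | R / 2 ≤ ‖ξ‖ ∧ ‖ξ‖ ≤ 4 * R} + ε2)) := by
        have h1 : ∫⁻ ξ, (∑ a, ‖f a ξ‖ₑ ^ 2) ^ 2 ∂μ ≤
            ∫⁻ ξ in {ξ : EuclideanSpace ℝ (Fin n) | R / 2 ≤ ‖ξ‖ ∧ ‖ξ‖ ≤ 4 * R},
              (∑ a, ‖f a ξ‖ₑ ^ 2) ^ 2 := LF.ca_mu_le hR hη1 hηs hηc hm2
        exact add_le_add (mul_le_mul' le_rfl h1) le_rfl

end Pool.Agent.LQ
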