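import Pool.Agent.LQ.Df2
import Pool.Agent.LQ.COREBQ
import Pool.Agent.LQ.CQN
import Pool.Agent.LQ.ORTH
import Pool.Agent.LEAF.DOMW
import Pool.Agent.LF.CORE2

/-!
LEAFQ: COREQ, the `L^4` bound of a box, over the counting of related quadruples and the counting
of KAK.
-/

set_option autoImplicit false

namespace Pool.Agent.LQ

open MeasureTheory Set Metric Pool.Agent.MP_6cbfb8_an Pool.Agent.LF
open scoped RealInnerProductSpace ContDiff ENNReal NNReal ComplexConjugate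

theorem cq_vol (p0 : ℝ × E 1) (r : ℝ) :
    volume.real (closedBall p0 r) = volume.real (closedBall (0 : ℝ × E 1) r) := by
  have h1 : (volume : Measure (ℝ × E 1)).IsAddHaarMeasure :=
    Measure.prod.instIsAddHaarMeasure volume volume
  rw [measureReal_def, measureReal_def, Measure.addHaar_closedBall_center]

/-- COREQ over the two countings. -/
theorem coreQ_of {α β : ℝ} {X : ℝ → ℝ × E 1 → E 3} {A : ℕ → ℝ} (hX : SF α β X A)
    (hkqe : ∃ C c1 : ℝ, 0 < C ∧ 0 < c1 ∧ ∀ c0, 0 < c0 → c0 ≤ c1 →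
      ∀ d, 0 ≤ d → d ≤ 1 → ∀ (t0 : ℝ) (z0 : E 1), Rs α β d t0 (z0 0) → z0 0 ≠ 0 →
      ∀ R Λ, 1 ≤ R → 1 ≤ R * z0 0 ^ 2 → √R ≤ Λ →
        ∀ (ι : Type) [Fintype ι] (t : ι → ℝ) (g : ι → ℝ → ℝ≥0∞), (∀ i, |t i - t0| ≤ c0) →
        (∀ i j, i ≠ j → 1 / √R ≤ |t i - t j|) → (∀ i, Measurable (g i)) →
        (∀ i, ∫⁻ τ, g i τ ≤ ENNReal.ofReal (1 / √R)) →
        (∀ i τ, g i τ ≤ ENNReal.ofReal (1 / R)) →
        ∫⁻ ξ in {ξ : E 3 | R / 2 ≤ ‖ξ‖ ∧ ‖ξ‖ ≤ 4 * R},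
            (∑ i, ∫⁻ z in closedBall z0 (c0 * |z0 0|),
              ({z | ‖Vw (X d) ξ (t i, z)‖ ≤ Λ}.indicator
                fun z => g i ⟪ξ, Xt (X d) (t i, z)⟫) z) ^ 2 ≤
          ENNReal.ofReal (C * (Λ / √R) ^ 3 * (1 + Real.log R) ^ 2))
    (hhm : ∃ C c1 : ℝ, 0 < C ∧ 0 < c1 ∧ ∀ c0, 0 < c0 → c0 ≤ c1 → ∀ d, 0 ≤ d → d ≤ 1 →
      ∀ (t0 : ℝ) (z0 : E 1), Rs α β d t0 (z0 0) → z0 0 ≠ 0 → ∀ (r K : ℝ) (M : ℕ), 0 < r →
      r ≤ 1 → 1 ≤ K → r ≤ |z0 0| → ∀ T : ↥(gi M ×ˢ gk 1 M) → Set (ℝ × E 1),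
      (∀ a, ∀ p ∈ T a, ‖p - pcs (t0, z0) r M a.1‖ ≤ r ∧ |p.1 - t0| ≤ c0 ∧
        ‖p.2 - z0‖ ≤ c0 * |z0 0|) →
      ∀ a b, ({q : ↥(gi M ×ˢ gk 1 M) × ↥(gi M ×ˢ gk 1 M) | ∃ w : E 3,
        (1 / 2 ≤ ‖w‖ ∧ ‖w‖ ≤ 4) ∧ ∃ p1 ∈ T a, ∃ p2 ∈ T b, ∃ p3 ∈ T q.1, ∃ p4 ∈ T q.2,
        (‖Vw (X d) w p1‖ ≤ K * r ∧ ‖Vw (X d) w p2‖ ≤ K * r ∧ ‖Vw (X d) w p3‖ ≤ K * r ∧
          ‖Vw (X d) w p4‖ ≤ K * r) ∧
          ‖X d p1 + X d p2 - X d p3 - X d p4‖ ≤ (K * r) ^ 2}.ncard : ℝ) ≤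
        C * K ^ 12 / |z0 0|) :
    ∃ c0 : ℝ, 0 < c0 ∧ c0 ≤ 1 / 8 ∧ ∀ (B : ℕ → ℝ) (ε : ℝ), 0 < ε →
    ∃ C : ℝ, ∀ d, 0 ≤ d → d ≤ 1 → ∀ (t0 : ℝ) (z0 : E 1), Rs α β d t0 (z0 0) → z0 0 ≠ 0 →
    ∀ b : ℝ × E 1 → ℂ, Measurable b → (∀ t, ContDiff ℝ ∞ fun z => b (t, z)) →
      (∀ t k z, ‖iteratedFDeriv ℝ k (fun z => b (t, z)) z‖ ≤ B k * (1 / |z0 0|) ^ k) →
      (∀ t (z : E 1), c0 < |t - t0| ∨ c0 * |z0 0| < ‖z - z0‖ → b (t, z) = 0) →
      ∀ R : ℝ, 1 ≤ R → 1 ≤ R * z0 0 ^ 2 →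
        ∫⁻ ξ in {ξ : E 3 | R ≤ ‖ξ‖ ∧ ‖ξ‖ ≤ 2 * R}, ‖Tb (X d) b ξ‖ₑ ^ (4 : ℝ) ≤
          ENNReal.ofReal (C * R ^ (-1 + ε) / |z0 0|) := by
  classical
  obtain ⟨Ck, c1, hCk, hc1, hkq⟩ := hkqe
  obtain ⟨Cm, c2, hCm, hc2, hhq⟩ := hhm
  set c3 : ℝ := min 1 (min c1 c2) with hc3
  have hc30 : 0 < c3 := lt_min one_pos (lt_min hc1 hc2)
  have hc31 : c3 ≤ 1 := min_le_left _ _
  have hc3a : c3 ≤ c1 := (min_le_right _ _).trans (min_le_left _ _)
  have hc3b : c3 ≤ c2 := (min_le_right _ _).trans (min_le_right _ _)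
  set c0 : ℝ := c3 / 8 with hc0
  have hc00 : 0 < c0 := by positivity
  have hc0b : c0 ≤ c2 := by linarith
  refine ⟨c0, hc00, by linarith, fun B ε hε => ?_⟩
  set δ1 : ℝ := 2 * c0 with hδ1
  have hδ10 : 0 < δ1 := by positivity
  have hA0 : ∀ j, 0 ≤ A j := fun j =>
    (norm_nonneg _).trans ((hX 0 le_rfl zero_le_one).2.1 j (0, 0))
  -- constants of the rows
  obtain ⟨Cw, hCw, hdomw⟩ := Pool.Agent.LEAF.dom_caps_win 3 1 B (A 2) c0 (hA0 2)
  set Cd : ℝ := 4 * Cw with hCd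
  have hCd0 : 0 < Cd := by positivity
  set Mo : ℕ := (2 * ⌈2 * (1 : ℝ)⌉₊ + 1) ^ 1 with hMo
  set σ : ℝ := min 1 (ε / 30) with hσd
  have hσ : 0 < σ := lt_min one_pos (by positivity)
  have hσ1 : σ ≤ 1 := min_le_left _ _
  have hσε : σ * 15 ≤ ε / 2 := by
    have h2 : σ ≤ ε / 30 := min_le_right _ _
    linarith
  set N : ℕ := ⌈20 / σ⌉₊ with hNd
  have hN : 20 ≤ σ * N := by
    have h2 : 20 / σ ≤ N := Nat.le_ceil _
    rw [div_le_iff₀ hσ] at h2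
    linarith
  obtain ⟨Bd, hBd, hbcs⟩ := bcs_bound (m := 1) N (fun k => |B k|)
  set AN : ℝ := ∑ j ∈ Finset.range (N + 3), A j with hAN
  obtain ⟨Cn, hCn, hnsp⟩ := nsp 1 3 N 1 AN 4 le_rfl
  obtain ⟨η, hη1, hη2, hη3, hη4, hη5, hη6⟩ := lff_eta 3
  obtain ⟨Co, hCo, horth⟩ := orthF_R 1 3 N η hη1 hη2 hη3
  obtain ⟨Cv, hCv, hvol⟩ := core_vol 3
  set S : ℝ := |B 0| * volume.real (closedBall (0 : ℝ × E 1) δ1) with hS
  have hS0 : 0 ≤ S := by positivity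
  set L : ℝ := 1 + 4 * A 2 with hL
  have hA2 := hA0 2
  have hL1 : 1 ≤ L := by linarith
  set R1 : ℝ := (1 / c0) ^ 2 with hR1
  have hR10 : 0 < R1 := by positivity
  set C3 : ℝ := 2 * S ^ 4 * Cv * R1 ^ 3 * R1 with hC3
  have hC30 : 0 ≤ C3 := by positivity
  set Cmain : ℝ := Cm * L ^ 12 * (2 * (Cd * (Cd + 1) * Mo) ^ 2) * Ck * L ^ 3 * (1 + 4 / ε) ^ 2 +
      2 * (Cm * L ^ 12) * ((5 * δ1) ^ 2) ^ 2 * (Cn * Bd) ^ 4 * Cv +
      2 * ((5 * δ1) ^ 2) ^ 4 * ((Cn * Bd) * S ^ 3 * Cv + Co * S ^ 4) with hCmain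
  have hCmain0 : 0 ≤ Cmain := by positivity
  refine ⟨Cmain + C3, ?_⟩
  intro d hd0 hd1 t0 z0 hRs hz0 b hbm hbs hbB hbsup R hR hRz
  obtain ⟨hXs, hXA, -⟩ := hX d hd0 hd1
  set p0 : ℝ × E 1 := (t0, z0) with hp0
  set ν : ℝ := |z0 0| with hν
  have hν0 : 0 < ν := abs_pos.2 hz0
  have hν2 : ν ≤ 2 := hRs.1
  have hXc : Continuous (X d) := hXs.continuous
  have hV1 : ∀ (s : ℝ) (w : E 3) (p : ℝ × E 1), Vw (X d) (s • w) p = s • Vw (X d) w p :=
    fun s w p => lf_Vw_smul (X d) s w p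
  have hV2 : ∀ (ξ : E 3) (p p' : ℝ × E 1),
      ‖Vw (X d) ξ p - Vw (X d) ξ p'‖ ≤ A 2 * ‖ξ‖ * ‖p - p'‖ :=
    fun ξ p p' => lf_Vw_lip (hXs.of_le (WithTop.coe_le_coe.2 (le_top : (2 : ℕ∞) ≤ ⊤))) (hXA 2) ξ
      p p'
  have hXt : ∀ t : ℝ, Continuous fun z : E 1 => Xt (X d) (t, z) := by
    intro t
    have h2 : Continuous (fderiv ℝ (X d)) := hXs.continuous_fderiv (by simp)
    unfold Xt
    have h3 : Continuous fun z : E 1 => fderiv ℝ (X d) (t, z) := h2.comp (by fun_prop)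
    exact h3.clm_apply continuous_const
  have hAN1 : ∀ j ≤ N + 2, ∀ p, ‖iteratedFDeriv ℝ j (X d) p‖ ≤ AN := fun j hj p =>
    (hXA j p).trans (Finset.single_le_sum (fun j _ => hA0 j) (Finset.mem_range.2 (by omega)))
  have hR0 : 0 < R := by linarith
  have hs : 0 < √R := Real.sqrt_pos.2 hR0
  have hs1 : 1 ≤ √R := Real.one_le_sqrt.2 hR
  have hsR : √R * √R = R := Real.mul_self_sqrt hR0.le
  set r : ℝ := 1 / √R with hr
  have hr0 : 0 < r := by positivity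
  have hr1 : r ≤ 1 := by
    rw [hr, div_le_one hs]
    exact hs1
  have hrν : r ≤ ν := by
    rw [hr, div_le_iff₀ hs]
    have h2 : 1 ≤ √(R * z0 0 ^ 2) := Real.one_le_sqrt.2 hRz
    rw [Real.sqrt_mul hR0.le, Real.sqrt_sq_eq_abs] at h2
    linarith
  have hP0 : 0 ≤ R ^ (-1 + ε) := Real.rpow_nonneg hR0.le _
  -- the density
  have hbB0 : ∀ p, ‖b p‖ ≤ |B 0| := by
    intro p
    have h2 := hbB p.1 0 p.2
    rw [norm_iteratedFDeriv_zero, pow_zero, mul_one] at h2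
    exact h2.trans (le_abs_self _)
  have hbbox : ∀ p : ℝ × E 1, b p ≠ 0 → |p.1 - t0| ≤ c0 ∧ ‖p.2 - z0‖ ≤ c0 * ν := by
    intro p hp
    by_contra h2
    rw [not_and_or, not_le, not_le] at h2
    exact hp (hbsup p.1 p.2 h2)
  have hb0 : ∀ p, δ1 < ‖p - p0‖ → b p = 0 := by
    intro p hp
    by_contra h2
    obtain ⟨h3, h4⟩ := hbbox p h2
    have h5 : ‖p - p0‖ ≤ δ1 := by
      rw [Prod.norm_def]
      refine max_le ?_ ?_
      · calc ‖(p - p0).1‖ = |p.1 - t0| := by rw [Prod.fst_sub, Real.norm_eq_abs]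
          _ ≤ δ1 := by linarith
      · calc ‖(p - p0).2‖ = ‖p.2 - z0‖ := by rw [Prod.snd_sub]
          _ ≤ c0 * ν := h4
          _ ≤ c0 * 2 := by gcongr
          _ = δ1 := by rw [hδ1]; ring
    linarith
  have hbS : ∫ p, ‖b p‖ ≤ S := by
    have h2 := (core_int hbm hbB0 hb0).2
    rwa [cq_vol] at h2
  have hfour : ∀ ξ, ‖Tb (X d) b ξ‖ₑ ^ (4 : ℝ) = ‖Tb (X d) b ξ‖ₑ ^ 4 := by
    intro ξ
    rw [show (4 : ℝ) = ((4 : ℕ) : ℝ) by norm_num, ENNReal.rpow_natCast]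
  simp_rw [hfour]
  by_cases hsm : r ≤ c0
  swap
  · -- small `R`
    rw [not_le] at hsm
    have h1 : √R < 1 / c0 := by
      rw [lt_div_iff₀ hc00]
      rw [hr, lt_div_iff₀ hs] at hsm
      linarith
    have h2 : R ≤ R1 := by
      rw [hR1, ← hsR, sq]
      gcongr
    have h3 : ∀ ξ, ‖Tb (X d) b ξ‖ₑ ^ 4 ≤ ENNReal.ofReal (S ^ 4) := by
      intro ξ
      rw [← ofReal_norm, ← ENNReal.ofReal_pow (norm_nonneg _)]
      exact ENNReal.ofReal_le_ofReal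
        (pow_le_pow_left₀ (norm_nonneg _) ((Tb_norm_le (X d) b ξ).trans hbS) 4)
    calc ∫⁻ ξ in {ξ : E 3 | R ≤ ‖ξ‖ ∧ ‖ξ‖ ≤ 2 * R}, ‖Tb (X d) b ξ‖ₑ ^ 4 ≤
        ∫⁻ _ in {ξ : E 3 | R ≤ ‖ξ‖ ∧ ‖ξ‖ ≤ 2 * R}, ENNReal.ofReal (S ^ 4) :=
          lintegral_mono fun ξ => h3 ξ
      _ = ENNReal.ofReal (S ^ 4) * volume {ξ : E 3 | R ≤ ‖ξ‖ ∧ ‖ξ‖ ≤ 2 * R} := by
          rw [setLIntegral_const]
      _ ≤ ENNReal.ofReal (S ^ 4) * ENNReal.ofReal (Cv * R ^ 3) := by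
          gcongr
          refine (measure_mono ?_).trans (hvol R hR)
          rintro ξ ⟨h4, h5⟩
          exact ⟨by linarith, by linarith⟩
      _ = ENNReal.ofReal (S ^ 4 * (Cv * R ^ 3)) := by
          rw [← ENNReal.ofReal_mul (by positivity)]
      _ ≤ _ := by
          refine ENNReal.ofReal_le_ofReal ?_
          have h5 : 1 / R1 ≤ R ^ (-1 + ε) := by
            calc 1 / R1 ≤ 1 / R := one_div_le_one_div_of_le hR0 h2
              _ = R ^ (-1 : ℝ) := by rw [Real.rpow_neg_one, one_div]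
              _ ≤ R ^ (-1 + ε) := Real.rpow_le_rpow_of_exponent_le hR (by linarith)
          have h6 : 1 / 2 ≤ 1 / ν := one_div_le_one_div_of_le hν0 hν2
          have h7 : (1 : ℝ) ≤ 2 * R1 * (R ^ (-1 + ε) * (1 / ν)) := by
            calc (1 : ℝ) = 2 * R1 * (1 / R1 * (1 / 2)) := by field_simp
              _ ≤ 2 * R1 * (R ^ (-1 + ε) * (1 / ν)) := by gcongr
          calc S ^ 4 * (Cv * R ^ 3) ≤ S ^ 4 * (Cv * R1 ^ 3) * 1 := by
                rw [mul_one]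
                gcongr
            _ ≤ S ^ 4 * (Cv * R1 ^ 3) * (2 * R1 * (R ^ (-1 + ε) * (1 / ν))) := by gcongr
            _ = C3 * R ^ (-1 + ε) / ν := by rw [hC3]; ring
            _ ≤ (Cmain + C3) * R ^ (-1 + ε) / ν := by
                gcongr
                linarith
  -- large `R`
  have hrδ : r ≤ δ1 := by linarith
  set M : ℕ := ⌈δ1 / r⌉₊ with hM
  set K : ℝ := R ^ σ with hK
  have hK1 : 1 ≤ K := Real.one_le_rpow hR hσ.le
  have hK0 : 0 < K := by linarith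
  set Λ : ℝ := K * √R with hΛ
  have hΛ1 : √R ≤ Λ := le_mul_of_one_le_left hs.le hK1
  have hΛr : Λ / R = K * r := by
    rw [hΛ, hr]
    rw [div_eq_iff hR0.ne']
    calc K * √R = K * (1 / √R) * (√R * √R) := by field_simp
      _ = K * (1 / √R) * R := by rw [hsR]
  -- the pieces
  set κ := ↥(gi M ×ˢ gk 1 M) with hκ
  set ι := ↥(gi M) with hι
  set pr : κ → ι := fun a => ⟨a.1.1, (Finset.mem_product.1 a.2).1⟩ with hpr
  set pc : κ → ℝ × E 1 := fun a => pcs p0 r M a.1 with hpc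
  set bc : κ → ℝ × E 1 → ℂ := fun a => bcs p0 r M b a.1 with hbc
  set f : κ → E 3 → ℂ := fun a => Tb (X d) (bc a) with hf
  set T : κ → Set (ℝ × E 1) := fun a => {p | bc a p ≠ 0} with hT
  have hbcm : ∀ a, Measurable (bc a) := fun a => bcs_meas p0 r M hbm a.1
  have hbcB : ∀ a p, ‖bc a p‖ ≤ |B 0| := fun a p => (bcs_norm_le p0 r M b a.1 p).trans (hbB0 p)
  have hbc0 : ∀ a p, δ1 < ‖p - p0‖ → bc a p = 0 := by
    intro a p hp
    simp only [hbc, bcs]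
    rw [hb0 p hp, mul_zero]
  have hbci : ∀ a, Integrable (bc a) ∧ ∫ p, ‖bc a p‖ ≤ S := fun a => by
    have h2 := core_int (hbcm a) (hbcB a) (hbc0 a)
    rwa [cq_vol] at h2
  have hfS : ∀ a ξ, ‖f a ξ‖ ≤ S := fun a ξ => (Tb_norm_le (X d) (bc a) ξ).trans (hbci a).2
  have hfm : ∀ a, Measurable (f a) := by
    intro a
    have h3 := lff_continuous 1 volume (X d) hXc.measurable (bc a) (hbci a).1
    have h4 : f a = lfT 1 volume (X d) (bc a) := by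
      funext ξ
      simp only [hf, Tb, lfT, one_mul]
      refine integral_congr_ae (Filter.Eventually.of_forall fun p => ?_)
      simp only
      rw [real_inner_comm]
    rw [h4]
    exact h3.measurable
  have hsum : ∀ ξ, Tb (X d) b ξ = ∑ a : κ, f a ξ := fun ξ =>
    Tb_sum hXc hbm hbB0 hb0 hr0 ξ
  have hsupp : ∀ a, ∀ p, bc a p ≠ 0 → ‖p - pc a‖ ≤ r ∧ b p ≠ 0 := by
    intro a p hp
    obtain ⟨h2, h3⟩ := bcs_supp le_rfl hr0 hp
    refine ⟨?_, h3⟩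
    rwa [Nat.cast_one, Real.sqrt_one, one_mul] at h2
  set e : ℝ := Cn * Bd * (K ^ N)⁻¹ with he
  have he0 : 0 ≤ e := by positivity
  have hbB' : ∀ t k z, ‖iteratedFDeriv ℝ k (fun z => b (t, z)) z‖ ≤ |B k| * (1 / r) ^ k := by
    intro t k z
    refine (hbB t k z).trans ?_
    have h2 : 1 / ν ≤ 1 / r := one_div_le_one_div_of_le hr0 hrν
    calc B k * (1 / ν) ^ k ≤ |B k| * (1 / ν) ^ k := by
          gcongr
          exact le_abs_self _
      _ ≤ |B k| * (1 / r) ^ k := by gcongr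
  have hNSP : ∀ a ξ, R / 2 ≤ ‖ξ‖ → ‖ξ‖ ≤ 4 * R → Λ ≤ ‖Vw (X d) ξ (pc a)‖ → ‖f a ξ‖ ≤ e := by
    intro a ξ _ hξ hV
    have h2 := hnsp (X d) hXs hAN1 (bc a) (pc a).1 (pc a).2 R Bd hR hBd
      (fun t => (bcs_smooth p0 r M hbs a.1 t).of_le (by exact_mod_cast le_top)) ?_ ?_ ?_ (-1) ξ ?_
    · have e1 : f a ξ = ∫ p, bc a p *
          Complex.exp ((((-1) * ⟪ξ, X d p⟫ : ℝ) : ℂ) * Complex.I) := by
        simp only [hf, Tb, neg_one_mul]
      rw [e1]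
      refine h2.trans ?_
      have h3 : K ≤ |(-1 : ℝ)| * ‖Vw (X d) ξ ((pc a).1, (pc a).2)‖ / √R := by
        rw [abs_neg, abs_one, one_mul, le_div_iff₀ hs]
        exact hV
      have h4 : 1 / (1 + |(-1 : ℝ)| * ‖Vw (X d) ξ ((pc a).1, (pc a).2)‖ / √R) ≤ 1 / K := by
        refine one_div_le_one_div_of_le hK0 ?_
        linarith
      have h5 : 0 ≤ 1 / (1 + |(-1 : ℝ)| * ‖Vw (X d) ξ ((pc a).1, (pc a).2)‖ / √R) := by
        positivity
      calc Cn * Bd * (1 / √R) ^ (1 + 1) *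
            (1 / (1 + |(-1 : ℝ)| * ‖Vw (X d) ξ ((pc a).1, (pc a).2)‖ / √R)) ^ N ≤
            Cn * Bd * 1 * (1 / K) ^ N := by
            gcongr
            exact pow_le_one₀ (by positivity) hr1
        _ = e := by rw [he, one_div, inv_pow, mul_one]
    · intro t z ht
      by_contra h3
      obtain ⟨h4, -⟩ := hsupp a (t, z) h3
      rw [Prod.norm_def] at h4
      exact absurd ((le_max_left _ _).trans h4) (not_le.2 ht)
    · intro t z hz
      by_contra h3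
      obtain ⟨h4, -⟩ := hsupp a (t, z) h3
      rw [Prod.norm_def] at h4
      exact absurd ((le_max_right _ _).trans h4) (not_le.2 hz)
    · intro j hj t z
      have h3 := hbcs p0 r M b a.1 hr0 hr1 hbs hbB' j hj t z
      rwa [hr, one_div_one_div] at h3
    · rw [abs_neg, abs_one, one_mul]
      exact hξ
  -- CORE-A
  have hstepA := coreAq (X d) (Vw (X d)) (R := R) (Λ := Λ) (e := e)
    (ε2 := Co * R ^ 3 * (K ^ N)⁻¹ * S ^ 4) (B := S) (M := Cm * (L * K) ^ 12 / ν) (K := L) (η := η)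
    hR0 he0 (by positivity) hV1 hη1.continuous hη3 hη4 hη5 hη6 pc T f ?_ ?_ hfm hfS hNSP ?_
  rotate_left
  · intro ξ _ hξ a p hp hV
    obtain ⟨h2, -⟩ := hsupp a p hp
    have h3 := hV2 ξ p (pc a)
    have h4 : A 2 * ‖ξ‖ * ‖p - pc a‖ ≤ 4 * A 2 * Λ := by
      calc A 2 * ‖ξ‖ * ‖p - pc a‖ ≤ A 2 * (4 * R) * r := by gcongr
        _ = 4 * A 2 * √R := by
            rw [hr]
            have : R * (1 / √R) = √R := by rw [mul_one_div, Real.div_sqrt]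
            linear_combination 4 * A 2 * this
        _ ≤ 4 * A 2 * Λ := by gcongr
    have h5 : ‖Vw (X d) ξ p‖ ≤ ‖Vw (X d) ξ (pc a)‖ + ‖Vw (X d) ξ p - Vw (X d) ξ (pc a)‖ := by
      have := norm_add_le (Vw (X d) ξ (pc a)) (Vw (X d) ξ p - Vw (X d) ξ (pc a))
      simpa using this
    rw [hL]
    linarith
  · intro a a'
    have h2 := hhq c0 hc00 hc0b d hd0 hd1 t0 z0 hRs hz0 r (L * K) M hr0 hr1
      (one_le_mul_of_one_le_of_one_le hL1 hK1) hrν T (fun a p hp => by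
        obtain ⟨h3, h4⟩ := hsupp a p hp
        exact ⟨h3, hbbox p h4⟩) a a'
    refine le_trans ?_ h2
    refine Nat.cast_le.2 (Set.ncard_le_ncard ?_ (Set.toFinite _))
    rintro q ⟨w, hw, p1, h1, p2, h2, p3, h3, p4, h4, hV, hE⟩
    refine ⟨w, hw, p1, h1, p2, h2, p3, h3, p4, h4, ?_, ?_⟩
    · have e1 : L * (Λ / R) = L * K * r := by rw [hΛr]; ring
      rw [e1] at hV
      exact hV
    · refine hE.trans ?_
      rw [hΛr]
      have h5 : K * r ≤ L * K * r := by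
        rw [mul_assoc]
        exact le_mul_of_one_le_left (by positivity) hL1
      exact pow_le_pow_left₀ (by positivity) h5 2
  · intro a1 a2 a3 a4 hfar
    have h2 := horth (X d) hXc.measurable R ((Λ / R) ^ 2) hR0 (by positivity) (bc a1) (bc a2)
      (bc a3) (bc a4) (hbci a1).1 (hbci a2).1 (hbci a3).1 (hbci a4).1
      (fun p1 p2 p3 p4 g1 g2 g3 g4 => hfar p1 g1 p2 g2 p3 g3 p4 g4)
    refine h2.trans ?_
    have h3 : K ^ N ≤ (1 + R * (Λ / R) ^ 2) ^ N := by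
      refine pow_le_pow_left₀ hK0.le ?_ N
      have h4 : R * (Λ / R) ^ 2 = K ^ 2 := by
        rw [hΛ, div_pow, mul_pow, Real.sq_sqrt hR0.le]
        field_simp
      rw [h4]
      exact (le_self_pow₀ hK1 two_ne_zero).trans (le_add_of_nonneg_left zero_le_one)
    have h5 : ((1 + R * (Λ / R) ^ 2) ^ N)⁻¹ ≤ (K ^ N)⁻¹ := inv_anti₀ (by positivity) h3
    have h6 : ∀ a, 0 ≤ ∫ p, ‖bc a p‖ := fun a => integral_nonneg fun _ => norm_nonneg _
    calc Co * R ^ 3 * ((1 + R * (Λ / R) ^ 2) ^ N)⁻¹ *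
          ((∫ p, ‖bc a1 p‖) * (∫ p, ‖bc a2 p‖) * (∫ p, ‖bc a3 p‖) * (∫ p, ‖bc a4 p‖)) ≤
          Co * R ^ 3 * (K ^ N)⁻¹ * (S * S * S * S) := by
          gcongr
          · exact (hbci a1).2
          · exact (hbci a2).2
          · exact (hbci a3).2
          · exact (hbci a4).2
      _ = _ := by ring
  -- domination
  have hGGex := fun i : ℕ => hdomw (X d) hXs (hXA 2) b z0 (1 / ν) (fun _ => 1) 1 (by positivity)
    hbm measurable_const (fun _ => zero_le_one) (fun _ => le_rfl) hbs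
    (fun k t z => by
      rw [one_mul]
      exact hbB t k z)
    (fun t z hz => hbsup t z (Or.inr (by rwa [div_div_eq_mul_div, div_one] at hz)))
    R t0 z0 M i hR
  choose GG hGm hG1 hG2 hG3 using hGGex
  have hvolI : ∀ i : ℕ, volume (closedBall (tc t0 r M i) r) = ENNReal.ofReal (2 * r) := fun i =>
    Real.volume_closedBall _ _
  have hr2 : r * r = 1 / R := by
    rw [hr, div_mul_div_comm, one_mul, hsR]
  -- the window
  set Z : Set (E 1) := closedBall z0 (c3 * ν) with hZ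
  have hstepB := coreBz (m := 1) (n := 3) Mo (A := A 2) (C := Cd) (C2 := 1) (hA0 2) hCd0.le
    zero_le_one (V := Vw (X d)) (T := Xt (X d)) (R := R) (Λ0 := Λ) (e := e) (Z := Z)
    measurableSet_closedBall hR ?_ hXt pr (fun i => tc t0 r M i.1) (fun a => zc z0 r M a.1.2)
    (fun i => GG i.1) f (ENNReal.ofReal (Ck * (L * K) ^ 3 * (1 + Real.log R) ^ 2)) ?_
    (fun i => hGm i.1) ?_ ?_ ?_ ?_ ?_
  rotate_left
  · intro ξ t z z'
    refine (hV2 ξ (t, z) (t, z')).trans (le_of_eq ?_)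
    congr 1
    rw [Prod.norm_def]
    simp
  · intro g hgm hg1 hg2
    have h1 := hkq c3 hc30 hc3a d hd0 hd1 t0 z0 hRs hz0 R (L * Λ) hR hRz
      (hΛ1.trans (le_mul_of_one_le_left (by positivity) hL1)) ι (fun i => tc t0 r M i.1) g
      ?_ ?_ hgm hg1 hg2
    · have e1 : L * Λ / √R = L * K := by
        rw [hΛ]
        field_simp
      rw [e1] at h1
      refine le_trans ?_ h1
      refine lintegral_mono fun ξ => ?_
      simp only
      gcongr with i hi z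
      have h3 : 4 * A 2 * 1 * √R ≤ 4 * A 2 * Λ := by
        rw [mul_one]
        gcongr
      rw [hL]
      linarith
    · intro i
      have h2 := core_tc (t0 := t0) hr0 hδ10.le i.2
      refine h2.trans ?_
      rw [hδ1, hc0]
      rw [hc0] at hsm
      linarith
    · intro i j hij
      rw [abs_tc_sub hr0]
      have h2 : (1 : ℝ) ≤ |((i.1 : ℕ) : ℝ) - (j.1 : ℕ)| := by
        have h3 : ((i.1 : ℕ) : ℤ) - (j.1 : ℕ) ≠ 0 := by
          intro h4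
          apply hij
          apply Subtype.ext
          omega
        have h5 := Int.one_le_abs h3
        exact_mod_cast h5
      calc 1 / √R = r * 1 := by rw [mul_one]
        _ ≤ r * |((i.1 : ℕ) : ℝ) - (j.1 : ℕ)| := by gcongr
  · intro i
    calc ∫⁻ τ, GG i.1 τ ≤ ENNReal.ofReal Cw *
          ∫⁻ t in closedBall (tc t0 r M i.1) r, ENNReal.ofReal ((1 : ℝ) ^ 2) := hG1 i.1
      _ = ENNReal.ofReal (Cw * (2 * r)) := by
          rw [setLIntegral_const, hvolI, one_pow, ENNReal.ofReal_one, one_mul,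
            ← ENNReal.ofReal_mul hCw.le]
      _ ≤ ENNReal.ofReal (Cd / √R) := by
          refine ENNReal.ofReal_le_ofReal ?_
          calc Cw * (2 * r) ≤ Cw * (4 * r) := by gcongr; norm_num
            _ = Cd / √R := by rw [hCd, hr]; ring
  · intro i τ
    calc GG i.1 τ ≤ ENNReal.ofReal Cw *
          (∫⁻ t in closedBall (tc t0 r M i.1) r, ENNReal.ofReal (1 : ℝ)) ^ 2 := hG2 i.1 τ
      _ = ENNReal.ofReal (Cw * (4 * (r * r))) := by
          rw [setLIntegral_const, hvolI, ENNReal.ofReal_one, one_mul,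
            ← ENNReal.ofReal_pow (by positivity), ← ENNReal.ofReal_mul hCw.le]
          congr 1
          ring
      _ ≤ ENNReal.ofReal (Cd / R) := by
          refine ENNReal.ofReal_le_ofReal (le_of_eq ?_)
          rw [hr2, hCd]
          ring
  · intro i z
    set Z1 : Finset (Fin 1 → ℕ) :=
      (Set.toFinset {a : κ | pr a = i ∧ ‖z - zc z0 r M a.1.2‖ ≤ 1 / √R}).image
        (fun a => a.1.2) with hZ1
    have h2 : ({a : κ | pr a = i ∧ ‖z - zc z0 r M a.1.2‖ ≤ 1 / √R} : Set κ).ncard =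
        Z1.card := by
      rw [Set.ncard_eq_toFinset_card', hZ1, Finset.card_image_of_injOn]
      intro a ha a' ha' haa
      have h3 : pr a = i := (Set.mem_toFinset.1 ha).1
      have h4 : pr a' = i := (Set.mem_toFinset.1 ha').1
      have h5 : a.1.1 = a'.1.1 := by
        have h6 : pr a = pr a' := h3.trans h4.symm
        exact congrArg (fun i : ι => i.1) h6
      exact Subtype.ext (Prod.ext h5 haa)
    rw [h2]
    have h3 := card_zc hr0 z0 M z (1 / √R) Z1 ?_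
    · have h4 : 1 / √R / r = 1 := div_self hr0.ne'
      rwa [h4] at h3
    · intro k hk
      rw [hZ1, Finset.mem_image] at hk
      obtain ⟨a, ha, rfl⟩ := hk
      exact (Set.mem_toFinset.1 ha).2
  · intro a ξ hξ
    have h11 := hG3 a.1.1 a.1.2 ξ hξ
    refine le_trans ?_ (h11.trans ?_)
    · exact le_of_eq rfl
    · have e1 : (√((1 : ℕ) : ℝ)) = 1 := by rw [Nat.cast_one, Real.sqrt_one]
      rw [e1]
      refine mul_le_mul' (ENNReal.ofReal_le_ofReal ?_) (lintegral_mono_set ?_)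
      · gcongr
        linarith
      · rintro z ⟨hz1, hz2⟩
        refine ⟨hz1, closedBall_subset_closedBall ?_ hz2⟩
        rw [div_div_eq_mul_div, div_one]
        gcongr
        linarith
  · intro a ξ hξ1 hξ2 hV
    exact hNSP a ξ hξ1 hξ2 hV
  -- assembly
  set An : Set (E 3) := {ξ | R / 2 ≤ ‖ξ‖ ∧ ‖ξ‖ ≤ 4 * R} with hAn
  have hvf : volume An ≠ ⊤ := ne_top_of_le_ne_top ENNReal.ofReal_ne_top (hvol R hR)
  set v : ℝ := volume.real An with hv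
  have hvv : volume An = ENNReal.ofReal v := by
    rw [hv, measureReal_def, ENNReal.ofReal_toReal hvf]
  have hv1 : v ≤ Cv * R ^ 3 := by
    rw [hv, measureReal_def]
    exact ENNReal.toReal_le_of_le_ofReal (by positivity) (hvol R hR)
  have hv0 : 0 ≤ v := measureReal_nonneg
  set n0 : ℝ := ((Fintype.card κ : ℕ) : ℝ) with hn0
  have hn00 : 0 ≤ n0 := Nat.cast_nonneg _
  have hn01 : n0 ≤ (5 * δ1) ^ 2 * R ^ 2 := by
    have h2 := caps_card_le 1 hr0 hrδ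
    rw [hn0, Fintype.card_coe]
    refine h2.trans ?_
    rw [← mul_pow]
    refine pow_le_pow_left₀ (by positivity) ?_ _
    rw [mul_assoc]
    gcongr
    rw [hr, div_div_eq_mul_div, div_one]
    gcongr
    calc √R = 1 * √R := (one_mul _).symm
      _ ≤ √R * √R := by gcongr
      _ = R := hsR
  have hlog0 : 0 ≤ Real.log R := Real.log_nonneg hR
  calc ∫⁻ ξ in {ξ : E 3 | R ≤ ‖ξ‖ ∧ ‖ξ‖ ≤ 2 * R}, ‖Tb (X d) b ξ‖ₑ ^ 4 =
      ∫⁻ ξ in {ξ : E 3 | R ≤ ‖ξ‖ ∧ ‖ξ‖ ≤ 2 * R}, ‖∑ a, f a ξ‖ₑ ^ 4 := by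
        simp_rw [hsum]
    _ ≤ ENNReal.ofReal (Cm * (L * K) ^ 12 / ν) *
          (∫⁻ ξ in An, (∑ a, ‖f a ξ‖ₑ ^ 2) ^ 2) +
          ENNReal.ofReal (n0 ^ 4 * (e * S ^ 3 * v + Co * R ^ 3 * (K ^ N)⁻¹ * S ^ 4)) :=
        hstepA
    _ ≤ ENNReal.ofReal (Cm * (L * K) ^ 12 / ν) *
          (ENNReal.ofReal (2 * (Cd * (Cd + 1) * Mo) ^ 2 * (1 / R) ^ 1 *
            (Ck * (L * K) ^ 3 * (1 + Real.log R) ^ 2)) +
            ENNReal.ofReal (2 * (n0 * e ^ 2) ^ 2 * v)) +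
          ENNReal.ofReal (n0 ^ 4 * (e * S ^ 3 * v + Co * R ^ 3 * (K ^ N)⁻¹ * S ^ 4)) := by
        gcongr
        refine hstepB.trans (le_of_eq ?_)
        rw [← ENNReal.ofReal_mul (by positivity)]
        congr 1
        rw [hvv, ← ENNReal.ofReal_natCast, ← ENNReal.ofReal_mul (Nat.cast_nonneg _),
          ← ENNReal.ofReal_pow (by positivity),
          show (2 : ℝ≥0∞) = ENNReal.ofReal 2 by norm_num, ← ENNReal.ofReal_mul (by norm_num),
          ← ENNReal.ofReal_mul (by positivity)]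
    _ = ENNReal.ofReal (Cm * L ^ 12 * K ^ 12 / ν *
          ((2 * (Cd * (Cd + 1) * Mo) ^ 2) * (1 / R) * (Ck * (L * K) ^ 3 *
            (1 + Real.log R) ^ 2) + 2 * (n0 * e ^ 2) ^ 2 * v) +
          n0 ^ 4 * (e * S ^ 3 * v + Co * R ^ 3 * (K ^ N)⁻¹ * S ^ 4)) := by
        rw [← ENNReal.ofReal_add (by positivity) (by positivity),
          ← ENNReal.ofReal_mul (by positivity), ← ENNReal.ofReal_add (by positivity)
          (by positivity)]
        congr 1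
        rw [pow_one, mul_pow L K 12]
        ring
    _ ≤ ENNReal.ofReal (Cmain * R ^ (-1 + ε) / ν) := by
        refine ENNReal.ofReal_le_ofReal ?_
        exact cq_num (N := N) (Cm := Cm * L ^ 12) (Cb := 2 * (Cd * (Cd + 1) * Mo) ^ 2)
          (Ck := Ck) (L := L) (Cκ := (5 * δ1) ^ 2) (Ce := Cn * Bd) (Cv := Cv)
          (Co := Co * S ^ 4) (S := S) (n0 := n0) (e := e) (v := v) hε hσ hσ1 hσε hN hR hK hν0 hν2
          (by positivity) (by positivity) hCk.le (by positivity) (by positivity) (by positivity)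
          hCv (by positivity) hS0 hn00 he0 hv0 (by positivity) hn01 (le_of_eq he) hv1
          (le_of_eq (by ring))
    _ ≤ _ := by
        refine ENNReal.ofReal_le_ofReal ?_
        gcongr
        linarith

end Pool.Agent.LQ
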