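import Pool.Agent.LQ.RE

/-!
[LEAFQ] cells met by a Thales curve: counting, secants, gradient.
-/

set_option autoImplicit false

namespace Pool.Agent.LQ

open Set

/-- Cells: in each row a short set. -/
theorem cz {Z : Set (ℤ × ℤ)} {a b : ℝ} (ha : 0 ≤ a) (hb : 0 ≤ b) (j0 : ℤ)
    (h1 : ∀ z ∈ Z, |((z.2 - j0 : ℤ) : ℝ)| ≤ a)
    (h2 : ∀ z ∈ Z, ∀ z' ∈ Z, z.2 = z'.2 → |((z.1 - z'.1 : ℤ) : ℝ)| ≤ b) :
    Z.Finite ∧ (Z.ncard : ℝ) ≤ (2 * a + 1) * (2 * b + 1) := by
  classical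
  have h3 : ∀ j : ℤ, ∃ i : ℤ, ∀ z ∈ Z, z.2 = j → |((z.1 - i : ℤ) : ℝ)| ≤ b := by
    intro j
    by_cases h : ∃ z ∈ Z, z.2 = j
    · obtain ⟨z0, hz0, hz1⟩ := h
      exact ⟨z0.1, fun z hz hj => h2 z hz z0 hz0 (hj.trans hz1.symm)⟩
    · exact ⟨0, fun z hz hj => (h ⟨z, hz, hj⟩).elim⟩
  choose i hi using h3
  have hle : ∀ (k : ℤ) (x : ℝ), |(k : ℝ)| ≤ x → k ∈ Finset.Icc (-⌊x⌋) ⌊x⌋ := by
    intro k x hk
    rw [abs_le] at hk
    rw [Finset.mem_Icc]
    constructor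
    · have : -k ≤ ⌊x⌋ := by
        rw [Int.le_floor]
        push_cast
        linarith
      linarith
    · rw [Int.le_floor]
      exact hk.2
  set F : Finset (ℤ × ℤ) := (Finset.Icc (-⌊a⌋) ⌊a⌋ ×ˢ Finset.Icc (-⌊b⌋) ⌊b⌋).image
    (fun p => (i (j0 + p.1) + p.2, j0 + p.1)) with hF
  have hsub : Z ⊆ (F : Set (ℤ × ℤ)) := by
    intro z hz
    rw [hF, Finset.coe_image]
    refine ⟨(z.2 - j0, z.1 - i z.2), ?_, ?_⟩
    · rw [Finset.mem_coe, Finset.mem_product]
      exact ⟨hle _ _ (h1 z hz), hle _ _ (hi z.2 z hz rfl)⟩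
    · ext
      · simp
      · simp
  refine ⟨F.finite_toSet.subset hsub, ?_⟩
  have hc : Z.ncard ≤ F.card := by
    have := Set.ncard_le_ncard hsub F.finite_toSet
    rwa [Set.ncard_coe_finset] at this
  have hcard : ∀ x : ℝ, 0 ≤ x → ((Finset.Icc (-⌊x⌋) ⌊x⌋).card : ℝ) ≤ 2 * x + 1 := by
    intro x hx
    have h5 : 0 ≤ ⌊x⌋ := Int.floor_nonneg.2 hx
    rw [Int.card_Icc]
    have h6 : (((⌊x⌋ + 1 - -⌊x⌋).toNat : ℤ) : ℝ) = ((⌊x⌋ + 1 - -⌊x⌋ : ℤ) : ℝ) := by
      rw [Int.toNat_of_nonneg (by linarith)]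
    have h7 : (((⌊x⌋ + 1 - -⌊x⌋).toNat : ℕ) : ℝ) = ((⌊x⌋ + 1 - -⌊x⌋ : ℤ) : ℝ) := by
      rw [← h6]
      norm_cast
    rw [h7]
    push_cast
    have := Int.floor_le x
    linarith
  calc (Z.ncard : ℝ) ≤ (F.card : ℝ) := by exact_mod_cast hc
    _ ≤ ((Finset.Icc (-⌊a⌋) ⌊a⌋ ×ˢ Finset.Icc (-⌊b⌋) ⌊b⌋).card : ℝ) := by
        exact_mod_cast Finset.card_image_le
    _ = ((Finset.Icc (-⌊a⌋) ⌊a⌋).card : ℝ) * ((Finset.Icc (-⌊b⌋) ⌊b⌋).card : ℝ) := by
        rw [Finset.card_product]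
        push_cast
        ring
    _ ≤ _ := by
        have := hcard a ha
        have := hcard b hb
        gcongr

/-- Two points, two cells. -/
theorem cz_floor {r x x' D : ℝ} (hr : 0 < r) (h : |x - x'| ≤ D) :
    |((⌊x / r⌋ - ⌊x' / r⌋ : ℤ) : ℝ)| ≤ D / r + 1 := by
  have h1 : |x / r - x' / r| ≤ D / r := by
    rw [← sub_div, abs_div, abs_of_pos hr]
    gcongr
  have h2 := Int.floor_le (x / r)
  have h3 := Int.lt_floor_add_one (x / r)
  have h4 := Int.floor_le (x' / r)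
  have h5 := Int.lt_floor_add_one (x' / r)
  rw [abs_le] at h1 ⊢
  push_cast
  constructor <;> linarith [h1.1, h1.2]

/-- The same cell. -/
theorem cz_same {r x x' : ℝ} (hr : 0 < r) (h : ⌊x / r⌋ = ⌊x' / r⌋) : |x - x'| ≤ r := by
  have h2 := Int.floor_le (x / r)
  have h3 := Int.lt_floor_add_one (x / r)
  have h4 := Int.floor_le (x' / r)
  have h5 := Int.lt_floor_add_one (x' / r)
  rw [h] at h2 h3
  have e : x - x' = (x / r - x' / r) * r := by field_simp
  rw [e, abs_mul, abs_of_pos hr]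
  have : |x / r - x' / r| ≤ 1 := by
    rw [abs_le]
    constructor <;> linarith
  nlinarith

/-- Secant slope in `t`. -/
noncomputable def sT (α Sa Sh A A' H H' : ℝ) : ℝ := (Sh / (H + H') - Sa / (A + A')) / α
/-- Secant slope in `y`. -/
noncomputable def sY (α β Sa Sh c y y' A A' H H' : ℝ) : ℝ :=
  (y + y') * (β * Sa / (A + A') + (α - β) * Sh / (H + H')) / α - c

/-- `d² h = 1 - H`. -/
theorem dh_eq {α β d t y : ℝ} (hα : α ≠ 0) (h : Rg α β d t y) :
    d ^ 2 * hh α β d t y = 1 - HH α β d t y :=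
  (quad (by linarith [h.2.1]) hα (by linarith [h.2.2.2])).2

/-- Differences of `B(Y - Y1, Y - Y2)`. -/
theorem BB_sub {α β d t y t' y' t1 y1 t2 y2 : ℝ} (hα : α ≠ 0) (h : Rg α β d t y)
    (h' : Rg α β d t' y') (h1 : Rg α β d t1 y1) (h2 : Rg α β d t2 y2) :
    BB α β d t y t1 y1 t2 y2 - BB α β d t' y' t1 y1 t2 y2 =
      (AA α β t y - AA α β t' y') *
        (AA α β t y + AA α β t' y' - (AA α β t1 y1 + AA α β t2 y2)) +
      (y - y') * (y + y' - (y1 + y2)) +
      (hh α β d t y - hh α β d t' y') *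
        (HH α β d t1 y1 + HH α β d t2 y2 - (HH α β d t y + HH α β d t' y')) := by
  have e := dh_eq hα h
  have e' := dh_eq hα h'
  have e1 := dh_eq hα h1
  have e2 := dh_eq hα h2
  unfold BB
  linear_combination (hh α β d t y - hh α β d t' y') * (e + e' - e1 - e2)

/-- The exact secants. -/
theorem BB_sec {α β d t y t' y' t1 y1 t2 y2 : ℝ} (hα : α ≠ 0) (h : Rg α β d t y)
    (h' : Rg α β d t' y') (h1 : Rg α β d t1 y1) (h2 : Rg α β d t2 y2) :
    BB α β d t y t1 y1 t2 y2 - BB α β d t' y' t1 y1 t2 y2 =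
      (t - t') * sT α (AA α β t1 y1 + AA α β t2 y2) (HH α β d t1 y1 + HH α β d t2 y2)
        (AA α β t y) (AA α β t' y') (HH α β d t y) (HH α β d t' y') +
      (y - y') * sY α β (AA α β t1 y1 + AA α β t2 y2) (HH α β d t1 y1 + HH α β d t2 y2) (y1 + y2)
        y y' (AA α β t y) (AA α β t' y') (HH α β d t y) (HH α β d t' y') := by
  obtain ⟨a1, -, a3, -, -, -, -⟩ := rg_bd hα h
  obtain ⟨b1, -, b3, -, -, -, -⟩ := rg_bd hα h'
  obtain ⟨f1, -, f3⟩ := dif hα h h'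
  rw [BB_sub hα h h' h1 h2, f1, f3]
  unfold sT sY
  have hA : 0 < AA α β t y + AA α β t' y' := by linarith
  have hH : 0 < HH α β d t y + HH α β d t' y' := by linarith
  generalize AA α β t1 y1 + AA α β t2 y2 = Sa
  generalize HH α β d t1 y1 + HH α β d t2 y2 = Sh
  generalize AA α β t y + AA α β t' y' = A at *
  generalize HH α β d t y + HH α β d t' y' = H at *
  field_simp
  ring

/-- Convexity in `t`. -/
theorem sT_mono {α β d t y t' Sa Sh : ℝ} (hα : α ≠ 0) (h : Rg α β d t y) (h' : Rg α β d t' y)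
    (hSa : 0 ≤ Sa) (hSh : 0 ≤ Sh) :
    (t - t') * sT α Sa Sh (AA α β t' y) (AA α β t' y) (HH α β d t' y) (HH α β d t' y) ≤
      (t - t') * sT α Sa Sh (AA α β t y) (AA α β t' y) (HH α β d t y) (HH α β d t' y) := by
  obtain ⟨a1, -, a3, -, -, -, -⟩ := rg_bd hα h
  obtain ⟨b1, -, b3, -, -, -, -⟩ := rg_bd hα h'
  obtain ⟨f1, f2, -⟩ := dif hα h h'
  rw [← sub_nonneg]
  have hA0 : 0 < AA α β t y := by linarith
  have hA1 : 0 < AA α β t' y := by linarith
  have hH0 : 0 < HH α β d t y := by linarith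
  have hH1 : 0 < HH α β d t' y := by linarith
  generalize AA α β t y = A at *
  generalize AA α β t' y = A' at *
  generalize HH α β d t y = H at *
  generalize HH α β d t' y = H' at *
  have e : (t - t') * sT α Sa Sh A A' H H' - (t - t') * sT α Sa Sh A' A' H' H' =
      (t - t') ^ 2 / α ^ 2 * (Sh * d ^ 2 / (2 * H' * (H + H') ^ 2) +
        Sa / (2 * A' * (A + A') ^ 2)) := by
    have g1 : Sh / (H + H') - Sh / (H' + H') = Sh * -(H - H') / (2 * H' * (H + H')) := by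
      field_simp
      ring
    have g2 : Sa / (A' + A') - Sa / (A + A') = Sa * (A - A') / (2 * A' * (A + A')) := by
      field_simp
      ring
    have g3 : (t - t') * sT α Sa Sh A A' H H' - (t - t') * sT α Sa Sh A' A' H' H' =
        (t - t') / α * ((Sh / (H + H') - Sh / (H' + H')) + (Sa / (A' + A') - Sa / (A + A'))) := by
      unfold sT
      ring
    rw [g3, g1, g2, f1, f2]
    field_simp
    ring
  rw [e]
  positivity

/-- Convexity in `y`. -/
theorem sY_mono {α β d t y y' Sa Sh c : ℝ} (hα : α ≠ 0) (h : Rg α β d t y) (h' : Rg α β d t y')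
    (hSa : 0 ≤ Sa) (hSh : 0 ≤ Sh) (hyy : 0 ≤ y' * (y + y'))
    (hbr : 0 ≤ (β * Sa / (AA α β t y + AA α β t y') +
      (α - β) * Sh / (HH α β d t y + HH α β d t y')) / α) :
    (y - y') * sY α β Sa Sh c y' y' (AA α β t y') (AA α β t y') (HH α β d t y')
        (HH α β d t y') ≤
      (y - y') * sY α β Sa Sh c y y' (AA α β t y) (AA α β t y') (HH α β d t y)
        (HH α β d t y') := by
  obtain ⟨a1, -, a3, -, -, -, -⟩ := rg_bd hα h
  obtain ⟨b1, -, b3, -, -, -, -⟩ := rg_bd hα h'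
  obtain ⟨f1, f2, -⟩ := dif hα h h'
  rw [← sub_nonneg]
  have hA0 : 0 < AA α β t y := by linarith
  have hA1 : 0 < AA α β t y' := by linarith
  have hH0 : 0 < HH α β d t y := by linarith
  have hH1 : 0 < HH α β d t y' := by linarith
  generalize AA α β t y = A at *
  generalize AA α β t y' = A' at *
  generalize HH α β d t y = H at *
  generalize HH α β d t y' = H' at *
  have e : (y - y') * sY α β Sa Sh c y y' A A' H H' - (y - y') * sY α β Sa Sh c y' y' A' A' H' H' =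
      (y - y') ^ 2 * ((β * Sa / (A + A') + (α - β) * Sh / (H + H')) / α +
        2 * (y' * (y + y')) / α ^ 2 * (β ^ 2 * Sa / (2 * A' * (A + A') ^ 2) +
          (α - β) ^ 2 * d ^ 2 * Sh / (2 * H' * (H + H') ^ 2))) := by
    have g1 : Sh / (H + H') - Sh / (H' + H') = Sh * -(H - H') / (2 * H' * (H + H')) := by
      field_simp
      ring
    have g2 : Sa / (A + A') - Sa / (A' + A') = Sa * -(A - A') / (2 * A' * (A + A')) := by
      field_simp
      ring
    have g3 : (y - y') * sY α β Sa Sh c y y' A A' H H' -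
        (y - y') * sY α β Sa Sh c y' y' A' A' H' H' =
        (y - y') ^ 2 * ((β * Sa / (A + A') + (α - β) * Sh / (H + H')) / α) +
        (y - y') * (2 * y') / α * (β * (Sa / (A + A') - Sa / (A' + A')) +
          (α - β) * (Sh / (H + H') - Sh / (H' + H'))) := by
      unfold sY
      ring
    rw [g3, g1, g2, f1, f2]
    field_simp
    ring
  rw [e]
  have : 0 ≤ (β ^ 2 * Sa / (2 * A' * (A + A') ^ 2) +
          (α - β) ^ 2 * d ^ 2 * Sh / (2 * H' * (H + H') ^ 2)) := by positivity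
  have : 0 ≤ 2 * (y' * (y + y')) / α ^ 2 := by positivity
  positivity

end Pool.Agent.LQ
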