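import Pool.Agent.LQ.CTA1

/-!
[LEAFQ] cells met by a Thales curve: gradient and numbers.
-/

set_option autoImplicit false

namespace Pool.Agent.LQ

/-- Lipschitz bound of `B(Y - Y1, Y - Y2)`. -/
theorem BB_lip {α β : ℝ} (hα : α ≠ 0) : ∃ C : ℝ, 0 < C ∧
    ∀ d, 0 ≤ d → d ≤ 1 → ∀ t y t' y' t1 y1 t2 y2, Rg α β d t y → Rg α β d t' y' →
      Rg α β d t1 y1 → Rg α β d t2 y2 →
      |BB α β d t y t1 y1 t2 y2 - BB α β d t' y' t1 y1 t2 y2| ≤
        C * nn t y t' y' * (nn t y t1 y1 + nn t' y' t2 y2) := by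
  obtain ⟨C, hC, H⟩ := chord (β := β) hα
  refine ⟨2 * C ^ 2 + 1, by positivity, ?_⟩
  intro d hd0 hd t y t' y' t1 y1 t2 y2 h h' h1 h2
  rw [BB_sub hα h h' h1 h2]
  obtain ⟨p1, p2, p3, -, -, -, -⟩ := H d hd0 hd t y t' y' h h'
  obtain ⟨q1, q2, q3, -, -, -, -⟩ := H d hd0 hd t y t1 y1 h h1
  obtain ⟨r1, r2, r3, -, -, -, -⟩ := H d hd0 hd t' y' t2 y2 h' h2
  have hyn : ∀ a b c e : ℝ, |b - e| ≤ nn a b c e := by
    intro a b c e
    unfold nn
    linarith [abs_nonneg (a - c)]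
  have y0 := hyn t y t' y'
  have yy1 := hyn t y t1 y1
  have yy2 := hyn t' y' t2 y2
  have n0 : 0 ≤ nn t y t' y' := by unfold nn; positivity
  have n1 : 0 ≤ nn t y t1 y1 := by unfold nn; positivity
  have n2 : 0 ≤ nn t' y' t2 y2 := by unfold nn; positivity
  generalize nn t y t' y' = n at *
  generalize nn t y t1 y1 = m1 at *
  generalize nn t' y' t2 y2 = m2 at *
  generalize AA α β t y = A at *
  generalize AA α β t' y' = A' at *
  generalize AA α β t1 y1 = A1 at *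
  generalize AA α β t2 y2 = A2 at *
  generalize HH α β d t y = K at *
  generalize HH α β d t' y' = K' at *
  generalize HH α β d t1 y1 = K1 at *
  generalize HH α β d t2 y2 = K2 at *
  generalize hh α β d t y - hh α β d t' y' = hd' at *
  have s1 : |A + A' - (A1 + A2)| ≤ C * (m1 + m2) := by
    have e : A + A' - (A1 + A2) = (A - A1) + (A' - A2) := by ring
    rw [e]
    refine (abs_add_le _ _).trans ?_
    linarith
  have s2 : |y + y' - (y1 + y2)| ≤ m1 + m2 := by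
    have e : y + y' - (y1 + y2) = (y - y1) + (y' - y2) := by ring
    rw [e]
    refine (abs_add_le _ _).trans ?_
    linarith
  have s3 : |K1 + K2 - (K + K')| ≤ C * (m1 + m2) := by
    have e : K1 + K2 - (K + K') = -(K - K1) - (K' - K2) := by ring
    rw [e]
    refine (abs_sub _ _).trans ?_
    rw [abs_neg]
    linarith
  refine (abs_add_three _ _ _).trans ?_
  rw [abs_mul, abs_mul, abs_mul]
  calc |A - A'| * |A + A' - (A1 + A2)| + |y - y'| * |y + y' - (y1 + y2)| +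
        |hd'| * |K1 + K2 - (K + K')| ≤
      (C * n) * (C * (m1 + m2)) + n * (m1 + m2) + (C * n) * (C * (m1 + m2)) := by gcongr
    _ = _ := by ring

/-- The gradient of `B(Y - Y1, Y - Y2)` from below. -/
theorem cta_grad {α β : ℝ} (hα : α ≠ 0) : ∃ γ C : ℝ, 0 < γ ∧ 0 < C ∧
    ∀ d, 0 ≤ d → d ≤ 1 → ∀ t y t1 y1 t2 y2, Rg α β d t y → Rg α β d t1 y1 → Rg α β d t2 y2 →
      γ * (|2 * t - (t1 + t2)| + |2 * y - (y1 + y2)|) ≤
        |sT α (AA α β t1 y1 + AA α β t2 y2) (HH α β d t1 y1 + HH α β d t2 y2)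
          (AA α β t y) (AA α β t y) (HH α β d t y) (HH α β d t y)| +
        |sY α β (AA α β t1 y1 + AA α β t2 y2) (HH α β d t1 y1 + HH α β d t2 y2) (y1 + y2) y y
          (AA α β t y) (AA α β t y) (HH α β d t y) (HH α β d t y)| +
        C * (nn t y t1 y1 ^ 2 + nn t y t2 y2 ^ 2) := by
  have hα' : 0 < |α| := abs_pos.2 hα
  obtain ⟨γ, G, hγ, hG, HG⟩ := gm_bd (β := β) hα
  obtain ⟨C, hC, H⟩ := chord (β := β) hα
  obtain ⟨P, hP⟩ : ∃ P : ℝ, P = 24 * (1 + |α| + |β|) / |α| := ⟨_, rfl⟩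
  have hP0 : 0 < P := by rw [hP]; positivity
  refine ⟨γ / 2, 2 * (P * C), by positivity, by positivity, ?_⟩
  intro d hd0 hd t y t1 y1 t2 y2 h h1 h2
  obtain ⟨a1, -, a3, -, -, -, -⟩ := rg_bd hα h
  obtain ⟨-, -, -, g4⟩ := HG d hd0 hd t y h
  have g5 := g4 (2 * t - (t1 + t2)) (2 * y - (y1 + y2))
  rw [pg_gm] at g5
  obtain ⟨-, -, -, -, -, p6, p7⟩ := H d hd0 hd t y t1 y1 h h1
  obtain ⟨-, -, -, -, -, q6, q7⟩ := H d hd0 hd t y t2 y2 h h2
  obtain ⟨f1, f2, f3, f4, -⟩ := gm_cf hα h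
  rw [← hP] at f1 f2 f3 f4
  have e0 := dh_eq hα h
  have e1 := dh_eq hα h1
  have e2 := dh_eq hα h2
  have hA : 0 < AA α β t y := by linarith
  have hH : 0 < HH α β d t y := by linarith
  -- the slopes as combinations of the chord sums
  have eT : sT α (AA α β t1 y1 + AA α β t2 y2) (HH α β d t1 y1 + HH α β d t2 y2)
      (AA α β t y) (AA α β t y) (HH α β d t y) (HH α β d t y) =
      1 / (2 * α * AA α β t y) * (2 * AA α β t y - (AA α β t1 y1 + AA α β t2 y2)) +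
      d ^ 2 * (1 / (2 * α * HH α β d t y) *
        (2 * hh α β d t y - (hh α β d t1 y1 + hh α β d t2 y2))) := by
    have e3 : d ^ 2 * (1 / (2 * α * HH α β d t y) *
        (2 * hh α β d t y - (hh α β d t1 y1 + hh α β d t2 y2))) =
        1 / (2 * α * HH α β d t y) *
          (HH α β d t1 y1 + HH α β d t2 y2 - 2 * HH α β d t y) := by
      linear_combination (1 / (2 * α * HH α β d t y)) * (2 * e0 - e1 - e2)
    rw [e3]
    unfold sT
    field_simp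
    ring
  have eY : sY α β (AA α β t1 y1 + AA α β t2 y2) (HH α β d t1 y1 + HH α β d t2 y2) (y1 + y2) y y
      (AA α β t y) (AA α β t y) (HH α β d t y) (HH α β d t y) =
      -(β * y) / (α * AA α β t y) * (2 * AA α β t y - (AA α β t1 y1 + AA α β t2 y2)) +
      (2 * y - (y1 + y2)) + d ^ 2 * ((α - β) * y / (α * HH α β d t y) *
        (2 * hh α β d t y - (hh α β d t1 y1 + hh α β d t2 y2))) := by
    have e3 : d ^ 2 * ((α - β) * y / (α * HH α β d t y) *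
        (2 * hh α β d t y - (hh α β d t1 y1 + hh α β d t2 y2))) =
        (α - β) * y / (α * HH α β d t y) *
          (HH α β d t1 y1 + HH α β d t2 y2 - 2 * HH α β d t y) := by
      linear_combination ((α - β) * y / (α * HH α β d t y)) * (2 * e0 - e1 - e2)
    rw [e3]
    unfold sY
    field_simp
    ring
  rw [eT, eY]
  have n1 : 0 ≤ nn t y t1 y1 := by unfold nn; positivity
  have n2 : 0 ≤ nn t y t2 y2 := by unfold nn; positivity
  generalize 1 / (2 * α * AA α β t y) = a at *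
  generalize -(β * y) / (α * AA α β t y) = b at *
  generalize 1 / (2 * α * HH α β d t y) = e at *
  generalize (α - β) * y / (α * HH α β d t y) = f at *
  generalize nn t y t1 y1 = m1 at *
  generalize nn t y t2 y2 = m2 at *
  obtain ⟨v1, hv1⟩ : ∃ v1 : ℝ, v1 = 2 * t - (t1 + t2) := ⟨_, rfl⟩
  obtain ⟨v2, hv2⟩ : ∃ v2 : ℝ, v2 = 2 * y - (y1 + y2) := ⟨_, rfl⟩
  obtain ⟨x, hx⟩ : ∃ x : ℝ, x = 2 * AA α β t y - (AA α β t1 y1 + AA α β t2 y2) := ⟨_, rfl⟩
  obtain ⟨z, hz⟩ : ∃ z : ℝ, z = 2 * hh α β d t y - (hh α β d t1 y1 + hh α β d t2 y2) := ⟨_, rfl⟩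
  rw [← hv1, ← hv2] at g5
  rw [← hv1, ← hv2, ← hx, ← hz]
  have ex : |x - (a * v1 + b * v2)| ≤ C * (m1 ^ 2 + m2 ^ 2) := by
    have e5 : x - (a * v1 + b * v2) =
        (AA α β t y - AA α β t1 y1 - (a * (t - t1) + b * (y - y1))) +
        (AA α β t y - AA α β t2 y2 - (a * (t - t2) + b * (y - y2))) := by
      rw [hx, hv1, hv2]
      ring
    rw [e5]
    refine (abs_add_le _ _).trans ?_
    linarith
  have ez : |z - (e * v1 + f * v2)| ≤ C * (m1 ^ 2 + m2 ^ 2) := by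
    have e5 : z - (e * v1 + f * v2) =
        (hh α β d t y - hh α β d t1 y1 - (e * (t - t1) + f * (y - y1))) +
        (hh α β d t y - hh α β d t2 y2 - (e * (t - t2) + f * (y - y2))) := by
      rw [hz, hv1, hv2]
      ring
    rw [e5]
    refine (abs_add_le _ _).trans ?_
    linarith
  have hd2 : d ^ 2 ≤ 1 := pow_le_one₀ hd0 hd
  have hd20 : 0 ≤ d ^ 2 := sq_nonneg d
  generalize 2 * t - (t1 + t2) = vv1 at *
  generalize 2 * y - (y1 + y2) = vv2 at *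
  obtain ⟨V, hV⟩ : ∃ V : ℝ, V = |v1| + |v2| := ⟨_, rfl⟩
  rw [← hV]
  have hV0 : 0 ≤ V := by rw [hV]; positivity
  have lin : ∀ a b : ℝ, |a| ≤ P → |b| ≤ P → |a * v1 + b * v2| ≤ P * V := by
    intro a b ha hb
    refine (abs_add_le _ _).trans ?_
    rw [abs_mul, abs_mul, hV]
    calc |a| * |v1| + |b| * |v2| ≤ P * |v1| + P * |v2| := by gcongr
      _ = _ := by ring
  have s1 := lin a b f1 f2
  have s2 := lin e f f3 f4
  obtain ⟨Pt, hPt⟩ : ∃ Pt : ℝ, Pt = a * x + d ^ 2 * (e * z) := ⟨_, rfl⟩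
  obtain ⟨Py, hPy⟩ : ∃ Py : ℝ, Py = b * x + v2 + d ^ 2 * (f * z) := ⟨_, rfl⟩
  rw [← hPt, ← hPy]
  have key : (a * v1 + b * v2) * (a * v1 + b * v2) + v2 * v2 +
      d ^ 2 * ((e * v1 + f * v2) * (e * v1 + f * v2)) =
      v1 * Pt + v2 * Py - ((a * v1 + b * v2) * (x - (a * v1 + b * v2)) +
        d ^ 2 * ((e * v1 + f * v2) * (z - (e * v1 + f * v2)))) := by
    rw [hPt, hPy]
    ring
  rw [key] at g5
  have hm : 0 ≤ m1 ^ 2 + m2 ^ 2 := by positivity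
  have t1' : v1 * Pt + v2 * Py ≤ V * (|Pt| + |Py|) := by
    have k1 : v1 * Pt ≤ |v1| * |Pt| := by
      rw [← abs_mul]
      exact le_abs_self _
    have k2 : v2 * Py ≤ |v2| * |Py| := by
      rw [← abs_mul]
      exact le_abs_self _
    have k3 : 0 ≤ |v1| * |Py| := by positivity
    have k4 : 0 ≤ |v2| * |Pt| := by positivity
    rw [hV]
    linarith
  have t2' : -((a * v1 + b * v2) * (x - (a * v1 + b * v2)) +
        d ^ 2 * ((e * v1 + f * v2) * (z - (e * v1 + f * v2)))) ≤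
      2 * (P * V * (C * (m1 ^ 2 + m2 ^ 2))) := by
    refine (neg_le_abs _).trans ((abs_add_le _ _).trans ?_)
    have k1 : |(a * v1 + b * v2) * (x - (a * v1 + b * v2))| ≤
        P * V * (C * (m1 ^ 2 + m2 ^ 2)) := by
      rw [abs_mul]
      gcongr
    have k2 : |d ^ 2 * ((e * v1 + f * v2) * (z - (e * v1 + f * v2)))| ≤
        1 * (P * V * (C * (m1 ^ 2 + m2 ^ 2))) := by
      rw [abs_mul, abs_mul, abs_of_nonneg hd20]
      gcongr
    linarith
  have hVV : V ^ 2 ≤ 2 * (v1 ^ 2 + v2 ^ 2) := by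
    rw [hV]
    nlinarith [sq_nonneg (|v1| - |v2|), sq_abs v1, sq_abs v2]
  have fin : γ / 2 * V * V ≤ (|Pt| + |Py| + 2 * (P * C) * (m1 ^ 2 + m2 ^ 2)) * V := by
    have k1 : γ / 2 * V ^ 2 ≤ γ / 2 * (2 * (v1 ^ 2 + v2 ^ 2)) := by gcongr
    obtain ⟨W, hW⟩ : ∃ W : ℝ, W = (a * v1 + b * v2) * (x - (a * v1 + b * v2)) +
        d ^ 2 * ((e * v1 + f * v2) * (z - (e * v1 + f * v2))) := ⟨_, rfl⟩
    rw [← hW] at g5 t2'
    calc γ / 2 * V * V = γ / 2 * V ^ 2 := by ring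
      _ ≤ γ / 2 * (2 * (v1 ^ 2 + v2 ^ 2)) := k1
      _ = γ * (v1 ^ 2 + v2 ^ 2) := by ring
      _ ≤ V * (|Pt| + |Py|) + 2 * (P * V * (C * (m1 ^ 2 + m2 ^ 2))) := by linarith
      _ = _ := by ring
  rcases hV0.eq_or_lt with h0 | h0
  · rw [← h0, mul_zero]
    positivity
  · exact le_of_mul_le_mul_right fin h0

/-- The quadratic relations. -/
theorem cta_quad {α β : ℝ} (hα : α ≠ 0) : ∃ γ G C : ℝ, 0 < γ ∧ 0 < G ∧ 0 < C ∧
    ∀ d, 0 ≤ d → d ≤ 1 → ∀ t y t1 y1 t2 y2, Rg α β d t y → Rg α β d t1 y1 → Rg α β d t2 y2 →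
      γ * (|2 * t - (t1 + t2)| + |2 * y - (y1 + y2)|) ^ 2 ≤ G * nn t1 y1 t2 y2 ^ 2 +
        4 * |BB α β d t y t1 y1 t2 y2| +
        C * (nn t y t1 y1 * nn t y t2 y2) * (nn t y t1 y1 + nn t y t2 y2) ∧
      γ * nn t1 y1 t2 y2 ^ 2 ≤ G * (|2 * t - (t1 + t2)| + |2 * y - (y1 + y2)|) ^ 2 +
        4 * |BB α β d t y t1 y1 t2 y2| +
        C * (nn t y t1 y1 * nn t y t2 y2) * (nn t y t1 y1 + nn t y t2 y2) ∧
      nn t y t1 y1 + nn t y t2 y2 ≤
        (|2 * t - (t1 + t2)| + |2 * y - (y1 + y2)|) + nn t1 y1 t2 y2 := by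
  obtain ⟨γ, G, hγ, hG, HG⟩ := gm_bd (β := β) hα
  obtain ⟨C, hC, HB⟩ := BB_exp (β := β) hα
  refine ⟨γ / 2, G, 4 * C, by positivity, hG, by positivity, ?_⟩
  intro d hd0 hd t y t1 y1 t2 y2 h h1 h2
  obtain ⟨g1, g2, g3, g4⟩ := HG d hd0 hd t y h
  have hB := HB d hd0 hd t y t1 y1 t2 y2 h h1 h2
  have gv := g4 (2 * t - (t1 + t2)) (2 * y - (y1 + y2))
  have gD := g4 (t1 - t2) (y1 - y2)
  have lv := pg_le g1 g2 g3 (2 * t - (t1 + t2)) (2 * y - (y1 + y2)) (2 * t - (t1 + t2))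
    (2 * y - (y1 + y2))
  have lD := pg_le g1 g2 g3 (t1 - t2) (y1 - y2) (t1 - t2) (y1 - y2)
  have pol : pg (gm1 α β d t y) (gm2 α β d t y) (gm3 α β d t y) (2 * t - (t1 + t2))
      (2 * y - (y1 + y2)) (2 * t - (t1 + t2)) (2 * y - (y1 + y2)) =
      pg (gm1 α β d t y) (gm2 α β d t y) (gm3 α β d t y) (t1 - t2) (y1 - y2) (t1 - t2) (y1 - y2) +
      4 * pg (gm1 α β d t y) (gm2 α β d t y) (gm3 α β d t y) (t - t1) (y - y1) (t - t2)
        (y - y2) := by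
    unfold pg
    ring
  have hsq : ∀ a b : ℝ, (|a| + |b|) ^ 2 ≤ 2 * (a ^ 2 + b ^ 2) := by
    intro a b
    nlinarith [sq_nonneg (|a| - |b|), sq_abs a, sq_abs b]
  have q1 := hsq (2 * t - (t1 + t2)) (2 * y - (y1 + y2))
  have q2 := hsq (t1 - t2) (y1 - y2)
  have hnn : nn t1 y1 t2 y2 = |t1 - t2| + |y1 - y2| := rfl
  rw [← hnn] at q2 lD
  have k1 := abs_le.1 hB
  have k2 := abs_le.1 lv
  have k3 := abs_le.1 lD
  have k4 := abs_le.1 (le_refl |BB α β d t y t1 y1 t2 y2|)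
  obtain ⟨V, hV⟩ : ∃ V : ℝ, V = |2 * t - (t1 + t2)| + |2 * y - (y1 + y2)| := ⟨_, rfl⟩
  rw [← hV] at q1 k2 ⊢
  generalize pg (gm1 α β d t y) (gm2 α β d t y) (gm3 α β d t y) (2 * t - (t1 + t2))
      (2 * y - (y1 + y2)) (2 * t - (t1 + t2)) (2 * y - (y1 + y2)) = a at *
  generalize pg (gm1 α β d t y) (gm2 α β d t y) (gm3 α β d t y) (t1 - t2) (y1 - y2) (t1 - t2)
    (y1 - y2) = b at *
  generalize pg (gm1 α β d t y) (gm2 α β d t y) (gm3 α β d t y) (t - t1) (y - y1) (t - t2)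
        (y - y2) = c at *
  have m1 : γ / 2 * V ^ 2 ≤ γ / 2 * (2 * ((2 * t - (t1 + t2)) ^ 2 + (2 * y - (y1 + y2)) ^ 2)) := by
    gcongr
  have m2 : γ / 2 * nn t1 y1 t2 y2 ^ 2 ≤ γ / 2 * (2 * ((t1 - t2) ^ 2 + (y1 - y2) ^ 2)) := by
    gcongr
  refine ⟨?_, ?_, ?_⟩
  · nlinarith [k1.1, k1.2, k2.1, k2.2, k3.1, k3.2, k4.1, k4.2]
  · nlinarith [k1.1, k1.2, k2.1, k2.2, k3.1, k3.2, k4.1, k4.2]
  · have e1 : ∀ a b c : ℝ, |a - b| + |a - c| ≤ |2 * a - (b + c)| + |b - c| := by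
      intro a b c
      have f1 : |a - b| ≤ (|2 * a - (b + c)| + |b - c|) / 2 := by
        have : a - b = ((2 * a - (b + c)) - (b - c)) / 2 := by ring
        rw [this, abs_div, abs_two]
        gcongr
        exact abs_sub _ _
      have f2 : |a - c| ≤ (|2 * a - (b + c)| + |b - c|) / 2 := by
        have : a - c = ((2 * a - (b + c)) + (b - c)) / 2 := by ring
        rw [this, abs_div, abs_two]
        gcongr
        exact abs_add_le _ _
      linarith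
    have := e1 t t1 t2
    have := e1 y y1 y2
    rw [hV]
    unfold nn
    linarith

end Pool.Agent.LQ
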