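import Pool.Agent.LQ.CTA2

/-!
[LEAFQ] cells met by a Thales curve: the row.
-/

set_option autoImplicit false

namespace Pool.Agent.LQ

open Set

/-- The numbers. -/
theorem cta_num {γ G C γ' C' : ℝ} (hγ : 0 < γ) (hG : 0 < G) (hC : 0 < C) (hγ' : 0 < γ')
    (hC' : 0 < C') : ∃ K Q N c4 c1 : ℝ, 1 ≤ K ∧ 0 < Q ∧ 0 < N ∧ 0 < c4 ∧ 0 < c1 ∧
    ∀ c0 x r V D F n1 n2 Pg : ℝ, 0 ≤ c0 → c0 ≤ c1 → 0 < x → 0 ≤ V → 0 ≤ D → 0 ≤ F →
      0 ≤ n1 → 0 ≤ n2 → n1 ≤ 6 * c0 → n2 ≤ 6 * c0 → n1 + n2 ≤ V + D →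
      γ * V ^ 2 ≤ G * D ^ 2 + 4 * F + C * (n1 * n2) * (n1 + n2) →
      γ * D ^ 2 ≤ G * V ^ 2 + 4 * F + C * (n1 * n2) * (n1 + n2) →
      γ' * V ≤ Pg + C' * (n1 ^ 2 + n2 ^ 2) → F ≤ x * (n1 + n2) + x ^ 2 →
      (D ≤ K * x → n1 + n2 ≤ Q * x) ∧
      (K * x < D → n1 + n2 ≤ N * D ∧ F ≤ (N + 1) * x * D ∧ x ≤ D ∧ c4 * D ≤ Pg) := by
  obtain ⟨q2, hq2⟩ : ∃ q2 : ℝ, q2 = 4 / γ * (G + γ + 8 + 16 / γ) := ⟨_, rfl⟩
  have hq20 : 0 < q2 := by rw [hq2]; positivity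
  obtain ⟨N, hN⟩ : ∃ N : ℝ, N = q2 + 2 := ⟨_, rfl⟩
  have hN0 : 0 < N := by rw [hN]; positivity
  obtain ⟨K, hK⟩ : ∃ K : ℝ, K = 1 + 16 * (N + 1) / γ := ⟨_, rfl⟩
  have hK1 : 1 ≤ K := by
    rw [hK]
    have : 0 < 16 * (N + 1) / γ := by positivity
    linarith
  obtain ⟨q1, hq1⟩ : ∃ q1 : ℝ, q1 = 4 / γ * ((G + γ) * K ^ 2 + 4 * K + 4 + 16 / γ) := ⟨_, rfl⟩
  have hq10 : 0 < q1 := by rw [hq1]; positivity
  obtain ⟨c3, hc3⟩ : ∃ c3 : ℝ, c3 = min 1 (γ / (2 * G)) := ⟨_, rfl⟩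
  have hc30 : 0 < c3 := by rw [hc3]; positivity
  have hc31 : c3 ≤ 1 := by rw [hc3]; exact min_le_left _ _
  have hc32 : c3 ≤ γ / (2 * G) := by rw [hc3]; exact min_le_right _ _
  refine ⟨K, q1 + 1 + K, N, γ' * c3 / 2,
    min (γ / (96 * C)) (min (γ / (12 * C * N ^ 2)) (γ' * c3 / (12 * C' * N))), hK1, by positivity,
    hN0, by positivity, by positivity, ?_⟩
  intro c0 x r V D F n1 n2 Pg hc0 hc hx hV hD hF hn1 hn2 hn1c hn2c hn ha hb hg hFx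
  have l1 : c0 ≤ γ / (96 * C) := hc.trans (min_le_left _ _)
  have l2 : c0 ≤ γ / (12 * C * N ^ 2) := hc.trans ((min_le_right _ _).trans (min_le_left _ _))
  have l3 : c0 ≤ γ' * c3 / (12 * C' * N) :=
    hc.trans ((min_le_right _ _).trans (min_le_right _ _))
  obtain ⟨n, hnn⟩ : ∃ n : ℝ, n = n1 + n2 := ⟨_, rfl⟩
  have hn0 : 0 ≤ n := by rw [hnn]; positivity
  rw [← hnn] at hn ha hb hFx ⊢
  have hE : C * (n1 * n2) * n ≤ 3 * C * c0 * n ^ 2 := by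
    have h1 : n1 * n2 ≤ n ^ 2 / 4 := by
      rw [hnn]
      nlinarith [sq_nonneg (n1 - n2)]
    have h2 : n ≤ 12 * c0 := by linarith
    calc C * (n1 * n2) * n ≤ C * (n ^ 2 / 4) * (12 * c0) := by gcongr
      _ = _ := by ring
  have hμ1 : 3 * C * c0 ≤ γ / 32 := by
    calc 3 * C * c0 ≤ 3 * C * (γ / (96 * C)) := by gcongr
      _ = γ / 32 := by field_simp; ring
  have hμ2 : 3 * C * c0 * N ^ 2 ≤ γ / 4 := by
    calc 3 * C * c0 * N ^ 2 ≤ 3 * C * (γ / (12 * C * N ^ 2)) * N ^ 2 := by gcongr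
      _ = γ / 4 := by field_simp; ring
  have hμ0 : 0 ≤ 3 * C * c0 := by positivity
  have hn2' : n ^ 2 ≤ 2 * V ^ 2 + 2 * D ^ 2 := by
    have : n ^ 2 ≤ (V + D) ^ 2 := by gcongr
    nlinarith [sq_nonneg (V - D)]
  have hE1 : C * (n1 * n2) * n ≤ γ / 16 * V ^ 2 + γ / 16 * D ^ 2 := by
    refine hE.trans ?_
    calc 3 * C * c0 * n ^ 2 ≤ γ / 32 * (2 * V ^ 2 + 2 * D ^ 2) := by gcongr
      _ = _ := by ring
  -- the first inequality
  have hA : γ / 2 * V ^ 2 ≤ (G + γ) * D ^ 2 + 4 * (x * (V + D) + x ^ 2) := by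
    have h1 : F ≤ x * (V + D) + x ^ 2 := by
      have : x * n ≤ x * (V + D) := by gcongr
      linarith
    have h2 : 0 ≤ γ * V ^ 2 := by positivity
    have h3 : 0 ≤ γ * D ^ 2 := by positivity
    linarith
  have amgm : ∀ z : ℝ, 4 * z * V ≤ γ / 4 * V ^ 2 + 16 / γ * z ^ 2 := by
    intro z
    have h1 : γ / 4 * V ^ 2 + 16 / γ * z ^ 2 - 4 * z * V = (γ * V - 8 * z) ^ 2 / (4 * γ) := by
      field_simp
      ring
    have h2 : 0 ≤ (γ * V - 8 * z) ^ 2 / (4 * γ) := by positivity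
    linarith
  have root : ∀ q z : ℝ, 0 < q → 0 ≤ z → V ^ 2 ≤ q * z ^ 2 → V ≤ (q + 1) * z := by
    intro q z hq hz h
    refine abs_le_of_sq_le_sq' ?_ (by positivity) |>.2
    rw [mul_pow]
    refine h.trans ?_
    gcongr
    nlinarith
  constructor
  · intro hDx
    have h1 := amgm x
    have h2 : D ^ 2 ≤ K ^ 2 * x ^ 2 := by
      rw [← mul_pow]
      gcongr
    have h3 : x * D ≤ K * x ^ 2 := by
      calc x * D ≤ x * (K * x) := by gcongr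
        _ = _ := by ring
    have h4 : V ^ 2 ≤ q1 * x ^ 2 := by
      have h5 : γ / 4 * V ^ 2 ≤ ((G + γ) * K ^ 2 + 4 * K + 4 + 16 / γ) * x ^ 2 := by
        have h6 : (G + γ) * D ^ 2 ≤ (G + γ) * (K ^ 2 * x ^ 2) := by gcongr
        linarith
      calc V ^ 2 = 4 / γ * (γ / 4 * V ^ 2) := by field_simp
        _ ≤ 4 / γ * (((G + γ) * K ^ 2 + 4 * K + 4 + 16 / γ) * x ^ 2) := by gcongr
        _ = q1 * x ^ 2 := by rw [hq1]; ring
    have h5 := root q1 x hq10 hx.le h4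
    linarith
  · intro hxD
    have hxD1 : x ≤ D := by
      have : x ≤ K * x := le_mul_of_one_le_left hx.le hK1
      linarith
    have hD0 : 0 < D := lt_of_lt_of_le hx hxD1
    have h1 := amgm D
    have h4 : V ^ 2 ≤ q2 * D ^ 2 := by
      have h5 : γ / 4 * V ^ 2 ≤ (G + γ + 8 + 16 / γ) * D ^ 2 := by
        have h6 : x * (V + D) + x ^ 2 ≤ D * (V + D) + D ^ 2 := by gcongr
        linarith
      calc V ^ 2 = 4 / γ * (γ / 4 * V ^ 2) := by field_simp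
        _ ≤ 4 / γ * ((G + γ + 8 + 16 / γ) * D ^ 2) := by gcongr
        _ = q2 * D ^ 2 := by rw [hq2]; ring
    have h5 := root q2 D hq20 hD h4
    have hnD : n ≤ N * D := by
      rw [hN]
      linarith
    have hFD : F ≤ (N + 1) * x * D := by
      have h6 : x * n ≤ x * (N * D) := by gcongr
      have h7 : x ^ 2 ≤ x * D := by
        rw [sq]
        gcongr
      linarith
    refine ⟨hnD, hFD, hxD1, ?_⟩
    -- the lower bound of `V`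
    have hxK : 4 * F ≤ γ / 4 * D ^ 2 := by
      have h6 : 16 * (N + 1) / γ * x ≤ D := by
        have : K * x = x + 16 * (N + 1) / γ * x := by rw [hK]; ring
        linarith
      have h7 : 4 * ((N + 1) * x * D) = γ / 4 * (16 * (N + 1) / γ * x * D) := by
        field_simp
        ring
      have h8 : 16 * (N + 1) / γ * x * D ≤ D * D := by gcongr
      calc 4 * F ≤ 4 * ((N + 1) * x * D) := by gcongr
        _ = γ / 4 * (16 * (N + 1) / γ * x * D) := h7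
        _ ≤ γ / 4 * (D * D) := by gcongr
        _ = _ := by ring
    have hE2 : C * (n1 * n2) * n ≤ γ / 4 * D ^ 2 := by
      refine hE.trans ?_
      calc 3 * C * c0 * n ^ 2 ≤ 3 * C * c0 * (N * D) ^ 2 := by gcongr
        _ = 3 * C * c0 * N ^ 2 * D ^ 2 := by ring
        _ ≤ _ := by gcongr
    have hV2 : γ / 2 * D ^ 2 ≤ G * V ^ 2 := by linarith
    have hVD : c3 * D ≤ V := by
      refine abs_le_of_sq_le_sq' ?_ hV |>.2
      have h6 : c3 ^ 2 ≤ γ / (2 * G) := by nlinarith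
      calc (c3 * D) ^ 2 = c3 ^ 2 * D ^ 2 := by ring
        _ ≤ γ / (2 * G) * D ^ 2 := by gcongr
        _ = (γ / 2 * D ^ 2) / G := by field_simp
        _ ≤ (G * V ^ 2) / G := by gcongr
        _ = V ^ 2 := by field_simp
    have hnsq : n1 ^ 2 + n2 ^ 2 ≤ 6 * c0 * (N * D) := by
      have h6 : n1 ^ 2 ≤ 6 * c0 * n1 := by
        rw [sq]
        gcongr
      have h7 : n2 ^ 2 ≤ 6 * c0 * n2 := by
        rw [sq]
        gcongr
      have h8 : 6 * c0 * n ≤ 6 * c0 * (N * D) := by gcongr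
      rw [hnn] at h8
      linarith
    have hCN : C' * (6 * c0 * (N * D)) ≤ γ' * c3 / 2 * D := by
      calc C' * (6 * c0 * (N * D)) ≤ C' * (6 * (γ' * c3 / (12 * C' * N)) * (N * D)) := by gcongr
        _ = _ := by field_simp; ring
    have h9 : γ' * (c3 * D) ≤ γ' * V := by gcongr
    have h10 : C' * (n1 ^ 2 + n2 ^ 2) ≤ C' * (6 * c0 * (N * D)) := by gcongr
    linarith

/-- The union of four. -/
theorem cta_four {ι : Type*} {S S1 S2 S3 S4 : Set ι} {B : ℝ} (h : S ⊆ S1 ∪ S2 ∪ S3 ∪ S4)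
    (h1 : S1.Finite ∧ (S1.ncard : ℝ) ≤ B) (h2 : S2.Finite ∧ (S2.ncard : ℝ) ≤ B)
    (h3 : S3.Finite ∧ (S3.ncard : ℝ) ≤ B) (h4 : S4.Finite ∧ (S4.ncard : ℝ) ≤ B) :
    S.Finite ∧ (S.ncard : ℝ) ≤ 4 * B := by
  have hf : (S1 ∪ S2 ∪ S3 ∪ S4).Finite := ((h1.1.union h2.1).union h3.1).union h4.1
  refine ⟨hf.subset h, ?_⟩
  have k1 := Set.ncard_le_ncard h hf
  have k2 := Set.ncard_union_le (S1 ∪ S2 ∪ S3) S4
  have k3 := Set.ncard_union_le (S1 ∪ S2) S3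
  have k4 := Set.ncard_union_le S1 S2
  have k5 : S.ncard ≤ S1.ncard + S2.ncard + S3.ncard + S4.ncard := by omega
  have k6 : (S.ncard : ℝ) ≤ S1.ncard + S2.ncard + S3.ncard + S4.ncard := by exact_mod_cast k5
  linarith [h1.2, h2.2, h3.2, h4.2]

end Pool.Agent.LQ
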