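import Pool.Agent.LQ.RE

/-!
[LEAFQ] row DE.
-/

set_option autoImplicit false

namespace Pool.Agent.LQ

theorem nn_comm (t y t' y' : ℝ) : nn t y t' y' = nn t' y' t y := by
  unfold nn
  rw [abs_sub_comm t, abs_sub_comm y]

theorem Nt_eq {α β d t y t' y' : ℝ} (hα : α ≠ 0) (h : Rg α β d t y) (h' : Rg α β d t' y') :
    Nt α β d t y t' y' = 1 / (2 * α * AA α β t' y') * (AA α β t y - AA α β t' y') +
      d ^ 2 * (1 / (2 * α * HH α β d t' y') * (hh α β d t y - hh α β d t' y')) := by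
  obtain ⟨b1, -, b3, -, -, -, -⟩ := rg_bd hα h'
  have e := difH hα h h'
  have hA : 0 < AA α β t' y' := by linarith
  have hH : 0 < HH α β d t' y' := by linarith
  have e2 : HH α β d t y = HH α β d t' y' - d ^ 2 * (hh α β d t y - hh α β d t' y') := by
    linarith
  unfold Nt Tw
  rw [e2]
  field_simp
  ring

theorem Ny_eq {α β d t y t' y' : ℝ} (hα : α ≠ 0) (h : Rg α β d t y) (h' : Rg α β d t' y') :
    Ny α β d t y t' y' = (y - y') + -(β * y') / (α * AA α β t' y') *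
        (AA α β t y - AA α β t' y') +
      d ^ 2 * ((α - β) * y' / (α * HH α β d t' y') * (hh α β d t y - hh α β d t' y')) := by
  obtain ⟨b1, -, b3, -, -, -, -⟩ := rg_bd hα h'
  have e := difH hα h h'
  have hA : 0 < AA α β t' y' := by linarith
  have hH : 0 < HH α β d t' y' := by linarith
  have e2 : HH α β d t y = HH α β d t' y' - d ^ 2 * (hh α β d t y - hh α β d t' y') := by
    linarith
  unfold Ny Uw Lw
  rw [e2]
  field_simp
  ring

theorem row_DE {α β : ℝ} (hα : α ≠ 0) (hβ : β ≠ 0) (hαβ : α ≠ β) : ∃ c M c1 : ℝ, 0 < c ∧ 1 ≤ M ∧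
    0 < c1 ∧ ∀ c0, 0 < c0 → c0 ≤ c1 → ∀ d, 0 ≤ d → d ≤ 1 → ∀ t0 y0, Rs α β d t0 y0 → y0 ≠ 0 →
      ∀ t y t' y', Bx c0 t0 y0 t y → Bx c0 t0 y0 t' y' →
      ∀ w1 w2 w3 ε, 0 ≤ ε → 1 / 16 ≤ w1 ^ 2 + w2 ^ 2 + w3 ^ 2 → w1 ^ 2 + w2 ^ 2 + w3 ^ 2 ≤ 64 →
        |Uw α β d w1 w2 w3 t y| ≤ ε → |Uw α β d w1 w2 w3 t' y'| ≤ ε →
        M * ε ≤ |y0| * nn t y t' y' →
        c * nn t y t' y' * (|lw α β d w1 w3 t' y'| + |y0|) ≤
          |Nt α β d t y t' y' * lw α β d w1 w3 t' y' -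
            Ny α β d t y t' y' * (y' * mw α β d w1 w3 t' y')| := by
  have hα' : 0 < |α| := abs_pos.2 hα
  obtain ⟨γ, G, hγ, hG, HG⟩ := gm_bd (β := β) hα
  obtain ⟨C, hC, HB⟩ := chord (β := β) hα
  obtain ⟨q, hq, K⟩ := ker_ge hα hβ hαβ
  obtain ⟨η, hη⟩ : ∃ η : ℝ, η = γ / (16 * γ + 96 * G) := ⟨_, rfl⟩
  have hη0 : 0 < η := by rw [hη]; positivity
  have hη1 : η * (16 * γ + 96 * G) ≤ γ := by
    rw [hη]
    have : 0 < 16 * γ + 96 * G := by positivity
    rw [div_mul_cancel₀ _ this.ne']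
  obtain ⟨M, c1, hM, hc1, hc18, HC⟩ := cross hα hβ hαβ η hη0
  obtain ⟨P, hP⟩ : ∃ P : ℝ, P = 24 * (1 + |α| + |β|) / |α| := ⟨_, rfl⟩
  have hP0 : 0 < P := by rw [hP]; positivity
  refine ⟨γ * q / 32, M, min c1 (min (q / 12) (γ / (192 * C * P))), by positivity, hM,
    by positivity, ?_⟩
  intro c0 hc0 hc d hd0 hd t0 y0 hs hy0 t y t' y' b b' w1 w2 w3 ε hε hw hw' hu hu' h1
  have l1 : c0 ≤ c1 := hc.trans (min_le_left _ _)
  have l2 : c0 ≤ q / 12 := hc.trans ((min_le_right _ _).trans (min_le_left _ _))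
  have l3 : c0 ≤ γ / (192 * C * P) := hc.trans ((min_le_right _ _).trans (min_le_right _ _))
  rw [nn_comm] at h1 ⊢
  obtain ⟨r1, r2, n1, k0, k1⟩ := HC c0 hc0 l1 d hd0 hd t0 y0 hs hy0 t' y' t y b' b w1 w2 w3 ε hε
    hw hw' hu' hu h1
  obtain ⟨g1, g2, g3, g4⟩ := HG d hd0 hd t' y' r1
  obtain ⟨-, -, x3, x4, -, -⟩ := bx_le (l1.trans hc18) hs.1 b' b
  have hn : 0 ≤ nn t' y' t y := by unfold nn; positivity
  have hεq : ε ≤ q := by
    have h5 : ε ≤ M * ε := le_mul_of_one_le_left hε hM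
    have h6 : |y0| * nn t' y' t y ≤ 2 * (6 * c0) := by
      have := hs.1
      gcongr
    linarith
  have hk := K d hd0 hd t' y' w1 w2 w3 ε r1 hw hu' hεq
  have hp := pg_par hγ g1 g2 g3 g4 hη0.le hη1 (v1 := lw α β d w1 w3 t' y')
    (v2 := -(y' * mw α β d w1 w3 t' y')) k0 k1 (by
      rw [mul_comm (lw α β d w1 w3 t' y'), sub_self, abs_zero]
      positivity)
  obtain ⟨-, -, -, -, -, p6, p7⟩ := HB d hd0 hd t' y' t y r1 r2
  obtain ⟨f1, f2, f3, f4, -⟩ := gm_cf hα r1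
  rw [← hP] at f1 f2 f3 f4
  have e1 : |t' - t| + |y' - y| = nn t' y' t y := rfl
  rw [e1] at hp
  rw [pg_gm] at hp
  rw [Nt_eq hα r2 r1, Ny_eq hα r2 r1]
  generalize lw α β d w1 w3 t' y' = l at *
  generalize mw α β d w1 w3 t' y' = m at *
  generalize nn t' y' t y = n at *
  generalize 1 / (2 * α * AA α β t' y') = a at *
  generalize -(β * y') / (α * AA α β t' y') = bb at *
  generalize 1 / (2 * α * HH α β d t' y') = e at *
  generalize (α - β) * y' / (α * HH α β d t' y') = f at *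
  generalize AA α β t y = A at *
  generalize AA α β t' y' = A' at *
  generalize hh α β d t y = h at *
  generalize hh α β d t' y' = h' at *
  obtain ⟨k, hk2⟩ : ∃ k : ℝ, k = |l| + |(-(y' * m))| := ⟨_, rfl⟩
  rw [← hk2] at hp k0 k1
  have hkk : k = |l| + |y' * m| := by rw [hk2, abs_neg]
  rw [← hkk] at hk
  have hd2 : d ^ 2 ≤ 1 := by nlinarith
  have hd20 : 0 ≤ d ^ 2 := sq_nonneg d
  -- the error
  have lin : ∀ a b : ℝ, |a| ≤ P → |b| ≤ P → |a * l + b * -(y' * m)| ≤ P * k := by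
    intro a b ha hb
    refine (abs_add_le _ _).trans ?_
    rw [abs_mul, abs_mul, hk2]
    calc |a| * |l| + |b| * |(-(y' * m))| ≤ P * |l| + P * |(-(y' * m))| := by gcongr
      _ = _ := by ring
  have s1 := lin a bb f1 f2
  have s2 := lin e f f3 f4
  have hE : (a * (A - A') + d ^ 2 * (e * (h - h'))) * l -
      (y - y' + bb * (A - A') + d ^ 2 * (f * (h - h'))) * (y' * m) =
      -((a * (t' - t) + bb * (y' - y)) * (a * l + bb * -(y' * m)) + (y' - y) * -(y' * m) +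
        d ^ 2 * ((e * (t' - t) + f * (y' - y)) * (e * l + f * -(y' * m)))) -
      ((A' - A - (a * (t' - t) + bb * (y' - y))) * (a * l + bb * -(y' * m)) +
        d ^ 2 * ((h' - h - (e * (t' - t) + f * (y' - y))) * (e * l + f * -(y' * m)))) := by ring
  rw [hE]
  have s3 : |(A' - A - (a * (t' - t) + bb * (y' - y))) * (a * l + bb * -(y' * m)) +
        d ^ 2 * ((h' - h - (e * (t' - t) + f * (y' - y))) * (e * l + f * -(y' * m)))| ≤
      2 * (C * n ^ 2 * (P * k)) := by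
    refine (abs_add_le _ _).trans ?_
    have t1 : |(A' - A - (a * (t' - t) + bb * (y' - y))) * (a * l + bb * -(y' * m))| ≤
        C * n ^ 2 * (P * k) := by
      rw [abs_mul]
      gcongr
    have t2 : |d ^ 2 * ((h' - h - (e * (t' - t) + f * (y' - y))) * (e * l + f * -(y' * m)))| ≤
        1 * (C * n ^ 2 * (P * k)) := by
      rw [abs_mul, abs_mul, abs_of_nonneg hd20]
      gcongr
    linarith
  have s4 := abs_sub_abs_le_abs_sub
    (-((a * (t' - t) + bb * (y' - y)) * (a * l + bb * -(y' * m)) + (y' - y) * -(y' * m) +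
        d ^ 2 * ((e * (t' - t) + f * (y' - y)) * (e * l + f * -(y' * m)))))
    ((A' - A - (a * (t' - t) + bb * (y' - y))) * (a * l + bb * -(y' * m)) +
        d ^ 2 * ((h' - h - (e * (t' - t) + f * (y' - y))) * (e * l + f * -(y' * m))))
  rw [abs_neg] at s4
  have s5 : 2 * (C * n ^ 2 * (P * k)) ≤ γ / 16 * (n * k) := by
    have h6 : 2 * C * P * (6 * c0) ≤ γ / 16 := by
      calc 2 * C * P * (6 * c0) ≤ 2 * C * P * (6 * (γ / (192 * C * P))) := by gcongr
        _ = _ := by field_simp; ring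
    calc 2 * (C * n ^ 2 * (P * k)) = 2 * C * P * n * (n * k) := by ring
      _ ≤ 2 * C * P * (6 * c0) * (n * k) := by gcongr
      _ ≤ _ := by gcongr
  have s6 : γ * q / 32 * n * (|l| + |y0|) ≤ γ / 16 * (n * k) := by
    have h7 : q / 2 * (|l| + |y0|) ≤ k := by
      refine le_trans ?_ hk
      have := abs_nonneg l
      nlinarith
    calc γ * q / 32 * n * (|l| + |y0|) = γ / 16 * (n * (q / 2 * (|l| + |y0|))) := by ring
      _ ≤ _ := by gcongr
  have s7 : γ / 8 * (n * k) = γ / 16 * (n * k) + γ / 16 * (n * k) := by ring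
  linarith

end Pool.Agent.LQ
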