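import Pool.Agent.LQ.LIFTQ

/-!
From the diagonal quadratic forms to all quadratic forms of `R^n` (spectral theorem and rotation
invariance of the surface measure).
-/

set_option autoImplicit false

namespace Pool.Agent.LQ

open MeasureTheory Set Pool.Agent.MP_6cbfb8_an
open scoped ENNReal Real

/-- Every quadratic form is diagonal in an orthonormal basis. -/
theorem exists_diag {n : ℕ} (Q : QuadraticForm ℝ (E n)) :
    ∃ (b : Fin n → ℝ) (R : E n ≃ₗᵢ[ℝ] E n), ∀ x, Q x = ∑ i, b i * R x i ^ 2 := by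
  obtain ⟨B, hB⟩ : ∃ B : LinearMap.BilinForm ℝ (E n), B = QuadraticMap.associated Q := ⟨_, rfl⟩
  have hBs : ∀ x y, B x y = B y x := fun x y => by
    rw [hB]
    exact QuadraticMap.associated_isSymm ℝ Q x y
  have hBQ : ∀ x, B x x = Q x := fun x => by
    rw [hB]
    exact QuadraticMap.associated_eq_self_apply ℝ Q x
  obtain ⟨T, hT⟩ : ∃ T : E n →ₗ[ℝ] E n, ∀ x y, inner ℝ (T x) y = B x y := by
    refine ⟨((InnerProductSpace.toDual ℝ (E n)).symm.toLinearEquiv.toLinearMap) ∘ₗ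
      (LinearMap.toContinuousLinearMap (𝕜 := ℝ) (E := E n) (F' := ℝ)).toLinearMap ∘ₗ B, ?_⟩
    intro x y
    exact InnerProductSpace.toDual_symm_apply
  have hTs : T.IsSymmetric := fun x y => by
    rw [hT, ← real_inner_comm, hT, hBs]
  have hn : Module.finrank ℝ (E n) = n := finrank_euclideanSpace_fin
  obtain ⟨e, he⟩ : ∃ e : OrthonormalBasis (Fin n) ℝ (E n), e = hTs.eigenvectorBasis hn := ⟨_, rfl⟩
  refine ⟨hTs.eigenvalues hn, e.repr, fun x => ?_⟩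
  have h1 : ∀ i, T (e i) = (hTs.eigenvalues hn i) • e i := fun i => by
    rw [he]
    exact hTs.apply_eigenvectorBasis hn i
  rw [← hBQ, ← hT]
  have h2 : inner ℝ (T x) x = ∑ i, inner ℝ (T x) (e i) * inner ℝ (e i) x :=
    (e.sum_inner_mul_inner (T x) x).symm
  rw [h2]
  refine Finset.sum_congr rfl fun i _ => ?_
  rw [hTs x (e i), h1 i, real_inner_smul_right, e.repr_apply_apply, real_inner_comm]
  ring

/-- The surface integral and an isometry. -/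
theorem lint_iso {n : ℕ} (R : E n ≃ₗᵢ[ℝ] E n) (g : E n → ℂ) (p : ℝ) :
    ∫⁻ ξ, ‖extn (fun x => g (R x)) ξ‖ₑ ^ p = ∫⁻ ξ, ‖extn g ξ‖ₑ ^ p := by
  have h2 : ∀ ξ, extn (fun x => g (R x)) ξ = extn g (R ξ) := by
    intro ξ
    rw [← extn_isometry]
    rfl
  simp only [h2]
  exact R.measurePreserving.lintegral_comp_emb
    R.toHomeomorph.measurableEmbedding (fun ξ => ‖extn g ξ‖ₑ ^ p)

/-- The same with tails. -/
theorem lint_iso_tail {n : ℕ} (R : E n ≃ₗᵢ[ℝ] E n) (g : E n → ℂ) (p ρ : ℝ) :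
    ∫⁻ ξ in {ξ : E n | ρ ≤ ‖ξ‖}, ‖extn (fun x => g (R x)) ξ‖ₑ ^ p =
      ∫⁻ ξ in {ξ : E n | ρ ≤ ‖ξ‖}, ‖extn g ξ‖ₑ ^ p := by
  have h2 : ∀ ξ, extn (fun x => g (R x)) ξ = extn g (R ξ) := by
    intro ξ
    rw [← extn_isometry]
    rfl
  simp only [h2]
  have h3 := R.measurePreserving.setLIntegral_comp_preimage_emb
    R.toHomeomorph.measurableEmbedding (fun ξ => ‖extn g ξ‖ₑ ^ p) {ξ : E n | ρ ≤ ‖ξ‖}
  have h4 : (R ⁻¹' {ξ : E n | ρ ≤ ‖ξ‖}) = {ξ : E n | ρ ≤ ‖ξ‖} := by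
    ext ξ
    simp
  rw [h4] at h3
  exact h3

/-- Functions of a quadratic form, in any orthonormal basis (one constant). -/
theorem full_rot {n : ℕ} {b : Fin n → ℝ} (h : Full n b) {p : ℝ}
    (hp : 2 * (n : ℝ) / (n - 1) < p) : ∃ C : ℝ≥0∞, C ≠ ∞ ∧ ∀ Q : QuadraticForm ℝ (E n),
      (∃ R : E n ≃ₗᵢ[ℝ] E n, ∀ x, Q x = ∑ i, b i * R x i ^ 2) → ∀ F : ℝ → ℂ, Measurable F →
      (∀ t, ‖F t‖ ≤ 1) → ∫⁻ ξ, ‖extn (fun x => F (Q x)) ξ‖ₑ ^ p ≤ C := by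
  obtain ⟨C, hC, H⟩ := h p hp
  refine ⟨C, hC, fun Q ⟨R, hR⟩ F hF hF1 => ?_⟩
  have h1 : (fun x => F (Q x)) = fun x => qf b F (R x) := by
    funext x
    rw [hR]
    rfl
  rw [h1, lint_iso R (qf b F) p]
  exact H F hF hF1

/-- The same times half spaces. -/
theorem full_rot_cut {n : ℕ} (hn : 3 ≤ n) {b : Fin n → ℝ} (h : Full n b) (N : ℕ) {p : ℝ}
    (hp : 2 * (n : ℝ) / (n - 1) < p) : ∃ C : ℝ≥0∞, C ≠ ∞ ∧ ∀ Q : QuadraticForm ℝ (E n),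
      (∃ R : E n ≃ₗᵢ[ℝ] E n, ∀ x, Q x = ∑ i, b i * R x i ^ 2) → ∀ F : ℝ → ℂ, Measurable F →
      (∀ t, ‖F t‖ ≤ 1) → ∀ (v : Fin N → E n) (c : Fin N → ℝ),
      ∫⁻ ξ, ‖extn (fun x => F (Q x) * ∏ i, hsn (c i) (v i) x) ξ‖ₑ ^ p ≤ C := by
  obtain ⟨C, hC, H⟩ := full_cut hn h N hp
  refine ⟨C, hC, fun Q ⟨R, hR⟩ F hF hF1 v c => ?_⟩
  have h1 : (fun x => F (Q x) * ∏ i, hsn (c i) (v i) x) =
      fun x => (fun y => qf b F y * ∏ i, hsn (c i) (R (v i)) y) (R x) := by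
    funext x
    simp only
    rw [hR]
    unfold hsn qf
    simp only [LinearIsometryEquiv.inner_map_map]
  rw [h1, lint_iso R (fun y => qf b F y * ∏ i, hsn (c i) (R (v i)) y) p]
  exact H F hF hF1 _ c

/-- **Every quadratic form** (from the diagonal ones). -/
theorem full_form {n : ℕ} (h : ∀ b : Fin n → ℝ, Full n b) (Q : QuadraticForm ℝ (E n)) {p : ℝ}
    (hp : 2 * (n : ℝ) / (n - 1) < p) : ∃ C : ℝ≥0∞, C ≠ ∞ ∧ ∀ F : ℝ → ℂ, Measurable F →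
      (∀ t, ‖F t‖ ≤ 1) → ∫⁻ ξ, ‖extn (fun x => F (Q x)) ξ‖ₑ ^ p ≤ C := by
  obtain ⟨b, R, hR⟩ := exists_diag Q
  obtain ⟨C, hC, H⟩ := full_rot (h b) hp
  exact ⟨C, hC, H Q ⟨R, hR⟩⟩

/-- **Every quadratic form, times half spaces.** -/
theorem full_form_cut {n : ℕ} (hn : 3 ≤ n) (h : ∀ b : Fin n → ℝ, Full n b)
    (Q : QuadraticForm ℝ (E n)) (N : ℕ) {p : ℝ} (hp : 2 * (n : ℝ) / (n - 1) < p) :
    ∃ C : ℝ≥0∞, C ≠ ∞ ∧ ∀ F : ℝ → ℂ, Measurable F → (∀ t, ‖F t‖ ≤ 1) →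
      ∀ (v : Fin N → E n) (c : Fin N → ℝ),
      ∫⁻ ξ, ‖extn (fun x => F (Q x) * ∏ i, hsn (c i) (v i) x) ξ‖ₑ ^ p ≤ C := by
  obtain ⟨b, R, hR⟩ := exists_diag Q
  obtain ⟨C, hC, H⟩ := full_rot_cut hn (h b) N hp
  exact ⟨C, hC, H Q ⟨R, hR⟩⟩

end Pool.Agent.LQ
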