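import Pool.Agent.LQ.DIAG

/-!
Superpositions of functions of a quadratic form, cut off by half spaces.
-/

set_option autoImplicit false

namespace Pool.Agent.LQ

open MeasureTheory Set Pool.Agent.MP_6cbfb8_an
open scoped ENNReal Real

/-- Superpositions, in any orthonormal basis (one constant for all quadratic forms with the
eigenvalues `b`). -/
theorem full_rot_mix {n : ℕ} (hn : 3 ≤ n) {b : Fin n → ℝ} (h : Full n b) (N : ℕ) {p : ℝ}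
    (hp : 2 * (n : ℝ) / (n - 1) < p) : ∃ C : ℝ≥0∞, C ≠ ∞ ∧ ∀ Q : QuadraticForm ℝ (E n),
      (∃ R : E n ≃ₗᵢ[ℝ] E n, ∀ x, Q x = ∑ i, b i * R x i ^ 2) →
      ∀ {W : Type*} [MeasurableSpace W] (ν : Measure W) [IsFiniteMeasure ν]
      (R : W → (E n ≃ₗᵢ[ℝ] E n)) (η : W → E n) (h : W → E n → ℂ),
      Measurable (fun q : W × E n => R q.1 q.2) → Measurable η →
      Measurable (Function.uncurry h) →
      (∀ w, ∃ F : ℝ → ℂ, Measurable F ∧ (∀ t, ‖F t‖ ≤ 1) ∧ ∃ (v : Fin N → E n) (c : Fin N → ℝ),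
        h w = fun x => F (Q x) * ∏ i, hsn (c i) (v i) x) →
      ∫⁻ ξ, ‖extn (mix ν R η h) ξ‖ₑ ^ p ≤ C * ν univ ^ p := by
  have hn' : (3 : ℝ) ≤ n := by exact_mod_cast hn
  have h1 : 1 ≤ p := by
    refine le_trans ?_ hp.le
    rw [le_div_iff₀ (by linarith)]
    linarith
  obtain ⟨C, hC, H⟩ := full_rot_cut hn h N hp
  refine ⟨C, hC, fun Q hQ W _ ν _ R η h hR hη hh hcls => ?_⟩
  refine lintegral_mix_le h1 (fun g => ∃ F : ℝ → ℂ, Measurable F ∧ (∀ t, ‖F t‖ ≤ 1) ∧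
    ∃ (v : Fin N → E n) (c : Fin N → ℝ), g = fun x => F (Q x) * ∏ i, hsn (c i) (v i) x) ?_
    ν R η h hR hη hh ?_ hcls
  · rintro g _ _ ⟨F, hF, hF1, v, c, rfl⟩
    exact H Q hQ F hF hF1 v c
  · intro w x
    obtain ⟨F, hF, hF1, v, c, hw⟩ := hcls w
    rw [hw, norm_mul]
    exact mul_le_one₀ (hF1 _) (norm_nonneg _) (norm_prod_hsn_le _ _ _)

/-- Superpositions, every quadratic form. -/
theorem full_form_mix {n : ℕ} (hn : 3 ≤ n) (h : ∀ b : Fin n → ℝ, Full n b)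
    (Q : QuadraticForm ℝ (E n)) (N : ℕ) {p : ℝ} (hp : 2 * (n : ℝ) / (n - 1) < p) :
    ∃ C : ℝ≥0∞, C ≠ ∞ ∧ ∀ {W : Type*} [MeasurableSpace W] (ν : Measure W) [IsFiniteMeasure ν]
      (R : W → (E n ≃ₗᵢ[ℝ] E n)) (η : W → E n) (h : W → E n → ℂ),
      Measurable (fun q : W × E n => R q.1 q.2) → Measurable η →
      Measurable (Function.uncurry h) →
      (∀ w, ∃ F : ℝ → ℂ, Measurable F ∧ (∀ t, ‖F t‖ ≤ 1) ∧ ∃ (v : Fin N → E n) (c : Fin N → ℝ),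
        h w = fun x => F (Q x) * ∏ i, hsn (c i) (v i) x) →
      ∫⁻ ξ, ‖extn (mix ν R η h) ξ‖ₑ ^ p ≤ C * ν univ ^ p := by
  obtain ⟨b, R, hR⟩ := exists_diag Q
  obtain ⟨C, hC, H⟩ := full_rot_mix hn (h b) N hp
  exact ⟨C, hC, H Q ⟨R, hR⟩⟩

end Pool.Agent.LQ
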