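import Mathlib

/-!
LEAFQ: the explicit surfaces `Y(t, y) = (A, y, h)` on the quadric `y1² + y2² + d² y3² = 2 y3`, with
leaf coordinate `y`, and the two linear forms which decide everything.
-/

set_option autoImplicit false

namespace Pool.Agent.LQ

/-- `A²`. -/
noncomputable def rr (α β t y : ℝ) : ℝ := (t - β * y ^ 2) / α
/-- `s = A² + y²`. -/
noncomputable def ss (α β t y : ℝ) : ℝ := (t + (α - β) * y ^ 2) / α
/-- The first coordinate. -/
noncomputable def AA (α β t y : ℝ) : ℝ := √(rr α β t y)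
/-- `H = 1 - d² h`. -/
noncomputable def HH (α β d t y : ℝ) : ℝ := √(1 - d ^ 2 * ss α β t y)
/-- The third coordinate. -/
noncomputable def hh (α β d t y : ℝ) : ℝ := ss α β t y / (1 + HH α β d t y)

/-- The large region (where the geometry holds). -/
def Rg (α β d t y : ℝ) : Prop :=
  |y| ≤ 3 ∧ 1 / 64 ≤ rr α β t y ∧ rr α β t y ≤ 9 ∧ 1 / 16 ≤ 1 - d ^ 2 * ss α β t y
/-- The small region (where the densities live). -/
def Rs (α β d t y : ℝ) : Prop :=
  |y| ≤ 2 ∧ 1 / 16 ≤ rr α β t y ∧ rr α β t y ≤ 4 ∧ 1 / 4 ≤ 1 - d ^ 2 * ss α β t y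
/-- The box with centre `(t0, y0)`, `y0 ≠ 0`. -/
def Bx (c0 t0 y0 t y : ℝ) : Prop := |t - t0| ≤ c0 ∧ |y - y0| ≤ c0 * |y0|

/-- `w · Y_y = w2 + y Lw`. -/
noncomputable def Lw (α β d w1 w3 t y : ℝ) : ℝ :=
  (-(β * w1 / AA α β t y) + (α - β) * w3 / HH α β d t y) / α
/-- The gradient along the leaf. -/
noncomputable def Uw (α β d w1 w2 w3 t y : ℝ) : ℝ := w2 + y * Lw α β d w1 w3 t y
/-- `∂_t Uw = y mw`. -/
noncomputable def mw (α β d w1 w3 t y : ℝ) : ℝ :=
  (β * w1 / AA α β t y ^ 3 + (α - β) * d ^ 2 * w3 / HH α β d t y ^ 3) / (2 * α ^ 2)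
/-- `∂_y Uw = lw`. -/
noncomputable def lw (α β d w1 w3 t y : ℝ) : ℝ :=
  (-(β * t * w1 / AA α β t y ^ 3) + (α - β) * (α - d ^ 2 * t) * w3 / HH α β d t y ^ 3) / α ^ 2
/-- `w · Y_t`. -/
noncomputable def Tw (α β d w1 w3 t y : ℝ) : ℝ :=
  (w1 / AA α β t y + w3 / HH α β d t y) / (2 * α)

/-- The bilinear form of the quadric on two chords from `p = (t, y)`. -/
noncomputable def BB (α β d t y t' y' t'' y'' : ℝ) : ℝ :=
  (AA α β t y - AA α β t' y') * (AA α β t y - AA α β t'' y'') + (y - y') * (y - y'') +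
    d ^ 2 * ((hh α β d t y - hh α β d t' y') * (hh α β d t y - hh α β d t'' y''))
/-- The size of the parameter difference. -/
noncomputable def nn (t y t' y' : ℝ) : ℝ := |t - t'| + |y - y'|
/-- `N(p) · Y_t(p')`, `N = (A, y, -H)`. -/
noncomputable def Nt (α β d t y t' y' : ℝ) : ℝ :=
  Tw α β d (AA α β t y) (-(HH α β d t y)) t' y'
/-- `N(p) · Y_y(p')`. -/
noncomputable def Ny (α β d t y t' y' : ℝ) : ℝ :=
  Uw α β d (AA α β t y) y (-(HH α β d t y)) t' y'

end Pool.Agent.LQ
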