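import Pool.Agent.LQ.Df

/-!
LEAFQ row EXPL: derivatives of the explicit surface, the quadric.
-/

set_option autoImplicit false

namespace Pool.Agent.LQ

open Real

/-! ### Elementary facts -/

theorem AA_sq {α β t y : ℝ} (h : 0 ≤ rr α β t y) : AA α β t y ^ 2 = rr α β t y := Real.sq_sqrt h

theorem AA_pos {α β t y : ℝ} (h : 0 < rr α β t y) : 0 < AA α β t y := Real.sqrt_pos.2 h

theorem HH_sq {α β d t y : ℝ} (h : 0 ≤ 1 - d ^ 2 * ss α β t y) :
    HH α β d t y ^ 2 = 1 - d ^ 2 * ss α β t y := Real.sq_sqrt h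

theorem HH_pos {α β d t y : ℝ} (h : 0 < 1 - d ^ 2 * ss α β t y) : 0 < HH α β d t y :=
  Real.sqrt_pos.2 h

theorem HH_nonneg (α β d t y : ℝ) : 0 ≤ HH α β d t y := Real.sqrt_nonneg _

theorem AA_nonneg (α β t y : ℝ) : 0 ≤ AA α β t y := Real.sqrt_nonneg _

theorem ss_eq {α β t y : ℝ} (hα : α ≠ 0) : ss α β t y = rr α β t y + y ^ 2 := by
  unfold ss rr
  field_simp
  ring

theorem t_eq {α β t y : ℝ} (hα : α ≠ 0) : t = α * rr α β t y + β * y ^ 2 := by
  unfold rr
  field_simp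
  ring

theorem Rg.rr_pos {α β d t y : ℝ} (h : Rg α β d t y) : 0 < rr α β t y := by linarith [h.2.1]

theorem Rg.one_pos {α β d t y : ℝ} (h : Rg α β d t y) : 0 < 1 - d ^ 2 * ss α β t y := by
  linarith [h.2.2.2]

theorem Rg.A_pos {α β d t y : ℝ} (h : Rg α β d t y) : 0 < AA α β t y := AA_pos h.rr_pos

theorem Rg.H_pos {α β d t y : ℝ} (h : Rg α β d t y) : 0 < HH α β d t y := HH_pos h.one_pos

theorem Rg.A_sq {α β d t y : ℝ} (h : Rg α β d t y) : AA α β t y ^ 2 = rr α β t y :=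
  AA_sq h.rr_pos.le

theorem Rg.H_sq {α β d t y : ℝ} (h : Rg α β d t y) :
    HH α β d t y ^ 2 = 1 - d ^ 2 * ss α β t y := HH_sq h.one_pos.le

theorem Rg.A_ge {α β d t y : ℝ} (h : Rg α β d t y) : 1 / 8 ≤ AA α β t y := by
  have h1 := h.A_sq
  have h2 := h.2.1
  nlinarith [h.A_pos]

theorem Rg.A_le {α β d t y : ℝ} (h : Rg α β d t y) : AA α β t y ≤ 3 := by
  have h1 := h.A_sq
  have h2 := h.2.2.1
  nlinarith [h.A_pos]

theorem Rg.H_ge {α β d t y : ℝ} (h : Rg α β d t y) : 1 / 4 ≤ HH α β d t y := by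
  have h1 := h.H_sq
  have h2 := h.2.2.2
  nlinarith [h.H_pos]

theorem Rg.s_nonneg {α β d t y : ℝ} (hα : α ≠ 0) (h : Rg α β d t y) : 0 ≤ ss α β t y := by
  have := h.rr_pos
  rw [ss_eq hα]
  positivity

theorem Rg.s_le {α β d t y : ℝ} (hα : α ≠ 0) (h : Rg α β d t y) : ss α β t y ≤ 18 := by
  have h1 := h.2.2.1
  have h2 := abs_le.1 h.1
  rw [ss_eq hα]
  nlinarith

theorem Rg.H_le {α β d t y : ℝ} (hα : α ≠ 0) (h : Rg α β d t y) : HH α β d t y ≤ 1 := by
  have h1 := h.H_sq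
  have h2 := h.s_nonneg hα
  have h3 : 0 ≤ d ^ 2 * ss α β t y := by positivity
  nlinarith [h.H_pos]

theorem Rg.t_le {α β d t y : ℝ} (hα : α ≠ 0) (h : Rg α β d t y) :
    |t| ≤ 9 * |α| + 9 * |β| := by
  have h1 : t = α * rr α β t y + β * y ^ 2 := t_eq hα
  rw [h1]
  refine (abs_add_le _ _).trans (add_le_add ?_ ?_)
  · rw [abs_mul, abs_of_pos h.rr_pos, mul_comm]
    exact mul_le_mul_of_nonneg_right h.2.2.1 (abs_nonneg _)
  · have h2 := abs_le.1 h.1
    rw [abs_mul, abs_of_nonneg (sq_nonneg y), mul_comm]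
    exact mul_le_mul_of_nonneg_right (by nlinarith) (abs_nonneg _)

theorem Rs.rg {α β d t y : ℝ} (h : Rs α β d t y) : Rg α β d t y :=
  ⟨by linarith [h.1], by linarith [h.2.1], by linarith [h.2.2.1], by linarith [h.2.2.2]⟩

/-- The quadric. -/
theorem quad {α β d t y : ℝ} (hr : 0 ≤ rr α β t y) (hα : α ≠ 0)
    (hs : 0 ≤ 1 - d ^ 2 * ss α β t y) :
    AA α β t y ^ 2 + y ^ 2 + d ^ 2 * hh α β d t y ^ 2 = 2 * hh α β d t y ∧
      d ^ 2 * hh α β d t y = 1 - HH α β d t y := by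
  have h1 := HH_sq hs
  have h2 := HH_nonneg α β d t y
  have h0 : (1 + HH α β d t y) ≠ 0 := by linarith
  have hd : d ^ 2 * hh α β d t y = 1 - HH α β d t y := by
    unfold hh
    rw [← mul_div_assoc, div_eq_iff h0]
    linear_combination h1
  refine ⟨?_, hd⟩
  have h4 : hh α β d t y * (1 + HH α β d t y) = ss α β t y := by
    unfold hh
    rw [div_mul_cancel₀ _ h0]
  calc AA α β t y ^ 2 + y ^ 2 + d ^ 2 * hh α β d t y ^ 2
      = ss α β t y + (d ^ 2 * hh α β d t y) * hh α β d t y := by rw [AA_sq hr, ss_eq hα]; ring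
    _ = 2 * hh α β d t y := by rw [hd, ← h4]; ring

/-! ### Derivatives -/

theorem hasDerivAt_rr_t (α β t y : ℝ) : HasDerivAt (fun t => rr α β t y) (1 / α) t := by
  unfold rr
  simpa using ((hasDerivAt_id t).sub_const (β * y ^ 2)).div_const α

theorem hasDerivAt_rr_y (α β t y : ℝ) :
    HasDerivAt (fun y => rr α β t y) (-(2 * β * y) / α) y := by
  unfold rr
  have h := (((hasDerivAt_pow 2 y).const_mul β).const_sub t).div_const α
  refine h.congr_deriv ?_
  norm_num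
  ring

theorem hasDerivAt_ss_t (α β t y : ℝ) : HasDerivAt (fun t => ss α β t y) (1 / α) t := by
  unfold ss
  simpa using ((hasDerivAt_id t).add_const ((α - β) * y ^ 2)).div_const α

theorem hasDerivAt_ss_y (α β t y : ℝ) :
    HasDerivAt (fun y => ss α β t y) (2 * (α - β) * y / α) y := by
  unfold ss
  have h := (((hasDerivAt_pow 2 y).const_mul (α - β)).const_add t).div_const α
  refine h.congr_deriv ?_
  norm_num
  ring

theorem gd_A {α β t y : ℝ} (hα : α ≠ 0) (hr : 0 < rr α β t y) :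
    HasDerivAt (fun t => AA α β t y) (1 / (2 * α * AA α β t y)) t ∧
      HasDerivAt (fun y => AA α β t y) (-(β * y) / (α * AA α β t y)) y := by
  have h := AA_pos hr
  constructor
  · unfold AA at h ⊢
    refine ((hasDerivAt_rr_t α β t y).sqrt hr.ne').congr_deriv ?_
    field_simp
  · unfold AA at h ⊢
    refine ((hasDerivAt_rr_y α β t y).sqrt hr.ne').congr_deriv ?_
    field_simp

theorem gd_H {α β d t y : ℝ} (hα : α ≠ 0) (hs : 0 < 1 - d ^ 2 * ss α β t y) :
    HasDerivAt (fun t => HH α β d t y) (-(d ^ 2) / (2 * α * HH α β d t y)) t ∧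
      HasDerivAt (fun y => HH α β d t y) (-(d ^ 2 * (α - β) * y) / (α * HH α β d t y)) y := by
  have h := HH_pos hs
  constructor
  · unfold HH at h ⊢
    refine ((((hasDerivAt_ss_t α β t y).const_mul (d ^ 2)).const_sub 1).sqrt
      hs.ne').congr_deriv ?_
    field_simp
  · unfold HH at h ⊢
    refine ((((hasDerivAt_ss_y α β t y).const_mul (d ^ 2)).const_sub 1).sqrt
      hs.ne').congr_deriv ?_
    field_simp

theorem gd_h {α β d t y : ℝ} (hα : α ≠ 0) (hs : 0 < 1 - d ^ 2 * ss α β t y) :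
    HasDerivAt (fun t => hh α β d t y) (1 / (2 * α * HH α β d t y)) t ∧
      HasDerivAt (fun y => hh α β d t y) ((α - β) * y / (α * HH α β d t y)) y := by
  have h2 := HH_pos hs
  have h1 := HH_sq hs.le
  have h0 : (1 + HH α β d t y) ≠ 0 := by linarith
  constructor
  · unfold hh
    refine ((hasDerivAt_ss_t α β t y).div ((gd_H hα hs).1.const_add 1) h0).congr_deriv ?_
    set H := HH α β d t y
    set s := ss α β t y
    field_simp
    linear_combination h1
  · unfold hh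
    refine ((hasDerivAt_ss_y α β t y).div ((gd_H hα hs).2.const_add 1) h0).congr_deriv ?_
    set H := HH α β d t y
    set s := ss α β t y
    field_simp
    linear_combination ((α - β) * y) * h1

theorem gd_L {α β d w1 w3 t y : ℝ} (hα : α ≠ 0) (hr : 0 < rr α β t y)
    (hs : 0 < 1 - d ^ 2 * ss α β t y) :
    HasDerivAt (fun t => Lw α β d w1 w3 t y) (mw α β d w1 w3 t y) t := by
  have hA := AA_pos hr
  have hH := HH_pos hs
  have h1 : HasDerivAt (fun t => Lw α β d w1 w3 t y)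
      ((-(β * w1 * (-(1 / (2 * α * AA α β t y)) / AA α β t y ^ 2)) + (α - β) * w3 *
        (-(-(d ^ 2) / (2 * α * HH α β d t y)) / HH α β d t y ^ 2)) / α) t := by
    unfold Lw
    exact ((((gd_A hα hr).1.inv hA.ne').const_mul (β * w1)).neg).add
      (((gd_H hα hs).1.inv hH.ne').const_mul ((α - β) * w3)) |>.div_const α
  refine h1.congr_deriv ?_
  unfold mw
  set A := AA α β t y
  set H := HH α β d t y
  field_simp

theorem gd_U {α β d w1 w2 w3 t y : ℝ} (hα : α ≠ 0) (hr : 0 < rr α β t y)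
    (hs : 0 < 1 - d ^ 2 * ss α β t y) :
    HasDerivAt (fun t => Uw α β d w1 w2 w3 t y) (y * mw α β d w1 w3 t y) t ∧
      HasDerivAt (fun y => Uw α β d w1 w2 w3 t y) (lw α β d w1 w3 t y) y := by
  constructor
  · unfold Uw
    exact ((gd_L hα hr hs).const_mul y).const_add w2
  have hA := AA_pos hr
  have hH := HH_pos hs
  have hA2 : α * AA α β t y ^ 2 = t - β * y ^ 2 := by
    rw [AA_sq hr.le]; unfold rr; field_simp
  have hH2 : α * HH α β d t y ^ 2 = α - d ^ 2 * (t + (α - β) * y ^ 2) := by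
    rw [HH_sq hs.le]; unfold ss; field_simp
  have hL : HasDerivAt (fun y => Lw α β d w1 w3 t y)
      ((-(β * w1 * (-(-(β * y) / (α * AA α β t y)) / AA α β t y ^ 2)) + (α - β) * w3 *
        (-(-(d ^ 2 * (α - β) * y) / (α * HH α β d t y)) / HH α β d t y ^ 2)) / α) y := by
    unfold Lw
    exact ((((gd_A hα hr).2.inv hA.ne').const_mul (β * w1)).neg).add
      (((gd_H hα hs).2.inv hH.ne').const_mul ((α - β) * w3)) |>.div_const α
  have hU := ((hasDerivAt_id y).mul hL).const_add w2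
  refine hU.congr_deriv ?_
  simp only [id, one_mul]
  unfold lw Lw
  set A := AA α β t y
  set H := HH α β d t y
  field_simp
  linear_combination (-(H ^ 3 * β * w1)) * hA2 + (A ^ 3 * w3 * (α - β)) * hH2

theorem gd_T {α β d w1 w3 t y : ℝ} (hα : α ≠ 0) (hr : 0 < rr α β t y)
    (hs : 0 < 1 - d ^ 2 * ss α β t y) :
    HasDerivAt (fun y => Tw α β d w1 w3 t y) (y * mw α β d w1 w3 t y) y := by
  have hA := AA_pos hr
  have hH := HH_pos hs
  have h1 : HasDerivAt (fun y => Tw α β d w1 w3 t y)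
      ((w1 * (-(-(β * y) / (α * AA α β t y)) / AA α β t y ^ 2) + w3 *
        (-(-(d ^ 2 * (α - β) * y) / (α * HH α β d t y)) / HH α β d t y ^ 2)) / (2 * α)) y := by
    unfold Tw
    exact (((gd_A hα hr).2.inv hA.ne').const_mul w1).add
      (((gd_H hα hs).2.inv hH.ne').const_mul w3) |>.div_const (2 * α)
  refine h1.congr_deriv ?_
  unfold mw
  set A := AA α β t y
  set H := HH α β d t y
  field_simp

/-- The box stays in the large region. -/
theorem box_sub {α β : ℝ} (hα : α ≠ 0) : ∃ c1 : ℝ, 0 < c1 ∧ c1 ≤ 1 / 8 ∧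
    ∀ d, 0 ≤ d → d ≤ 1 → ∀ t0 y0 t y, Rs α β d t0 y0 → Bx c1 t0 y0 t y → Rg α β d t y := by
  -- `|t - t0| ≤ c`, `|y² - y0²| ≤ 12 c`; `α` and `α - β`, `β` bounded
  set D : ℝ := 1 + 12 * |β| + 12 * |α| with hD
  have hD1 : 1 ≤ D := by rw [hD]; nlinarith [abs_nonneg α, abs_nonneg β]
  have ha : 0 < |α| := abs_pos.2 hα
  have hdiv : ∀ u c : ℝ, |u| ≤ c * D → |u / α| ≤ c * (D / |α|) := by
    intro u c hu
    rw [abs_div, ← mul_div_assoc]
    exact div_le_div_of_nonneg_right hu ha.le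
  obtain ⟨c, hc0, hc8, hc1⟩ : ∃ c : ℝ, 0 < c ∧ c ≤ 1 / 128 ∧ c * (D / |α|) ≤ 1 / 64 := by
    refine ⟨min (1 / 128) (|α| / (64 * D)), lt_min (by norm_num) (by positivity),
      min_le_left _ _, ?_⟩
    refine (mul_le_mul_of_nonneg_right (min_le_right _ _) (by positivity)).trans (le_of_eq ?_)
    field_simp
  refine ⟨c, hc0, by linarith, fun d hd0 hd1 t0 y0 t y hs hb => ?_⟩
  obtain ⟨h1, h2, h3, h4⟩ := hs
  obtain ⟨b1, b2⟩ := hb
  have hy0 : |y0| ≤ 2 := h1
  have b3 : |y - y0| ≤ 2 * c := b2.trans (by nlinarith)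
  have b3' := abs_le.1 b3
  have hy0' := abs_le.1 hy0
  have hysq : |y ^ 2 - y0 ^ 2| ≤ 12 * c := by
    have : y ^ 2 - y0 ^ 2 = (y - y0) * (y + y0) := by ring
    rw [this, abs_mul]
    have h5 : |y + y0| ≤ 5 := abs_le.2 ⟨by linarith, by linarith⟩
    calc |y - y0| * |y + y0| ≤ (2 * c) * 5 := mul_le_mul b3 h5 (abs_nonneg _) (by linarith)
      _ ≤ 12 * c := by linarith
  have hr : |rr α β t y - rr α β t0 y0| ≤ 1 / 64 := by
    have h5 : rr α β t y - rr α β t0 y0 = ((t - t0) - β * (y ^ 2 - y0 ^ 2)) / α := by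
      unfold rr; ring
    rw [h5]
    refine (hdiv _ c ?_).trans hc1
    refine (abs_sub _ _).trans ?_
    rw [abs_mul]
    have := mul_le_mul_of_nonneg_left hysq (abs_nonneg β)
    rw [hD]
    nlinarith [abs_nonneg α]
  have hd2 : d ^ 2 ≤ 1 := pow_le_one₀ hd0 hd1
  have hss : |ss α β t y - ss α β t0 y0| ≤ 1 / 64 + 12 * c := by
    have h5 : ss α β t y - ss α β t0 y0 = (rr α β t y - rr α β t0 y0) + (y ^ 2 - y0 ^ 2) := by
      rw [ss_eq hα, ss_eq hα]; ring
    rw [h5]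
    exact (abs_add_le _ _).trans (add_le_add hr hysq)
  have hr' := abs_le.1 hr
  have hss' := abs_le.1 hss
  have h6 : |d ^ 2 * (ss α β t y - ss α β t0 y0)| ≤ 1 / 64 + 12 * c := by
    rw [abs_mul, abs_of_nonneg (sq_nonneg d)]
    exact (mul_le_of_le_one_left (abs_nonneg _) hd2).trans hss
  have h6' := abs_le.1 h6
  refine ⟨abs_le.2 ⟨by linarith, by linarith⟩, by linarith, by linarith, ?_⟩
  nlinarith

end Pool.Agent.LQ
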