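import Pool.Agent.LQ.EXPL

/-!
LEAFQ: the number of preimages of the map `(s, y') ↦ (w · Y_t, w · Y_y)(t', y')`,
`w = (x1 + s A, x2 + s y, -s H)`, is at most eight for almost every value (`t' ≠ t`).
-/

set_option autoImplicit false

namespace Pool.Agent.LQ

open MeasureTheory Set Polynomial

/-- The norm of `p0 + p1 A + p2 H + p3 A H` over `A² = a`, `H² = h`. -/
def nrm {K : Type*} [CommRing K] (a h p0 p1 p2 p3 : K) : K :=
  (p0 ^ 2 + p1 ^ 2 * a - h * (p2 ^ 2 + p3 ^ 2 * a)) ^ 2 - (2 * (p0 * p1 - h * (p2 * p3))) ^ 2 * a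

theorem nrm_zero {a h p0 p1 p2 p3 A H : ℝ} (hA : A ^ 2 = a) (hH : H ^ 2 = h)
    (h0 : p0 + p1 * A + p2 * H + p3 * (A * H) = 0) : nrm a h p0 p1 p2 p3 = 0 := by
  subst hA hH
  have h1 : nrm (A ^ 2) (H ^ 2) p0 p1 p2 p3 = (p0 + p1 * A + p2 * H + p3 * (A * H)) *
      ((p0 + p1 * A - p2 * H - p3 * (A * H)) * (p0 - p1 * A + p2 * H - p3 * (A * H)) *
      (p0 - p1 * A - p2 * H + p3 * (A * H))) := by
    unfold nrm
    ring
  rw [h1, h0, zero_mul]

theorem nrm_deg {a h p0 p1 p2 p3 : ℝ[X]} (ha : a.natDegree ≤ 2) (hh : h.natDegree ≤ 2)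
    (h0 : p0.natDegree ≤ 1) (h1 : p1.natDegree ≤ 1) (h2 : p2.natDegree ≤ 1)
    (h3 : p3.natDegree ≤ 0) : (nrm a h p0 p1 p2 p3).natDegree ≤ 8 := by
  have e0 : (p0 ^ 2).natDegree ≤ 2 := (natDegree_pow_le_of_le 2 h0)
  have e1 : (p1 ^ 2 * a).natDegree ≤ 4 := natDegree_mul_le_of_le (natDegree_pow_le_of_le 2 h1) ha
  have e2 : (p2 ^ 2).natDegree ≤ 2 := natDegree_pow_le_of_le 2 h2
  have e3 : (p3 ^ 2 * a).natDegree ≤ 2 := natDegree_mul_le_of_le (natDegree_pow_le_of_le 2 h3) ha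
  have e4 : (h * (p2 ^ 2 + p3 ^ 2 * a)).natDegree ≤ 4 :=
    natDegree_mul_le_of_le hh (natDegree_add_le_of_degree_le e2 e3)
  have e5 : (p0 ^ 2 + p1 ^ 2 * a - h * (p2 ^ 2 + p3 ^ 2 * a)).natDegree ≤ 4 :=
    (natDegree_sub_le _ _).trans
      (max_le ((natDegree_add_le_of_degree_le (e0.trans (by norm_num)) e1)) e4)
  have e6 : (p0 * p1).natDegree ≤ 2 := natDegree_mul_le_of_le h0 h1
  have e7 : (h * (p2 * p3)).natDegree ≤ 3 :=
    natDegree_mul_le_of_le hh (natDegree_mul_le_of_le h2 h3)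
  have e8 : (p0 * p1 - h * (p2 * p3)).natDegree ≤ 3 :=
    (natDegree_sub_le _ _).trans (max_le (e6.trans (by norm_num)) e7)
  have e9 : (2 * (p0 * p1 - h * (p2 * p3))).natDegree ≤ 3 := by
    have : (2 : ℝ[X]).natDegree ≤ 0 := (natDegree_ofNat 2).le
    exact (natDegree_mul_le_of_le this e8).trans (by norm_num)
  have e10 : ((2 * (p0 * p1 - h * (p2 * p3))) ^ 2 * a).natDegree ≤ 8 :=
    natDegree_mul_le_of_le (natDegree_pow_le_of_le 2 e9) ha
  exact (natDegree_sub_le _ _).trans (max_le (natDegree_pow_le_of_le 2 e5) e10)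

theorem nrm_eval {a h p0 p1 p2 p3 : ℝ[X]} (x : ℝ) : (nrm a h p0 p1 p2 p3).eval x =
    nrm (a.eval x) (h.eval x) (p0.eval x) (p1.eval x) (p2.eval x) (p3.eval x) := by
  simp [nrm]

theorem roots_encard {Q : ℝ[X]} (hQ : Q ≠ 0) {n : ℕ} (hd : Q.natDegree ≤ n) :
    {x : ℝ | Q.eval x = 0}.encard ≤ n := by
  classical
  have h1 : {x : ℝ | Q.eval x = 0} = (Q.roots.toFinset : Set ℝ) := by
    ext x
    simp [hQ, IsRoot]
  rw [h1, Set.encard_coe_eq_coe_finsetCard]
  exact_mod_cast (Multiset.toFinset_card_le _).trans ((card_roots' Q).trans hd)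

/-- The bad values: `(τ, b)`. -/
def bad (a0 h0 A H y x1 x2 α β X0 : ℝ) (z : ℝ × ℝ) : ℝ :=
  nrm a0 h0 (x1 * H * X0) ((z.2 - x2) * H + 2 * (β - α) * z.1 * H * X0)
    (-(x1 * y + (z.2 - x2) * A + 2 * β * z.1 * A * X0)) (2 * α * z.1 * y)

theorem bad_null {a0 h0 A H y x1 x2 α β X0 : ℝ} (hne : H ^ 2 * a0 - A ^ 2 * h0 ≠ 0) :
    (volume : Measure (ℝ × ℝ)) {z | bad a0 h0 A H y x1 x2 α β X0 z = 0} = 0 := by
  have hm : MeasurableSet {z | bad a0 h0 A H y x1 x2 α β X0 z = 0} := by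
    refine (isClosed_eq ?_ continuous_const).measurableSet
    unfold bad nrm
    fun_prop
  rw [Measure.volume_eq_prod, Measure.measure_prod_null hm]
  refine Filter.Eventually.of_forall fun τ => ?_
  set Q : ℝ[X] := nrm (C a0) (C h0) (C (x1 * H * X0))
    ((X - C x2) * C H + C (2 * (β - α) * τ * H * X0))
    (-(C (x1 * y) + (X - C x2) * C A + C (2 * β * τ * A * X0))) (C (2 * α * τ * y)) with hQ
  have he : ∀ b, Q.eval b = bad a0 h0 A H y x1 x2 α β X0 (τ, b) := by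
    intro b
    rw [hQ, nrm_eval]
    simp [bad]
  have hQ0 : Q ≠ 0 := by
    intro h0'
    have h1 : ∀ b, bad a0 h0 A H y x1 x2 α β X0 (τ, b) = 0 := by
      intro b
      rw [← he, h0', eval_zero]
    have e0 := h1 0
    have e1 := h1 1
    have e2 := h1 2
    have e3 := h1 3
    have e4 := h1 4
    unfold bad nrm at e0 e1 e2 e3 e4
    simp only at e0 e1 e2 e3 e4
    have h2 : 24 * (H ^ 2 * a0 - A ^ 2 * h0) ^ 2 = 0 := by
      linear_combination e4 - 4 * e3 + 6 * e2 - 4 * e1 + e0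
    have h3 : (H ^ 2 * a0 - A ^ 2 * h0) ^ 2 = 0 := by linarith
    exact hne (pow_eq_zero_iff (by norm_num) |>.1 h3)
  have hfin : {b : ℝ | Q.eval b = 0}.Finite := by
    rw [← Set.encard_ne_top_iff]
    exact ne_top_of_le_ne_top (ENat.natCast_ne_top _) (roots_encard hQ0 le_rfl)
  have hsec : (Prod.mk τ ⁻¹' {z | bad a0 h0 A H y x1 x2 α β X0 z = 0}) = {b | Q.eval b = 0} := by
    ext b
    simp [he]
  simp only [Pi.zero_apply]
  rw [hsec]
  exact hfin.measure_zero _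

/-- Two points of the surface on one ray from the pole are equal. -/
theorem fib_ray {α β d t y t' y' ρ : ℝ} (hα : α ≠ 0) (hr : 0 < rr α β t y)
    (hs : 0 < 1 - d ^ 2 * ss α β t y) (hr' : 0 < rr α β t' y')
    (hs' : 0 < 1 - d ^ 2 * ss α β t' y') (hA : AA α β t y = ρ * AA α β t' y')
    (hy : y = ρ * y') (hH : HH α β d t y = ρ * HH α β d t' y') : t' = t := by
  have e1 : α * AA α β t y ^ 2 + β * y ^ 2 = t := by
    rw [AA_sq hr.le]
    unfold rr
    field_simp
    ring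
  have e2 : α * AA α β t' y' ^ 2 + β * y' ^ 2 = t' := by
    rw [AA_sq hr'.le]
    unfold rr
    field_simp
    ring
  have e3 : d ^ 2 * (AA α β t y ^ 2 + y ^ 2) + HH α β d t y ^ 2 = 1 := by
    rw [AA_sq hr.le, HH_sq hs.le]
    unfold rr ss
    field_simp
    ring
  have e4 : d ^ 2 * (AA α β t' y' ^ 2 + y' ^ 2) + HH α β d t' y' ^ 2 = 1 := by
    rw [AA_sq hr'.le, HH_sq hs'.le]
    unfold rr ss
    field_simp
    ring
  have hA2 : AA α β t y ^ 2 = ρ ^ 2 * AA α β t' y' ^ 2 := by rw [hA, mul_pow]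
  have hH2 : HH α β d t y ^ 2 = ρ ^ 2 * HH α β d t' y' ^ 2 := by rw [hH, mul_pow]
  have hy2 : y ^ 2 = ρ ^ 2 * y' ^ 2 := by rw [hy, mul_pow]
  have h1 : ρ ^ 2 = 1 := by
    linear_combination e3 - ρ ^ 2 * e4 - d ^ 2 * hy2 - d ^ 2 * hA2 - hH2
  linear_combination e1 - e2 - α * hA2 - β * hy2 - (α * AA α β t' y' ^ 2 + β * y' ^ 2) * h1

/-- The leading coefficient does not vanish identically. -/
theorem fib_lead {α β d t y t' : ℝ} (hα : α ≠ 0) (hr : 0 < rr α β t y)
    (hs : 0 < 1 - d ^ 2 * ss α β t y) (htt : t' ≠ t) : ∃ X0 : ℝ,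
      HH α β d t y ^ 2 * rr α β t' X0 - AA α β t y ^ 2 * (1 - d ^ 2 * ss α β t' X0) ≠ 0 := by
  by_contra hcon
  push Not at hcon
  have h0 := hcon 0
  have h1 := hcon 1
  have e1 : α * AA α β t y ^ 2 + β * y ^ 2 = t := by
    rw [AA_sq hr.le]
    unfold rr
    field_simp
    ring
  have e3 : d ^ 2 * (AA α β t y ^ 2 + y ^ 2) + HH α β d t y ^ 2 = 1 := by
    rw [AA_sq hr.le, HH_sq hs.le]
    unfold rr ss
    field_simp
    ring
  have hH : 0 < HH α β d t y ^ 2 := by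
    rw [HH_sq hs.le]
    exact hs
  set A := AA α β t y with hA
  set H := HH α β d t y with hHd
  unfold rr ss at h0 h1
  have k0 : t' * (H ^ 2 + d ^ 2 * A ^ 2) = α * A ^ 2 := by
    field_simp at h0
    linear_combination h0
  have k1 : β * H ^ 2 = d ^ 2 * (α - β) * A ^ 2 := by
    field_simp at h1
    linear_combination k0 - h1
  have k2 : (t' - t) * (H ^ 2 + d ^ 2 * A ^ 2) = 0 := by
    rw [← e1]
    linear_combination k0 - α * A ^ 2 * e3 - y ^ 2 * k1
  rcases mul_eq_zero.1 k2 with h | h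
  · exact htt (by linarith)
  · have : 0 ≤ d ^ 2 * A ^ 2 := by positivity
    linarith

/-- The number of preimages. -/
theorem fib_card {α β d t y t' : ℝ} (x1 x2 : ℝ) (hα : α ≠ 0) (hr : 0 < rr α β t y)
    (hs : 0 < 1 - d ^ 2 * ss α β t y) (htt : t' ≠ t) :
    ∀ᵐ z : ℝ × ℝ, {q : ℝ × ℝ | 0 < rr α β t' q.2 ∧ 0 < 1 - d ^ 2 * ss α β t' q.2 ∧
      Tw α β d (x1 + q.1 * AA α β t y) (-(q.1 * HH α β d t y)) t' q.2 = z.1 ∧
      Uw α β d (x1 + q.1 * AA α β t y) (x2 + q.1 * y) (-(q.1 * HH α β d t y)) t' q.2 =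
        z.2}.encard ≤ 8 := by
  obtain ⟨X0, hX0⟩ := fib_lead hα hr hs htt
  have h1 := bad_null (y := y) (x1 := x1) (x2 := x2) (α := α) (β := β) (X0 := X0) hX0
  rw [← compl_compl {z : ℝ × ℝ | bad _ _ _ _ _ _ _ _ _ _ z = 0}] at h1
  filter_upwards [mem_ae_iff.2 h1] with z hz
  rw [mem_compl_iff, mem_ofPred_eq] at hz
  set A := AA α β t y with hA
  set H := HH α β d t y with hH
  set a : ℝ[X] := C (t' / α) - C (β / α) * X ^ 2 with ha
  set h : ℝ[X] := C (1 - d ^ 2 * t' / α) - C (d ^ 2 * (α - β) / α) * X ^ 2 with hh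
  set p0 : ℝ[X] := C (x1 * H) * X with hp0
  set p1 : ℝ[X] := C ((z.2 - x2) * H) + C (2 * (β - α) * z.1 * H) * X with hp1
  set p2 : ℝ[X] := -(C (x1 * y + (z.2 - x2) * A) + C (2 * β * z.1 * A) * X) with hp2
  set p3 : ℝ[X] := C (2 * α * z.1 * y) with hp3
  have ea : ∀ x, a.eval x = rr α β t' x := by
    intro x
    simp only [ha, eval_sub, eval_C, eval_mul, eval_pow, eval_X, rr]
    field_simp
  have eh : ∀ x, h.eval x = 1 - d ^ 2 * ss α β t' x := by
    intro x
    simp only [hh, eval_sub, eval_C, eval_mul, eval_pow, eval_X, ss]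
    field_simp
    ring
  have e0 : ∀ x, p0.eval x = x1 * H * x := by
    intro x
    simp [hp0]
  have e1 : ∀ x, p1.eval x = (z.2 - x2) * H + 2 * (β - α) * z.1 * H * x := by
    intro x
    simp [hp1]
  have e2 : ∀ x, p2.eval x = -(x1 * y + (z.2 - x2) * A + 2 * β * z.1 * A * x) := by
    intro x
    simp [hp2]
    try ring
  have e3 : ∀ x, p3.eval x = 2 * α * z.1 * y := by
    intro x
    simp [hp3]
  have hQ : nrm a h p0 p1 p2 p3 ≠ 0 := by
    intro h0
    apply hz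
    have h2 : (nrm a h p0 p1 p2 p3).eval X0 = 0 := by rw [h0, eval_zero]
    rw [nrm_eval, ea, eh, e0, e1, e2, e3] at h2
    exact h2
  have hdeg : (nrm a h p0 p1 p2 p3).natDegree ≤ 8 := by
    refine nrm_deg ?_ ?_ ?_ ?_ ?_ ?_
    · rw [ha]
      compute_degree
    · rw [hh]
      compute_degree
    · rw [hp0]
      compute_degree
    · rw [hp1]
      compute_degree
    · rw [hp2]
      compute_degree
    · rw [hp3]
      compute_degree
  refine le_trans ?_ (roots_encard hQ hdeg)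
  refine Set.encard_le_encard_of_injOn (f := Prod.snd) ?_ ?_
  · rintro ⟨s, y'⟩ ⟨h1, h2, h3, h4⟩
    simp only at h1 h2 h3 h4
    have hA' : 0 < AA α β t' y' := Real.sqrt_pos.2 h1
    have hH' : 0 < HH α β d t' y' := Real.sqrt_pos.2 h2
    rw [mem_ofPred_eq, nrm_eval, ea, eh, e0, e1, e2, e3]
    refine nrm_zero (AA_sq h1.le) (HH_sq h2.le) ?_
    simp only
    set A' := AA α β t' y' with hA'd
    set H' := HH α β d t' y' with hH'd
    have k1 : H' * (x1 + s * A) - s * H * A' = 2 * α * z.1 * (A' * H') := by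
      rw [← h3]
      unfold Tw
      rw [← hA'd, ← hH'd]
      field_simp
      ring
    have k2 : (z.2 - x2 + 2 * β * z.1 * y') * H' = s * (y * H' - y' * H) := by
      rw [← h4, ← h3]
      unfold Uw Lw Tw
      rw [← hA'd, ← hH'd]
      field_simp
      ring
    have k3 : H' * (x1 * H * y' + ((z.2 - x2) * H + 2 * (β - α) * z.1 * H * y') * A' +
        -(x1 * y + (z.2 - x2) * A + 2 * β * z.1 * A * y') * H' +
        2 * α * z.1 * y * (A' * H')) = 0 := by
      linear_combination (y' * H - y * H') * k1 - (A * H' - H * A') * k2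
    exact (mul_eq_zero.1 k3).resolve_left hH'.ne'
  · rintro ⟨s, y'⟩ ⟨h1, h2, h3, h4⟩ ⟨s', y''⟩ ⟨_, _, h3', h4'⟩ heq
    simp only at h1 h2 h3 h4 h3' h4' heq
    subst heq
    by_contra hne
    have hss : s - s' ≠ 0 := by
      intro h5
      exact hne (by rw [sub_eq_zero.1 h5])
    have hA' : 0 < AA α β t' y' := Real.sqrt_pos.2 h1
    have hH' : 0 < HH α β d t' y' := Real.sqrt_pos.2 h2
    have k1 : (s - s') * (A * HH α β d t' y' - H * AA α β t' y') = 0 := by
      have := h3.trans h3'.symm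
      unfold Tw at this
      field_simp at this
      linear_combination this
    have k2 : (s - s') * (y * HH α β d t' y' - H * y') = 0 := by
      have h5 := h4.trans h4'.symm
      unfold Uw Lw at h5
      have h6 : (s - s') * (α * y * AA α β t' y' * HH α β d t' y' -
          y' * β * A * HH α β d t' y' - y' * (α - β) * H * AA α β t' y') = 0 := by
        field_simp at h5
        linear_combination h5
      have h7 : α * AA α β t' y' * ((s - s') * (y * HH α β d t' y' - H * y')) = 0 := by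
        linear_combination h6 + y' * β * k1
      exact (mul_eq_zero.1 h7).resolve_left (mul_ne_zero hα hA'.ne')
    have k3 := (mul_eq_zero.1 k1).resolve_left hss
    have k4 := (mul_eq_zero.1 k2).resolve_left hss
    refine htt (fib_ray (ρ := H / HH α β d t' y') hα hr hs h1 h2 ?_ ?_ ?_)
    · rw [div_mul_eq_mul_div, eq_div_iff hH'.ne']
      linarith
    · rw [div_mul_eq_mul_div, eq_div_iff hH'.ne']
      linarith
    · rw [div_mul_cancel₀ _ hH'.ne']

end Pool.Agent.LQ
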