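import Pool.Agent.MP_6cbfb8_an.LiftF

/-!
Doubling an eigenvalue: from the functions of a quadratic form on the sphere of `R^n` to the
functions of a quadratic form on the sphere of `R^(n+1)`.
-/

set_option autoImplicit false

namespace Pool.Agent.LQ

open MeasureTheory Set Pool.Agent.MP_6cbfb8_an
open scoped ENNReal Real

/-- The function `F` of the quadratic form `∑ b_i x_i²`. -/
noncomputable def qf {n : ℕ} (b : Fin n → ℝ) (F : ℝ → ℂ) (x : E n) : ℂ :=
  F (∑ i, b i * x i ^ 2)

/-- The conjectured bound for all bounded measurable functions of the quadratic form. -/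
def Full (n : ℕ) (b : Fin n → ℝ) : Prop :=
  ∀ p : ℝ, 2 * (n : ℝ) / (n - 1) < p → ∃ C : ℝ≥0∞, C ≠ ∞ ∧ ∀ F : ℝ → ℂ, Measurable F →
    (∀ t, ‖F t‖ ≤ 1) → ∫⁻ ξ, ‖extn (qf b F) ξ‖ₑ ^ p ≤ C

theorem measurable_qf {n : ℕ} (b : Fin n → ℝ) {F : ℝ → ℂ} (hF : Measurable F) :
    Measurable (qf b F) := by
  refine hF.comp ?_
  fun_prop

/-- Half spaces. -/
theorem full_cut {n : ℕ} (hn : 3 ≤ n) {b : Fin n → ℝ} (h : Full n b) (N : ℕ) {p : ℝ}
    (hp : 2 * (n : ℝ) / (n - 1) < p) :
    ∃ C : ℝ≥0∞, C ≠ ∞ ∧ ∀ F : ℝ → ℂ, Measurable F → (∀ t, ‖F t‖ ≤ 1) →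
      ∀ (v : Fin N → E n) (c : Fin N → ℝ),
      ∫⁻ ξ, ‖extn (fun x => qf b F x * ∏ i, hsn (c i) (v i) x) ξ‖ₑ ^ p ≤ C := by
  have hn' : (3 : ℝ) ≤ n := by exact_mod_cast hn
  have h1 : 1 ≤ 2 * (n : ℝ) / (n - 1) := by
    rw [le_div_iff₀ (by linarith)]
    linarith
  obtain ⟨C, hC, H⟩ := multicut n hn (2 * (n : ℝ) / (n - 1)) h1
    (fun g => ∃ F : ℝ → ℂ, Measurable F ∧ (∀ t, ‖F t‖ ≤ 1) ∧ g = qf b F) (by
      intro p' hp'
      obtain ⟨C, hC, H⟩ := h p' hp'
      refine ⟨C, hC, ?_⟩
      rintro g _ _ ⟨F, hF, hF1, rfl⟩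
      exact H F hF hF1) N p hp
  exact ⟨C, hC, fun F hF hF1 v c => H (qf b F) (measurable_qf b hF) (fun x => hF1 _)
    ⟨F, hF, hF1, rfl⟩ v c⟩

/-- Powers of the last coordinate on the half space. -/
theorem full_tpow {k : ℕ} (hk : 2 ≤ k) {b : Fin (k + 1) → ℝ} (h : Full (k + 1) b) (j : ℕ) {q : ℝ}
    (hq : 2 * ((k + 1 : ℕ) : ℝ) / (((k + 1 : ℕ) : ℝ) - 1) < q) :
    ∃ C : ℝ≥0∞, C ≠ ∞ ∧ ∀ F : ℝ → ℂ, Measurable F → (∀ t, ‖F t‖ ≤ 1) →
      ∫⁻ ξ, ‖extn (tpow j (qf b F)) ξ‖ₑ ^ q ≤ C := by
  have hk' : (3 : ℝ) ≤ ((k + 1 : ℕ) : ℝ) := by exact_mod_cast (by omega : 3 ≤ k + 1)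
  have hq1 : 1 < q := by
    refine lt_of_le_of_lt ?_ hq
    rw [le_div_iff₀ (by linarith)]
    linarith
  obtain ⟨C, hC, H⟩ := full_cut (by omega) h 1 hq
  rcases j with _ | j
  · refine ⟨C, hC, fun F hm hb => ?_⟩
    refine le_trans (le_of_eq ?_) (H F hm hb (fun _ => eLast k) (fun _ => 0))
    refine lintegral_congr fun ξ => ?_
    congr 3
    funext x
    rw [Fin.prod_univ_one]
    unfold tpow hsn
    rw [inner_eLast]
    split_ifs <;> simp
  · refine ⟨C * powν j univ ^ q, ENNReal.mul_ne_top hC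
      (ENNReal.rpow_ne_top_of_nonneg (by linarith) (measure_ne_top _ _)), fun F hm hb => ?_⟩
    have key := lintegral_mix_le (p := q) (C := C) hq1.le
      (fun g : E (k + 1) → ℂ => ∃ c : ℝ, g = fun x => qf b F x * ∏ _i : Fin 1, hsn c (eLast k) x)
      (by
        rintro g _ _ ⟨c, rfl⟩
        exact H F hm hb (fun _ => eLast k) (fun _ => c))
      (powν j) (fun _ => LinearIsometryEquiv.refl ℝ (E (k + 1))) (fun _ => 0)
      (fun c x => qf b F x * ∏ _i : Fin 1, hsn c (eLast k) x)
      measurable_snd measurable_const (by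
        have h1 : Measurable fun q : ℝ × E (k + 1) => qf b F q.2 :=
          (measurable_qf b hm).comp measurable_snd
        refine h1.mul ?_
        simp only [Fin.prod_univ_one]
        unfold hsn
        refine Measurable.ite ?_ measurable_const measurable_const
        exact measurableSet_lt measurable_fst (by fun_prop))
      (fun c x => by
        rw [norm_mul, Fin.prod_univ_one]
        exact mul_le_one₀ (hb _) (norm_nonneg _) (norm_hsn_le _ _ _))
      (fun c => ⟨c, rfl⟩)
    refine le_trans (le_of_eq ?_) key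
    have : extn (tpow (j + 1) (qf b F) : E (k + 1) → ℂ) = extn (mix (powν j)
        (fun _ => LinearIsometryEquiv.refl ℝ (E (k + 1))) (fun _ => 0)
        (fun c x => qf b F x * ∏ _i : Fin 1, hsn c (eLast k) x)) := by
      refine extn_congr_sphere fun x hx => ?_
      unfold mix
      simp only [Fin.prod_univ_one, inner_zero_right, mul_zero, Complex.ofReal_zero, zero_mul,
        Complex.exp_zero, one_mul, LinearIsometryEquiv.coe_refl, id]
      rw [integral_const_mul]
      have e1 : (fun c : ℝ => hsn c (eLast k) x) =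
          (Iio (x (Fin.last k))).indicator fun _ => (1:ℂ) := by
        funext c
        unfold hsn
        rw [inner_eLast]
        by_cases h : c < x (Fin.last k)
        · rw [if_pos h, indicator_of_mem (mem_Iio.2 h)]
        · rw [if_neg h, indicator_of_notMem]
          exact h
      rw [e1, integral_indicator_const _ measurableSet_Iio]
      unfold tpow Measure.real
      split_ifs with h
      · rw [powν_Iio j h ((le_abs_self _).trans ((abs_last_le x).trans hx.le)),
          ENNReal.toReal_ofReal (by positivity)]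
        simp
      · rw [powν_Iio_neg j (not_lt.1 h)]
        simp
    rw [this]

/-- The form with its last eigenvalue doubled. -/
noncomputable def dbl {κ : ℕ} (b : Fin (κ + 2) → ℝ) : Fin ((κ + 1) + (0 + 2)) → ℝ :=
  Fin.append (fun i : Fin (κ + 1) => b (Fin.castSucc i)) (fun _ : Fin (0 + 2) => b (Fin.last (κ + 1)))

theorem lift_qf {κ : ℕ} (b : Fin (κ + 2) → ℝ) (F : ℝ → ℂ) :
    (lift (qf b F) : E ((κ + 1) + (0 + 2)) → ℂ) = qf (dbl b) F := by
  funext x
  unfold lift qf
  refine congrArg F ?_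
  have e : ∑ i : Fin ((κ + 1) + (0 + 2)), dbl b i * x i ^ 2 =
      (∑ i : Fin (κ + 1), dbl b (Fin.castAdd (0 + 2) i) * x (Fin.castAdd (0 + 2) i) ^ 2) +
        ∑ i : Fin (0 + 2), dbl b (Fin.natAdd (κ + 1) i) * x (Fin.natAdd (κ + 1) i) ^ 2 :=
    Fin.sum_univ_add _
  rw [Fin.sum_univ_castSucc]
  refine Eq.trans ?_ e.symm
  refine congrArg₂ (fun a c : ℝ => a + c) ?_ ?_
  · refine Finset.sum_congr rfl fun i _ => ?_
    unfold dbl join fstE
    rw [Fin.append_left]
    simp
  · have h1 : (join (fstE x) ‖(sndE x : E (0 + 2))‖ : E (κ + 1 + 1)) (Fin.last (κ + 1)) =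
        ‖(sndE x : E (0 + 2))‖ := by
      unfold join
      simp
    rw [h1, EuclideanSpace.norm_sq_eq, Finset.mul_sum]
    refine Finset.sum_congr rfl fun i _ => ?_
    unfold dbl sndE
    rw [Fin.append_right]
    simp

/-- STEP. -/
theorem full_dbl {κ : ℕ} (hκ : 1 ≤ κ) {b : Fin (κ + 2) → ℝ} (h : Full (κ + 2) b) :
    Full ((κ + 1) + (0 + 2)) (dbl b) := by
  intro p hp
  have hκ' : (1 : ℝ) ≤ κ := by exact_mod_cast hκ
  have e1 : (((κ + 1 + (0 + 2) : ℕ)) : ℝ) = κ + 3 := by
    push_cast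
    ring
  have e2 : (((κ + 2 : ℕ)) : ℝ) = κ + 2 := by
    push_cast
    ring
  rw [e1] at hp
  set q1 : ℝ := 2 * ((κ : ℝ) + 2) / (κ + 1) with hq1
  have hq12 : q1 - 2 = 2 / (κ + 1) := by
    rw [hq1]
    field_simp
    ring
  have hp2 : 2 < p := by
    refine lt_of_le_of_lt ?_ hp
    rw [le_div_iff₀ (by linarith)]
    linarith
  obtain ⟨C, hC, H⟩ := lifting κ 0 q1 (by
      have : 0 < q1 - 2 := by
        rw [hq12]
        positivity
      linarith)
    (fun g => ∃ F : ℝ → ℂ, Measurable F ∧ (∀ t, ‖F t‖ ≤ 1) ∧ g = qf b F) (by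
      intro j q hq
      obtain ⟨C, hC, H⟩ := full_tpow (k := κ + 1) (by omega) h j (q := q) (by
        have : (((κ + 1 + 1 : ℕ)) : ℝ) = κ + 2 := by
          push_cast
          ring
        rw [this]
        have e3 : (κ : ℝ) + 2 - 1 = κ + 1 := by ring
        rw [e3]
        exact hq)
      refine ⟨C, hC, ?_⟩
      rintro G _ _ ⟨F, hF, hF1, rfl⟩
      exact H F hF hF1) p hp2 (by
      rw [hq12, one_div_div]
      have h1 : 2 / ((κ : ℝ) + 2) < p - 2 := by
        have : 2 * ((κ : ℝ) + 3) / (κ + 3 - 1) - 2 = 2 / (κ + 2) := by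
          have : (κ : ℝ) + 3 - 1 = κ + 2 := by ring
          rw [this]
          field_simp
          ring
        linarith
      have h2 : 1 / (p - 2) < 1 / (2 / ((κ : ℝ) + 2)) :=
        one_div_lt_one_div_of_lt (by positivity) h1
      rw [one_div_div] at h2
      push_cast
      linarith)
  refine ⟨C, hC, fun F hF hF1 => ?_⟩
  rw [← lift_qf]
  exact H (qf b F) (measurable_qf b hF) (fun x => hF1 _) ⟨F, hF, hF1, rfl⟩

/-- Permutations of the coordinates. -/
theorem full_perm {n : ℕ} {b : Fin n → ℝ} (σ : Equiv.Perm (Fin n)) (h : Full n b) :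
    Full n (fun i => b (σ i)) := by
  intro p hp
  obtain ⟨C, hC, H⟩ := h p hp
  refine ⟨C, hC, fun F hF hF1 => ?_⟩
  obtain ⟨R, hR⟩ : ∃ R : E n ≃ₗᵢ[ℝ] E n, ∀ x i, R x i = x (σ.symm i) :=
    ⟨LinearIsometryEquiv.piLpCongrLeft 2 ℝ ℝ σ, fun x i => rfl⟩
  have h1 : qf (fun i => b (σ i)) F = fun x => qf b F (R x) := by
    funext x
    unfold qf
    refine congrArg F ?_
    rw [← Equiv.sum_comp σ (fun j => b j * R x j ^ 2)]
    refine Finset.sum_congr rfl fun i _ => ?_
    rw [hR, Equiv.symm_apply_apply]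
  have h2 : ∀ ξ, extn (qf (fun i => b (σ i)) F) ξ = extn (qf b F) (R ξ) := by
    intro ξ
    rw [← extn_isometry, h1]
    rfl
  simp only [h2]
  have h3 := R.measurePreserving.lintegral_comp_emb
    R.toHomeomorph.measurableEmbedding (fun ξ => ‖extn (qf b F) ξ‖ₑ ^ p)
  exact h3.trans_le (H F hF hF1)

/-- A permutation with two given values. -/
theorem perm_two {α : Type*} [DecidableEq α] {a a' i j : α} (h : a ≠ a') (h' : i ≠ j) :
    ∃ σ : Equiv.Perm α, σ a = i ∧ σ a' = j := by
  refine ⟨(Equiv.swap a (Equiv.swap a' j i)).trans (Equiv.swap a' j), ?_, ?_⟩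
  · simp
  · have h1 : a' ≠ Equiv.swap a' j i := by
      intro hc
      have h2 : Equiv.swap a' j a' = Equiv.swap a' j (Equiv.swap a' j i) :=
        congrArg (Equiv.swap a' j) hc
      rw [Equiv.swap_apply_left, ← Equiv.trans_apply, Equiv.swap_swap, Equiv.refl_apply] at h2
      exact h' h2.symm
    rw [Equiv.trans_apply, Equiv.swap_apply_of_ne_of_ne h.symm h1, Equiv.swap_apply_left]

/-- **All multiplicities.** -/
theorem full_all {s : ℕ} (hs : 3 ≤ s) (hbase : ∀ b : Fin s → ℝ, Function.Injective b → Full s b) :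
    ∀ (κ : ℕ) (b : Fin (κ + 2) → ℝ), (range b).ncard = s → Full (κ + 2) b := by
  intro κ
  induction κ with
  | zero =>
    intro b hb
    have h1 : (range b).ncard ≤ 2 := by
      have := Set.ncard_image_le (f := b) (s := univ) finite_univ
      rwa [image_univ, Set.ncard_univ, Nat.card_eq_fintype_card, Fintype.card_fin] at this
    omega
  | succ κ ih =>
    intro b hb
    by_cases hinj : Function.Injective b
    · have h1 : s = κ + 1 + 2 := by
        rw [← hb, ← image_univ, Set.ncard_image_of_injective _ hinj, Set.ncard_univ,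
          Nat.card_eq_fintype_card, Fintype.card_fin]
      subst h1
      exact hbase b hinj
    · have h2 : ∃ i j : Fin (κ + 1 + 2), b i = b j ∧ i ≠ j := by
        simpa only [Function.Injective, not_forall, exists_prop] using hinj
      obtain ⟨i, j, hij, hne⟩ := h2
      have ha : Fin.castSucc (Fin.last (κ + 1)) ≠ Fin.last (κ + 1 + 1) :=
        (Fin.castSucc_lt_last _).ne
      obtain ⟨σ, hσ1, hσ2⟩ := perm_two ha hne
      -- the form without the last coordinate
      obtain ⟨c, hc⟩ : ∃ c : Fin (κ + 2) → ℝ, c = fun k => b (σ (Fin.castSucc k)) := ⟨_, rfl⟩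
      have hl : b (σ (Fin.last (κ + 1 + 1))) = c (Fin.last (κ + 1)) := by
        rw [hc]
        simp only
        rw [hσ1, hσ2, hij]
      have hrange : range c = range b := by
        apply Subset.antisymm
        · rintro _ ⟨k, rfl⟩
          rw [hc]
          exact ⟨_, rfl⟩
        · rintro _ ⟨k, rfl⟩
          obtain ⟨k', rfl⟩ := σ.surjective k
          rcases Fin.eq_castSucc_or_eq_last k' with ⟨l, rfl⟩ | rfl
          · exact ⟨l, by rw [hc]⟩
          · exact ⟨Fin.last (κ + 1), hl.symm⟩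
      have hcs : (range c).ncard = s := by rw [hrange, hb]
      have hκ : 1 ≤ κ := by
        have h1 : (range c).ncard ≤ κ + 2 := by
          have := Set.ncard_image_le (f := c) (s := univ) finite_univ
          rwa [image_univ, Set.ncard_univ, Nat.card_eq_fintype_card, Fintype.card_fin] at this
        omega
      have h3 := full_dbl hκ (ih c hcs)
      have h4 : (fun k => b (σ k)) = dbl c := by
        funext k
        unfold dbl
        refine Fin.addCases (m := κ + 1) (n := 0 + 2) (fun l => ?_) (fun l => ?_) k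
        · rw [Fin.append_left, hc]
          rfl
        · rw [Fin.append_right]
          fin_cases l
          · rw [hc]
            rfl
          · exact hl
      rw [← h4] at h3
      have h5 := full_perm σ.symm h3
      simpa using h5

end Pool.Agent.LQ
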