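import Pool.Agent.LQ.PIECE
import Pool.Agent.LQ.LIFTQ

/-!
The base case of the lifting: the functions of a quadratic form with distinct eigenvalues, `n = 3`.
-/

set_option autoImplicit false

namespace Pool.Agent.LQ

open MeasureTheory Set Pool.Agent.MP_6cbfb8_an
open scoped ENNReal NNReal Real ContDiff

/-- The functions of one variable are in the class `GC`. -/
theorem gc_const {F : ℝ → ℂ} (hF : Measurable F) (h1 : ∀ t, ‖F t‖ ≤ 1) :
    GC (fun _ => 1) (fun t _ => F t) := by
  refine ⟨hF.comp measurable_fst, fun t => contDiff_const, fun k t x => ?_⟩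
  rcases Nat.eq_zero_or_pos k with rfl | hk
  · rw [norm_iteratedFDeriv_zero]
    exact h1 t
  · rw [iteratedFDeriv_const_of_ne hk.ne']
    simp

/-- `n = 3`, distinct eigenvalues. -/
theorem full3 (b : Fin 3 → ℝ) (hb : Function.Injective b) : Full 3 b := by
  intro p hp
  have hp3 : 3 < p := by
    have : 2 * ((3 : ℕ) : ℝ) / (((3 : ℕ) : ℝ) - 1) = 3 := by norm_num
    rwa [this] at hp
  obtain ⟨C, hC⟩ := quadQ_all (b := b) (p := p) (by linarith) (quadQ hb hp3) (fun _ => 1)
  exact ⟨C, ENNReal.coe_ne_top, fun F hF h1 => hC _ (gc_const hF h1)⟩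

end Pool.Agent.LQ
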