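import Pool.Agent.LQ.UNI
import Pool.Agent.LFK.DOMK2

/-!
From the functions `F (Q x)` to the functions `G (Q x, x)` with `G (t, x)` smooth in `x`.
-/

set_option autoImplicit false

namespace Pool.Agent.LFD

open MeasureTheory Set Metric FourierTransform Pool.Agent.MP_6cbfb8_an Pool.Agent.LEAF
open scoped ENNReal Real ContDiff RealInnerProductSpace

/-- The functions `G (Q x, x)` times the indicator functions of `N` half-spaces, for measurable
functions `G (t, x)`, smooth in `x`, with derivatives in `x` up to the order `n + 1` bounded by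
`B`. -/
def GQ {n : ℕ} (Q : E n → ℝ) (N : ℕ) (B : ℝ) (g : E n → ℂ) : Prop :=
  ∃ (G : ℝ → E n → ℂ) (v : Fin N → E n) (c : Fin N → ℝ), Measurable (Function.uncurry G) ∧
    (∀ t, ContDiff ℝ ∞ (G t)) ∧ (∀ j ≤ n + 1, ∀ t x, ‖iteratedFDeriv ℝ j (G t) x‖ ≤ B) ∧
    ∀ x, g x = G (Q x) x * ∏ j, if c j < inner ℝ x (v j) then 1 else 0

/-- The Fourier representation. -/
theorem gq_rep (n : ℕ) : ∃ C : ℝ, 0 < C ∧ ∀ (B : ℝ) (G : ℝ → E n → ℂ),
    Measurable (Function.uncurry G) → (∀ t, ContDiff ℝ ∞ (G t)) →
    (∀ j ≤ n + 1, ∀ t x, ‖iteratedFDeriv ℝ j (G t) x‖ ≤ B) →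
    ∃ a : ℝ → E n → ℂ, Measurable (Function.uncurry a) ∧
      (∀ t η, ‖a t η‖ ≤ C * B * (wt n η)⁻¹) ∧
      ∀ t x, ‖x‖ = 1 → G t x = ∫ η, Complex.exp (((2 * π * inner ℝ x η : ℝ) : ℂ) * Complex.I) *
        a t η := by
  obtain ⟨C0, hC0, h4⟩ := Pool.Agent.LFK.four_decay3 n 2
  let f : ContDiffBump (0 : E n) := ⟨1, 2, by norm_num, by norm_num⟩
  set χ : E n → ℂ := fun x => ((f x : ℝ) : ℂ) with hχ
  have hfc : ContDiff ℝ ∞ f := f.contDiff
  have hχc : ContDiff ℝ ∞ χ := Complex.ofRealCLM.contDiff.comp hfc
  have hχs : HasCompactSupport χ := f.hasCompactSupport.comp_left (g := fun r : ℝ => (r : ℂ)) rfl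
  have hb : ∀ j : ℕ, ∃ A : ℝ, ∀ p, ‖iteratedFDeriv ℝ j χ p‖ ≤ A := fun j =>
    (hχs.iteratedFDeriv (𝕜 := ℝ) j).exists_bound_of_continuous
      (hχc.continuous_iteratedFDeriv (by exact_mod_cast le_top))
  choose A hA using hb
  set S : ℝ := 1 + ∑ k ∈ Finset.range (n + 2), ∑ i ∈ Finset.range (k + 1),
    (k.choose i : ℝ) * |A i| with hS
  have hS1 : 1 ≤ S := by
    rw [hS]
    have : 0 ≤ ∑ k ∈ Finset.range (n + 2), ∑ i ∈ Finset.range (k + 1),
      (k.choose i : ℝ) * |A i| :=
      Finset.sum_nonneg fun k _ => Finset.sum_nonneg fun i _ => by positivity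
    linarith
  refine ⟨C0 * S + 1, by positivity, fun B G hGm hG hB => ?_⟩
  have hB0 : 0 ≤ B := (norm_nonneg _).trans (hB 0 (by omega) 0 0)
  have hbc : ∀ t, ContDiff ℝ ∞ fun x => χ x * G t x := fun t => hχc.mul (hG t)
  have hd : ∀ t, ∀ j ≤ n + 1, ∀ z, ‖iteratedFDeriv ℝ j (fun x => χ x * G t x) z‖ ≤ S * B := by
    intro t j hj z
    refine (norm_iteratedFDeriv_mul_le hχc (hG t) z (n := j) (by exact_mod_cast le_top)).trans ?_
    calc ∑ i ∈ Finset.range (j + 1), (j.choose i : ℝ) * ‖iteratedFDeriv ℝ i χ z‖ *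
          ‖iteratedFDeriv ℝ (j - i) (G t) z‖
        ≤ ∑ i ∈ Finset.range (j + 1), (j.choose i : ℝ) * |A i| * B := by
          refine Finset.sum_le_sum fun i _ => ?_
          have h1 := (hA i z).trans (le_abs_self _)
          have h2 := hB (j - i) (by omega) t z
          gcongr
      _ = (∑ i ∈ Finset.range (j + 1), (j.choose i : ℝ) * |A i|) * B := by
          rw [Finset.sum_mul]
      _ ≤ S * B := by
          refine mul_le_mul_of_nonneg_right ?_ hB0
          have h3 := Finset.single_le_sum (f := fun k => ∑ i ∈ Finset.range (k + 1),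
            (k.choose i : ℝ) * |A i|) (fun k _ => Finset.sum_nonneg fun i _ => by positivity)
            (Finset.mem_range.2 (by omega : j < n + 2))
          rw [hS]
          linarith
  have hsupp : ∀ t z, 2 < ‖z - (0 : E n)‖ → χ z * G t z = 0 := by
    intro t z hz
    have : f z = 0 := by
      apply f.zero_of_le_dist
      rw [dist_eq_norm]
      exact hz.le
    rw [hχ]
    simp only
    rw [this]
    simp
  have h5 := fun t => h4 (fun x => χ x * G t x) 0 (S * B) (by positivity) (hbc t) (hsupp t) (hd t)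
  have hmb : Measurable (Function.uncurry fun t x => χ x * G t x) := by
    have : (Function.uncurry fun t x => χ x * G t x) = fun q : ℝ × E n =>
        χ q.2 * Function.uncurry G q := rfl
    rw [this]
    exact (hχc.continuous.measurable.comp measurable_snd).mul hGm
  refine ⟨fun t η => 𝓕 (fun x => χ x * G t x) η, ?_, fun t η => ?_, fun t x hx => ?_⟩
  · have := Pool.Agent.LFK.measurable_bhk' hmb (f := fun q : ℝ × E n => q.2)
      (g := fun q : ℝ × E n => q.1) measurable_snd measurable_fst
    exact this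
  · refine ((h5 t).1 η).trans ?_
    have hw := (wt_pos n η).le
    have : C0 * (S * B) ≤ (C0 * S + 1) * B := by nlinarith
    exact mul_le_mul_of_nonneg_right this (inv_nonneg.2 hw)
  · have h6 : χ x * G t x = ∫ η, Complex.exp (((2 * π * ⟪η, x⟫ : ℝ) : ℂ) * Complex.I) *
        𝓕 (fun x => χ x * G t x) η := (h5 t).2 x
    have h7 : f x = 1 := by
      apply f.one_of_mem_closedBall
      rw [mem_closedBall, dist_zero_right, hx]
    have h8 : χ x * G t x = G t x := by
      rw [hχ]
      simp only
      rw [h7]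
      simp
    rw [← h8, h6]
    refine integral_congr_ae (Filter.Eventually.of_forall fun η => ?_)
    simp only
    rw [real_inner_comm]

/-- The finite measure of the frequencies. -/
noncomputable def wtM (n : ℕ) : Measure (E n) :=
  (volume : Measure (E n)).withDensity fun η => ENNReal.ofReal ((wt n η)⁻¹)

theorem wtM_fin (n : ℕ) : IsFiniteMeasure (wtM n) :=
  isFiniteMeasure_withDensity_ofReal (wt_integrable n).hasFiniteIntegral

theorem integral_wtM {n : ℕ} (F : E n → ℂ) :
    ∫ η, F η ∂(wtM n) = ∫ η, (((wt n η)⁻¹ : ℝ) : ℂ) * F η := by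
  unfold wtM
  rw [integral_withDensity_eq_integral_toReal_smul]
  · refine integral_congr_ae (Filter.Eventually.of_forall fun η => ?_)
    simp only
    rw [ENNReal.toReal_ofReal (inv_nonneg.2 (wt_pos n η).le)]
    exact Complex.real_smul
  · exact ((continuous_wt n).measurable.inv).ennreal_ofReal
  · exact Filter.Eventually.of_forall fun η => ENNReal.ofReal_lt_top

/-- The estimate for the class `GQ` from the estimate for the class `QHS`. -/
theorem bd_gq {n : ℕ} {p : ℝ} (hp : 1 ≤ p) {Q : E n → ℝ} (hQ : Measurable Q) (N : ℕ)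
    (h : Bd n p (QHS Q N)) (B : ℝ) : Bd n p (GQ Q N B) := by
  obtain ⟨C1, hC1, h⟩ := h
  obtain ⟨C, hC0, hrep⟩ := gq_rep n
  refine bd_of (M := B) hp _ ?_ ?_
  · rintro g ⟨G, v, c, -, -, hB, hg⟩ x
    rw [hg, norm_mul]
    have h1 := hB 0 (by omega) (Q x) x
    rw [norm_iteratedFDeriv_zero] at h1
    calc ‖G (Q x) x‖ * _ ≤ B * 1 := mul_le_mul h1 (norm_hprod_le v c x) (norm_nonneg _)
          ((norm_nonneg _).trans h1)
      _ = B := mul_one B
  · set K : ℝ := C * (|B| + 1) with hK
    have hK0 : 0 < K := by positivity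
    refine ⟨ENNReal.ofReal K ^ p * (C1 * (wtM n) univ ^ p), ?_, ?_⟩
    · have := wtM_fin n
      exact ENNReal.mul_ne_top (ENNReal.rpow_ne_top_of_nonneg (by linarith) ENNReal.ofReal_ne_top)
        (ENNReal.mul_ne_top hC1 (ENNReal.rpow_ne_top_of_nonneg (by linarith) (measure_ne_top _ _)))
    · rintro g - ⟨G, v, c, hGm, hG, hB, hg⟩
      have hB0 : 0 ≤ B := (norm_nonneg _).trans (hB 0 (by omega) 0 0)
      obtain ⟨a, ham, hab, har⟩ := hrep B G hGm hG hB
      have := wtM_fin n
      set pr : E n → ℂ := fun x => ∏ j, (if c j < inner ℝ x (v j) then (1 : ℂ) else 0) with hpr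
      set hh : E n → E n → ℂ := fun η x => (((wt n η / K : ℝ) : ℂ) * a (Q x) η) * pr x with hhh
      have hprm : Measurable pr := by
        rw [hpr]
        refine Finset.measurable_prod _ fun j _ => ?_
        refine Measurable.ite ?_ measurable_const measurable_const
        exact measurableSet_lt measurable_const (by fun_prop)
      have hcl : ∀ η, QHS Q N (hh η) := by
        intro η
        refine ⟨fun t => ((wt n η / K : ℝ) : ℂ) * a t η, v, c, ?_, fun t => ?_, fun x => rfl⟩
        · exact measurable_const.mul (ham.comp (measurable_id.prodMk measurable_const))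
        · rw [norm_mul, Complex.norm_real, Real.norm_eq_abs,
            abs_of_nonneg (div_nonneg (wt_pos n η).le hK0.le)]
          calc wt n η / K * ‖a t η‖ ≤ wt n η / K * (C * B * (wt n η)⁻¹) :=
                mul_le_mul_of_nonneg_left (hab t η) (div_nonneg (wt_pos n η).le hK0.le)
            _ = C * B / K := by
                have := (wt_pos n η).ne'
                field_simp
            _ ≤ 1 := by
                rw [div_le_one hK0, hK]
                have : B ≤ |B| + 1 := (le_abs_self B).trans (by linarith)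
                exact mul_le_mul_of_nonneg_left this hC0.le
      have hhm : Measurable fun q : E n × E n => hh q.1 q.2 := by
        rw [hhh]
        refine Measurable.mul (Measurable.mul ?_ ?_) (hprm.comp measurable_snd)
        · exact Complex.measurable_ofReal.comp
            (((continuous_wt n).measurable.comp measurable_fst).div_const K)
        · exact ham.comp ((hQ.comp measurable_snd).prodMk measurable_fst)
      have h1 := h (E n) (wtM n) (fun _ => LinearIsometryEquiv.refl ℝ (E n)) (fun η => η) hh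
        measurable_snd measurable_id hhm hcl
      have h2 : ∀ x, ‖x‖ = 1 → g x = (K : ℂ) *
          mix (wtM n) (fun _ => LinearIsometryEquiv.refl ℝ (E n)) (fun η => η) hh x := by
        intro x hx
        unfold mix
        rw [integral_wtM, ← integral_const_mul, hg, har (Q x) x hx, ← integral_mul_const]
        refine integral_congr_ae (Filter.Eventually.of_forall fun η => ?_)
        simp only [hhh, hpr, LinearIsometryEquiv.coe_refl, id]
        have hw := (wt_pos n η).ne'
        have hwc : ((wt n η : ℝ) : ℂ) ≠ 0 := Complex.ofReal_ne_zero.2 hw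
        have hKc : ((K : ℝ) : ℂ) ≠ 0 := Complex.ofReal_ne_zero.2 hK0.ne'
        push_cast
        field_simp
      have h3 : ∀ ξ, extn g ξ = (K : ℂ) * extn
          (mix (wtM n) (fun _ => LinearIsometryEquiv.refl ℝ (E n)) (fun η => η) hh) ξ := by
        intro ξ
        rw [extn_congr_sphere h2]
        unfold extn
        rw [← integral_const_mul]
        refine integral_congr_ae (Filter.Eventually.of_forall fun x => ?_)
        simp only
        ring
      have hp0 : 0 ≤ p := by linarith
      have h4 : ‖((K : ℝ) : ℂ)‖ₑ = ENNReal.ofReal K := by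
        rw [← ofReal_norm, Complex.norm_real, Real.norm_eq_abs, abs_of_pos hK0]
      calc ∫⁻ ξ, ‖extn g ξ‖ₑ ^ p = ∫⁻ ξ, ENNReal.ofReal K ^ p * ‖extn
            (mix (wtM n) (fun _ => LinearIsometryEquiv.refl ℝ (E n)) (fun η => η) hh) ξ‖ₑ ^ p := by
            refine lintegral_congr fun ξ => ?_
            rw [h3, enorm_mul, ENNReal.mul_rpow_of_nonneg _ _ hp0, h4]
        _ = ENNReal.ofReal K ^ p * ∫⁻ ξ, ‖extn
            (mix (wtM n) (fun _ => LinearIsometryEquiv.refl ℝ (E n)) (fun η => η) hh) ξ‖ₑ ^ p :=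
            lintegral_const_mul' _ _ (ENNReal.rpow_ne_top_of_nonneg hp0 ENNReal.ofReal_ne_top)
        _ ≤ _ := mul_le_mul_right h1 _

theorem measurable_form {n : ℕ} (Q : QuadraticForm ℝ (E n)) : Measurable Q := by
  obtain ⟨b, R, hR⟩ := LQ.exists_diag Q
  have : (Q : E n → ℝ) = fun x => ∑ i, b i * R x i ^ 2 := funext hR
  rw [this]
  have hc : Continuous fun x : E n => ∑ i, b i * R x i ^ 2 := by
    have hRc : Continuous fun x : E n => R x := R.continuous
    fun_prop
  exact hc.measurable

end Pool.Agent.LFD
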