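import Pool.Agent.LQ.EXPL
import Pool.Agent.LQ.Df2
import Pool.Agent.LQ.CNT
import Pool.Agent.LF.CORE0

/-!
LEAFQ, row HM: the number of related quadruples of caps, from `row_CNT`.
-/

set_option autoImplicit false

namespace Pool.Agent.LQ

open MeasureTheory Set Pool.Agent.MP_6cbfb8_an Pool.Agent.LF
open scoped RealInnerProductSpace ContDiff

theorem hm_zc (z0 : E 1) (r : ℝ) (M : ℕ) (k : Fin 1 → ℕ) :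
    zc z0 r M k 0 = z0 0 + r * ((k 0 : ℝ) - M) := by
  simp [zc, GNP.trp]

/-- Grid points of one line are separated. -/
theorem hm_sep {r x : ℝ} (hr : 0 < r) {M i j : ℕ} (h : i ≠ j) :
    r ≤ |x + r * ((i : ℝ) - M) - (x + r * ((j : ℝ) - M))| := by
  have e1 : x + r * ((i : ℝ) - M) - (x + r * ((j : ℝ) - M)) = r * ((i : ℝ) - j) := by ring
  rw [e1, abs_mul, abs_of_pos hr]
  have h2 : (1 : ℝ) ≤ |(i : ℝ) - (j : ℝ)| := by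
    have h3 : ((i : ℕ) : ℤ) - (j : ℕ) ≠ 0 := by omega
    have h5 := Int.one_le_abs h3
    exact_mod_cast h5
  calc r = r * 1 := (mul_one r).symm
    _ ≤ r * |(i : ℝ) - (j : ℝ)| := by gcongr

theorem hm_coord {n : ℕ} (v : E n) (i : Fin n) : |v i| ≤ ‖v‖ := by
  rw [← Real.norm_eq_abs]
  exact PiLp.norm_apply_le v i

/-- Four caps which are related give four related grid points. -/
theorem hm_rel {α β : ℝ} {X : ℝ → ℝ × E 1 → E 3} {A : ℕ → ℝ} (hX : SF α β X A) {c0 t0 : ℝ}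
    {z0 : E 1} {d r K : ℝ} (hd0 : 0 ≤ d) (hd1 : d ≤ 1) (hr : 0 ≤ r) (hK : 1 ≤ K) (hRg : ∀ t y, Bx c0 t0 (z0 0) t y → Rg α β d t y)
    {c1 c2 c3 c4 p1 p2 p3 p4 : ℝ × E 1} {w : E 3}
    (hw : 1 / 2 ≤ ‖w‖ ∧ ‖w‖ ≤ 4)
    (h1 : ‖p1 - c1‖ ≤ r ∧ |p1.1 - t0| ≤ c0 ∧ ‖p1.2 - z0‖ ≤ c0 * |z0 0|)
    (h2 : ‖p2 - c2‖ ≤ r ∧ |p2.1 - t0| ≤ c0 ∧ ‖p2.2 - z0‖ ≤ c0 * |z0 0|)
    (h3 : ‖p3 - c3‖ ≤ r ∧ |p3.1 - t0| ≤ c0 ∧ ‖p3.2 - z0‖ ≤ c0 * |z0 0|)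
    (h4 : ‖p4 - c4‖ ≤ r ∧ |p4.1 - t0| ≤ c0 ∧ ‖p4.2 - z0‖ ≤ c0 * |z0 0|)
    (v1 : ‖Vw (X d) w p1‖ ≤ K * r) (v2 : ‖Vw (X d) w p2‖ ≤ K * r)
    (v3 : ‖Vw (X d) w p3‖ ≤ K * r) (v4 : ‖Vw (X d) w p4‖ ≤ K * r)
    (h5 : ‖X d p1 + X d p2 - X d p3 - X d p4‖ ≤ (K * r) ^ 2) :
    Rel α β d c0 t0 (z0 0) r K (c1.1, c1.2 0) (c2.1, c2.2 0) (c3.1, c3.2 0)
      (c4.1, c4.2 0) := by
  have hbx : ∀ p : ℝ × E 1, |p.1 - t0| ≤ c0 ∧ ‖p.2 - z0‖ ≤ c0 * |z0 0| →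
      Bx c0 t0 (z0 0) p.1 (p.2 0) := by
    intro p hp
    refine ⟨hp.1, ?_⟩
    have := hm_coord (p.2 - z0) 0
    rw [PiLp.sub_apply] at this
    exact this.trans hp.2
  have hnear : ∀ p c : ℝ × E 1, ‖p - c‖ ≤ r →
      ‖((p.1, p.2 0) : ℝ × ℝ) - (c.1, c.2 0)‖ ≤ K * r := by
    intro p c hp
    rw [Prod.norm_def] at hp
    have e1 : ‖((p.1, p.2 0) : ℝ × ℝ) - (c.1, c.2 0)‖ ≤ r := by
      rw [Prod.norm_def]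
      refine max_le ?_ ?_
      · exact (le_max_left _ _).trans hp
      · have := hm_coord (p.2 - c.2) 0
        rw [PiLp.sub_apply] at this
        exact this.trans ((le_max_right _ _).trans hp)
    refine e1.trans ?_
    exact le_mul_of_one_le_left hr hK
  have hU : ∀ p : ℝ × E 1, |p.1 - t0| ≤ c0 ∧ ‖p.2 - z0‖ ≤ c0 * |z0 0| →
      ‖Vw (X d) w p‖ ≤ K * r → |Uw α β d (w 0) (w 1) (w 2) p.1 (p.2 0)| ≤ K * r := by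
    intro p hp hv
    have h6 := ((hX d hd0 hd1).2.2 p.1 p.2 (hRg _ _ (hbx p hp))).2.2.2.2 w
    rw [← h6]
    have h7 := hm_coord (Vw (X d) w (p.1, p.2)) 0
    exact h7.trans hv
  have hXp : ∀ p : ℝ × E 1, |p.1 - t0| ≤ c0 ∧ ‖p.2 - z0‖ ≤ c0 * |z0 0| →
      X d p 0 = AA α β p.1 (p.2 0) ∧ X d p 1 = p.2 0 ∧ X d p 2 = hh α β d p.1 (p.2 0) := by
    intro p hp
    have h6 := (hX d hd0 hd1).2.2 p.1 p.2 (hRg _ _ (hbx p hp))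
    exact ⟨h6.1, h6.2.1, h6.2.2.1⟩
  have hcoord : ∀ i : Fin 3, |X d p1 i + X d p2 i - X d p3 i - X d p4 i| ≤ (K * r) ^ 2 := by
    intro i
    have h6 := hm_coord (X d p1 + X d p2 - X d p3 - X d p4) i
    rw [PiLp.sub_apply, PiLp.sub_apply, PiLp.add_apply] at h6
    exact h6.trans h5
  have hwn : w 0 ^ 2 + w 1 ^ 2 + w 2 ^ 2 = ‖w‖ ^ 2 := by
    rw [EuclideanSpace.real_norm_sq_eq, Fin.sum_univ_three]
  obtain ⟨x10, x11, x12⟩ := hXp p1 h1.2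
  obtain ⟨x20, x21, x22⟩ := hXp p2 h2.2
  obtain ⟨x30, x31, x32⟩ := hXp p3 h3.2
  obtain ⟨x40, x41, x42⟩ := hXp p4 h4.2
  refine ⟨(p1.1, p1.2 0), (p2.1, p2.2 0), (p3.1, p3.2 0), (p4.1, p4.2 0), w 0, w 1, w 2,
    ⟨hbx p1 h1.2, hbx p2 h2.2, hbx p3 h3.2, hbx p4 h4.2⟩,
    ⟨hnear _ _ h1.1, hnear _ _ h2.1, hnear _ _ h3.1, hnear _ _ h4.1⟩, ⟨?_, ?_⟩,
    ⟨hU p1 h1.2 v1, hU p2 h2.2 v2, hU p3 h3.2 v3, hU p4 h4.2 v4⟩, ?_, ?_, ?_⟩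
  · rw [hwn]
    have := hw.1
    nlinarith
  · rw [hwn]
    have h8 := hw.2
    have h9 := norm_nonneg w
    nlinarith
  · have := hcoord 0
    rwa [x10, x20, x30, x40] at this
  · have := hcoord 1
    rwa [x11, x21, x31, x41] at this
  · have := hcoord 2
    rwa [x12, x22, x32, x42] at this

/-- The number of pairs of caps related to two given caps. -/
theorem hm_of {α β : ℝ} (hα : α ≠ 0) {X : ℝ → ℝ × E 1 → E 3} {A : ℕ → ℝ} (hX : SF α β X A)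
    (hcnt : ∃ C c1 : ℝ, 0 < C ∧
    0 < c1 ∧ ∀ c0, 0 < c0 → c0 ≤ c1 → ∀ d, 0 ≤ d → d ≤ 1 → ∀ t0 y0, Rs α β d t0 y0 →
      y0 ≠ 0 → ∀ r K, 0 < r → r ≤ 1 → 1 ≤ K → r ≤ |y0| →
      ∀ (I J : Type) [Fintype I] [Fintype J] (tt : I → ℝ) (yy : J → ℝ),
      (∀ i j, i ≠ j → r ≤ |tt i - tt j|) → (∀ i j, i ≠ j → r ≤ |yy i - yy j|) →
      (∀ a b : I × J, (({q : (I × J) × (I × J) | Rel α β d c0 t0 y0 r K (tt a.1, yy a.2)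
        (tt b.1, yy b.2) (tt q.1.1, yy q.1.2) (tt q.2.1, yy q.2.2)}.ncard : ℕ) : ℝ) ≤
          C * K ^ 12 / |y0|)) :
    ∃ C c1 : ℝ, 0 < C ∧ 0 < c1 ∧ ∀ c0, 0 < c0 → c0 ≤ c1 → ∀ d, 0 ≤ d → d ≤ 1 →
      ∀ (t0 : ℝ) (z0 : E 1), Rs α β d t0 (z0 0) → z0 0 ≠ 0 →
      ∀ (r K : ℝ) (M : ℕ), 0 < r → r ≤ 1 → 1 ≤ K → r ≤ |z0 0| →
      ∀ T : ↥(gi M ×ˢ gk 1 M) → Set (ℝ × E 1),
      (∀ a, ∀ p ∈ T a, ‖p - pcs (t0, z0) r M a.1‖ ≤ r ∧ |p.1 - t0| ≤ c0 ∧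
        ‖p.2 - z0‖ ≤ c0 * |z0 0|) →
      ∀ a b, ({q : ↥(gi M ×ˢ gk 1 M) × ↥(gi M ×ˢ gk 1 M) | ∃ w : E 3, (1 / 2 ≤ ‖w‖ ∧ ‖w‖ ≤ 4) ∧
          ∃ p1 ∈ T a, ∃ p2 ∈ T b, ∃ p3 ∈ T q.1, ∃ p4 ∈ T q.2,
          (‖Vw (X d) w p1‖ ≤ K * r ∧ ‖Vw (X d) w p2‖ ≤ K * r ∧ ‖Vw (X d) w p3‖ ≤ K * r ∧
            ‖Vw (X d) w p4‖ ≤ K * r) ∧
          ‖X d p1 + X d p2 - X d p3 - X d p4‖ ≤ (K * r) ^ 2}.ncard : ℝ) ≤
        C * K ^ 12 / |z0 0| := by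
  classical
  obtain ⟨C, c1, hC, hc1, H⟩ := hcnt
  obtain ⟨c2, hc2, -, hbox⟩ := box_sub (β := β) hα
  refine ⟨C, min c1 c2, hC, lt_min hc1 hc2, ?_⟩
  intro c0 hc0 hc0' d hd0 hd1 t0 z0 hRs hy0 r K M hr0 hr1 hK hry T hT a b
  have hRg : ∀ t y, Bx c0 t0 (z0 0) t y → Rg α β d t y := by
    intro t y hty
    refine hbox d hd0 hd1 t0 (z0 0) t y hRs ⟨?_, ?_⟩
    · exact hty.1.trans (hc0'.trans (min_le_right _ _))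
    · refine hty.2.trans ?_
      gcongr
      exact hc0'.trans (min_le_right _ _)
  set φ : ↥(gi M ×ˢ gk 1 M) → ↥(gi M) × ↥(gk 1 M) := fun a =>
    (⟨a.1.1, (Finset.mem_product.1 a.2).1⟩, ⟨a.1.2, (Finset.mem_product.1 a.2).2⟩) with hφ
  have hφi : Function.Injective φ := by
    intro a a' h
    have h1 : a.1.1 = a'.1.1 := congrArg (fun x : ↥(gi M) × ↥(gk 1 M) => x.1.1) h
    have h2 : a.1.2 = a'.1.2 := congrArg (fun x : ↥(gi M) × ↥(gk 1 M) => x.2.1) h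
    exact Subtype.ext (Prod.ext h1 h2)
  have key := H c0 hc0 (hc0'.trans (min_le_left _ _)) d hd0 hd1 t0 (z0 0) hRs hy0 r K hr0 hr1
    hK hry ↥(gi M) ↥(gk 1 M) (fun i => tc t0 r M i.1) (fun k => zc z0 r M k.1 0) ?_ ?_ (φ a) (φ b)
  · refine le_trans (Nat.cast_le.2 ?_) key
    refine Set.ncard_le_ncard_of_injOn (fun q => (φ q.1, φ q.2)) ?_ ?_ (Set.toFinite _)
    · rintro q ⟨w, hw, p1, h1, p2, h2, p3, h3, p4, h4, ⟨v1, v2, v3, v4⟩, h5⟩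
      exact hm_rel hX hd0 hd1 hr0.le hK hRg hw (hT a p1 h1) (hT b p2 h2) (hT q.1 p3 h3)
        (hT q.2 p4 h4) v1 v2 v3 v4 h5
    · intro q _ q' _ h
      have h1 : φ q.1 = φ q'.1 := congrArg Prod.fst h
      have h2 : φ q.2 = φ q'.2 := congrArg Prod.snd h
      exact Prod.ext (hφi h1) (hφi h2)
  · intro i j hij
    exact hm_sep hr0 (fun h => hij (Subtype.ext h))
  · intro i j hij
    rw [hm_zc, hm_zc]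
    refine hm_sep hr0 (fun h => hij (Subtype.ext (funext fun x => ?_)))
    rw [Subsingleton.elim x 0]
    exact h

end Pool.Agent.LQ
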