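import Pool.Agent.LQ.LIFTQ

/-!
Functions of quadratic forms with at most two distinct eigenvalues, from the circle; the final
statements.
-/

set_option autoImplicit false

namespace Pool.Agent.LQ

open MeasureTheory Set Pool.Agent.MP_6cbfb8_an
open scoped ENNReal Real

/-- The theorem on the circle. -/
def Circle : Prop := ∀ q : ℝ, 4 < q → ∃ C : ℝ≥0∞, C ≠ ∞ ∧ ∀ g : E 2 → ℂ, Measurable g →
  (∀ x, ‖g x‖ ≤ 1) → ∫⁻ ξ, ‖extn g ξ‖ₑ ^ q ≤ C

/-- Dimension three, a double eigenvalue. -/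
theorem full_dbl0 (hpl : Circle) (c : Fin (0 + 2) → ℝ) : Full ((0 + 1) + (0 + 2)) (dbl c) := by
  intro p hp
  have e1 : (((0 + 1 + (0 + 2) : ℕ)) : ℝ) = 3 := by norm_num
  rw [e1] at hp
  have hp3 : 3 < p := by
    have : (2 : ℝ) * 3 / (3 - 1) = 3 := by norm_num
    rwa [this] at hp
  obtain ⟨C, hC, H⟩ := lifting 0 0 4 (by norm_num)
    (fun g => ∃ F : ℝ → ℂ, Measurable F ∧ (∀ t, ‖F t‖ ≤ 1) ∧ g = qf c F) (by
      intro j q hq
      obtain ⟨C, hC, H⟩ := hpl q hq
      refine ⟨C, hC, ?_⟩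
      rintro G _ _ ⟨F, hF, hF1, rfl⟩
      rw [← extn_onS]
      refine H _ (measurable_onS (liftD_measurable_tpow j _ (measurable_qf c hF))) ?_
      exact norm_onS_le zero_le_one fun x hx =>
        liftD_norm_tpow j _ (fun x => hF1 _) ⟨x, mem_sphere_zero_iff_norm.2 hx⟩) p (by linarith) (by
      have h1 : 1 < p - 2 := by linarith
      have h2 : 1 / (p - 2) < 1 := by
        rw [div_lt_one (by linarith)]
        exact h1
      norm_num
      norm_num at h2
      exact h2)
  refine ⟨C, hC, fun F hF hF1 => ?_⟩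
  rw [← lift_qf]
  exact H (qf c F) (measurable_qf c hF) (fun x => hF1 _) ⟨F, hF, hF1, rfl⟩

theorem ncard_range_le {n : ℕ} (b : Fin n → ℝ) : (range b).ncard ≤ n := by
  have := Set.ncard_image_le (f := b) (s := univ) finite_univ
  rwa [image_univ, Set.ncard_univ, Nat.card_eq_fintype_card, Fintype.card_fin] at this

/-- A form with a multiple eigenvalue is a permutation of a doubled form. -/
theorem exists_dbl {κ : ℕ} {b : Fin (κ + 1 + 2) → ℝ} (hinj : ¬ Function.Injective b) :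
    ∃ (σ : Equiv.Perm (Fin (κ + 1 + 2))) (c : Fin (κ + 2) → ℝ), (fun k => b (σ k)) = dbl c ∧
      range c = range b := by
  have h2 : ∃ i j : Fin (κ + 1 + 2), b i = b j ∧ i ≠ j := by
    simpa only [Function.Injective, not_forall, exists_prop] using hinj
  obtain ⟨i, j, hij, hne⟩ := h2
  have ha : Fin.castSucc (Fin.last (κ + 1)) ≠ Fin.last (κ + 1 + 1) :=
    (Fin.castSucc_lt_last _).ne
  obtain ⟨σ, hσ1, hσ2⟩ := perm_two ha hne
  obtain ⟨c, hc⟩ : ∃ c : Fin (κ + 2) → ℝ, c = fun k => b (σ (Fin.castSucc k)) := ⟨_, rfl⟩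
  have hl : b (σ (Fin.last (κ + 1 + 1))) = c (Fin.last (κ + 1)) := by
    rw [hc]
    simp only
    rw [hσ1, hσ2, hij]
  refine ⟨σ, c, ?_, ?_⟩
  · funext k
    unfold dbl
    refine Fin.addCases (m := κ + 1) (n := 0 + 2) (fun l => ?_) (fun l => ?_) k
    · rw [Fin.append_left, hc]
      rfl
    · rw [Fin.append_right]
      fin_cases l
      · rw [hc]
        rfl
      · exact hl
  · apply Subset.antisymm
    · rintro _ ⟨k, rfl⟩
      rw [hc]
      exact ⟨_, rfl⟩
    · rintro _ ⟨k, rfl⟩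
      obtain ⟨k', rfl⟩ := σ.surjective k
      rcases Fin.eq_castSucc_or_eq_last k' with ⟨l, rfl⟩ | rfl
      · exact ⟨l, by rw [hc]⟩
      · exact ⟨Fin.last (κ + 1), hl.symm⟩

/-- At most two distinct eigenvalues. -/
theorem full_two (hpl : Circle) : ∀ (κ : ℕ) (b : Fin (κ + 1 + 2) → ℝ), (range b).ncard ≤ 2 →
    Full (κ + 1 + 2) b := by
  have hninj : ∀ (κ : ℕ) (b : Fin (κ + 1 + 2) → ℝ), (range b).ncard ≤ 2 →
      ¬ Function.Injective b := by
    intro κ b hb hinj
    rw [← image_univ, Set.ncard_image_of_injective _ hinj, Set.ncard_univ,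
      Nat.card_eq_fintype_card, Fintype.card_fin] at hb
    omega
  intro κ
  induction κ with
  | zero =>
    intro b hb
    obtain ⟨σ, c, hσ, -⟩ := exists_dbl (hninj 0 b hb)
    have h := full_dbl0 hpl c
    rw [← hσ] at h
    simpa using full_perm σ.symm h
  | succ κ ih =>
    intro b hb
    obtain ⟨σ, c, hσ, hr⟩ := exists_dbl (hninj (κ + 1) b hb)
    have h := full_dbl (by omega) (ih c (by rw [hr]; exact hb))
    rw [← hσ] at h
    simpa using full_perm σ.symm h

/-- **At most `s` distinct eigenvalues**, from the forms with distinct eigenvalues on `R^k`,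
`3 ≤ k ≤ s`. -/
theorem full_le (hpl : Circle) {s : ℕ}
    (hbase : ∀ k, 3 ≤ k → k ≤ s → ∀ b : Fin k → ℝ, Function.Injective b → Full k b)
    {n : ℕ} (hn : 3 ≤ n) (b : Fin n → ℝ) (hb : (range b).ncard ≤ s) : Full n b := by
  obtain ⟨κ, rfl⟩ : ∃ κ, n = κ + 1 + 2 := ⟨n - 3, by omega⟩
  rcases le_or_gt (range b).ncard 2 with h2 | h2
  · exact full_two hpl κ b h2
  · exact full_all (s := (range b).ncard) h2 (hbase _ h2 hb) (κ + 1) b rfl

/-- At most three distinct eigenvalues, from the forms with distinct eigenvalues on `R^3`. -/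
theorem full_le3 (hpl : Circle) (h3 : ∀ b : Fin 3 → ℝ, Function.Injective b → Full 3 b)
    {n : ℕ} (hn : 3 ≤ n) (b : Fin n → ℝ) (hb : (range b).ncard ≤ 3) : Full n b :=
  full_le hpl (s := 3) (fun k hk hk' => by
    obtain rfl : k = 3 := by omega
    exact h3) hn b hb

/-- Every quadratic form, from the forms with distinct eigenvalues. -/
theorem full_every (hpl : Circle)
    (hbase : ∀ k, 3 ≤ k → ∀ b : Fin k → ℝ, Function.Injective b → Full k b)
    {n : ℕ} (hn : 3 ≤ n) (b : Fin n → ℝ) : Full n b :=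
  full_le hpl (s := n) (fun k hk _ => hbase k hk) hn b (ncard_range_le b)

end Pool.Agent.LQ
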