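import Pool.Agent.LQ.FULL3
import Pool.Agent.LQ.LIFTQ2
import Pool.Agent.LQ.BVQ4

/-!
The estimates for the functions of a quadratic form and for the functions of bounded variation
along its level curves.
-/

set_option autoImplicit false

namespace Pool.Agent.LQ

open MeasureTheory Set Pool.Agent.MP_6cbfb8_an Pool.Agent.LF
open scoped ENNReal NNReal Real ContDiff

/-- Tails for the functions of the quadratic form. -/
theorem qtail {b : Fin 3 → ℝ} (hb : Function.Injective b) {p : ℝ} (hp : 3 < p) :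
    BVQ.QTail b p := by
  obtain ⟨η, hη, h⟩ := quadQ hb hp
  obtain ⟨C, hC⟩ := h (fun _ => 1)
  exact ⟨C, η, hη, fun F hF h1 R hR => hC _ (gc_const hF h1) R hR⟩

/-- `n = 3`: the functions of bounded variation along the level curves of a quadratic form. -/
theorem bvq {b : Fin 3 → ℝ} (hb : Function.Injective b) {p : ℝ} (hp : 3 < p) (V : ℝ) :
    ∃ C : ℝ≥0∞, C ≠ ⊤ ∧ ∀ g : E 3 → ℂ, ClV (fun x => ∑ i, b i * x i ^ 2) V g →
      ∫⁻ ξ, ‖extn g ξ‖ₑ ^ p ≤ C :=
  BVQ.bvq hb (by linarith) (qtail hb hp) V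

end Pool.Agent.LQ
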