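import Pool.Agent.MP_6cbfb8_an.PlanarLp
import Pool.Agent.MP_6cbfb8_an.Slice
import Pool.Agent.MP_6cbfb8_an.ExtnCyl
import Pool.Agent.MP_6cbfb8_an.SteinTomas

/-!
LEAFQ: bounded densities on the circle, `L^q` for `q > 4`.
-/

set_option autoImplicit false

namespace Pool.Agent.LQ

open MeasureTheory Set Pool.Agent.MP_6cbfb8_an
open scoped ENNReal Real RealInnerProductSpace

/-- The integrand in polar coordinates. -/
noncomputable def pleF (g : E 2 → ℂ) (y : E 1) (z : ℝ) (q : ℝ × S 1) : ℂ :=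
  g (pt q.1 (q.2 : E 1)) *
    Complex.exp (((-(2 * π * (Real.sin q.1 * inner ℝ (q.2 : E 1) y + z * Real.cos q.1)) : ℝ) : ℂ) *
      Complex.I)

theorem ple_pt {Ω : Type*} [MeasurableSpace Ω] {g : E 2 → ℂ} (hg : Measurable g)
    {fθ : Ω → ℝ} {fω : Ω → E 1} (hθ : Measurable fθ) (hω : Measurable fω) :
    Measurable fun x => g (pt (fθ x) (fω x)) := by
  have h0 : Measurable fun q : ℝ × E 1 => pt q.1 q.2 := pt_continuous.measurable
  have h1 : Measurable ((fun q : ℝ × E 1 => pt q.1 q.2) ∘ fun x => (fθ x, fω x)) :=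
    h0.comp (hθ.prodMk hω)
  have h2 : Measurable (g ∘ fun x => pt (fθ x) (fω x)) := hg.comp h1
  exact h2

theorem ple_ex {Ω : Type*} [MeasurableSpace Ω]
    {fθ fz : Ω → ℝ} {fω fy : Ω → E 1} (hθ : Measurable fθ) (hz : Measurable fz)
    (hω : Measurable fω) (hy : Measurable fy) : Measurable fun x =>
      Complex.exp (((-(2 * π * (Real.sin (fθ x) * inner ℝ (fω x) (fy x) +
        fz x * Real.cos (fθ x))) : ℝ) : ℂ) * Complex.I) := by
  have hin : Measurable fun x => inner ℝ (fω x) (fy x) := hω.inner hy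
  have h2 : Measurable fun x => -(2 * π * (Real.sin (fθ x) * inner ℝ (fω x) (fy x) +
      fz x * Real.cos (fθ x))) :=
    (measurable_const.mul (((Real.measurable_sin.comp hθ).mul hin).add
      (hz.mul (Real.measurable_cos.comp hθ)))).neg
  exact Complex.measurable_exp.comp ((Complex.measurable_ofReal.comp h2).mul measurable_const)

theorem ple_meas0 {Ω : Type*} [MeasurableSpace Ω] {g : E 2 → ℂ} (hg : Measurable g)
    {fθ fz : Ω → ℝ} {fω fy : Ω → E 1} (hθ : Measurable fθ) (hz : Measurable fz)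
    (hω : Measurable fω) (hy : Measurable fy) : Measurable fun x => g (pt (fθ x) (fω x)) *
      Complex.exp (((-(2 * π * (Real.sin (fθ x) * inner ℝ (fω x) (fy x) +
        fz x * Real.cos (fθ x))) : ℝ) : ℂ) * Complex.I) :=
  Measurable.mul (ple_pt hg hθ hω) (ple_ex hθ hz hω hy)

theorem ple_meas1 {g : E 2 → ℂ} (hg : Measurable g) (y : E 1) (z : ℝ) :
    Measurable (pleF g y z) :=
  ple_meas0 hg (Ω := ℝ × S 1) (fθ := fun q => q.1) (fz := fun _ => z) (fω := fun q => (q.2 : E 1))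
    (fy := fun _ => y) measurable_fst measurable_const
    (measurable_subtype_coe.comp measurable_snd) measurable_const

/-- The extension operator of the circle in polar coordinates. -/
theorem ple_eq {g : E 2 → ℂ} (hg : Measurable g) (hb : ∀ x, ‖g x‖ ≤ 1) (y : E 1) (z : ℝ) :
    extn g (join y z) =
      ∫ ω : S 1, P (fun θ => g (pt θ (ω : E 1))) (inner ℝ (ω : E 1) y) z ∂(sm 1) := by
  have hsl := slicing 0
  have hμ : ((volume : Measure ℝ).restrict (Ioo 0 π)).withDensity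
      (fun θ => ENNReal.ofReal (Real.sin θ ^ 0)) = (volume : Measure ℝ).restrict (Ioo 0 π) := by
    simp
  rw [hμ] at hsl
  have hF : Measurable (fun x : S 2 => g x *
      Complex.exp (((-(2 * π * inner ℝ (x : E 2) (join y z)) : ℝ) : ℂ) * Complex.I)) := by
    refine (hg.comp measurable_subtype_coe).mul ?_
    have : Continuous (fun x : S 2 =>
        Complex.exp (((-(2 * π * inner ℝ (x : E 2) (join y z)) : ℝ) : ℂ) * Complex.I)) := by
      fun_prop
    exact this.measurable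
  have hG : Measurable (pleF g y z) := ple_meas1 hg y z
  have hint : Integrable (pleF g y z) (((volume : Measure ℝ).restrict (Ioo 0 π)).prod (sm 1)) := by
    refine Integrable.of_bound hG.aestronglyMeasurable 1 (Filter.Eventually.of_forall fun q => ?_)
    unfold pleF
    rw [norm_mul, Complex.norm_exp_ofReal_mul_I, mul_one]
    exact hb _
  have h1 : extn g (join y z) =
      ∫ q : ℝ × S 1, pleF g y z q ∂(((volume : Measure ℝ).restrict (Ioo 0 π)).prod (sm 1)) := by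
    unfold extn
    conv_lhs => rw [← hsl.map_eq]
    rw [integral_map hsl.measurable.aemeasurable hF.aestronglyMeasurable]
    simp only [inner_pt_join]
    rfl
  rw [h1, integral_prod_symm _ hint]
  refine integral_congr_ae (Filter.Eventually.of_forall fun ω => ?_)
  unfold P pleF
  refine setIntegral_congr_fun measurableSet_Ioo fun θ _ => ?_
  simp only
  congr 4
  ring

/-- Measure preserving coordinate of `E 1`. -/
theorem ple_line (ω : S 1) (F : ℝ → ℝ≥0∞) :
    ∫⁻ y : E 1, F (inner ℝ (ω : E 1) y) = ∫⁻ v : ℝ, F v := by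
  -- the unit vector
  have hω : ((ω : E 1) 0) ^ 2 = 1 := by
    have h1 : ‖(ω : E 1)‖ = 1 := by simp
    have h2 := EuclideanSpace.norm_sq_eq (ω : E 1)
    rw [h1] at h2
    simpa using h2.symm
  have hin : ∀ y : E 1, inner ℝ (ω : E 1) y = (ω : E 1) 0 * y 0 := by
    intro y
    rw [PiLp.inner_apply]
    simp [mul_comm]
  -- E 1 and the line
  let e : ℝ ≃ᵐ E 1 := (MeasurableEquiv.funUnique (Fin 1) ℝ).symm.trans
    (MeasurableEquiv.toLp 2 (Fin 1 → ℝ))
  have he : MeasurePreserving e volume volume :=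
    ((volume_preserving_funUnique (Fin 1) ℝ).symm _).trans (PiLp.volume_preserving_toLp (Fin 1))
  have he0 : ∀ v : ℝ, e v 0 = v := fun v => rfl
  have h3 : ∫⁻ y : E 1, F (inner ℝ (ω : E 1) y) = ∫⁻ v : ℝ, F ((ω : E 1) 0 * v) := by
    rw [← he.lintegral_comp_emb e.measurableEmbedding]
    refine lintegral_congr fun v => ?_
    rw [hin, he0]
  rw [h3]
  have h4 : (ω : E 1) 0 = 1 ∨ (ω : E 1) 0 = -1 := sq_eq_one_iff.1 hω
  rcases h4 with h4 | h4
  · rw [h4]
    simp
  · rw [h4]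
    have h5 : ∫⁻ v : ℝ, F (-1 * v) = ∫⁻ v : ℝ, F (-v) := by
      refine lintegral_congr fun v => ?_
      rw [neg_one_mul]
    rw [h5]
    exact lintegral_neg_eq_self F

/-- The functions `P` as one function of all variables. -/
noncomputable def pleP (g : E 2 → ℂ) (x : S 1 × (E 1 × ℝ)) : ℂ :=
  P (fun θ => g (pt θ (x.1 : E 1))) (inner ℝ (x.1 : E 1) x.2.1) x.2.2

theorem plep_meas {g : E 2 → ℂ} (hg : Measurable g) : Measurable (pleP g) := by
  have h1 : Measurable fun x : (S 1 × (E 1 × ℝ)) × ℝ => g (pt x.2 (x.1.1 : E 1)) *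
      Complex.exp (((-(2 * π * (Real.sin x.2 * inner ℝ (x.1.1 : E 1) x.1.2.1 +
        x.1.2.2 * Real.cos x.2)) : ℝ) : ℂ) * Complex.I) :=
    ple_meas0 hg (Ω := (S 1 × (E 1 × ℝ)) × ℝ) (fθ := fun x => x.2) (fz := fun x => x.1.2.2)
      (fω := fun x => (x.1.1 : E 1)) (fy := fun x => x.1.2.1) measurable_snd
      measurable_fst.snd.snd (measurable_subtype_coe.comp measurable_fst.fst)
      measurable_fst.snd.fst
  have h2 := (h1.stronglyMeasurable.integral_prod_right'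
    (ν := (volume : Measure ℝ).restrict (Ioo 0 π))).measurable
  have h3 : pleP g = fun x : S 1 × (E 1 × ℝ) => ∫ θ in Ioo 0 π, g (pt θ (x.1 : E 1)) *
      Complex.exp (((-(2 * π * (Real.sin θ * inner ℝ (x.1 : E 1) x.2.1 +
        x.2.2 * Real.cos θ)) : ℝ) : ℂ) * Complex.I) := by
    funext x
    unfold pleP P
    refine setIntegral_congr_fun measurableSet_Ioo fun θ _ => ?_
    simp only
    rw [mul_comm (inner ℝ (x.1 : E 1) x.2.1) (Real.sin θ)]
  rw [h3]
  exact h2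

theorem ple_jensen {Ω : Type*} [MeasurableSpace Ω] {μ : Measure Ω} {f : Ω → ℝ≥0∞}
    (hf : Measurable f) {q : ℝ} (hq : 1 < q) :
    (∫⁻ x, f x ∂μ) ^ q ≤ (μ univ) ^ (q - 1) * ∫⁻ x, f x ^ q ∂μ := by
  have hq0 : 0 < q := by linarith
  have hc : q.HolderConjugate (q.conjExponent) := Real.HolderConjugate.conjExponent hq
  have h := ENNReal.lintegral_mul_le_Lp_mul_Lq μ hc hf.aemeasurable
    (g := fun _ => 1) measurable_const.aemeasurable
  simp only [Pi.mul_apply, mul_one, ENNReal.one_rpow, lintegral_const, one_mul] at h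
  have h2 : 1 / q.conjExponent * q = q - 1 := by
    have h3 := hc.inv_add_inv_eq_one
    rw [one_div]
    field_simp at h3 ⊢
    have h4 : q.conjExponent = q / (q - 1) := rfl
    have h5 : q - 1 ≠ 0 := by linarith
    rw [h4]
    field_simp
  calc (∫⁻ x, f x ∂μ) ^ q ≤
      ((∫⁻ x, f x ^ q ∂μ) ^ (1 / q) * (μ univ) ^ (1 / q.conjExponent)) ^ q := by
        gcongr
    _ = (μ univ) ^ (q - 1) * ∫⁻ x, f x ^ q ∂μ := by
        rw [ENNReal.mul_rpow_of_nonneg _ _ hq0.le, ← ENNReal.rpow_mul, ← ENNReal.rpow_mul,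
          one_div_mul_cancel hq0.ne', ENNReal.rpow_one, h2, mul_comm]

/-- **Zygmund's estimate** for the circle, as a bound for the extension operator. -/
theorem planar_ext {q : ℝ} (hq : 4 < q) : ∃ C : ℝ≥0∞, C ≠ ∞ ∧ ∀ g : E 2 → ℂ, Measurable g →
    (∀ x, ‖g x‖ ≤ 1) → ∫⁻ ξ, ‖extn g ξ‖ₑ ^ q ≤ C := by
  obtain ⟨C, hC, hP⟩ := planar_Lq q hq
  have hq0 : 0 < q := by linarith
  have hfin : sm 1 univ ≠ ∞ := measure_ne_top _ _
  refine ⟨(sm 1 univ) ^ (q - 1) * ((sm 1 univ) * C), ENNReal.mul_ne_top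
    (ENNReal.rpow_ne_top_of_nonneg (by linarith) hfin) (ENNReal.mul_ne_top hfin hC), ?_⟩
  intro g hg hb
  have hm := plep_meas hg
  have hmq : Measurable fun x => ‖pleP g x‖ₑ ^ q := hm.enorm.pow_const q
  -- pointwise
  have h1 : ∀ x : E 1 × ℝ, ‖extn g (join x.1 x.2)‖ₑ ^ q ≤
      (sm 1 univ) ^ (q - 1) * ∫⁻ ω : S 1, ‖pleP g (ω, x)‖ₑ ^ q ∂(sm 1) := by
    intro x
    rw [ple_eq hg hb]
    have hmω : Measurable fun ω : S 1 => pleP g (ω, x) := hm.comp measurable_prodMk_right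
    calc ‖∫ ω : S 1, P (fun θ => g (pt θ (ω : E 1))) (inner ℝ (ω : E 1) x.1) x.2 ∂(sm 1)‖ₑ ^ q
        ≤ (∫⁻ ω : S 1, ‖pleP g (ω, x)‖ₑ ∂(sm 1)) ^ q := by
          gcongr
          exact enorm_integral_le_lintegral_enorm _
      _ ≤ _ := ple_jensen hmω.enorm (by linarith)
  -- every direction
  have h2 : ∀ ω : S 1, ∫⁻ x : E 1 × ℝ, ‖pleP g (ω, x)‖ₑ ^ q ≤ C := by
    intro ω
    have hm2 : Measurable fun x : E 1 × ℝ => ‖pleP g (ω, x)‖ₑ ^ q :=
      hmq.comp measurable_prodMk_left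
    have hmθ : Measurable fun θ : ℝ => g (pt θ (ω : E 1)) :=
      ple_pt hg (Ω := ℝ) (fθ := fun θ => θ) (fω := fun _ => (ω : E 1)) measurable_id
        measurable_const
    have hP1 := hP (fun θ => g (pt θ (ω : E 1))) hmθ (fun θ => hb _)
    have hmP : Measurable fun x : ℝ × ℝ => ‖P (fun θ => g (pt θ (ω : E 1))) x.1 x.2‖ₑ ^ q :=
      (PlanarLp.measurable_P _ hmθ).enorm.pow_const q
    have hmv : Measurable fun v : ℝ =>
        ∫⁻ z : ℝ, ‖P (fun θ => g (pt θ (ω : E 1))) v z‖ₑ ^ q := hmP.lintegral_prod_right'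
    rw [Measure.volume_eq_prod, lintegral_prod _ hm2.aemeasurable]
    have h3 := ple_line ω (fun v => ∫⁻ z : ℝ, ‖P (fun θ => g (pt θ (ω : E 1))) v z‖ₑ ^ q)
    exact (le_of_eq h3).trans hP1
  calc ∫⁻ ξ, ‖extn g ξ‖ₑ ^ q
      = ∫⁻ x : E 1 × ℝ, ‖extn g (join x.1 x.2)‖ₑ ^ q := by
        have hme : Measurable fun ξ => ‖extn g ξ‖ₑ ^ q := (measurable_extn g hg).enorm.pow_const q
        have hmj : Measurable fun x : E 1 × ℝ => ‖extn g (join x.1 x.2)‖ₑ ^ q :=
          hme.comp measurable_join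
        rw [lintegral_join 1 _ hme, Measure.volume_eq_prod, lintegral_prod _ hmj.aemeasurable]
    _ ≤ ∫⁻ x : E 1 × ℝ, (sm 1 univ) ^ (q - 1) * ∫⁻ ω : S 1, ‖pleP g (ω, x)‖ₑ ^ q ∂(sm 1) :=
        lintegral_mono h1
    _ = (sm 1 univ) ^ (q - 1) *
        ∫⁻ x : E 1 × ℝ, (∫⁻ ω : S 1, ‖pleP g (ω, x)‖ₑ ^ q ∂(sm 1)) :=
        lintegral_const_mul' _ _ (ENNReal.rpow_ne_top_of_nonneg (by linarith) hfin)
    _ = (sm 1 univ) ^ (q - 1) * ∫⁻ ω : S 1, (∫⁻ x : E 1 × ℝ, ‖pleP g (ω, x)‖ₑ ^ q) ∂(sm 1) := by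
        congr 1
        exact lintegral_lintegral_swap
          (f := fun (x : E 1 × ℝ) (ω : S 1) => ‖pleP g (ω, x)‖ₑ ^ q)
          (hmq.comp measurable_swap).aemeasurable
    _ ≤ (sm 1 univ) ^ (q - 1) * ∫⁻ _ : S 1, C ∂(sm 1) := by
        gcongr
        exact h2 _
    _ = _ := by
        rw [lintegral_const, mul_comm C]

end Pool.Agent.LQ
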