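import Pool.Agent.LQ.GQ
import Pool.Agent.LQ.MAIN
import Pool.Agent.LQN.EVERY
import Pool.Agent.HSL.H

/-!
Half-spaces whose position is an arbitrary measurable function of `Q x`.
-/

set_option autoImplicit false

namespace Pool.Agent.LFD

open MeasureTheory Set Pool.Agent.MP_6cbfb8_an Pool.Agent.LEAF
open scoped ENNReal Real ContDiff RealInnerProductSpace

/-- Functions of `Q` times the indicator functions of `N` half-spaces `c (Q x) < ⟪x, v⟫`, the
functions `c` in the set `T`. -/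
def FT {n : ℕ} (Q : E n → ℝ) (T : Set (ℝ → ℝ)) (N : ℕ) (g : E n → ℂ) : Prop :=
  ∃ (F : ℝ → ℂ) (v : Fin N → E n) (c : Fin N → ℝ → ℝ), Measurable F ∧ (∀ t, ‖F t‖ ≤ 1) ∧
    (∀ j, c j ∈ T) ∧ ∀ x, g x = F (Q x) * ∏ j, if c j (Q x) < inner ℝ x (v j) then 1 else 0

/-- The functions `G (Q x, x)`, for measurable functions `G (t, x)`, smooth in `x`, with derivatives
in `x` up to the order `n + 1` bounded by `B`, times the indicator functions of `N` half-spaces
`c (Q x) < ⟪x, v⟫`, the functions `c` in the set `T`. -/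
def GT {n : ℕ} (Q : E n → ℝ) (T : Set (ℝ → ℝ)) (N : ℕ) (B : ℝ) (g : E n → ℂ) : Prop :=
  ∃ (G : ℝ → E n → ℂ) (v : Fin N → E n) (c : Fin N → ℝ → ℝ), Measurable (Function.uncurry G) ∧
    (∀ t, ContDiff ℝ ∞ (G t)) ∧ (∀ j ≤ n + 1, ∀ t x, ‖iteratedFDeriv ℝ j (G t) x‖ ≤ B) ∧
    (∀ j, c j ∈ T) ∧ ∀ x, g x = G (Q x) x * ∏ j, if c j (Q x) < inner ℝ x (v j) then 1 else 0

theorem norm_tprod_le {n N : ℕ} (Q : E n → ℝ) (v : Fin N → E n) (c : Fin N → ℝ → ℝ) (x : E n) :
    ‖∏ i, (if c i (Q x) < inner ℝ x (v i) then (1 : ℂ) else 0)‖ ≤ 1 := by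
  rw [norm_prod]
  refine Finset.prod_le_one (fun _ _ => norm_nonneg _) fun i _ => ?_
  split_ifs <;> simp

/-- The estimate for the class `GT` from the estimate for the class `FT`. -/
theorem bd_gt {n : ℕ} {p : ℝ} (hp : 1 ≤ p) {Q : E n → ℝ} (hQ : Measurable Q) {T : Set (ℝ → ℝ)}
    (hT : ∀ c ∈ T, Measurable c) (N : ℕ) (h : Bd n p (FT Q T N)) (B : ℝ) :
    Bd n p (GT Q T N B) := by
  obtain ⟨C1, hC1, h⟩ := h
  obtain ⟨C, hC0, hrep⟩ := gq_rep n
  refine bd_of (M := B) hp _ ?_ ?_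
  · rintro g ⟨G, v, c, -, -, hB, -, hg⟩ x
    rw [hg, norm_mul]
    have h1 := hB 0 (by omega) (Q x) x
    rw [norm_iteratedFDeriv_zero] at h1
    calc ‖G (Q x) x‖ * _ ≤ B * 1 := mul_le_mul h1 (norm_tprod_le Q v c x) (norm_nonneg _)
          ((norm_nonneg _).trans h1)
      _ = B := mul_one B
  · set K : ℝ := C * (|B| + 1) with hK
    have hK0 : 0 < K := by positivity
    refine ⟨ENNReal.ofReal K ^ p * (C1 * (wtM n) univ ^ p), ?_, ?_⟩
    · have := wtM_fin n
      exact ENNReal.mul_ne_top (ENNReal.rpow_ne_top_of_nonneg (by linarith) ENNReal.ofReal_ne_top)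
        (ENNReal.mul_ne_top hC1 (ENNReal.rpow_ne_top_of_nonneg (by linarith) (measure_ne_top _ _)))
    · rintro g - ⟨G, v, c, hGm, hG, hB, hc, hg⟩
      have hB0 : 0 ≤ B := (norm_nonneg _).trans (hB 0 (by omega) 0 0)
      obtain ⟨a, ham, hab, har⟩ := hrep B G hGm hG hB
      have := wtM_fin n
      set pr : E n → ℂ := fun x => ∏ j, (if c j (Q x) < inner ℝ x (v j) then (1 : ℂ) else 0)
        with hpr
      set hh : E n → E n → ℂ := fun η x => (((wt n η / K : ℝ) : ℂ) * a (Q x) η) * pr x with hhh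
      have hprm : Measurable pr := by
        rw [hpr]
        refine Finset.measurable_prod _ fun j _ => ?_
        refine Measurable.ite ?_ measurable_const measurable_const
        exact measurableSet_lt ((hT _ (hc j)).comp hQ) (by fun_prop)
      have hcl : ∀ η, FT Q T N (hh η) := by
        intro η
        refine ⟨fun t => ((wt n η / K : ℝ) : ℂ) * a t η, v, c, ?_, fun t => ?_, hc, fun x => rfl⟩
        · exact measurable_const.mul (ham.comp (measurable_id.prodMk measurable_const))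
        · rw [norm_mul, Complex.norm_real, Real.norm_eq_abs,
            abs_of_nonneg (div_nonneg (wt_pos n η).le hK0.le)]
          calc wt n η / K * ‖a t η‖ ≤ wt n η / K * (C * B * (wt n η)⁻¹) :=
                mul_le_mul_of_nonneg_left (hab t η) (div_nonneg (wt_pos n η).le hK0.le)
            _ = C * B / K := by
                have := (wt_pos n η).ne'
                field_simp
            _ ≤ 1 := by
                rw [div_le_one hK0, hK]
                have : B ≤ |B| + 1 := (le_abs_self B).trans (by linarith)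
                exact mul_le_mul_of_nonneg_left this hC0.le
      have hhm : Measurable fun q : E n × E n => hh q.1 q.2 := by
        rw [hhh]
        refine Measurable.mul (Measurable.mul ?_ ?_) (hprm.comp measurable_snd)
        · exact Complex.measurable_ofReal.comp
            (((continuous_wt n).measurable.comp measurable_fst).div_const K)
        · exact ham.comp ((hQ.comp measurable_snd).prodMk measurable_fst)
      have h1 := h (E n) (wtM n) (fun _ => LinearIsometryEquiv.refl ℝ (E n)) (fun η => η) hh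
        measurable_snd measurable_id hhm hcl
      have h2 : ∀ x, ‖x‖ = 1 → g x = (K : ℂ) *
          mix (wtM n) (fun _ => LinearIsometryEquiv.refl ℝ (E n)) (fun η => η) hh x := by
        intro x hx
        unfold mix
        rw [integral_wtM, ← integral_const_mul, hg, har (Q x) x hx, ← integral_mul_const]
        refine integral_congr_ae (Filter.Eventually.of_forall fun η => ?_)
        simp only [hhh, hpr, LinearIsometryEquiv.coe_refl, id]
        have hw := (wt_pos n η).ne'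
        have hwc : ((wt n η : ℝ) : ℂ) ≠ 0 := Complex.ofReal_ne_zero.2 hw
        have hKc : ((K : ℝ) : ℂ) ≠ 0 := Complex.ofReal_ne_zero.2 hK0.ne'
        push_cast
        field_simp
      have h3 : ∀ ξ, extn g ξ = (K : ℂ) * extn
          (mix (wtM n) (fun _ => LinearIsometryEquiv.refl ℝ (E n)) (fun η => η) hh) ξ := by
        intro ξ
        rw [extn_congr_sphere h2]
        unfold extn
        rw [← integral_const_mul]
        refine integral_congr_ae (Filter.Eventually.of_forall fun x => ?_)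
        simp only
        ring
      have hp0 : 0 ≤ p := by linarith
      have h4 : ‖((K : ℝ) : ℂ)‖ₑ = ENNReal.ofReal K := by
        rw [← ofReal_norm, Complex.norm_real, Real.norm_eq_abs, abs_of_pos hK0]
      calc ∫⁻ ξ, ‖extn g ξ‖ₑ ^ p = ∫⁻ ξ, ENNReal.ofReal K ^ p * ‖extn
            (mix (wtM n) (fun _ => LinearIsometryEquiv.refl ℝ (E n)) (fun η => η) hh) ξ‖ₑ ^ p := by
            refine lintegral_congr fun ξ => ?_
            rw [h3, enorm_mul, ENNReal.mul_rpow_of_nonneg _ _ hp0, h4]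
        _ = ENNReal.ofReal K ^ p * ∫⁻ ξ, ‖extn
            (mix (wtM n) (fun _ => LinearIsometryEquiv.refl ℝ (E n)) (fun η => η) hh) ξ‖ₑ ^ p :=
            lintegral_const_mul' _ _ (ENNReal.rpow_ne_top_of_nonneg hp0 ENNReal.ofReal_ne_top)
        _ ≤ _ := mul_le_mul_right h1 _

/-- Tails, distinct eigenvalues. -/
theorem qtail_inj {n : ℕ} (hn : 3 ≤ n) {b : Fin n → ℝ} (hb : Function.Injective b) {p : ℝ}
    (hp : 2 * (n : ℝ) / (n - 1) < p) :
    ∃ C η : ℝ, 0 < η ∧ ∀ F : ℝ → ℂ, Measurable F → (∀ t, ‖F t‖ ≤ 1) → ∀ R : ℝ, 1 ≤ R →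
      ∫⁻ ξ in {ξ : E n | R ≤ ‖ξ‖}, ‖extn (fun x => F (∑ i, b i * x i ^ 2)) ξ‖ₑ ^ p ≤
        ENNReal.ofReal (C * R ^ (-η)) := by
  rcases hn.eq_or_lt with h | h
  · subst h
    have hp3 : 3 < p := by
      have : 2 * ((3 : ℕ) : ℝ) / (((3 : ℕ) : ℝ) - 1) = 3 := by norm_num
      rwa [this] at hp
    exact LQ.qtail hb hp3
  · obtain ⟨m, rfl⟩ : ∃ m, n = m + 2 := ⟨n - 2, by omega⟩
    have hp' : 2 * ((m : ℝ) + 2) / (m + 1) < p := by
      have h1 : 2 * ((m + 2 : ℕ) : ℝ) / (((m + 2 : ℕ) : ℝ) - 1) =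
          2 * ((m : ℝ) + 2) / (m + 1) := by
        push_cast
        congr 1
        ring
      rwa [h1] at hp
    obtain ⟨η, hη, hC⟩ := LQN.quadQ (by omega) hb hp'
    obtain ⟨C, hC⟩ := hC fun _ => 1
    exact ⟨C, η, hη, fun F hF h1 R hR => hC _ (LQN.gc_const hF h1) R hR⟩

/-- The half-space of the point of view of a unit vector. -/
theorem unit_hs {n : ℕ} (e : E n) (he : ‖e‖ = 1) (v : E n) (c : ℝ → ℝ) (hc : Measurable c) :
    ∃ (l : E n) (w : ℝ → ℝ), ‖l‖ = 1 ∧ Measurable w ∧ ∀ x : E n, ‖x‖ = 1 → ∀ t,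
      (w t < inner ℝ l x ↔ c t < inner ℝ x v) := by
  by_cases hv : v = 0
  · refine ⟨e, fun t => if c t < 0 then -2 else 2, he,
      Measurable.ite (measurableSet_lt hc measurable_const) measurable_const measurable_const,
      fun x hx t => ?_⟩
    have h1 : |inner ℝ e x| ≤ 1 := by
      have := abs_real_inner_le_norm e x
      rwa [he, hx, mul_one] at this
    have h2 := abs_le.1 h1
    rw [hv, inner_zero_right]
    simp only
    split_ifs with h3
    · exact ⟨fun _ => h3, fun _ => by linarith⟩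
    · exact ⟨fun h => by linarith, fun h => absurd h h3⟩
  · have hv0 : 0 < ‖v‖ := norm_pos_iff.2 hv
    refine ⟨‖v‖⁻¹ • v, fun t => ‖v‖⁻¹ * c t, ?_, hc.const_mul _, fun x _ t => ?_⟩
    · rw [norm_smul, norm_inv, norm_norm, inv_mul_cancel₀ hv0.ne']
    · rw [inner_smul_left, real_inner_comm]
      simp only [conj_trivial]
      exact mul_lt_mul_iff_right₀ (inv_pos.2 hv0)

/-- **Distinct eigenvalues: half-spaces whose position is an arbitrary measurable function of
`Q x`.** -/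
theorem bd_ft {n : ℕ} (hn : 3 ≤ n) {b : Fin n → ℝ} (hb : Function.Injective b) (N : ℕ) {p : ℝ}
    (hp : 2 * (n : ℝ) / (n - 1) < p) :
    Bd n p (FT (fun x => ∑ i, b i * x i ^ 2) {c | Measurable c} N) := by
  have hp1 : 1 < p := by
    have hn' : (3 : ℝ) ≤ n := by exact_mod_cast hn
    refine lt_of_le_of_lt ?_ hp
    rw [le_div_iff₀ (by linarith)]
    linarith
  have hQ : Measurable fun x : E n => ∑ i, b i * x i ^ 2 := by
    have : Continuous fun x : E n => ∑ i, b i * x i ^ 2 := by fun_prop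
    exact this.measurable
  obtain ⟨C, η, hη, h⟩ := qtail_inj hn hb hp
  obtain ⟨C', η', hη', h'⟩ := HSL.halfspaces n N (C := C) hp1 hη
  obtain ⟨C0, -, h0⟩ := HSL.tail_all n (p := p) (η := η') (C := |C'|) (by linarith) hη'
    (abs_nonneg C')
  refine bd_of (M := 1) hp1.le _ ?_ ⟨ENNReal.ofReal C0, ENNReal.ofReal_ne_top, ?_⟩
  · rintro g ⟨F, v, c, -, hF1, -, hg⟩ x
    rw [hg, norm_mul]
    exact mul_le_one₀ (hF1 _) (norm_nonneg _) (norm_tprod_le (fun x => ∑ i, b i * x i ^ 2) v c x)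
  rintro g - ⟨F, v, c, hF, hF1, hc, hg⟩
  set Q : E n → ℝ := fun x => ∑ i, b i * x i ^ 2 with hQd
  have hn0 : 0 < n := by omega
  choose l w hl hw hlw using fun j => unit_hs
    (EuclideanSpace.single (⟨0, hn0⟩ : Fin n) (1 : ℝ)) (by rw [PiLp.norm_single]; simp) (v j) (c j)
    (hc j)
  have h2 := h' (T := ℝ) Q
    (fun f => ∃ F : ℝ → ℂ, Measurable F ∧ (∀ t, ‖F t‖ ≤ 1) ∧ f = fun x => F (Q x)) hQ ?_ ?_ ?_ ?_
    (fun x => F (Q x)) ⟨F, hF, hF1, rfl⟩ l hl w hw
  · set g1 : E n → ℂ := {x | ∀ j, w j (Q x) < inner ℝ (l j) x}.indicator fun x => F (Q x) with hg1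
    have e : ∀ x, ‖x‖ = 1 → g x = g1 x := by
      intro x hx
      rw [hg, hg1]
      by_cases hx' : x ∈ {x : E n | ∀ j, w j (Q x) < inner ℝ (l j) x}
      · rw [indicator_of_mem hx', Finset.prod_eq_one, mul_one]
        intro j _
        exact if_pos ((hlw j x hx _).1 (hx' j))
      · rw [indicator_of_notMem hx']
        obtain ⟨j, hj⟩ : ∃ j, ¬ w j (Q x) < inner ℝ (l j) x := not_forall.1 hx'
        rw [Finset.prod_eq_zero (Finset.mem_univ j), mul_zero]
        exact if_neg fun h3 => hj ((hlw j x hx _).2 h3)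
    have hb1 : ∀ x, ‖g1 x‖ ≤ 1 := fun x =>
      (norm_indicator_le_norm_self _ _).trans (hF1 _)
    rw [extn_congr_sphere e]
    exact (h0 g1 hb1 fun R hR => (h2 R hR).trans (ENNReal.ofReal_le_ofReal
      (mul_le_mul_of_nonneg_right (le_abs_self C')
        (Real.rpow_nonneg (by linarith) _)))).2
  · rintro f ⟨F, hF, -, rfl⟩
    exact hF.comp hQ
  · rintro f ⟨F, -, hF1, rfl⟩ x
    exact hF1 _
  · rintro f ⟨F, hF, hF1, rfl⟩ F' hF' hF'1
    refine ⟨fun t => F t * F' t, hF.mul hF', fun t => ?_, rfl⟩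
    rw [norm_mul, hF'1, mul_one]
    exact hF1 t
  · rintro f ⟨F, hF, hF1, rfl⟩ R hR
    exact h F hF hF1 R hR

/-- **Every quadratic form**: half-spaces at constant positions. -/
theorem bd_ft_all {n : ℕ} (hn : 3 ≤ n) (Q : QuadraticForm ℝ (E n)) (N : ℕ) {p : ℝ}
    (hp : 2 * (n : ℝ) / (n - 1) < p) : Bd n p (FT Q (range fun a _ => a) N) := by
  obtain ⟨C, hC, h⟩ := bd_qhs_all hn (fun b => LQN.full_any hn b) Q N hp
  refine ⟨C, hC, fun W _ ν _ R η h' hR hη hh hcl => h W ν R η h' hR hη hh fun x => ?_⟩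
  obtain ⟨F, v, c, hF, hF1, hc, hg⟩ := hcl x
  choose a ha using hc
  refine ⟨F, v, a, hF, hF1, fun y => ?_⟩
  rw [hg]
  congr 1
  refine Finset.prod_congr rfl fun j _ => ?_
  rw [← ha j]

/-- Both cases, smooth along the level sets. -/
theorem bd_gt_all {n : ℕ} (hn : 3 ≤ n) (Q : QuadraticForm ℝ (E n)) (N : ℕ) (B : ℝ) {p : ℝ}
    (hp : 2 * (n : ℝ) / (n - 1) < p) : Bd n p (GT Q (range fun a _ => a) N B) := by
  refine bd_gt ((one_le_exp hn).trans hp.le) (measurable_form Q) ?_ N (bd_ft_all hn Q N hp) B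
  rintro c ⟨a, rfl⟩
  exact measurable_const

theorem bd_gt_inj {n : ℕ} (hn : 3 ≤ n) {b : Fin n → ℝ} (hb : Function.Injective b) (N : ℕ)
    (B : ℝ) {p : ℝ} (hp : 2 * (n : ℝ) / (n - 1) < p) :
    Bd n p (GT (fun x => ∑ i, b i * x i ^ 2) {c | Measurable c} N B) := by
  have hQ : Measurable fun x : E n => ∑ i, b i * x i ^ 2 := by
    have : Continuous fun x : E n => ∑ i, b i * x i ^ 2 := by fun_prop
    exact this.measurable
  exact bd_gt ((one_le_exp hn).trans hp.le) hQ (fun _ hc => hc) N (bd_ft hn hb N hp) B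

end Pool.Agent.LFD
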