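import Pool.Agent.LQ.KFa
import Pool.Agent.LQ.DE

/-!
LEAFQ: row KF, the far inner integral of KAK, over the determinant DE.
-/

set_option autoImplicit false

namespace Pool.Agent.LQ

open MeasureTheory Set
open scoped ENNReal

/-- `w · Y_y` at the base point of the shear coordinates. -/
theorem Uw_base {α β d x1 x2 s t y : ℝ} (hα : α ≠ 0) (hr : 0 < rr α β t y)
    (hs : 0 < 1 - d ^ 2 * ss α β t y) :
    Uw α β d (x1 + s * AA α β t y) (x2 + s * y) (-(s * HH α β d t y)) t y =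
      x2 - β * y / (α * AA α β t y) * x1 := by
  have hA := AA_pos hr
  have hH := HH_pos hs
  unfold Uw Lw
  field_simp
  ring

/-- Row KF from row DE. -/
theorem row_KF_of {α β : ℝ} (hα : α ≠ 0)
    (hDE : ∃ c M c1 : ℝ, 0 < c ∧ 1 ≤ M ∧
    0 < c1 ∧ ∀ c0, 0 < c0 → c0 ≤ c1 → ∀ d, 0 ≤ d → d ≤ 1 → ∀ t0 y0, Rs α β d t0 y0 → y0 ≠ 0 →
      ∀ t y t' y', Bx c0 t0 y0 t y → Bx c0 t0 y0 t' y' →
      ∀ w1 w2 w3 ε, 0 ≤ ε → 1 / 16 ≤ w1 ^ 2 + w2 ^ 2 + w3 ^ 2 → w1 ^ 2 + w2 ^ 2 + w3 ^ 2 ≤ 64 →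
        |Uw α β d w1 w2 w3 t y| ≤ ε → |Uw α β d w1 w2 w3 t' y'| ≤ ε →
        M * ε ≤ |y0| * nn t y t' y' →
        c * nn t y t' y' * (|lw α β d w1 w3 t' y'| + |y0|) ≤
          |Nt α β d t y t' y' * lw α β d w1 w3 t' y' -
            Ny α β d t y t' y' * (y' * mw α β d w1 w3 t' y')|) :
    ∃ C M c1 : ℝ, 0 < C ∧
    1 ≤ M ∧ 0 < c1 ∧ ∀ c0, 0 < c0 → c0 ≤ c1 → ∀ d, 0 ≤ d → d ≤ 1 → ∀ t0 y0, Rs α β d t0 y0 →
      y0 ≠ 0 → ∀ R Λ, 1 ≤ R → 1 ≤ R * y0 ^ 2 → √R ≤ Λ → ∀ t y t', Bx c0 t0 y0 t y →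
      |t' - t0| ≤ c0 → M * Λ ≤ R * |y0| * |t - t'| → ∀ x1 x2 : ℝ,
      |x2 - β * y / (α * AA α β t y) * x1| ≤ Λ → ∀ g : ℝ → ℝ≥0∞, Measurable g →
      ∫⁻ s : ℝ, ∫⁻ y' : ℝ, ({y' | |y' - y0| ≤ c0 * |y0| ∧
          WA R (x1 + s * AA α β t y) (x2 + s * y) (-(s * HH α β d t y)) ∧
          |Uw α β d (x1 + s * AA α β t y) (x2 + s * y) (-(s * HH α β d t y)) t' y'| ≤
            Λ}.indicator
          fun y' => g (Tw α β d (x1 + s * AA α β t y) (-(s * HH α β d t y)) t' y')) y' ≤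
        ENNReal.ofReal (C * (1 + Real.log R) * Λ / (R * |y0| * |t - t'|)) * ∫⁻ τ, g τ := by
  obtain ⟨c, M, c1, hc, hM, hc1, hDE⟩ := hDE
  obtain ⟨c2, hc2, hc2', hbox⟩ := box_sub (β := β) hα
  refine ⟨16 / c, M, min c1 c2, by positivity, hM, lt_min hc1 hc2, ?_⟩
  intro c0 hc0 hc01 d hd0 hd1 t0 y0 hRs hy0 R Λ hR _ hRΛ t y t' hB ht' hMΛ x1 x2 hx g hg
  have hR0 : 0 < R := by linarith
  have hΛ0 : 0 < Λ := lt_of_lt_of_le (Real.sqrt_pos.2 hR0) hRΛ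
  have hy0' : 0 < |y0| := abs_pos.2 hy0
  have htt0 : 0 < |t - t'| := by
    by_contra hcon
    have h1 : |t - t'| = 0 := le_antisymm (not_lt.1 hcon) (abs_nonneg _)
    rw [h1, mul_zero] at hMΛ
    have : 0 < M * Λ := by positivity
    linarith
  have htt : t' ≠ t := by
    rintro rfl
    simp at htt0
  have hBx : ∀ {a b : ℝ}, Bx c0 t0 y0 a b → Bx c2 t0 y0 a b := fun {a b} h =>
    ⟨h.1.trans (hc01.trans (min_le_right _ _)), h.2.trans
      (mul_le_mul_of_nonneg_right (hc01.trans (min_le_right _ _)) hy0'.le)⟩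
  have hp : Rg α β d t y := hbox d hd0 hd1 t0 y0 t y hRs (hBx hB)
  have hreg : ∀ y', |y' - y0| ≤ c0 * |y0| → Rg α β d t' y' := fun y' hy' =>
    hbox d hd0 hd1 t0 y0 t' y' hRs (hBx ⟨ht', hy'⟩)
  have hκ : 0 < c * |t - t'| * |y0| * R := by positivity
  refine (kf_main (R := R) (y0 := y0) (c0 := c0) (x2 := x2) hα hp hreg htt hΛ0.le hκ ?_ hg).trans
    ?_
  · intro s y' hy' hWA hU
    set w1 := x1 + s * AA α β t y with hw1
    set w2 := x2 + s * y with hw2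
    set w3 := -(s * HH α β d t y) with hw3
    have hU0 : |Uw α β d w1 w2 w3 t y| ≤ Λ := by
      rw [hw1, hw2, hw3, Uw_base hα hp.rr_pos hp.one_pos]
      exact hx
    have hsc : ∀ a b : ℝ, Uw α β d (w1 / R) (w2 / R) (w3 / R) a b = Uw α β d w1 w2 w3 a b / R := by
      intro a b
      unfold Uw Lw
      ring
    have hscl : lw α β d (w1 / R) (w3 / R) t' y' = lw α β d w1 w3 t' y' / R := by
      unfold lw
      ring
    have hscm : mw α β d (w1 / R) (w3 / R) t' y' = mw α β d w1 w3 t' y' / R := by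
      unfold mw
      ring
    have hnn : |t - t'| ≤ nn t y t' y' := by
      unfold nn
      linarith [abs_nonneg (y - y')]
    have hsum : (w1 / R) ^ 2 + (w2 / R) ^ 2 + (w3 / R) ^ 2 =
        (w1 ^ 2 + w2 ^ 2 + w3 ^ 2) / R ^ 2 := by
      ring
    have hR2 : 0 < R ^ 2 := by positivity
    have key := hDE c0 hc0 (hc01.trans (min_le_left _ _)) d hd0 hd1 t0 y0 hRs hy0 t y t' y' hB
      ⟨ht', hy'⟩ (w1 / R) (w2 / R) (w3 / R) (Λ / R) (by positivity)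
      (by rw [hsum, le_div_iff₀ hR2]; linarith [hWA.1])
      (by rw [hsum, div_le_iff₀ hR2]; linarith [hWA.2])
      (by rw [hsc, abs_div, abs_of_pos hR0]; gcongr)
      (by rw [hsc, abs_div, abs_of_pos hR0]; gcongr)
      (by
        rw [← mul_div_assoc, div_le_iff₀ hR0]
        calc M * Λ ≤ R * |y0| * |t - t'| := hMΛ
          _ ≤ R * |y0| * nn t y t' y' := by gcongr
          _ = _ := by ring)
    rw [hscl, hscm] at key
    have h1 : Nt α β d t y t' y' * (lw α β d w1 w3 t' y' / R) -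
        Ny α β d t y t' y' * (y' * (mw α β d w1 w3 t' y' / R)) =
        (Nt α β d t y t' y' * lw α β d w1 w3 t' y' -
          Ny α β d t y t' y' * (y' * mw α β d w1 w3 t' y')) / R := by
      ring
    have h1' : |Nt α β d t y t' y' * (lw α β d w1 w3 t' y' / R) -
        Ny α β d t y t' y' * (y' * (mw α β d w1 w3 t' y' / R))| =
        |Nt α β d t y t' y' * lw α β d w1 w3 t' y' -
          Ny α β d t y t' y' * (y' * mw α β d w1 w3 t' y')| / R := by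
      rw [h1, abs_div, abs_of_pos hR0]
    rw [h1', le_div_iff₀ hR0] at key
    refine le_trans ?_ key
    have h2 : |t - t'| * |y0| ≤ nn t y t' y' * (|lw α β d w1 w3 t' y' / R| + |y0|) := by
      have h3 : |y0| ≤ |lw α β d w1 w3 t' y' / R| + |y0| := by
        linarith [abs_nonneg (lw α β d w1 w3 t' y' / R)]
      exact mul_le_mul hnn h3 hy0'.le ((abs_nonneg _).trans hnn)
    calc c * |t - t'| * |y0| * R = c * (|t - t'| * |y0|) * R := by ring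
      _ ≤ c * (nn t y t' y' * (|lw α β d w1 w3 t' y' / R| + |y0|)) * R := by gcongr
      _ = _ := by ring
  · refine mul_le_mul' (ENNReal.ofReal_le_ofReal ?_) le_rfl
    have hlog := Real.log_nonneg hR
    have h3 : 16 * Λ / (c * |t - t'| * |y0| * R) = 16 / c * 1 * Λ / (R * |y0| * |t - t'|) := by
      field_simp
    rw [h3]
    gcongr
    linarith

/-- Row KF. -/
theorem row_KF {α β : ℝ} (hα : α ≠ 0) (hβ : β ≠ 0) (hαβ : α ≠ β) : ∃ C M c1 : ℝ, 0 < C ∧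
    1 ≤ M ∧ 0 < c1 ∧ ∀ c0, 0 < c0 → c0 ≤ c1 → ∀ d, 0 ≤ d → d ≤ 1 → ∀ t0 y0, Rs α β d t0 y0 →
      y0 ≠ 0 → ∀ R Λ, 1 ≤ R → 1 ≤ R * y0 ^ 2 → √R ≤ Λ → ∀ t y t', Bx c0 t0 y0 t y →
      |t' - t0| ≤ c0 → M * Λ ≤ R * |y0| * |t - t'| → ∀ x1 x2 : ℝ,
      |x2 - β * y / (α * AA α β t y) * x1| ≤ Λ → ∀ g : ℝ → ℝ≥0∞, Measurable g →
      ∫⁻ s : ℝ, ∫⁻ y' : ℝ, ({y' | |y' - y0| ≤ c0 * |y0| ∧
          WA R (x1 + s * AA α β t y) (x2 + s * y) (-(s * HH α β d t y)) ∧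
          |Uw α β d (x1 + s * AA α β t y) (x2 + s * y) (-(s * HH α β d t y)) t' y'| ≤
            Λ}.indicator
          fun y' => g (Tw α β d (x1 + s * AA α β t y) (-(s * HH α β d t y)) t' y')) y' ≤
        ENNReal.ofReal (C * (1 + Real.log R) * Λ / (R * |y0| * |t - t'|)) * ∫⁻ τ, g τ :=
  row_KF_of hα (row_DE hα hβ hαβ)

end Pool.Agent.LQ
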