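import Pool.Agent.LQ.Df

/-!
LEAFQ: the dyadic annulus.
-/

set_option autoImplicit false

namespace Pool.Agent.LQ

/-- The dyadic annulus. -/
def WA (R w1 w2 w3 : ℝ) : Prop :=
  R ^ 2 / 4 ≤ w1 ^ 2 + w2 ^ 2 + w3 ^ 2 ∧ w1 ^ 2 + w2 ^ 2 + w3 ^ 2 ≤ 16 * R ^ 2

end Pool.Agent.LQ
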