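import Pool.Agent.LQ.AREA
import Pool.Agent.LQ.FIB
import Pool.Agent.LQ.WA

/-!
LEAFQ: the inner integral of KAK for two separated `t`'s, by the area formula.
-/

set_option autoImplicit false

namespace Pool.Agent.LQ

open MeasureTheory Set
open scoped ENNReal

theorem det_two (a b c e : ℝ) :
    ((a • ContinuousLinearMap.fst ℝ ℝ ℝ + b • ContinuousLinearMap.snd ℝ ℝ ℝ).prod
      (c • ContinuousLinearMap.fst ℝ ℝ ℝ + e • ContinuousLinearMap.snd ℝ ℝ ℝ)).det =
      a * e - b * c := by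
  rw [ContinuousLinearMap.det, ← LinearMap.det_toMatrix (Module.Basis.finTwoProd ℝ),
    Matrix.det_fin_two]
  simp [LinearMap.toMatrix_apply]

/-- `w ↦ Tw` is linear. -/
theorem Tw_lin {α β d x1 s a h t' y' : ℝ} : Tw α β d (x1 + s * a) (-(s * h)) t' y' =
    Tw α β d x1 0 t' y' + s * Tw α β d a (-h) t' y' := by
  unfold Tw
  ring

theorem Uw_lin {α β d x1 x2 s a y h t' y' : ℝ} :
    Uw α β d (x1 + s * a) (x2 + s * y) (-(s * h)) t' y' =
      Uw α β d x1 x2 0 t' y' + s * Uw α β d a y (-h) t' y' := by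
  unfold Uw Lw
  ring

theorem mw_lin {α β d x1 s a h t' y' : ℝ} : mw α β d (x1 + s * a) (-(s * h)) t' y' =
    mw α β d x1 0 t' y' + s * mw α β d a (-h) t' y' := by
  unfold mw
  ring

theorem lw_lin {α β d x1 s a h t' y' : ℝ} : lw α β d (x1 + s * a) (-(s * h)) t' y' =
    lw α β d x1 0 t' y' + s * lw α β d a (-h) t' y' := by
  unfold lw
  ring

/-- The map and its derivative. -/
theorem kf_deriv {α β d t y t' x1 x2 : ℝ} (hα : α ≠ 0) (q : ℝ × ℝ) (hr' : 0 < rr α β t' q.2)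
    (hs' : 0 < 1 - d ^ 2 * ss α β t' q.2) :
    HasFDerivAt (fun q : ℝ × ℝ =>
      (Tw α β d (x1 + q.1 * AA α β t y) (-(q.1 * HH α β d t y)) t' q.2,
        Uw α β d (x1 + q.1 * AA α β t y) (x2 + q.1 * y) (-(q.1 * HH α β d t y)) t' q.2))
      ((Nt α β d t y t' q.2 • ContinuousLinearMap.fst ℝ ℝ ℝ +
          (q.2 * mw α β d (x1 + q.1 * AA α β t y) (-(q.1 * HH α β d t y)) t' q.2) •
            ContinuousLinearMap.snd ℝ ℝ ℝ).prod
        (Ny α β d t y t' q.2 • ContinuousLinearMap.fst ℝ ℝ ℝ +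
          lw α β d (x1 + q.1 * AA α β t y) (-(q.1 * HH α β d t y)) t' q.2 •
            ContinuousLinearMap.snd ℝ ℝ ℝ)) q := by
  have h0 := hasFDerivAt_fst (𝕜 := ℝ) (p := q)
  have h1 := hasFDerivAt_snd (𝕜 := ℝ) (p := q)
  have a1 := (gd_T (w1 := x1) (w3 := 0) hα hr' hs').comp_hasFDerivAt q h1
  have a2 := (gd_T (w1 := AA α β t y) (w3 := -(HH α β d t y)) hα hr' hs').comp_hasFDerivAt q h1
  have b1 := (gd_U (w1 := x1) (w2 := x2) (w3 := 0) hα hr' hs').2.comp_hasFDerivAt q h1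
  have b2 := (gd_U (w1 := AA α β t y) (w2 := y) (w3 := -(HH α β d t y))
    hα hr' hs').2.comp_hasFDerivAt q h1
  simp only [Tw_lin, Uw_lin, mw_lin, lw_lin]
  refine HasFDerivAt.prodMk ?_ ?_
  · refine (a1.add (h0.mul a2)).congr_fderiv ?_
    ext <;> simp [Nt]
    ring
  · refine (b1.add (h0.mul b2)).congr_fderiv ?_
    ext <;> simp [Ny]

theorem kf_main {α β d t y t' x1 x2 R Λ y0 c0 κ : ℝ} (hα : α ≠ 0) (hp : Rg α β d t y)
    (hreg : ∀ y', |y' - y0| ≤ c0 * |y0| → Rg α β d t' y') (htt : t' ≠ t) (_hΛ : 0 ≤ Λ)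
    (hκ : 0 < κ)
    (hdet : ∀ s y', |y' - y0| ≤ c0 * |y0| →
      WA R (x1 + s * AA α β t y) (x2 + s * y) (-(s * HH α β d t y)) →
      |Uw α β d (x1 + s * AA α β t y) (x2 + s * y) (-(s * HH α β d t y)) t' y'| ≤ Λ →
      κ ≤ |Nt α β d t y t' y' * lw α β d (x1 + s * AA α β t y) (-(s * HH α β d t y)) t' y' -
        Ny α β d t y t' y' *
          (y' * mw α β d (x1 + s * AA α β t y) (-(s * HH α β d t y)) t' y')|)
    {g : ℝ → ℝ≥0∞} (hg : Measurable g) :
    ∫⁻ s : ℝ, ∫⁻ y' : ℝ, ({y' | |y' - y0| ≤ c0 * |y0| ∧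
        WA R (x1 + s * AA α β t y) (x2 + s * y) (-(s * HH α β d t y)) ∧
        |Uw α β d (x1 + s * AA α β t y) (x2 + s * y) (-(s * HH α β d t y)) t' y'| ≤
          Λ}.indicator
        fun y' => g (Tw α β d (x1 + s * AA α β t y) (-(s * HH α β d t y)) t' y')) y' ≤
      ENNReal.ofReal (16 * Λ / κ) * ∫⁻ τ, g τ := by
  set A := AA α β t y with hA
  set H := HH α β d t y with hH
  set f : ℝ × ℝ → ℝ × ℝ := fun q => (Tw α β d (x1 + q.1 * A) (-(q.1 * H)) t' q.2,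
    Uw α β d (x1 + q.1 * A) (x2 + q.1 * y) (-(q.1 * H)) t' q.2) with hf
  set S : Set (ℝ × ℝ) := {q | |q.2 - y0| ≤ c0 * |y0| ∧
    WA R (x1 + q.1 * A) (x2 + q.1 * y) (-(q.1 * H)) ∧ |(f q).2| ≤ Λ} with hS
  have hfT : Measurable fun q : ℝ × ℝ => Tw α β d (x1 + q.1 * A) (-(q.1 * H)) t' q.2 := by
    unfold Tw AA HH rr ss
    fun_prop
  have hfU : Measurable fun q : ℝ × ℝ =>
      Uw α β d (x1 + q.1 * A) (x2 + q.1 * y) (-(q.1 * H)) t' q.2 := by
    unfold Uw Lw AA HH rr ss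
    fun_prop
  have hSm : MeasurableSet S := by
    have m1 : MeasurableSet {q : ℝ × ℝ | |q.2 - y0| ≤ c0 * |y0|} :=
      measurableSet_le (by fun_prop) measurable_const
    have m2 : MeasurableSet {q : ℝ × ℝ |
        WA R (x1 + q.1 * A) (x2 + q.1 * y) (-(q.1 * H))} := by
      have m2a : MeasurableSet {q : ℝ × ℝ | R ^ 2 / 4 ≤
          (x1 + q.1 * A) ^ 2 + (x2 + q.1 * y) ^ 2 + (-(q.1 * H)) ^ 2} :=
        measurableSet_le measurable_const (by fun_prop)
      have m2b : MeasurableSet {q : ℝ × ℝ |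
          (x1 + q.1 * A) ^ 2 + (x2 + q.1 * y) ^ 2 + (-(q.1 * H)) ^ 2 ≤ 16 * R ^ 2} :=
        measurableSet_le (by fun_prop) measurable_const
      exact m2a.inter m2b
    have m3 : MeasurableSet {q : ℝ × ℝ | |(f q).2| ≤ Λ} :=
      measurableSet_le (hfU.abs) measurable_const
    exact m1.inter (m2.inter m3)
  set f' : ℝ × ℝ → ℝ × ℝ →L[ℝ] ℝ × ℝ := fun q =>
    (Nt α β d t y t' q.2 • ContinuousLinearMap.fst ℝ ℝ ℝ +
        (q.2 * mw α β d (x1 + q.1 * A) (-(q.1 * H)) t' q.2) •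
          ContinuousLinearMap.snd ℝ ℝ ℝ).prod
      (Ny α β d t y t' q.2 • ContinuousLinearMap.fst ℝ ℝ ℝ +
        lw α β d (x1 + q.1 * A) (-(q.1 * H)) t' q.2 • ContinuousLinearMap.snd ℝ ℝ ℝ) with hf'
  have hd : ∀ q ∈ S, HasFDerivWithinAt f (f' q) S q := fun q hq =>
    (kf_deriv hα q (hreg q.2 hq.1).rr_pos (hreg q.2 hq.1).one_pos).hasFDerivWithinAt
  have hdet' : ∀ q ∈ S, κ ≤ |(f' q).det| := by
    intro q hq
    rw [hf', det_two]
    refine (hdet q.1 q.2 hq.1 hq.2.1 hq.2.2).trans (le_of_eq ?_)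
    congr 1
    ring
  have hdet0 : ∀ q ∈ S, (f' q).det ≠ 0 := fun q hq => abs_pos.1 (lt_of_lt_of_le hκ (hdet' q hq))
  set G : ℝ × ℝ → ℝ≥0∞ := {z : ℝ × ℝ | |z.2| ≤ Λ}.indicator fun z => g z.1 with hG
  have hGm : Measurable G := (hg.comp measurable_fst).indicator
    (measurableSet_le (by fun_prop) measurable_const)
  have hN : ∀ᵐ z : ℝ × ℝ, (S ∩ f ⁻¹' {z}).encard ≤ (8 : ℕ) := by
    filter_upwards [fib_card (β := β) (d := d) x1 x2 hα hp.rr_pos hp.one_pos htt] with z hz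
    refine (Set.encard_le_encard ?_).trans hz
    rintro q ⟨hq, hqz⟩
    have h1 := hreg q.2 hq.1
    have h2 : f q = z := hqz
    exact ⟨h1.rr_pos, h1.one_pos, congrArg Prod.fst h2, congrArg Prod.snd h2⟩
  have key := area_le (volume : Measure (ℝ × ℝ)) hSm hd hdet0 8 hN hGm
  have hGi : ∫⁻ z, G z = ENNReal.ofReal (2 * Λ) * ∫⁻ τ, g τ := by
    rw [Measure.volume_eq_prod, lintegral_prod _ hGm.aemeasurable]
    have h1 : ∀ τ, ∫⁻ b, G (τ, b) = ENNReal.ofReal (2 * Λ) * g τ := by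
      intro τ
      have h2 : ∀ b, G (τ, b) = (Icc (-Λ) Λ).indicator (fun _ => g τ) b := by
        intro b
        simp only [hG]
        by_cases h3 : |b| ≤ Λ
        · rw [indicator_of_mem (show (τ, b) ∈ {z : ℝ × ℝ | |z.2| ≤ Λ} from h3),
            indicator_of_mem (show b ∈ Icc (-Λ) Λ from abs_le.1 h3)]
        · rw [indicator_of_notMem (show (τ, b) ∉ {z : ℝ × ℝ | |z.2| ≤ Λ} from h3),
            indicator_of_notMem (show b ∉ Icc (-Λ) Λ from fun h4 => h3 (abs_le.2 h4))]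
      simp_rw [h2]
      rw [lintegral_indicator measurableSet_Icc, setLIntegral_const, Real.volume_Icc, mul_comm]
      congr 2
      ring
    simp_rw [h1]
    rw [lintegral_const_mul' _ _ ENNReal.ofReal_ne_top]
  calc ∫⁻ s : ℝ, ∫⁻ y' : ℝ, ({y' | |y' - y0| ≤ c0 * |y0| ∧
        WA R (x1 + s * A) (x2 + s * y) (-(s * H)) ∧
        |Uw α β d (x1 + s * A) (x2 + s * y) (-(s * H)) t' y'| ≤ Λ}.indicator
        fun y' => g (Tw α β d (x1 + s * A) (-(s * H)) t' y')) y'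
      = ∫⁻ q in S, g (f q).1 := by
        have hFm : Measurable (S.indicator fun q => g (f q).1) := (hg.comp hfT).indicator hSm
        rw [← lintegral_indicator hSm, Measure.volume_eq_prod, lintegral_prod _ hFm.aemeasurable]
        exact lintegral_congr fun s => lintegral_congr fun y' => rfl
    _ ≤ ∫⁻ q in S, ENNReal.ofReal κ⁻¹ * (ENNReal.ofReal |(f' q).det| * G (f q)) := by
        refine setLIntegral_mono' hSm fun q hq => ?_
        have h1 : G (f q) = g (f q).1 := by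
          simp only [hG]
          rw [indicator_of_mem (show f q ∈ {z : ℝ × ℝ | |z.2| ≤ Λ} from hq.2.2)]
        rw [h1, ← mul_assoc, ← ENNReal.ofReal_mul (by positivity)]
        refine le_mul_of_one_le_left (zero_le) ?_
        rw [← ENNReal.ofReal_one]
        refine ENNReal.ofReal_le_ofReal ?_
        rw [inv_mul_eq_div, one_le_div hκ]
        exact hdet' q hq
    _ = ENNReal.ofReal κ⁻¹ * ∫⁻ q in S, ENNReal.ofReal |(f' q).det| * G (f q) :=
        lintegral_const_mul' _ _ ENNReal.ofReal_ne_top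
    _ ≤ ENNReal.ofReal κ⁻¹ * (8 * (ENNReal.ofReal (2 * Λ) * ∫⁻ τ, g τ)) := by
        refine mul_le_mul' le_rfl (key.trans_eq ?_)
        rw [hGi]
        norm_num
    _ = _ := by
        rw [← mul_assoc, ← mul_assoc, show (8 : ℝ≥0∞) = ENNReal.ofReal 8 by norm_num,
          ← ENNReal.ofReal_mul (by positivity), ← ENNReal.ofReal_mul (by positivity)]
        congr 2
        field_simp
        ring

end Pool.Agent.LQ
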