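import Pool.Agent.LQ.Df

/-!
LEAFQ, rows SL, SL2 and DE: `N(p) · DY(p')` is the Gram form of the quadric on the chord.
-/

set_option autoImplicit false

namespace Pool.Agent.LQ

/-- Numbers of the large region. -/
theorem de_reg {α β d t y : ℝ} (hα : α ≠ 0) (h : Rg α β d t y) :
    |y| ≤ 3 ∧ 1 / 8 ≤ AA α β t y ∧ AA α β t y ≤ 3 ∧ 1 / 4 ≤ HH α β d t y ∧ HH α β d t y ≤ 1 ∧
      α * AA α β t y ^ 2 = t - β * y ^ 2 ∧
      α * HH α β d t y ^ 2 = α - d ^ 2 * (t + (α - β) * y ^ 2) := by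
  obtain ⟨hy, h1, h2, h3⟩ := h
  have hr : 0 ≤ rr α β t y := by linarith
  have hs : 0 ≤ 1 - d ^ 2 * ss α β t y := by linarith
  have e : ss α β t y = rr α β t y + y ^ 2 := by
    unfold ss rr
    field_simp
    ring
  have e1 : AA α β t y ^ 2 = rr α β t y := Real.sq_sqrt hr
  have e2 : HH α β d t y ^ 2 = 1 - d ^ 2 * ss α β t y := Real.sq_sqrt hs
  have p1 : 0 ≤ AA α β t y := Real.sqrt_nonneg _
  have p2 : 0 ≤ HH α β d t y := Real.sqrt_nonneg _
  refine ⟨hy, ?_, ?_, ?_, ?_, ?_, ?_⟩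
  · nlinarith
  · nlinarith
  · nlinarith
  · have : 0 ≤ d ^ 2 * ss α β t y := by rw [e]; positivity
    nlinarith
  · rw [e1, rr]
    field_simp
  · rw [e2, ss]
    field_simp

/-- The box stays in the large region (own copy). -/
theorem de_box {α β : ℝ} (hα : α ≠ 0) : ∃ c1 : ℝ, 0 < c1 ∧ c1 ≤ 1 / 8 ∧
    ∀ d, 0 ≤ d → d ≤ 1 → ∀ t0 y0 t y, Rs α β d t0 y0 → Bx c1 t0 y0 t y → Rg α β d t y := by
  have ha : 0 < |α| := abs_pos.2 hα
  set B : ℝ := |β| + |α - β| + 1 with hB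
  have hBp : 0 < B := by positivity
  refine ⟨min (1 / 8) (|α| / (1000 * B)), lt_min (by norm_num) (by positivity), min_le_left _ _, ?_⟩
  intro d hd0 hd1 t0 y0 t y hR hb
  obtain ⟨hy, h1, h2, h3⟩ := hR
  obtain ⟨hb1, hb2⟩ := hb
  set c := min (1 / 8) (|α| / (1000 * B)) with hc
  have hc1 : c ≤ 1 / 8 := min_le_left _ _
  have hc2 : c ≤ |α| / (1000 * B) := min_le_right _ _
  have hc0 : 0 < c := lt_min (by norm_num) (by positivity)
  have hc3 : c * (1000 * B) ≤ |α| := by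
    rwa [le_div_iff₀ (by positivity)] at hc2
  have hy0 : 0 ≤ |y0| := abs_nonneg _
  have hyy : |y - y0| ≤ 1 / 4 := by nlinarith
  have hy3 : |y| ≤ 3 := by
    have : |y| ≤ |y - y0| + |y0| := by
      have := abs_add_le (y - y0) y0
      simpa using this
    linarith
  have hsq : |y ^ 2 - y0 ^ 2| ≤ 10 * c := by
    have : y ^ 2 - y0 ^ 2 = (y - y0) * (y + y0) := by ring
    rw [this, abs_mul]
    have h4 : |y + y0| ≤ 5 := by
      have := abs_add_le y y0
      linarith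
    have h5 : |y - y0| ≤ 2 * c := by nlinarith
    nlinarith [abs_nonneg (y - y0), abs_nonneg (y + y0)]
  have hr : |rr α β t y - rr α β t0 y0| ≤ 1 / 50 := by
    have e : rr α β t y - rr α β t0 y0 = ((t - t0) - β * (y ^ 2 - y0 ^ 2)) / α := by
      unfold rr
      field_simp
      ring
    rw [e, abs_div, div_le_iff₀ ha]
    have h6 : |(t - t0) - β * (y ^ 2 - y0 ^ 2)| ≤ |t - t0| + |β| * |y ^ 2 - y0 ^ 2| := by
      have := abs_sub (t - t0) (β * (y ^ 2 - y0 ^ 2))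
      rwa [abs_mul] at this
    have h7 : |β| * |y ^ 2 - y0 ^ 2| ≤ |β| * (10 * c) :=
      mul_le_mul_of_nonneg_left hsq (abs_nonneg _)
    have h8 : |β| + 1 ≤ B := by
      have := abs_nonneg (α - β)
      linarith
    nlinarith [abs_nonneg β]
  have hs : |ss α β t y - ss α β t0 y0| ≤ 1 / 50 := by
    have e : ss α β t y - ss α β t0 y0 = ((t - t0) + (α - β) * (y ^ 2 - y0 ^ 2)) / α := by
      unfold ss
      field_simp
      ring
    rw [e, abs_div, div_le_iff₀ ha]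
    have h6 : |(t - t0) + (α - β) * (y ^ 2 - y0 ^ 2)| ≤ |t - t0| + |α - β| * |y ^ 2 - y0 ^ 2| := by
      have := abs_add_le (t - t0) ((α - β) * (y ^ 2 - y0 ^ 2))
      rwa [abs_mul] at this
    have h7 : |α - β| * |y ^ 2 - y0 ^ 2| ≤ |α - β| * (10 * c) :=
      mul_le_mul_of_nonneg_left hsq (abs_nonneg _)
    have h8 : |α - β| + 1 ≤ B := by
      have := abs_nonneg β
      linarith
    nlinarith [abs_nonneg (α - β)]
  rw [abs_le] at hr hs
  refine ⟨hy3, by linarith, by linarith, ?_⟩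
  have hd2 : d ^ 2 ≤ 1 := by nlinarith
  have hd3 : 0 ≤ d ^ 2 := by positivity
  nlinarith

/-- `κ1`. -/
noncomputable def k1 (α β t y t' y' : ℝ) : ℝ :=
  1 / (α ^ 2 * (AA α β t' y' * (AA α β t y + AA α β t' y')))
/-- `κ2`. -/
noncomputable def k2 (α β d t y t' y' : ℝ) : ℝ :=
  d ^ 2 / (α ^ 2 * (HH α β d t' y' * (HH α β d t y + HH α β d t' y')))

theorem de_a {α β d t y t' y' : ℝ} (hα : α ≠ 0) (h : Rg α β d t y) (h' : Rg α β d t' y') :
    AA α β t y / AA α β t' y' =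
      1 + α * k1 α β t y t' y' * ((t - t') - β * (y ^ 2 - y' ^ 2)) := by
  obtain ⟨-, p1, -, -, -, e1, -⟩ := de_reg hα h
  obtain ⟨-, p2, -, -, -, e2, -⟩ := de_reg hα h'
  have h1 : AA α β t' y' ≠ 0 := by linarith
  have h2 : AA α β t y + AA α β t' y' ≠ 0 := by linarith
  rw [k1]
  field_simp
  linear_combination e1 - e2

theorem de_b {α β d t y t' y' : ℝ} (hα : α ≠ 0) (h : Rg α β d t y) (h' : Rg α β d t' y') :
    HH α β d t y / HH α β d t' y' =
      1 - α * k2 α β d t y t' y' * ((t - t') + (α - β) * (y ^ 2 - y' ^ 2)) := by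
  obtain ⟨-, -, -, p1, -, -, e1⟩ := de_reg hα h
  obtain ⟨-, -, -, p2, -, -, e2⟩ := de_reg hα h'
  have h1 : HH α β d t' y' ≠ 0 := by linarith
  have h2 : HH α β d t y + HH α β d t' y' ≠ 0 := by linarith
  rw [k2]
  field_simp
  linear_combination e1 - e2

theorem de_k1 {α β d t y t' y' : ℝ} (hα : α ≠ 0) (h : Rg α β d t y) (h' : Rg α β d t' y') :
    1 / (18 * α ^ 2) ≤ k1 α β t y t' y' ∧ k1 α β t y t' y' ≤ 32 / α ^ 2 := by
  obtain ⟨-, p1, q1, -, -, -, -⟩ := de_reg hα h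
  obtain ⟨-, p2, q2, -, -, -, -⟩ := de_reg hα h'
  have ha : 0 < α ^ 2 := by positivity
  have hA : 0 < AA α β t' y' * (AA α β t y + AA α β t' y') := by
    apply mul_pos <;> linarith
  rw [k1]
  constructor
  · rw [div_le_div_iff₀ (by positivity) (by positivity)]
    nlinarith [mul_le_mul q2 (add_le_add q1 q2) (by linarith) (by norm_num)]
  · rw [div_le_div_iff₀ (by positivity) (by positivity)]
    nlinarith [mul_le_mul p2 (add_le_add p1 p2) (by norm_num) (by linarith)]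

theorem de_k2 {α β d t y t' y' : ℝ} (hα : α ≠ 0) (hd0 : 0 ≤ d) (hd1 : d ≤ 1) (h : Rg α β d t y)
    (h' : Rg α β d t' y') :
    0 ≤ k2 α β d t y t' y' ∧ k2 α β d t y t' y' ≤ 8 / α ^ 2 := by
  obtain ⟨-, -, -, p1, q1, -, -⟩ := de_reg hα h
  obtain ⟨-, -, -, p2, q2, -, -⟩ := de_reg hα h'
  have ha : 0 < α ^ 2 := by positivity
  have hA : 0 < HH α β d t' y' * (HH α β d t y + HH α β d t' y') := by
    apply mul_pos <;> linarith
  rw [k2]
  constructor
  · positivity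
  · rw [div_le_div_iff₀ (by positivity) (by positivity)]
    have h1 : 1 / 8 ≤ HH α β d t' y' * (HH α β d t y + HH α β d t' y') := by
      nlinarith [mul_le_mul p2 (add_le_add p1 p2) (by norm_num) (by linarith)]
    have h2 : d ^ 2 ≤ 1 := by nlinarith
    nlinarith

theorem de_Nt {α β d t y t' y' : ℝ} (hα : α ≠ 0) (h : Rg α β d t y) (h' : Rg α β d t' y') :
    Nt α β d t y t' y' = ((k1 α β t y t' y' + k2 α β d t y t' y') * (t - t') +
      (-(β * k1 α β t y t' y') + (α - β) * k2 α β d t y t' y') * (y + y') * (y - y')) / 2 := by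
  have e1 := de_a hα h h'
  have e2 := de_b hα h h'
  rw [Nt, Tw, neg_div, e1, e2]
  field_simp
  ring

theorem de_Ny {α β d t y t' y' : ℝ} (hα : α ≠ 0) (h : Rg α β d t y) (h' : Rg α β d t' y') :
    Ny α β d t y t' y' = (y - y') * (1 + (y + y') * y' * (β ^ 2 * k1 α β t y t' y' +
        (α - β) ^ 2 * k2 α β d t y t' y')) +
      (t - t') * y' * (-(β * k1 α β t y t' y') + (α - β) * k2 α β d t y t' y') := by
  have e1 := de_a hα h h'
  have e2 := de_b hα h h'
  have e3 : Uw α β d (AA α β t y) y (-(HH α β d t y)) t' y' =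
      y + y' * ((-(β * (AA α β t y / AA α β t' y')) -
        (α - β) * (HH α β d t y / HH α β d t' y')) / α) := by
    rw [Uw, Lw]
    ring
  rw [Ny, e3, e1, e2]
  field_simp
  ring

/-- Constants of a box: signs and sizes. -/
theorem de_bx {c0 t0 y0 t y t' y' : ℝ} (hc : c0 ≤ 1 / 8) (h0 : 0 ≤ c0)
    (h : Bx c0 t0 y0 t y) (h' : Bx c0 t0 y0 t' y') :
    0 ≤ (y + y') * y' ∧ |y'| ≤ 2 * |y0| ∧ |y0| / 2 ≤ |y'| ∧ |y - y'| ≤ 2 * c0 * |y0| ∧
      |t - t'| ≤ 2 * c0 := by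
  obtain ⟨a1, a2⟩ := h
  obtain ⟨b1, b2⟩ := h'
  have hy0 := abs_nonneg y0
  have a3 : |y - y0| ≤ |y0| / 8 := by nlinarith
  have b3 : |y' - y0| ≤ |y0| / 8 := by nlinarith
  have hyd : |y - y'| ≤ |y - y0| + |y' - y0| := by
    have := abs_sub (y - y0) (y' - y0)
    simpa using this
  have htd : |t - t'| ≤ |t - t0| + |t' - t0| := by
    have := abs_sub (t - t0) (t' - t0)
    simpa using this
  refine ⟨?_, ?_, ?_, by linarith, by linarith⟩
  · rcases le_total 0 y0 with hy | hy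
    · rw [abs_of_nonneg hy, abs_le] at a3 b3
      apply mul_nonneg <;> linarith
    · rw [abs_of_nonpos hy, abs_le] at a3 b3
      apply mul_nonneg_of_nonpos_of_nonpos <;> linarith
  · have : |y'| ≤ |y' - y0| + |y0| := by
      have := abs_add_le (y' - y0) y0
      simpa using this
    linarith
  · have : |y0| ≤ |y' - y0| + |y'| := by
      have := abs_sub (y' - y0) y'
      simpa using this
    linarith

/-- The box lies in the region, for all smaller constants. -/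
theorem de_box' {α β : ℝ} (hα : α ≠ 0) : ∃ c1 : ℝ, 0 < c1 ∧ c1 ≤ 1 / 8 ∧ ∀ c0, c0 ≤ c1 →
    ∀ d, 0 ≤ d → d ≤ 1 → ∀ t0 y0 t y, Rs α β d t0 y0 → Bx c0 t0 y0 t y → Rg α β d t y := by
  obtain ⟨c1, h0, h1, h2⟩ := de_box (β := β) hα
  refine ⟨c1, h0, h1, fun c0 hc d hd0 hd1 t0 y0 t y hR hb => h2 d hd0 hd1 t0 y0 t y hR ?_⟩
  exact ⟨hb.1.trans hc, hb.2.trans (mul_le_mul_of_nonneg_right hc (abs_nonneg _))⟩

theorem row_SL {α β : ℝ} (hα : α ≠ 0) : ∃ C c1 : ℝ, 0 < C ∧ 0 < c1 ∧ ∀ c0, 0 < c0 → c0 ≤ c1 →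
    ∀ d, 0 ≤ d → d ≤ 1 → ∀ t0 y0, Rs α β d t0 y0 → y0 ≠ 0 → ∀ t y t' y', Bx c0 t0 y0 t y →
      Bx c0 t0 y0 t' y' →
      |y - y'| / 2 - C * |y0| * |t - t'| ≤ |Ny α β d t y t' y'| ∧
        |Ny α β d t y t' y'| ≤ C * nn t y t' y' ∧ |Nt α β d t y t' y'| ≤ C * nn t y t' y' := by
  obtain ⟨c1, h0, h1, hbox⟩ := de_box' (β := β) hα
  have ha : 0 < α ^ 2 := by positivity
  set K : ℝ := 40 / α ^ 2 with hK
  have hKp : 0 < K := by positivity
  set B : ℝ := |β| + |α - β| + 1 with hB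
  have hBp : 1 ≤ B := by
    have := abs_nonneg β
    have := abs_nonneg (α - β)
    linarith
  refine ⟨1 + 20 * B ^ 2 * K, c1, by positivity, h0, ?_⟩
  intro c0 hc0 hc d hd0 hd1 t0 y0 hR hy0 t y t' y' hb hb'
  have hg := hbox c0 hc d hd0 hd1 t0 y0 t y hR hb
  have hg' := hbox c0 hc d hd0 hd1 t0 y0 t' y' hR hb'
  obtain ⟨s1, s2, -, -, -⟩ := de_bx (by linarith) hc0.le hb hb'
  obtain ⟨u1, u2⟩ := de_k1 hα hg hg'
  obtain ⟨v1, v2⟩ := de_k2 hα hd0 hd1 hg hg'
  have u0 : 0 ≤ k1 α β t y t' y' := le_trans (by positivity) u1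
  have hy3 := hg.1
  have hy3' := hg'.1
  have hNt := de_Nt hα hg hg'
  have hNy := de_Ny hα hg hg'
  set p := k1 α β t y t' y' with hp
  set q := k2 α β d t y t' y' with hq
  have hpq : p + q ≤ K := by
    have : 32 / α ^ 2 + 8 / α ^ 2 = K := by rw [hK]; ring
    linarith
  set σ : ℝ := -(β * p) + (α - β) * q with hσ
  have hσ1 : |σ| ≤ B * K := by
    have h3 : |σ| ≤ |β| * p + |α - β| * q := by
      have := abs_add_le (-(β * p)) ((α - β) * q)
      rwa [abs_neg, abs_mul, abs_mul, abs_of_nonneg u0, abs_of_nonneg v1] at this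
    have h4 : |β| * p ≤ B * p := mul_le_mul_of_nonneg_right (by
      have := abs_nonneg (α - β)
      linarith) u0
    have h5 : |α - β| * q ≤ B * q := mul_le_mul_of_nonneg_right (by
      have := abs_nonneg β
      linarith) v1
    nlinarith
  set ρ : ℝ := β ^ 2 * p + (α - β) ^ 2 * q with hρ
  have hρ0 : 0 ≤ ρ := by positivity
  have hρ1 : ρ ≤ B ^ 2 * K := by
    have h3 : β ^ 2 ≤ B ^ 2 := by
      rw [← sq_abs β]
      have := abs_nonneg (α - β)
      exact pow_le_pow_left₀ (abs_nonneg _) (by linarith) 2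
    have h4 : (α - β) ^ 2 ≤ B ^ 2 := by
      rw [← sq_abs (α - β)]
      have := abs_nonneg β
      exact pow_le_pow_left₀ (abs_nonneg _) (by linarith) 2
    have h5 : β ^ 2 * p ≤ B ^ 2 * p := mul_le_mul_of_nonneg_right h3 u0
    have h6 : (α - β) ^ 2 * q ≤ B ^ 2 * q := mul_le_mul_of_nonneg_right h4 v1
    nlinarith [sq_nonneg B]
  have hS : |y + y'| ≤ 6 := (abs_add_le _ _).trans (by linarith)
  have hSy : (y + y') * y' ≤ 18 := by
    have h3 : (y + y') * y' ≤ |y + y'| * |y'| := by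
      rw [← abs_mul]
      exact le_abs_self _
    nlinarith [abs_nonneg (y + y'), abs_nonneg y']
  have hdt := abs_nonneg (t - t')
  have hdy := abs_nonneg (y - y')
  have hBK : B * K ≤ B ^ 2 * K := by nlinarith
  refine ⟨?_, ?_, ?_⟩
  · rw [hNy]
    have h3 := abs_sub_abs_le_abs_sub ((y - y') * (1 + (y + y') * y' * ρ)) (-((t - t') * y' * σ))
    rw [sub_neg_eq_add, abs_neg, abs_mul (y - y'), abs_mul ((t - t') * y'), abs_mul (t - t'),
      abs_of_nonneg (show 0 ≤ 1 + (y + y') * y' * ρ by positivity)] at h3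
    have h4 : |y - y'| ≤ |y - y'| * (1 + (y + y') * y' * ρ) := by
      have : 0 ≤ (y + y') * y' * ρ := by positivity
      nlinarith
    have h5 : |t - t'| * |y'| * |σ| ≤ |t - t'| * (2 * |y0|) * (B ^ 2 * K) := by
      have := abs_nonneg y'
      have := abs_nonneg σ
      gcongr
      linarith
    have h6 : 0 ≤ |y0| * |t - t'| := by positivity
    have h7 : 0 ≤ |y0| * |t - t'| * (B ^ 2 * K) := by positivity
    nlinarith
  · rw [hNy, nn]
    have h3 := abs_add_le ((y - y') * (1 + (y + y') * y' * ρ)) ((t - t') * y' * σ)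
    rw [abs_mul (y - y'), abs_mul ((t - t') * y'), abs_mul (t - t'),
      abs_of_nonneg (show 0 ≤ 1 + (y + y') * y' * ρ by positivity)] at h3
    have h4 : (y + y') * y' * ρ ≤ 18 * (B ^ 2 * K) := by
      have : 0 ≤ B ^ 2 * K := by positivity
      nlinarith
    have h5 : |t - t'| * |y'| * |σ| ≤ |t - t'| * 3 * (B ^ 2 * K) := by
      have := abs_nonneg y'
      have := abs_nonneg σ
      gcongr
      linarith
    have h6 : |y - y'| * (1 + (y + y') * y' * ρ) ≤ |y - y'| * (1 + 18 * (B ^ 2 * K)) := by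
      gcongr
    have h7 : 0 ≤ |t - t'| * (B ^ 2 * K) := by positivity
    have h8 : 0 ≤ |y - y'| * (B ^ 2 * K) := by positivity
    nlinarith
  · rw [hNt, nn, abs_div, abs_two, div_le_iff₀ (by norm_num)]
    have h3 := abs_add_le ((p + q) * (t - t')) (σ * (y + y') * (y - y'))
    rw [abs_mul (p + q), abs_mul (σ * (y + y')), abs_mul σ, abs_of_nonneg (by positivity : 0 ≤ p + q)]
      at h3
    have h4 : (p + q) * |t - t'| ≤ (B ^ 2 * K) * |t - t'| := by
      have : K ≤ B ^ 2 * K := by nlinarith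
      gcongr
      linarith
    have h5 : |σ| * |y + y'| * |y - y'| ≤ (B ^ 2 * K) * 6 * |y - y'| := by
      have := abs_nonneg σ
      gcongr
      linarith
    have h7 : 0 ≤ |t - t'| * (B ^ 2 * K) := by positivity
    have h8 : 0 ≤ |y - y'| * (B ^ 2 * K) := by positivity
    nlinarith

end Pool.Agent.LQ
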