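import Pool.Agent.LQ.WA
import Pool.Agent.LQ.EXPL
import Pool.Agent.LQ.SL

/-!
LEAFQ, row KN: the measure of the pairs `(s, y')` of one point and one value `t'`.
-/

set_option autoImplicit false

namespace Pool.Agent.LQ

open MeasureTheory Set
open scoped ENNReal

theorem kn_sec1 {a b Λ R : ℝ} :
    volume {s : ℝ | |s| ≤ 16 * R ∧ |a + s * b| ≤ Λ} ≤ ENNReal.ofReal (32 * R) := by
  have h : {s : ℝ | |s| ≤ 16 * R ∧ |a + s * b| ≤ Λ} ⊆ Icc (-(16 * R)) (16 * R) :=
    fun s hs => abs_le.1 hs.1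
  refine (measure_mono h).trans (le_of_eq ?_)
  rw [Real.volume_Icc]
  congr 1
  ring

theorem kn_sec2 {a b Λ R : ℝ} (hb : b ≠ 0) :
    volume {s : ℝ | |s| ≤ 16 * R ∧ |a + s * b| ≤ Λ} ≤ ENNReal.ofReal (2 * Λ / |b|) := by
  have hb' : 0 < |b| := abs_pos.2 hb
  have h : {s : ℝ | |s| ≤ 16 * R ∧ |a + s * b| ≤ Λ} ⊆
      Icc (-(a / b) - Λ / |b|) (-(a / b) + Λ / |b|) := by
    intro s hs
    have h1 : |s - -(a / b)| ≤ Λ / |b| := by
      rw [le_div_iff₀ hb', ← abs_mul]
      have : (s - -(a / b)) * b = a + s * b := by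
        field_simp
        ring
      rw [this]
      exact hs.2
    rw [abs_le] at h1
    constructor <;> linarith [h1.1, h1.2]
  refine (measure_mono h).trans (le_of_eq ?_)
  rw [Real.volume_Icc]
  congr 1
  ring

/-- The section, away from the diagonal. -/
theorem kn_sec {a b Λ R r D : ℝ} (hΛ : 0 < Λ) (hR : 0 < R) (hr : 0 ≤ r) (hD : 4 * D ≤ r)
    (hb : r / 2 - D ≤ |b|) :
    volume {s : ℝ | |s| ≤ 16 * R ∧ |a + s * b| ≤ Λ} ≤
      ENNReal.ofReal (2 * (32 * R) * (8 * Λ) / (8 * Λ + 32 * R * r)) := by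
  have h4 : r / 4 ≤ |b| := by linarith
  have hden : 0 < 8 * Λ + 32 * R * r := by positivity
  rcases le_or_gt (32 * R * r) (8 * Λ) with h | h
  · refine kn_sec1.trans (ENNReal.ofReal_le_ofReal ?_)
    rw [le_div_iff₀ hden]
    nlinarith
  · have hr0 : 0 < r := by
      rcases hr.eq_or_lt with h0 | h0
      · rw [← h0] at h
        linarith
      · exact h0
    have hb0 : 0 < |b| := lt_of_lt_of_le (by positivity) h4
    refine (kn_sec2 (abs_pos.1 hb0)).trans (ENNReal.ofReal_le_ofReal ?_)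
    rw [div_le_div_iff₀ hb0 hden]
    have h1 : 2 * Λ * (8 * Λ + 32 * R * r) ≤ 2 * Λ * (2 * (32 * R * r)) := by
      refine mul_le_mul_of_nonneg_left (by linarith) (by positivity)
    have h2 : 2 * (32 * R) * (8 * Λ) * (r / 4) ≤ 2 * (32 * R) * (8 * Λ) * |b| :=
      mul_le_mul_of_nonneg_left h4 (by positivity)
    nlinarith

theorem kn_log {a b : ℝ} (ha : 0 ≤ a) (hb : 0 < b) :
    ∫⁻ u in Icc (-6 : ℝ) 6, ENNReal.ofReal (2 * a * b / (b + a * |u|)) ≤
      ENNReal.ofReal (4 * b * Real.log (1 + 6 * a / b)) := by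
  have hpos : ∀ u : ℝ, 0 < b + a * |u| := fun u => by positivity
  have hcont : Continuous fun u : ℝ => 2 * a * b / (b + a * |u|) :=
    continuous_const.div (by fun_prop) fun u => (hpos u).ne'
  rw [← ofReal_integral_eq_lintegral_ofReal hcont.integrableOn_Icc
    (Filter.Eventually.of_forall fun u => by
      have := hpos u
      simp only [Pi.zero_apply]
      positivity)]
  refine ENNReal.ofReal_le_ofReal (le_of_eq ?_)
  rw [integral_Icc_eq_integral_Ioc, ← intervalIntegral.integral_of_le (by norm_num)]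
  have hii : ∀ x y : ℝ, IntervalIntegrable (fun u : ℝ => 2 * a * b / (b + a * |u|)) volume x y :=
    fun x y => hcont.intervalIntegrable x y
  rw [← intervalIntegral.integral_add_adjacent_intervals (hii (-6) 0) (hii 0 6)]
  have h1 : ∫ u in (-6 : ℝ)..0, 2 * a * b / (b + a * |u|) =
      (-(2 * b) * Real.log (b - a * 0)) - (-(2 * b) * Real.log (b - a * (-6))) := by
    refine intervalIntegral.integral_eq_sub_of_hasDerivAt
      (f := fun u => -(2 * b) * Real.log (b - a * u)) ?_ (hii _ _)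
    intro u hu
    rw [uIcc_of_le (by norm_num)] at hu
    have hp : 0 < b - a * u := by
      have := mul_nonneg ha (neg_nonneg.2 hu.2)
      linarith
    have e : |u| = -u := abs_of_nonpos hu.2
    have hd : HasDerivAt (fun u : ℝ => b - a * u) (-a) u := by
      simpa using ((hasDerivAt_id u).const_mul a).const_sub b
    refine ((hd.log hp.ne').const_mul (-(2 * b))).congr_deriv ?_
    rw [e]
    have : b + a * -u = b - a * u := by ring
    rw [this]
    ring
  have h2 : ∫ u in (0 : ℝ)..6, 2 * a * b / (b + a * |u|) =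
      (2 * b * Real.log (b + a * 6)) - (2 * b * Real.log (b + a * 0)) := by
    refine intervalIntegral.integral_eq_sub_of_hasDerivAt
      (f := fun u => 2 * b * Real.log (b + a * u)) ?_ (hii _ _)
    intro u hu
    rw [uIcc_of_le (by norm_num)] at hu
    have hp : 0 < b + a * u := by
      have := mul_nonneg ha hu.1
      linarith
    have e : |u| = u := abs_of_nonneg hu.1
    have hd : HasDerivAt (fun u : ℝ => b + a * u) a u := by
      simpa using ((hasDerivAt_id u).const_mul a).const_add b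
    refine ((hd.log hp.ne').const_mul (2 * b)).congr_deriv ?_
    rw [e]
    ring
  rw [h1, h2]
  have e1 : b - a * -6 = b + a * 6 := by ring
  have e2 : 1 + 6 * a / b = (b + a * 6) / b := by
    field_simp
  rw [e1, e2, Real.log_div (by positivity) hb.ne', mul_zero, sub_zero, add_zero]
  ring

/-- The integral over the box. -/
theorem kn_box {a b y y0 ρ : ℝ} (ha : 0 ≤ a) (hb : 0 < b) (hρ : ρ ≤ 3) (hy : |y - y0| ≤ ρ) :
    ∫⁻ y' in {y' : ℝ | |y' - y0| ≤ ρ}, ENNReal.ofReal (2 * a * b / (b + a * |y - y'|)) ≤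
      ENNReal.ofReal (4 * b * Real.log (1 + 6 * a / b)) := by
  refine le_trans ?_ (kn_log ha hb)
  have hS : MeasurableSet {y' : ℝ | |y' - y0| ≤ ρ} := by
    refine measurableSet_le ?_ measurable_const
    exact ((measurable_id.sub_const y0).norm)
  rw [← lintegral_indicator hS, ← lintegral_indicator measurableSet_Icc,
    ← lintegral_sub_right_eq_self ((Icc (-6 : ℝ) 6).indicator
      fun u => ENNReal.ofReal (2 * a * b / (b + a * |u|))) y]
  refine lintegral_mono fun y' => ?_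
  by_cases h : y' ∈ {y' : ℝ | |y' - y0| ≤ ρ}
  · have h' : y' - y ∈ Icc (-6 : ℝ) 6 := by
      rw [mem_Icc, ← abs_le]
      have h1 : |y' - y| ≤ |y' - y0| + |y - y0| := by
        have := abs_sub_le y' y0 y
        rwa [abs_sub_comm y0 y] at this
      have h2 : |y' - y0| ≤ ρ := h
      linarith
    rw [indicator_of_mem h, indicator_of_mem h', abs_sub_comm y y']
  · rw [indicator_of_notMem h]
    exact zero_le

/-- The measure of the pairs. -/
theorem kn_pairs {a b : ℝ → ℝ} {Λ R y y0 ρ D : ℝ}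
    (hR : 1 ≤ R) (hΛ : 1 ≤ Λ) (hρ : ρ ≤ 3) (hD : 0 ≤ D) (hy : |y - y0| ≤ ρ)
    (hb : ∀ y', |y' - y0| ≤ ρ → |y - y'| / 2 - D ≤ |b y'|) :
    ∫⁻ y' in {y' : ℝ | |y' - y0| ≤ ρ},
        volume {s : ℝ | |s| ≤ 16 * R ∧ |a y' + s * b y'| ≤ Λ} ≤
      ENNReal.ofReal (256 * (Λ * (1 + Real.log R) + R * D)) := by
  have hS : MeasurableSet {y' : ℝ | |y' - y0| ≤ ρ} := by
    refine measurableSet_le ?_ measurable_const
    exact ((measurable_id.sub_const y0).norm)
  have hlR : 0 ≤ Real.log R := Real.log_nonneg hR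
  -- pointwise
  have h1 : ∀ y' ∈ {y' : ℝ | |y' - y0| ≤ ρ},
      volume {s : ℝ | |s| ≤ 16 * R ∧ |a y' + s * b y'| ≤ Λ} ≤
        (Icc (y - 4 * D) (y + 4 * D)).indicator (fun _ => ENNReal.ofReal (32 * R)) y' +
          ENNReal.ofReal (2 * (32 * R) * (8 * Λ) / (8 * Λ + 32 * R * |y - y'|)) := by
    intro y' hy'
    by_cases h : y' ∈ Icc (y - 4 * D) (y + 4 * D)
    · rw [indicator_of_mem h]
      exact kn_sec1.trans le_self_add
    · rw [indicator_of_notMem h, zero_add]
      refine kn_sec (by linarith) (by linarith) (abs_nonneg _) ?_ (hb y' hy')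
      by_contra hc
      refine h ?_
      have h2 : |y - y'| ≤ 4 * D := by linarith
      rw [abs_le] at h2
      constructor <;> linarith [h2.1, h2.2]
  refine (setLIntegral_mono' hS h1).trans ?_
  rw [lintegral_add_left (measurable_const.indicator measurableSet_Icc)]
  have h3 : ∫⁻ y' in {y' : ℝ | |y' - y0| ≤ ρ},
      (Icc (y - 4 * D) (y + 4 * D)).indicator (fun _ => ENNReal.ofReal (32 * R)) y' ≤
        ENNReal.ofReal (256 * (R * D)) := by
    refine (setLIntegral_le_lintegral _ _).trans ?_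
    rw [lintegral_indicator_const measurableSet_Icc, Real.volume_Icc,
      ← ENNReal.ofReal_mul (by positivity)]
    refine ENNReal.ofReal_le_ofReal (le_of_eq ?_)
    ring
  have h4 := kn_box (a := 32 * R) (b := 8 * Λ) (y := y) (y0 := y0) (ρ := ρ) (by positivity)
    (by positivity) hρ hy
  have h5 : 4 * (8 * Λ) * Real.log (1 + 6 * (32 * R) / (8 * Λ)) ≤ 256 * (Λ * (1 + Real.log R)) := by
    have e1 : 1 + 6 * (32 * R) / (8 * Λ) ≤ 25 * R := by
      have : 6 * (32 * R) / (8 * Λ) ≤ 24 * R := by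
        rw [div_le_iff₀ (by positivity)]
        nlinarith
      linarith
    have e2 : Real.log (1 + 6 * (32 * R) / (8 * Λ)) ≤ Real.log (25 * R) :=
      Real.log_le_log (by positivity) e1
    have e3 : Real.log (25 * R) = Real.log 25 + Real.log R :=
      Real.log_mul (by norm_num) (by positivity)
    have e4 : Real.log 25 ≤ 4 := by
      have h25 : (25 : ℝ) ≤ Real.exp 4 := by
        have h1 : (1 + 1 : ℝ) ≤ Real.exp 1 := Real.add_one_le_exp 1 |>.trans' (by norm_num)
        have h2 : Real.exp 4 = Real.exp 1 ^ 4 := by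
          rw [← Real.exp_nat_mul]
          norm_num
        have h3 : (2.7 : ℝ) < Real.exp 1 := by
          have := Real.exp_one_gt_d9
          linarith
        rw [h2]
        have h4 : (2.7 : ℝ) ^ 4 ≤ Real.exp 1 ^ 4 := by
          gcongr
        refine le_trans (by norm_num) h4
      calc Real.log 25 ≤ Real.log (Real.exp 4) := Real.log_le_log (by norm_num) h25
        _ = 4 := Real.log_exp 4
    have e5 : Real.log (1 + 6 * (32 * R) / (8 * Λ)) ≤ 4 * (1 + Real.log R) := by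
      rw [e3] at e2
      linarith
    have e6 := mul_le_mul_of_nonneg_left e5 (show (0 : ℝ) ≤ 4 * (8 * Λ) by positivity)
    refine e6.trans ?_
    have : 0 ≤ Λ * (1 + Real.log R) := by positivity
    nlinarith
  refine (add_le_add h3 (h4.trans (ENNReal.ofReal_le_ofReal h5))).trans (le_of_eq ?_)
  rw [← ENNReal.ofReal_add (by positivity) (by positivity)]
  congr 1
  ring

theorem kn_meas_AA {α β t : ℝ} : Measurable fun y => AA α β t y := by
  unfold AA rr
  fun_prop

theorem kn_meas_HH {α β d t : ℝ} : Measurable fun y => HH α β d t y := by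
  unfold HH ss
  fun_prop

theorem kn_meas_U {Y : Type*} [MeasurableSpace Y] {α β d t : ℝ} {f1 f2 f3 g : Y → ℝ}
    (h1 : Measurable f1) (h2 : Measurable f2) (h3 : Measurable f3) (hg : Measurable g) :
    Measurable fun x => Uw α β d (f1 x) (f2 x) (f3 x) t (g x) := by
  have e1 : Measurable fun x => AA α β t (g x) := kn_meas_AA.comp hg
  have e2 : Measurable fun x => HH α β d t (g x) := kn_meas_HH.comp hg
  unfold Uw Lw
  fun_prop

/-- ROW KN, over the statement of row SL. -/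
theorem row_KN_of {α β : ℝ} (hα : α ≠ 0) (hrow : ∃ C c1 : ℝ, 0 < C ∧ 0 < c1 ∧
    ∀ c0, 0 < c0 → c0 ≤ c1 →
    ∀ d, 0 ≤ d → d ≤ 1 → ∀ t0 y0, Rs α β d t0 y0 → y0 ≠ 0 → ∀ t y t' y', Bx c0 t0 y0 t y →
      Bx c0 t0 y0 t' y' →
      |y - y'| / 2 - C * |y0| * |t - t'| ≤ |Ny α β d t y t' y'| ∧
        |Ny α β d t y t' y'| ≤ C * nn t y t' y' ∧ |Nt α β d t y t' y'| ≤ C * nn t y t' y') :
    ∃ C c1 : ℝ, 0 < C ∧ 0 < c1 ∧
    ∀ c0, 0 < c0 → c0 ≤ c1 → ∀ d, 0 ≤ d → d ≤ 1 → ∀ t0 y0, Rs α β d t0 y0 →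
      y0 ≠ 0 → ∀ R Λ, 1 ≤ R → √R ≤ Λ → ∀ t y t', Bx c0 t0 y0 t y →
      |t' - t0| ≤ c0 → ∀ x1 x2 : ℝ,
      ∫⁻ s : ℝ, ∫⁻ y' : ℝ, ({y' | |y' - y0| ≤ c0 * |y0| ∧
          WA R (x1 + s * AA α β t y) (x2 + s * y) (-(s * HH α β d t y)) ∧
          |Uw α β d (x1 + s * AA α β t y) (x2 + s * y) (-(s * HH α β d t y)) t' y'| ≤
            Λ}.indicator fun _ => (1 : ℝ≥0∞)) y' ≤
        ENNReal.ofReal (C * (Λ * (1 + Real.log R) + R * |y0| * |t - t'|)) := by
  obtain ⟨C0, c1, hC0, hc1, hSL⟩ := hrow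
  obtain ⟨c2, hc2, hc28, hbox⟩ := box_sub (β := β) hα
  refine ⟨256 * (1 + C0), min c1 c2, by positivity, lt_min hc1 hc2, ?_⟩
  intro c0 hc0 hc0' d hd0 hd1 t0 y0 hRs hy0 R Λ hR hΛ t y t' hB ht' x1 x2
  have hc01 : c0 ≤ c1 := hc0'.trans (min_le_left _ _)
  have hc02 : c0 ≤ c2 := hc0'.trans (min_le_right _ _)
  have hB2 : Bx c2 t0 y0 t y := ⟨hB.1.trans hc02,
    hB.2.trans (mul_le_mul_of_nonneg_right hc02 (abs_nonneg _))⟩
  have hRg := hbox d hd0 hd1 t0 y0 t y hRs hB2
  have hH : 1 / 4 ≤ HH α β d t y := by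
    unfold HH
    refine Real.le_sqrt_of_sq_le ?_
    have := hRg.2.2.2
    linarith
  have hΛ1 : 1 ≤ Λ := (Real.one_le_sqrt.2 hR).trans hΛ
  have hy02 : |y0| ≤ 2 := hRs.1
  have hρ : c0 * |y0| ≤ 3 := by nlinarith [abs_nonneg y0]
  -- the two functions of `y'`
  set a : ℝ → ℝ := fun y' => Uw α β d x1 x2 0 t' y' with ha
  set b : ℝ → ℝ := fun y' => Ny α β d t y t' y' with hb
  have hlin : ∀ s y', Uw α β d (x1 + s * AA α β t y) (x2 + s * y) (-(s * HH α β d t y)) t' y' =
      a y' + s * b y' := by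
    intro s y'
    simp only [ha, hb]
    unfold Ny Uw Lw
    ring
  -- the set of pairs
  set S : Set (ℝ × ℝ) := {x | |x.2 - y0| ≤ c0 * |y0| ∧
    WA R (x1 + x.1 * AA α β t y) (x2 + x.1 * y) (-(x.1 * HH α β d t y)) ∧
    |Uw α β d (x1 + x.1 * AA α β t y) (x2 + x.1 * y) (-(x.1 * HH α β d t y)) t' x.2| ≤ Λ} with hSdef
  have hSm : MeasurableSet S := by
    have h1 : MeasurableSet {x : ℝ × ℝ | |x.2 - y0| ≤ c0 * |y0|} :=
      measurableSet_le (by fun_prop) measurable_const
    have h2 : MeasurableSet {x : ℝ × ℝ |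
        WA R (x1 + x.1 * AA α β t y) (x2 + x.1 * y) (-(x.1 * HH α β d t y))} := by
      unfold WA
      refine MeasurableSet.inter
        (s₁ := {x : ℝ × ℝ | R ^ 2 / 4 ≤ (x1 + x.1 * AA α β t y) ^ 2 + (x2 + x.1 * y) ^ 2 +
          (-(x.1 * HH α β d t y)) ^ 2})
        (s₂ := {x : ℝ × ℝ | (x1 + x.1 * AA α β t y) ^ 2 + (x2 + x.1 * y) ^ 2 +
          (-(x.1 * HH α β d t y)) ^ 2 ≤ 16 * R ^ 2}) ?_ ?_
      · exact measurableSet_le (by fun_prop) (by fun_prop)
      · exact measurableSet_le (by fun_prop) (by fun_prop)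
    have h3 : MeasurableSet {x : ℝ × ℝ |
        |Uw α β d (x1 + x.1 * AA α β t y) (x2 + x.1 * y) (-(x.1 * HH α β d t y)) t' x.2| ≤ Λ} := by
      refine measurableSet_le ?_ measurable_const
      exact (kn_meas_U (by fun_prop) (by fun_prop) (by fun_prop) measurable_snd).norm
    exact h1.inter (h2.inter h3)
  have h1 : ∫⁻ s : ℝ, ∫⁻ y' : ℝ, ({y' | |y' - y0| ≤ c0 * |y0| ∧
          WA R (x1 + s * AA α β t y) (x2 + s * y) (-(s * HH α β d t y)) ∧
          |Uw α β d (x1 + s * AA α β t y) (x2 + s * y) (-(s * HH α β d t y)) t' y'| ≤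
            Λ}.indicator fun _ => (1 : ℝ≥0∞)) y' =
      ∫⁻ s : ℝ, ∫⁻ y' : ℝ, (S.indicator fun _ => (1 : ℝ≥0∞)) (s, y') := rfl
  have hAE : AEMeasurable (Function.uncurry fun s y' : ℝ => (S.indicator fun _ => (1 : ℝ≥0∞)) (s, y'))
      (volume.prod volume) := (measurable_const.indicator hSm).aemeasurable
  rw [h1, lintegral_lintegral_swap hAE]
  -- sections
  have hSx : MeasurableSet {y' : ℝ | |y' - y0| ≤ c0 * |y0|} := by
    refine measurableSet_le ?_ measurable_const
    exact ((measurable_id.sub_const y0).norm)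
  have h2 : ∫⁻ y' : ℝ, ∫⁻ s : ℝ, (S.indicator fun _ => (1 : ℝ≥0∞)) (s, y') ≤
      ∫⁻ y' in {y' : ℝ | |y' - y0| ≤ c0 * |y0|},
        volume {s : ℝ | |s| ≤ 16 * R ∧ |a y' + s * b y'| ≤ Λ} := by
    rw [← lintegral_indicator hSx]
    refine lintegral_mono fun y' => ?_
    by_cases h : y' ∈ {y' : ℝ | |y' - y0| ≤ c0 * |y0|}
    · rw [indicator_of_mem h]
      have hT : MeasurableSet {s : ℝ | |s| ≤ 16 * R ∧ |a y' + s * b y'| ≤ Λ} :=
        (measurableSet_le measurable_norm measurable_const).inter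
          (measurableSet_le (((measurable_id.mul_const (b y')).const_add (a y')).norm)
            measurable_const)
      rw [← lintegral_indicator_one hT]
      refine lintegral_mono fun s => ?_
      by_cases hs : (s, y') ∈ S
      · have hs2 : s ∈ {s : ℝ | |s| ≤ 16 * R ∧ |a y' + s * b y'| ≤ Λ} := by
          refine ⟨?_, ?_⟩
          · have h3 := hs.2.1.2
            simp only at h3
            have h4 : (s * HH α β d t y) ^ 2 ≤ (4 * R) ^ 2 := by
              nlinarith [sq_nonneg (x1 + s * AA α β t y), sq_nonneg (x2 + s * y)]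
            have h6 : |s * HH α β d t y| ≤ 4 * R := abs_le_of_sq_le_sq h4 (by positivity)
            rw [abs_mul, abs_of_pos (show 0 < HH α β d t y by linarith)] at h6
            have h7 := mul_le_mul_of_nonneg_left hH (abs_nonneg s)
            linarith
          · have h3 := hs.2.2
            simp only at h3
            rwa [hlin] at h3
        rw [indicator_of_mem hs, indicator_of_mem hs2]
        exact le_rfl
      · rw [indicator_of_notMem hs]
        exact zero_le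
    · rw [indicator_of_notMem h]
      refine le_of_eq ?_
      rw [lintegral_eq_zero_iff' ?_]
      · refine Filter.Eventually.of_forall fun s => ?_
        exact indicator_of_notMem (fun hs => h hs.1) _
      · exact ((measurable_const.indicator hSm).comp (measurable_id.prodMk
          measurable_const)).aemeasurable
  refine h2.trans ?_
  have hD : ∀ y', |y' - y0| ≤ c0 * |y0| → |y - y'| / 2 - C0 * |y0| * |t - t'| ≤ |b y'| := by
    intro y' hy'
    exact (hSL c0 hc0 hc01 d hd0 hd1 t0 y0 hRs hy0 t y t' y' hB ⟨ht', hy'⟩).1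
  refine (kn_pairs hR hΛ1 hρ (by positivity) hB.2 hD).trans
    (ENNReal.ofReal_le_ofReal ?_)
  have hlR : 0 ≤ Real.log R := Real.log_nonneg hR
  have e1 : 0 ≤ Λ * (1 + Real.log R) := by positivity
  have e2 : 0 ≤ R * |y0| * |t - t'| := by positivity
  nlinarith [mul_nonneg hC0.le e1]

/-- ROW KN: the inner measure. -/
theorem row_KN {α β : ℝ} (hα : α ≠ 0) : ∃ C c1 : ℝ, 0 < C ∧ 0 < c1 ∧
    ∀ c0, 0 < c0 → c0 ≤ c1 → ∀ d, 0 ≤ d → d ≤ 1 → ∀ t0 y0, Rs α β d t0 y0 →
      y0 ≠ 0 → ∀ R Λ, 1 ≤ R → √R ≤ Λ → ∀ t y t', Bx c0 t0 y0 t y →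
      |t' - t0| ≤ c0 → ∀ x1 x2 : ℝ,
      ∫⁻ s : ℝ, ∫⁻ y' : ℝ, ({y' | |y' - y0| ≤ c0 * |y0| ∧
          WA R (x1 + s * AA α β t y) (x2 + s * y) (-(s * HH α β d t y)) ∧
          |Uw α β d (x1 + s * AA α β t y) (x2 + s * y) (-(s * HH α β d t y)) t' y'| ≤
            Λ}.indicator fun _ => (1 : ℝ≥0∞)) y' ≤
        ENNReal.ofReal (C * (Λ * (1 + Real.log R) + R * |y0| * |t - t'|)) :=
  row_KN_of hα (row_SL hα)

end Pool.Agent.LQ
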