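import Pool.Agent.LF.KS
import Pool.Agent.LQ.EXPL
import Pool.Agent.LQ.KF
import Pool.Agent.LQ.KN

/-!
LEAFQ: the square of the sum over the intervals (row KQ).
-/

set_option autoImplicit false

namespace Pool.Agent.LQ

open MeasureTheory Set
open scoped ENNReal

/-- Scaling of a line. -/
theorem kq_scale {a : ℝ} (ha : a ≠ 0) {f : ℝ → ℝ≥0∞} (hf : Measurable f) :
    ∫⁻ x, f x = ENNReal.ofReal |a| * ∫⁻ x, f (a * x) := by
  have h1 := Real.smul_map_volume_mul_left ha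
  calc ∫⁻ x, f x = ∫⁻ x, f x ∂(ENNReal.ofReal |a| • Measure.map (a * ·) volume) := by rw [h1]
    _ = ENNReal.ofReal |a| * ∫⁻ x, f x ∂(Measure.map (a * ·) volume) := by
        rw [lintegral_smul_measure, smul_eq_mul]
    _ = ENNReal.ofReal |a| * ∫⁻ x, f (a * x) := by
        rw [lintegral_map hf (measurable_const_mul a)]

/-- The shear coordinates. -/
theorem kq_shear (A y H : ℝ) (hH : H ≠ 0) {f : ℝ × ℝ × ℝ → ℝ≥0∞} (hf : Measurable f) :
    ∫⁻ w, f w = ENNReal.ofReal |H| *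
      ∫⁻ x1 : ℝ, ∫⁻ x2 : ℝ, ∫⁻ s : ℝ, f (x1 + s * A, x2 + s * y, -(s * H)) := by
  -- iterated
  have m1 : ∀ w1 : ℝ, Measurable fun v : ℝ × ℝ => f (w1, v) := fun w1 =>
    hf.comp measurable_prodMk_left
  have e1 : ∫⁻ w, f w = ∫⁻ w1 : ℝ, ∫⁻ w2 : ℝ, ∫⁻ w3 : ℝ, f (w1, w2, w3) := by
    rw [Measure.volume_eq_prod, lintegral_prod _ hf.aemeasurable]
    refine lintegral_congr fun w1 => ?_
    rw [Measure.volume_eq_prod, lintegral_prod _ (m1 w1).aemeasurable]
  -- the third variable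
  have e2 : ∀ w1 w2 : ℝ, ∫⁻ w3 : ℝ, f (w1, w2, w3) =
      ENNReal.ofReal |H| * ∫⁻ s : ℝ, f (w1, w2, -(s * H)) := by
    intro w1 w2
    have h1 := kq_scale (a := -H) (neg_ne_zero.2 hH) (f := fun w3 => f (w1, w2, w3))
      (hf.comp (by fun_prop : Measurable fun w3 : ℝ => (w1, w2, w3)))
    rw [h1, abs_neg]
    congr 1
    refine lintegral_congr fun s => ?_
    congr 3
    ring
  have m3 : Measurable fun q : (ℝ × ℝ) × ℝ => f (q.1.1, q.1.2, -(q.2 * H)) :=
    hf.comp (by fun_prop)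
  have m3' : Measurable fun q : (ℝ × ℝ) × ℝ => f (q.1.1, q.2, -(q.1.2 * H)) :=
    hf.comp (by fun_prop)
  have e3 : ∫⁻ w, f w = ENNReal.ofReal |H| *
      ∫⁻ w1 : ℝ, ∫⁻ w2 : ℝ, ∫⁻ s : ℝ, f (w1, w2, -(s * H)) := by
    rw [e1]
    simp only [e2]
    have n1 : Measurable fun q : ℝ × ℝ => ∫⁻ s : ℝ, f (q.1, q.2, -(s * H)) :=
      m3.lintegral_prod_right'
    rw [← lintegral_const_mul _ n1.lintegral_prod_right']
    refine lintegral_congr fun w1 => ?_
    exact lintegral_const_mul _ (n1.comp (measurable_prodMk_left (x := w1)))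
  -- swap
  have e4 : ∫⁻ w1 : ℝ, ∫⁻ w2 : ℝ, ∫⁻ s : ℝ, f (w1, w2, -(s * H)) =
      ∫⁻ s : ℝ, ∫⁻ w1 : ℝ, ∫⁻ w2 : ℝ, f (w1, w2, -(s * H)) := by
    have a1 : ∀ w1 : ℝ, ∫⁻ w2 : ℝ, ∫⁻ s : ℝ, f (w1, w2, -(s * H)) =
        ∫⁻ s : ℝ, ∫⁻ w2 : ℝ, f (w1, w2, -(s * H)) := by
      intro w1
      refine lintegral_lintegral_swap (Measurable.aemeasurable ?_)
      exact hf.comp (by fun_prop : Measurable fun q : ℝ × ℝ => (w1, q.1, -(q.2 * H)))
    simp only [a1]
    refine lintegral_lintegral_swap (Measurable.aemeasurable ?_)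
    exact m3'.lintegral_prod_right'
  -- shift
  have e5 : ∀ s : ℝ, ∫⁻ w1 : ℝ, ∫⁻ w2 : ℝ, f (w1, w2, -(s * H)) =
      ∫⁻ x1 : ℝ, ∫⁻ x2 : ℝ, f (x1 + s * A, x2 + s * y, -(s * H)) := by
    intro s
    rw [← lintegral_add_right_eq_self (fun w1 => ∫⁻ w2 : ℝ, f (w1, w2, -(s * H))) (s * A)]
    refine lintegral_congr fun x1 => ?_
    rw [← lintegral_add_right_eq_self (fun w2 => f (x1 + s * A, w2, -(s * H))) (s * y)]
  -- swap back
  have e6 : ∫⁻ s : ℝ, ∫⁻ x1 : ℝ, ∫⁻ x2 : ℝ, f (x1 + s * A, x2 + s * y, -(s * H)) =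
      ∫⁻ x1 : ℝ, ∫⁻ x2 : ℝ, ∫⁻ s : ℝ, f (x1 + s * A, x2 + s * y, -(s * H)) := by
    have b0 : Measurable fun q : (ℝ × ℝ) × ℝ => f (q.1.2 + q.1.1 * A, q.2 + q.1.1 * y,
        -(q.1.1 * H)) := hf.comp (by fun_prop)
    rw [lintegral_lintegral_swap (Measurable.aemeasurable b0.lintegral_prod_right')]
    refine lintegral_congr fun x1 => ?_
    refine lintegral_lintegral_swap (Measurable.aemeasurable ?_)
    exact hf.comp (by fun_prop : Measurable fun q : ℝ × ℝ =>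
      (x1 + q.1 * A, q.2 + q.1 * y, -(q.1 * H)))
  rw [e3, e4]
  simp only [e5]
  rw [e6]

/-- The integrand of one interval. -/
noncomputable def kF (α β d Λ t : ℝ) (g : ℝ → ℝ≥0∞) (w : ℝ × ℝ × ℝ) (y : ℝ) : ℝ≥0∞ :=
  ({y | |Uw α β d w.1 w.2.1 w.2.2 t y| ≤ Λ}.indicator
    fun y => g (Tw α β d w.1 w.2.2 t y)) y

theorem kq_mA (α β t : ℝ) : Measurable fun y : ℝ => AA α β t y := by
  unfold AA rr
  fun_prop

theorem kq_mH (α β d t : ℝ) : Measurable fun y : ℝ => HH α β d t y := by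
  unfold HH ss
  fun_prop

theorem kq_mU (α β d t : ℝ) : Measurable fun x : (ℝ × ℝ × ℝ) × ℝ =>
    Uw α β d x.1.1 x.1.2.1 x.1.2.2 t x.2 := by
  have h1 := (kq_mA α β t).comp (measurable_snd : Measurable (Prod.snd : (ℝ × ℝ × ℝ) × ℝ → ℝ))
  have h2 := (kq_mH α β d t).comp (measurable_snd : Measurable (Prod.snd : (ℝ × ℝ × ℝ) × ℝ → ℝ))
  unfold Uw Lw
  simp only [Function.comp_def] at h1 h2
  fun_prop

theorem kq_mT (α β d t : ℝ) : Measurable fun x : (ℝ × ℝ × ℝ) × ℝ =>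
    Tw α β d x.1.1 x.1.2.2 t x.2 := by
  have h1 := (kq_mA α β t).comp (measurable_snd : Measurable (Prod.snd : (ℝ × ℝ × ℝ) × ℝ → ℝ))
  have h2 := (kq_mH α β d t).comp (measurable_snd : Measurable (Prod.snd : (ℝ × ℝ × ℝ) × ℝ → ℝ))
  unfold Tw
  simp only [Function.comp_def] at h1 h2
  fun_prop

theorem kF_meas (α β d Λ t : ℝ) {g : ℝ → ℝ≥0∞} (hg : Measurable g) :
    Measurable fun x : (ℝ × ℝ × ℝ) × ℝ => kF α β d Λ t g x.1 x.2 := by
  have h1 : MeasurableSet {x : (ℝ × ℝ × ℝ) × ℝ | |Uw α β d x.1.1 x.1.2.1 x.1.2.2 t x.2| ≤ Λ} :=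
    measurableSet_le (kq_mU α β d t).abs measurable_const
  have h2 := (hg.comp (kq_mT α β d t)).indicator h1
  exact h2

theorem measurableSet_WA (R : ℝ) : MeasurableSet {w : ℝ × ℝ × ℝ | WA R w.1 w.2.1 w.2.2} := by
  have h1 : Measurable fun w : ℝ × ℝ × ℝ => w.1 ^ 2 + w.2.1 ^ 2 + w.2.2 ^ 2 := by fun_prop
  unfold WA
  exact (measurableSet_le measurable_const h1).inter (measurableSet_le h1 measurable_const)

theorem kq_T {α β d t y : ℝ} (hA : AA α β t y ≠ 0) (hH : HH α β d t y ≠ 0) (x1 s : ℝ) :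
    Tw α β d (x1 + s * AA α β t y) (-(s * HH α β d t y)) t y = (1 / (2 * α * AA α β t y)) * x1 := by
  unfold Tw
  set A := AA α β t y
  set H := HH α β d t y
  by_cases hα : α = 0
  · simp [hα]
  field_simp
  ring

theorem kq_U {α β d t y : ℝ} (hα : α ≠ 0) (hA : AA α β t y ≠ 0) (hH : HH α β d t y ≠ 0)
    (x1 x2 s : ℝ) :
    Uw α β d (x1 + s * AA α β t y) (x2 + s * y) (-(s * HH α β d t y)) t y =
      x2 - β * y / (α * AA α β t y) * x1 := by
  unfold Uw Lw
  set A := AA α β t y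
  set H := HH α β d t y
  field_simp
  ring

/-- Two intervals: if the inner integral is at most `I`. -/
theorem kq_pair {α β d y0 c0 R Λ t t' : ℝ} (hα : α ≠ 0) (hΛ : 0 ≤ Λ)
    (hrg : ∀ y, |y - y0| ≤ c0 * |y0| → Rg α β d t y) {g g' : ℝ → ℝ≥0∞} (hg : Measurable g)
    (hg' : Measurable g') (I : ℝ≥0∞)
    (hI : ∀ y, |y - y0| ≤ c0 * |y0| → ∀ x1 x2 : ℝ,
      |x2 - β * y / (α * AA α β t y) * x1| ≤ Λ →
      ∫⁻ s : ℝ, ∫⁻ y' : ℝ, ({y' | |y' - y0| ≤ c0 * |y0| ∧
          WA R (x1 + s * AA α β t y) (x2 + s * y) (-(s * HH α β d t y)) ∧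
          |Uw α β d (x1 + s * AA α β t y) (x2 + s * y) (-(s * HH α β d t y)) t' y'| ≤
            Λ}.indicator
          fun y' => g' (Tw α β d (x1 + s * AA α β t y) (-(s * HH α β d t y)) t' y')) y' ≤ I) :
    ∫⁻ w in {w : ℝ × ℝ × ℝ | WA R w.1 w.2.1 w.2.2}, ∫⁻ y in {y : ℝ | |y - y0| ≤ c0 * |y0|},
      ∫⁻ y' in {y : ℝ | |y - y0| ≤ c0 * |y0|}, kF α β d Λ t g w y * kF α β d Λ t' g' w y' ≤
      ENNReal.ofReal (24 * |α| * (c0 * |y0|) * Λ) * (∫⁻ τ, g τ) * I := by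
  classical
  set Y : Set ℝ := {y : ℝ | |y - y0| ≤ c0 * |y0|} with hY
  have mY : MeasurableSet Y := measurableSet_le (by fun_prop) measurable_const
  set W : Set (ℝ × ℝ × ℝ) := {w : ℝ × ℝ × ℝ | WA R w.1 w.2.1 w.2.2} with hW
  have mW : MeasurableSet W := measurableSet_WA R
  have m1 := kF_meas α β d Λ t hg
  have m2 := kF_meas α β d Λ t' hg'
  -- the inner function
  set K : ℝ × ℝ × ℝ → ℝ≥0∞ := fun w => ∫⁻ y' in Y, kF α β d Λ t' g' w y' with hK
  have mK : Measurable K := m2.lintegral_prod_right'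
  have mm : Measurable fun x : (ℝ × ℝ × ℝ) × ℝ => kF α β d Λ t g x.1 x.2 * K x.1 :=
    m1.mul (mK.comp measurable_fst)
  have e1 : ∀ w y, ∫⁻ y' in Y, kF α β d Λ t g w y * kF α β d Λ t' g' w y' =
      kF α β d Λ t g w y * K w := by
    intro w y
    exact lintegral_const_mul _ (m2.comp (measurable_prodMk_left (x := w)))
  simp only [e1]
  have e2 : ∫⁻ w in W, ∫⁻ y in Y, kF α β d Λ t g w y * K w =
      ∫⁻ y in Y, ∫⁻ w in W, kF α β d Λ t g w y * K w := by
    exact lintegral_lintegral_swap mm.aemeasurable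
  rw [e2]
  -- the length of `Y`
  have vY : volume Y ≤ ENNReal.ofReal (2 * (c0 * |y0|)) := by
    have : Y = Icc (y0 - c0 * |y0|) (y0 + c0 * |y0|) := by
      ext y
      rw [hY, mem_ofPred_eq, abs_le, mem_Icc]
      constructor <;> rintro ⟨h1, h2⟩ <;> constructor <;> linarith
    rw [this, Real.volume_Icc]
    refine ENNReal.ofReal_le_ofReal (le_of_eq ?_)
    ring
  -- one `y`
  have key : ∀ y ∈ Y, ∫⁻ w in W, kF α β d Λ t g w y * K w ≤
      ENNReal.ofReal (12 * |α| * Λ) * (∫⁻ τ, g τ) * I := by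
    intro y hy
    have rg := hrg y hy
    have hA := rg.A_pos
    have hH := rg.H_pos
    set A := AA α β t y with hAdef
    set H := HH α β d t y with hHdef
    have mf : Measurable (W.indicator fun w => kF α β d Λ t g w y * K w) :=
      ((m1.comp (measurable_prodMk_right (y := y))).mul mK).indicator mW
    rw [← lintegral_indicator mW, kq_shear A y H hH.ne' mf]
    -- the inner integral
    have h1 : ∀ x1 x2 : ℝ, ∫⁻ s : ℝ, (W.indicator fun w => kF α β d Λ t g w y * K w)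
        (x1 + s * A, x2 + s * y, -(s * H)) ≤
        ({x2 | |x2 - β * y / (α * A) * x1| ≤ Λ}.indicator
          (fun _ => g ((1 / (2 * α * A)) * x1) * I)) x2 := by
      intro x1 x2
      by_cases hx : |x2 - β * y / (α * A) * x1| ≤ Λ
      · rw [indicator_of_mem (show x2 ∈ {x2 | |x2 - β * y / (α * A) * x1| ≤ Λ} from hx)]
        have h2 : ∀ s : ℝ, (W.indicator fun w => kF α β d Λ t g w y * K w)
            (x1 + s * A, x2 + s * y, -(s * H)) = g ((1 / (2 * α * A)) * x1) *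
            (W.indicator K) (x1 + s * A, x2 + s * y, -(s * H)) := by
          intro s
          by_cases hs : WA R (x1 + s * A) (x2 + s * y) (-(s * H))
          · rw [indicator_of_mem (show (x1 + s * A, x2 + s * y, -(s * H)) ∈ W from hs),
              indicator_of_mem (show (x1 + s * A, x2 + s * y, -(s * H)) ∈ W from hs)]
            have h3 : kF α β d Λ t g (x1 + s * A, x2 + s * y, -(s * H)) y =
                g ((1 / (2 * α * A)) * x1) := by
              unfold kF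
              rw [indicator_of_mem]
              · simp only
                rw [kq_T hA.ne' hH.ne']
              · simp only [mem_ofPred_eq]
                rw [kq_U hα hA.ne' hH.ne']
                exact hx
            simp only [h3]
          · rw [indicator_of_notMem (show (x1 + s * A, x2 + s * y, -(s * H)) ∉ W from hs),
              indicator_of_notMem (show (x1 + s * A, x2 + s * y, -(s * H)) ∉ W from hs), mul_zero]
        have h5 : ∀ s : ℝ, (W.indicator K) (x1 + s * A, x2 + s * y, -(s * H)) =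
            ∫⁻ y' : ℝ, ({y' | |y' - y0| ≤ c0 * |y0| ∧
              WA R (x1 + s * A) (x2 + s * y) (-(s * H)) ∧
              |Uw α β d (x1 + s * A) (x2 + s * y) (-(s * H)) t' y'| ≤ Λ}.indicator
              fun y' => g' (Tw α β d (x1 + s * A) (-(s * H)) t' y')) y' := by
          intro s
          by_cases hs : WA R (x1 + s * A) (x2 + s * y) (-(s * H))
          · rw [indicator_of_mem (show (x1 + s * A, x2 + s * y, -(s * H)) ∈ W from hs), hK]
            simp only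
            rw [← lintegral_indicator mY]
            refine lintegral_congr fun y' => ?_
            by_cases hy' : y' ∈ Y
            · rw [indicator_of_mem hy']
              unfold kF
              by_cases hu : |Uw α β d (x1 + s * A) (x2 + s * y) (-(s * H)) t' y'| ≤ Λ
              · rw [indicator_of_mem (show y' ∈ {z | |Uw α β d (x1 + s * A) (x2 + s * y)
                  (-(s * H)) t' z| ≤ Λ} from hu), indicator_of_mem]
                exact ⟨hy', hs, hu⟩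
              · rw [indicator_of_notMem (show y' ∉ {z | |Uw α β d (x1 + s * A) (x2 + s * y)
                  (-(s * H)) t' z| ≤ Λ} from hu), indicator_of_notMem]
                exact fun h => hu h.2.2
            · rw [indicator_of_notMem hy', indicator_of_notMem]
              exact fun h => hy' h.1
          · rw [indicator_of_notMem (show (x1 + s * A, x2 + s * y, -(s * H)) ∉ W from hs)]
            have h4 : ∀ y', ({y' | |y' - y0| ≤ c0 * |y0| ∧
              WA R (x1 + s * A) (x2 + s * y) (-(s * H)) ∧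
              |Uw α β d (x1 + s * A) (x2 + s * y) (-(s * H)) t' y'| ≤ Λ}.indicator
              fun y' => g' (Tw α β d (x1 + s * A) (-(s * H)) t' y')) y' = 0 := fun y' =>
              indicator_of_notMem (fun h => hs h.2.1) _
            simp only [h4, lintegral_zero]
        simp only [h2]
        have mKs : Measurable fun s : ℝ => (W.indicator K) (x1 + s * A, x2 + s * y, -(s * H)) :=
          (mK.indicator mW).comp (by fun_prop)
        rw [lintegral_const_mul _ mKs]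
        refine mul_le_mul_right ?_ _
        simp only [h5]
        exact hI y hy x1 x2 hx
      · rw [indicator_of_notMem (show x2 ∉ {x2 | |x2 - β * y / (α * A) * x1| ≤ Λ} from hx)]
        have h3 : ∀ s : ℝ, (W.indicator fun w => kF α β d Λ t g w y * K w)
            (x1 + s * A, x2 + s * y, -(s * H)) = 0 := by
          intro s
          have h4 : kF α β d Λ t g (x1 + s * A, x2 + s * y, -(s * H)) y = 0 := by
            unfold kF
            refine indicator_of_notMem ?_ _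
            simp only [mem_ofPred_eq]
            rw [kq_U hα hA.ne' hH.ne']
            exact hx
          simp only [indicator, h4, zero_mul, ite_self]
        simp only [h3, lintegral_zero, le_refl]
    have ha : 2 * α * A ≠ 0 := mul_ne_zero (mul_ne_zero two_ne_zero hα) hA.ne'
    -- the integral in `x2`
    have h2 : ∀ x1 : ℝ, ∫⁻ x2 : ℝ, ({x2 | |x2 - β * y / (α * A) * x1| ≤ Λ}.indicator
          (fun _ => g ((1 / (2 * α * A)) * x1) * I)) x2 =
        g ((1 / (2 * α * A)) * x1) * I * ENNReal.ofReal (2 * Λ) := by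
      intro x1
      have e3 : {x2 | |x2 - β * y / (α * A) * x1| ≤ Λ} =
          Icc (β * y / (α * A) * x1 - Λ) (β * y / (α * A) * x1 + Λ) := by
        ext x2
        rw [mem_ofPred_eq, abs_le, mem_Icc]
        constructor <;> rintro ⟨h1, h2⟩ <;> constructor <;> linarith
      rw [e3, lintegral_indicator_const measurableSet_Icc, Real.volume_Icc]
      congr 2
      ring
    -- the integral in `x1`
    have mg : Measurable fun x1 : ℝ => g ((1 / (2 * α * A)) * x1) :=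
      hg.comp (measurable_const_mul _)
    have h3 : ∫⁻ x1 : ℝ, g ((1 / (2 * α * A)) * x1) = ENNReal.ofReal |2 * α * A| * ∫⁻ τ, g τ := by
      rw [kq_scale ha mg]
      congr 1
      refine lintegral_congr fun x => ?_
      congr 1
      rw [← mul_assoc, one_div, inv_mul_cancel₀ ha, one_mul]
    have h4 : |H| * |2 * α * A| * (2 * Λ) ≤ 12 * |α| * Λ := by
      rw [abs_of_pos hH, abs_mul, abs_mul, abs_of_pos hA, abs_two]
      have hA3 : A ≤ 3 := rg.A_le
      have hH1 : H ≤ 1 := rg.H_le hα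
      calc H * (2 * |α| * A) * (2 * Λ) ≤ 1 * (2 * |α| * 3) * (2 * Λ) := by gcongr
        _ = 12 * |α| * Λ := by ring
    calc ENNReal.ofReal |H| * ∫⁻ x1 : ℝ, ∫⁻ x2 : ℝ, ∫⁻ s : ℝ,
          (W.indicator fun w => kF α β d Λ t g w y * K w) (x1 + s * A, x2 + s * y, -(s * H))
        ≤ ENNReal.ofReal |H| * ∫⁻ x1 : ℝ, ∫⁻ x2 : ℝ,
          ({x2 | |x2 - β * y / (α * A) * x1| ≤ Λ}.indicator
          (fun _ => g ((1 / (2 * α * A)) * x1) * I)) x2 := by
          gcongr with x1 x2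
          exact h1 x1 x2
      _ = ENNReal.ofReal |H| * (ENNReal.ofReal |2 * α * A| * (∫⁻ τ, g τ) *
          (I * ENNReal.ofReal (2 * Λ))) := by
          simp only [h2]
          congr 1
          have h5 : ∀ x1 : ℝ, g ((1 / (2 * α * A)) * x1) * I * ENNReal.ofReal (2 * Λ) =
              g ((1 / (2 * α * A)) * x1) * (I * ENNReal.ofReal (2 * Λ)) := fun x1 => mul_assoc _ _ _
          simp only [h5]
          rw [lintegral_mul_const _ mg, h3]
      _ = ENNReal.ofReal (|H| * |2 * α * A| * (2 * Λ)) * (∫⁻ τ, g τ) * I := by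
          have h6 : ENNReal.ofReal (|H| * |2 * α * A| * (2 * Λ)) =
              ENNReal.ofReal |H| * ENNReal.ofReal |2 * α * A| * ENNReal.ofReal (2 * Λ) := by
            rw [← ENNReal.ofReal_mul (abs_nonneg H), ← ENNReal.ofReal_mul (by positivity)]
          rw [h6]
          ring
      _ ≤ ENNReal.ofReal (12 * |α| * Λ) * (∫⁻ τ, g τ) * I := by gcongr
  calc ∫⁻ y in Y, ∫⁻ w in W, kF α β d Λ t g w y * K w
      ≤ ∫⁻ _ in Y, ENNReal.ofReal (12 * |α| * Λ) * (∫⁻ τ, g τ) * I :=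
        setLIntegral_mono measurable_const key
    _ = ENNReal.ofReal (12 * |α| * Λ) * (∫⁻ τ, g τ) * I * volume Y := setLIntegral_const _ _
    _ ≤ ENNReal.ofReal (12 * |α| * Λ) * (∫⁻ τ, g τ) * I *
        ENNReal.ofReal (2 * (c0 * |y0|)) := by gcongr
    _ = ENNReal.ofReal (24 * |α| * (c0 * |y0|) * Λ) * (∫⁻ τ, g τ) * I := by
        have h1 : ENNReal.ofReal (24 * |α| * (c0 * |y0|) * Λ) =
            ENNReal.ofReal (12 * |α| * Λ) * ENNReal.ofReal (2 * (c0 * |y0|)) := by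
          rw [← ENNReal.ofReal_mul (by positivity)]
          congr 1
          ring
        rw [h1]
        ring

/-- The real arithmetic of the near pairs. -/
theorem kq_near {q Λ y M C ℓ N r0 : ℝ} (hq : 1 ≤ q) (hΛ : q ≤ Λ) (hy : 0 < y) (hy2 : y ≤ 2)
    (hM : 1 ≤ M) (hC : 0 ≤ C) (hℓ : 1 ≤ ℓ) (hr0 : r0 = M * Λ / (q ^ 2 * y))
    (hN : N ≤ 2 * q) :
    N * ((2 * r0 / (1 / q) + 1) * (C * y * Λ ^ 2 * ℓ / q ^ 3)) ≤
      8 * C * M * (Λ / q) ^ 3 * ℓ ^ 2 := by
  have hq0 : 0 < q := by linarith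
  have hΛ0 : 0 < Λ := by linarith
  have hr0' : 0 < r0 := by rw [hr0]; positivity
  have h1 : 1 ≤ 2 * (r0 * q) := by
    rw [hr0]
    have : M * Λ / (q ^ 2 * y) * q = M * Λ / (q * y) := by field_simp
    rw [this, ← mul_div_assoc, le_div_iff₀ (by positivity)]
    nlinarith [mul_le_mul hΛ hy2 hy.le hΛ0.le, mul_le_mul_of_nonneg_right hM hΛ0.le]
  have h2 : 2 * r0 / (1 / q) + 1 ≤ 4 * (r0 * q) := by
    have : 2 * r0 / (1 / q) = 2 * (r0 * q) := by field_simp
    rw [this]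
    linarith
  have h3 : 0 ≤ C * y * Λ ^ 2 * ℓ / q ^ 3 := by positivity
  calc N * ((2 * r0 / (1 / q) + 1) * (C * y * Λ ^ 2 * ℓ / q ^ 3))
      ≤ (2 * q) * ((4 * (r0 * q)) * (C * y * Λ ^ 2 * ℓ / q ^ 3)) := by
        gcongr
    _ = 8 * C * M * (Λ / q) ^ 3 * ℓ := by
        rw [hr0]
        field_simp
        ring
    _ ≤ 8 * C * M * (Λ / q) ^ 3 * ℓ ^ 2 := by
        have : ℓ ≤ ℓ ^ 2 := by nlinarith
        gcongr

/-- The real arithmetic of the far pairs. -/
theorem kq_far {q Λ y M C ℓ N r0 : ℝ} (hq : 1 ≤ q) (hΛ : q ≤ Λ) (hy : 0 < y) (hy2 : y ≤ 2)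
    (hM : 1 ≤ M) (hC : 0 ≤ C) (hℓ : 1 ≤ ℓ) (hr0 : r0 = M * Λ / (q ^ 2 * y))
    (hN : N ≤ 2 * q) (k : ℕ) :
    N * ((2 * (2 * (2 ^ k * r0)) / (1 / q) + 1) * (C * y * Λ * ℓ / (2 ^ k * q ^ 2))) ≤
      12 * C * M * (Λ / q) ^ 2 * ℓ := by
  have hq0 : 0 < q := by linarith
  have hΛ0 : 0 < Λ := by linarith
  have hr0' : 0 < r0 := by rw [hr0]; positivity
  have h1 : 1 ≤ 2 * (r0 * q) := by
    rw [hr0]
    have : M * Λ / (q ^ 2 * y) * q = M * Λ / (q * y) := by field_simp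
    rw [this, ← mul_div_assoc, le_div_iff₀ (by positivity)]
    nlinarith [mul_le_mul hΛ hy2 hy.le hΛ0.le, mul_le_mul_of_nonneg_right hM hΛ0.le]
  have hk : (1 : ℝ) ≤ 2 ^ k := one_le_pow₀ (by norm_num)
  have h2 : 2 * (2 * (2 ^ k * r0)) / (1 / q) + 1 ≤ 6 * (2 ^ k * (r0 * q)) := by
    have : 2 * (2 * (2 ^ k * r0)) / (1 / q) = 4 * (2 ^ k * (r0 * q)) := by field_simp; ring
    rw [this]
    have h3 : 1 * (r0 * q) ≤ 2 ^ k * (r0 * q) := by gcongr
    linarith
  have h3 : 0 ≤ C * y * Λ * ℓ / (2 ^ k * q ^ 2) := by positivity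
  calc N * ((2 * (2 * (2 ^ k * r0)) / (1 / q) + 1) * (C * y * Λ * ℓ / (2 ^ k * q ^ 2)))
      ≤ (2 * q) * ((6 * (2 ^ k * (r0 * q))) * (C * y * Λ * ℓ / (2 ^ k * q ^ 2))) := by
        gcongr
    _ = 12 * C * M * (Λ / q) ^ 2 * ℓ := by
        rw [hr0]
        field_simp
        ring

/-- ROW KQ: the sum over pairs of intervals. -/
theorem row_KQ {α β : ℝ} (hα : α ≠ 0) (hβ : β ≠ 0) (hαβ : α ≠ β) : ∃ C c1 : ℝ, 0 < C ∧
    0 < c1 ∧ ∀ c0, 0 < c0 → c0 ≤ c1 → ∀ d, 0 ≤ d → d ≤ 1 → ∀ t0 y0, Rs α β d t0 y0 →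
      y0 ≠ 0 → ∀ R Λ, 1 ≤ R → 1 ≤ R * y0 ^ 2 → √R ≤ Λ →
      ∀ (ι : Type) [Fintype ι] (t : ι → ℝ) (g : ι → ℝ → ℝ≥0∞), (∀ i, |t i - t0| ≤ c0) →
      (∀ i j, i ≠ j → 1 / √R ≤ |t i - t j|) → (∀ i, Measurable (g i)) →
      (∀ i, ∫⁻ τ, g i τ ≤ ENNReal.ofReal (1 / √R)) →
      (∀ i τ, g i τ ≤ ENNReal.ofReal (1 / R)) →
      ∫⁻ w in {w : ℝ × ℝ × ℝ | WA R w.1 w.2.1 w.2.2},
          (∑ i, ∫⁻ y in {y : ℝ | |y - y0| ≤ c0 * |y0|},
            ({y | |Uw α β d w.1 w.2.1 w.2.2 (t i) y| ≤ Λ}.indicator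
              fun y => g i (Tw α β d w.1 w.2.2 (t i) y)) y) ^ 2 ≤
        ENNReal.ofReal (C * (Λ / √R) ^ 3 * (1 + Real.log R) ^ 2) := by
  classical
  obtain ⟨C1, M, k1, hC1, hM, hk1, KF⟩ := row_KF hα hβ hαβ
  obtain ⟨C2, k2, hC2, hk2, KN⟩ := row_KN (α := α) (β := β) hα
  obtain ⟨k3, hk3, hk38, BX⟩ := box_sub (β := β) hα
  have ha : 0 < |α| := abs_pos.2 hα
  set K1 : ℝ := 24 * |α| * (C2 * (1 + M)) with hK1
  set K2 : ℝ := 24 * |α| * C1 with hK2
  have hK1' : 0 < K1 := by rw [hK1]; positivity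
  have hK2' : 0 < K2 := by rw [hK2]; positivity
  refine ⟨8 * K1 * M + 24 * K2 * M, min k1 (min k2 k3), by positivity,
    lt_min hk1 (lt_min hk2 hk3), ?_⟩
  intro c0 hc0 hc01 d hd0 hd1 t0 y0 hs hy0 R Λ hR hRy hΛ ι _ t g ht hsep hg hgi hgs
  have hc1 : c0 ≤ k1 := hc01.trans (min_le_left _ _)
  have hc2 : c0 ≤ k2 := hc01.trans ((min_le_right _ _).trans (min_le_left _ _))
  have hc3 : c0 ≤ k3 := hc01.trans ((min_le_right _ _).trans (min_le_right _ _))
  have hc8 : c0 ≤ 1 / 8 := hc3.trans hk38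
  have KF' := KF c0 hc0 hc1 d hd0 hd1 t0 y0 hs hy0 R Λ hR hRy hΛ
  have KN' := KN c0 hc0 hc2 d hd0 hd1 t0 y0 hs hy0 R Λ hR hΛ
  -- the box
  have hy : 0 < |y0| := abs_pos.2 hy0
  have hy2 : |y0| ≤ 2 := hs.1
  have hbx : ∀ i y, |y - y0| ≤ c0 * |y0| → Bx c0 t0 y0 (t i) y := fun i y h => ⟨ht i, h⟩
  have hrg : ∀ i y, |y - y0| ≤ c0 * |y0| → Rg α β d (t i) y := by
    intro i y h
    refine BX d hd0 hd1 t0 y0 (t i) y hs ⟨(ht i).trans hc3, h.trans ?_⟩
    gcongr
  -- the numbers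
  set q : ℝ := √R with hq
  have hR0 : 0 < R := by linarith
  have hqq : q ^ 2 = R := Real.sq_sqrt hR0.le
  have hq1 : 1 ≤ q := Real.one_le_sqrt.2 hR
  have hq0 : 0 < q := by linarith
  have hΛ0 : 0 < Λ := by linarith
  set ℓ : ℝ := 1 + Real.log R with hℓ
  have hℓ1 : 1 ≤ ℓ := by
    have := Real.log_nonneg hR
    rw [hℓ]
    linarith
  set r0 : ℝ := M * Λ / (q ^ 2 * |y0|) with hr0
  have hr0' : 0 < r0 := by rw [hr0]; positivity
  -- the number of intervals
  have hN : (Fintype.card ι : ℝ) ≤ 2 * q := by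
    have h1 := LF.ks_card_sep t (h := 1 / q) (by positivity) hsep t0 c0 hc0.le Finset.univ
      fun i _ => ht i
    rw [Finset.card_univ] at h1
    have h2 : 2 * c0 / (1 / q) = 2 * c0 * q := by field_simp
    rw [h2] at h1
    nlinarith
  -- the dyadic range
  obtain ⟨L, hL1, hL2⟩ : ∃ L : ℕ, 1 / 4 ≤ 2 ^ L * r0 ∧ (L : ℝ) ≤ 2 * ℓ := by
    refine ⟨⌈Real.logb 2 R⌉₊, ?_, ?_⟩
    · have h1 : R ≤ 2 ^ ⌈Real.logb 2 R⌉₊ := by
        have h2 : Real.logb 2 R ≤ (⌈Real.logb 2 R⌉₊ : ℝ) := Nat.le_ceil _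
        rw [Real.logb_le_iff_le_rpow (by norm_num) hR0, Real.rpow_natCast] at h2
        exact h2
      have h3 : 1 / 4 ≤ R * r0 := by
        rw [hr0, hqq]
        have : R * (M * Λ / (R * |y0|)) = M * Λ / |y0| := by field_simp
        rw [this, le_div_iff₀ hy]
        nlinarith [mul_le_mul hM (hq1.trans hΛ) zero_le_one (by linarith : (0:ℝ) ≤ M)]
      exact h3.trans (mul_le_mul_of_nonneg_right h1 hr0'.le)
    · have h1 : 0 ≤ Real.log R := Real.log_nonneg hR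
      have h2 : Real.logb 2 R ≤ 2 * Real.log R := by
        unfold Real.logb
        rw [div_le_iff₀ (Real.log_pos (by norm_num))]
        nlinarith [Real.log_two_gt_d9]
      have h3 : (⌈Real.logb 2 R⌉₊ : ℝ) < Real.logb 2 R + 1 := by
        refine Nat.ceil_lt_add_one ?_
        exact Real.logb_nonneg (by norm_num) hR
      rw [hℓ]
      linarith
  set Y : Set ℝ := {y : ℝ | |y - y0| ≤ c0 * |y0|} with hY
  set W : Set (ℝ × ℝ × ℝ) := {w : ℝ × ℝ × ℝ | WA R w.1 w.2.1 w.2.2} with hW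
  set P : ι → ι → ℝ≥0∞ := fun i j => ∫⁻ w in W, ∫⁻ y in Y, ∫⁻ y' in Y,
    kF α β d Λ (t i) (g i) w y * kF α β d Λ (t j) (g j) w y' with hP
  -- near pairs
  have hnear : ∀ i j, |t i - t j| ≤ r0 →
      P i j ≤ ENNReal.ofReal (K1 * |y0| * Λ ^ 2 * ℓ / q ^ 3) := by
    intro i j hij
    have h1 := kq_pair (R := R) (c0 := c0) (y0 := y0) (t' := t j) hα hΛ0.le (hrg i)
      (hg i) (hg j) (ENNReal.ofReal (1 / R) *
        ENNReal.ofReal (C2 * (Λ * (1 + Real.log R) + R * |y0| * |t i - t j|))) (by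
        intro y hy' x1 x2 hx
        have h2 := KN' (t i) y (t j) (hbx i y hy') (ht j) x1 x2
        refine le_trans ?_ (mul_le_mul_right h2 _)
        rw [← lintegral_const_mul' _ _ ENNReal.ofReal_ne_top]
        refine lintegral_mono fun s => ?_
        rw [← lintegral_const_mul' _ _ ENNReal.ofReal_ne_top]
        refine lintegral_mono fun y' => ?_
        simp only [indicator]
        split_ifs
        · rw [mul_one]
          exact hgs j _
        · exact zero_le)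
    refine h1.trans ?_
    calc ENNReal.ofReal (24 * |α| * (c0 * |y0|) * Λ) * (∫⁻ τ, g i τ) * (ENNReal.ofReal (1 / R) *
          ENNReal.ofReal (C2 * (Λ * (1 + Real.log R) + R * |y0| * |t i - t j|)))
        ≤ ENNReal.ofReal (24 * |α| * (1 * |y0|) * Λ) * ENNReal.ofReal (1 / q) *
          (ENNReal.ofReal (1 / R) * ENNReal.ofReal (C2 * ((1 + M) * Λ * ℓ))) := by
          have e1 : R * |y0| * |t i - t j| ≤ M * Λ := by
            calc R * |y0| * |t i - t j| ≤ R * |y0| * r0 := by gcongr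
              _ = M * Λ := by rw [hr0, hqq]; field_simp
          have e2 : M * Λ ≤ M * Λ * ℓ := le_mul_of_one_le_right (by positivity) hℓ1
          have e3 : c0 ≤ 1 := by linarith
          gcongr
          · exact hgi i
          · rw [← hℓ]
            linarith
      _ = ENNReal.ofReal (K1 * |y0| * Λ ^ 2 * ℓ / q ^ 3) := by
          rw [← ENNReal.ofReal_mul (by positivity), ← ENNReal.ofReal_mul (by positivity),
            ← ENNReal.ofReal_mul (by positivity)]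
          congr 1
          rw [hK1, ← hqq]
          field_simp
  -- far pairs
  have hfar : ∀ i j, ∀ k : ℕ, 2 ^ k * r0 ≤ |t i - t j| →
      P i j ≤ ENNReal.ofReal (K2 * |y0| * Λ * ℓ / (2 ^ k * q ^ 2)) := by
    intro i j k hij
    have hk0 : (1 : ℝ) ≤ 2 ^ k := one_le_pow₀ (by norm_num)
    have e0 : r0 ≤ |t i - t j| := le_trans (le_mul_of_one_le_left hr0'.le hk0) hij
    have e1 : 2 ^ k * (M * Λ) ≤ R * |y0| * |t i - t j| := by
      calc 2 ^ k * (M * Λ) = R * |y0| * (2 ^ k * r0) := by rw [hr0, hqq]; field_simp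
        _ ≤ R * |y0| * |t i - t j| := by gcongr
    have e2 : M * Λ ≤ R * |y0| * |t i - t j| :=
      (le_mul_of_one_le_left (by positivity) hk0).trans e1
    have h1 := kq_pair (R := R) (c0 := c0) (y0 := y0) (t' := t j) hα hΛ0.le (hrg i)
      (hg i) (hg j) (ENNReal.ofReal (C1 * (1 + Real.log R) * Λ / (R * |y0| * |t i - t j|)) *
        ∫⁻ τ, g j τ) (by
        intro y hy' x1 x2 hx
        exact KF' (t i) y (t j) (hbx i y hy') (ht j) e2 x1 x2 hx (g j) (hg j))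
    refine h1.trans ?_
    have e3 : 0 < R * |y0| * |t i - t j| := lt_of_lt_of_le (by positivity) e2
    calc ENNReal.ofReal (24 * |α| * (c0 * |y0|) * Λ) * (∫⁻ τ, g i τ) *
          (ENNReal.ofReal (C1 * (1 + Real.log R) * Λ / (R * |y0| * |t i - t j|)) * ∫⁻ τ, g j τ)
        ≤ ENNReal.ofReal (24 * |α| * (1 * |y0|) * Λ) * ENNReal.ofReal (1 / q) *
          (ENNReal.ofReal (C1 * ℓ / 2 ^ k) * ENNReal.ofReal (1 / q)) := by
          have e4 : c0 ≤ 1 := by linarith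
          have e5 : C1 * (1 + Real.log R) * Λ / (R * |y0| * |t i - t j|) ≤ C1 * ℓ / 2 ^ k := by
            rw [← hℓ, div_le_div_iff₀ e3 (by positivity)]
            calc C1 * ℓ * Λ * 2 ^ k = C1 * ℓ * (2 ^ k * Λ) := by ring
              _ ≤ C1 * ℓ * (2 ^ k * (M * Λ)) := by
                  have : Λ ≤ M * Λ := le_mul_of_one_le_left hΛ0.le hM
                  gcongr
              _ ≤ C1 * ℓ * (R * |y0| * |t i - t j|) := by gcongr
          have e6 : 24 * |α| * (c0 * |y0|) * Λ ≤ 24 * |α| * (1 * |y0|) * Λ := by gcongr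
          exact mul_le_mul' (mul_le_mul' (ENNReal.ofReal_le_ofReal e6) (hgi i))
            (mul_le_mul' (ENNReal.ofReal_le_ofReal e5) (hgi j))
      _ = ENNReal.ofReal (K2 * |y0| * Λ * ℓ / (2 ^ k * q ^ 2)) := by
          rw [← ENNReal.ofReal_mul (by positivity), ← ENNReal.ofReal_mul (by positivity),
            ← ENNReal.ofReal_mul (by positivity)]
          congr 1
          rw [hK2]
          field_simp
  -- the sum
  have hind : ∀ (S : Set ℝ) (i j : ι), ∫⁻ w in W, ∫⁻ y in Y, ∫⁻ y' in Y,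
      S.indicator 1 |t i - t j| * (kF α β d Λ (t i) (g i) w y * kF α β d Λ (t j) (g j) w y') =
      S.indicator 1 |t i - t j| * P i j := by
    intro S i j
    by_cases hS : |t i - t j| ∈ S
    · simp only [indicator_of_mem hS, Pi.one_apply, one_mul]
      rfl
    · simp only [indicator_of_notMem hS, zero_mul, lintegral_zero]
  have h1 := LF.ks_sq_sum (volume.restrict W) (volume.restrict Y)
    (fun i => kF α β d Λ (t i) (g i)) (fun i => kF_meas α β d Λ (t i) (hg i))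
    (fun i j _ _ => |t i - t j|) (fun i j => measurable_const) t (h := 1 / q) (by positivity)
    hsep (fun i j _ _ => le_refl _) r0 hr0' L
    (fun i j _ _ _ _ _ => by
      refine le_trans ?_ hL1
      have h2 := abs_le.1 (ht i)
      have h3 := abs_le.1 (ht j)
      rw [abs_le]
      constructor <;> linarith)
    (ENNReal.ofReal (K1 * |y0| * Λ ^ 2 * ℓ / q ^ 3))
    (fun k => ENNReal.ofReal (K2 * |y0| * Λ * ℓ / (2 ^ k * q ^ 2)))
    (by
      intro i j
      rw [hind {x : ℝ | x ≤ r0} i j]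
      by_cases hS : |t i - t j| ≤ r0
      · rw [indicator_of_mem (show |t i - t j| ∈ {x : ℝ | x ≤ r0} from hS), Pi.one_apply, one_mul]
        exact hnear i j hS
      · rw [indicator_of_notMem (show |t i - t j| ∉ {x : ℝ | x ≤ r0} from hS), zero_mul]
        exact zero_le)
    (by
      intro i j k _
      rw [hind {x : ℝ | 2 ^ k * r0 ≤ x ∧ x ≤ 2 * (2 ^ k * r0)} i j]
      by_cases hS : |t i - t j| ∈ {x : ℝ | 2 ^ k * r0 ≤ x ∧ x ≤ 2 * (2 ^ k * r0)}
      · rw [indicator_of_mem hS, Pi.one_apply, one_mul]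
        exact hfar i j k hS.1
      · rw [indicator_of_notMem hS, zero_mul]
        exact zero_le)
  refine h1.trans ?_
  -- the total
  have hcard : (Fintype.card ι : ℝ≥0∞) = ENNReal.ofReal (Fintype.card ι : ℝ) := by
    rw [ENNReal.ofReal_natCast]
  have hN0 : (0 : ℝ) ≤ Fintype.card ι := Nat.cast_nonneg _
  have hnear2 : (Fintype.card ι : ℝ≥0∞) * (ENNReal.ofReal (2 * r0 / (1 / q) + 1) *
      ENNReal.ofReal (K1 * |y0| * Λ ^ 2 * ℓ / q ^ 3)) ≤
      ENNReal.ofReal (8 * K1 * M * (Λ / q) ^ 3 * ℓ ^ 2) := by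
    rw [hcard, ← ENNReal.ofReal_mul (by positivity), ← ENNReal.ofReal_mul hN0]
    exact ENNReal.ofReal_le_ofReal (kq_near hq1 hΛ hy hy2 hM hK1'.le hℓ1 hr0 hN)
  have hfar2 : ∀ k : ℕ, (Fintype.card ι : ℝ≥0∞) *
      (ENNReal.ofReal (2 * (2 * (2 ^ k * r0)) / (1 / q) + 1) *
      ENNReal.ofReal (K2 * |y0| * Λ * ℓ / (2 ^ k * q ^ 2))) ≤
      ENNReal.ofReal (12 * K2 * M * (Λ / q) ^ 2 * ℓ) := by
    intro k
    rw [hcard, ← ENNReal.ofReal_mul (by positivity), ← ENNReal.ofReal_mul hN0]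
    exact ENNReal.ofReal_le_ofReal (kq_far hq1 hΛ hy hy2 hM hK2'.le hℓ1 hr0 hN k)
  have hΛq : 1 ≤ Λ / q := by
    rw [le_div_iff₀ hq0, one_mul]
    exact hΛ
  calc (Fintype.card ι : ℝ≥0∞) * (ENNReal.ofReal (2 * r0 / (1 / q) + 1) *
        ENNReal.ofReal (K1 * |y0| * Λ ^ 2 * ℓ / q ^ 3)) +
        ∑ k ∈ Finset.range L, (Fintype.card ι : ℝ≥0∞) *
        (ENNReal.ofReal (2 * (2 * (2 ^ k * r0)) / (1 / q) + 1) *
        ENNReal.ofReal (K2 * |y0| * Λ * ℓ / (2 ^ k * q ^ 2)))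
      ≤ ENNReal.ofReal (8 * K1 * M * (Λ / q) ^ 3 * ℓ ^ 2) +
        ∑ _k ∈ Finset.range L, ENNReal.ofReal (12 * K2 * M * (Λ / q) ^ 2 * ℓ) :=
        add_le_add hnear2 (Finset.sum_le_sum fun k _ => hfar2 k)
    _ = ENNReal.ofReal (8 * K1 * M * (Λ / q) ^ 3 * ℓ ^ 2 +
          L * (12 * K2 * M * (Λ / q) ^ 2 * ℓ)) := by
        rw [Finset.sum_const, Finset.card_range, nsmul_eq_mul, ← ENNReal.ofReal_natCast,
          ← ENNReal.ofReal_mul (by positivity), ← ENNReal.ofReal_add (by positivity)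
          (by positivity)]
    _ ≤ ENNReal.ofReal ((8 * K1 * M + 24 * K2 * M) * (Λ / q) ^ 3 * ℓ ^ 2) := by
        refine ENNReal.ofReal_le_ofReal ?_
        have h2 : L * (12 * K2 * M * (Λ / q) ^ 2 * ℓ) ≤ 24 * K2 * M * (Λ / q) ^ 3 * ℓ ^ 2 := by
          calc L * (12 * K2 * M * (Λ / q) ^ 2 * ℓ)
              ≤ (2 * ℓ) * (12 * K2 * M * (Λ / q) ^ 2 * ℓ) := by gcongr
            _ = 24 * K2 * M * ((Λ / q) ^ 2 * 1) * ℓ ^ 2 := by ring
            _ ≤ 24 * K2 * M * ((Λ / q) ^ 2 * (Λ / q)) * ℓ ^ 2 := by gcongr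
            _ = 24 * K2 * M * (Λ / q) ^ 3 * ℓ ^ 2 := by ring
        calc 8 * K1 * M * (Λ / q) ^ 3 * ℓ ^ 2 + L * (12 * K2 * M * (Λ / q) ^ 2 * ℓ)
            ≤ 8 * K1 * M * (Λ / q) ^ 3 * ℓ ^ 2 + 24 * K2 * M * (Λ / q) ^ 3 * ℓ ^ 2 := by gcongr
          _ = (8 * K1 * M + 24 * K2 * M) * (Λ / q) ^ 3 * ℓ ^ 2 := by ring

end Pool.Agent.LQ
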