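import Pool.Agent.LQ.Df2
import Pool.Agent.LQ.EXPL
import Pool.Agent.LF.L2M

/-!
LEAFQ, row L2: the mean square over a ball of frequencies.
-/

set_option autoImplicit false

namespace Pool.Agent.LQ

open MeasureTheory Set Metric Pool.Agent.MP_6cbfb8_an Pool.Agent.LF
open scoped RealInnerProductSpace ContDiff ENNReal NNReal ComplexConjugate

theorem l2q_norm1 (z : E 1) : ‖z‖ = |z 0| := by
  rw [EuclideanSpace.norm_eq]
  simp [Real.sqrt_sq_eq_abs]

theorem l2q_t {α β d t y : ℝ} (hα : α ≠ 0) (h : Rs α β d t y) : |t| ≤ 4 * |α| + 4 * |β| := by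
  have h1 : t = α * rr α β t y + β * y ^ 2 := by
    unfold rr
    field_simp
    ring
  have h2 : |rr α β t y| ≤ 4 := abs_le.2 ⟨by linarith [h.2.1], h.2.2.1⟩
  have h3 : |y ^ 2| ≤ 4 := by
    rw [abs_pow]
    nlinarith [h.1, abs_nonneg y]
  calc |t| = |α * rr α β t y + β * y ^ 2| := by rw [← h1]
    _ ≤ |α * rr α β t y| + |β * y ^ 2| := abs_add_le _ _
    _ = |α| * |rr α β t y| + |β| * |y ^ 2| := by rw [abs_mul, abs_mul]
    _ ≤ |α| * 4 + |β| * 4 := by gcongr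
    _ = _ := by ring

theorem l2q_lip {α β d t y t' y' : ℝ} (hα : α ≠ 0) (h : Rs α β d t y) (h' : Rs α β d t' y') :
    |t - t'| ≤ 4 * |α| * |AA α β t y - AA α β t' y'| + 4 * |β| * |y - y'| := by
  have e : ∀ t y, Rs α β d t y → t = α * AA α β t y ^ 2 + β * y ^ 2 := by
    intro t y h
    unfold AA
    rw [Real.sq_sqrt (by linarith [h.2.1])]
    unfold rr
    field_simp
    ring
  have hA : ∀ t y, Rs α β d t y → 0 ≤ AA α β t y ∧ AA α β t y ≤ 2 := by
    intro t y h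
    refine ⟨Real.sqrt_nonneg _, ?_⟩
    unfold AA
    rw [Real.sqrt_le_left (by norm_num)]
    linarith [h.2.2.1]
  obtain ⟨a0, a1⟩ := hA t y h
  obtain ⟨b0, b1⟩ := hA t' y' h'
  have h1 : t - t' = α * ((AA α β t y - AA α β t' y') * (AA α β t y + AA α β t' y')) +
      β * ((y - y') * (y + y')) := by
    nth_rewrite 1 [e t y h, e t' y' h']
    ring
  have h2 : |AA α β t y + AA α β t' y'| ≤ 4 := by
    rw [abs_of_nonneg (by linarith)]
    linarith
  have h3 : |y + y'| ≤ 4 := (abs_add_le _ _).trans (by linarith [h.1, h'.1])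
  rw [h1]
  refine (abs_add_le _ _).trans ?_
  rw [abs_mul, abs_mul, abs_mul, abs_mul]
  have h4 := mul_le_mul_of_nonneg_left h2 (mul_nonneg (abs_nonneg α)
    (abs_nonneg (AA α β t y - AA α β t' y')))
  have h5 := mul_le_mul_of_nonneg_left h3 (mul_nonneg (abs_nonneg β) (abs_nonneg (y - y')))
  nlinarith

/-- ROW L2: the `L^2` bound. -/
theorem l2q {α β : ℝ} (hα : α ≠ 0) {X : ℝ → ℝ × E 1 → E 3}
    {A : ℕ → ℝ} (hX : SF α β X A) : ∃ C : ℝ, ∀ d, 0 ≤ d → d ≤ 1 → ∀ (b : ℝ × E 1 → ℂ) (B0 ν : ℝ),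
      0 ≤ B0 → 0 ≤ ν → Measurable b → (∀ p, ‖b p‖ ≤ B0) →
      (∀ t (z : E 1), ¬ (Rs α β d t (z 0) ∧ |z 0| ≤ ν) → b (t, z) = 0) →
      ∀ R : ℝ, 1 ≤ R →
        ∫⁻ ξ in {ξ : E 3 | ‖ξ‖ ≤ 2 * R}, ‖Tb (X d) b ξ‖ₑ ^ (2 : ℝ) ≤
          ENNReal.ofReal (C * B0 ^ 2 * R * ν) := by
  set K : ℝ := 4 * |α| + 4 * |β| + 1 with hK
  have hK0 : 0 < K := by positivity
  obtain ⟨C1, hC1, hM⟩ := lf_mass 1 3 K⁻¹ (by positivity)
  set v : ℝ≥0∞ := volume (ball (0 : E 1) 1) with hv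
  have hv' : v ≠ ⊤ := measure_ball_lt_top.ne
  refine ⟨C1 * (2 * K) * v.toReal, ?_⟩
  intro d hd0 hd1 b B0 ν hB0 hν hbm hb hs R hR
  obtain ⟨hXs, -, hXr⟩ := hX d hd0 hd1
  have hR0 : 0 < R := by linarith
  -- the support
  have hsupp : ∀ p : ℝ × E 1, b p ≠ 0 → Rs α β d p.1 (p.2 0) ∧ |p.2 0| ≤ ν := by
    intro p hp
    by_contra h
    exact hp (hs p.1 p.2 h)
  have hS : ∀ p : ℝ × E 1, b p ≠ 0 → p ∈ Icc (-K) K ×ˢ closedBall (0 : E 1) ν := by
    intro p hp
    obtain ⟨h1, h2⟩ := hsupp p hp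
    refine ⟨?_, ?_⟩
    · rw [mem_Icc, ← abs_le]
      have := l2q_t hα h1
      linarith
    · rw [mem_closedBall_zero_iff, l2q_norm1]
      exact h2
  have hSm : MeasurableSet (Icc (-K) K ×ˢ closedBall (0 : E 1) ν) :=
    measurableSet_Icc.prod isClosed_closedBall.measurableSet
  have hvol : (volume : Measure (ℝ × E 1)) (Icc (-K) K ×ˢ closedBall (0 : E 1) ν) =
      ENNReal.ofReal (2 * K) * (ENNReal.ofReal ν * v) := by
    rw [Measure.volume_eq_prod, Measure.prod_prod, Real.volume_Icc,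
      Measure.addHaar_closedBall _ _ hν, finrank_euclideanSpace, Fintype.card_fin, pow_one, ← hv]
    congr 2
    ring
  have hvolt : (volume : Measure (ℝ × E 1)) (Icc (-K) K ×ˢ closedBall (0 : E 1) ν) < ⊤ := by
    rw [hvol]
    exact ENNReal.mul_lt_top ENNReal.ofReal_lt_top (ENNReal.mul_lt_top ENNReal.ofReal_lt_top
      hv'.lt_top)
  have hpt : ∀ p, ‖b p‖ₑ ≤ (Icc (-K) K ×ˢ closedBall (0 : E 1) ν).indicator
      (fun _ => ENNReal.ofReal B0) p := by
    intro p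
    by_cases hp : b p = 0
    · rw [hp, enorm_zero]
      exact zero_le
    · rw [indicator_of_mem (hS p hp), ← ofReal_norm]
      exact ENNReal.ofReal_le_ofReal (hb p)
  have hint : Integrable b := by
    refine ⟨hbm.aestronglyMeasurable, ?_⟩
    refine lt_of_le_of_lt (lintegral_mono hpt) ?_
    rw [lintegral_indicator_const hSm]
    exact ENNReal.mul_lt_top ENNReal.ofReal_lt_top hvolt
  have hmass : ∫⁻ p, ‖b p‖ₑ ^ 2 ≤ ENNReal.ofReal (B0 ^ 2) *
      (ENNReal.ofReal (2 * K) * (ENNReal.ofReal ν * v)) := by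
    rw [← hvol, ← lintegral_indicator_const hSm]
    refine lintegral_mono fun p => ?_
    by_cases hp : b p = 0
    · rw [hp, enorm_zero]
      simp
    · rw [indicator_of_mem (hS p hp), ENNReal.ofReal_pow hB0, ← ofReal_norm]
      exact pow_le_pow_left' (ENNReal.ofReal_le_ofReal (hb p)) 2
  have hsep : ∀ p p', b p ≠ 0 → b p' ≠ 0 → K⁻¹ * ‖p - p'‖ ≤ ‖X d p - X d p'‖ := by
    intro p p' hp hp'
    obtain ⟨h1, -⟩ := hsupp p hp
    obtain ⟨h2, -⟩ := hsupp p' hp'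
    obtain ⟨x0, x1, -, -, -⟩ := hXr p.1 p.2 h1.rg
    obtain ⟨y0, y1, -, -, -⟩ := hXr p'.1 p'.2 h2.rg
    have c0 := EuclideanSpace.norm_eq (X d p - X d p')
    have n0 : |(X d p - X d p') 0| ≤ ‖X d p - X d p'‖ := by
      have := PiLp.norm_apply_le (X d p - X d p') 0
      simpa using this
    have n1 : |(X d p - X d p') 1| ≤ ‖X d p - X d p'‖ := by
      have := PiLp.norm_apply_le (X d p - X d p') 1
      simpa using this
    rw [PiLp.sub_apply] at n0 n1
    have e0 : X d p 0 = AA α β p.1 (p.2 0) := x0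
    have e1 : X d p 1 = p.2 0 := x1
    have f0 : X d p' 0 = AA α β p'.1 (p'.2 0) := y0
    have f1 : X d p' 1 = p'.2 0 := y1
    rw [e0, f0] at n0
    rw [e1, f1] at n1
    rw [inv_mul_le_iff₀ hK0, Prod.norm_def]
    have hN : 0 ≤ ‖X d p - X d p'‖ := norm_nonneg _
    refine max_le ?_ ?_
    · have h3 := l2q_lip hα h1 h2
      have h4 : ‖(p - p').1‖ = |p.1 - p'.1| := by
        rw [Prod.fst_sub, Real.norm_eq_abs]
      rw [h4]
      refine h3.trans ?_
      have h5 := mul_le_mul_of_nonneg_left n0 (show 0 ≤ 4 * |α| by positivity)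
      have h6 := mul_le_mul_of_nonneg_left n1 (show 0 ≤ 4 * |β| by positivity)
      rw [hK]
      linarith
    · have h4 : ‖(p - p').2‖ = |p.2 0 - p'.2 0| := by
        rw [Prod.snd_sub, l2q_norm1, PiLp.sub_apply]
      rw [h4]
      refine n1.trans ?_
      have h5 : 0 ≤ (4 * |α| + 4 * |β|) * ‖X d p - X d p'‖ := by positivity
      rw [hK]
      linarith
  have h := hM (X d) hXs.continuous.measurable b hbm hint hsep R hR0
  have e2 : ∀ ξ, ‖Tb (X d) b ξ‖ₑ ^ (2 : ℝ) = ‖Tb (X d) b ξ‖ₑ ^ 2 := fun ξ => by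
    rw [← ENNReal.rpow_natCast]
    norm_num
  simp only [e2]
  refine h.trans ((mul_le_mul_right hmass _).trans (le_of_eq ?_))
  have e3 : R ^ 3 / R ^ (1 + 1) = R := by
    field_simp
  rw [e3]
  have e4 : v = ENNReal.ofReal v.toReal := (ENNReal.ofReal_toReal hv').symm
  rw [e4, ← ENNReal.ofReal_mul (by positivity), ← ENNReal.ofReal_mul (by positivity),
    ← ENNReal.ofReal_mul (by positivity), ← ENNReal.ofReal_mul (by positivity),
    ENNReal.toReal_ofReal (by positivity)]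
  congr 1
  ring

end Pool.Agent.LQ
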