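import Pool.Agent.LQ.Df2
import Pool.Agent.LF.CORE0

/-!
LEAFQ: tools for sums of pieces.
-/

set_option autoImplicit false

namespace Pool.Agent.LQ

open MeasureTheory Set Metric Pool.Agent.MP_6cbfb8_an Pool.Agent.LF Pool.Agent.GNP
open scoped RealInnerProductSpace ContDiff ENNReal

/-- `Tb` of a finite sum. -/
theorem Tb_fin {m n : ℕ} {X : ℝ × E m → E n} (hX : Continuous X) {ι : Type*} (s : Finset ι)
    (f : ι → ℝ × E m → ℂ) (hf : ∀ i ∈ s, Integrable (f i)) {b : ℝ × E m → ℂ}
    (hb : ∀ p, b p = ∑ i ∈ s, f i p) (ξ : E n) : Tb X b ξ = ∑ i ∈ s, Tb X (f i) ξ := by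
  unfold Tb
  rw [← integral_finsetSum _ fun c hc => Tb_integrable hX (hf c hc) ξ]
  refine integral_congr_ae (Filter.Eventually.of_forall fun p => ?_)
  simp only
  rw [← Finset.sum_mul, ← hb p]

/-- `Tb` is measurable. -/
theorem Tb_measurable {m n : ℕ} {X : ℝ × E m → E n} (hX : Continuous X) {b : ℝ × E m → ℂ}
    (hb : Integrable b) : Measurable fun ξ => Tb X b ξ := by
  refine Continuous.measurable ?_
  unfold Tb
  refine continuous_of_dominated (bound := fun p => ‖b p‖) (fun ξ => ?_) (fun ξ => ?_) hb.norm ?_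
  · exact (Tb_integrable hX hb ξ).aestronglyMeasurable
  · refine Filter.Eventually.of_forall fun p => ?_
    rw [norm_mul, Complex.norm_exp_ofReal_mul_I, mul_one]
  · refine Filter.Eventually.of_forall fun p => ?_
    fun_prop

/-- Derivatives of a product at scale `1 / L`. -/
theorem mul_bd {V : Type*} [NormedAddCommGroup V] [NormedSpace ℝ V] {u : V → ℝ} {f : V → ℂ}
    (hu : ContDiff ℝ ∞ u) (hf : ContDiff ℝ ∞ f) {U B : ℕ → ℝ} {L : ℝ} (hL : 0 ≤ L)
    (hU : ∀ k z, ‖iteratedFDeriv ℝ k u z‖ ≤ U k * L ^ k)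
    (hB : ∀ k z, ‖iteratedFDeriv ℝ k f z‖ ≤ B k * L ^ k) (k : ℕ) (z : V) :
    ‖iteratedFDeriv ℝ k (fun z => ((u z : ℝ) : ℂ) * f z) z‖ ≤
      (∑ i ∈ Finset.range (k + 1), (k.choose i : ℝ) * |U i| * |B (k - i)|) * L ^ k := by
  have e1 : (fun z => ((u z : ℝ) : ℂ) * f z) = fun z => u z • f z := by
    funext z
    rw [Complex.real_smul]
  rw [e1]
  refine (norm_iteratedFDeriv_smul_le hu hf z (n := k) (by exact_mod_cast le_top)).trans ?_
  rw [Finset.sum_mul]
  refine Finset.sum_le_sum fun i hi => ?_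
  have hij : i ≤ k := Nat.lt_succ_iff.1 (Finset.mem_range.1 hi)
  have a1 : ‖iteratedFDeriv ℝ i u z‖ ≤ |U i| * L ^ i :=
    (hU i z).trans (mul_le_mul_of_nonneg_right (le_abs_self _) (by positivity))
  have a2 : ‖iteratedFDeriv ℝ (k - i) f z‖ ≤ |B (k - i)| * L ^ (k - i) :=
    (hB (k - i) z).trans (mul_le_mul_of_nonneg_right (le_abs_self _) (by positivity))
  calc (k.choose i : ℝ) * ‖iteratedFDeriv ℝ i u z‖ * ‖iteratedFDeriv ℝ (k - i) f z‖
      ≤ (k.choose i : ℝ) * (|U i| * L ^ i) * (|B (k - i)| * L ^ (k - i)) := by gcongr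
    _ = (k.choose i : ℝ) * |U i| * |B (k - i)| * (L ^ i * L ^ (k - i)) := by ring
    _ = (k.choose i : ℝ) * |U i| * |B (k - i)| * L ^ k := by
        rw [← pow_add, Nat.add_sub_cancel' hij]

/-- The size of the region. -/
theorem Rs_t {α β d t y : ℝ} (hα : α ≠ 0) (h : Rs α β d t y) : |t| ≤ 4 * (|α| + |β|) := by
  obtain ⟨h1, h2, h3, -⟩ := h
  have e : t = α * rr α β t y + β * y ^ 2 := by
    unfold rr
    field_simp
    ring
  have h4 : y ^ 2 ≤ 4 := by
    have := abs_le.1 h1
    nlinarith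
  have h5 : |α * rr α β t y| ≤ |α| * 4 := by
    rw [abs_mul, abs_of_nonneg (show 0 ≤ rr α β t y by linarith)]
    gcongr
  have h6 : |β * y ^ 2| ≤ |β| * 4 := by
    rw [abs_mul, abs_of_nonneg (sq_nonneg y)]
    gcongr
  calc |t| = |α * rr α β t y + β * y ^ 2| := by rw [← e]
    _ ≤ |α * rr α β t y| + |β * y ^ 2| := abs_add_le _ _
    _ ≤ |α| * 4 + |β| * 4 := add_le_add h5 h6
    _ = _ := by ring

/-- The norm on `E 1`. -/
theorem norm_E1 (z : E 1) : ‖z‖ = |z 0| := by
  rw [EuclideanSpace.norm_eq]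
  simp [Real.sqrt_sq_eq_abs]

/-- The mass of a bounded density on a strip. -/
theorem strip_int {T ν B0 : ℝ} (hT : 0 ≤ T) (hν : 0 ≤ ν) {b : ℝ × E 1 → ℂ} (hb : Measurable b)
    (hB : ∀ p, ‖b p‖ ≤ B0) (hs : ∀ t (z : E 1), b (t, z) ≠ 0 → |t| ≤ T ∧ |z 0| ≤ ν) :
    Integrable b ∧ ∫ p, ‖b p‖ ≤ B0 * (2 * T * (ν * volume.real (closedBall (0 : E 1) 1))) := by
  set S : Set (ℝ × E 1) := Icc (-T) T ×ˢ closedBall (0 : E 1) ν with hS
  have hSm : MeasurableSet S := measurableSet_Icc.prod measurableSet_closedBall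
  have hvol : volume.real S = 2 * T * (ν * volume.real (closedBall (0 : E 1) 1)) := by
    rw [hS, Measure.volume_eq_prod, measureReal_prod_prod, Real.volume_real_Icc_of_le (by linarith)]
    have : volume.real (closedBall (0 : E 1) ν) = ν * volume.real (closedBall (0 : E 1) 1) := by
      rw [Measure.real, Measure.real, Measure.addHaar_closedBall' volume (0 : E 1) hν,
        finrank_euclideanSpace_fin, pow_one, ENNReal.toReal_mul, ENNReal.toReal_ofReal hν]
    rw [this]
    ring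
  have hv : volume S ≠ ⊤ := by
    rw [hS, Measure.volume_eq_prod, Measure.prod_prod]
    exact ENNReal.mul_ne_top (by rw [Real.volume_Icc]; exact ENNReal.ofReal_ne_top)
      (isCompact_closedBall (0 : E 1) ν).measure_lt_top.ne
  have h1 : S.indicator b = b := by
    funext p
    by_cases hp : p ∈ S
    · rw [indicator_of_mem hp]
    · rw [indicator_of_notMem hp]
      by_contra h
      obtain ⟨h3, h4⟩ := hs p.1 p.2 (Ne.symm h)
      refine hp ⟨abs_le.1 h3, ?_⟩
      rw [mem_closedBall_zero_iff, norm_E1]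
      exact h4
  have h2 : IntegrableOn b S :=
    Measure.integrableOn_of_bounded (M := B0) hv hb.aestronglyMeasurable
      (Filter.Eventually.of_forall hB)
  refine ⟨?_, ?_⟩
  · rw [← h1, integrable_indicator_iff hSm]
    exact h2
  · have h3 : ∫ p, ‖b p‖ = ∫ p in S, ‖b p‖ := by
      rw [← integral_indicator hSm]
      refine integral_congr_ae (Filter.Eventually.of_forall fun p => ?_)
      simp only
      conv_lhs => rw [← h1]
      rw [norm_indicator_eq_indicator_norm]
    rw [h3]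
    calc ∫ p in S, ‖b p‖ ≤ ∫ _ in S, B0 := by
          refine integral_mono_of_nonneg (Filter.Eventually.of_forall fun _ => norm_nonneg _)
            ?_ (Filter.Eventually.of_forall hB)
          exact integrableOn_const hv
      _ = B0 * volume.real S := by rw [setIntegral_const, smul_eq_mul, mul_comm]
      _ = _ := by rw [hvol]

end Pool.Agent.LQ
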