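import Pool.Agent.LQ.COREQ
import Pool.Agent.LQ.MOD0

/-!
LEAFQ: one strip `|y| ~ ν`, finitely many boxes.
-/

set_option autoImplicit false

namespace Pool.Agent.LQ

open MeasureTheory Set Metric Pool.Agent.MP_6cbfb8_an Pool.Agent.LF Pool.Agent.GNP
open scoped RealInnerProductSpace ContDiff ENNReal NNReal

/-- The piece of `b` on a box. -/
noncomputable def bxp (rt r : ℝ) (Mt M : ℕ) (b : ℝ × E 1 → ℂ) (c : ℕ × (Fin 1 → ℕ))
    (p : ℝ × E 1) : ℂ :=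
  ((chi1 0 rt Mt c.1 p.1 * chi2 (0 : E 1) r M c.2 p.2 : ℝ) : ℂ) * b p

theorem bxp_meas {rt r : ℝ} {Mt M : ℕ} {b : ℝ × E 1 → ℂ} (hb : Measurable b)
    (c : ℕ × (Fin 1 → ℕ)) : Measurable (bxp rt r Mt M b c) := by
  unfold bxp
  have h1 : Measurable fun p : ℝ × E 1 => chi1 0 rt Mt c.1 p.1 :=
    (contDiff_chi1 0 rt Mt c.1).continuous.measurable.comp measurable_fst
  have h2 : Measurable fun p : ℝ × E 1 => chi2 (0 : E 1) r M c.2 p.2 :=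
    (contDiff_chi2 (0 : E 1) r M c.2).continuous.measurable.comp measurable_snd
  exact (Complex.measurable_ofReal.comp (h1.mul h2)).mul hb

theorem bxp_norm_le {rt r : ℝ} {Mt M : ℕ} {b : ℝ × E 1 → ℂ} (c : ℕ × (Fin 1 → ℕ))
    (p : ℝ × E 1) : ‖bxp rt r Mt M b c p‖ ≤ ‖b p‖ := by
  unfold bxp
  rw [norm_mul, Complex.norm_real, Real.norm_eq_abs]
  have h : |chi1 0 rt Mt c.1 p.1 * chi2 (0 : E 1) r M c.2 p.2| ≤ 1 := by
    rw [abs_mul, abs_of_nonneg (chi1_nonneg _ _ _ _ _), abs_of_nonneg (chi2_nonneg _ _ _ _ _)]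
    exact mul_le_one₀ (chi1_le_one _ _ _ _ _) (chi2_nonneg _ _ _ _ _) (chi2_le_one _ _ _ _ _)
  calc |chi1 0 rt Mt c.1 p.1 * chi2 (0 : E 1) r M c.2 p.2| * ‖b p‖ ≤ 1 * ‖b p‖ := by gcongr
    _ = ‖b p‖ := one_mul _

theorem bxp_supp {rt r : ℝ} (hrt : 0 < rt) (hr : 0 < r) {Mt M : ℕ} {b : ℝ × E 1 → ℂ}
    {c : ℕ × (Fin 1 → ℕ)} {p : ℝ × E 1} (h : bxp rt r Mt M b c p ≠ 0) :
    |p.1 - tc 0 rt Mt c.1| < rt ∧ ‖p.2 - zc (0 : E 1) r M c.2‖ ≤ r ∧ b p ≠ 0 := by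
  unfold bxp at h
  have hb : b p ≠ 0 := right_ne_zero_of_mul h
  have hc : ((chi1 0 rt Mt c.1 p.1 * chi2 (0 : E 1) r M c.2 p.2 : ℝ) : ℂ) ≠ 0 :=
    left_ne_zero_of_mul h
  have hc' : chi1 0 rt Mt c.1 p.1 * chi2 (0 : E 1) r M c.2 p.2 ≠ 0 := by
    intro h0
    exact hc (by rw [h0]; simp)
  have h2 := chi2_supp hr (right_ne_zero_of_mul hc')
  rw [Nat.cast_one, Real.sqrt_one, one_mul] at h2
  exact ⟨chi1_supp hrt (left_ne_zero_of_mul hc'), h2, hb⟩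

theorem bxp_smooth {rt r : ℝ} {Mt M : ℕ} {b : ℝ × E 1 → ℂ}
    (hb : ∀ t, ContDiff ℝ ∞ fun z => b (t, z)) (c : ℕ × (Fin 1 → ℕ)) (t : ℝ) :
    ContDiff ℝ ∞ fun z => bxp rt r Mt M b c (t, z) := by
  unfold bxp
  simp only
  have h1 : ContDiff ℝ ∞ fun z : E 1 => chi1 0 rt Mt c.1 t * chi2 (0 : E 1) r M c.2 z :=
    contDiff_const.mul (contDiff_chi2 (0 : E 1) r M c.2)
  have h2 : ContDiff ℝ ∞ fun z : E 1 =>
      ((chi1 0 rt Mt c.1 t * chi2 (0 : E 1) r M c.2 z : ℝ) : ℂ) :=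
    Complex.ofRealCLM.contDiff.comp h1
  exact h2.mul (hb t)

theorem bxp_sum {rt r T ν : ℝ} (hrt : 0 < rt) (hr : 0 < r) {Mt M : ℕ} (hT : T ≤ rt * Mt)
    (hν : ν ≤ r * M) {b : ℝ × E 1 → ℂ} (hs : ∀ p, b p ≠ 0 → |p.1| ≤ T ∧ ‖p.2‖ ≤ ν)
    (p : ℝ × E 1) : b p = ∑ c ∈ gi Mt ×ˢ gk 1 M, bxp rt r Mt M b c p := by
  by_cases h : b p = 0
  · unfold bxp
    simp [h]
  · obtain ⟨h1, h2⟩ := hs p h
    have e : ∑ c ∈ gi Mt ×ˢ gk 1 M, chi1 0 rt Mt c.1 p.1 * chi2 (0 : E 1) r M c.2 p.2 = 1 := by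
      rw [Finset.sum_product]
      simp only
      rw [← Finset.sum_mul_sum, sum_chi1 hrt (by rw [sub_zero]; exact h1.trans hT),
        sum_chi2 hr (by rw [sub_zero]; exact h2.trans hν), one_mul]
    unfold bxp
    rw [← Finset.sum_mul, ← Complex.ofReal_sum, e, Complex.ofReal_one, one_mul]

theorem bxp_bd {rt r ν κ : ℝ} (hκ : 0 < κ) (hν : 0 < ν) (hr : r = κ * ν) {Mt M : ℕ}
    {Bc : ℕ → ℝ} (hBc : ∀ (z0 : E 1) (r : ℝ) (M : ℕ) (k : Fin 1 → ℕ), 0 < r →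
      ∀ j z, ‖iteratedFDeriv ℝ j (chi2 z0 r M k) z‖ ≤ Bc j / r ^ j)
    {b : ℝ × E 1 → ℂ} (hb : ∀ t, ContDiff ℝ ∞ fun z => b (t, z)) {B : ℕ → ℝ}
    (hB : ∀ t k z, ‖iteratedFDeriv ℝ k (fun z => b (t, z)) z‖ ≤ B k * (1 / ν) ^ k)
    (c : ℕ × (Fin 1 → ℕ)) (t : ℝ) (k : ℕ) (z : E 1) :
    ‖iteratedFDeriv ℝ k (fun z => bxp rt r Mt M b c (t, z)) z‖ ≤
      (∑ i ∈ Finset.range (k + 1), (k.choose i : ℝ) * |Bc i * (1 / κ) ^ i| * |B (k - i)|) *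
        (1 / ν) ^ k := by
  have hr0 : 0 < r := by rw [hr]; positivity
  set u : E 1 → ℝ := fun z => chi1 0 rt Mt c.1 t * chi2 (0 : E 1) r M c.2 z with hu
  have huc : ContDiff ℝ ∞ u := contDiff_const.mul (contDiff_chi2 (0 : E 1) r M c.2)
  have hub : ∀ i x, ‖iteratedFDeriv ℝ i u x‖ ≤ Bc i * (1 / κ) ^ i * (1 / ν) ^ i := by
    intro i x
    have h3 := iteratedFDeriv_const_smul_apply (𝕜 := ℝ) (i := i) (a := chi1 0 rt Mt c.1 t)
      (f := chi2 (0 : E 1) r M c.2) (x := x)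
      ((contDiff_chi2 (0 : E 1) r M c.2).contDiffAt.of_le (by exact_mod_cast le_top))
    have h4 : u = chi1 0 rt Mt c.1 t • chi2 (0 : E 1) r M c.2 := by
      funext z; simp [hu]
    rw [h4, h3, norm_smul, Real.norm_eq_abs, abs_of_nonneg (chi1_nonneg _ _ _ _ _)]
    calc chi1 0 rt Mt c.1 t * ‖iteratedFDeriv ℝ i (chi2 (0 : E 1) r M c.2) x‖ ≤
          1 * (Bc i / r ^ i) := by
          gcongr
          · exact chi1_le_one _ _ _ _ _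
          · exact hBc (0 : E 1) r M c.2 hr0 i x
      _ = Bc i * (1 / κ) ^ i * (1 / ν) ^ i := by
          rw [one_mul, hr, mul_assoc, ← mul_pow, div_eq_mul_inv, ← inv_pow]
          congr 2
          field_simp
  exact mul_bd huc (hb t) (by positivity) hub (hB t) k z

/-- ROW MOD1. -/
theorem mod1 {α β : ℝ} (hα : α ≠ 0) (hβ : β ≠ 0) (hαβ : α ≠ β) {X : ℝ → ℝ × E 1 → E 3}
    {A : ℕ → ℝ} (hX : SF α β X A) : ∀ (B : ℕ → ℝ) (ε : ℝ), 0 < ε → ∃ C : ℝ,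
    ∀ d, 0 ≤ d → d ≤ 1 → ∀ ν, 0 < ν → ν ≤ 4 → ∀ b : ℝ × E 1 → ℂ, Measurable b →
      (∀ t, ContDiff ℝ ∞ fun z => b (t, z)) →
      (∀ t k z, ‖iteratedFDeriv ℝ k (fun z => b (t, z)) z‖ ≤ B k * (1 / ν) ^ k) →
      (∀ t (z : E 1), ¬ (Rs α β d t (z 0) ∧ ν / 4 ≤ |z 0| ∧ |z 0| ≤ ν) → b (t, z) = 0) →
      ∀ R : ℝ, 1 ≤ R → 16 ≤ R * ν ^ 2 →
        ∫⁻ ξ in {ξ : E 3 | R ≤ ‖ξ‖ ∧ ‖ξ‖ ≤ 2 * R}, ‖Tb (X d) b ξ‖ₑ ^ (4 : ℝ) ≤
          ENNReal.ofReal (C * R ^ (-1 + ε) / ν) := by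
  obtain ⟨c0, hc0, hc08, hcore⟩ := coreQ hα hβ hαβ hX
  intro B ε hε
  obtain ⟨Bc, hBc0, -, hBc⟩ := caps_bounds 1
  set κ : ℝ := c0 / 8 with hκ
  have hκ0 : 0 < κ := by rw [hκ]; positivity
  obtain ⟨C, hC⟩ := hcore (fun k => ∑ i ∈ Finset.range (k + 1),
    (k.choose i : ℝ) * |Bc i * (1 / κ) ^ i| * |B (k - i)|) ε hε
  set T : ℝ := 4 * (|α| + |β|) with hT
  have hT0 : 0 ≤ T := by rw [hT]; positivity
  set rt : ℝ := c0 / 2 with hrt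
  have hrt0 : 0 < rt := by rw [hrt]; positivity
  set M : ℕ := ⌈1 / κ⌉₊ with hM
  set Mt : ℕ := ⌈T / rt⌉₊ with hMt
  set S : Finset (ℕ × (Fin 1 → ℕ)) := gi Mt ×ˢ gk 1 M with hS
  refine ⟨(S.card : ℝ) ^ 4 * (4 * |C|), ?_⟩
  intro d hd0 hd1 ν hν hν4 b hbm hbs hbB hsupp R hR hRν
  have hXc : Continuous (X d) := (hX d hd0 hd1).1.continuous
  have hR0 : 0 < R := by linarith
  set r : ℝ := κ * ν with hr
  have hr0 : 0 < r := by rw [hr]; positivity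
  have hMν : ν ≤ r * M := by
    have h1 : 1 ≤ κ * M := caps_le_ceil hκ0
    calc ν = 1 * ν := (one_mul _).symm
      _ ≤ (κ * M) * ν := by gcongr
      _ = r * M := by rw [hr]; ring
  have hMT : T ≤ rt * Mt := caps_le_ceil hrt0
  have hs : ∀ t (z : E 1), b (t, z) ≠ 0 →
      Rs α β d t (z 0) ∧ ν / 4 ≤ |z 0| ∧ |z 0| ≤ ν := by
    intro t z h
    by_contra h1
    exact h (hsupp t z h1)
  have hs1 : ∀ p : ℝ × E 1, b p ≠ 0 → |p.1| ≤ T ∧ ‖p.2‖ ≤ ν := by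
    intro p hp
    obtain ⟨h1, -, h3⟩ := hs p.1 p.2 hp
    exact ⟨Rs_t hα h1, by rw [norm_E1]; exact h3⟩
  have hb0 : ∀ p, ‖b p‖ ≤ |B 0| := by
    intro p
    have := hbB p.1 0 p.2
    rw [norm_iteratedFDeriv_zero, pow_zero, mul_one] at this
    exact this.trans (le_abs_self _)
  -- integrability of the pieces
  have hint : ∀ c, Integrable (bxp rt r Mt M b c) := by
    intro c
    refine (strip_int hT0 hν.le (bxp_meas hbm c)
      (fun p => (bxp_norm_le c p).trans (hb0 p)) ?_).1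
    intro t z h
    obtain ⟨-, -, h3⟩ := bxp_supp hrt0 hr0 h
    exact ⟨(hs1 _ h3).1, by rw [← norm_E1]; exact (hs1 _ h3).2⟩
  -- one piece
  have hone : ∀ c, ∫⁻ ξ in {ξ : E 3 | R ≤ ‖ξ‖ ∧ ‖ξ‖ ≤ 2 * R},
      ‖Tb (X d) (bxp rt r Mt M b c) ξ‖ₑ ^ (4 : ℝ) ≤
        ENNReal.ofReal (4 * |C| * (R ^ (-1 + ε) / ν)) := by
    intro c
    by_cases h : ∃ p, bxp rt r Mt M b c p ≠ 0
    · obtain ⟨⟨t0, z0⟩, hp⟩ := h
      obtain ⟨h1, h2, h3⟩ := bxp_supp hrt0 hr0 hp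
      obtain ⟨h4, h5, h6⟩ := hs t0 z0 h3
      have hz : 0 < |z0 0| := by linarith
      have hz0 : z0 0 ≠ 0 := abs_pos.1 hz
      have hzR : 1 ≤ R * z0 0 ^ 2 := by
        have h7 : (ν / 4) ^ 2 ≤ z0 0 ^ 2 := by
          rw [← sq_abs (z0 0)]
          gcongr
        have h8 : R * (ν / 4) ^ 2 ≤ R * z0 0 ^ 2 := by gcongr
        nlinarith
      refine (hC d hd0 hd1 t0 z0 h4 hz0 (bxp rt r Mt M b c) (bxp_meas hbm c)
        (bxp_smooth hbs c) ?_ ?_ R hR hzR).trans ?_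
      · intro t k z
        refine (bxp_bd hκ0 hν hr hBc hbs hbB c t k z).trans ?_
        refine mul_le_mul_of_nonneg_left ?_ ?_
        · refine pow_le_pow_left₀ (by positivity) ?_ k
          exact one_div_le_one_div_of_le hz h6
        · exact Finset.sum_nonneg fun i _ => by positivity
      · intro t z hz
        by_contra hne
        obtain ⟨g1, g2, -⟩ := bxp_supp hrt0 hr0 hne
        simp only at g1 g2 h1 h2
        rcases hz with hz | hz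
        · have : |t - t0| ≤ |t - tc 0 rt Mt c.1| + |t0 - tc 0 rt Mt c.1| := by
            rw [abs_sub_comm t0]
            exact abs_sub_le _ _ _
          rw [hrt] at g1 h1
          linarith
        · have : ‖z - z0‖ ≤ ‖z - zc (0 : E 1) r M c.2‖ + ‖z0 - zc (0 : E 1) r M c.2‖ := by
            rw [← norm_neg (z0 - _), neg_sub]
            refine le_trans (le_of_eq ?_) (norm_add_le _ _)
            congr 1
            abel
          have h9 : r + r ≤ c0 * |z0 0| := by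
            rw [hr, hκ]
            nlinarith
          linarith
      · refine ENNReal.ofReal_le_ofReal ?_
        have h7 : C * R ^ (-1 + ε) / |z0 0| ≤ |C| * R ^ (-1 + ε) / (ν / 4) := by
          have hRp : 0 < R ^ (-1 + ε) := Real.rpow_pos_of_pos hR0 _
          calc C * R ^ (-1 + ε) / |z0 0| ≤ |C| * R ^ (-1 + ε) / |z0 0| := by
                gcongr
                exact le_abs_self C
            _ ≤ |C| * R ^ (-1 + ε) / (ν / 4) := by gcongr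
        refine h7.trans (le_of_eq ?_)
        field_simp
    · have h0 : bxp rt r Mt M b c = fun _ => 0 := by
        funext p
        by_contra hp
        exact h ⟨p, hp⟩
      have h1 : ∀ ξ, Tb (X d) (bxp rt r Mt M b c) ξ = 0 := by
        intro ξ
        unfold Tb
        rw [h0]
        simp
      simp only [h1]
      simp
  -- the sum
  have hsum : ∀ ξ, Tb (X d) b ξ = ∑ c ∈ S, Tb (X d) (bxp rt r Mt M b c) ξ := fun ξ =>
    Tb_fin hXc S _ (fun c _ => hint c) (bxp_sum hrt0 hr0 hMT hMν hs1) ξ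
  have hmeas : ∀ c, Measurable fun ξ => ‖Tb (X d) (bxp rt r Mt M b c) ξ‖ₑ ^ (4 : ℝ) := fun c =>
    (Tb_measurable hXc (hint c)).enorm.pow_const _
  calc ∫⁻ ξ in {ξ : E 3 | R ≤ ‖ξ‖ ∧ ‖ξ‖ ≤ 2 * R}, ‖Tb (X d) b ξ‖ₑ ^ (4 : ℝ)
      ≤ ∫⁻ ξ in {ξ : E 3 | R ≤ ‖ξ‖ ∧ ‖ξ‖ ≤ 2 * R}, (S.card : ℝ≥0∞) ^ ((4 : ℝ) - 1) *
          ∑ c ∈ S, ‖Tb (X d) (bxp rt r Mt M b c) ξ‖ₑ ^ (4 : ℝ) := by
        refine lintegral_mono fun ξ => ?_
        simp only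
        rw [hsum ξ]
        refine (ENNReal.rpow_le_rpow (enorm_sum_le _ _) (by norm_num)).trans ?_
        exact ENNReal.rpow_sum_le_const_mul_sum_rpow _ _ (by norm_num)
    _ = (S.card : ℝ≥0∞) ^ ((4 : ℝ) - 1) * ∑ c ∈ S,
          ∫⁻ ξ in {ξ : E 3 | R ≤ ‖ξ‖ ∧ ‖ξ‖ ≤ 2 * R},
            ‖Tb (X d) (bxp rt r Mt M b c) ξ‖ₑ ^ (4 : ℝ) := by
        rw [lintegral_const_mul _ (Finset.measurable_sum _ fun c _ => hmeas c),
          lintegral_finsetSum _ fun c _ => hmeas c]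
    _ ≤ (S.card : ℝ≥0∞) ^ ((4 : ℝ) - 1) * ∑ c ∈ S,
          ENNReal.ofReal (4 * |C| * (R ^ (-1 + ε) / ν)) := by
        gcongr with c hc
        exact hone c
    _ = ENNReal.ofReal ((S.card : ℝ) ^ 4 * (4 * |C|) * R ^ (-1 + ε) / ν) := by
        rw [Finset.sum_const, nsmul_eq_mul]
        have e1 : (S.card : ℝ≥0∞) ^ ((4 : ℝ) - 1) = ENNReal.ofReal ((S.card : ℝ) ^ 3) := by
          rw [ENNReal.ofReal_pow (by positivity), ENNReal.ofReal_natCast]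
          norm_num
        rw [e1, ← ENNReal.ofReal_natCast, ← ENNReal.ofReal_mul (by positivity),
          ← ENNReal.ofReal_mul (by positivity)]
        congr 1
        ring

end Pool.Agent.LQ
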