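import Pool.Agent.LF.LP
import Mathlib.Analysis.Complex.ExponentialBounds

/-!
The sum over the pieces `|y| ~ 2^(-j)` and over the annuli `|ξ| ~ R`, exponents `p > 3`.
-/

set_option autoImplicit false

namespace Pool.Agent.LQ

open MeasureTheory Set Pool.Agent.LF
open scoped ENNReal

/-- Interpolation between the second and the fourth moment. -/
theorem interp24 {X : Type*} [MeasurableSpace X] (μ : Measure X) (f : X → ℝ≥0∞)
    (hf : Measurable f) (q : ℝ) (hq2 : 2 < q) (hq4 : q < 4) :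
    ∫⁻ x, f x ^ q ∂μ ≤
      (∫⁻ x, f x ^ (2 : ℝ) ∂μ) ^ ((4 - q) / 2) * (∫⁻ x, f x ^ (4 : ℝ) ∂μ) ^ ((q - 2) / 2) := by
  have h4 : 4 - q ≠ 0 := by linarith
  have h2 : q - 2 ≠ 0 := by linarith
  have h4' : 0 < 4 - q := by linarith
  have h2' : 0 < q - 2 := by linarith
  have hpq : (2 / (4 - q)).HolderConjugate (2 / (q - 2)) := by
    rw [Real.holderConjugate_iff]
    refine ⟨by rw [lt_div_iff₀ h4']; linarith, ?_⟩
    field_simp
    ring
  have h := ENNReal.lintegral_mul_le_Lp_mul_Lq μ hpq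
    (f := fun x => f x ^ (4 - q)) (g := fun x => f x ^ (2 * q - 4))
    (hf.pow_const _).aemeasurable (hf.pow_const _).aemeasurable
  have e0 : ∀ x, ((fun x => f x ^ (4 - q)) * fun x => f x ^ (2 * q - 4)) x = f x ^ q := by
    intro x
    simp only [Pi.mul_apply]
    rw [← ENNReal.rpow_add_of_nonneg _ _ (by linarith) (by linarith)]
    congr 1
    ring
  have e1 : ∀ x, (f x ^ (4 - q)) ^ (2 / (4 - q)) = f x ^ (2 : ℝ) := by
    intro x
    rw [← ENNReal.rpow_mul]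
    congr 1
    field_simp
  have e2 : ∀ x, (f x ^ (2 * q - 4)) ^ (2 / (q - 2)) = f x ^ (4 : ℝ) := by
    intro x
    rw [← ENNReal.rpow_mul]
    congr 1
    field_simp
    ring
  simp only [e0, e1, e2, one_div_div] at h
  exact h

/-- From the `q`-th moments on the dyadic annuli to the `L^p` norm. -/
theorem annuli (n : ℕ) (p q : ℝ) (hq0 : 0 < q) (hqp : q ≤ p) (γ : ℝ) (hγ : 0 < γ)
    (C1 B : ℝ) (k0 : ℕ) : ∃ C : ℝ≥0∞, C ≠ ∞ ∧
      ∀ F : EuclideanSpace ℝ (Fin n) → ℂ, Measurable F → (∀ ξ, ‖F ξ‖ ≤ B) →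
        (∀ k : ℕ, k0 ≤ k → ∫⁻ ξ in {ξ | (2 : ℝ) ^ k ≤ ‖ξ‖ ∧ ‖ξ‖ ≤ 2 * 2 ^ k}, ‖F ξ‖ₑ ^ q ≤
          ENNReal.ofReal (C1 * ((2 : ℝ) ^ k) ^ (-γ))) →
        ∫⁻ ξ, ‖F ξ‖ₑ ^ p ≤ C := by
  set b : ℝ≥0∞ := ENNReal.ofReal B with hb
  set r : ℝ≥0∞ := ENNReal.ofReal ((2 : ℝ) ^ (-γ)) with hr
  have hr1 : r < 1 := by
    rw [hr, ENNReal.ofReal_lt_one]
    exact Real.rpow_lt_one_of_one_lt_of_neg (by norm_num) (by linarith)
  set K : ℝ≥0∞ := b ^ (p - q) * ENNReal.ofReal |C1| with hK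
  have hK' : K ≠ ∞ := ENNReal.mul_ne_top
    (ENNReal.rpow_ne_top_of_nonneg (by linarith) ENNReal.ofReal_ne_top) ENNReal.ofReal_ne_top
  refine ⟨b ^ p * volume (Metric.closedBall (0 : EuclideanSpace ℝ (Fin n)) (2 ^ k0)) +
    K * (1 - r)⁻¹, ?_, ?_⟩
  · refine ENNReal.add_ne_top.2 ⟨ENNReal.mul_ne_top
      (ENNReal.rpow_ne_top_of_nonneg (by linarith) ENNReal.ofReal_ne_top)
      measure_closedBall_lt_top.ne, ENNReal.mul_ne_top hK' ?_⟩
    exact ENNReal.inv_ne_top.2 (tsub_pos_of_lt hr1).ne'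
  intro F hF hFB hR
  have hFb : ∀ ξ, ‖F ξ‖ₑ ≤ b := by
    intro ξ
    rw [hb, ← ofReal_norm]
    exact ENNReal.ofReal_le_ofReal (hFB ξ)
  set A : ℕ → Set (EuclideanSpace ℝ (Fin n)) := fun k =>
    {ξ | (2 : ℝ) ^ k ≤ ‖ξ‖ ∧ ‖ξ‖ ≤ 2 * 2 ^ k} with hA
  have hcover : (univ : Set (EuclideanSpace ℝ (Fin n))) ⊆
      Metric.closedBall 0 (2 ^ k0) ∪ ⋃ k, A (k0 + k) := by
    intro ξ _
    by_cases h : ‖ξ‖ ≤ 2 ^ k0
    · left
      simpa using h
    · right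
      have h1 : (1 : ℝ) ≤ ‖ξ‖ / 2 ^ k0 := by
        rw [le_div_iff₀ (by positivity), one_mul]
        exact (not_le.1 h).le
      obtain ⟨k, hk1, hk2⟩ := exists_nat_pow_near (y := (2 : ℝ)) h1 (by norm_num)
      rw [mem_iUnion]
      refine ⟨k, ?_, ?_⟩
      · rw [le_div_iff₀ (by positivity)] at hk1
        calc (2 : ℝ) ^ (k0 + k) = 2 ^ k * 2 ^ k0 := by ring
          _ ≤ ‖ξ‖ := hk1
      · rw [div_lt_iff₀ (by positivity)] at hk2
        calc ‖ξ‖ ≤ 2 ^ (k + 1) * 2 ^ k0 := hk2.le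
          _ = 2 * 2 ^ (k0 + k) := by ring
  have hA4 : ∀ k, ∫⁻ ξ in A (k0 + k), ‖F ξ‖ₑ ^ p ≤ K * r ^ k := by
    intro k
    have h1 : ∫⁻ ξ in A (k0 + k), ‖F ξ‖ₑ ^ p ≤
        b ^ (p - q) * ∫⁻ ξ in A (k0 + k), ‖F ξ‖ₑ ^ q := by
      rw [← lintegral_const_mul _ (hF.enorm.pow_const q)]
      exact lintegral_mono fun ξ => lp_pow (hFb ξ) hq0.le hqp
    have h3 : ∫⁻ ξ in A (k0 + k), ‖F ξ‖ₑ ^ q ≤ ENNReal.ofReal |C1| * r ^ k := by
      refine (hR (k0 + k) (Nat.le_add_right _ _)).trans ?_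
      rw [hr, ← ENNReal.ofReal_pow (by positivity), ← ENNReal.ofReal_mul (abs_nonneg _)]
      refine ENNReal.ofReal_le_ofReal ?_
      have e : ((2 : ℝ) ^ (k0 + k)) ^ (-γ) = ((2 : ℝ) ^ (-γ)) ^ (k0 + k) := by
        rw [← Real.rpow_natCast, ← Real.rpow_natCast, ← Real.rpow_mul (by norm_num),
          ← Real.rpow_mul (by norm_num), mul_comm]
      rw [e]
      refine mul_le_mul (le_abs_self C1) ?_ (by positivity) (abs_nonneg _)
      exact pow_le_pow_of_le_one (by positivity)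
        (Real.rpow_lt_one_of_one_lt_of_neg (by norm_num) (by linarith)).le (Nat.le_add_left _ _)
    refine h1.trans ?_
    rw [hK, mul_assoc]
    exact mul_le_mul_right h3 _
  calc ∫⁻ ξ, ‖F ξ‖ₑ ^ p = ∫⁻ ξ in univ, ‖F ξ‖ₑ ^ p := by rw [setLIntegral_univ]
    _ ≤ ∫⁻ ξ in Metric.closedBall 0 (2 ^ k0) ∪ ⋃ k, A (k0 + k), ‖F ξ‖ₑ ^ p :=
        lintegral_mono_set hcover
    _ ≤ (∫⁻ ξ in Metric.closedBall 0 (2 ^ k0), ‖F ξ‖ₑ ^ p) +
        ∫⁻ ξ in ⋃ k, A (k0 + k), ‖F ξ‖ₑ ^ p := lintegral_union_le _ _ _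
    _ ≤ b ^ p * volume (Metric.closedBall (0 : EuclideanSpace ℝ (Fin n)) (2 ^ k0)) +
        K * (1 - r)⁻¹ := by
        refine add_le_add ?_ ?_
        · refine (lintegral_mono fun ξ => ENNReal.rpow_le_rpow (hFb ξ) (by linarith)).trans ?_
          rw [setLIntegral_const]
        · refine (lintegral_iUnion_le _ _).trans ?_
          refine (ENNReal.tsum_le_tsum hA4).trans ?_
          rw [ENNReal.tsum_mul_left, ENNReal.tsum_geometric]

/-- One piece, in real numbers. -/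
theorem piece_real {q ε C0 R x : ℝ} (hq3 : 3 < q) (hq4 : q < 4) (hε : 0 < ε) (hC0 : 1 ≤ C0)
    (hR : 1 ≤ R) (hx1 : 1 ≤ x) (hx : x ≤ C0 * R ^ (1 / 2 : ℝ)) :
    (C0 * (R / x)) ^ ((4 - q) / 2) * (C0 * (R ^ ε * (x / R))) ^ ((q - 2) / 2) ≤
      C0 ^ 2 * R ^ (-((q - 3) / 2) + ε) := by
  have hR0 : 0 < R := by linarith
  have hx0 : 0 < x := by linarith
  have hC00 : 0 < C0 := by linarith
  have hRε : 0 < R ^ ε := Real.rpow_pos_of_pos hR0 _
  have e1 : (C0 * (R / x)) ^ ((4 - q) / 2) * (C0 * (R ^ ε * (x / R))) ^ ((q - 2) / 2) =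
      C0 * (x ^ (q - 3) * R ^ (3 - q + ε * ((q - 2) / 2))) := by
    rw [Real.mul_rpow hC00.le (by positivity), Real.mul_rpow hC00.le (by positivity),
      Real.div_rpow hR0.le hx0.le, Real.mul_rpow hRε.le (by positivity),
      Real.div_rpow hx0.le hR0.le, ← Real.rpow_mul hR0.le]
    have a1 : C0 ^ ((4 - q) / 2) * C0 ^ ((q - 2) / 2) = C0 := by
      rw [← Real.rpow_add hC00]
      have : (4 - q) / 2 + (q - 2) / 2 = 1 := by ring
      rw [this, Real.rpow_one]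
    have a2 : x ^ ((q - 2) / 2) / x ^ ((4 - q) / 2) = x ^ (q - 3) := by
      rw [← Real.rpow_sub hx0]
      congr 1
      ring
    have a3 : R ^ ((4 - q) / 2) * R ^ (ε * ((q - 2) / 2)) / R ^ ((q - 2) / 2) =
        R ^ (3 - q + ε * ((q - 2) / 2)) := by
      rw [← Real.rpow_add hR0, ← Real.rpow_sub hR0]
      congr 1
      ring
    calc C0 ^ ((4 - q) / 2) * (R ^ ((4 - q) / 2) / x ^ ((4 - q) / 2)) *
          (C0 ^ ((q - 2) / 2) * (R ^ (ε * ((q - 2) / 2)) * (x ^ ((q - 2) / 2) /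
            R ^ ((q - 2) / 2))))
        = (C0 ^ ((4 - q) / 2) * C0 ^ ((q - 2) / 2)) *
          ((x ^ ((q - 2) / 2) / x ^ ((4 - q) / 2)) *
          (R ^ ((4 - q) / 2) * R ^ (ε * ((q - 2) / 2)) / R ^ ((q - 2) / 2))) := by
          ring
      _ = _ := by rw [a1, a2, a3]
  rw [e1]
  have e2 : x ^ (q - 3) ≤ C0 * R ^ ((1 / 2) * (q - 3)) := by
    calc x ^ (q - 3) ≤ (C0 * R ^ (1 / 2 : ℝ)) ^ (q - 3) :=
          Real.rpow_le_rpow hx0.le hx (by linarith)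
      _ = C0 ^ (q - 3) * R ^ ((1 / 2) * (q - 3)) := by
          rw [Real.mul_rpow hC00.le (by positivity), ← Real.rpow_mul hR0.le]
      _ ≤ C0 ^ (1 : ℝ) * R ^ ((1 / 2) * (q - 3)) := by
          refine mul_le_mul_of_nonneg_right ?_ (by positivity)
          exact Real.rpow_le_rpow_of_exponent_le hC0 (by linarith)
      _ = _ := by rw [Real.rpow_one]
  calc C0 * (x ^ (q - 3) * R ^ (3 - q + ε * ((q - 2) / 2)))
      ≤ C0 * ((C0 * R ^ ((1 / 2) * (q - 3))) * R ^ (3 - q + ε * ((q - 2) / 2))) := by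
        gcongr
    _ = C0 ^ 2 * (R ^ ((1 / 2) * (q - 3)) * R ^ (3 - q + ε * ((q - 2) / 2))) := by ring
    _ = C0 ^ 2 * R ^ ((1 / 2) * (q - 3) + (3 - q + ε * ((q - 2) / 2))) := by
        rw [← Real.rpow_add hR0]
    _ ≤ C0 ^ 2 * R ^ (-((q - 3) / 2) + ε) := by
        refine mul_le_mul_of_nonneg_left ?_ (by positivity)
        refine Real.rpow_le_rpow_of_exponent_le hR ?_
        nlinarith

/-- `J ≤ (2 / δ) (2^J)^δ`. -/
theorem nat_le_rpow {δ : ℝ} (hδ : 0 < δ) (J : ℕ) : (J : ℝ) ≤ 2 / δ * ((2 : ℝ) ^ J) ^ δ := by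
  have h1 : ((2 : ℝ) ^ J) ^ δ = Real.exp (Real.log 2 * (J * δ)) := by
    rw [← Real.rpow_natCast, ← Real.rpow_mul (by norm_num), Real.rpow_def_of_pos (by norm_num)]
  have h2 := Real.add_one_le_exp (Real.log 2 * (J * δ))
  have h3 : (1 / 2 : ℝ) < Real.log 2 := by
    have := Real.log_two_gt_d9
    linarith
  have h4 : (0 : ℝ) ≤ J * δ := by positivity
  rw [h1]
  have h5 : (J : ℝ) * δ ≤ 2 * Real.exp (Real.log 2 * (J * δ)) := by nlinarith
  calc (J : ℝ) = (J * δ) / δ := by field_simp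
    _ ≤ (2 * Real.exp (Real.log 2 * (J * δ))) / δ := by gcongr
    _ = _ := by ring

/-- The pieces `|y| ~ 2^(-j)`, `j < J`, and the last piece, one annulus, `3 < q < 4`. -/
theorem annulus (n : ℕ) (q : ℝ) (hq1 : 3 < q) (hq4 : q < 4) (ε : ℝ) (hε : 0 < ε)
    (hε0 : ε ≤ (q - 3) / 12) (C0' : ℝ) : ∃ C1 : ℝ,
      ∀ (R : ℝ) (F : EuclideanSpace ℝ (Fin n) → ℂ) (J : ℕ) (H : ℕ → EuclideanSpace ℝ (Fin n) → ℂ)
        (G : EuclideanSpace ℝ (Fin n) → ℂ), 1 ≤ R →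
            (2 : ℝ) ^ J ≤ C0' * R ^ (1 / 2 : ℝ) → (∀ j, Measurable (H j)) → Measurable G →
            (∀ ξ, R ≤ ‖ξ‖ → ‖ξ‖ ≤ 2 * R → F ξ = G ξ + ∑ j ∈ Finset.range J, H j ξ) →
            (∀ j < J, ∫⁻ ξ in {ξ | R ≤ ‖ξ‖ ∧ ‖ξ‖ ≤ 2 * R}, ‖H j ξ‖ₑ ^ (2 : ℝ) ≤
              ENNReal.ofReal (C0' * (R / 2 ^ j))) →
            (∀ j < J, ∫⁻ ξ in {ξ | R ≤ ‖ξ‖ ∧ ‖ξ‖ ≤ 2 * R}, ‖H j ξ‖ₑ ^ (4 : ℝ) ≤
              ENNReal.ofReal (C0' * (R ^ ε * (2 ^ j / R)))) →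
            (∀ ξ, R ≤ ‖ξ‖ → ‖ξ‖ ≤ 2 * R → ‖G ξ‖ ≤ C0' * R ^ (-(1 / 2) + ε)) →
            (∫⁻ ξ in {ξ | R ≤ ‖ξ‖ ∧ ‖ξ‖ ≤ 2 * R}, ‖G ξ‖ₑ ^ (2 : ℝ) ≤
              ENNReal.ofReal (C0' * (R * R ^ (-(1 / 2) + ε)))) →
        ∫⁻ ξ in {ξ | R ≤ ‖ξ‖ ∧ ‖ξ‖ ≤ 2 * R}, ‖F ξ‖ₑ ^ q ≤
          ENNReal.ofReal (C1 * R ^ (-((q - 3) / 4))) := by
  set C0 : ℝ := |C0'| + 1 with hC0
  have hC01 : 1 ≤ C0 := by
    rw [hC0]
    linarith [abs_nonneg C0']
  have hC0' : C0' ≤ C0 := by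
    rw [hC0]
    linarith [le_abs_self C0']
  have hC00 : 0 < C0 := by linarith
  set δ : ℝ := (q - 3) / 32 with hδ
  have hδ0 : 0 < δ := by rw [hδ]; linarith
  set γ : ℝ := (q - 3) / 4 with hγ
  have hγ0 : 0 < γ := by rw [hγ]; linarith
  set C1 : ℝ := 2 ^ (q - 1) * (C0 ^ (q - 2) * C0 + ((2 / δ) * C0) ^ q * C0 ^ 2) with hC1
  refine ⟨C1, ?_⟩
  intro R F J H G hR1 hJ hH hG hsum h2 h4 hGs hG2
  have hR0 : 0 < R := by linarith
  set A : Set (EuclideanSpace ℝ (Fin n)) := {ξ | R ≤ ‖ξ‖ ∧ ‖ξ‖ ≤ 2 * R} with hA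
  have hAm : MeasurableSet A :=
    (measurableSet_le measurable_const measurable_norm).inter
      (measurableSet_le measurable_norm measurable_const)
  -- the last piece
  have hG1 : ∫⁻ ξ in A, ‖G ξ‖ₑ ^ q ≤ ENNReal.ofReal (C0 ^ (q - 2) * C0 * R ^ (-γ)) := by
    have a1 : ∀ ξ ∈ A, ‖G ξ‖ₑ ^ q ≤
        ENNReal.ofReal (C0 * R ^ (-(1 / 2) + ε)) ^ (q - 2) * ‖G ξ‖ₑ ^ (2 : ℝ) := by
      intro ξ hξ
      refine lp_pow ?_ (by norm_num) (by linarith)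
      rw [← ofReal_norm]
      refine ENNReal.ofReal_le_ofReal ((hGs ξ hξ.1 hξ.2).trans ?_)
      gcongr
    calc ∫⁻ ξ in A, ‖G ξ‖ₑ ^ q
        ≤ ∫⁻ ξ in A, ENNReal.ofReal (C0 * R ^ (-(1 / 2) + ε)) ^ (q - 2) * ‖G ξ‖ₑ ^ (2 : ℝ) :=
          setLIntegral_mono' hAm a1
      _ = ENNReal.ofReal (C0 * R ^ (-(1 / 2) + ε)) ^ (q - 2) * ∫⁻ ξ in A, ‖G ξ‖ₑ ^ (2 : ℝ) :=
          lintegral_const_mul _ (hG.enorm.pow_const _)
      _ ≤ ENNReal.ofReal (C0 * R ^ (-(1 / 2) + ε)) ^ (q - 2) *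
          ENNReal.ofReal (C0 * (R * R ^ (-(1 / 2) + ε))) := by
          gcongr
          refine hG2.trans (ENNReal.ofReal_le_ofReal ?_)
          gcongr
      _ = ENNReal.ofReal ((C0 * R ^ (-(1 / 2) + ε)) ^ (q - 2) *
          (C0 * (R * R ^ (-(1 / 2) + ε)))) := by
          rw [ENNReal.ofReal_rpow_of_nonneg (by positivity) (by linarith),
            ← ENNReal.ofReal_mul (by positivity)]
      _ ≤ _ := by
          refine ENNReal.ofReal_le_ofReal ?_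
          rw [Real.mul_rpow hC00.le (by positivity), ← Real.rpow_mul hR0.le]
          have e : C0 ^ (q - 2) * R ^ ((-(1 / 2) + ε) * (q - 2)) *
              (C0 * (R * R ^ (-(1 / 2) + ε))) =
              C0 ^ (q - 2) * C0 * R ^ ((-(1 / 2) + ε) * (q - 2) + (1 + (-(1 / 2) + ε))) := by
            rw [Real.rpow_add hR0 ((-(1 / 2) + ε) * (q - 2)), Real.rpow_add hR0 1 (-(1 / 2) + ε),
              Real.rpow_one]
            ring
          rw [e]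
          refine mul_le_mul_of_nonneg_left ?_ (by positivity)
          refine Real.rpow_le_rpow_of_exponent_le hR1 ?_
          rw [hγ]
          nlinarith
  -- one piece
  have hH1 : ∀ j < J, ∫⁻ ξ in A, ‖H j ξ‖ₑ ^ q ≤
      ENNReal.ofReal (C0 ^ 2 * R ^ (-((q - 3) / 2) + ε)) := by
    intro j hj
    have hx1 : (1 : ℝ) ≤ 2 ^ j := one_le_pow₀ (by norm_num)
    have hx : (2 : ℝ) ^ j ≤ C0 * R ^ (1 / 2 : ℝ) := by
      calc (2 : ℝ) ^ j ≤ 2 ^ J := pow_le_pow_right₀ (by norm_num) hj.le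
        _ ≤ C0' * R ^ (1 / 2 : ℝ) := hJ
        _ ≤ _ := by gcongr
    have b2 : ∫⁻ ξ in A, ‖H j ξ‖ₑ ^ (2 : ℝ) ≤ ENNReal.ofReal (C0 * (R / 2 ^ j)) := by
      refine (h2 j hj).trans (ENNReal.ofReal_le_ofReal ?_)
      gcongr
    have b4 : ∫⁻ ξ in A, ‖H j ξ‖ₑ ^ (4 : ℝ) ≤
        ENNReal.ofReal (C0 * (R ^ ε * (2 ^ j / R))) := by
      refine (h4 j hj).trans (ENNReal.ofReal_le_ofReal ?_)
      gcongr
    refine (interp24 _ _ (hH j).enorm q (by linarith) hq4).trans ?_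
    refine (mul_le_mul' (ENNReal.rpow_le_rpow b2 (by linarith))
      (ENNReal.rpow_le_rpow b4 (by linarith))).trans ?_
    rw [ENNReal.ofReal_rpow_of_nonneg (by positivity) (by linarith),
      ENNReal.ofReal_rpow_of_nonneg (by positivity) (by linarith),
      ← ENNReal.ofReal_mul (by positivity)]
    exact ENNReal.ofReal_le_ofReal (piece_real hq1 hq4 hε hC01 hR1 hx1 hx)
  -- all pieces
  have hS : ∫⁻ ξ in A, (∑ j ∈ Finset.range J, ‖H j ξ‖ₑ) ^ q ≤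
      ENNReal.ofReal (((2 / δ) * C0) ^ q * C0 ^ 2 * R ^ (-γ)) := by
    have a1 : ∀ ξ, (∑ j ∈ Finset.range J, ‖H j ξ‖ₑ) ^ q ≤
        (J : ℝ≥0∞) ^ (q - 1) * ∑ j ∈ Finset.range J, ‖H j ξ‖ₑ ^ q := by
      intro ξ
      have := ENNReal.rpow_sum_le_const_mul_sum_rpow (Finset.range J) (fun j => ‖H j ξ‖ₑ)
        (p := q) (by linarith)
      rwa [Finset.card_range] at this
    have a2 : (J : ℝ≥0∞) ^ (q - 1) * (J * ENNReal.ofReal (C0 ^ 2 * R ^ (-((q - 3) / 2) + ε))) =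
        ENNReal.ofReal ((J : ℝ) ^ q * (C0 ^ 2 * R ^ (-((q - 3) / 2) + ε))) := by
      have e1 : ENNReal.ofReal ((J : ℝ) ^ q) = (J : ℝ≥0∞) ^ q := by
        rw [← ENNReal.ofReal_rpow_of_nonneg (by positivity) (by linarith), ENNReal.ofReal_natCast]
      have e2 : (J : ℝ≥0∞) ^ q = (J : ℝ≥0∞) ^ (q - 1) * J := by
        have : (J : ℝ≥0∞) ^ q = (J : ℝ≥0∞) ^ ((q - 1) + 1) := by
          congr 1
          ring
        rw [this, ENNReal.rpow_add_of_nonneg _ _ (by linarith) (by norm_num), ENNReal.rpow_one]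
      rw [ENNReal.ofReal_mul (p := (J : ℝ) ^ q) (by positivity), e1, e2, mul_assoc]
    calc ∫⁻ ξ in A, (∑ j ∈ Finset.range J, ‖H j ξ‖ₑ) ^ q
        ≤ ∫⁻ ξ in A, (J : ℝ≥0∞) ^ (q - 1) * ∑ j ∈ Finset.range J, ‖H j ξ‖ₑ ^ q :=
          lintegral_mono a1
      _ = (J : ℝ≥0∞) ^ (q - 1) * ∑ j ∈ Finset.range J, ∫⁻ ξ in A, ‖H j ξ‖ₑ ^ q := by
          rw [lintegral_const_mul _ (Finset.measurable_sum _ fun j _ => (hH j).enorm.pow_const _),
            lintegral_finset_sum _ fun j _ => (hH j).enorm.pow_const _]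
      _ ≤ (J : ℝ≥0∞) ^ (q - 1) * ∑ j ∈ Finset.range J,
            ENNReal.ofReal (C0 ^ 2 * R ^ (-((q - 3) / 2) + ε)) := by
          gcongr with j hj
          exact hH1 j (Finset.mem_range.1 hj)
      _ = ENNReal.ofReal ((J : ℝ) ^ q * (C0 ^ 2 * R ^ (-((q - 3) / 2) + ε))) := by
          rw [Finset.sum_const, Finset.card_range, nsmul_eq_mul, a2]
      _ ≤ _ := by
          refine ENNReal.ofReal_le_ofReal ?_
          have c1 : (J : ℝ) ≤ 2 / δ * C0 * R ^ δ := by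
            refine (nat_le_rpow hδ0 J).trans ?_
            have c2 : ((2 : ℝ) ^ J) ^ δ ≤ C0 * R ^ δ := by
              calc ((2 : ℝ) ^ J) ^ δ ≤ (C0 * R ^ (1 / 2 : ℝ)) ^ δ := by
                    refine Real.rpow_le_rpow (by positivity) (hJ.trans ?_) hδ0.le
                    gcongr
                _ ≤ (C0 * R) ^ δ := by
                    refine Real.rpow_le_rpow (by positivity) ?_ hδ0.le
                    refine mul_le_mul_of_nonneg_left ?_ hC00.le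
                    calc R ^ (1 / 2 : ℝ) ≤ R ^ (1 : ℝ) :=
                          Real.rpow_le_rpow_of_exponent_le hR1 (by norm_num)
                      _ = R := Real.rpow_one R
                _ = C0 ^ δ * R ^ δ := Real.mul_rpow hC00.le hR0.le
                _ ≤ C0 ^ (1 : ℝ) * R ^ δ := by
                    refine mul_le_mul_of_nonneg_right ?_ (by positivity)
                    refine Real.rpow_le_rpow_of_exponent_le hC01 ?_
                    rw [hδ]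
                    linarith
                _ = _ := by rw [Real.rpow_one]
            calc 2 / δ * ((2 : ℝ) ^ J) ^ δ ≤ 2 / δ * (C0 * R ^ δ) := by gcongr
              _ = _ := by ring
          calc (J : ℝ) ^ q * (C0 ^ 2 * R ^ (-((q - 3) / 2) + ε))
              ≤ (2 / δ * C0 * R ^ δ) ^ q * (C0 ^ 2 * R ^ (-((q - 3) / 2) + ε)) := by
                gcongr
            _ = (2 / δ * C0) ^ q * C0 ^ 2 * (R ^ (δ * q) * R ^ (-((q - 3) / 2) + ε)) := by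
                rw [Real.mul_rpow (by positivity) (by positivity), ← Real.rpow_mul hR0.le]
                ring
            _ = (2 / δ * C0) ^ q * C0 ^ 2 * R ^ (δ * q + (-((q - 3) / 2) + ε)) := by
                rw [← Real.rpow_add hR0]
            _ ≤ _ := by
                refine mul_le_mul_of_nonneg_left ?_ (by positivity)
                refine Real.rpow_le_rpow_of_exponent_le hR1 ?_
                rw [hγ, hδ]
                nlinarith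
  -- the sum
  have hF1 : ∀ ξ ∈ A, ‖F ξ‖ₑ ^ q ≤ 2 ^ (q - 1) *
      (‖G ξ‖ₑ ^ q + (∑ j ∈ Finset.range J, ‖H j ξ‖ₑ) ^ q) := by
    intro ξ hξ
    have c1 : ‖F ξ‖ₑ ≤ ‖G ξ‖ₑ + ∑ j ∈ Finset.range J, ‖H j ξ‖ₑ := by
      rw [hsum ξ hξ.1 hξ.2]
      refine (enorm_add_le _ _).trans ?_
      gcongr
      exact enorm_sum_le _ _
    refine (ENNReal.rpow_le_rpow c1 (by linarith)).trans ?_
    exact ENNReal.rpow_add_le_mul_rpow_add_rpow _ _ (by linarith)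
  calc ∫⁻ ξ in A, ‖F ξ‖ₑ ^ q
      ≤ ∫⁻ ξ in A, 2 ^ (q - 1) * (‖G ξ‖ₑ ^ q + (∑ j ∈ Finset.range J, ‖H j ξ‖ₑ) ^ q) :=
        setLIntegral_mono' hAm hF1
    _ = 2 ^ (q - 1) * ((∫⁻ ξ in A, ‖G ξ‖ₑ ^ q) +
          ∫⁻ ξ in A, (∑ j ∈ Finset.range J, ‖H j ξ‖ₑ) ^ q) := by
        have m1 : Measurable fun ξ => ‖G ξ‖ₑ ^ q := hG.enorm.pow_const _
        have m2 : Measurable fun ξ => (∑ j ∈ Finset.range J, ‖H j ξ‖ₑ) ^ q :=
          (Finset.measurable_sum _ fun j _ => (hH j).enorm).pow_const _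
        rw [← lintegral_add_left m1]
        exact lintegral_const_mul _ (m1.add m2)
    _ ≤ 2 ^ (q - 1) * (ENNReal.ofReal (C0 ^ (q - 2) * C0 * R ^ (-γ)) +
          ENNReal.ofReal (((2 / δ) * C0) ^ q * C0 ^ 2 * R ^ (-γ))) := by
        gcongr
    _ = ENNReal.ofReal (C1 * R ^ (-γ)) := by
        have e2 : (2 : ℝ≥0∞) ^ (q - 1) = ENNReal.ofReal ((2 : ℝ) ^ (q - 1)) := by
          rw [← ENNReal.ofReal_rpow_of_nonneg (by norm_num) (by linarith)]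
          norm_num
        rw [e2, ← ENNReal.ofReal_add (by positivity) (by positivity),
          ← ENNReal.ofReal_mul (by positivity), hC1]
        congr 1
        ring

end Pool.Agent.LQ
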