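import Pool.Agent.LQ.MOD1
import Pool.Agent.LQ.L2Q
import Pool.Agent.LQ.MODA

/-!
LEAFQ: one dyadic annulus.
-/

set_option autoImplicit false

namespace Pool.Agent.LQ

open MeasureTheory Set Metric Pool.Agent.MP_6cbfb8_an Pool.Agent.LF Pool.Agent.GNP
open scoped RealInnerProductSpace ContDiff ENNReal NNReal

/-! ### The dyadic decomposition in the leaf coordinate -/

/-- A smooth cut-off: `1` for `‖z‖ ≤ 1/2`, `0` for `‖z‖ ≥ 1`. -/
noncomputable def ph (z : E 1) : ℝ := Real.smoothTransition (4 / 3 * (1 - ‖z‖ ^ 2))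

theorem ph_smooth : ContDiff ℝ ∞ ph := by
  unfold ph
  exact Real.smoothTransition.contDiff.comp
    (contDiff_const.mul (contDiff_const.sub (contDiff_norm_sq ℝ)))

theorem ph_one {z : E 1} (h : ‖z‖ ≤ 1 / 2) : ph z = 1 := by
  unfold ph
  refine Real.smoothTransition.one_of_one_le ?_
  nlinarith [norm_nonneg z]

theorem ph_zero {z : E 1} (h : 1 ≤ ‖z‖) : ph z = 0 := by
  unfold ph
  refine Real.smoothTransition.zero_of_nonpos ?_
  nlinarith [norm_nonneg z]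

theorem ph_nonneg (z : E 1) : 0 ≤ ph z := Real.smoothTransition.nonneg _

theorem ph_le_one (z : E 1) : ph z ≤ 1 := Real.smoothTransition.le_one _

theorem ph_bound : ∃ P : ℕ → ℝ, (∀ j, 0 ≤ P j) ∧ ∀ j z, ‖iteratedFDeriv ℝ j ph z‖ ≤ P j := by
  have hs : HasCompactSupport ph := by
    refine HasCompactSupport.intro (isCompact_closedBall (0 : E 1) 1) fun y hy => ph_zero ?_
    rw [mem_closedBall_zero_iff, not_le] at hy
    exact hy.le
  have h1 : ∀ j : ℕ, ∃ B : ℝ, ∀ z, ‖iteratedFDeriv ℝ j ph z‖ ≤ B := by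
    intro j
    have h2 : Continuous (iteratedFDeriv ℝ j ph) :=
      ph_smooth.continuous_iteratedFDeriv (by exact_mod_cast le_top)
    exact (hs.iteratedFDeriv j).exists_bound_of_continuous h2
  choose B hB using h1
  exact ⟨fun j => |B j|, fun j => abs_nonneg _, fun j z => (hB j z).trans (le_abs_self _)⟩

/-- The cut-off at scale `4 / 2^j`. -/
noncomputable def phs (j : ℕ) (z : E 1) : ℝ := ph ((4 / 2 ^ j : ℝ)⁻¹ • (z - 0))

theorem phs_smooth (j : ℕ) : ContDiff ℝ ∞ (phs j) :=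
  ph_smooth.comp ((contDiff_id.sub contDiff_const).const_smul _)

theorem phs_norm (j : ℕ) (z : E 1) : ‖(4 / 2 ^ j : ℝ)⁻¹ • (z - 0)‖ = 2 ^ j / 4 * ‖z‖ := by
  rw [sub_zero, norm_smul, norm_inv, Real.norm_of_nonneg (by positivity), inv_div]

theorem phs_one {j : ℕ} {z : E 1} (h : ‖z‖ ≤ 2 / 2 ^ j) : phs j z = 1 := by
  refine ph_one ?_
  rw [phs_norm]
  have h2 : (0 : ℝ) < 2 ^ j := by positivity
  rw [le_div_iff₀ h2] at h
  linarith

theorem phs_zero {j : ℕ} {z : E 1} (h : 4 / 2 ^ j ≤ ‖z‖) : phs j z = 0 := by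
  refine ph_zero ?_
  rw [phs_norm]
  have h2 : (0 : ℝ) < 2 ^ j := by positivity
  rw [div_le_iff₀ h2] at h
  linarith

/-- The strip function. -/
noncomputable def psj (j : ℕ) (z : E 1) : ℝ := phs j z - phs (j + 1) z

theorem psj_smooth (j : ℕ) : ContDiff ℝ ∞ (psj j) := (phs_smooth j).sub (phs_smooth (j + 1))

theorem psj_abs (j : ℕ) (z : E 1) : |psj j z| ≤ 1 := by
  unfold psj phs
  rw [abs_le]
  constructor <;> linarith [ph_nonneg ((4 / 2 ^ j : ℝ)⁻¹ • (z - 0)),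
    ph_nonneg ((4 / 2 ^ (j + 1) : ℝ)⁻¹ • (z - 0)), ph_le_one ((4 / 2 ^ j : ℝ)⁻¹ • (z - 0)),
    ph_le_one ((4 / 2 ^ (j + 1) : ℝ)⁻¹ • (z - 0))]

theorem psj_supp {j : ℕ} {z : E 1} (h : psj j z ≠ 0) :
    (4 / 2 ^ j) / 4 ≤ ‖z‖ ∧ ‖z‖ ≤ 4 / 2 ^ j := by
  have h2 : (0 : ℝ) < 2 ^ j := by positivity
  constructor
  · by_contra h1
    rw [not_le] at h1
    have e : (4 / 2 ^ j : ℝ) / 4 = 2 / 2 ^ (j + 1) := by
      rw [pow_succ]
      field_simp
    refine h ?_
    unfold psj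
    rw [phs_one (j := j + 1) (by rw [← e]; exact h1.le), phs_one (j := j), sub_self]
    refine h1.le.trans ?_
    rw [div_div, div_le_div_iff₀ (by positivity) h2]
    nlinarith
  · by_contra h1
    rw [not_le] at h1
    refine h ?_
    unfold psj
    rw [phs_zero (j := j) h1.le, phs_zero (j := j + 1), sub_self]
    refine le_trans ?_ h1.le
    rw [pow_succ, div_le_div_iff₀ (by positivity) h2]
    nlinarith

theorem psj_bd {P : ℕ → ℝ} (hP : ∀ j z, ‖iteratedFDeriv ℝ j ph z‖ ≤ P j)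
    (j i : ℕ) (z : E 1) :
    ‖iteratedFDeriv ℝ i (psj j) z‖ ≤ (P i * (1 + 2 ^ i)) * (1 / (4 / 2 ^ j)) ^ i := by
  have h2 : (0 : ℝ) < 2 ^ j := by positivity
  have a1 := caps_scale ph_smooth (r := 4 / 2 ^ j) (by positivity) (0 : E 1) i (hP i) z
  have a2 := caps_scale ph_smooth (r := 4 / 2 ^ (j + 1)) (by positivity) (0 : E 1) i (hP i) z
  have e : iteratedFDeriv ℝ i (psj j) z = iteratedFDeriv ℝ i (phs j) z -
      iteratedFDeriv ℝ i (phs (j + 1)) z := by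
    have h3 := iteratedFDeriv_sub_apply (𝕜 := ℝ) (i := i) (f := phs j) (g := phs (j + 1)) (x := z)
      ((phs_smooth j).contDiffAt.of_le (by exact_mod_cast le_top))
      ((phs_smooth (j + 1)).contDiffAt.of_le (by exact_mod_cast le_top))
    exact h3
  rw [e]
  refine (norm_sub_le _ _).trans ((add_le_add a1 a2).trans (le_of_eq ?_))
  rw [pow_succ]
  have e1 : P i / (4 / 2 ^ j : ℝ) ^ i = P i * (1 / (4 / 2 ^ j)) ^ i := by
    rw [one_div, inv_pow, div_eq_mul_inv]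
  have e2 : P i / (4 / (2 ^ j * 2) : ℝ) ^ i = P i * 2 ^ i * (1 / (4 / 2 ^ j)) ^ i := by
    rw [mul_assoc, ← mul_pow, div_eq_mul_inv, ← inv_pow]
    congr 2
    field_simp
  rw [e1, e2]
  ring

/-- The pieces. -/
noncomputable def bj (b : ℝ × E 1 → ℂ) (j : ℕ) (p : ℝ × E 1) : ℂ := ((psj j p.2 : ℝ) : ℂ) * b p

/-- The last piece. -/
noncomputable def bJ (b : ℝ × E 1 → ℂ) (J : ℕ) (p : ℝ × E 1) : ℂ := ((phs J p.2 : ℝ) : ℂ) * b p

theorem bj_sum {b : ℝ × E 1 → ℂ} (hb : ∀ p, b p ≠ 0 → ‖p.2‖ ≤ 2) (J : ℕ) (p : ℝ × E 1) :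
    b p = bJ b J p + ∑ j ∈ Finset.range J, bj b j p := by
  by_cases h : b p = 0
  · unfold bJ bj
    simp [h]
  · have h1 : phs 0 p.2 = 1 := phs_one (by simpa using hb p h)
    unfold bJ bj psj
    rw [← Finset.sum_mul, ← Complex.ofReal_sum, Finset.sum_range_sub' (fun j => phs j p.2), h1,
      ← add_mul, ← Complex.ofReal_add, add_sub_cancel, Complex.ofReal_one, one_mul]

/-- ROW MOD2. -/
theorem mod2 {α β : ℝ} (hα : α ≠ 0) (hβ : β ≠ 0) (hαβ : α ≠ β) {X : ℝ → ℝ × E 1 → E 3}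
    {A : ℕ → ℝ} (hX : SF α β X A) {p : ℝ} (hp : 3 < p) (hp4 : p < 4) : ∃ η : ℝ, 0 < η ∧
    ∀ B : ℕ → ℝ, ∃ C : ℝ, ∀ d, 0 ≤ d → d ≤ 1 → ∀ b : ℝ × E 1 → ℂ, DC α β d B b →
      ∀ R : ℝ, 1 ≤ R →
        ∫⁻ ξ in {ξ : E 3 | R ≤ ‖ξ‖ ∧ ‖ξ‖ ≤ 2 * R}, ‖Tb (X d) b ξ‖ₑ ^ p ≤
          ENNReal.ofReal (C * R ^ (-η)) := by
  refine ⟨(p - 3) / 4, by linarith, ?_⟩
  intro B
  obtain ⟨P, hP0, hP⟩ := ph_bound
  set ε : ℝ := (p - 3) / 12 with hε
  have hε0 : 0 < ε := by rw [hε]; linarith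
  obtain ⟨C2, hC2⟩ := l2q hα hX
  obtain ⟨C4, hC4⟩ := mod1 hα hβ hαβ hX (fun k => ∑ i ∈ Finset.range (k + 1),
    (k.choose i : ℝ) * |P i * (1 + 2 ^ i)| * |(|B (k - i)| * 4 ^ (k - i))|) ε hε0
  set T : ℝ := 4 * (|α| + |β|) with hT
  have hT0 : 0 ≤ T := by rw [hT]; positivity
  set V : ℝ := volume.real (closedBall (0 : E 1) 1) with hV
  have hV0 : 0 ≤ V := measureReal_nonneg
  set B0 : ℝ := |B 0| with hB0
  have hB00 : 0 ≤ B0 := abs_nonneg _
  set C0 : ℝ := 2 + 4 * (|C2| * B0 ^ 2) + |C4| + B0 * (2 * T * (4 * V)) with hC0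
  have hC0a : 2 ≤ C0 := by
    have : 0 ≤ 4 * (|C2| * B0 ^ 2) := by positivity
    have : 0 ≤ B0 * (2 * T * (4 * V)) := by positivity
    have := abs_nonneg C4
    rw [hC0]; linarith
  have hC0b : 4 * (|C2| * B0 ^ 2) ≤ C0 := by
    have : 0 ≤ B0 * (2 * T * (4 * V)) := by positivity
    have := abs_nonneg C4
    rw [hC0]; linarith
  have hC0c : |C4| ≤ C0 := by
    have : 0 ≤ 4 * (|C2| * B0 ^ 2) := by positivity
    have : 0 ≤ B0 * (2 * T * (4 * V)) := by positivity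
    rw [hC0]; linarith
  have hC0d : B0 * (2 * T * (4 * V)) ≤ C0 := by
    have : 0 ≤ 4 * (|C2| * B0 ^ 2) := by positivity
    have := abs_nonneg C4
    rw [hC0]; linarith
  obtain ⟨C1, hC1⟩ := annulus 3 p hp hp4 ε hε0 (le_of_eq hε) C0
  refine ⟨C1, ?_⟩
  intro d hd0 hd1 b hb R hR
  obtain ⟨hbm, hbs, hbB, hsupp⟩ := hb
  have hXc : Continuous (X d) := (hX d hd0 hd1).1.continuous
  have hR0 : 0 < R := by linarith
  have hRh : R ^ (1 / 2 : ℝ) = √R := (Real.sqrt_eq_rpow R).symm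
  have hRs : 1 ≤ √R := by rwa [Real.one_le_sqrt]
  have hRs0 : 0 < √R := by linarith
  have hRsq : √R * √R = R := Real.mul_self_sqrt hR0.le
  have hRε : 1 ≤ R ^ ε := Real.one_le_rpow hR hε0.le
  have hRmh : R ^ (-(1 / 2) + ε) = (√R)⁻¹ * R ^ ε := by
    rw [Real.rpow_add hR0, Real.rpow_neg hR0.le, hRh]
  obtain ⟨n, hn1, hn2⟩ := exists_nat_pow_near (y := (2 : ℝ)) hRs (by norm_num)
  have hs : ∀ t (z : E 1), b (t, z) ≠ 0 → Rs α β d t (z 0) := by
    intro t z h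
    by_contra h1
    exact h (hsupp t z h1)
  have hs1 : ∀ p : ℝ × E 1, b p ≠ 0 → |p.1| ≤ T ∧ ‖p.2‖ ≤ 2 := by
    intro p hp
    have h1 := hs p.1 p.2 hp
    exact ⟨Rs_t hα h1, by rw [norm_E1]; exact h1.1⟩
  have hb0 : ∀ p, ‖b p‖ ≤ B0 := by
    intro p
    have := hbB p.1 0 p.2
    rw [norm_iteratedFDeriv_zero] at this
    exact this.trans (le_abs_self _)
  -- the pieces
  have hbjm : ∀ j, Measurable (bj b j) := fun j =>
    (Complex.measurable_ofReal.comp ((psj_smooth j).continuous.measurable.comp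
      measurable_snd)).mul hbm
  have hbJm : ∀ J, Measurable (bJ b J) := fun J =>
    (Complex.measurable_ofReal.comp ((phs_smooth J).continuous.measurable.comp
      measurable_snd)).mul hbm
  have hbj0 : ∀ j p, ‖bj b j p‖ ≤ B0 := by
    intro j p
    unfold bj
    rw [norm_mul, Complex.norm_real, Real.norm_eq_abs]
    calc |psj j p.2| * ‖b p‖ ≤ 1 * B0 := by
          gcongr
          · exact psj_abs j p.2
          · exact hb0 p
      _ = B0 := one_mul _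
  have hbJ0 : ∀ J p, ‖bJ b J p‖ ≤ B0 := by
    intro J p
    unfold bJ
    rw [norm_mul, Complex.norm_real, Real.norm_eq_abs]
    have h1 : |phs J p.2| ≤ 1 := by
      unfold phs
      rw [abs_of_nonneg (ph_nonneg _)]
      exact ph_le_one _
    calc |phs J p.2| * ‖b p‖ ≤ 1 * B0 := by
          gcongr
          exact hb0 p
      _ = B0 := one_mul _
  have hbjs : ∀ j t (z : E 1), bj b j (t, z) ≠ 0 →
      Rs α β d t (z 0) ∧ (4 / 2 ^ j) / 4 ≤ |z 0| ∧ |z 0| ≤ 4 / 2 ^ j := by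
    intro j t z h
    unfold bj at h
    simp only at h
    have h1 : psj j z ≠ 0 := by
      intro h0
      rw [h0] at h
      simp at h
    have h2 := psj_supp h1
    rw [norm_E1] at h2
    exact ⟨hs t z (right_ne_zero_of_mul h), h2⟩
  have hbJs : ∀ J t (z : E 1), bJ b J (t, z) ≠ 0 → Rs α β d t (z 0) ∧ |z 0| ≤ 4 / 2 ^ J := by
    intro J t z h
    unfold bJ at h
    simp only at h
    refine ⟨hs t z (right_ne_zero_of_mul h), ?_⟩
    by_contra h1
    rw [not_le, ← norm_E1] at h1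
    rw [phs_zero h1.le] at h
    simp at h
  have hpos : ∀ j : ℕ, (0 : ℝ) < 2 ^ j := fun j => by positivity
  have hbjint : ∀ j, Integrable (bj b j) := by
    intro j
    refine (strip_int hT0 (ν := 4 / 2 ^ j) (by positivity) (hbjm j) (hbj0 j) ?_).1
    intro t z h
    have h1 := hbjs j t z h
    exact ⟨Rs_t hα h1.1, h1.2.2⟩
  have hbJint : ∀ J, Integrable (bJ b J) ∧
      ∫ p, ‖bJ b J p‖ ≤ B0 * (2 * T * (4 / 2 ^ J * V)) := by
    intro J
    refine strip_int hT0 (ν := 4 / 2 ^ J) (by positivity) (hbJm J) (hbJ0 J) ?_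
    intro t z h
    have h1 := hbJs J t z h
    exact ⟨Rs_t hα h1.1, h1.2⟩
  have hJ1 : (2 : ℝ) ^ (n + 1) ≤ 2 * √R := by
    rw [pow_succ]
    linarith
  have hJ2 : 4 / (2 : ℝ) ^ (n + 1) ≤ 4 * (√R)⁻¹ := by
    rw [div_eq_mul_inv]
    gcongr
  have hsub : {ξ : E 3 | R ≤ ‖ξ‖ ∧ ‖ξ‖ ≤ 2 * R} ⊆ {ξ : E 3 | ‖ξ‖ ≤ 2 * R} := fun ξ h => h.2
  refine hC1 R (Tb (X d) b) (n + 1) (fun j => Tb (X d) (bj b j)) (Tb (X d) (bJ b (n + 1))) hR
    ?_ ?_ ?_ ?_ ?_ ?_ ?_ ?_
  · rw [hRh]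
    calc (2 : ℝ) ^ (n + 1) ≤ 2 * √R := hJ1
      _ ≤ C0 * √R := by gcongr
  · exact fun j => Tb_measurable hXc (hbjint j)
  · exact Tb_measurable hXc (hbJint _).1
  · intro ξ _ _
    have h1 := Tb_fin hXc (Finset.range (n + 2))
      (fun j => if j = n + 1 then bJ b (n + 1) else bj b j) (b := b) ?_ ?_ ξ
    · rw [h1, Finset.sum_range_succ, if_pos rfl, add_comm]
      congr 1
      refine Finset.sum_congr rfl fun j hj => ?_
      rw [if_neg (Finset.mem_range.1 hj).ne]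
    · intro j _
      by_cases h : j = n + 1
      · simp only [h, if_true]
        exact (hbJint _).1
      · simp only [h, if_false]
        exact hbjint j
    · intro q
      rw [bj_sum (fun p hp => (hs1 p hp).2) (n + 1) q]
      symm
      rw [Finset.sum_range_succ, if_pos rfl, add_comm]
      congr 1
      refine Finset.sum_congr rfl fun j hj => ?_
      rw [if_neg (Finset.mem_range.1 hj).ne]
  · intro j hj
    refine (lintegral_mono_set hsub).trans ?_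
    refine (hC2 d hd0 hd1 (bj b j) B0 (4 / 2 ^ j) hB00 (by positivity) (hbjm j) (hbj0 j) ?_ R
      hR).trans ?_
    · intro t z h
      by_contra h1
      have h2 := hbjs j t z h1
      exact h ⟨h2.1, h2.2.2⟩
    · refine ENNReal.ofReal_le_ofReal ?_
      have e : C2 * B0 ^ 2 * R * (4 / 2 ^ j) = 4 * (C2 * B0 ^ 2) * (R / 2 ^ j) := by ring
      rw [e]
      have h1 : C2 * B0 ^ 2 ≤ |C2| * B0 ^ 2 := by
        gcongr
        exact le_abs_self C2
      have h3 : 0 < R / 2 ^ j := by positivity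
      calc 4 * (C2 * B0 ^ 2) * (R / 2 ^ j) ≤ 4 * (|C2| * B0 ^ 2) * (R / 2 ^ j) := by gcongr
        _ ≤ C0 * (R / 2 ^ j) := by gcongr
  · intro j hj
    have hjn : (2 : ℝ) ^ j ≤ √R :=
      (pow_le_pow_right₀ (by norm_num) (Nat.lt_succ_iff.1 hj)).trans hn1
    have h2j := hpos j
    refine (hC4 d hd0 hd1 (4 / 2 ^ j) (by positivity) ?_ (bj b j) (hbjm j) ?_ ?_ ?_ R hR ?_).trans ?_
    · rw [div_le_iff₀ h2j]
      have : (1 : ℝ) ≤ 2 ^ j := one_le_pow₀ (by norm_num)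
      linarith
    · intro t
      have h1 : ContDiff ℝ ∞ fun z : E 1 => ((psj j z : ℝ) : ℂ) :=
        Complex.ofRealCLM.contDiff.comp (psj_smooth j)
      exact h1.mul (hbs t)
    · intro t k z
      refine mul_bd (psj_smooth j) (hbs t) (L := 1 / (4 / 2 ^ j)) (by positivity)
        (U := fun i => P i * (1 + 2 ^ i)) (B := fun i => |B i| * 4 ^ i)
        (fun i z => psj_bd hP j i z) (fun i z => ?_) k z
      refine (hbB t i z).trans ?_
      have h1 : (1 : ℝ) ≤ 2 ^ j := one_le_pow₀ (by norm_num)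
      have h3 : |B i| * 4 ^ i * (1 / (4 / 2 ^ j)) ^ i = |B i| * (2 ^ j) ^ i := by
        rw [mul_assoc, ← mul_pow]
        congr 2
        field_simp
      rw [h3]
      calc B i ≤ |B i| * 1 := by rw [mul_one]; exact le_abs_self _
        _ ≤ |B i| * (2 ^ j) ^ i := by
            gcongr
            exact one_le_pow₀ h1
    · intro t z h
      by_contra h1
      exact h (hbjs j t z h1)
    · have h4 : ((2 : ℝ) ^ j) ^ 2 ≤ R := by
        calc ((2 : ℝ) ^ j) ^ 2 ≤ √R ^ 2 := by gcongr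
          _ = R := Real.sq_sqrt hR0.le
      rw [div_pow, ← mul_div_assoc, le_div_iff₀ (by positivity)]
      nlinarith
    · refine ENNReal.ofReal_le_ofReal ?_
      have hRp : 0 < R ^ (-1 + ε) := Real.rpow_pos_of_pos hR0 _
      have e1 : R ^ (-1 + ε) = R ^ ε / R := by
        rw [Real.rpow_add hR0, Real.rpow_neg_one]
        ring
      calc C4 * R ^ (-1 + ε) / (4 / 2 ^ j) = C4 * (R ^ (-1 + ε) * 2 ^ j / 4) := by
            field_simp
        _ ≤ |C4| * (R ^ (-1 + ε) * 2 ^ j / 4) := by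
            gcongr
            exact le_abs_self C4
        _ ≤ |C4| * (R ^ (-1 + ε) * 2 ^ j) := by
            gcongr
            have : 0 ≤ R ^ (-1 + ε) * 2 ^ j := by positivity
            linarith
        _ ≤ C0 * (R ^ (-1 + ε) * 2 ^ j) := by gcongr
        _ = C0 * (R ^ ε * (2 ^ j / R)) := by
            rw [e1]
            ring
  · intro ξ _ _
    refine (Tb_norm_le _ _ _).trans ((hbJint (n + 1)).2.trans ?_)
    rw [hRmh]
    calc B0 * (2 * T * (4 / 2 ^ (n + 1) * V)) ≤ B0 * (2 * T * (4 * (√R)⁻¹ * V)) := by gcongr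
      _ = B0 * (2 * T * (4 * V)) * (√R)⁻¹ * 1 := by ring
      _ ≤ C0 * (√R)⁻¹ * R ^ ε := by gcongr
      _ = _ := by ring
  · refine (lintegral_mono_set hsub).trans ?_
    refine (hC2 d hd0 hd1 (bJ b (n + 1)) B0 (4 / 2 ^ (n + 1)) hB00 (by positivity) (hbJm _)
      (hbJ0 _) ?_ R hR).trans ?_
    · intro t z h
      by_contra h1
      exact h (hbJs (n + 1) t z h1)
    · refine ENNReal.ofReal_le_ofReal ?_
      rw [hRmh]
      calc C2 * B0 ^ 2 * R * (4 / 2 ^ (n + 1)) ≤ |C2| * B0 ^ 2 * R * (4 * (√R)⁻¹) := by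
            gcongr
            exact le_abs_self C2
        _ = 4 * (|C2| * B0 ^ 2) * (R * (√R)⁻¹ * 1) := by ring
        _ ≤ C0 * (R * (√R)⁻¹ * R ^ ε) := by gcongr
        _ = _ := by ring

end Pool.Agent.LQ
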