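import Pool.Agent.LQ.MOD2

/-!
LEAFQ: the model theorem, with tails.
-/

set_option autoImplicit false

namespace Pool.Agent.LQ

open MeasureTheory Set Metric Pool.Agent.MP_6cbfb8_an Pool.Agent.LF Pool.Agent.GNP
open scoped RealInnerProductSpace ContDiff ENNReal NNReal

/-- From the `q`-th moments on the annuli to the tails of the `L^p` norm. -/
theorem annuli_tail (n : ℕ) (p q : ℝ) (hq0 : 0 < q) (hqp : q ≤ p) (γ : ℝ) (hγ : 0 < γ)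
    (C1 B : ℝ) : ∃ C : ℝ, 0 ≤ C ∧
      ∀ F : EuclideanSpace ℝ (Fin n) → ℂ, Measurable F → (∀ ξ, ‖F ξ‖ ≤ B) →
        (∀ R : ℝ, 1 ≤ R → ∫⁻ ξ in {ξ | R ≤ ‖ξ‖ ∧ ‖ξ‖ ≤ 2 * R}, ‖F ξ‖ₑ ^ q ≤
          ENNReal.ofReal (C1 * R ^ (-γ))) →
        ∀ R : ℝ, 1 ≤ R → ∫⁻ ξ in {ξ | R ≤ ‖ξ‖}, ‖F ξ‖ₑ ^ p ≤
          ENNReal.ofReal (C * R ^ (-γ)) := by
  set r : ℝ := (2 : ℝ) ^ (-γ) with hr
  have hr0 : 0 < r := by rw [hr]; positivity
  have hr1 : r < 1 := by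
    rw [hr]
    exact Real.rpow_lt_one_of_one_lt_of_neg (by norm_num) (by linarith)
  have h1r : 0 < 1 - r := by linarith
  refine ⟨|B| ^ (p - q) * |C1| * (1 - r)⁻¹, by positivity, ?_⟩
  intro F hF hFB hR R hR1
  have hR0 : 0 < R := by linarith
  set b : ℝ≥0∞ := ENNReal.ofReal |B| with hb
  have hFb : ∀ ξ, ‖F ξ‖ₑ ≤ b := by
    intro ξ
    rw [hb, ← ofReal_norm]
    exact ENNReal.ofReal_le_ofReal ((hFB ξ).trans (le_abs_self B))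
  set A : ℕ → Set (EuclideanSpace ℝ (Fin n)) := fun k =>
    {ξ | 2 ^ k * R ≤ ‖ξ‖ ∧ ‖ξ‖ ≤ 2 * (2 ^ k * R)} with hA
  have hcover : {ξ : EuclideanSpace ℝ (Fin n) | R ≤ ‖ξ‖} ⊆ ⋃ k, A k := by
    intro ξ hξ
    have h1 : (1 : ℝ) ≤ ‖ξ‖ / R := by
      rw [le_div_iff₀ hR0, one_mul]
      exact hξ
    obtain ⟨k, hk1, hk2⟩ := exists_nat_pow_near (y := (2 : ℝ)) h1 (by norm_num)
    rw [mem_iUnion]
    refine ⟨k, ?_, ?_⟩
    · rwa [le_div_iff₀ hR0] at hk1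
    · rw [div_lt_iff₀ hR0] at hk2
      calc ‖ξ‖ ≤ 2 ^ (k + 1) * R := hk2.le
        _ = 2 * (2 ^ k * R) := by ring
  have hA4 : ∀ k, ∫⁻ ξ in A k, ‖F ξ‖ₑ ^ p ≤
      ENNReal.ofReal (|B| ^ (p - q) * |C1| * R ^ (-γ)) * ENNReal.ofReal r ^ k := by
    intro k
    have h1 : ∫⁻ ξ in A k, ‖F ξ‖ₑ ^ p ≤ b ^ (p - q) * ∫⁻ ξ in A k, ‖F ξ‖ₑ ^ q := by
      rw [← lintegral_const_mul _ (hF.enorm.pow_const q)]
      exact lintegral_mono fun ξ => lp_pow (hFb ξ) hq0.le hqp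
    have h2k : (1 : ℝ) ≤ 2 ^ k := one_le_pow₀ (by norm_num)
    have h3 := hR (2 ^ k * R) (by nlinarith)
    refine h1.trans ((mul_le_mul_right h3 _).trans ?_)
    rw [hb, ENNReal.ofReal_rpow_of_nonneg (abs_nonneg _) (by linarith),
      ← ENNReal.ofReal_mul (by positivity), ← ENNReal.ofReal_pow hr0.le,
      ← ENNReal.ofReal_mul (by positivity)]
    refine ENNReal.ofReal_le_ofReal ?_
    have e : (2 ^ k * R) ^ (-γ) = r ^ k * R ^ (-γ) := by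
      rw [Real.mul_rpow (by positivity) hR0.le]
      congr 1
      rw [hr, ← Real.rpow_natCast, ← Real.rpow_natCast, ← Real.rpow_mul (by norm_num),
        ← Real.rpow_mul (by norm_num), mul_comm]
    rw [e]
    calc |B| ^ (p - q) * (C1 * (r ^ k * R ^ (-γ)))
        ≤ |B| ^ (p - q) * (|C1| * (r ^ k * R ^ (-γ))) := by
          gcongr
          exact le_abs_self C1
      _ = |B| ^ (p - q) * |C1| * R ^ (-γ) * r ^ k := by ring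
  calc ∫⁻ ξ in {ξ | R ≤ ‖ξ‖}, ‖F ξ‖ₑ ^ p
      ≤ ∫⁻ ξ in ⋃ k, A k, ‖F ξ‖ₑ ^ p := lintegral_mono_set hcover
    _ ≤ ∑' k, ∫⁻ ξ in A k, ‖F ξ‖ₑ ^ p := lintegral_iUnion_le _ _
    _ ≤ ∑' k, ENNReal.ofReal (|B| ^ (p - q) * |C1| * R ^ (-γ)) * ENNReal.ofReal r ^ k :=
        ENNReal.tsum_le_tsum hA4
    _ = ENNReal.ofReal (|B| ^ (p - q) * |C1| * R ^ (-γ)) * (1 - ENNReal.ofReal r)⁻¹ := by
        rw [ENNReal.tsum_mul_left, ENNReal.tsum_geometric]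
    _ = ENNReal.ofReal (|B| ^ (p - q) * |C1| * (1 - r)⁻¹ * R ^ (-γ)) := by
        rw [← ENNReal.ofReal_one, ← ENNReal.ofReal_sub 1 hr0.le, ← ENNReal.ofReal_inv_of_pos h1r,
          ← ENNReal.ofReal_mul (by positivity)]
        congr 1
        ring

/-- ROW MODEL, with tails. -/
theorem model {α β : ℝ} (hα : α ≠ 0) (hβ : β ≠ 0) (hαβ : α ≠ β) {X : ℝ → ℝ × E 1 → E 3}
    {A : ℕ → ℝ} (hX : SF α β X A) {p : ℝ} (hp : 3 < p) : ∃ η : ℝ, 0 < η ∧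
    ∀ B : ℕ → ℝ, ∃ C : ℝ, ∀ d, 0 ≤ d → d ≤ 1 → ∀ b : ℝ × E 1 → ℂ, DC α β d B b →
      (∫⁻ ξ, ‖Tb (X d) b ξ‖ₑ ^ p ≤ ENNReal.ofReal C) ∧ ∀ R : ℝ, 1 ≤ R →
        ∫⁻ ξ in {ξ : E 3 | R ≤ ‖ξ‖}, ‖Tb (X d) b ξ‖ₑ ^ p ≤ ENNReal.ofReal (C * R ^ (-η)) := by
  obtain ⟨q, hq1, hq2⟩ := exists_between (lt_min hp (show (3 : ℝ) < 4 by norm_num))
  have hqp : q ≤ p := (lt_min_iff.1 hq2).1.le
  have hq4 : q < 4 := (lt_min_iff.1 hq2).2
  obtain ⟨η, hη, h2⟩ := mod2 hα hβ hαβ hX hq1 hq4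
  refine ⟨η, hη, fun B => ?_⟩
  obtain ⟨C1, hC1⟩ := h2 B
  set T : ℝ := 4 * (|α| + |β|) with hT
  have hT0 : 0 ≤ T := by rw [hT]; positivity
  set S : ℝ := |B 0| * (2 * T * (2 * volume.real (closedBall (0 : E 1) 1))) with hS
  obtain ⟨C, hC, h⟩ := annuli 3 p q (by linarith) hqp η hη C1 S 0
  obtain ⟨C', hC', h'⟩ := annuli_tail 3 p q (by linarith) hqp η hη C1 S
  refine ⟨max C.toReal C', ?_⟩
  intro d hd0 hd1 b hb
  have hXc : Continuous (X d) := (hX d hd0 hd1).1.continuous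
  obtain ⟨hbi, hbn⟩ := strip_int hT0 (show (0 : ℝ) ≤ 2 by norm_num) hb.1 (B0 := |B 0|) (by
      intro p
      have := hb.2.2.1 p.1 0 p.2
      rw [norm_iteratedFDeriv_zero] at this
      exact this.trans (le_abs_self _)) (by
      intro t z hne
      by_contra h1
      refine hne (hb.2.2.2 t z fun h3 => h1 ⟨Rs_t hα h3, h3.1⟩))
  have hm := Tb_measurable hXc hbi
  have hs : ∀ ξ, ‖Tb (X d) b ξ‖ ≤ S := fun ξ => (Tb_norm_le _ _ _).trans hbn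
  refine ⟨?_, fun R hR => ?_⟩
  · refine (h _ hm hs fun k _ => hC1 d hd0 hd1 b hb _ (one_le_pow₀ (by norm_num))).trans ?_
    exact (ENNReal.ofReal_toReal hC).symm.le.trans (ENNReal.ofReal_le_ofReal (le_max_left _ _))
  · refine (h' _ hm hs (fun R hR => hC1 d hd0 hd1 b hb R hR) R hR).trans ?_
    have : 0 ≤ R ^ (-η) := Real.rpow_nonneg (by linarith) _
    exact ENNReal.ofReal_le_ofReal (mul_le_mul_of_nonneg_right (le_max_right _ _) this)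

end Pool.Agent.LQ
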