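import Pool.Agent.LQ.EXPL

/-!
LEAFQ row N: the nondegeneracy of the two linear forms, bounds and Lipschitz bounds.
-/

set_option autoImplicit false

namespace Pool.Agent.LQ

open Real

theorem Rg.A3_le {α β d t y : ℝ} (h : Rg α β d t y) : AA α β t y ^ 3 ≤ 27 := by
  have h1 := h.A_le
  have h2 := h.A_pos
  calc AA α β t y ^ 3 ≤ 3 ^ 3 := pow_le_pow_left₀ h2.le h1 3
    _ = 27 := by norm_num

theorem Rg.H3_le {α β d t y : ℝ} (hα : α ≠ 0) (h : Rg α β d t y) : HH α β d t y ^ 3 ≤ 1 :=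
  pow_le_one₀ h.H_pos.le (h.H_le hα)

theorem row_N {α β : ℝ} (hα : α ≠ 0) (hβ : β ≠ 0) (hαβ : α ≠ β) : ∃ c : ℝ, 0 < c ∧
    ∀ d, 0 ≤ d → d ≤ 1 → ∀ t y w1 w3, Rg α β d t y →
      c * (|w1| + |w3|) ≤ |lw α β d w1 w3 t y| + |mw α β d w1 w3 t y| := by
  have ha : 0 < |α| := abs_pos.2 hα
  have hb : 0 < |β| := abs_pos.2 hβ
  have hg : 0 < |α - β| := abs_pos.2 (sub_ne_zero.2 hαβ)
  set T : ℝ := 1 + 9 * |α| + 9 * |β| with hT
  have hT1 : 1 ≤ T := by rw [hT]; nlinarith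
  -- `P = α² l`, `Q = 2 α² m`
  set K : ℝ := α ^ 2 * (2 * T) with hK
  set c3 : ℝ := K / (|α| * |α - β|) with hc3
  set c1 : ℝ := 27 * ((2 * α ^ 2 + |α - β| * c3) / |β|) with hc1
  have hK0 : 0 < K := by positivity
  have hc30 : 0 < c3 := by positivity
  have hc10 : 0 < c1 := by positivity
  refine ⟨1 / (c1 + c3), by positivity, fun d hd0 hd1 t y w1 w3 h => ?_⟩
  have hA := h.A_pos
  have hH := h.H_pos
  set A := AA α β t y with hAdef
  set H := HH α β d t y with hHdef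
  set l := lw α β d w1 w3 t y with hl
  set m := mw α β d w1 w3 t y with hm
  have hlm : 0 ≤ |l| + |m| := by positivity
  have ht : |t| ≤ T := (h.t_le hα).trans (by rw [hT]; linarith)
  have hd2 : d ^ 2 ≤ 1 := pow_le_one₀ hd0 hd1
  set a := w1 / A ^ 3 with hadef
  set b := w3 / H ^ 3 with hbdef
  have e1 : α ^ 2 * l = -(β * t * a) + (α - β) * (α - d ^ 2 * t) * b := by
    rw [hl, hadef, hbdef]
    unfold lw
    rw [← hAdef, ← hHdef]
    field_simp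
    try ring
  have e2 : 2 * α ^ 2 * m = β * a + (α - β) * d ^ 2 * b := by
    rw [hm, hadef, hbdef]
    unfold mw
    rw [← hAdef, ← hHdef]
    field_simp
    try ring
  have e3 : α * (α - β) * b = α ^ 2 * l + t * (2 * α ^ 2 * m) := by
    rw [e1, e2]; ring
  have hb1 : |b| ≤ c3 * (|l| + |m|) := by
    have h1 : |α| * |α - β| * |b| ≤ K * (|l| + |m|) := by
      rw [← abs_mul, ← abs_mul, e3]
      refine (abs_add_le _ _).trans ?_
      rw [abs_mul, abs_mul, abs_mul, abs_of_nonneg (sq_nonneg α),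
        abs_of_nonneg (by positivity : (0 : ℝ) ≤ 2 * α ^ 2), hK]
      have h2 : 0 ≤ α ^ 2 := sq_nonneg α
      have h3 : |t| * (2 * α ^ 2 * |m|) ≤ T * (2 * α ^ 2 * |m|) :=
        mul_le_mul_of_nonneg_right ht (by positivity)
      have h4 : α ^ 2 * |l| ≤ α ^ 2 * (2 * T) * |l| := by
        have : α ^ 2 * |l| * 1 ≤ α ^ 2 * |l| * (2 * T) :=
          mul_le_mul_of_nonneg_left (by linarith) (by positivity)
        linarith
      calc α ^ 2 * |l| + |t| * (2 * α ^ 2 * |m|)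
          ≤ α ^ 2 * (2 * T) * |l| + T * (2 * α ^ 2 * |m|) := add_le_add h4 h3
        _ = α ^ 2 * (2 * T) * (|l| + |m|) := by ring
    rw [hc3, div_mul_eq_mul_div, le_div_iff₀ (by positivity)]
    linarith
  have ha1 : |a| ≤ (2 * α ^ 2 + |α - β| * c3) / |β| * (|l| + |m|) := by
    have e4 : β * a = 2 * α ^ 2 * m - (α - β) * d ^ 2 * b := by rw [e2]; ring
    rw [div_mul_eq_mul_div, le_div_iff₀ hb, mul_comm, ← abs_mul, e4]
    refine (abs_sub _ _).trans ?_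
    have q1 : |2 * α ^ 2 * m| = 2 * α ^ 2 * |m| := by
      rw [abs_mul, abs_of_nonneg (by positivity : (0 : ℝ) ≤ 2 * α ^ 2)]
    have q2 : |(α - β) * d ^ 2 * b| = |α - β| * d ^ 2 * |b| := by
      rw [abs_mul, abs_mul, abs_of_nonneg (sq_nonneg d)]
    rw [q1, q2]
    have h1 : 2 * α ^ 2 * |m| ≤ 2 * α ^ 2 * (|l| + |m|) :=
      mul_le_mul_of_nonneg_left (by linarith [abs_nonneg l]) (by positivity)
    have h2 : |α - β| * d ^ 2 * |b| ≤ |α - β| * (c3 * (|l| + |m|)) := by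
      calc |α - β| * d ^ 2 * |b| ≤ |α - β| * 1 * |b| := by gcongr
        _ = |α - β| * |b| := by ring
        _ ≤ |α - β| * (c3 * (|l| + |m|)) := mul_le_mul_of_nonneg_left hb1 hg.le
    calc 2 * α ^ 2 * |m| + |α - β| * d ^ 2 * |b|
        ≤ 2 * α ^ 2 * (|l| + |m|) + |α - β| * (c3 * (|l| + |m|)) := add_le_add h1 h2
      _ = (2 * α ^ 2 + |α - β| * c3) * (|l| + |m|) := by ring
  have hw1 : |w1| ≤ c1 * (|l| + |m|) := by
    have h1 : |w1| = |a| * A ^ 3 := by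
      rw [hadef, abs_div, abs_of_pos (by positivity : (0 : ℝ) < A ^ 3),
        div_mul_cancel₀ _ (by positivity)]
    rw [h1, hc1]
    calc |a| * A ^ 3 ≤ |a| * 27 := mul_le_mul_of_nonneg_left h.A3_le (abs_nonneg _)
      _ ≤ ((2 * α ^ 2 + |α - β| * c3) / |β| * (|l| + |m|)) * 27 := by gcongr
      _ = _ := by ring
  have hw3 : |w3| ≤ c3 * (|l| + |m|) := by
    have h1 : |w3| = |b| * H ^ 3 := by
      rw [hbdef, abs_div, abs_of_pos (by positivity : (0 : ℝ) < H ^ 3),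
        div_mul_cancel₀ _ (by positivity)]
    rw [h1]
    calc |b| * H ^ 3 ≤ |b| * 1 := mul_le_mul_of_nonneg_left (h.H3_le hα) (abs_nonneg _)
      _ ≤ _ := by rw [mul_one]; exact hb1
  rw [div_mul_eq_mul_div, one_mul, div_le_iff₀ (by positivity)]
  linarith

theorem Rg.iA {α β d t y : ℝ} (h : Rg α β d t y) : |1 / AA α β t y| ≤ 8 := by
  have h1 := h.A_ge
  have h2 := h.A_pos
  rw [abs_of_pos (by positivity), div_le_iff₀ h2]
  linarith

theorem Rg.iH {α β d t y : ℝ} (h : Rg α β d t y) : |1 / HH α β d t y| ≤ 4 := by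
  have h1 := h.H_ge
  have h2 := h.H_pos
  rw [abs_of_pos (by positivity), div_le_iff₀ h2]
  linarith

theorem Rg.iA3 {α β d t y : ℝ} (h : Rg α β d t y) : |1 / AA α β t y ^ 3| ≤ 512 := by
  have h1 := h.iA
  have h2 : 1 / AA α β t y ^ 3 = (1 / AA α β t y) ^ 3 := by rw [one_div_pow]
  rw [h2, abs_pow]
  calc |1 / AA α β t y| ^ 3 ≤ 8 ^ 3 := pow_le_pow_left₀ (abs_nonneg _) h1 3
    _ = 512 := by norm_num

theorem Rg.iH3 {α β d t y : ℝ} (h : Rg α β d t y) : |1 / HH α β d t y ^ 3| ≤ 64 := by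
  have h1 := h.iH
  have h2 : 1 / HH α β d t y ^ 3 = (1 / HH α β d t y) ^ 3 := by rw [one_div_pow]
  rw [h2, abs_pow]
  calc |1 / HH α β d t y| ^ 3 ≤ 4 ^ 3 := pow_le_pow_left₀ (abs_nonneg _) h1 3
    _ = 64 := by norm_num

theorem comb2 {u v w1 w3 M : ℝ} (hu : |u| ≤ M) (hv : |v| ≤ M) :
    |u * w1 + v * w3| ≤ M * (|w1| + |w3|) := by
  refine (abs_add_le _ _).trans ?_
  rw [abs_mul, abs_mul, mul_add]
  exact add_le_add (mul_le_mul_of_nonneg_right hu (abs_nonneg _))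
    (mul_le_mul_of_nonneg_right hv (abs_nonneg _))

theorem row_bd {α β : ℝ} (hα : α ≠ 0) : ∃ C : ℝ, 0 < C ∧
    ∀ d, 0 ≤ d → d ≤ 1 → ∀ t y w1 w3, Rg α β d t y →
      |Lw α β d w1 w3 t y| ≤ C * (|w1| + |w3|) ∧ |lw α β d w1 w3 t y| ≤ C * (|w1| + |w3|) ∧
        |mw α β d w1 w3 t y| ≤ C * (|w1| + |w3|) ∧ |Tw α β d w1 w3 t y| ≤ C * (|w1| + |w3|) := by
  have ha : 0 < |α| := abs_pos.2 hα
  have hb : 0 ≤ |β| := abs_nonneg β
  have hg : 0 ≤ |α - β| := abs_nonneg _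
  set T : ℝ := 9 * |α| + 9 * |β| with hT
  have hT0 : 0 ≤ T := by positivity
  set k : ℝ := |1 / α| with hk
  have hk0 : 0 ≤ k := abs_nonneg _
  set C : ℝ := 1 + |β| * 8 * k + |α - β| * 4 * k + |β| * T * 512 * k ^ 2 +
    |α - β| * (|α| + T) * 64 * k ^ 2 + |β| * 512 * k ^ 2 + |α - β| * 64 * k ^ 2 + 8 * k +
    4 * k with hC
  have p1 : 0 ≤ |β| * 8 * k := by positivity
  have p2 : 0 ≤ |α - β| * 4 * k := by positivity
  have p3 : 0 ≤ |β| * T * 512 * k ^ 2 := by positivity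
  have p4 : 0 ≤ |α - β| * (|α| + T) * 64 * k ^ 2 := by positivity
  have p5 : 0 ≤ |β| * 512 * k ^ 2 := by positivity
  have p6 : 0 ≤ |α - β| * 64 * k ^ 2 := by positivity
  have p7 : 0 ≤ 8 * k := by positivity
  have p8 : 0 ≤ 4 * k := by positivity
  refine ⟨C, by rw [hC]; linarith, fun d hd0 hd1 t y w1 w3 h => ?_⟩
  have hd2 : d ^ 2 ≤ 1 := pow_le_one₀ hd0 hd1
  have hd2' : |d ^ 2| ≤ 1 := by rw [abs_of_nonneg (sq_nonneg d)]; exact hd2
  have ht : |t| ≤ T := h.t_le hα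
  have iA := h.iA
  have iH := h.iH
  have iA3 := h.iA3
  have iH3 := h.iH3
  have hk2 : |(1 / α) ^ 2| ≤ k ^ 2 := by rw [abs_pow]
  have hatd : |α - d ^ 2 * t| ≤ |α| + T := by
    refine (abs_sub _ _).trans (add_le_add le_rfl ?_)
    rw [abs_mul]
    calc |d ^ 2| * |t| ≤ 1 * T := mul_le_mul hd2' ht (abs_nonneg _) (by norm_num)
      _ = T := one_mul _
  refine ⟨?_, ?_, ?_, ?_⟩
  · have e : Lw α β d w1 w3 t y = (-(β * (1 / AA α β t y) * (1 / α))) * w1 +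
        ((α - β) * (1 / HH α β d t y) * (1 / α)) * w3 := by
      unfold Lw; ring
    rw [e]
    refine comb2 ?_ ?_
    · rw [abs_neg, abs_mul, abs_mul]
      have : |β| * |1 / AA α β t y| * |1 / α| ≤ |β| * 8 * k := by gcongr
      linarith
    · rw [abs_mul, abs_mul]
      have : |α - β| * |1 / HH α β d t y| * |1 / α| ≤ |α - β| * 4 * k := by gcongr
      linarith
  · have e : lw α β d w1 w3 t y = (-(β * t * (1 / AA α β t y ^ 3) * (1 / α) ^ 2)) * w1 +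
        ((α - β) * (α - d ^ 2 * t) * (1 / HH α β d t y ^ 3) * (1 / α) ^ 2) * w3 := by
      unfold lw; ring
    rw [e]
    refine comb2 ?_ ?_
    · rw [abs_neg, abs_mul, abs_mul, abs_mul]
      have : |β| * |t| * |1 / AA α β t y ^ 3| * |(1 / α) ^ 2| ≤ |β| * T * 512 * k ^ 2 := by
        gcongr
      linarith
    · rw [abs_mul, abs_mul, abs_mul]
      have : |α - β| * |α - d ^ 2 * t| * |1 / HH α β d t y ^ 3| * |(1 / α) ^ 2| ≤
          |α - β| * (|α| + T) * 64 * k ^ 2 := by gcongr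
      linarith
  · have e : mw α β d w1 w3 t y = (β * (1 / AA α β t y ^ 3) * (1 / α) ^ 2 * (1 / 2)) * w1 +
        ((α - β) * d ^ 2 * (1 / HH α β d t y ^ 3) * (1 / α) ^ 2 * (1 / 2)) * w3 := by
      unfold mw; ring
    rw [e]
    have h2 : |(1 / 2 : ℝ)| ≤ 1 := by rw [abs_of_pos] <;> norm_num
    refine comb2 ?_ ?_
    · rw [abs_mul, abs_mul, abs_mul]
      have : |β| * |1 / AA α β t y ^ 3| * |(1 / α) ^ 2| * |(1 / 2 : ℝ)| ≤
          |β| * 512 * k ^ 2 * 1 := by gcongr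
      linarith
    · rw [abs_mul, abs_mul, abs_mul, abs_mul]
      have : |α - β| * |d ^ 2| * |1 / HH α β d t y ^ 3| * |(1 / α) ^ 2| * |(1 / 2 : ℝ)| ≤
          |α - β| * 1 * 64 * k ^ 2 * 1 := by gcongr
      linarith
  · have e : Tw α β d w1 w3 t y = ((1 / AA α β t y) * (1 / α) * (1 / 2)) * w1 +
        ((1 / HH α β d t y) * (1 / α) * (1 / 2)) * w3 := by
      unfold Tw; ring
    rw [e]
    have h2 : |(1 / 2 : ℝ)| ≤ 1 := by rw [abs_of_pos] <;> norm_num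
    refine comb2 ?_ ?_
    · rw [abs_mul, abs_mul]
      have : |1 / AA α β t y| * |1 / α| * |(1 / 2 : ℝ)| ≤ 8 * k * 1 := by gcongr
      linarith
    · rw [abs_mul, abs_mul]
      have : |1 / HH α β d t y| * |1 / α| * |(1 / 2 : ℝ)| ≤ 4 * k * 1 := by gcongr
      linarith

theorem row_N2 {α β : ℝ} (hα : α ≠ 0) : ∃ c : ℝ, 0 < c ∧
    ∀ d, 0 ≤ d → d ≤ 1 → ∀ t y w1 w2 w3, Rg α β d t y → 1 / 16 ≤ w1 ^ 2 + w2 ^ 2 + w3 ^ 2 →
      |Uw α β d w1 w2 w3 t y| ≤ c → c ≤ |w1| + |w3| := by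
  obtain ⟨C, hC, hbd⟩ := row_bd (β := β) hα
  -- if `|w1| + |w3| < c` then `|w2| ≤ c + 3 C c` and the square sum is `< 1/16`
  set c : ℝ := 1 / (8 * (2 + 3 * C)) with hc
  have hc0 : 0 < c := by positivity
  refine ⟨c, hc0, fun d hd0 hd1 t y w1 w2 w3 h hw hU => ?_⟩
  by_contra hcon
  push Not at hcon
  have h1 := (hbd d hd0 hd1 t y w1 w3 h).1
  have h2 : |w2| ≤ c + 3 * (C * c) := by
    have h3 : w2 = Uw α β d w1 w2 w3 t y - y * Lw α β d w1 w3 t y := by unfold Uw; ring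
    rw [h3]
    refine (abs_sub _ _).trans (add_le_add hU ?_)
    rw [abs_mul]
    exact mul_le_mul h.1 (h1.trans (mul_le_mul_of_nonneg_left hcon.le hC.le)) (abs_nonneg _)
      (by norm_num)
  have h4 : c * (2 + 3 * C) = 1 / 8 := by rw [hc]; field_simp
  have h5 : |w2| ≤ 1 / 8 := by nlinarith
  have h6 : |w1| + |w3| ≤ 1 / 16 := by nlinarith
  have h7 : w1 ^ 2 + w3 ^ 2 ≤ (|w1| + |w3|) ^ 2 := by
    nlinarith [abs_nonneg w1, abs_nonneg w3, sq_abs w1, sq_abs w3]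
  have h8 : w2 ^ 2 ≤ 1 / 64 := by
    have := sq_abs w2
    nlinarith [abs_nonneg w2]
  nlinarith [abs_nonneg w1, abs_nonneg w3]

theorem lipA {α β : ℝ} : ∀ {d t y t' y' : ℝ}, Rg α β d t y →
    Rg α β d t' y' → |AA α β t y - AA α β t' y'| ≤
      4 * ((1 + |β|) * |1 / α|) * (|t - t'| + |y ^ 2 - y' ^ 2|) := by
  intro d t y t' y' h h'
  set A := AA α β t y with hA
  set A' := AA α β t' y' with hA'
  have h1 : 1 / 8 ≤ A := h.A_ge
  have h1' : 1 / 8 ≤ A' := h'.A_ge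
  have e : (A - A') * (A + A') = ((t - t') - β * (y ^ 2 - y' ^ 2)) * (1 / α) := by
    have e1 : A ^ 2 = rr α β t y := h.A_sq
    have e2 : A' ^ 2 = rr α β t' y' := h'.A_sq
    have e3 : (A - A') * (A + A') = rr α β t y - rr α β t' y' := by rw [← e1, ← e2]; ring
    rw [e3]; unfold rr; ring
  have e2 : |A - A'| * (A + A') ≤ (1 + |β|) * |1 / α| * (|t - t'| + |y ^ 2 - y' ^ 2|) := by
    have e4 : |A - A'| * (A + A') = |(A - A') * (A + A')| := by
      rw [abs_mul, abs_of_pos (by linarith : 0 < A + A')]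
    rw [e4, e, abs_mul]
    have e5 : |(t - t') - β * (y ^ 2 - y' ^ 2)| ≤ (1 + |β|) * (|t - t'| + |y ^ 2 - y' ^ 2|) := by
      refine (abs_sub _ _).trans ?_
      rw [abs_mul]
      nlinarith [abs_nonneg β, abs_nonneg (t - t'), abs_nonneg (y ^ 2 - y' ^ 2),
        mul_nonneg (abs_nonneg β) (abs_nonneg (t - t'))]
    calc |(t - t') - β * (y ^ 2 - y' ^ 2)| * |1 / α|
        ≤ (1 + |β|) * (|t - t'| + |y ^ 2 - y' ^ 2|) * |1 / α| :=
          mul_le_mul_of_nonneg_right e5 (abs_nonneg _)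
      _ = _ := by ring
  have e6 : |A - A'| * (1 / 4) ≤ |A - A'| * (A + A') :=
    mul_le_mul_of_nonneg_left (by linarith) (abs_nonneg _)
  linarith

theorem lipH {α β : ℝ} : ∀ {d t y t' y' : ℝ}, 0 ≤ d → d ≤ 1 →
    Rg α β d t y → Rg α β d t' y' → |HH α β d t y - HH α β d t' y'| ≤
      2 * ((1 + |α - β|) * |1 / α|) * (|t - t'| + |y ^ 2 - y' ^ 2|) := by
  intro d t y t' y' hd0 hd1 h h'
  have hd2 : d ^ 2 ≤ 1 := pow_le_one₀ hd0 hd1
  set A := HH α β d t y with hA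
  set A' := HH α β d t' y' with hA'
  have h1 : 1 / 4 ≤ A := h.H_ge
  have h1' : 1 / 4 ≤ A' := h'.H_ge
  have e : (A - A') * (A + A') =
      -(d ^ 2) * (((t - t') + (α - β) * (y ^ 2 - y' ^ 2)) * (1 / α)) := by
    have e1 : A ^ 2 = 1 - d ^ 2 * ss α β t y := h.H_sq
    have e2 : A' ^ 2 = 1 - d ^ 2 * ss α β t' y' := h'.H_sq
    have e3 : (A - A') * (A + A') = (1 - d ^ 2 * ss α β t y) - (1 - d ^ 2 * ss α β t' y') := by
      rw [← e1, ← e2]; ring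
    rw [e3]; unfold ss; ring
  have e2 : |A - A'| * (A + A') ≤
      (1 + |α - β|) * |1 / α| * (|t - t'| + |y ^ 2 - y' ^ 2|) := by
    have e4 : |A - A'| * (A + A') = |(A - A') * (A + A')| := by
      rw [abs_mul, abs_of_pos (by linarith : 0 < A + A')]
    rw [e4, e, abs_mul, abs_neg, abs_of_nonneg (sq_nonneg d)]
    refine (mul_le_of_le_one_left (abs_nonneg _) hd2).trans ?_
    rw [abs_mul]
    have e5 : |(t - t') + (α - β) * (y ^ 2 - y' ^ 2)| ≤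
        (1 + |α - β|) * (|t - t'| + |y ^ 2 - y' ^ 2|) := by
      refine (abs_add_le _ _).trans ?_
      rw [abs_mul]
      nlinarith [abs_nonneg (α - β), abs_nonneg (t - t'), abs_nonneg (y ^ 2 - y' ^ 2),
        mul_nonneg (abs_nonneg (α - β)) (abs_nonneg (t - t'))]
    calc |(t - t') + (α - β) * (y ^ 2 - y' ^ 2)| * |1 / α|
        ≤ (1 + |α - β|) * (|t - t'| + |y ^ 2 - y' ^ 2|) * |1 / α| :=
          mul_le_mul_of_nonneg_right e5 (abs_nonneg _)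
      _ = _ := by ring
  have e6 : |A - A'| * (1 / 2) ≤ |A - A'| * (A + A') :=
    mul_le_mul_of_nonneg_left (by linarith) (abs_nonneg _)
  linarith

/-- `1/A³ - 1/A'³` for `1/A, 1/A' ≤ M`. -/
theorem inv3_lip {A A' M : ℝ} (hA : 0 < A) (hA' : 0 < A') (hM : |1 / A| ≤ M)
    (hM' : |1 / A'| ≤ M) : |1 / A ^ 3 - 1 / A' ^ 3| ≤ 3 * M ^ 4 * |A - A'| := by
  have hM0 : 0 ≤ M := (abs_nonneg _).trans hM
  rw [abs_of_pos (by positivity)] at hM hM'
  have e : 1 / A ^ 3 - 1 / A' ^ 3 = (A' - A) * ((1 / A) ^ 3 * (1 / A') + (1 / A) ^ 2 *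
      (1 / A') ^ 2 + (1 / A) * (1 / A') ^ 3) := by
    field_simp
    ring
  rw [e, abs_mul, abs_sub_comm, mul_comm]
  refine mul_le_mul_of_nonneg_right ?_ (abs_nonneg _)
  have i1 : 0 < 1 / A := by positivity
  have i2 : 0 < 1 / A' := by positivity
  rw [abs_of_pos (by positivity)]
  have j1 : (1 / A) ^ 3 * (1 / A') ≤ M ^ 3 * M := by gcongr
  have j2 : (1 / A) ^ 2 * (1 / A') ^ 2 ≤ M ^ 2 * M ^ 2 := by gcongr
  have j3 : (1 / A) * (1 / A') ^ 3 ≤ M * M ^ 3 := by gcongr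
  calc _ ≤ M ^ 3 * M + M ^ 2 * M ^ 2 + M * M ^ 3 := add_le_add (add_le_add j1 j2) j3
    _ = 3 * M ^ 4 := by ring

theorem row_lip {α β : ℝ} (hα : α ≠ 0) : ∃ C : ℝ, 0 < C ∧
    ∀ d, 0 ≤ d → d ≤ 1 → ∀ t y t' y' w1 w3, Rg α β d t y → Rg α β d t' y' →
      |lw α β d w1 w3 t y - lw α β d w1 w3 t' y'| ≤
          C * (|w1| + |w3|) * (|t - t'| + |y ^ 2 - y' ^ 2|) ∧
        |mw α β d w1 w3 t y - mw α β d w1 w3 t' y'| ≤
          C * (|w1| + |w3|) * (|t - t'| + |y ^ 2 - y' ^ 2|) := by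
  have ha : 0 < |α| := abs_pos.2 hα
  have hb : 0 ≤ |β| := abs_nonneg β
  have hg : 0 ≤ |α - β| := abs_nonneg _
  set T : ℝ := 9 * |α| + 9 * |β| with hT
  have hT0 : 0 ≤ T := by positivity
  set k : ℝ := |1 / α| with hk
  have hk0 : 0 ≤ k := abs_nonneg _
  set K1 : ℝ := 3 * 8 ^ 4 * (4 * ((1 + |β|) * k)) with hK1
  set K2 : ℝ := 3 * 4 ^ 4 * (2 * ((1 + |α - β|) * k)) with hK2
  have hK10 : 0 ≤ K1 := by positivity
  have hK20 : 0 ≤ K2 := by positivity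
  set C : ℝ := 1 + |β| * (512 + T * K1) * k ^ 2 + |α - β| * (64 + (|α| + T) * K2) * k ^ 2 +
    |β| * K1 * k ^ 2 + |α - β| * K2 * k ^ 2 with hC
  have p1 : 0 ≤ |β| * (512 + T * K1) * k ^ 2 := by positivity
  have p2 : 0 ≤ |α - β| * (64 + (|α| + T) * K2) * k ^ 2 := by positivity
  have p3 : 0 ≤ |β| * K1 * k ^ 2 := by positivity
  have p4 : 0 ≤ |α - β| * K2 * k ^ 2 := by positivity
  refine ⟨C, by rw [hC]; linarith, fun d hd0 hd1 t y t' y' w1 w3 h h' => ?_⟩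
  have hd2 : d ^ 2 ≤ 1 := pow_le_one₀ hd0 hd1
  have hd2' : |d ^ 2| ≤ 1 := by rw [abs_of_nonneg (sq_nonneg d)]; exact hd2
  have ht' : |t'| ≤ T := h'.t_le hα
  set δ : ℝ := |t - t'| + |y ^ 2 - y' ^ 2| with hδ
  have hδ0 : 0 ≤ δ := by positivity
  have htδ : |t - t'| ≤ δ := by rw [hδ]; linarith [abs_nonneg (y ^ 2 - y' ^ 2)]
  have hk2 : |(1 / α) ^ 2| ≤ k ^ 2 := by rw [abs_pow]
  have lA : |1 / AA α β t y ^ 3 - 1 / AA α β t' y' ^ 3| ≤ K1 * δ := by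
    refine (inv3_lip h.A_pos h'.A_pos h.iA h'.iA).trans ?_
    rw [hK1, mul_assoc (3 * 8 ^ 4)]
    exact mul_le_mul_of_nonneg_left (lipA h h') (by norm_num)
  have lH : |1 / HH α β d t y ^ 3 - 1 / HH α β d t' y' ^ 3| ≤ K2 * δ := by
    refine (inv3_lip h.H_pos h'.H_pos h.iH h'.iH).trans ?_
    rw [hK2, mul_assoc (3 * 4 ^ 4)]
    exact mul_le_mul_of_nonneg_left (lipH hd0 hd1 h h') (by norm_num)
  have hatd : |α - d ^ 2 * t'| ≤ |α| + T := by
    refine (abs_sub _ _).trans (add_le_add le_rfl ?_)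
    rw [abs_mul]
    calc |d ^ 2| * |t'| ≤ 1 * T := mul_le_mul hd2' ht' (abs_nonneg _) (by norm_num)
      _ = T := one_mul _
  have lA' : |t * (1 / AA α β t y ^ 3) - t' * (1 / AA α β t' y' ^ 3)| ≤ (512 + T * K1) * δ := by
    have e : t * (1 / AA α β t y ^ 3) - t' * (1 / AA α β t' y' ^ 3) =
        (1 / AA α β t y ^ 3) * (t - t') +
          t' * (1 / AA α β t y ^ 3 - 1 / AA α β t' y' ^ 3) := by ring
    rw [e]
    refine (abs_add_le _ _).trans ?_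
    rw [abs_mul, abs_mul]
    have h1 : |1 / AA α β t y ^ 3| * |t - t'| ≤ 512 * δ :=
      mul_le_mul h.iA3 htδ (abs_nonneg _) (by norm_num)
    have h2 : |t'| * |1 / AA α β t y ^ 3 - 1 / AA α β t' y' ^ 3| ≤ T * (K1 * δ) :=
      mul_le_mul ht' lA (abs_nonneg _) hT0
    calc _ ≤ 512 * δ + T * (K1 * δ) := add_le_add h1 h2
      _ = _ := by ring
  have lH' : |(α - d ^ 2 * t) * (1 / HH α β d t y ^ 3) -
      (α - d ^ 2 * t') * (1 / HH α β d t' y' ^ 3)| ≤ (64 + (|α| + T) * K2) * δ := by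
    have e : (α - d ^ 2 * t) * (1 / HH α β d t y ^ 3) -
        (α - d ^ 2 * t') * (1 / HH α β d t' y' ^ 3) =
        -((1 / HH α β d t y ^ 3) * (d ^ 2 * (t - t'))) +
          (α - d ^ 2 * t') * (1 / HH α β d t y ^ 3 - 1 / HH α β d t' y' ^ 3) := by ring
    rw [e]
    refine (abs_add_le _ _).trans ?_
    rw [abs_neg, abs_mul, abs_mul, abs_mul]
    have h0 : |d ^ 2| * |t - t'| ≤ 1 * δ := mul_le_mul hd2' htδ (abs_nonneg _) (by norm_num)
    have h1 : |1 / HH α β d t y ^ 3| * (|d ^ 2| * |t - t'|) ≤ 64 * (1 * δ) :=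
      mul_le_mul h.iH3 h0 (by positivity) (by norm_num)
    have h2 : |α - d ^ 2 * t'| * |1 / HH α β d t y ^ 3 - 1 / HH α β d t' y' ^ 3| ≤
        (|α| + T) * (K2 * δ) := mul_le_mul hatd lH (abs_nonneg _) (by positivity)
    calc _ ≤ 64 * (1 * δ) + (|α| + T) * (K2 * δ) := add_le_add h1 h2
      _ = _ := by ring
  constructor
  · have e : lw α β d w1 w3 t y - lw α β d w1 w3 t' y' =
        (-(β * (t * (1 / AA α β t y ^ 3) - t' * (1 / AA α β t' y' ^ 3)) * (1 / α) ^ 2)) * w1 +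
        ((α - β) * ((α - d ^ 2 * t) * (1 / HH α β d t y ^ 3) -
          (α - d ^ 2 * t') * (1 / HH α β d t' y' ^ 3)) * (1 / α) ^ 2) * w3 := by
      unfold lw; ring
    rw [e]
    refine (comb2 (M := C * δ) ?_ ?_).trans (le_of_eq (by ring))
    · rw [abs_neg, abs_mul, abs_mul]
      have : |β| * |t * (1 / AA α β t y ^ 3) - t' * (1 / AA α β t' y' ^ 3)| * |(1 / α) ^ 2| ≤
          |β| * ((512 + T * K1) * δ) * k ^ 2 := by gcongr
      refine this.trans ?_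
      calc |β| * ((512 + T * K1) * δ) * k ^ 2 = (|β| * (512 + T * K1) * k ^ 2) * δ := by ring
        _ ≤ C * δ := mul_le_mul_of_nonneg_right (by rw [hC]; linarith) hδ0
    · rw [abs_mul, abs_mul]
      have : |α - β| * |(α - d ^ 2 * t) * (1 / HH α β d t y ^ 3) -
          (α - d ^ 2 * t') * (1 / HH α β d t' y' ^ 3)| * |(1 / α) ^ 2| ≤
          |α - β| * ((64 + (|α| + T) * K2) * δ) * k ^ 2 := by gcongr
      refine this.trans ?_
      calc |α - β| * ((64 + (|α| + T) * K2) * δ) * k ^ 2 =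
            (|α - β| * (64 + (|α| + T) * K2) * k ^ 2) * δ := by ring
        _ ≤ C * δ := mul_le_mul_of_nonneg_right (by rw [hC]; linarith) hδ0
  · have e : mw α β d w1 w3 t y - mw α β d w1 w3 t' y' =
        (β * (1 / AA α β t y ^ 3 - 1 / AA α β t' y' ^ 3) * (1 / α) ^ 2 * (1 / 2)) * w1 +
        ((α - β) * d ^ 2 * (1 / HH α β d t y ^ 3 - 1 / HH α β d t' y' ^ 3) * (1 / α) ^ 2 *
          (1 / 2)) * w3 := by
      unfold mw; ring
    rw [e]
    have h2 : |(1 / 2 : ℝ)| ≤ 1 := by rw [abs_of_pos] <;> norm_num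
    refine (comb2 (M := C * δ) ?_ ?_).trans (le_of_eq (by ring))
    · rw [abs_mul, abs_mul, abs_mul]
      have : |β| * |1 / AA α β t y ^ 3 - 1 / AA α β t' y' ^ 3| * |(1 / α) ^ 2| * |(1 / 2 : ℝ)| ≤
          |β| * (K1 * δ) * k ^ 2 * 1 := by gcongr
      refine this.trans ?_
      calc |β| * (K1 * δ) * k ^ 2 * 1 = (|β| * K1 * k ^ 2) * δ := by ring
        _ ≤ C * δ := mul_le_mul_of_nonneg_right (by rw [hC]; linarith) hδ0
    · rw [abs_mul, abs_mul, abs_mul, abs_mul]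
      have : |α - β| * |d ^ 2| * |1 / HH α β d t y ^ 3 - 1 / HH α β d t' y' ^ 3| *
          |(1 / α) ^ 2| * |(1 / 2 : ℝ)| ≤ |α - β| * 1 * (K2 * δ) * k ^ 2 * 1 := by gcongr
      refine this.trans ?_
      calc |α - β| * 1 * (K2 * δ) * k ^ 2 * 1 = (|α - β| * K2 * k ^ 2) * δ := by ring
        _ ≤ C * δ := mul_le_mul_of_nonneg_right (by rw [hC]; linarith) hδ0

end Pool.Agent.LQ
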