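import Pool.Agent.LQ.Df2

/-!
[LEAFQ] row PART (R1): the 48 signed permutations.
-/

set_option autoImplicit false

namespace Pool.Agent.LQ

open MeasureTheory Set Pool.Agent.MP_6cbfb8_an Pool.Agent.LF
open scoped RealInnerProductSpace ContDiff

theorem th1_nonneg (q : ℝ) : 0 ≤ th1 q := Real.smoothTransition.nonneg _

theorem th1_le_one (q : ℝ) : th1 q ≤ 1 := Real.smoothTransition.le_one _

theorem th2_nonneg (q : ℝ) : 0 ≤ th2 q := Real.smoothTransition.nonneg _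

theorem th2_le_one (q : ℝ) : th2 q ≤ 1 := Real.smoothTransition.le_one _

theorem th1_one {q : ℝ} (h : 1 / 3 ≤ q) : th1 q = 1 :=
  Real.smoothTransition.one_of_one_le (by linarith)

theorem th1_zero {q : ℝ} (h : q ≤ 1 / 4) : th1 q = 0 :=
  Real.smoothTransition.zero_of_nonpos (by linarith)

theorem th2_one {q : ℝ} (h : 1 / 2 ≤ q) : th2 q = 1 :=
  Real.smoothTransition.one_of_one_le (by linarith)

theorem th2_zero {q : ℝ} (h : q ≤ 1 / 4) : th2 q = 0 :=
  Real.smoothTransition.zero_of_nonpos (by linarith)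

/-- The denominator of the first factor. -/
theorem th1_sum {a b c : ℝ} (h : a + b + c = 1) : 1 ≤ th1 a + th1 b + th1 c := by
  have h1 := th1_nonneg a
  have h2 := th1_nonneg b
  have h3 := th1_nonneg c
  rcases le_or_gt (1 / 3) a with ha | ha
  · rw [th1_one ha]; linarith
  rcases le_or_gt (1 / 3) b with hb | hb
  · rw [th1_one hb]; linarith
  · rw [th1_one (show 1 / 3 ≤ c by linarith)]; linarith

/-- The denominator of the second factor. -/
theorem th2_sum {a b : ℝ} (h : 0 < a + b) : 1 ≤ th2 (a / (a + b)) + th2 (b / (a + b)) := by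
  have h1 := th2_nonneg (a / (a + b))
  have h2 := th2_nonneg (b / (a + b))
  have h3 : a / (a + b) + b / (a + b) = 1 := by rw [← add_div, div_self h.ne']
  rcases le_or_gt (1 / 2) (a / (a + b)) with ha | ha
  · rw [th2_one ha]; linarith
  · rw [th2_one (show 1 / 2 ≤ b / (a + b) by linarith)]; linarith

/-- The piece as a function of the squares of the coordinates. -/
noncomputable def kp (a b c : ℝ) : ℝ :=
  th1 c / (th1 a + th1 b + th1 c) *
    (th2 (a / (a + b)) / (th2 (a / (a + b)) + th2 (b / (a + b))))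

theorem kap_eq (x : E 3) : kap x = if 0 < x 0 ∧ 0 < x 2 then
    kp (x 0 ^ 2) (x 1 ^ 2) (x 2 ^ 2) else 0 := rfl

theorem kp_add {a b c : ℝ} (h : 0 < a + b) : kp a b c + kp b a c = th1 c / (th1 a + th1 b + th1 c) := by
  unfold kp
  rw [add_comm b a, add_comm (th1 b) (th1 a), add_comm (th2 (b / (a + b))) (th2 (a / (a + b))),
    ← mul_add, ← add_div, div_self (by linarith [th2_sum h]), mul_one]

theorem kp_nonneg {a b c : ℝ} : 0 ≤ kp a b c := by
  have h1 := th1_nonneg a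
  have h2 := th1_nonneg b
  have h3 := th1_nonneg c
  have h4 := th2_nonneg (a / (a + b))
  have h5 := th2_nonneg (b / (a + b))
  unfold kp
  positivity

theorem kp_le_one {a b c : ℝ} : kp a b c ≤ 1 := by
  have h1 := th1_nonneg a
  have h2 := th1_nonneg b
  have h3 := th1_nonneg c
  have h4 := th2_nonneg (a / (a + b))
  have h5 := th2_nonneg (b / (a + b))
  unfold kp
  have e1 : th1 c / (th1 a + th1 b + th1 c) ≤ 1 := div_le_one_of_le₀ (by linarith) (by linarith)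
  have e2 : th2 (a / (a + b)) / (th2 (a / (a + b)) + th2 (b / (a + b))) ≤ 1 :=
    div_le_one_of_le₀ (by linarith) (by linarith)
  exact mul_le_one₀ e1 (by positivity) e2

theorem kap_nonneg (x : E 3) : 0 ≤ kap x := by
  rw [kap_eq]
  split_ifs
  · exact kp_nonneg
  · exact le_rfl

theorem kap_le_one (x : E 3) : kap x ≤ 1 := by
  rw [kap_eq]
  split_ifs
  · exact kp_le_one
  · exact zero_le_one

theorem continuous_th1 : Continuous th1 :=
  Real.smoothTransition.continuous.comp (by fun_prop)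

theorem continuous_th2 : Continuous th2 :=
  Real.smoothTransition.continuous.comp (by fun_prop)

theorem kap_meas : Measurable kap := by
  have h0 : ∀ i : Fin 3, Measurable fun x : E 3 => x i := fun i =>
    (by fun_prop : Continuous fun x : E 3 => x i).measurable
  have h1 : ∀ i : Fin 3, Measurable fun x : E 3 => th1 (x i ^ 2) := fun i =>
    continuous_th1.measurable.comp ((h0 i).pow_const 2)
  have h2 : ∀ i : Fin 3, Measurable fun x : E 3 => th2 (x i ^ 2 / (x 0 ^ 2 + x 1 ^ 2)) := fun i =>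
    continuous_th2.measurable.comp (((h0 i).pow_const 2).div
      (((h0 0).pow_const 2).add ((h0 1).pow_const 2)))
  unfold kap
  refine Measurable.ite ?_ ?_ measurable_const
  · exact (measurableSet_lt measurable_const (h0 0)).inter
      (measurableSet_lt measurable_const (h0 2))
  · exact ((h1 2).div (((h1 0).add (h1 1)).add (h1 2))).mul ((h2 0).div ((h2 0).add (h2 1)))

/-- The sum over the signs. -/
theorem sum_signs {y : Fin 3 → ℝ} (h0 : ∀ i, y i ≠ 0) :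
    ∑ e : Fin 3 → Fin 2, kap (WithLp.toLp 2 fun i => (-1 : ℝ) ^ (e i : ℕ) * y i) =
      2 * kp (y 0 ^ 2) (y 1 ^ 2) (y 2 ^ 2) := by
  have hsq : ∀ (k : ℕ) (x : ℝ), ((-1 : ℝ) ^ k * x) ^ 2 = x ^ 2 := by
    intro k x
    rw [mul_pow, ← pow_mul, mul_comm k 2, pow_mul]
    simp
  have h1 : ∀ e : Fin 3 → Fin 2, kap (WithLp.toLp 2 fun i => (-1 : ℝ) ^ (e i : ℕ) * y i) =
      (if 0 < (-1 : ℝ) ^ (e 0 : ℕ) * y 0 then 1 else 0) *
        (if 0 < (-1 : ℝ) ^ (e 2 : ℕ) * y 2 then 1 else 0) *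
          kp (y 0 ^ 2) (y 1 ^ 2) (y 2 ^ 2) := by
    intro e
    rw [kap_eq]
    simp only [hsq]
    by_cases a : 0 < (-1 : ℝ) ^ (e 0 : ℕ) * y 0 <;> by_cases b : 0 < (-1 : ℝ) ^ (e 2 : ℕ) * y 2 <;>
      simp [a, b]
  simp_rw [h1]
  rw [← Finset.sum_mul]
  congr 1
  have h2 : ∀ i, ∑ s : Fin 2, (if 0 < (-1 : ℝ) ^ (s : ℕ) * y i then (1 : ℝ) else 0) = 1 := by
    intro i
    rw [Fin.sum_univ_two]
    rcases lt_or_gt_of_ne (h0 i) with h | h
    · have : ¬ 0 < y i := not_lt.2 h.le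
      simp [h, this]
    · have : ¬ y i < 0 := not_lt.2 h.le
      simp [h, this]
  have h3 := Finset.prod_univ_sum (fun _ : Fin 3 => (Finset.univ : Finset (Fin 2)))
    (fun i s => if i = 1 then (1 : ℝ) else (if 0 < (-1 : ℝ) ^ (s : ℕ) * y i then (1 : ℝ) else 0))
  rw [Fin.prod_univ_three] at h3
  simp only [Fintype.piFinset_univ, Fin.prod_univ_three] at h3
  have h4 := h2 0
  have h5 := h2 2
  rw [Fin.sum_univ_two] at h4 h5
  rw [Fin.sum_univ_two, Fin.sum_univ_two, Fin.sum_univ_two] at h3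
  simp only [show ((0 : Fin 3) = 1) = False by simp, show ((2 : Fin 3) = 1) = False by simp,
    if_false, if_true, mul_one] at h3
  rw [h4, h5] at h3
  rw [← h3]
  norm_num

/-- ROW PART. -/
theorem part {x : E 3} (hx : ‖x‖ = 1) (h0 : ∀ i, x i ≠ 0) :
    ∑ σ : Equiv.Perm (Fin 3), ∑ e : Fin 3 → Fin 2,
      kap (WithLp.toLp 2 fun i => (-1 : ℝ) ^ (e i : ℕ) * x (σ i)) = 2 := by
  have hn : x 0 ^ 2 + x 1 ^ 2 + x 2 ^ 2 = 1 := by
    have h1 := EuclideanSpace.real_norm_sq_eq x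
    rw [hx, Fin.sum_univ_three] at h1
    linarith
  have hpos : ∀ i, 0 < x i ^ 2 := fun i => by
    have := h0 i
    positivity
  have h1 : ∀ σ : Equiv.Perm (Fin 3), ∑ e : Fin 3 → Fin 2,
      kap (WithLp.toLp 2 fun i => (-1 : ℝ) ^ (e i : ℕ) * x (σ i)) =
      2 * kp (x (σ 0) ^ 2) (x (σ 1) ^ 2) (x (σ 2) ^ 2) := fun σ =>
    sum_signs (y := fun i => x (σ i)) fun i => h0 _
  simp_rw [h1]
  rw [← Finset.mul_sum]
  have h2 : (Finset.univ : Finset (Equiv.Perm (Fin 3))) =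
      {1, Equiv.swap 0 1, Equiv.swap 0 2, Equiv.swap 1 2,
        Equiv.swap 0 1 * Equiv.swap 1 2, Equiv.swap 1 2 * Equiv.swap 0 1} := by decide
  have h3 : ∑ σ : Equiv.Perm (Fin 3), kp (x (σ 0) ^ 2) (x (σ 1) ^ 2) (x (σ 2) ^ 2) = 1 := by
    rw [h2]
    rw [Finset.sum_insert (by decide), Finset.sum_insert (by decide),
      Finset.sum_insert (by decide), Finset.sum_insert (by decide),
      Finset.sum_insert (by decide), Finset.sum_singleton]
    have e1 := kp_add (a := x 0 ^ 2) (b := x 1 ^ 2) (c := x 2 ^ 2) (by linarith [hpos 0, hpos 1])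
    have e2 := kp_add (a := x 0 ^ 2) (b := x 2 ^ 2) (c := x 1 ^ 2) (by linarith [hpos 0, hpos 2])
    have e3 := kp_add (a := x 1 ^ 2) (b := x 2 ^ 2) (c := x 0 ^ 2) (by linarith [hpos 1, hpos 2])
    have hs := th1_sum hn
    have f1 : th1 (x 0 ^ 2) + th1 (x 2 ^ 2) + th1 (x 1 ^ 2) =
      th1 (x 0 ^ 2) + th1 (x 1 ^ 2) + th1 (x 2 ^ 2) := by ring
    have f2 : th1 (x 1 ^ 2) + th1 (x 2 ^ 2) + th1 (x 0 ^ 2) =
      th1 (x 0 ^ 2) + th1 (x 1 ^ 2) + th1 (x 2 ^ 2) := by ring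
    rw [f1] at e2
    rw [f2] at e3
    have g1 : (Equiv.swap (0 : Fin 3) 1 * Equiv.swap 1 2 : Equiv.Perm (Fin 3)) 0 = 1 := by decide
    have g2 : (Equiv.swap (0 : Fin 3) 1 * Equiv.swap 1 2 : Equiv.Perm (Fin 3)) 1 = 2 := by decide
    have g3 : (Equiv.swap (0 : Fin 3) 1 * Equiv.swap 1 2 : Equiv.Perm (Fin 3)) 2 = 0 := by decide
    have g4 : (Equiv.swap (1 : Fin 3) 2 * Equiv.swap 0 1 : Equiv.Perm (Fin 3)) 0 = 2 := by decide
    have g5 : (Equiv.swap (1 : Fin 3) 2 * Equiv.swap 0 1 : Equiv.Perm (Fin 3)) 1 = 0 := by decide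
    have g6 : (Equiv.swap (1 : Fin 3) 2 * Equiv.swap 0 1 : Equiv.Perm (Fin 3)) 2 = 1 := by decide
    have k1 : (Equiv.swap (0 : Fin 3) 1) 0 = 1 := by decide
    have k2 : (Equiv.swap (0 : Fin 3) 1) 1 = 0 := by decide
    have k3 : (Equiv.swap (0 : Fin 3) 1) 2 = 2 := by decide
    have k4 : (Equiv.swap (0 : Fin 3) 2) 0 = 2 := by decide
    have k5 : (Equiv.swap (0 : Fin 3) 2) 1 = 1 := by decide
    have k6 : (Equiv.swap (0 : Fin 3) 2) 2 = 0 := by decide
    have k7 : (Equiv.swap (1 : Fin 3) 2) 0 = 0 := by decide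
    have k8 : (Equiv.swap (1 : Fin 3) 2) 1 = 2 := by decide
    have k9 : (Equiv.swap (1 : Fin 3) 2) 2 = 1 := by decide
    rw [g1, g2, g3, g4, g5, g6, k1, k2, k3, k4, k5, k6, k7, k8, k9]
    simp only [Equiv.Perm.coe_one, id_eq]
    have e4 : th1 (x 2 ^ 2) / (th1 (x 0 ^ 2) + th1 (x 1 ^ 2) + th1 (x 2 ^ 2)) +
        th1 (x 1 ^ 2) / (th1 (x 0 ^ 2) + th1 (x 1 ^ 2) + th1 (x 2 ^ 2)) +
        th1 (x 0 ^ 2) / (th1 (x 0 ^ 2) + th1 (x 1 ^ 2) + th1 (x 2 ^ 2)) = 1 := by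
      rw [← add_div, ← add_div, div_eq_one_iff_eq (by linarith)]
      ring
    linarith
  rw [h3, mul_one]

end Pool.Agent.LQ
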