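import Pool.Agent.LQ.PIECE2b
import Pool.Agent.LQ.RED

/-!
[LEAFQ] row PIECE, part 3: the density of `piece` is the sum of its dyadic pieces.
-/

set_option autoImplicit false

namespace Pool.Agent.LQ

open MeasureTheory Set Filter Topology Pool.Agent.MP_6cbfb8_an Pool.Agent.LF
open scoped RealInnerProductSpace ContDiff Real

theorem psd_nonneg (v : ℝ) : 0 ≤ psd v := by
  rcases le_total 0 v with h | h
  · unfold psd
    exact sub_nonneg.2 (Real.smoothTransition.monotone (by linarith))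
  · rw [psd_zero (Or.inl (by linarith))]

/-- The dyadic partition of unity. -/
theorem psd_hasSum {v : ℝ} (h0 : 0 < v) (h1 : v ≤ 1) :
    HasSum (fun l : ℕ => psd (4 ^ l * v)) 1 := by
  rw [hasSum_iff_tendsto_nat_of_nonneg fun l => psd_nonneg _]
  obtain ⟨L, hL⟩ := pow_unbounded_of_one_lt (4 / v) (by norm_num : (1 : ℝ) < 4)
  refine tendsto_const_nhds.congr' ?_
  filter_upwards [eventually_ge_atTop L] with k hk
  rw [psd_sum v k h1, Real.smoothTransition.one_of_one_le]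
  have h2 : (4 : ℝ) ^ L ≤ 4 ^ k := pow_le_pow_right₀ (by norm_num) hk
  have h3 : 4 / v < 4 ^ k := lt_of_lt_of_le hL h2
  rw [div_lt_iff₀ h0] at h3
  linarith

theorem fp_eq (b : Fin 3 → ℝ) (g0 : ℝ → ℝ) (G : ℝ → E 3 → ℂ) : fp b g0 G = pc g0 b G := rfl

theorem measurable_fp {B : ℕ → ℝ} {G : ℝ → E 3 → ℂ} (hG : GC B G) (b : Fin 3 → ℝ) {g0 : ℝ → ℝ}
    (hg : Measurable g0) : Measurable (fp b g0 G) := by
  rw [fp_eq]
  exact pc_meas hG b hg

theorem measurable_fl {B : ℕ → ℝ} {G : ℝ → E 3 → ℂ} (hG : GC B G) (b : Fin 3 → ℝ) {g0 : ℝ → ℝ}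
    (hg : Measurable g0) (l : ℕ) : Measurable (fl b g0 G l) := by
  unfold fl
  refine Measurable.mul ?_ (measurable_fp hG b hg)
  refine Complex.measurable_ofReal.comp (psd_smooth.continuous.measurable.comp ?_)
  exact measurable_const.mul (((meas_coord 0).pow_const 2).add ((meas_coord 1).pow_const 2))

/-- The densities are bounded. -/
theorem fp_bound {g0 : ℝ → ℝ} (hg : Continuous g0) (B : ℕ → ℝ) : ∃ M : ℝ, 0 ≤ M ∧
    ∀ (b : Fin 3 → ℝ) (G : ℝ → E 3 → ℂ), GC B G → (∀ x, ‖fp b g0 G x‖ ≤ M) ∧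
      ∀ l x, ‖fl b g0 G l x‖ ≤ M := by
  obtain ⟨M0, hM0⟩ := (isCompact_Icc (a := (0 : ℝ)) (b := 1)).exists_bound_of_continuousOn
    hg.continuousOn
  have hM00 : 0 ≤ M0 := (norm_nonneg _).trans (hM0 0 (by simp))
  refine ⟨M0 * |B 0|, by positivity, fun b G hG => ?_⟩
  have h1 : ∀ x, ‖fp b g0 G x‖ ≤ M0 * |B 0| := by
    intro x
    unfold fp
    split_ifs
    · rw [norm_mul, Complex.norm_real]
      refine mul_le_mul (hM0 _ ⟨by positivity, ?_⟩) ((hG.norm_le _ _).trans (le_abs_self _))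
        (norm_nonneg _) hM00
      refine div_le_one_of_le₀ ?_ (by positivity)
      nlinarith [sq_nonneg (x 1)]
    · rw [norm_zero]; positivity
  refine ⟨h1, fun l x => ?_⟩
  unfold fl
  rw [norm_mul, Complex.norm_real, Real.norm_eq_abs]
  calc |psd (4 ^ l * (x 0 ^ 2 + x 1 ^ 2))| * ‖fp b g0 G x‖ ≤ 1 * (M0 * |B 0|) :=
        mul_le_mul (psd_le _) (h1 x) (norm_nonneg _) zero_le_one
    _ = _ := one_mul _

/-- The density is the sum of its pieces. -/
theorem fl_hasSum_pt (b : Fin 3 → ℝ) (g0 : ℝ → ℝ) (G : ℝ → E 3 → ℂ) {x : E 3} (hx : ‖x‖ = 1) :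
    HasSum (fun l => fl b g0 G l x) (fp b g0 G x) := by
  by_cases h0 : 0 < x 0
  · have hn : x 0 ^ 2 + x 1 ^ 2 ≤ 1 := by
      have h1 := EuclideanSpace.real_norm_sq_eq x
      rw [hx, Fin.sum_univ_three] at h1
      nlinarith [sq_nonneg (x 2)]
    have hp : 0 < x 0 ^ 2 + x 1 ^ 2 := by positivity
    have h2 := (Complex.hasSum_ofReal.2 (psd_hasSum hp hn)).mul_right (fp b g0 G x)
    rw [Complex.ofReal_one, one_mul] at h2
    exact h2
  · have h1 : fp b g0 G x = 0 := by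
      unfold fp
      rw [if_neg h0]
    have h2 : ∀ l, fl b g0 G l x = 0 := fun l => by
      unfold fl
      rw [h1, mul_zero]
    rw [h1]
    simp_rw [h2]
    exact hasSum_zero

/-- The transform is the sum of the transforms of the pieces. -/
theorem fl_hasSum {B : ℕ → ℝ} {G : ℝ → E 3 → ℂ} (hG : GC B G) (b : Fin 3 → ℝ) {g0 : ℝ → ℝ}
    (hg : Continuous g0) (ξ : E 3) :
    HasSum (fun l => extn (fl b g0 G l) ξ) (extn (fp b g0 G) ξ) := by
  obtain ⟨M, hM0, hM⟩ := fp_bound hg B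
  obtain ⟨hM1, -⟩ := hM b G hG
  have hexp : ∀ x : S 3, ‖Complex.exp (((-(2 * π * inner ℝ (x : E 3) ξ) : ℝ) : ℂ) *
      Complex.I)‖ = 1 := fun x => Complex.norm_exp_ofReal_mul_I _
  have hx1 : ∀ x : S 3, ‖(x : E 3)‖ = 1 := fun x => mem_sphere_zero_iff_norm.mp x.2
  have hsum : ∀ x : S 3, ∀ v : ℝ, v = (x : E 3) 0 ^ 2 + (x : E 3) 1 ^ 2 →
      Summable (fun l : ℕ => psd (4 ^ l * v)) ∧ ∑' l : ℕ, psd (4 ^ l * v) ≤ 1 := by
    intro x v hv
    have hn : v ≤ 1 := by
      have h1 := EuclideanSpace.real_norm_sq_eq (x : E 3)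
      rw [hx1 x, Fin.sum_univ_three] at h1
      rw [hv]
      nlinarith [sq_nonneg ((x : E 3) 2)]
    have h0 : 0 ≤ v := by rw [hv]; positivity
    rcases h0.lt_or_eq with h2 | h2
    · have h3 := psd_hasSum h2 hn
      exact ⟨h3.summable, h3.tsum_eq.le⟩
    · have h3 : ∀ l : ℕ, psd (4 ^ l * v) = 0 := fun l => by
        rw [← h2, mul_zero]
        exact psd_zero (Or.inl (by norm_num))
      simp_rw [h3]
      refine ⟨summable_zero, ?_⟩
      rw [tsum_zero]
      norm_num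
  unfold extn
  refine hasSum_integral_of_dominated_convergence
    (fun l x => psd (4 ^ l * ((x : E 3) 0 ^ 2 + (x : E 3) 1 ^ 2)) * M) ?_ ?_ ?_ ?_ ?_
  · intro l
    exact (extn_integrable (measurable_fl hG b hg.measurable l) (hM b G hG |>.2 l)
      ξ).aestronglyMeasurable
  · intro l
    refine Eventually.of_forall fun x => ?_
    rw [norm_mul, hexp, mul_one]
    unfold fl
    rw [norm_mul, Complex.norm_real, Real.norm_of_nonneg (psd_nonneg _)]
    exact mul_le_mul_of_nonneg_left (hM1 _) (psd_nonneg _)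
  · exact Eventually.of_forall fun x => ((hsum x _ rfl).1.mul_right M)
  · have hm : Measurable fun x : S 3 =>
        ∑' l : ℕ, psd (4 ^ l * ((x : E 3) 0 ^ 2 + (x : E 3) 1 ^ 2)) * M := by
      refine Measurable.tsum fun l => ?_
      refine Measurable.mul_const ?_ M
      have h1 : Continuous fun x : S 3 =>
          psd (4 ^ l * ((x : E 3) 0 ^ 2 + (x : E 3) 1 ^ 2)) :=
        psd_smooth.continuous.comp (by fun_prop)
      exact h1.measurable
    refine Integrable.mono' (integrable_const M) hm.aestronglyMeasurable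
      (Eventually.of_forall fun x => ?_)
    rw [tsum_mul_right, Real.norm_of_nonneg (mul_nonneg (tsum_nonneg fun l => psd_nonneg _) hM0)]
    exact mul_le_of_le_one_left hM0 (hsum x _ rfl).2
  · refine Eventually.of_forall fun x => ?_
    exact (fl_hasSum_pt b g0 G (hx1 x)).mul_right _

end Pool.Agent.LQ
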