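import Pool.Agent.LQ.RED

/-!
[LEAFQ] row RESQ (R1): the theorem on the whole sphere, with tails, from the row PIECE.
-/

set_option autoImplicit false

namespace Pool.Agent.LQ

open MeasureTheory Set Metric Pool.Agent.MP_6cbfb8_an Pool.Agent.LF
open scoped RealInnerProductSpace ContDiff ENNReal NNReal

/-- The row PIECE for the exponent `p`. -/
def PieceAt (p : ℝ) : Prop :=
  ∀ (b : Fin 3 → ℝ), Function.Injective b → ∀ g0 : ℝ → ℝ, ContDiff ℝ ∞ g0 →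
    (∀ r ≤ 1 / 4, g0 r = 0) → ∃ η : ℝ, 0 < η ∧ ∀ B : ℕ → ℝ,
    ∃ C : ℝ, ∀ G : ℝ → E 3 → ℂ, GC B G → (∀ t x, x 2 ≤ 1 / 2 → G t x = 0) → ∀ R : ℝ, 1 ≤ R →
      ∫⁻ ξ in {ξ : E 3 | R ≤ ‖ξ‖}, ‖extn (fun x => if 0 < x 0 then
        (g0 (x 0 ^ 2 / (x 0 ^ 2 + x 1 ^ 2)) : ℂ) * G (∑ i, b i * x i ^ 2) x else 0) ξ‖ₑ ^ p ≤
          ENNReal.ofReal (C * R ^ (-η))

/-- ROW RESQ over PIECE. -/
theorem quadQ_of {b : Fin 3 → ℝ} (hb : Function.Injective b) {p : ℝ} (hp : 3 < p)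
    (hpc : PieceAt p) :
    ∃ η : ℝ, 0 < η ∧ ∀ B : ℕ → ℝ, ∃ C : ℝ, ∀ G : ℝ → E 3 → ℂ, GC B G → ∀ R : ℝ, 1 ≤ R →
      ∫⁻ ξ in {ξ : E 3 | R ≤ ‖ξ‖}, ‖extn (fun x => G (∑ i, b i * x i ^ 2) x) ξ‖ₑ ^ p ≤
        ENNReal.ofReal (C * R ^ (-η)) := by
  choose η hη hC using fun σ : Equiv.Perm (Fin 3) =>
    hpc (fun i => b (σ i)) (hb.comp σ.injective) (ga σ) (contDiff_ga σ) fun r hr => ga_zero σ hr
  obtain ⟨σ0, -, hσ0⟩ := Finset.exists_min_image (Finset.univ : Finset (Equiv.Perm (Fin 3))) η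
    ⟨1, Finset.mem_univ 1⟩
  refine ⟨η σ0, hη σ0, fun B => ?_⟩
  obtain ⟨B', hB'⟩ := red (b := b) (p := p) (by linarith) B
  choose C hC using fun σ => hC σ B'
  refine ⟨24 ^ p * ∑ σ, |C σ|, fun G hG R hR => ?_⟩
  have hR0 : 0 < R := by linarith
  have h1 := hB' {ξ : E 3 | R ≤ ‖ξ‖} (ENNReal.ofReal ((∑ σ, |C σ|) * R ^ (-(η σ0))))
    (fun U => by ext ξ; simp) (fun σ G1 hG1 hz => ?_) G hG
  · refine h1.trans (le_of_eq ?_)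
    have h2 : (24 : ℝ≥0∞) ^ p = ENNReal.ofReal (24 ^ p) := by
      rw [← ENNReal.ofReal_rpow_of_pos (by norm_num : (0 : ℝ) < 24)]
      norm_num
    rw [h2, ← ENNReal.ofReal_mul (by positivity), mul_assoc]
  · refine (hC σ G1 hG1 hz R hR).trans (ENNReal.ofReal_le_ofReal ?_)
    have h3 : R ^ (-(η σ)) ≤ R ^ (-(η σ0)) :=
      Real.rpow_le_rpow_of_exponent_le hR (neg_le_neg (hσ0 σ (Finset.mem_univ σ)))
    have h4 : |C σ| ≤ ∑ σ, |C σ| :=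
      Finset.single_le_sum (f := fun σ => |C σ|) (fun _ _ => abs_nonneg _) (Finset.mem_univ σ)
    calc C σ * R ^ (-(η σ)) ≤ |C σ| * R ^ (-(η σ)) := by
          gcongr
          exact le_abs_self _
      _ ≤ (∑ σ, |C σ|) * R ^ (-(η σ0)) := by gcongr

/-- Tails give the whole space. -/
theorem all_of_tail {p : ℝ} (hp : 0 ≤ p) {C η B0 : ℝ} : ∃ C' : ℝ≥0, ∀ f : E 3 → ℂ,
    (∀ x, ‖f x‖ ≤ B0) →
    (∀ R : ℝ, 1 ≤ R → ∫⁻ ξ in {ξ : E 3 | R ≤ ‖ξ‖}, ‖extn f ξ‖ₑ ^ p ≤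
      ENNReal.ofReal (C * R ^ (-η))) → ∫⁻ ξ, ‖extn f ξ‖ₑ ^ p ≤ C' := by
  obtain ⟨D, hD⟩ : ∃ D : ℝ≥0∞, D = ENNReal.ofReal (C * 1 ^ (-η)) +
      ENNReal.ofReal (B0 * (sm 3).real univ) ^ p * volume (closedBall (0 : E 3) 1) := ⟨_, rfl⟩
  have hDtop : D ≠ ⊤ := by
    rw [hD]
    exact ENNReal.add_ne_top.2 ⟨ENNReal.ofReal_ne_top, ENNReal.mul_ne_top
      (ENNReal.rpow_ne_top_of_nonneg hp ENNReal.ofReal_ne_top) measure_closedBall_lt_top.ne⟩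
  refine ⟨D.toNNReal, fun f hf h => ?_⟩
  rw [ENNReal.coe_toNNReal hDtop]
  have hb : ∀ ξ, ‖extn f ξ‖ₑ ≤ ENNReal.ofReal (B0 * (sm 3).real univ) := by
    intro ξ
    rw [← ofReal_norm]
    refine ENNReal.ofReal_le_ofReal ?_
    unfold extn
    refine norm_integral_le_of_norm_le_const (Filter.Eventually.of_forall fun x => ?_)
    rw [norm_mul, Complex.norm_exp_ofReal_mul_I, mul_one]
    exact hf _
  calc ∫⁻ ξ, ‖extn f ξ‖ₑ ^ p = ∫⁻ ξ in univ, ‖extn f ξ‖ₑ ^ p := by rw [setLIntegral_univ]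
    _ ≤ ∫⁻ ξ in {ξ : E 3 | 1 ≤ ‖ξ‖} ∪ closedBall 0 1, ‖extn f ξ‖ₑ ^ p := by
        refine lintegral_mono_set fun ξ _ => ?_
        rcases le_total 1 ‖ξ‖ with h1 | h1
        · exact Or.inl h1
        · exact Or.inr (mem_closedBall_zero_iff.2 h1)
    _ ≤ (∫⁻ ξ in {ξ : E 3 | 1 ≤ ‖ξ‖}, ‖extn f ξ‖ₑ ^ p) +
        ∫⁻ ξ in closedBall 0 1, ‖extn f ξ‖ₑ ^ p := lintegral_union_le _ _ _
    _ ≤ D := by
        rw [hD]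
        refine add_le_add (h 1 le_rfl) ?_
        refine (lintegral_mono fun ξ => ENNReal.rpow_le_rpow (hb ξ) hp).trans ?_
        rw [setLIntegral_const]

/-- The whole space, from the tails. -/
theorem quadQ_all {b : Fin 3 → ℝ} {p : ℝ} (hp : 0 ≤ p)
    (h : ∃ η : ℝ, 0 < η ∧ ∀ B : ℕ → ℝ, ∃ C : ℝ, ∀ G : ℝ → E 3 → ℂ, GC B G → ∀ R : ℝ, 1 ≤ R →
      ∫⁻ ξ in {ξ : E 3 | R ≤ ‖ξ‖}, ‖extn (fun x => G (∑ i, b i * x i ^ 2) x) ξ‖ₑ ^ p ≤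
        ENNReal.ofReal (C * R ^ (-η))) (B : ℕ → ℝ) :
    ∃ C : ℝ≥0, ∀ G : ℝ → E 3 → ℂ, GC B G →
      ∫⁻ ξ : E 3, ‖extn (fun x => G (∑ i, b i * x i ^ 2) x) ξ‖ₑ ^ p ≤ C := by
  obtain ⟨η, -, h⟩ := h
  obtain ⟨C, h⟩ := h B
  obtain ⟨C', hC'⟩ := all_of_tail hp (C := C) (η := η) (B0 := B 0)
  exact ⟨C', fun G hG => hC' _ (fun x => hG.norm_le _ _) (h G hG)⟩

end Pool.Agent.LQ
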