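import Pool.Agent.LQ.Df2
import Pool.Agent.LQ.EXPL

/-!
LEAFQ row SURF: the surfaces as one smooth compactly supported function of `(d, t, z)`, frozen
at `d`.
-/

set_option autoImplicit false

namespace Pool.Agent.LQ

open MeasureTheory Set Metric Pool.Agent.MP_6cbfb8_an Pool.Agent.LF
open scoped RealInnerProductSpace ContDiff Topology

/-! ### A smooth version of the square root -/

/-- A smooth version of the square root. -/
noncomputable def sq0 (v : ℝ) : ℝ := Real.smoothTransition (256 * v - 1) * √v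

theorem sq0_eq {v : ℝ} (h : 1 / 128 ≤ v) : sq0 v = √v := by
  unfold sq0
  rw [Real.smoothTransition.one_of_one_le (by linarith), one_mul]

theorem sq0_nonneg (v : ℝ) : 0 ≤ sq0 v :=
  mul_nonneg (Real.smoothTransition.nonneg _) (Real.sqrt_nonneg _)

theorem sq0_smooth : ContDiff ℝ ∞ sq0 := by
  rw [contDiff_iff_contDiffAt]
  intro v
  by_cases hv : v < 1 / 256
  · have : sq0 =ᶠ[𝓝 v] fun _ => 0 := by
      filter_upwards [Iio_mem_nhds hv] with u hu
      unfold sq0
      rw [Real.smoothTransition.zero_of_nonpos (by linarith [mem_Iio.1 hu]), zero_mul]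
    exact contDiffAt_const.congr_of_eventuallyEq this
  · have hv0 : v ≠ 0 := by
      intro h
      rw [h] at hv
      norm_num at hv
    unfold sq0
    exact (Real.smoothTransition.contDiff.comp (f := fun v : ℝ => 256 * v - 1)
      (by fun_prop)).contDiffAt.mul (Real.contDiffAt_sqrt hv0)

/-! ### The joint function -/

/-- The joint function of `(d, t, z)`. -/
noncomputable def J0 (α β : ℝ) (p : ℝ × (ℝ × E 1)) : E 3 :=
  WithLp.toLp 2 ![sq0 (rr α β p.2.1 (p.2.2 0)), p.2.2 0,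
    ss α β p.2.1 (p.2.2 0) / (1 + sq0 (1 - p.1 ^ 2 * ss α β p.2.1 (p.2.2 0)))]

theorem J0_smooth (α β : ℝ) : ContDiff ℝ ∞ (J0 α β) := by
  have hy : ContDiff ℝ ∞ fun p : ℝ × (ℝ × E 1) => p.2.2 0 := by fun_prop
  have ht : ContDiff ℝ ∞ fun p : ℝ × (ℝ × E 1) => p.2.1 := by fun_prop
  have hd : ContDiff ℝ ∞ fun p : ℝ × (ℝ × E 1) => p.1 := by fun_prop
  have hr : ContDiff ℝ ∞ fun p : ℝ × (ℝ × E 1) => rr α β p.2.1 (p.2.2 0) := by
    unfold rr
    exact (ht.sub (contDiff_const.mul (hy.pow 2))).div_const α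
  have hs : ContDiff ℝ ∞ fun p : ℝ × (ℝ × E 1) => ss α β p.2.1 (p.2.2 0) := by
    unfold ss
    exact (ht.add (contDiff_const.mul (hy.pow 2))).div_const α
  have hq : ContDiff ℝ ∞ fun p : ℝ × (ℝ × E 1) =>
      1 + sq0 (1 - p.1 ^ 2 * ss α β p.2.1 (p.2.2 0)) :=
    contDiff_const.add (sq0_smooth.comp (contDiff_const.sub ((hd.pow 2).mul hs)))
  rw [contDiff_euclidean]
  intro i
  fin_cases i
  · exact sq0_smooth.comp hr
  · exact hy
  · exact hs.div hq fun p => by
      have := sq0_nonneg (1 - p.1 ^ 2 * ss α β p.2.1 (p.2.2 0))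
      positivity

/-- Bounds of the derivatives of a slice. -/
theorem slice_le {F G H : Type*} [NormedAddCommGroup F] [NormedSpace ℝ F]
    [NormedAddCommGroup G] [NormedSpace ℝ G] [NormedAddCommGroup H] [NormedSpace ℝ H]
    {J : F × G → H} {j : ℕ} (hJ : ContDiff ℝ j J) (d : F) (p : G) :
    ‖iteratedFDeriv ℝ j (fun p => J (d, p)) p‖ ≤ ‖iteratedFDeriv ℝ j J (d, p)‖ := by
  have h1 : ContDiff ℝ j (fun w => J ((d, 0) + w)) := hJ.comp (contDiff_const.add contDiff_id)
  have h2 : (fun z => J (d, z)) =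
      (fun w => J ((d, 0) + w)) ∘ (ContinuousLinearMap.inr ℝ F G) := by
    funext y; simp
  rw [h2, ContinuousLinearMap.iteratedFDeriv_comp_right _ h1 p le_rfl]
  refine (ContinuousMultilinearMap.norm_compContinuousLinearMap_le _ _).trans ?_
  rw [iteratedFDeriv_comp_add_left, Finset.prod_const, Finset.card_univ, Fintype.card_fin]
  have h3 : ((d, 0) : F × G) + (ContinuousLinearMap.inr ℝ F G) p = (d, p) := by simp
  rw [h3]
  refine mul_le_of_le_one_right (norm_nonneg _) (pow_le_one₀ (norm_nonneg _) ?_)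
  exact ContinuousLinearMap.opNorm_le_bound _ zero_le_one fun y => by
    rw [ContinuousLinearMap.inr_apply, Prod.norm_mk, norm_zero, one_mul]
    exact max_le (norm_nonneg _) le_rfl

/-- The local form: near a point of the large region. -/
theorem J0_near {α β d t : ℝ} {z : E 1} (h : Rg α β d t (z 0)) :
    ∀ᶠ p : ℝ × E 1 in 𝓝 (t, z), J0 α β (d, p) 0 = AA α β p.1 (p.2 0) ∧
      J0 α β (d, p) 1 = p.2 0 ∧ J0 α β (d, p) 2 = hh α β d p.1 (p.2 0) := by
  have hr : Continuous fun p : ℝ × E 1 => rr α β p.1 (p.2 0) := by unfold rr; fun_prop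
  have hs : Continuous fun p : ℝ × E 1 => 1 - d ^ 2 * ss α β p.1 (p.2 0) := by
    unfold ss; fun_prop
  have h1 : ∀ᶠ p : ℝ × E 1 in 𝓝 (t, z), 1 / 128 < rr α β p.1 (p.2 0) :=
    hr.continuousAt.eventually_const_lt (lt_of_lt_of_le (by norm_num) h.2.1)
  have h2 : ∀ᶠ p : ℝ × E 1 in 𝓝 (t, z), 1 / 128 < 1 - d ^ 2 * ss α β p.1 (p.2 0) :=
    hs.continuousAt.eventually_const_lt (lt_of_lt_of_le (by norm_num) h.2.2.2)
  filter_upwards [h1, h2] with p hp1 hp2
  refine ⟨?_, rfl, ?_⟩
  · change sq0 (rr α β p.1 (p.2 0)) = _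
    rw [sq0_eq hp1.le]
    rfl
  · change ss α β p.1 (p.2 0) / (1 + sq0 (1 - d ^ 2 * ss α β p.1 (p.2 0))) = _
    rw [sq0_eq hp2.le]
    rfl

theorem surf {α β : ℝ} (hα : α ≠ 0) :
    ∃ (X : ℝ → ℝ × E 1 → E 3) (A : ℕ → ℝ), SF α β X A := by
  set M : ℝ := 10 + 9 * |α| + 9 * |β| with hM
  have hM0 : 0 < M := by positivity
  let χ : ContDiffBump (0 : ℝ × (ℝ × E 1)) := ⟨M, 2 * M, hM0, by linarith⟩
  set J : ℝ × (ℝ × E 1) → E 3 := fun p => χ p • J0 α β p with hJ
  have hJs : ContDiff ℝ ∞ J := χ.contDiff.smul (J0_smooth α β)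
  have hJc : HasCompactSupport J := χ.hasCompactSupport.smul_right
  have hb : ∀ j : ℕ, ∃ C : ℝ, ∀ p, ‖iteratedFDeriv ℝ j J p‖ ≤ C := fun j =>
    (hJs.continuous_iteratedFDeriv (m := j) (by exact_mod_cast le_top)).bounded_above_of_compact_support
      (hJc.iteratedFDeriv j)
  choose A hA using hb
  refine ⟨fun d p => J (d, p), A, fun d hd0 hd1 => ⟨?_, ?_, ?_⟩⟩
  · exact hJs.comp (contDiff_prodMk_right d)
  · intro j p
    exact (slice_le (hJs.of_le (by exact_mod_cast le_top)) d p).trans (hA j _)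
  intro t z h
  -- the map is the explicit one near `(t, z)`
  have hnear : ∀ᶠ p : ℝ × E 1 in 𝓝 (t, z), J (d, p) 0 = AA α β p.1 (p.2 0) ∧
      J (d, p) 1 = p.2 0 ∧ J (d, p) 2 = hh α β d p.1 (p.2 0) := by
    have h1 : ∀ᶠ p : ℝ × E 1 in 𝓝 (t, z), χ (d, p) = 1 := by
      have hc : Continuous fun p : ℝ × E 1 => ((d, p) : ℝ × (ℝ × E 1)) := by fun_prop
      have h2 : ((d, (t, z)) : ℝ × (ℝ × E 1)) ∈ ball (0 : ℝ × (ℝ × E 1)) M := by
        rw [mem_ball_zero_iff, Prod.norm_mk, Prod.norm_mk]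
        refine max_lt ?_ (max_lt ?_ ?_)
        · rw [Real.norm_eq_abs, abs_of_nonneg hd0, hM]
          nlinarith [abs_nonneg α, abs_nonneg β]
        · rw [Real.norm_eq_abs]
          have := h.t_le hα
          linarith
        · have h3 : ‖z‖ = |z 0| := by
            rw [EuclideanSpace.norm_eq, Fin.sum_univ_one, Real.norm_eq_abs, sq_abs,
              Real.sqrt_sq_eq_abs]
          rw [h3, hM]
          have := h.1
          nlinarith [abs_nonneg α, abs_nonneg β]
      filter_upwards [hc.continuousAt.preimage_mem_nhds (isOpen_ball.mem_nhds h2)] with p hp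
      exact χ.one_of_mem_closedBall (ball_subset_closedBall hp)
    filter_upwards [h1, J0_near h] with p hp1 hp2
    simpa [hJ, hp1] using hp2
  have hself := hnear.self_of_nhds
  have hdiff : HasFDerivAt (fun p => J (d, p)) (fderiv ℝ (fun p => J (d, p)) (t, z)) (t, z) :=
    (((hJs.comp (contDiff_prodMk_right d)).differentiable (by simp)) (t, z)).hasFDerivAt
  set D := fderiv ℝ (fun p => J (d, p)) (t, z) with hD
  have hr0 := h.rr_pos
  have hs0 := h.one_pos
  -- derivative in `t`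
  have hcomp : ∀ i : Fin 3, HasFDerivAt (fun p => J (d, p) i)
      ((PiLp.proj 2 (fun _ : Fin 3 => ℝ) i : E 3 →L[ℝ] ℝ) ∘L D) (t, z) := fun i =>
    (PiLp.proj 2 (fun _ : Fin 3 => ℝ) i : E 3 →L[ℝ] ℝ).hasFDerivAt.comp (t, z) hdiff
  have ht1 : HasDerivAt (fun s : ℝ => ((s, z) : ℝ × E 1)) (1, 0) t :=
    (hasDerivAt_id t).prodMk (hasDerivAt_const t z)
  have htn : Filter.Tendsto (fun s : ℝ => ((s, z) : ℝ × E 1)) (𝓝 t) (𝓝 (t, z)) :=
    ht1.continuousAt
  have dt : ∀ i : Fin 3, HasDerivAt (fun s => J (d, (s, z)) i) (D (1, 0) i) t := fun i => by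
    have h1 : HasFDerivAt (fun p => J (d, p) i)
      ((PiLp.proj 2 (fun _ : Fin 3 => ℝ) i : E 3 →L[ℝ] ℝ) ∘L D) (t, z) := hcomp i
    exact HasFDerivAt.comp_hasDerivAt t h1 ht1
  have dt0 : D (1, 0) 0 = 1 / (2 * α * AA α β t (z 0)) := by
    refine (dt 0).unique ((gd_A hα hr0).1.congr_of_eventuallyEq ?_)
    filter_upwards [htn.eventually hnear] with s hs
    exact hs.1
  have dt1 : D (1, 0) 1 = 0 := by
    refine (dt 1).unique ((hasDerivAt_const t (z 0)).congr_of_eventuallyEq ?_)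
    filter_upwards [htn.eventually hnear] with s hs
    exact hs.2.1
  have dt2 : D (1, 0) 2 = 1 / (2 * α * HH α β d t (z 0)) := by
    refine (dt 2).unique ((gd_h hα hs0).1.congr_of_eventuallyEq ?_)
    filter_upwards [htn.eventually hnear] with s hs
    exact hs.2.2
  -- derivative in `y`
  set e : E 1 := EuclideanSpace.single 0 1 with he
  have he0 : e 0 = 1 := by simp [he]
  have hy1 : HasDerivAt (fun s : ℝ => ((t, z + (s - z 0) • e) : ℝ × E 1)) (0, e) (z 0) := by
    refine (hasDerivAt_const (z 0) t).prodMk ?_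
    have := (((hasDerivAt_id (z 0)).sub_const (z 0)).smul_const e).const_add z
    simpa using this
  have hz0 : (t, z + (z 0 - z 0) • e) = (t, z) := by simp
  have hyn : Filter.Tendsto (fun s : ℝ => ((t, z + (s - z 0) • e) : ℝ × E 1)) (𝓝 (z 0))
      (𝓝 (t, z)) := by
    have := hy1.continuousAt.tendsto
    rwa [hz0] at this
  have hys : ∀ s : ℝ, (z + (s - z 0) • e) 0 = s := fun s => by
    simp [he0]
  have dy : ∀ i : Fin 3, HasDerivAt (fun s => J (d, (t, z + (s - z 0) • e)) i)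
      (D (0, e) i) (z 0) := fun i => by
    have h1 : HasFDerivAt (fun p => J (d, p) i)
      ((PiLp.proj 2 (fun _ : Fin 3 => ℝ) i : E 3 →L[ℝ] ℝ) ∘L D)
        (t, z + (z 0 - z 0) • e) := by rw [hz0]; exact hcomp i
    exact HasFDerivAt.comp_hasDerivAt (z 0) h1 hy1
  have dy0 : D (0, e) 0 = -(β * z 0) / (α * AA α β t (z 0)) := by
    refine (dy 0).unique ((gd_A hα hr0).2.congr_of_eventuallyEq ?_)
    filter_upwards [hyn.eventually hnear] with s hs
    rw [hs.1, hys]
  have dy1 : D (0, e) 1 = 1 := by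
    refine (dy 1).unique ((hasDerivAt_id (z 0)).congr_of_eventuallyEq ?_)
    filter_upwards [hyn.eventually hnear] with s hs
    rw [hs.2.1, hys]
    rfl
  have dy2 : D (0, e) 2 = (α - β) * z 0 / (α * HH α β d t (z 0)) := by
    refine (dy 2).unique ((gd_h hα hs0).2.congr_of_eventuallyEq ?_)
    filter_upwards [hyn.eventually hnear] with s hs
    rw [hs.2.2, hys]
  refine ⟨hself.1, hself.2.1, hself.2.2, fun w => ?_, fun w => ?_⟩
  · have h1 : Xt (fun p => J (d, p)) (t, z) = D (1, 0) := rfl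
    rw [h1, PiLp.inner_apply, Fin.sum_univ_three, dt0, dt1, dt2]
    simp only [Tw, RCLike.inner_apply, conj_trivial]
    have hA := h.A_pos
    have hH := h.H_pos
    field_simp
    ring
  · have h1 : Vw (fun p => J (d, p)) w (t, z) 0 = ⟪D (0, e), w⟫ := by
      have h2 : Vw (fun p => J (d, p)) w (t, z) 0 = ⟪e, Vw (fun p => J (d, p)) w (t, z)⟫ := by
        rw [he, EuclideanSpace.inner_single_left]
        simp
      rw [h2]
      unfold Vw
      rw [ContinuousLinearMap.adjoint_inner_right]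
      rfl
    rw [h1, PiLp.inner_apply, Fin.sum_univ_three, dy0, dy1, dy2]
    simp only [Uw, Lw, RCLike.inner_apply, conj_trivial]
    have hA := h.A_pos
    have hH := h.H_pos
    field_simp
    ring

end Pool.Agent.LQ
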