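import Pool.Agent.LQ.PIECE2a
import Pool.Agent.LQ.PIECE3
import Pool.Agent.LQ.SURF
import Pool.Agent.LQ.MODEL
import Pool.Agent.LQ.RESQ

/-!
LEAFQ row PIECE: from the model theorem to a piece of the sphere.
-/

set_option autoImplicit false

namespace Pool.Agent.LQ

open MeasureTheory Set Metric Pool.Agent.MP_6cbfb8_an Pool.Agent.LF
open scoped RealInnerProductSpace ContDiff ENNReal NNReal

/-- The integral over the disc. -/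
theorem chart_int {g : E 3 → ℂ} (hg : Measurable g) {M : ℝ} (hM : ∀ x, ‖g x‖ ≤ M)
    (h0 : ∀ x, x 2 ≤ 1 / 2 → g x = 0) (ξ : E 3) :
    extn g ξ = ∫ y : ℝ, ∫ u : ℝ, Fg g ξ u y :=
  chart_int0 hg hM h0 ξ

/-- The bounds of one dyadic piece. -/
theorem fl_tail {b : Fin 3 → ℝ} {α β : ℝ} (hα : α ≠ 0) (hαb : α = b 0 - b 2)
    (hβb : β = b 1 - b 2) {g0 : ℝ → ℝ} (hg : ContDiff ℝ ∞ g0) (hg0 : ∀ r ≤ 1 / 4, g0 r = 0)
    {X : ℝ → ℝ × E 1 → E 3} {A : ℕ → ℝ} (hX : SF α β X A) {p η C : ℝ} (hp : 0 < p) (hη : 0 < η)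
    {B B' : ℕ → ℝ}
    (hmod : ∀ d, 0 ≤ d → d ≤ 1 → ∀ b : ℝ × E 1 → ℂ, DC α β d B' b →
      (∫⁻ ξ, ‖Tb (X d) b ξ‖ₑ ^ p ≤ ENNReal.ofReal C) ∧ ∀ R : ℝ, 1 ≤ R →
        ∫⁻ ξ in {ξ : E 3 | R ≤ ‖ξ‖}, ‖Tb (X d) b ξ‖ₑ ^ p ≤ ENNReal.ofReal (C * R ^ (-η)))
    {G : ℝ → E 3 → ℂ} (hG : GC B G) (h0 : ∀ t x, x 2 ≤ 1 / 2 → G t x = 0)
    (hDC : ∀ d, 0 ≤ d → d ≤ 1 → DC α β d B' (bl α β (b 2) g0 X d G))
    (l : ℕ) (R : ℝ) (hR : 1 ≤ R) :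
    ∫⁻ ξ in {ξ : E 3 | R ≤ ‖ξ‖}, ‖extn (fl b g0 G l) ξ‖ₑ ^ p ≤
      ENNReal.ofReal (|C| * ((1 / 4 : ℝ) ^ l) ^ (p - 2) *
        min 1 (((1 / 4 : ℝ) ^ l * R) ^ (-η))) := by
  obtain ⟨M, hM0, hM⟩ := fp_bound hg.continuous B
  have hR0 : 0 < R := by linarith
  set d : ℝ := (1 / 2) ^ l with hd
  have hd0 : 0 < d := by rw [hd]; positivity
  have hd1 : d ≤ 1 := pow_le_one₀ (by norm_num) (by norm_num)
  have hd2 : d ^ 2 = (1 / 4 : ℝ) ^ l := by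
    rw [hd, ← pow_mul, mul_comm, pow_mul]
    norm_num
  have hdl : 4 ^ l * d ^ 2 = 1 := by
    rw [hd2, ← mul_pow]
    norm_num
  have hfz : ∀ x, x 2 ≤ 1 / 2 → fl b g0 G l x = 0 := by
    intro x hx
    unfold fl fp
    rw [h0 _ x hx]
    simp
  have hfm : Measurable (fl b g0 G l) := measurable_fl hG b hg.continuous.measurable l
  set Φ : E 3 → ℝ≥0∞ := fun w => ‖Tb (X d) (bl α β (b 2) g0 X d G) w‖ₑ ^ p with hΦ
  have hD := hDC d hd0.le hd1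
  have hΦm : Measurable Φ :=
    (measurable_Tb (hX d hd0.le hd1).1.continuous hD.1).enorm.pow_const p
  have e1 : ∀ ξ, ‖extn (fl b g0 G l) ξ‖ₑ ^ p =
      ENNReal.ofReal ((d ^ 2) ^ p) * Φ (wd d ξ) := by
    intro ξ
    have h1 := extn_fl_of hα hαb hβb hg hg0 hX hG h0 hd0 hd1 hdl ξ
      (chart_int hfm (fun x => (hM b G hG).2 l x) hfz ξ)
    simp only [hΦ]
    rw [← ofReal_norm, h1, ENNReal.ofReal_mul (by positivity), ENNReal.mul_rpow_of_nonneg _ _ hp.le,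
      ENNReal.ofReal_rpow_of_pos (by positivity), ofReal_norm]
  have h2 : ∫⁻ w in {w : E 3 | d ^ 2 * R ≤ ‖w‖}, Φ w ≤
      ENNReal.ofReal (|C| * min 1 ((d ^ 2 * R) ^ (-η))) := by
    rcases le_total 1 (d ^ 2 * R) with h3 | h3
    · refine ((hmod d hd0.le hd1 _ hD).2 _ h3).trans (ENNReal.ofReal_le_ofReal ?_)
      rw [min_eq_right (Real.rpow_le_one_of_one_le_of_nonpos h3 (by linarith))]
      exact mul_le_mul_of_nonneg_right (le_abs_self C) (by positivity)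
    · refine (setLIntegral_le_lintegral _ _).trans
        (((hmod d hd0.le hd1 _ hD).1).trans (ENNReal.ofReal_le_ofReal ?_))
      rw [min_eq_left (Real.one_le_rpow_of_pos_of_le_one_of_nonpos (by positivity) h3
        (by linarith)), mul_one]
      exact le_abs_self C
  simp_rw [e1]
  rw [lintegral_const_mul' _ _ ENNReal.ofReal_ne_top]
  calc ENNReal.ofReal ((d ^ 2) ^ p) * ∫⁻ ξ in {ξ : E 3 | R ≤ ‖ξ‖}, Φ (wd d ξ)
      ≤ ENNReal.ofReal ((d ^ 2) ^ p) * (ENNReal.ofReal ((d ^ 2) ^ (-2 : ℝ)) *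
        ENNReal.ofReal (|C| * min 1 ((d ^ 2 * R) ^ (-η)))) := by
        gcongr
        exact (wd_scale hd0 hd1 hΦm R).trans (mul_le_mul_right h2 _)
    _ = _ := by
        rw [← hd2, ← ENNReal.ofReal_mul (by positivity), ← ENNReal.ofReal_mul (by positivity)]
        congr 1
        rw [show p - 2 = p + (-2 : ℝ) by ring, Real.rpow_add (by positivity)]
        ring

/-- ROW PIECE. -/
theorem piece {b : Fin 3 → ℝ} (hb : Function.Injective b) {p : ℝ} (hp : 3 < p) {g0 : ℝ → ℝ}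
    (hg : ContDiff ℝ ∞ g0) (hg0 : ∀ r ≤ 1 / 4, g0 r = 0) : ∃ η : ℝ, 0 < η ∧ ∀ B : ℕ → ℝ,
    ∃ C : ℝ, ∀ G : ℝ → E 3 → ℂ, GC B G → (∀ t x, x 2 ≤ 1 / 2 → G t x = 0) → ∀ R : ℝ, 1 ≤ R →
      ∫⁻ ξ in {ξ : E 3 | R ≤ ‖ξ‖}, ‖extn (fun x => if 0 < x 0 then
        (g0 (x 0 ^ 2 / (x 0 ^ 2 + x 1 ^ 2)) : ℂ) * G (∑ i, b i * x i ^ 2) x else 0) ξ‖ₑ ^ p ≤
          ENNReal.ofReal (C * R ^ (-η)) := by
  have hα : b 0 - b 2 ≠ 0 := sub_ne_zero.2 fun h => absurd (hb h) (by decide)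
  have hβ : b 1 - b 2 ≠ 0 := sub_ne_zero.2 fun h => absurd (hb h) (by decide)
  have hαβ : b 0 - b 2 ≠ b 1 - b 2 := fun h => absurd (hb (sub_left_injective h)) (by decide)
  obtain ⟨X, A, hX⟩ := surf (α := b 0 - b 2) (β := b 1 - b 2) hα
  obtain ⟨η, hη, hm⟩ := model hα hβ hαβ hX hp
  obtain ⟨η', hη', hs⟩ := suml hp hη
  refine ⟨η', hη', fun B => ?_⟩
  obtain ⟨B', hB'⟩ := bl_DC hα hg hg0 hX (b 2) B
  obtain ⟨C, hC⟩ := hm B'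
  obtain ⟨C', hC'⟩ := hs |C| (abs_nonneg C)
  refine ⟨C', fun G hG h0 R hR => ?_⟩
  refine hC' (fun l => extn (fl b g0 G l)) (extn (fp b g0 G))
    (fun l => measurable_extn _ (measurable_fl hG b hg.continuous.measurable l))
    (fun ξ => fl_hasSum hG b hg.continuous ξ) (fun l R hR => ?_) R hR
  exact fl_tail hα rfl rfl hg hg0 hX (by linarith) hη hC hG h0
    (fun d hd0 hd1 => hB' d hd0 hd1 G hG h0) l R hR

/-- The row PIECE in the form of RESQ. -/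
theorem pieceAt {p : ℝ} (hp : 3 < p) : PieceAt p :=
  fun _ hb _ hg hg0 => piece hb hp hg hg0

/-- ROW RESQ: the theorem on the whole sphere, with tails. -/
theorem quadQ {b : Fin 3 → ℝ} (hb : Function.Injective b) {p : ℝ} (hp : 3 < p) :
    ∃ η : ℝ, 0 < η ∧ ∀ B : ℕ → ℝ, ∃ C : ℝ, ∀ G : ℝ → E 3 → ℂ, GC B G → ∀ R : ℝ, 1 ≤ R →
      ∫⁻ ξ in {ξ : E 3 | R ≤ ‖ξ‖}, ‖extn (fun x => G (∑ i, b i * x i ^ 2) x) ξ‖ₑ ^ p ≤
        ENNReal.ofReal (C * R ^ (-η)) :=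
  quadQ_of hb hp (pieceAt hp)

end Pool.Agent.LQ
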