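import Pool.Agent.LQ.EXPL
import Pool.Agent.LQ.Df2
import Pool.Agent.LF.CH3

/-!
LEAFQ row PIECE, part 1: the density of a dyadic piece in the chart.
-/

set_option autoImplicit false

namespace Pool.Agent.LQ

open MeasureTheory Set Filter Topology Pool.Agent.MP_6cbfb8_an Pool.Agent.LF
open scoped RealInnerProductSpace ContDiff

/-! ### cut-off functions -/

/-- `e` cut off near zero. -/
noncomputable def kc (a : ℝ) (e : ℝ → ℝ) (v : ℝ) : ℝ := Real.smoothTransition ((a * v - 1) / 3) * e v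

theorem kc_smooth {a : ℝ} (ha : 0 < a) {e : ℝ → ℝ} (he : ∀ v, 0 < v → ContDiffAt ℝ ∞ e v) :
    ContDiff ℝ ∞ (kc a e) := by
  rw [contDiff_iff_contDiffAt]
  intro v
  rcases lt_or_ge 0 v with hv | hv
  · exact ((Real.smoothTransition.contDiff.comp
      (((contDiff_const.mul contDiff_id).sub contDiff_const).div_const 3)).contDiffAt).mul (he v hv)
  · have h1 : ∀ᶠ w in 𝓝 v, kc a e w = 0 := by
      have h2 : v < 1 / a := lt_of_le_of_lt hv (by positivity)
      filter_upwards [eventually_lt_nhds h2] with w hw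
      have h3 : a * w < 1 := by
        rw [lt_div_iff₀ ha] at hw
        linarith
      unfold kc
      rw [Real.smoothTransition.zero_of_nonpos (by linarith), zero_mul]
    exact contDiffAt_const.congr_of_eventuallyEq h1

theorem kc_eq {a : ℝ} {e : ℝ → ℝ} {v : ℝ} (h : 4 ≤ a * v) : kc a e v = e v := by
  unfold kc
  rw [Real.smoothTransition.one_of_one_le (by linarith), one_mul]

theorem kc_zero {a : ℝ} {e : ℝ → ℝ} {v : ℝ} (h : a * v ≤ 1) : kc a e v = 0 := by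
  unfold kc
  rw [Real.smoothTransition.zero_of_nonpos (by linarith), zero_mul]

/-- The dyadic bump. -/
noncomputable def psd (v : ℝ) : ℝ :=
  Real.smoothTransition ((4 * v - 1) / 3) - Real.smoothTransition ((v - 1) / 3)

theorem psd_smooth : ContDiff ℝ ∞ psd := by
  unfold psd
  exact (Real.smoothTransition.contDiff.comp
    (((contDiff_const.mul contDiff_id).sub contDiff_const).div_const 3)).sub
    (Real.smoothTransition.contDiff.comp ((contDiff_id.sub contDiff_const).div_const 3))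

theorem psd_zero {v : ℝ} (h : v ≤ 1 / 4 ∨ 4 ≤ v) : psd v = 0 := by
  unfold psd
  rcases h with h | h
  · rw [Real.smoothTransition.zero_of_nonpos (by linarith),
      Real.smoothTransition.zero_of_nonpos (by linarith), sub_zero]
  · rw [Real.smoothTransition.one_of_one_le (by linarith),
      Real.smoothTransition.one_of_one_le (by linarith), sub_self]

theorem psd_le (v : ℝ) : |psd v| ≤ 1 := by
  unfold psd
  have h1 := Real.smoothTransition.nonneg ((4 * v - 1) / 3)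
  have h2 := Real.smoothTransition.le_one ((4 * v - 1) / 3)
  have h3 := Real.smoothTransition.nonneg ((v - 1) / 3)
  have h4 := Real.smoothTransition.le_one ((v - 1) / 3)
  rw [abs_le]
  constructor <;> linarith

/-- The partial sums of the dyadic partition. -/
theorem psd_sum (v : ℝ) (L : ℕ) (hv : v ≤ 1) : ∑ l ∈ Finset.range L, psd (4 ^ l * v) =
    Real.smoothTransition ((4 ^ L * v - 1) / 3) := by
  have h1 : ∀ l : ℕ, psd (4 ^ l * v) = Real.smoothTransition ((4 ^ (l + 1) * v - 1) / 3) -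
      Real.smoothTransition ((4 ^ l * v - 1) / 3) := by
    intro l
    unfold psd
    rw [pow_succ]
    congr 2
    ring
  simp_rw [h1]
  rw [Finset.sum_range_sub (fun l : ℕ => Real.smoothTransition ((4 ^ l * v - 1) / 3))]
  have h2 : Real.smoothTransition ((4 ^ 0 * v - 1) / 3) = 0 :=
    Real.smoothTransition.zero_of_nonpos (by rw [pow_zero]; linarith)
  rw [h2, sub_zero]

/-- The amplitude without `G`. -/
noncomputable def cf (α β : ℝ) (g0 : ℝ → ℝ) (q : ℝ × (ℝ × E 1)) : ℝ :=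
  g0 (rr α β q.2.1 (q.2.2 0) * kc 16 (fun v => 1 / v) (ss α β q.2.1 (q.2.2 0))) *
    psd (ss α β q.2.1 (q.2.2 0)) *
    (kc 64 (fun v => 1 / √v) (rr α β q.2.1 (q.2.2 0)) *
      kc 16 (fun v => 1 / √v) (1 - q.1 ^ 2 * ss α β q.2.1 (q.2.2 0)) / (2 * |α|))

theorem kc_inv_smooth {a : ℝ} (ha : 0 < a) : ContDiff ℝ ∞ (kc a fun v => 1 / v) :=
  kc_smooth ha fun _ hv => contDiffAt_const.div contDiffAt_id hv.ne'

theorem kc_sqrt_smooth {a : ℝ} (ha : 0 < a) : ContDiff ℝ ∞ (kc a fun v => 1 / √v) :=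
  kc_smooth ha fun _ hv => contDiffAt_const.div (contDiffAt_id.sqrt hv.ne')
    (Real.sqrt_ne_zero'.2 hv)

theorem cf_smooth (α β : ℝ) {g0 : ℝ → ℝ} (hg : ContDiff ℝ ∞ g0) : ContDiff ℝ ∞ (cf α β g0) := by
  have hy : ContDiff ℝ ∞ fun q : ℝ × (ℝ × E 1) => q.2.2 0 := by fun_prop
  have hr : ContDiff ℝ ∞ fun q : ℝ × (ℝ × E 1) => rr α β q.2.1 (q.2.2 0) := by
    unfold rr
    fun_prop
  have hs : ContDiff ℝ ∞ fun q : ℝ × (ℝ × E 1) => ss α β q.2.1 (q.2.2 0) := by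
    unfold ss
    fun_prop
  have h1 := (kc_inv_smooth (by norm_num : (0 : ℝ) < 16)).comp hs
  have h2 := psd_smooth.comp hs
  have h3 := (kc_sqrt_smooth (by norm_num : (0 : ℝ) < 64)).comp hr
  have h4 : ContDiff ℝ ∞ fun q : ℝ × (ℝ × E 1) => 1 - q.1 ^ 2 * ss α β q.2.1 (q.2.2 0) :=
    contDiff_const.sub ((contDiff_fst.pow 2).mul hs)
  have h5 := (kc_sqrt_smooth (by norm_num : (0 : ℝ) < 16)).comp h4
  exact ((hg.comp (hr.mul h1)).mul h2).mul ((h3.mul h5).div_const _)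

/-- Where the amplitude lives. -/
theorem cf_supp {α β : ℝ} (hα : α ≠ 0) {g0 : ℝ → ℝ} (hg0 : ∀ r ≤ 1 / 4, g0 r = 0) {d t : ℝ}
    {z : E 1} (h : cf α β g0 (d, (t, z)) ≠ 0) :
    |z 0| ≤ 2 ∧ 1 / 16 < rr α β t (z 0) ∧ rr α β t (z 0) ≤ 4 ∧ 1 / 4 < ss α β t (z 0) ∧
      ss α β t (z 0) < 4 ∧ 1 / 16 < 1 - d ^ 2 * ss α β t (z 0) := by
  unfold cf at h
  simp only at h
  set r := rr α β t (z 0) with hr
  set s := ss α β t (z 0) with hs
  have hsr : s = r + z 0 ^ 2 := ss_eq hα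
  have h1 : psd s ≠ 0 := fun h0 => h (by rw [h0]; ring)
  have h2 : g0 (r * kc 16 (fun v => 1 / v) s) ≠ 0 := fun h0 => h (by rw [h0]; ring)
  have h3 : kc 16 (fun v => 1 / √v) (1 - d ^ 2 * s) ≠ 0 := fun h0 => h (by rw [h0]; ring)
  have hs1 : 1 / 4 < s := by
    by_contra h4
    exact h1 (psd_zero (Or.inl (not_lt.1 h4)))
  have hs2 : s < 4 := by
    by_contra h4
    exact h1 (psd_zero (Or.inr (not_lt.1 h4)))
  have hr1 : 1 / 4 < r / s := by
    rw [kc_eq (by linarith : (4 : ℝ) ≤ 16 * s), mul_one_div] at h2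
    by_contra h4
    exact h2 (hg0 _ (not_lt.1 h4))
  have hr2 : 1 / 16 < r := by
    rw [lt_div_iff₀ (by linarith)] at hr1
    linarith
  refine ⟨?_, hr2, by nlinarith [sq_nonneg (z 0)], hs1, hs2, ?_⟩
  · rw [← sq_le_sq₀ (abs_nonneg _) (by norm_num), sq_abs]
    linarith
  · by_contra h4
    exact h3 (kc_zero (by linarith))

/-- The derivatives of the amplitude are bounded uniformly in `d`. -/
theorem cf_bdd {α β : ℝ} (hα : α ≠ 0) {g0 : ℝ → ℝ} (hg : ContDiff ℝ ∞ g0)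
    (hg0 : ∀ r ≤ 1 / 4, g0 r = 0) : ∃ C : ℕ → ℝ, ∀ d, 0 ≤ d → d ≤ 1 →
      ∀ j (p : ℝ × E 1), ‖iteratedFDeriv ℝ j (fun p => (cf α β g0 (d, p) : ℂ)) p‖ ≤ C j := by
  set χ : ℝ → ℝ := fun d => Real.smoothTransition (d + 2) * Real.smoothTransition (3 - d) with hχ
  have hχs : ContDiff ℝ ∞ χ :=
    (Real.smoothTransition.contDiff.comp (contDiff_id.add contDiff_const)).mul
      (Real.smoothTransition.contDiff.comp (contDiff_const.sub contDiff_id))
  set F : ℝ × (ℝ × E 1) → ℂ := fun q => ((χ q.1 * cf α β g0 q : ℝ) : ℂ) with hF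
  have hFs : ContDiff ℝ ∞ F :=
    Complex.ofRealCLM.contDiff.comp ((hχs.comp contDiff_fst).mul (cf_smooth α β hg))
  have hFc : HasCompactSupport F := by
    refine HasCompactSupport.intro (K := Icc (-2) 3 ×ˢ (Icc (-(4 * |α| + 4 * |β|))
      (4 * |α| + 4 * |β|) ×ˢ Metric.closedBall 0 2))
      (isCompact_Icc.prod (isCompact_Icc.prod (isCompact_closedBall _ _))) fun q hq => ?_
    by_contra h0
    have h1 : χ q.1 * cf α β g0 q ≠ 0 := fun h => h0 (by
      simp only [hF]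
      rw [h, Complex.ofReal_zero])
    have h2 : χ q.1 ≠ 0 := left_ne_zero_of_mul h1
    have h3 : cf α β g0 q ≠ 0 := right_ne_zero_of_mul h1
    obtain ⟨d, t, z⟩ := q
    obtain ⟨h4, h5, h6, -, -, -⟩ := cf_supp hα hg0 h3
    refine hq ⟨⟨?_, ?_⟩, ?_, ?_⟩
    · by_contra h7
      refine h2 ?_
      simp only [hχ]
      rw [Real.smoothTransition.zero_of_nonpos (by linarith [not_le.1 h7]), zero_mul]
    · by_contra h7
      refine h2 ?_
      simp only [hχ]
      rw [Real.smoothTransition.zero_of_nonpos (by linarith [not_le.1 h7] : 3 - d ≤ 0), mul_zero]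
    · have h7 : |t| ≤ 4 * |α| + 4 * |β| := by
        rw [t_eq (α := α) (β := β) (t := t) (y := z 0) hα]
        refine (abs_add_le _ _).trans ?_
        rw [abs_mul, abs_mul, abs_of_pos (by linarith : 0 < rr α β t (z 0)), abs_sq]
        have h8 : z 0 ^ 2 ≤ 4 := by
          rw [← sq_abs]
          nlinarith [abs_nonneg (z 0)]
        nlinarith [abs_nonneg α, abs_nonneg β]
      exact abs_le.1 h7
    · rw [mem_closedBall_zero_iff, EuclideanSpace.norm_eq, Fin.sum_univ_one, Real.norm_eq_abs,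
        sq_abs, Real.sqrt_sq_eq_abs]
      exact h4
  obtain ⟨C, hC⟩ := iter_bdd hFs hFc
  refine ⟨C, fun d hd0 hd1 j p => ?_⟩
  have h1 := (iter_slice hFs d j p).trans (hC j (d, p))
  have h2 : (fun p : ℝ × E 1 => F (d, p)) = fun p => (cf α β g0 (d, p) : ℂ) := by
    funext p
    simp only [hF, hχ]
    rw [Real.smoothTransition.one_of_one_le (by linarith),
      Real.smoothTransition.one_of_one_le (by linarith : 1 ≤ 3 - d)]
    simp
  rwa [h2] at h1

/-- The point of the sphere. -/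
noncomputable def xt (X : ℝ → ℝ × E 1 → E 3) (d : ℝ) (p : ℝ × E 1) : E 3 :=
  WithLp.toLp 2 ![d * X d p 0, d * X d p 1, 1 - d ^ 2 * X d p 2]

/-- The linear part of `xt`. -/
noncomputable def Ld (d : ℝ) : E 3 →ₗ[ℝ] E 3 where
  toFun v := WithLp.toLp 2 ![d * v 0, d * v 1, -(d ^ 2 * v 2)]
  map_add' v w := by
    ext i
    fin_cases i <;> simp <;> ring
  map_smul' c v := by
    ext i
    fin_cases i <;> simp <;> ring

theorem Ld_norm {d : ℝ} (hd0 : 0 ≤ d) (hd1 : d ≤ 1) (v : E 3) : ‖Ld d v‖ ≤ 1 * ‖v‖ := by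
  rw [one_mul, ← sq_le_sq₀ (norm_nonneg _) (norm_nonneg _), EuclideanSpace.norm_sq_eq,
    EuclideanSpace.norm_sq_eq, Fin.sum_univ_three, Fin.sum_univ_three]
  have e0 : Ld d v 0 = d * v 0 := rfl
  have e1 : Ld d v 1 = d * v 1 := rfl
  have e2 : Ld d v 2 = -(d ^ 2 * v 2) := rfl
  rw [e0, e1, e2]
  simp only [Real.norm_eq_abs, sq_abs]
  have h1 : d ^ 2 ≤ 1 := pow_le_one₀ hd0 hd1
  have h2 : 0 ≤ d ^ 2 := by positivity
  have h3 : (d ^ 2) ^ 2 ≤ 1 := pow_le_one₀ h2 h1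
  have h4 : (d * v 0) ^ 2 ≤ v 0 ^ 2 := by
    rw [mul_pow]
    exact mul_le_of_le_one_left (sq_nonneg _) h1
  have h5 : (d * v 1) ^ 2 ≤ v 1 ^ 2 := by
    rw [mul_pow]
    exact mul_le_of_le_one_left (sq_nonneg _) h1
  have h6 : (-(d ^ 2 * v 2)) ^ 2 ≤ v 2 ^ 2 := by
    rw [neg_sq, mul_pow]
    exact mul_le_of_le_one_left (sq_nonneg _) h3
  linarith

theorem xt_bdd {X : ℝ → ℝ × E 1 → E 3} {α β : ℝ} {A : ℕ → ℝ} (hX : SF α β X A) {d : ℝ}
    (hd0 : 0 ≤ d) (hd1 : d ≤ 1) : ContDiff ℝ ∞ (xt X d) ∧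
      ∀ j p, ‖iteratedFDeriv ℝ j (xt X d) p‖ ≤ 1 + A j := by
  obtain ⟨h1, h2, -⟩ := hX d hd0 hd1
  set L : E 3 →L[ℝ] E 3 := (Ld d).mkContinuous 1 (Ld_norm hd0 hd1) with hL
  have hLn : ‖L‖ ≤ 1 := (Ld d).mkContinuous_norm_le zero_le_one _
  have e : xt X d = fun p => (L ∘ X d) p + EuclideanSpace.single (2 : Fin 3) (1 : ℝ) := by
    funext p
    ext i
    have hLp : ∀ v, L v = WithLp.toLp 2 ![d * v 0, d * v 1, -(d ^ 2 * v 2)] := fun v => rfl
    simp only [Function.comp_apply, hLp, xt]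
    fin_cases i <;> simp <;> ring
  have hc : ContDiff ℝ ∞ (L ∘ X d) := L.contDiff.comp h1
  refine ⟨?_, fun j p => ?_⟩
  · rw [e]
    exact hc.add contDiff_const
  · have hj : ((j : ℕ) : ℕ∞ω) ≤ ∞ := by exact_mod_cast le_top
    rw [e, fun_iteratedFDeriv_add_apply (hc.of_le hj).contDiffAt contDiffAt_const]
    refine (norm_add_le _ _).trans ?_
    rw [add_comm]
    refine add_le_add ?_ ?_
    · rcases Nat.eq_zero_or_pos j with h0 | h0
      · subst h0
        rw [norm_iteratedFDeriv_zero]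
        simp
      · rw [iteratedFDeriv_const_of_ne (by omega)]
        simp
    · refine (ContinuousLinearMap.norm_iteratedFDeriv_comp_left _
        (h1.contDiffAt.of_le hj) le_rfl).trans ?_
      calc ‖L‖ * ‖iteratedFDeriv ℝ j (X d) p‖ ≤ 1 * A j :=
            mul_le_mul hLn (h2 j p) (norm_nonneg _) zero_le_one
        _ = A j := one_mul _

/-- The density of the piece of size `d` in the chart. -/
noncomputable def bl (α β b2 : ℝ) (g0 : ℝ → ℝ) (X : ℝ → ℝ × E 1 → E 3) (d : ℝ)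
    (G : ℝ → E 3 → ℂ) (p : ℝ × E 1) : ℂ :=
  G (b2 + d ^ 2 * p.1) (xt X d p) * (cf α β g0 (d, p) : ℂ)

/-- On the large region `xt` is the point of the sphere. -/
theorem xt_eq {X : ℝ → ℝ × E 1 → E 3} {α β : ℝ} {A : ℕ → ℝ} (hX : SF α β X A) (hα : α ≠ 0)
    {d : ℝ} (hd0 : 0 ≤ d) (hd1 : d ≤ 1) {t : ℝ} {z : E 1} (h : Rg α β d t (z 0)) :
    xt X d (t, z) = WithLp.toLp 2 ![d * AA α β t (z 0), d * z 0, HH α β d t (z 0)] := by
  obtain ⟨-, -, h3⟩ := hX d hd0 hd1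
  obtain ⟨e0, e1, e2, -, -⟩ := h3 t z h
  unfold xt
  rw [e0, e1, e2, (quad h.rr_pos.le hα h.one_pos.le).2]
  congr 4
  ring

theorem bl_DC {α β : ℝ} (hα : α ≠ 0) {g0 : ℝ → ℝ} (hg : ContDiff ℝ ∞ g0)
    (hg0 : ∀ r ≤ 1 / 4, g0 r = 0) {X : ℝ → ℝ × E 1 → E 3} {A : ℕ → ℝ} (hX : SF α β X A)
    (b2 : ℝ) (B : ℕ → ℝ) : ∃ B' : ℕ → ℝ, ∀ d, 0 ≤ d → d ≤ 1 → ∀ G : ℝ → E 3 → ℂ, GC B G →
      (∀ t x, x 2 ≤ 1 / 2 → G t x = 0) → DC α β d B' (bl α β b2 g0 X d G) := by
  obtain ⟨C, hC⟩ := cf_bdd hα hg hg0 (β := β)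
  refine ⟨fun k => ∑ i ∈ Finset.range (k + 1), (k.choose i : ℝ) *
        ((i.factorial : ℝ) * (∑ j ∈ Finset.range (i + 1), |B j|) *
          (1 + ∑ j ∈ Finset.range (i + 1), |1 + A j|) ^ i) * C (k - i), ?_⟩
  intro d hd0 hd1 G hG hG2
  obtain ⟨hXs, hXb⟩ := xt_bdd hX hd0 hd1
  have hK : ContDiff ℝ ∞ fun p : ℝ × E 1 => (cf α β g0 (d, p) : ℂ) :=
    Complex.ofRealCLM.contDiff.comp ((cf_smooth α β hg).comp (contDiff_const.prodMk contDiff_id))
  refine ⟨?_, fun t => ?_, fun t k z => ?_, fun t z h => ?_⟩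
  · refine Measurable.mul ?_ hK.continuous.measurable
    have h1 : Measurable fun p : ℝ × E 1 => (b2 + d ^ 2 * p.1, xt X d p) :=
      (by fun_prop : Measurable fun p : ℝ × E 1 => b2 + d ^ 2 * p.1).prodMk
        hXs.continuous.measurable
    exact hG.1.comp h1
  · have hz : ContDiff ℝ ∞ fun z : E 1 => ((t, z) : ℝ × E 1) := contDiff_const.prodMk contDiff_id
    exact ((hG.2.1 (b2 + d ^ 2 * t)).comp (hXs.comp hz)).mul (hK.comp hz)
  · exact iter_comp hXs hK hXb (fun j p => hC d hd0 hd1 j p) (hG.2.1 (b2 + d ^ 2 * t))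
      (fun j x => hG.2.2 j _ x) t k z
  · by_contra h0
    have h1 : cf α β g0 (d, (t, z)) ≠ 0 := by
      intro h2
      refine h0 ?_
      unfold bl
      rw [h2, Complex.ofReal_zero, mul_zero]
    obtain ⟨h2, h3, h4, h5, h6, h7⟩ := cf_supp hα hg0 h1
    have hRg : Rg α β d t (z 0) := ⟨by linarith, by linarith, by linarith, h7.le⟩
    have h8 : 1 / 2 < HH α β d t (z 0) := by
      by_contra h9
      refine h0 ?_
      unfold bl
      rw [hG2, zero_mul]
      rw [xt_eq hX hα hd0 hd1 hRg]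
      exact not_lt.1 h9
    refine h ⟨h2, h3.le, h4, ?_⟩
    have h9 := HH_sq hRg.one_pos.le
    nlinarith

end Pool.Agent.LQ
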