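import Pool.Agent.MST.CH

/-!
LEAFQ row PIECE, part 2a: from the sphere to the disc, as an iterated integral.
-/

set_option autoImplicit false

namespace Pool.Agent.LQ

open MeasureTheory Set Pool.Agent.MP_6cbfb8_an
open scoped RealInnerProductSpace ContDiff Real

/-- The plane and Euclidean `2`-space. -/
noncomputable def e2 : ℝ × ℝ ≃ᵐ E 2 :=
  (MeasurableEquiv.finTwoArrow (α := ℝ)).symm.trans (MeasurableEquiv.toLp 2 (Fin 2 → ℝ))

theorem e2_zero (y : ℝ × ℝ) : e2 y 0 = y.1 := rfl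

theorem e2_one (y : ℝ × ℝ) : e2 y 1 = y.2 := rfl

theorem e2_mp : MeasurePreserving e2 volume volume :=
  ((volume_preserving_finTwoArrow ℝ).symm _).trans (PiLp.volume_preserving_toLp (Fin 2))

theorem e2_inner (X : E 2) (y : ℝ × ℝ) : inner ℝ (e2 y) X = y.1 * X 0 + y.2 * X 1 := by
  rw [PiLp.inner_apply, Fin.sum_univ_two]
  simp only [e2_zero, e2_one]
  simp [mul_comm]

theorem e2_norm (y : ℝ × ℝ) : ‖e2 y‖ ^ 2 = y.1 ^ 2 + y.2 ^ 2 := by
  rw [EuclideanSpace.norm_sq_eq, Fin.sum_univ_two]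
  simp only [e2_zero, e2_one]
  simp

theorem e2_join (y : ℝ × ℝ) (h : ℝ) :
    (join (e2 y) h : E 3) = WithLp.toLp 2 ![y.1, y.2, h] := by
  ext i
  fin_cases i <;> simp [join, Fin.snoc] <;> rfl

/-- The sphere and the disc, iterated integral. -/
theorem chart_int0 {g : E 3 → ℂ} (hg : Measurable g) {M : ℝ} (hM : ∀ x, ‖g x‖ ≤ M)
    (h0 : ∀ x, x 2 ≤ 1 / 2 → g x = 0) (ξ : E 3) :
    extn g ξ = ∫ y : ℝ, ∫ u : ℝ, g (WithLp.toLp 2 ![u, y, √(1 - u ^ 2 - y ^ 2)]) *
      ((1 / √(1 - u ^ 2 - y ^ 2) : ℝ) : ℂ) *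
      Complex.exp (((-(2 * π * (u * ξ 0 + y * ξ 1 + √(1 - u ^ 2 - y ^ 2) * ξ 2)) : ℝ) : ℂ) *
        Complex.I) := by
  have hM0 : 0 ≤ M := (norm_nonneg _).trans (hM 0)
  set F : ℝ × ℝ → ℂ := fun p => g (WithLp.toLp 2 ![p.1, p.2, √(1 - p.1 ^ 2 - p.2 ^ 2)]) *
      ((1 / √(1 - p.1 ^ 2 - p.2 ^ 2) : ℝ) : ℂ) *
      Complex.exp (((-(2 * π * (p.1 * ξ 0 + p.2 * ξ 1 + √(1 - p.1 ^ 2 - p.2 ^ 2) * ξ 2)) : ℝ) : ℂ) *
        Complex.I) with hF
  -- the support
  have hF0 : ∀ p : ℝ × ℝ, √(1 - p.1 ^ 2 - p.2 ^ 2) ≤ 1 / 2 → F p = 0 := by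
    intro p hp
    rw [hF]
    simp only
    rw [h0 _ hp, zero_mul, zero_mul]
  have hFm : Measurable F := by
    have h1 : Measurable fun p : ℝ × ℝ => √(1 - p.1 ^ 2 - p.2 ^ 2) := by fun_prop
    have h2 : Measurable fun p : ℝ × ℝ =>
        (WithLp.toLp 2 ![p.1, p.2, √(1 - p.1 ^ 2 - p.2 ^ 2)] : E 3) := by
      refine (MeasurableEquiv.toLp 2 (Fin 3 → ℝ)).measurable.comp ?_
      rw [measurable_pi_iff]
      intro i
      fin_cases i
      · exact measurable_fst
      · exact measurable_snd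
      · exact h1
    refine ((hg.comp h2).mul ?_).mul ?_
    · exact Complex.measurable_ofReal.comp (measurable_const.div h1)
    · refine Complex.measurable_exp.comp (Measurable.mul ?_ measurable_const)
      refine Complex.measurable_ofReal.comp ?_
      fun_prop
  have hFb : ∀ p, ‖F p‖ ≤ 2 * M := by
    intro p
    by_cases hp : √(1 - p.1 ^ 2 - p.2 ^ 2) ≤ 1 / 2
    · rw [hF0 p hp, norm_zero]
      positivity
    · push Not at hp
      rw [hF]
      simp only
      rw [norm_mul, Complex.norm_exp_ofReal_mul_I, mul_one, norm_mul, Complex.norm_real,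
        Real.norm_of_nonneg (by positivity)]
      have h1 : 1 / √(1 - p.1 ^ 2 - p.2 ^ 2) ≤ 2 := by
        rw [div_le_iff₀ (by linarith)]
        linarith
      calc _ ≤ M * 2 := by
            gcongr
            exact hM _
        _ = _ := by ring
  have hS : ∀ p : ℝ × ℝ, p ∉ Icc (-1 : ℝ) 1 ×ˢ Icc (-1 : ℝ) 1 → F p = 0 := by
    intro p hp
    refine hF0 p ?_
    have h1 : 1 - p.1 ^ 2 - p.2 ^ 2 ≤ 0 := by
      by_contra h2
      push Not at h2
      refine hp ⟨⟨?_, ?_⟩, ⟨?_, ?_⟩⟩ <;> nlinarith [sq_nonneg p.1, sq_nonneg p.2]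
    rw [Real.sqrt_eq_zero_of_nonpos h1]
    norm_num
  have hSm : MeasurableSet (Icc (-1 : ℝ) 1 ×ˢ Icc (-1 : ℝ) 1) :=
    measurableSet_Icc.prod measurableSet_Icc
  have hFi : Integrable F ((volume : Measure ℝ).prod volume) := by
    have h1 : (Icc (-1 : ℝ) 1 ×ˢ Icc (-1 : ℝ) 1).indicator F = F := by
      funext p
      by_cases hp : p ∈ Icc (-1 : ℝ) 1 ×ˢ Icc (-1 : ℝ) 1
      · rw [indicator_of_mem hp]
      · rw [indicator_of_notMem hp, hS p hp]
    rw [← h1, integrable_indicator_iff hSm]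
    refine Measure.integrableOn_of_bounded (M := 2 * M) ?_ hFm.aestronglyMeasurable
      (Filter.Eventually.of_forall hFb)
    rw [Measure.prod_prod]
    exact ENNReal.mul_ne_top (by simp) (by simp)
  have e0 : ∫ p, F p ∂((volume : Measure ℝ).prod volume) = ∫ y : ℝ, ∫ u : ℝ, F (u, y) :=
    integral_prod_symm F hFi
  refine Eq.trans ?_ e0
  rw [← Measure.volume_eq_prod]
  -- the chart
  set K : ℝ := M + 1 with hK
  have hK0 : 0 < K := by positivity
  have hKc : (K : ℂ) ≠ 0 := by exact_mod_cast hK0.ne'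
  set g' : E 3 → ℂ := fun x => ((K⁻¹ : ℝ) : ℂ) * g x with hg'
  have hg'm : Measurable g' := hg.const_mul _
  have hg'b : ∀ x, ‖g' x‖ ≤ 1 := by
    intro x
    rw [hg']
    simp only
    rw [norm_mul, Complex.norm_real, Real.norm_of_nonneg (by positivity), inv_mul_le_iff₀ hK0,
      mul_one]
    linarith [hM x]
  have hge : (fun x : E (1 + 2) => if 0 < x (Fin.last (1 + 1)) then g' x else 0) = g' := by
    funext x
    by_cases h : 0 < x (Fin.last (1 + 1))
    · rw [if_pos h]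
    · rw [if_neg h, hg']
      simp only
      rw [h0 x ((not_lt.1 h).trans (by norm_num)), mul_zero]
  set X : E 2 := e2 (ξ 0, ξ 1) with hX
  have hξ : (join X (ξ 2) : E 3) = ξ := by
    rw [hX, e2_join]
    ext i
    fin_cases i <;> rfl
  have h1 := MST.chart 1 g' hg'm hg'b X (ξ 2)
  rw [hge] at h1
  have h2 : extn g ξ = (K : ℂ) * extn g' (join X (ξ 2) : E 3) := by
    rw [hξ]
    unfold extn
    rw [← integral_const_mul]
    refine integral_congr_ae (Filter.Eventually.of_forall fun x => ?_)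
    simp only [hg']
    rw [Complex.ofReal_inv, ← mul_assoc, ← mul_assoc, mul_inv_cancel₀ hKc, one_mul]
  refine (h2.trans (congrArg _ h1)).trans ?_
  rw [← integral_indicator measurableSet_ball,
    ← e2_mp.integral_comp e2.measurableEmbedding, ← integral_const_mul]
  refine integral_congr_ae (Filter.Eventually.of_forall fun p => ?_)
  simp only
  by_cases hp : e2 p ∈ Metric.ball (0 : E 2) 1
  · rw [indicator_of_mem hp, e2_norm, e2_join, e2_inner]
    have e3 : 1 - (p.1 ^ 2 + p.2 ^ 2) = 1 - p.1 ^ 2 - p.2 ^ 2 := by ring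
    rw [e3, hg', hF]
    simp only
    unfold MST.ex
    have e4 : X 0 = ξ 0 := rfl
    have e5 : X 1 = ξ 1 := rfl
    rw [e4, e5, Complex.ofReal_inv]
    field_simp
  · rw [indicator_of_notMem hp, mul_zero]
    symm
    refine hF0 p ?_
    rw [mem_ball_zero_iff, not_lt] at hp
    have h3 := e2_norm p
    have h4 : 1 - p.1 ^ 2 - p.2 ^ 2 ≤ 0 := by nlinarith
    rw [Real.sqrt_eq_zero_of_nonpos h4]
    norm_num

end Pool.Agent.LQ
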