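import Pool.Agent.LQ.Df2

/-!
[LEAFQ] row PIECE, part (iii): the scaling `w = 2π (d ξ₁, d ξ₂, -d² ξ₃)` and the sum over the
dyadic pieces, with tails.
-/

set_option autoImplicit false

namespace Pool.Agent.LQ

open MeasureTheory Set Metric Pool.Agent.MP_6cbfb8_an Pool.Agent.LF
open scoped RealInnerProductSpace ContDiff ENNReal NNReal

/-- Hölder for series with exponentially growing weights. -/
theorem suml_pt {p : ℝ} (hp : 1 < p) : ∃ D : ℝ≥0∞, D ≠ ⊤ ∧ ∀ a : ℕ → ℝ≥0∞,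
    (∑' l, a l) ^ p ≤ D * ∑' l : ℕ, ENNReal.ofReal ((2 : ℝ) ^ ((l : ℝ) / 2)) * a l ^ p := by
  have hp0 : 0 < p := by linarith
  have hpq : p.HolderConjugate (p / (p - 1)) := Real.HolderConjugate.conjExponent hp
  obtain ⟨q, hq⟩ : ∃ q : ℝ, q = p / (p - 1) := ⟨_, rfl⟩
  rw [← hq] at hpq
  have hq0 : 0 < q := hpq.symm.pos
  obtain ⟨e, he⟩ : ∃ e : ℝ, e = 1 / (2 * p) := ⟨_, rfl⟩
  have he0 : 0 < e := by rw [he]; positivity
  -- the series of the weights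
  have hx0 : 0 < (2 : ℝ) ^ (-(e * q)) := by positivity
  have hx : (2 : ℝ) ^ (-(e * q)) < 1 :=
    Real.rpow_lt_one_of_one_lt_of_neg (by norm_num) (by nlinarith [mul_pos he0 hq0])
  have hg : ∀ l : ℕ, ENNReal.ofReal ((2 : ℝ) ^ (-(e * l))) ^ q =
      ENNReal.ofReal ((2 : ℝ) ^ (-(e * q))) ^ l := by
    intro l
    rw [ENNReal.ofReal_rpow_of_nonneg (by positivity) hq0.le, ← ENNReal.ofReal_pow hx0.le,
      ← Real.rpow_mul (by norm_num), ← Real.rpow_natCast, ← Real.rpow_mul (by norm_num)]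
    congr 2
    ring
  obtain ⟨S, hS⟩ : ∃ S : ℝ≥0∞, S = ∑' l : ℕ, ENNReal.ofReal ((2 : ℝ) ^ (-(e * q))) ^ l :=
    ⟨_, rfl⟩
  have hStop : S ≠ ⊤ := by
    rw [hS, ENNReal.tsum_geometric]
    refine ENNReal.inv_ne_top.2 ?_
    rw [Ne, tsub_eq_zero_iff_le, not_le]
    rw [← ENNReal.ofReal_one]
    exact (ENNReal.ofReal_lt_ofReal_iff (by norm_num)).2 hx
  refine ⟨(S ^ (1 / q)) ^ p, ENNReal.rpow_ne_top_of_nonneg hp0.le
    (ENNReal.rpow_ne_top_of_nonneg (by positivity) hStop), fun a => ?_⟩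
  have h1 := ENNReal.lintegral_mul_le_Lp_mul_Lq (Measure.count : Measure ℕ) hpq
    (f := fun l => ENNReal.ofReal ((2 : ℝ) ^ (e * l)) * a l)
    (g := fun l => ENNReal.ofReal ((2 : ℝ) ^ (-(e * l))))
    (Measurable.of_discrete).aemeasurable (Measurable.of_discrete).aemeasurable
  rw [lintegral_count, lintegral_count, lintegral_count] at h1
  simp only [Pi.mul_apply] at h1
  have h2 : ∀ l : ℕ, ENNReal.ofReal ((2 : ℝ) ^ (e * l)) * a l *
      ENNReal.ofReal ((2 : ℝ) ^ (-(e * l))) = a l := by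
    intro l
    rw [mul_right_comm, ← ENNReal.ofReal_mul (by positivity), ← Real.rpow_add (by norm_num),
      add_neg_cancel, Real.rpow_zero, ENNReal.ofReal_one, one_mul]
  simp_rw [h2, hg] at h1
  rw [← hS] at h1
  have h3 : ∀ l : ℕ, (ENNReal.ofReal ((2 : ℝ) ^ (e * l)) * a l) ^ p =
      ENNReal.ofReal ((2 : ℝ) ^ ((l : ℝ) / 2)) * a l ^ p := by
    intro l
    rw [ENNReal.mul_rpow_of_nonneg _ _ hp0.le, ENNReal.ofReal_rpow_of_nonneg (by positivity) hp0.le,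
      ← Real.rpow_mul (by norm_num)]
    congr 3
    rw [he]
    field_simp
  simp_rw [h3] at h1
  calc (∑' l, a l) ^ p ≤ ((∑' l : ℕ, ENNReal.ofReal ((2 : ℝ) ^ ((l : ℝ) / 2)) * a l ^ p) ^ (1 / p) *
        S ^ (1 / q)) ^ p := ENNReal.rpow_le_rpow h1 hp0.le
    _ = _ := by
        rw [ENNReal.mul_rpow_of_nonneg _ _ hp0.le, ← ENNReal.rpow_mul, one_div_mul_cancel hp0.ne',
          ENNReal.rpow_one, mul_comm]

/-- The sum over the dyadic pieces. -/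
theorem suml {p η : ℝ} (hp : 3 < p) (hη : 0 < η) :
    ∃ η' : ℝ, 0 < η' ∧ ∀ K : ℝ, 0 ≤ K → ∃ C : ℝ,
      ∀ (f : ℕ → E 3 → ℂ) (F : E 3 → ℂ), (∀ l, Measurable (f l)) →
      (∀ ξ, HasSum (fun l => f l ξ) (F ξ)) →
      (∀ (l : ℕ) (R : ℝ), 1 ≤ R → ∫⁻ ξ in {ξ : E 3 | R ≤ ‖ξ‖}, ‖f l ξ‖ₑ ^ p ≤
        ENNReal.ofReal (K * ((1 / 4 : ℝ) ^ l) ^ (p - 2) *
          min 1 (((1 / 4 : ℝ) ^ l * R) ^ (-η)))) →
      ∀ R : ℝ, 1 ≤ R → ∫⁻ ξ in {ξ : E 3 | R ≤ ‖ξ‖}, ‖F ξ‖ₑ ^ p ≤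
        ENNReal.ofReal (C * R ^ (-η')) := by
  obtain ⟨D, hD, hpt⟩ := suml_pt (p := p) (by linarith)
  obtain ⟨e, he⟩ : ∃ e : ℝ, e = min η (1 / 2) := ⟨_, rfl⟩
  have he0 : 0 < e := by rw [he]; exact lt_min hη (by norm_num)
  have heη : e ≤ η := he ▸ min_le_left _ _
  have he2 : e ≤ 1 / 2 := he ▸ min_le_right _ _
  -- the series
  have hx0 : 0 < (2 : ℝ) ^ (-(1 / 2) : ℝ) := by positivity
  have hx : (2 : ℝ) ^ (-(1 / 2) : ℝ) < 1 :=
    Real.rpow_lt_one_of_one_lt_of_neg (by norm_num) (by norm_num)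
  obtain ⟨S, hS⟩ : ∃ S : ℝ≥0∞, S = ∑' l : ℕ, ENNReal.ofReal ((2 : ℝ) ^ (-(1 / 2) : ℝ)) ^ l :=
    ⟨_, rfl⟩
  have hStop : S ≠ ⊤ := by
    rw [hS, ENNReal.tsum_geometric]
    refine ENNReal.inv_ne_top.2 ?_
    rw [Ne, tsub_eq_zero_iff_le, not_le]
    rw [← ENNReal.ofReal_one]
    exact (ENNReal.ofReal_lt_ofReal_iff (by norm_num)).2 hx
  refine ⟨e, he0, fun K hK => ⟨(D * S).toReal * K, fun f F hf hF h R hR => ?_⟩⟩
  have hR0 : 0 < R := by linarith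
  -- one piece
  have h1 : ∀ l : ℕ, ENNReal.ofReal ((2 : ℝ) ^ ((l : ℝ) / 2)) *
      ∫⁻ ξ in {ξ : E 3 | R ≤ ‖ξ‖}, ‖f l ξ‖ₑ ^ p ≤
      ENNReal.ofReal (K * R ^ (-e)) * ENNReal.ofReal ((2 : ℝ) ^ (-(1 / 2) : ℝ)) ^ l := by
    intro l
    have hd0 : 0 < (1 / 4 : ℝ) ^ l := by positivity
    have hd1 : (1 / 4 : ℝ) ^ l ≤ 1 := pow_le_one₀ (by norm_num) (by norm_num)
    have h2 : min 1 (((1 / 4 : ℝ) ^ l * R) ^ (-η)) ≤ ((1 / 4 : ℝ) ^ l * R) ^ (-e) := by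
      rcases le_total 1 ((1 / 4 : ℝ) ^ l * R) with h3 | h3
      · exact (min_le_right _ _).trans
          (Real.rpow_le_rpow_of_exponent_le h3 (neg_le_neg heη))
      · exact (min_le_left _ _).trans
          (Real.one_le_rpow_of_pos_of_le_one_of_nonpos (by positivity) h3 (by linarith))
    calc ENNReal.ofReal ((2 : ℝ) ^ ((l : ℝ) / 2)) *
          ∫⁻ ξ in {ξ : E 3 | R ≤ ‖ξ‖}, ‖f l ξ‖ₑ ^ p
        ≤ ENNReal.ofReal ((2 : ℝ) ^ ((l : ℝ) / 2)) * ENNReal.ofReal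
          (K * ((1 / 4 : ℝ) ^ l) ^ (p - 2) * ((1 / 4 : ℝ) ^ l * R) ^ (-e)) := by
          gcongr
          refine (h l R hR).trans (ENNReal.ofReal_le_ofReal ?_)
          gcongr
      _ ≤ _ := by
          rw [← ENNReal.ofReal_mul (by positivity), ← ENNReal.ofReal_pow hx0.le,
            ← ENNReal.ofReal_mul (by positivity)]
          refine ENNReal.ofReal_le_ofReal ?_
          rw [Real.mul_rpow hd0.le hR0.le]
          have h4 : ((1 / 4 : ℝ) ^ l) ^ (p - 2) * ((1 / 4 : ℝ) ^ l) ^ (-e) ≤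
              ((1 / 4 : ℝ) ^ l) ^ (1 / 2 : ℝ) := by
            rw [← Real.rpow_add hd0]
            exact Real.rpow_le_rpow_of_exponent_ge hd0 hd1 (by linarith)
          have h5 : ((1 / 4 : ℝ) ^ l) ^ (1 / 2 : ℝ) = (2 : ℝ) ^ (-(l : ℝ)) := by
            have h6 : (1 / 4 : ℝ) = 2 ^ (-2 : ℝ) := by
              rw [Real.rpow_neg (by norm_num)]
              norm_num
            rw [h6, ← Real.rpow_natCast, ← Real.rpow_mul (by norm_num),
              ← Real.rpow_mul (by norm_num)]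
            congr 1
            ring
          have h7 : (2 : ℝ) ^ ((l : ℝ) / 2) * (2 : ℝ) ^ (-(l : ℝ)) =
              ((2 : ℝ) ^ (-(1 / 2) : ℝ)) ^ l := by
            rw [← Real.rpow_add (by norm_num), ← Real.rpow_natCast, ← Real.rpow_mul (by norm_num)]
            congr 1
            ring
          calc (2 : ℝ) ^ ((l : ℝ) / 2) * (K * ((1 / 4 : ℝ) ^ l) ^ (p - 2) *
                (((1 / 4 : ℝ) ^ l) ^ (-e) * R ^ (-e)))
              = K * R ^ (-e) * ((2 : ℝ) ^ ((l : ℝ) / 2) *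
                (((1 / 4 : ℝ) ^ l) ^ (p - 2) * ((1 / 4 : ℝ) ^ l) ^ (-e))) := by ring
            _ ≤ K * R ^ (-e) * ((2 : ℝ) ^ ((l : ℝ) / 2) * (2 : ℝ) ^ (-(l : ℝ))) := by
                rw [← h5]
                gcongr
            _ = _ := by rw [h7]
  calc ∫⁻ ξ in {ξ : E 3 | R ≤ ‖ξ‖}, ‖F ξ‖ₑ ^ p
      ≤ ∫⁻ ξ in {ξ : E 3 | R ≤ ‖ξ‖}, D *
        ∑' l : ℕ, ENNReal.ofReal ((2 : ℝ) ^ ((l : ℝ) / 2)) * ‖f l ξ‖ₑ ^ p := by
        refine lintegral_mono fun ξ => ?_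
        simp only
        refine le_trans ?_ (hpt fun l => ‖f l ξ‖ₑ)
        rw [← (hF ξ).tsum_eq]
        exact ENNReal.rpow_le_rpow enorm_tsum_le_tsum_enorm (by linarith)
    _ = D * ∑' l : ℕ, ENNReal.ofReal ((2 : ℝ) ^ ((l : ℝ) / 2)) *
        ∫⁻ ξ in {ξ : E 3 | R ≤ ‖ξ‖}, ‖f l ξ‖ₑ ^ p := by
        have hm : ∀ l : ℕ, Measurable fun ξ : E 3 =>
            ENNReal.ofReal ((2 : ℝ) ^ ((l : ℝ) / 2)) * ‖f l ξ‖ₑ ^ p := fun l =>
          ((hf l).enorm.pow_const p).const_mul _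
        rw [lintegral_const_mul' _ _ hD, lintegral_tsum fun l => (hm l).aemeasurable]
        congr 2
        funext l
        exact lintegral_const_mul' _ _ ENNReal.ofReal_ne_top
    _ ≤ D * ∑' l : ℕ, ENNReal.ofReal (K * R ^ (-e)) *
        ENNReal.ofReal ((2 : ℝ) ^ (-(1 / 2) : ℝ)) ^ l := by
        refine mul_le_mul_right (ENNReal.tsum_le_tsum fun l => h1 l) _
    _ = ENNReal.ofReal ((D * S).toReal * K * R ^ (-e)) := by
        rw [ENNReal.tsum_mul_left, ← hS, mul_assoc, ENNReal.ofReal_mul ENNReal.toReal_nonneg,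
          ENNReal.ofReal_toReal (ENNReal.mul_ne_top hD hStop)]
        ring

/-- The diagonal map. -/
noncomputable def dg (c : Fin 3 → ℝ) : E 3 →ₗ[ℝ] E 3 where
  toFun := fun x => WithLp.toLp 2 fun i => c i * x i
  map_add' := fun x y => by ext i; simp [mul_add]
  map_smul' := fun a x => by ext i; simp; ring

theorem dg_apply (c : Fin 3 → ℝ) (x : E 3) (i : Fin 3) : dg c x i = c i * x i := rfl

theorem dg_det (c : Fin 3 → ℝ) : LinearMap.det (dg c) = c 0 * c 1 * c 2 := by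
  rw [← LinearMap.det_toMatrix (EuclideanSpace.basisFun (Fin 3) ℝ).toBasis]
  have h1 : LinearMap.toMatrix (EuclideanSpace.basisFun (Fin 3) ℝ).toBasis
      (EuclideanSpace.basisFun (Fin 3) ℝ).toBasis (dg c) = Matrix.diagonal c := by
    ext i j
    rw [LinearMap.toMatrix_apply]
    simp only [OrthonormalBasis.coe_toBasis, EuclideanSpace.basisFun_apply,
      OrthonormalBasis.coe_toBasis_repr_apply, EuclideanSpace.basisFun_repr, dg_apply]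
    rw [Matrix.diagonal_apply]
    by_cases h : i = j
    · subst h; simp
    · simp [h]
  rw [h1, Matrix.det_diagonal, Fin.prod_univ_three]

theorem dg_lintegral {c : Fin 3 → ℝ} (hc : c 0 * c 1 * c 2 ≠ 0) {f : E 3 → ℝ≥0∞}
    (hf : Measurable f) :
    ∫⁻ x, f (dg c x) = ENNReal.ofReal |(c 0 * c 1 * c 2)⁻¹| * ∫⁻ x, f x := by
  have h1 := Measure.map_linearMap_addHaar_eq_smul_addHaar (volume : Measure (E 3))
    (f := dg c) (by rw [dg_det]; exact hc)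
  rw [dg_det] at h1
  have h2 : Measurable (dg c) := (dg c).continuous_of_finiteDimensional.measurable
  rw [← lintegral_map hf h2, h1, lintegral_smul_measure]
  rfl

/-- The frequency of the piece of size `d`. -/
noncomputable def wd (d : ℝ) (ξ : E 3) : E 3 :=
  dg ![2 * Real.pi * d, 2 * Real.pi * d, -(2 * Real.pi * d ^ 2)] ξ

theorem wd_norm {d : ℝ} (h0 : 0 ≤ d) (h1 : d ≤ 1) (ξ : E 3) : d ^ 2 * ‖ξ‖ ≤ ‖wd d ξ‖ := by
  have hpi := Real.pi_gt_three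
  have h2 : (d ^ 2 * ‖ξ‖) ^ 2 ≤ ‖wd d ξ‖ ^ 2 := by
    rw [mul_pow, EuclideanSpace.real_norm_sq_eq, EuclideanSpace.real_norm_sq_eq,
      Fin.sum_univ_three, Fin.sum_univ_three]
    have e0 : wd d ξ 0 = 2 * Real.pi * d * ξ 0 := rfl
    have e1 : wd d ξ 1 = 2 * Real.pi * d * ξ 1 := rfl
    have e2 : wd d ξ 2 = -(2 * Real.pi * d ^ 2) * ξ 2 := rfl
    rw [e0, e1, e2]
    have h3 : 1 ≤ (2 * Real.pi) ^ 2 := by nlinarith
    have h4 : d ^ 4 ≤ d ^ 2 := pow_le_pow_of_le_one h0 h1 (by norm_num)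
    have h5 : (d ^ 2) ^ 2 ≤ (2 * Real.pi * d) ^ 2 := by
      rw [mul_pow]
      have : (d ^ 2) ^ 2 = d ^ 4 := by ring
      rw [this]
      nlinarith [sq_nonneg d]
    have h6 : (d ^ 2) ^ 2 ≤ (2 * Real.pi * d ^ 2) ^ 2 := by
      rw [mul_pow (2 * Real.pi)]
      nlinarith [sq_nonneg (d ^ 2)]
    calc (d ^ 2) ^ 2 * (ξ 0 ^ 2 + ξ 1 ^ 2 + ξ 2 ^ 2) =
          (d ^ 2) ^ 2 * ξ 0 ^ 2 + (d ^ 2) ^ 2 * ξ 1 ^ 2 + (d ^ 2) ^ 2 * ξ 2 ^ 2 := by ring
      _ ≤ (2 * Real.pi * d) ^ 2 * ξ 0 ^ 2 + (2 * Real.pi * d) ^ 2 * ξ 1 ^ 2 +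
          (2 * Real.pi * d ^ 2) ^ 2 * ξ 2 ^ 2 := by gcongr
      _ = _ := by ring
  exact le_of_sq_le_sq h2 (norm_nonneg _)

/-- From the frequencies `w` to the frequencies `ξ`. -/
theorem wd_scale {d : ℝ} (h0 : 0 < d) (h1 : d ≤ 1) {Φ : E 3 → ℝ≥0∞} (hΦ : Measurable Φ) (R : ℝ) :
    ∫⁻ ξ in {ξ : E 3 | R ≤ ‖ξ‖}, Φ (wd d ξ) ≤
      ENNReal.ofReal ((d ^ 2) ^ (-2 : ℝ)) * ∫⁻ w in {w : E 3 | d ^ 2 * R ≤ ‖w‖}, Φ w := by
  have hm : MeasurableSet {w : E 3 | d ^ 2 * R ≤ ‖w‖} :=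
    measurableSet_le measurable_const measurable_norm
  have hm' : MeasurableSet {ξ : E 3 | R ≤ ‖ξ‖} := measurableSet_le measurable_const measurable_norm
  have hpi := Real.pi_gt_three
  calc ∫⁻ ξ in {ξ : E 3 | R ≤ ‖ξ‖}, Φ (wd d ξ)
      ≤ ∫⁻ ξ, {w : E 3 | d ^ 2 * R ≤ ‖w‖}.indicator Φ (wd d ξ) := by
        rw [← lintegral_indicator hm']
        refine lintegral_mono fun ξ => ?_
        by_cases h : ξ ∈ {ξ : E 3 | R ≤ ‖ξ‖}
        · have h2 : wd d ξ ∈ {w : E 3 | d ^ 2 * R ≤ ‖w‖} := by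
            refine le_trans ?_ (wd_norm h0.le h1 ξ)
            have h3 : R ≤ ‖ξ‖ := h
            gcongr
          rw [indicator_of_mem h, indicator_of_mem h2]
        · rw [indicator_of_notMem h]
          exact zero_le
    _ = ENNReal.ofReal |(2 * Real.pi * d * (2 * Real.pi * d) * -(2 * Real.pi * d ^ 2))⁻¹| *
        ∫⁻ w, {w : E 3 | d ^ 2 * R ≤ ‖w‖}.indicator Φ w := by
        refine dg_lintegral (c := ![2 * Real.pi * d, 2 * Real.pi * d, -(2 * Real.pi * d ^ 2)])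
          ?_ (hΦ.indicator hm)
        show 2 * Real.pi * d * (2 * Real.pi * d) * -(2 * Real.pi * d ^ 2) ≠ 0
        have : 0 < 2 * Real.pi * d * (2 * Real.pi * d) * (2 * Real.pi * d ^ 2) := by positivity
        linarith
    _ ≤ _ := by
        rw [lintegral_indicator hm]
        refine mul_le_mul_left (ENNReal.ofReal_le_ofReal ?_) _
        have h2 : (2 * Real.pi * d * (2 * Real.pi * d) * -(2 * Real.pi * d ^ 2))⁻¹ =
            -((2 * Real.pi) ^ 3 * d ^ 4)⁻¹ := by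
          rw [← inv_neg]
          congr 1
          ring
        have h3 : 1 ≤ (2 * Real.pi) ^ 3 := one_le_pow₀ (by linarith)
        rw [h2, abs_neg, abs_of_pos (by positivity), Real.rpow_neg (by positivity)]
        have h4 : (d ^ 2) ^ (2 : ℝ) = d ^ 4 := by
          rw [Real.rpow_two]
          ring
        rw [h4]
        gcongr
        nlinarith [pow_pos h0 4]

end Pool.Agent.LQ
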