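import Pool.Agent.LQ.PIECE1
import Pool.Agent.LQ.SUML

/-!
LEAFQ row PIECE, part 2b: from the iterated integral to the operator of the chart.
-/

set_option autoImplicit false

namespace Pool.Agent.LQ

open MeasureTheory Set Filter Topology Pool.Agent.MP_6cbfb8_an Pool.Agent.LF
open scoped RealInnerProductSpace ContDiff Real

/-- The integrand over the disc. -/
noncomputable def Fg (g : E 3 → ℂ) (ξ : E 3) (u y : ℝ) : ℂ :=
  g (WithLp.toLp 2 ![u, y, √(1 - u ^ 2 - y ^ 2)]) * ((1 / √(1 - u ^ 2 - y ^ 2) : ℝ) : ℂ) *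
    Complex.exp (((-(2 * π * (u * ξ 0 + y * ξ 1 + √(1 - u ^ 2 - y ^ 2) * ξ 2)) : ℝ) : ℂ) *
      Complex.I)

/-- The density of `piece`. -/
noncomputable def fp (b : Fin 3 → ℝ) (g0 : ℝ → ℝ) (G : ℝ → E 3 → ℂ) (x : E 3) : ℂ :=
  if 0 < x 0 then (g0 (x 0 ^ 2 / (x 0 ^ 2 + x 1 ^ 2)) : ℂ) * G (∑ i, b i * x i ^ 2) x else 0

/-- The dyadic piece. -/
noncomputable def fl (b : Fin 3 → ℝ) (g0 : ℝ → ℝ) (G : ℝ → E 3 → ℂ) (l : ℕ) (x : E 3) : ℂ :=
  (psd (4 ^ l * (x 0 ^ 2 + x 1 ^ 2)) : ℂ) * fp b g0 G x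

/-- The point of `E 1`. -/
noncomputable def e1 : ℝ ≃ᵐ E 1 :=
  (MeasurableEquiv.funUnique (Fin 1) ℝ).symm.trans (MeasurableEquiv.toLp 2 (Fin 1 → ℝ))

theorem e1_zero (y : ℝ) : e1 y 0 = y := rfl

theorem e1_mp : MeasurePreserving e1 volume volume :=
  ((volume_preserving_funUnique (Fin 1) ℝ).symm _).trans (PiLp.volume_preserving_toLp (Fin 1))

/-- The value of the amplitude. -/
theorem cf_val {α β : ℝ} (hα : α ≠ 0) {g0 : ℝ → ℝ} (hg0 : ∀ r ≤ 1 / 4, g0 r = 0) {d t y : ℝ}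
    (hH : 1 / 2 < HH α β d t y) :
    cf α β g0 (d, (t, e1 y)) = g0 (rr α β t y / ss α β t y) * psd (ss α β t y) *
      (1 / (2 * |α| * AA α β t y * HH α β d t y)) := by
  unfold cf
  simp only [e1_zero]
  have h1 : 1 / 4 < 1 - d ^ 2 * ss α β t y := by
    by_contra h
    have h2 : HH α β d t y ≤ 1 / 2 := by
      unfold HH
      rw [Real.sqrt_le_left (by norm_num)]
      linarith [not_lt.1 h]
    linarith
  set r := rr α β t y with hr
  set s := ss α β t y with hs
  by_cases hp : psd s = 0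
  · rw [hp]; ring
  have hs1 : 1 / 4 < s := by
    by_contra h4
    exact hp (psd_zero (Or.inl (not_lt.1 h4)))
  rw [kc_eq (by linarith : (4 : ℝ) ≤ 16 * s), mul_one_div]
  by_cases hg : g0 (r / s) = 0
  · rw [hg]; ring
  have hr1 : 1 / 4 < r / s := by
    by_contra h4
    exact hg (hg0 _ (not_lt.1 h4))
  have hr2 : 1 / 16 < r := by
    rw [lt_div_iff₀ (by linarith)] at hr1
    linarith
  rw [kc_eq (by linarith : (4 : ℝ) ≤ 64 * r), kc_eq (by linarith : (4 : ℝ) ≤ 16 * (1 - d ^ 2 * s))]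
  have e1 : AA α β t y = √r := rfl
  have e2 : HH α β d t y = √(1 - d ^ 2 * s) := rfl
  rw [e1, e2]
  have h3 : √r ≠ 0 := Real.sqrt_ne_zero'.2 (by linarith)
  have h4 : √(1 - d ^ 2 * s) ≠ 0 := Real.sqrt_ne_zero'.2 (by linarith)
  have h5 : |α| ≠ 0 := abs_ne_zero.2 hα
  field_simp

/-- Pointwise identity of the integrands. -/
theorem pw {b : Fin 3 → ℝ} {α β : ℝ} (hα : α ≠ 0) (hαb : α = b 0 - b 2) (hβb : β = b 1 - b 2)
    {g0 : ℝ → ℝ} (hg0 : ∀ r ≤ 1 / 4, g0 r = 0) {X : ℝ → ℝ × E 1 → E 3} {A : ℕ → ℝ}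
    (hX : SF α β X A) {G : ℝ → E 3 → ℂ} (hG : ∀ t x, x 2 ≤ 1 / 2 → G t x = 0) {d : ℝ} {l : ℕ}
    (hd0 : 0 < d) (hd1 : d ≤ 1) (hdl : 4 ^ l * d ^ 2 = 1) (ξ : E 3) (t y : ℝ)
    (hr : 0 < rr α β t y) :
    ((d * (1 / (2 * |α| * AA α β t y)) : ℝ) : ℂ) *
        Fg (fl b g0 G l) ξ (d * AA α β t y) (d * y) =
      (d : ℂ) * (bl α β (b 2) g0 X d G (t, e1 y) *
        Complex.exp (((-⟪wd d ξ, X d (t, e1 y)⟫ : ℝ) : ℂ) * Complex.I)) *
        Complex.exp (((-(2 * π * ξ 2) : ℝ) : ℂ) * Complex.I) := by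
  have hA : 0 < AA α β t y := AA_pos hr
  have hAsq : AA α β t y ^ 2 = rr α β t y := AA_sq hr.le
  have hs : ss α β t y = rr α β t y + y ^ 2 := ss_eq hα
  have e1' : 1 - (d * AA α β t y) ^ 2 - (d * y) ^ 2 = 1 - d ^ 2 * ss α β t y := by
    rw [mul_pow, mul_pow, hAsq, hs]; ring
  have e2 : √(1 - (d * AA α β t y) ^ 2 - (d * y) ^ 2) = HH α β d t y := by rw [e1']; rfl
  unfold Fg
  rw [e2]
  set x : E 3 := WithLp.toLp 2 ![d * AA α β t y, d * y, HH α β d t y] with hx
  have x0 : x 0 = d * AA α β t y := rfl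
  have x1 : x 1 = d * y := rfl
  have x2 : x 2 = HH α β d t y := rfl
  rcases le_or_gt (HH α β d t y) (1 / 2) with hH | hH
  · -- both sides vanish
    have h1 : fl b g0 G l x = 0 := by
      unfold fl fp
      rw [hG _ x (by rw [x2]; exact hH)]
      simp
    have h2 : bl α β (b 2) g0 X d G (t, e1 y) = 0 := by
      by_contra h0
      have h3 : cf α β g0 (d, (t, e1 y)) ≠ 0 := by
        intro h4
        refine h0 ?_
        unfold bl
        rw [h4, Complex.ofReal_zero, mul_zero]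
      obtain ⟨h4, h5, h6, -, -, h7⟩ := cf_supp hα hg0 h3
      have hRg : Rg α β d t (e1 y 0) := ⟨by linarith, by linarith, by linarith, h7.le⟩
      refine h0 ?_
      unfold bl
      rw [hG, zero_mul]
      rw [xt_eq hX hα hd0.le hd1 hRg]
      exact hH
    rw [h1, h2]
    ring
  · have hval := cf_val hα hg0 (β := β) (g0 := g0) (y := y) hH
    have hpos : 0 < 1 - d ^ 2 * ss α β t y := by
      by_contra h
      have h2 : HH α β d t y = 0 := Real.sqrt_eq_zero_of_nonpos (not_lt.1 h)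
      linarith
    have hH0 : HH α β d t y ≠ 0 := by linarith
    have hsum : x 0 ^ 2 + x 1 ^ 2 = d ^ 2 * ss α β t y := by
      rw [x0, x1, mul_pow, mul_pow, hAsq, hs]; ring
    have hs0 : 0 < ss α β t y := by rw [hs]; positivity
    have hrat : x 0 ^ 2 / (x 0 ^ 2 + x 1 ^ 2) = rr α β t y / ss α β t y := by
      rw [hsum, x0, mul_pow, hAsq, mul_div_mul_left _ _ (by positivity)]
    have hQ : ∑ i, b i * x i ^ 2 = b 2 + d ^ 2 * t := by
      rw [Fin.sum_univ_three, x0, x1, x2, HH_sq hpos.le, mul_pow, mul_pow, hAsq]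
      have h1 : t = α * rr α β t y + β * y ^ 2 := t_eq hα
      rw [hs]
      conv_rhs => rw [h1]
      rw [hαb, hβb]
      ring
    have hfl : fl b g0 G l x = ((psd (ss α β t y) : ℝ) : ℂ) *
        (((g0 (rr α β t y / ss α β t y) : ℝ) : ℂ) * G (b 2 + d ^ 2 * t) x) := by
      unfold fl fp
      have h0 : 0 < x 0 := by rw [x0]; positivity
      rw [if_pos h0, hrat, hQ, hsum, ← mul_assoc (4 ^ l : ℝ), hdl, one_mul]
    by_cases hc : cf α β g0 (d, (t, e1 y)) = 0
    · have h1 : g0 (rr α β t y / ss α β t y) * psd (ss α β t y) = 0 := by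
        rw [hval] at hc
        rcases mul_eq_zero.1 hc with h | h
        · exact h
        · exfalso
          have : 0 < 1 / (2 * |α| * AA α β t y * HH α β d t y) := by
            have := abs_pos.2 hα
            have h3 : 0 < HH α β d t y := by linarith
            positivity
          linarith
      have h2 : fl b g0 G l x = 0 := by
        rw [hfl, ← mul_assoc, ← Complex.ofReal_mul, mul_comm (psd _), h1, Complex.ofReal_zero,
          zero_mul]
      have h3 : bl α β (b 2) g0 X d G (t, e1 y) = 0 := by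
        unfold bl
        rw [hc, Complex.ofReal_zero, mul_zero]
      rw [h2, h3]
      ring
    · obtain ⟨h4, h5, h6, -, -, h7⟩ := cf_supp hα hg0 hc
      have hRg : Rg α β d t (e1 y 0) := ⟨by linarith, by linarith, by linarith, h7.le⟩
      obtain ⟨-, -, h8⟩ := hX d hd0.le hd1
      obtain ⟨X0, X1, X2, -, -⟩ := h8 t (e1 y) hRg
      rw [e1_zero] at X0 X1 X2
      have hxt : xt X d (t, e1 y) = x := xt_eq hX hα hd0.le hd1 hRg
      have hbl : bl α β (b 2) g0 X d G (t, e1 y) = G (b 2 + d ^ 2 * t) x *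
          ((g0 (rr α β t y / ss α β t y) * psd (ss α β t y) *
            (1 / (2 * |α| * AA α β t y * HH α β d t y)) : ℝ) : ℂ) := by
        unfold bl
        simp only
        rw [hxt, hval]
      have hin : ⟪wd d ξ, X d (t, e1 y)⟫ = 2 * π * d * ξ 0 * AA α β t y + 2 * π * d * ξ 1 * y -
          2 * π * d ^ 2 * ξ 2 * hh α β d t y := by
        have w0 : wd d ξ 0 = 2 * π * d * ξ 0 := rfl
        have w1 : wd d ξ 1 = 2 * π * d * ξ 1 := rfl
        have w2 : wd d ξ 2 = -(2 * π * d ^ 2) * ξ 2 := rfl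
        rw [PiLp.inner_apply, Fin.sum_univ_three, X0, X1, X2, w0, w1, w2]
        simp only [RCLike.inner_apply, conj_trivial]
        ring
      have hq : d ^ 2 * hh α β d t y = 1 - HH α β d t y := (quad hr.le hα hpos.le).2
      have hexp : Complex.exp (((-(2 * π * (d * AA α β t y * ξ 0 + d * y * ξ 1 +
          HH α β d t y * ξ 2)) : ℝ) : ℂ) * Complex.I) =
          Complex.exp (((-⟪wd d ξ, X d (t, e1 y)⟫ : ℝ) : ℂ) * Complex.I) *
            Complex.exp (((-(2 * π * ξ 2) : ℝ) : ℂ) * Complex.I) := by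
        rw [← Complex.exp_add, ← add_mul, ← Complex.ofReal_add]
        congr 3
        rw [hin]
        have h9 : HH α β d t y = 1 - d ^ 2 * hh α β d t y := by linarith
        rw [h9]
        ring
      rw [hexp, hfl, hbl]
      push_cast
      have hα' : ((|α| : ℝ) : ℂ) ≠ 0 := by exact_mod_cast abs_ne_zero.2 hα
      have hA' : ((AA α β t y : ℝ) : ℂ) ≠ 0 := by exact_mod_cast hA.ne'
      have hH' : ((HH α β d t y : ℝ) : ℂ) ≠ 0 := by exact_mod_cast hH0
      field_simp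

/-- The substitution `u = d A(t, y)`. -/
theorem cov1 {α β : ℝ} (hα : α ≠ 0) {d : ℝ} (hd : 0 < d) (y : ℝ) (F : ℝ → ℂ)
    (hF : ∀ u ≤ 0, F u = 0) :
    ∫ u, F u = ∫ t, (if 0 < rr α β t y then
      ((d * (1 / (2 * |α| * AA α β t y)) : ℝ) : ℂ) * F (d * AA α β t y) else 0) := by
  set s : Set ℝ := {t | 0 < rr α β t y} with hs
  have hsm : MeasurableSet s := by
    rw [hs]
    unfold rr
    exact measurableSet_lt measurable_const (by fun_prop)
  have himg : (fun t => d * AA α β t y) '' s = Ioi 0 := by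
    ext u
    constructor
    · rintro ⟨t, ht, rfl⟩
      exact mul_pos hd (AA_pos ht)
    · intro hu
      have hu' : (0 : ℝ) < u := hu
      have h1 : rr α β (α * (u / d) ^ 2 + β * y ^ 2) y = (u / d) ^ 2 := by
        unfold rr
        field_simp
        ring
      refine ⟨α * (u / d) ^ 2 + β * y ^ 2, ?_, ?_⟩
      · show 0 < rr α β (α * (u / d) ^ 2 + β * y ^ 2) y
        rw [h1]
        positivity
      · simp only
        unfold AA
        rw [h1, Real.sqrt_sq (by positivity)]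
        field_simp
  have hinj : InjOn (fun t => d * AA α β t y) s := by
    intro t ht t' ht' h
    have h1 : AA α β t y = AA α β t' y := mul_left_cancel₀ hd.ne' h
    have h2 : rr α β t y = rr α β t' y := by
      rw [← AA_sq (le_of_lt ht), ← AA_sq (le_of_lt ht'), h1]
    rw [t_eq (α := α) (β := β) (t := t) (y := y) hα, h2, ← t_eq hα]
  have h1 : ∫ u, F u = ∫ u in Ioi 0, F u := by
    rw [setIntegral_eq_integral_of_forall_compl_eq_zero]
    intro u hu
    exact hF u (not_lt.1 hu)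
  rw [h1, ← himg, integral_image_eq_integral_abs_deriv_smul hsm
    (f' := fun t => d * (1 / (2 * α * AA α β t y)))
    (fun t ht => ((gd_A hα ht).1.const_mul d).hasDerivWithinAt) hinj, ← integral_indicator hsm]
  refine integral_congr_ae (Eventually.of_forall fun t => ?_)
  simp only
  by_cases ht : 0 < rr α β t y
  · rw [indicator_of_mem (show t ∈ s from ht), if_pos ht, Complex.real_smul]
    congr 2
    rw [abs_mul, abs_of_pos hd, abs_div, abs_one, abs_mul, abs_mul, abs_of_pos (AA_pos ht)]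
    norm_num
  · rw [indicator_of_notMem (show t ∉ s from ht), if_neg ht]

theorem measurable_Tb {X : ℝ × E 1 → E 3} (hX : Continuous X) {b : ℝ × E 1 → ℂ}
    (hb : Measurable b) : Measurable (Tb X b) := by
  unfold Tb
  have h1 : Measurable fun q : E 3 × (ℝ × E 1) =>
      b q.2 * Complex.exp (((-⟪q.1, X q.2⟫ : ℝ) : ℂ) * Complex.I) := by
    have h2 : Continuous fun q : E 3 × (ℝ × E 1) =>
        Complex.exp (((-⟪q.1, X q.2⟫ : ℝ) : ℂ) * Complex.I) := by fun_prop
    exact (hb.comp measurable_snd).mul h2.measurable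
  exact (StronglyMeasurable.integral_prod_right h1.stronglyMeasurable).measurable

/-- The operator of the chart as an iterated integral. -/
theorem Tb_iter {α β d : ℝ} (hα : α ≠ 0) {B : ℕ → ℝ} {X : ℝ × E 1 → E 3} (hX : Continuous X)
    {b : ℝ × E 1 → ℂ} (hb : DC α β d B b) (w : E 3) :
    Tb X b w = ∫ y : ℝ, ∫ t : ℝ, b (t, e1 y) *
      Complex.exp (((-⟪w, X (t, e1 y)⟫ : ℝ) : ℂ) * Complex.I) := by
  obtain ⟨h1, h2, h3, h4⟩ := hb
  have hc : Continuous fun p : ℝ × E 1 =>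
      Complex.exp (((-⟪w, X p⟫ : ℝ) : ℂ) * Complex.I) := by fun_prop
  set H : ℝ × E 1 → ℂ := fun p => b p *
    Complex.exp (((-⟪w, X p⟫ : ℝ) : ℂ) * Complex.I) with hH
  have hHm : Measurable H := h1.mul hc.measurable
  set K : Set (ℝ × E 1) := Icc (-(4 * |α| + 4 * |β|)) (4 * |α| + 4 * |β|) ×ˢ
    Metric.closedBall 0 2 with hK
  have hKc : IsCompact K := isCompact_Icc.prod (isCompact_closedBall _ _)
  have hsupp : ∀ p, p ∉ K → H p = 0 := by
    rintro ⟨t, z⟩ hp
    simp only [hH]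
    rw [h4 t z, zero_mul]
    intro hR
    refine hp ⟨?_, ?_⟩
    · have h7 : |t| ≤ 4 * |α| + 4 * |β| := by
        rw [t_eq (α := α) (β := β) (t := t) (y := z 0) hα]
        refine (abs_add_le _ _).trans ?_
        have h9 : 0 < rr α β t (z 0) := by linarith [hR.2.1]
        rw [abs_mul, abs_mul, abs_of_pos h9, abs_sq]
        have h8 : z 0 ^ 2 ≤ 4 := by
          rw [← sq_abs]
          nlinarith [abs_nonneg (z 0), hR.1]
        nlinarith [abs_nonneg α, abs_nonneg β, hR.2.2.1]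
      exact abs_le.1 h7
    · rw [mem_closedBall_zero_iff, EuclideanSpace.norm_eq, Fin.sum_univ_one, Real.norm_eq_abs,
        sq_abs, Real.sqrt_sq_eq_abs]
      exact hR.1
  have hHb : ∀ p, ‖H p‖ ≤ B 0 := by
    rintro ⟨t, z⟩
    simp only [hH]
    rw [norm_mul, Complex.norm_exp_ofReal_mul_I, mul_one]
    have := h3 t 0 z
    rwa [norm_iteratedFDeriv_zero] at this
  have hHi : Integrable H := by
    have h5 : IntegrableOn H K := Measure.integrableOn_of_bounded (M := B 0)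
      hKc.measure_lt_top.ne hHm.aestronglyMeasurable (Eventually.of_forall fun p => hHb p)
    rwa [integrableOn_iff_integrable_of_support_subset] at h5
    intro p hp
    by_contra h6
    exact hp (hsupp p h6)
  have e2 : Tb X b w = ∫ p, H p := rfl
  rw [e2, Measure.volume_eq_prod, integral_prod_symm _ (by rwa [Measure.volume_eq_prod] at hHi),
    ← e1_mp.integral_comp e1.measurableEmbedding]

theorem extn_fl_of {b : Fin 3 → ℝ} {α β : ℝ} (hα : α ≠ 0) (hαb : α = b 0 - b 2)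
    (hβb : β = b 1 - b 2) {g0 : ℝ → ℝ} (hg : ContDiff ℝ ∞ g0) (hg0 : ∀ r ≤ 1 / 4, g0 r = 0)
    {X : ℝ → ℝ × E 1 → E 3} {A : ℕ → ℝ} (hX : SF α β X A) {B : ℕ → ℝ} {G : ℝ → E 3 → ℂ}
    (hGC : GC B G) (hG : ∀ t x, x 2 ≤ 1 / 2 → G t x = 0) {d : ℝ} {l : ℕ}
    (hd0 : 0 < d) (hd1 : d ≤ 1) (hdl : 4 ^ l * d ^ 2 = 1) (ξ : E 3)
    (hchart : extn (fl b g0 G l) ξ = ∫ y : ℝ, ∫ u : ℝ, Fg (fl b g0 G l) ξ u y) :
    ‖extn (fl b g0 G l) ξ‖ = d ^ 2 * ‖Tb (X d) (bl α β (b 2) g0 X d G) (wd d ξ)‖ := by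
  obtain ⟨B', hB'⟩ := bl_DC hα hg hg0 hX (b 2) B
  have hDC := hB' d hd0.le hd1 G hGC hG
  have hXc : Continuous (X d) := (hX d hd0.le hd1).1.continuous
  set c0 : ℂ := Complex.exp (((-(2 * π * ξ 2) : ℝ) : ℂ) * Complex.I) with hc0
  have hin : ∀ y : ℝ, ∫ u : ℝ, Fg (fl b g0 G l) ξ u (d * y) = (d : ℂ) * c0 *
      ∫ t : ℝ, bl α β (b 2) g0 X d G (t, e1 y) *
        Complex.exp (((-⟪wd d ξ, X d (t, e1 y)⟫ : ℝ) : ℂ) * Complex.I) := by
    intro y
    rw [cov1 (β := β) hα hd0 y _ (fun u hu => ?_), ← integral_const_mul]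
    · refine integral_congr_ae (Eventually.of_forall fun t => ?_)
      simp only
      by_cases hr : 0 < rr α β t y
      · rw [if_pos hr, pw hα hαb hβb hg0 hX hG hd0 hd1 hdl ξ t y hr]
        ring
      · rw [if_neg hr]
        have h1 : bl α β (b 2) g0 X d G (t, e1 y) = 0 := by
          refine hDC.2.2.2 t (e1 y) fun h => hr ?_
          have := h.2.1
          rw [e1_zero] at this
          linarith
        rw [h1]
        ring
    · unfold Fg fl fp
      rw [if_neg (by simpa using hu)]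
      simp
  have h2 : ∫ y : ℝ, ∫ u : ℝ, Fg (fl b g0 G l) ξ u y =
      (d : ℂ) * ∫ y : ℝ, ∫ u : ℝ, Fg (fl b g0 G l) ξ u (d * y) := by
    have h3 := Measure.integral_comp_mul_left (fun y : ℝ => ∫ u : ℝ, Fg (fl b g0 G l) ξ u y) d
    rw [h3, abs_of_pos (inv_pos.2 hd0), Complex.real_smul, ← mul_assoc]
    push_cast
    rw [mul_inv_cancel₀ (by exact_mod_cast hd0.ne'), one_mul]
  rw [hchart, h2]
  simp_rw [hin]
  rw [integral_const_mul, ← Tb_iter hα hXc hDC (wd d ξ), norm_mul, norm_mul, norm_mul, hc0,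
    Complex.norm_exp_ofReal_mul_I, Complex.norm_real, Real.norm_of_nonneg hd0.le]
  ring

end Pool.Agent.LQ
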