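import Pool.Agent.LQ.CH
import Pool.Agent.LQ.N

/-!
[LEAFQ] row RE.
-/

set_option autoImplicit false

namespace Pool.Agent.LQ

/-- A chord, to second order. -/
theorem ch_exp {α κ P S S' t y t' y' : ℝ} (hα : α ≠ 0) (hS : 1 / 8 ≤ S) (hS' : 1 / 8 ≤ S')
    (hS3 : S ≤ 3) (hP : 0 ≤ P) (hd : |S - S'| ≤ P * nn t y t' y') (hy : |y| ≤ 3) :
    |((t - t') + κ * (y ^ 2 - y' ^ 2)) / (α * (S + S')) -
        (1 / (2 * α * S) * (t - t') + κ * y / (α * S) * (y - y'))| ≤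
      16 * (P + 6 * |κ| * (1 + P)) / |α| * nn t y t' y' ^ 2 := by
  have hα' : 0 < |α| := abs_pos.2 hα
  have hS0 : 0 < S := by linarith
  have hS0' : 0 < S' := by linarith
  have e : ((t - t') + κ * (y ^ 2 - y' ^ 2)) / (α * (S + S')) -
        (1 / (2 * α * S) * (t - t') + κ * y / (α * S) * (y - y')) =
      ((S - S') * (t - t') + 2 * κ * (y - y') * (-(S * (y - y')) + y * (S - S'))) /
        (2 * α * S * (S + S')) := by
    field_simp
    ring
  rw [e]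
  have hn : 0 ≤ nn t y t' y' := by unfold nn; positivity
  have ht : |t - t'| ≤ nn t y t' y' := by unfold nn; linarith [abs_nonneg (y - y')]
  have hy2 : |y - y'| ≤ nn t y t' y' := by unfold nn; linarith [abs_nonneg (t - t')]
  generalize nn t y t' y' = n at *
  have hnum : |(S - S') * (t - t') + 2 * κ * (y - y') * (-(S * (y - y')) + y * (S - S'))| ≤
      (P + 6 * |κ| * (1 + P)) * n ^ 2 := by
    have k1 : |(S - S') * (t - t')| ≤ P * n * n := by
      rw [abs_mul]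
      gcongr
    have k2 : |(-(S * (y - y')) + y * (S - S'))| ≤ 3 * n + 3 * (P * n) := by
      refine (abs_add_le _ _).trans ?_
      rw [abs_neg, abs_mul, abs_mul, abs_of_pos hS0]
      gcongr
    have k3 : |2 * κ * (y - y') * (-(S * (y - y')) + y * (S - S'))| ≤
        2 * |κ| * n * (3 * n + 3 * (P * n)) := by
      rw [abs_mul, abs_mul, abs_mul]
      have : |(2 : ℝ)| = 2 := by norm_num
      rw [this]
      gcongr
    refine (abs_add_le _ _).trans ?_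
    calc _ ≤ P * n * n + 2 * |κ| * n * (3 * n + 3 * (P * n)) := by linarith
      _ = _ := by ring
  rw [abs_div, div_le_iff₀ (by positivity)]
  refine hnum.trans ?_
  have hden : |α| / 16 ≤ |2 * α * S * (S + S')| := by
    rw [abs_mul, abs_mul, abs_mul, abs_of_pos hS0, abs_of_pos (by linarith : 0 < S + S')]
    have : |(2 : ℝ)| = 2 := by norm_num
    rw [this]
    calc |α| / 16 = 2 * |α| * (1 / 8) * (1 / 4) := by ring
      _ ≤ 2 * |α| * S * (S + S') := by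
        gcongr
        linarith
  have hA : 0 ≤ P + 6 * |κ| * (1 + P) := by positivity
  calc (P + 6 * |κ| * (1 + P)) * n ^ 2 =
      16 * (P + 6 * |κ| * (1 + P)) / |α| * n ^ 2 * (|α| / 16) := by field_simp
    _ ≤ _ := by gcongr

/-- The chords of `A`, `h` to first order. -/
theorem chord {α β : ℝ} (hα : α ≠ 0) : ∃ C : ℝ, 0 < C ∧
    ∀ d, 0 ≤ d → d ≤ 1 → ∀ t y t' y', Rg α β d t y → Rg α β d t' y' →
      |AA α β t y - AA α β t' y'| ≤ C * nn t y t' y' ∧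
      |HH α β d t y - HH α β d t' y'| ≤ C * nn t y t' y' ∧
      |hh α β d t y - hh α β d t' y'| ≤ C * nn t y t' y' ∧
      |1 / (2 * α * AA α β t y) * (t - t') + -(β * y) / (α * AA α β t y) * (y - y')| ≤
        C * nn t y t' y' ∧
      |1 / (2 * α * HH α β d t y) * (t - t') + (α - β) * y / (α * HH α β d t y) * (y - y')| ≤
        C * nn t y t' y' ∧
      |AA α β t y - AA α β t' y' -
        (1 / (2 * α * AA α β t y) * (t - t') + -(β * y) / (α * AA α β t y) * (y - y'))| ≤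
        C * nn t y t' y' ^ 2 ∧
      |hh α β d t y - hh α β d t' y' -
        (1 / (2 * α * HH α β d t y) * (t - t') + (α - β) * y / (α * HH α β d t y) * (y - y'))| ≤
        C * nn t y t' y' ^ 2 := by
  have hα' : 0 < |α| := abs_pos.2 hα
  obtain ⟨P, hP⟩ : ∃ P : ℝ, P = 24 * (1 + |α| + |β|) / |α| := ⟨_, rfl⟩
  have hP0 : 0 < P := by rw [hP]; positivity
  refine ⟨P + 16 * (P + 6 * |β| * (1 + P)) / |α| + 16 * (P + 6 * |α - β| * (1 + P)) / |α|,
    by positivity, ?_⟩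
  intro d hd0 hd t y t' y' h h'
  obtain ⟨a1, a2, a3, a4, a5, -, -⟩ := rg_bd hα h
  obtain ⟨b1, b2, b3, b4, b5, -, -⟩ := rg_bd hα h'
  obtain ⟨e1, e2, e3⟩ := dif_le hα hd0 hd h h'
  obtain ⟨f1, f2, f3⟩ := dif hα h h'
  obtain ⟨g1, g2, g3, g4, -⟩ := gm_cf hα h
  rw [← hP] at g1 g2 g3 g4
  have hn : 0 ≤ nn t y t' y' := by unfold nn; positivity
  have hy2 : |y ^ 2 - y' ^ 2| ≤ 6 * |y - y'| := by
    have e : y ^ 2 - y' ^ 2 = (y + y') * (y - y') := by ring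
    rw [e, abs_mul]
    have : |y + y'| ≤ 6 := (abs_add_le _ _).trans (by linarith)
    gcongr
  have hN : 4 * (1 + |α| + |β|) / |α| * (|t - t'| + |y ^ 2 - y' ^ 2|) ≤ P * nn t y t' y' := by
    have : |t - t'| + |y ^ 2 - y' ^ 2| ≤ 6 * nn t y t' y' := by
      unfold nn
      linarith [abs_nonneg (t - t')]
    calc _ ≤ 4 * (1 + |α| + |β|) / |α| * (6 * nn t y t' y') := by gcongr
      _ = _ := by rw [hP]; ring
  have h1 := e1.trans hN
  have h2 := e2.trans hN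
  have h3 := e3.trans hN
  have lin : ∀ a b : ℝ, |a| ≤ P → |b| ≤ P →
      |a * (t - t') + b * (y - y')| ≤ P * nn t y t' y' := by
    intro a b ha hb
    refine (abs_add_le _ _).trans ?_
    rw [abs_mul, abs_mul]
    unfold nn
    calc |a| * |t - t'| + |b| * |y - y'| ≤ P * |t - t'| + P * |y - y'| := by gcongr
      _ = _ := by ring
  obtain ⟨S1, hS1⟩ : ∃ S1 : ℝ, S1 = 16 * (P + 6 * |β| * (1 + P)) / |α| := ⟨_, rfl⟩
  obtain ⟨S2, hS2⟩ : ∃ S2 : ℝ, S2 = 16 * (P + 6 * |α - β| * (1 + P)) / |α| := ⟨_, rfl⟩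
  have hS10 : 0 ≤ S1 := by rw [hS1]; positivity
  have hS20 : 0 ≤ S2 := by rw [hS2]; positivity
  rw [← hS1, ← hS2]
  have up : P * nn t y t' y' ≤ (P + S1 + S2) * nn t y t' y' := by
    have : 0 ≤ (S1 + S2) * nn t y t' y' := by positivity
    linarith
  refine ⟨h1.trans up, h2.trans up, h3.trans up, (lin _ _ g1 g2).trans up,
    (lin _ _ g3 g4).trans up, ?_, ?_⟩
  · have k := ch_exp (κ := -β) hα a1 b1 a2 hP0.le h1 a5
    rw [abs_neg, ← hS1] at k
    have e : (t - t') + -β * (y ^ 2 - y' ^ 2) = (t - t') - β * (y ^ 2 - y' ^ 2) := by ring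
    rw [e, ← f1, neg_mul] at k
    refine k.trans ?_
    have : 0 ≤ (P + S2) * nn t y t' y' ^ 2 := by positivity
    linarith
  · have k := ch_exp (κ := α - β) (P := P) hα (by linarith : 1 / 8 ≤ HH α β d t y)
      (by linarith : 1 / 8 ≤ HH α β d t' y') (by linarith) hP0.le h2 a5
    rw [← hS2, ← f3] at k
    refine k.trans ?_
    have : 0 ≤ (P + S1) * nn t y t' y' ^ 2 := by positivity
    linarith

/-- `B` of two chords. -/
theorem BB_exp {α β : ℝ} (hα : α ≠ 0) : ∃ C : ℝ, 0 < C ∧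
    ∀ d, 0 ≤ d → d ≤ 1 → ∀ t y t' y' t'' y'', Rg α β d t y → Rg α β d t' y' →
      Rg α β d t'' y'' →
      |BB α β d t y t' y' t'' y'' - pg (gm1 α β d t y) (gm2 α β d t y) (gm3 α β d t y)
          (t - t') (y - y') (t - t'') (y - y'')| ≤
        C * (nn t y t' y' * nn t y t'' y'') * (nn t y t' y' + nn t y t'' y'') := by
  obtain ⟨C, hC, H⟩ := chord (β := β) hα
  refine ⟨2 * C ^ 2, by positivity, ?_⟩
  intro d hd0 hd t y t' y' t'' y'' h h' h''
  obtain ⟨p1, -, p3, p4, p5, p6, p7⟩ := H d hd0 hd t y t' y' h h'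
  obtain ⟨q1, -, q3, q4, q5, q6, q7⟩ := H d hd0 hd t y t'' y'' h h''
  rw [pg_gm]
  unfold BB
  have hn : 0 ≤ nn t y t' y' := by unfold nn; positivity
  have hn' : 0 ≤ nn t y t'' y'' := by unfold nn; positivity
  generalize nn t y t' y' = n at *
  generalize nn t y t'' y'' = m at *
  generalize AA α β t y - AA α β t' y' = x at *
  generalize AA α β t y - AA α β t'' y'' = z at *
  generalize hh α β d t y - hh α β d t' y' = u at *
  generalize hh α β d t y - hh α β d t'' y'' = v at *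
  generalize 1 / (2 * α * AA α β t y) * (t - t') + -(β * y) / (α * AA α β t y) * (y - y') = x0 at *
  generalize 1 / (2 * α * AA α β t y) * (t - t'') + -(β * y) / (α * AA α β t y) * (y - y'') = z0
    at *
  generalize 1 / (2 * α * HH α β d t y) * (t - t') + (α - β) * y / (α * HH α β d t y) * (y - y') =
    u0 at *
  generalize 1 / (2 * α * HH α β d t y) * (t - t'') + (α - β) * y / (α * HH α β d t y) *
    (y - y'') = v0 at *
  have hd2 : d ^ 2 ≤ 1 := by nlinarith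
  have hd20 : 0 ≤ d ^ 2 := sq_nonneg d
  have prod : ∀ a b a0 b0 : ℝ, |b| ≤ C * m → |a0| ≤ C * n → |a - a0| ≤ C * n ^ 2 →
      |b - b0| ≤ C * m ^ 2 → |a * b - a0 * b0| ≤ C ^ 2 * (n * m) * (n + m) := by
    intro a b a0 b0 k1 k2 k3 k4
    have e : a * b - a0 * b0 = (a - a0) * b + a0 * (b - b0) := by ring
    rw [e]
    refine (abs_add_le _ _).trans ?_
    rw [abs_mul, abs_mul]
    calc |a - a0| * |b| + |a0| * |b - b0| ≤ C * n ^ 2 * (C * m) + C * n * (C * m ^ 2) := by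
          gcongr
      _ = _ := by ring
  have k1 := prod x z x0 z0 q1 p4 p6 q6
  have k2 := prod u v u0 v0 q3 p5 p7 q7
  have e : x * z + (y - y') * (y - y'') + d ^ 2 * (u * v) -
      (x0 * z0 + (y - y') * (y - y'') + d ^ 2 * (u0 * v0)) =
      (x * z - x0 * z0) + d ^ 2 * (u * v - u0 * v0) := by ring
  rw [e]
  refine (abs_add_le _ _).trans ?_
  rw [abs_mul, abs_of_nonneg hd20]
  have k3 : d ^ 2 * |u * v - u0 * v0| ≤ 1 * (C ^ 2 * (n * m) * (n + m)) := by gcongr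
  linarith

/-- The kernel vector is bounded below. -/
theorem ker_ge {α β : ℝ} (hα : α ≠ 0) (hβ : β ≠ 0) (hαβ : α ≠ β) : ∃ q : ℝ, 0 < q ∧
    ∀ d, 0 ≤ d → d ≤ 1 → ∀ t y w1 w2 w3 ε, Rg α β d t y → 1 / 16 ≤ w1 ^ 2 + w2 ^ 2 + w3 ^ 2 →
      |Uw α β d w1 w2 w3 t y| ≤ ε → ε ≤ q →
      q * (|lw α β d w1 w3 t y| + |y|) ≤
        |lw α β d w1 w3 t y| + |y * mw α β d w1 w3 t y| := by
  obtain ⟨c, hc, H⟩ := row_N (α := α) hα hβ hαβ
  obtain ⟨c', hc', H'⟩ := row_N2 (β := β) hα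
  refine ⟨min (c * c' / 6) (min c' (1 / 2)), by positivity, ?_⟩
  intro d hd0 hd t y w1 w2 w3 ε h hw hu hε
  have k1 := H d hd0 hd t y w1 w3 h
  have k2 := H' d hd0 hd t y w1 w2 w3 h hw (hu.trans (hε.trans ((min_le_right _ _).trans
    (min_le_left _ _))))
  have q1 : min (c * c' / 6) (min c' (1 / 2)) ≤ c * c' / 6 := min_le_left _ _
  have q2 : min (c * c' / 6) (min c' (1 / 2)) ≤ 1 / 2 :=
    (min_le_right _ _).trans (min_le_right _ _)
  have hy := h.1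
  have hy0 := abs_nonneg y
  rw [abs_mul]
  have hl := abs_nonneg (lw α β d w1 w3 t y)
  have hm := abs_nonneg (mw α β d w1 w3 t y)
  generalize |lw α β d w1 w3 t y| = l at *
  generalize |mw α β d w1 w3 t y| = m at *
  generalize |y| = v at *
  generalize min (c * c' / 6) (min c' (1 / 2)) = q at *
  have h1 : c * c' ≤ l + m := (mul_le_mul_of_nonneg_left k2 hc.le).trans k1
  have h2 : q * l ≤ 1 / 2 * l := by gcongr
  have h3 : q * v ≤ c * c' / 6 * v := by gcongr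
  have h4 : v / 6 * (c * c') ≤ v / 6 * (l + m) := by gcongr
  have h5 : v / 6 * l ≤ 1 / 2 * l := by
    have : v / 6 ≤ 1 / 2 := by linarith
    gcongr
  have h6 : v / 6 * m ≤ v * m := by
    have : v / 6 ≤ v := by linarith
    gcongr
  nlinarith

/-- The cross product of a chord with the kernel. -/
theorem cross {α β : ℝ} (hα : α ≠ 0) (hβ : β ≠ 0) (hαβ : α ≠ β) : ∀ η : ℝ, 0 < η →
    ∃ M c1 : ℝ, 1 ≤ M ∧ 0 < c1 ∧ c1 ≤ 1 / 8 ∧ ∀ c0, 0 < c0 → c0 ≤ c1 → ∀ d, 0 ≤ d → d ≤ 1 →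
      ∀ t0 y0, Rs α β d t0 y0 → y0 ≠ 0 → ∀ t y t' y', Bx c0 t0 y0 t y → Bx c0 t0 y0 t' y' →
      ∀ w1 w2 w3 ε, 0 ≤ ε → 1 / 16 ≤ w1 ^ 2 + w2 ^ 2 + w3 ^ 2 → w1 ^ 2 + w2 ^ 2 + w3 ^ 2 ≤ 64 →
        |Uw α β d w1 w2 w3 t y| ≤ ε → |Uw α β d w1 w2 w3 t' y'| ≤ ε →
        M * ε ≤ |y0| * nn t y t' y' →
        Rg α β d t y ∧ Rg α β d t' y' ∧ nn t y t' y' ≤ 6 * c0 ∧
        0 < |lw α β d w1 w3 t y| + |(-(y * mw α β d w1 w3 t y))| ∧
        |(t - t') * -(y * mw α β d w1 w3 t y) - (y - y') * lw α β d w1 w3 t y| ≤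
          η * ((|t - t'| + |y - y'|) *
            (|lw α β d w1 w3 t y| + |(-(y * mw α β d w1 w3 t y))|)) := by
  intro η hη
  obtain ⟨C, cb, hC, hcb, H⟩ := row_CH (β := β) hα
  obtain ⟨q, hq, K⟩ := ker_ge hα hβ hαβ
  obtain ⟨ca, ha1, ha2, hb⟩ := box_sub (β := β) hα
  obtain ⟨M, hM⟩ : ∃ M : ℝ, M = max 1 (8 / (q * η)) := ⟨_, rfl⟩
  have hM1 : 1 ≤ M := by rw [hM]; exact le_max_left _ _
  have hM2 : 8 / (q * η) ≤ M := by rw [hM]; exact le_max_right _ _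
  refine ⟨M, min (min ca cb) (min (q / 12) (q * η / (4 * C))), hM1, by positivity,
    ((min_le_left _ _).trans (min_le_left _ _)).trans ha2, ?_⟩
  intro c0 hc0 hc1 d hd0 hd t0 y0 hs hy0 t y t' y' b b' w1 w2 w3 ε hε hw hw' hu hu' hMε
  have l1 : c0 ≤ ca := hc1.trans ((min_le_left _ _).trans (min_le_left _ _))
  have l2 : c0 ≤ cb := hc1.trans ((min_le_left _ _).trans (min_le_right _ _))
  have l3 : c0 ≤ q / 12 := hc1.trans ((min_le_right _ _).trans (min_le_left _ _))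
  have l4 : c0 ≤ q * η / (4 * C) := hc1.trans ((min_le_right _ _).trans (min_le_right _ _))
  have r1 := hb d hd0 hd t0 y0 t y hs (b.mono l1)
  have r2 := hb d hd0 hd t0 y0 t' y' hs (b'.mono l1)
  obtain ⟨x1, x2, x3, x4, x5, x6⟩ := bx_le (l1.trans ha2) hs.1 b b'
  have hyy : 0 < |y0| := abs_pos.2 hy0
  have hn : 0 ≤ nn t y t' y' := by unfold nn; positivity
  have hεq : ε ≤ q := by
    have h5 : ε ≤ M * ε := le_mul_of_one_le_left hε hM1
    have h6 : |y0| * nn t y t' y' ≤ 2 * (6 * c0) := by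
      have := hs.1
      gcongr
    linarith
  have hk := K d hd0 hd t y w1 w2 w3 ε r1 hw hu hεq
  have hw16 : |w1| + |w3| ≤ 16 := by
    have h5 : |w1| ≤ 8 := abs_le_of_sq_le_sq (by nlinarith [sq_nonneg w2, sq_nonneg w3]) (by norm_num)
    have h6 : |w3| ≤ 8 := abs_le_of_sq_le_sq (by nlinarith [sq_nonneg w2, sq_nonneg w1]) (by norm_num)
    linarith
  have hc := H c0 hc0 l2 d hd0 hd t0 y0 hs hy0 t y t' y' b b' w1 w2 w3 ε hw16 hu hu'
  have e1 : |(-(y * mw α β d w1 w3 t y))| = |y * mw α β d w1 w3 t y| := abs_neg _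
  rw [e1]
  have hker : q / 2 * |y0| ≤ |lw α β d w1 w3 t y| + |y * mw α β d w1 w3 t y| := by
    refine le_trans ?_ hk
    have h5 := abs_nonneg (lw α β d w1 w3 t y)
    have h6 : 0 ≤ q * |lw α β d w1 w3 t y| := by positivity
    nlinarith
  have hpos : 0 < |lw α β d w1 w3 t y| + |y * mw α β d w1 w3 t y| :=
    lt_of_lt_of_le (by positivity) hker
  refine ⟨r1, r2, x6, hpos, ?_⟩
  have e2 : (t - t') * -(y * mw α β d w1 w3 t y) - (y - y') * lw α β d w1 w3 t y =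
      -(lw α β d w1 w3 t y * (y - y') + y * mw α β d w1 w3 t y * (t - t')) := by ring
  rw [e2, abs_neg]
  refine hc.trans ?_
  have e3 : |t - t'| + |y - y'| = nn t y t' y' := rfl
  rw [e3]
  generalize |lw α β d w1 w3 t y| + |y * mw α β d w1 w3 t y| = k at *
  generalize nn t y t' y' = n at *
  have s1 : C * c0 * |y0| * n ≤ q * η / 4 * |y0| * n := by
    have : C * c0 ≤ q * η / 4 := by
      calc C * c0 ≤ C * (q * η / (4 * C)) := by gcongr
        _ = _ := by field_simp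
    gcongr
  have s2 : 2 * ε ≤ q * η / 4 * |y0| * n := by
    have h5 : 8 / (q * η) * ε ≤ |y0| * n := by
      refine le_trans ?_ hMε
      gcongr
    have h6 : q * η / 4 * (8 / (q * η) * ε) ≤ q * η / 4 * (|y0| * n) := by gcongr
    have h7 : q * η / 4 * (8 / (q * η) * ε) = 2 * ε := by field_simp; ring
    linarith
  have s3 : η * (n * (q / 2 * |y0|)) ≤ η * (n * k) := by gcongr
  calc C * c0 * |y0| * n + 2 * ε ≤ q * η / 4 * |y0| * n + q * η / 4 * |y0| * n := by linarith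
    _ = η * (n * (q / 2 * |y0|)) := by ring
    _ ≤ _ := s3

theorem row_RE {α β : ℝ} (hα : α ≠ 0) (hβ : β ≠ 0) (hαβ : α ≠ β) : ∃ c M c1 : ℝ, 0 < c ∧ 1 ≤ M ∧
    0 < c1 ∧ ∀ c0, 0 < c0 → c0 ≤ c1 → ∀ d, 0 ≤ d → d ≤ 1 → ∀ t0 y0, Rs α β d t0 y0 → y0 ≠ 0 →
      ∀ t y t' y' t'' y'', Bx c0 t0 y0 t y → Bx c0 t0 y0 t' y' → Bx c0 t0 y0 t'' y'' →
      ∀ w1 w2 w3 ε, 0 ≤ ε → 1 / 16 ≤ w1 ^ 2 + w2 ^ 2 + w3 ^ 2 → w1 ^ 2 + w2 ^ 2 + w3 ^ 2 ≤ 64 →
        |Uw α β d w1 w2 w3 t y| ≤ ε → |Uw α β d w1 w2 w3 t' y'| ≤ ε →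
        |Uw α β d w1 w2 w3 t'' y''| ≤ ε → M * ε ≤ |y0| * nn t y t' y' →
        M * ε ≤ |y0| * nn t y t'' y'' →
        c * (nn t y t' y' * nn t y t'' y'') ≤ |BB α β d t y t' y' t'' y''| := by
  obtain ⟨γ, G, hγ, hG, HG⟩ := gm_bd (β := β) hα
  obtain ⟨C, hC, HB⟩ := BB_exp (β := β) hα
  obtain ⟨η, hη⟩ : ∃ η : ℝ, η = γ / (16 * γ + 96 * G) := ⟨_, rfl⟩
  have hη0 : 0 < η := by rw [hη]; positivity
  have hη1 : η * (16 * γ + 96 * G) ≤ γ := by
    rw [hη]
    have : 0 < 16 * γ + 96 * G := by positivity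
    rw [div_mul_cancel₀ _ this.ne']
  obtain ⟨M, c1, hM, hc1, hc18, HC⟩ := cross hα hβ hαβ η hη0
  refine ⟨γ / 16, M, min c1 (γ / (192 * C)), by positivity, hM, by positivity, ?_⟩
  intro c0 hc0 hc d hd0 hd t0 y0 hs hy0 t y t' y' t'' y'' b b' b'' w1 w2 w3 ε hε hw hw' hu hu'
    hu'' h1 h2
  have l1 : c0 ≤ c1 := hc.trans (min_le_left _ _)
  have l2 : c0 ≤ γ / (192 * C) := hc.trans (min_le_right _ _)
  obtain ⟨r1, r2, n1, k0, k1⟩ := HC c0 hc0 l1 d hd0 hd t0 y0 hs hy0 t y t' y' b b' w1 w2 w3 ε hε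
    hw hw' hu hu' h1
  obtain ⟨-, r3, n2, -, k2⟩ := HC c0 hc0 l1 d hd0 hd t0 y0 hs hy0 t y t'' y'' b b'' w1 w2 w3 ε hε
    hw hw' hu hu'' h2
  obtain ⟨g1, g2, g3, g4⟩ := HG d hd0 hd t y r1
  have hp := pg_par hγ g1 g2 g3 g4 hη0.le hη1 k0 k1 k2
  have hB := HB d hd0 hd t y t' y' t'' y'' r1 r2 r3
  have hn : 0 ≤ nn t y t' y' := by unfold nn; positivity
  have hn' : 0 ≤ nn t y t'' y'' := by unfold nn; positivity
  have e1 : |t - t'| + |y - y'| = nn t y t' y' := rfl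
  have e2 : |t - t''| + |y - y''| = nn t y t'' y'' := rfl
  rw [e1, e2] at hp
  have s1 : C * (nn t y t' y' * nn t y t'' y'') * (nn t y t' y' + nn t y t'' y'') ≤
      γ / 16 * (nn t y t' y' * nn t y t'' y'') := by
    have h5 : nn t y t' y' + nn t y t'' y'' ≤ 12 * c0 := by linarith
    have h6 : C * (12 * c0) ≤ γ / 16 := by
      calc C * (12 * c0) ≤ C * (12 * (γ / (192 * C))) := by gcongr
        _ = _ := by field_simp; ring
    calc C * (nn t y t' y' * nn t y t'' y'') * (nn t y t' y' + nn t y t'' y'') ≤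
        C * (nn t y t' y' * nn t y t'' y'') * (12 * c0) := by gcongr
      _ = C * (12 * c0) * (nn t y t' y' * nn t y t'' y'') := by ring
      _ ≤ _ := by gcongr
  have s2 := abs_sub_abs_le_abs_sub
    (pg (gm1 α β d t y) (gm2 α β d t y) (gm3 α β d t y) (t - t') (y - y') (t - t'') (y - y''))
    (BB α β d t y t' y' t'' y'')
  have s3 := abs_sub_comm
    (pg (gm1 α β d t y) (gm2 α β d t y) (gm3 α β d t y) (t - t') (y - y') (t - t'') (y - y''))
    (BB α β d t y t' y' t'' y'')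
  have e3 : γ / 8 * (nn t y t' y' * nn t y t'' y'') = γ / 16 * (nn t y t' y' * nn t y t'' y'') +
      γ / 16 * (nn t y t' y' * nn t y t'' y'') := by ring
  linarith

end Pool.Agent.LQ
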