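import Pool.Agent.LQ.LIFTQ

/-!
Tails and pointwise decay.
-/

set_option autoImplicit false

namespace Pool.Agent.TQ

open MeasureTheory Set Metric Pool.Agent.MP_6cbfb8_an
open scoped ENNReal Real

theorem norm_extn_le1 {n : ℕ} (g : E n → ℂ) (hb : ∀ x, ‖g x‖ ≤ 1) (ξ : E n) :
    ‖extn g ξ‖ ≤ (sm n).real univ := by
  unfold extn
  have h := norm_integral_le_of_norm_le_const (μ := sm n) (C := 1)
    (f := fun x : S n => g x * Complex.exp (((-(2 * π * inner ℝ (x : E n) ξ) : ℝ) : ℂ) *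
      Complex.I)) (Filter.Eventually.of_forall fun x => by
        rw [norm_mul, Complex.norm_exp_ofReal_mul_I, mul_one]
        exact hb _)
  rwa [one_mul] at h

theorem norm_exp_sub_le (a b : ℝ) :
    ‖Complex.exp ((a : ℂ) * Complex.I) - Complex.exp ((b : ℂ) * Complex.I)‖ ≤ |a - b| := by
  have e : Complex.exp ((a : ℂ) * Complex.I) - Complex.exp ((b : ℂ) * Complex.I) =
      Complex.exp ((b : ℂ) * Complex.I) * (Complex.exp (Complex.I * ((a - b : ℝ) : ℂ)) - 1) := by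
    rw [mul_sub, mul_one, ← Complex.exp_add]
    congr 2
    push_cast
    ring
  rw [e, norm_mul, Complex.norm_exp_ofReal_mul_I, one_mul]
  exact Real.norm_exp_I_mul_ofReal_sub_one_le

theorem extn_lip {n : ℕ} (g : E n → ℂ) (hg : Measurable g) (hb : ∀ x, ‖g x‖ ≤ 1) (ξ ξ' : E n) :
    ‖extn g ξ - extn g ξ'‖ ≤ 2 * π * (sm n).real univ * ‖ξ - ξ'‖ := by
  have hi : ∀ ζ : E n, Integrable (fun x : S n => g x * Complex.exp
      (((-(2 * π * inner ℝ (x : E n) ζ) : ℝ) : ℂ) * Complex.I)) (sm n) := by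
    intro ζ
    have hm : Measurable fun x : S n => g x * Complex.exp
        (((-(2 * π * inner ℝ (x : E n) ζ) : ℝ) : ℂ) * Complex.I) := by
      have h2 : Measurable fun x : S n => g (x : E n) := hg.comp measurable_subtype_coe
      have h3 : Measurable fun x : S n => (inner ℝ (x : E n) ζ : ℝ) := by
        have h4 : Measurable fun x : S n => (x : E n) := measurable_subtype_coe
        exact h4.inner measurable_const
      exact h2.mul (by fun_prop)
    refine Integrable.of_bound hm.aestronglyMeasurable 1 (Filter.Eventually.of_forall fun x => ?_)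
    rw [norm_mul, Complex.norm_exp_ofReal_mul_I, mul_one]
    exact hb _
  unfold extn
  rw [← integral_sub (hi ξ) (hi ξ')]
  have h := norm_integral_le_of_norm_le_const (μ := sm n) (C := 2 * π * ‖ξ - ξ'‖)
    (f := fun x : S n => g x * Complex.exp (((-(2 * π * inner ℝ (x : E n) ξ) : ℝ) : ℂ) *
      Complex.I) - g x * Complex.exp (((-(2 * π * inner ℝ (x : E n) ξ') : ℝ) : ℂ) *
      Complex.I)) (Filter.Eventually.of_forall fun x => by
        rw [← mul_sub, norm_mul]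
        have hx : ‖(x : E n)‖ = 1 := by simp
        have h1 := norm_exp_sub_le (-(2 * π * inner ℝ (x : E n) ξ)) (-(2 * π * inner ℝ (x : E n) ξ'))
        have h2 : |(-(2 * π * inner ℝ (x : E n) ξ)) - (-(2 * π * inner ℝ (x : E n) ξ'))| =
            2 * π * |inner ℝ (x : E n) (ξ - ξ')| := by
          rw [inner_sub_right]
          rw [show (-(2 * π * inner ℝ (x : E n) ξ)) - (-(2 * π * inner ℝ (x : E n) ξ')) =
            -(2 * π * (inner ℝ (x : E n) ξ - inner ℝ (x : E n) ξ')) by ring, abs_neg, abs_mul,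
            abs_of_pos (by positivity : (0 : ℝ) < 2 * π)]
        have h3 : |inner ℝ (x : E n) (ξ - ξ')| ≤ ‖ξ - ξ'‖ := by
          have := abs_real_inner_le_norm (x : E n) (ξ - ξ')
          rwa [hx, one_mul] at this
        calc ‖g x‖ * _ ≤ 1 * (2 * π * ‖ξ - ξ'‖) := by
              refine mul_le_mul (hb _) ?_ (norm_nonneg _) zero_le_one
              rw [h2] at h1
              exact h1.trans (mul_le_mul_of_nonneg_left h3 (by positivity))
          _ = _ := one_mul _)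
  calc _ ≤ _ := h
    _ = _ := by ring

/-- From tails to pointwise decay. -/
theorem pd_of_tail (n : ℕ) {p C η : ℝ} (hp : 0 < p) (hη : 0 < η) :
    ∃ A δ : ℝ, 0 ≤ A ∧ 0 < δ ∧ ∀ g : E n → ℂ, Measurable g → (∀ x, ‖g x‖ ≤ 1) →
      (∀ R : ℝ, 1 ≤ R → ∫⁻ ξ in {ξ : E n | R ≤ ‖ξ‖}, ‖extn g ξ‖ₑ ^ p ≤
        ENNReal.ofReal (C * R ^ (-η))) → ∀ ξ, 1 ≤ ‖ξ‖ → ‖extn g ξ‖ ≤ A * ‖ξ‖ ^ (-δ) := by
  set L : ℝ := 2 * π * (sm n).real univ + (sm n).real univ + 1 with hL
  have hS0 : 0 ≤ (sm n).real univ := measureReal_nonneg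
  have hpi := Real.pi_pos
  have hL1 : 1 ≤ L := by
    have : 0 ≤ 2 * π * (sm n).real univ := by positivity
    linarith
  have hL0 : 0 < L := by linarith
  set vn : ℝ := (volume (ball (0 : E n) 1)).toReal with hvn
  have hvn0 : 0 < vn := ENNReal.toReal_pos (measure_ball_pos _ _ one_pos).ne'
    measure_ball_lt_top.ne
  have hpn : 0 < p + n := by positivity
  set δ : ℝ := η / (p + n) with hδ
  have hδ0 : 0 < δ := div_pos hη hpn
  set K : ℝ := |C| * 2 ^ η * 2 ^ p * (2 * L) ^ (n : ℝ) / vn with hK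
  have hK0 : 0 ≤ K := by positivity
  refine ⟨K ^ (1 / (p + n)) + L * 2 ^ δ, δ, by positivity, hδ0, fun g hg hb hR ξ hξ => ?_⟩
  have hξ0 : 0 < ‖ξ‖ := by linarith
  set a : ℝ := ‖extn g ξ‖ with ha
  have ha0 : 0 ≤ a := norm_nonneg _
  have haS : a ≤ (sm n).real univ := norm_extn_le1 g hb ξ
  have haL : a ≤ L := by
    have : 0 ≤ 2 * π * (sm n).real univ := by positivity
    linarith
  by_cases h2 : ‖ξ‖ < 2
  · have h3 : 1 ≤ 2 ^ δ * ‖ξ‖ ^ (-δ) := by
      rw [Real.rpow_neg hξ0.le, ← div_eq_mul_inv, one_le_div (by positivity)]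
      exact Real.rpow_le_rpow hξ0.le h2.le hδ0.le
    have h4 : 0 ≤ K ^ (1 / (p + n)) * ‖ξ‖ ^ (-δ) := by positivity
    calc a ≤ L * 1 := by linarith
      _ ≤ L * (2 ^ δ * ‖ξ‖ ^ (-δ)) := mul_le_mul_of_nonneg_left h3 hL0.le
      _ ≤ (K ^ (1 / (p + n)) + L * 2 ^ δ) * ‖ξ‖ ^ (-δ) := by linarith
  · push Not at h2
    rcases ha0.eq_or_lt with h0 | h0
    · rw [← h0]
      positivity
    set r : ℝ := a / (2 * L) with hr
    have hr0 : 0 < r := by positivity
    have hr1 : r ≤ 1 / 2 := by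
      rw [hr, div_le_div_iff₀ (by positivity) two_pos]
      linarith
    have hball : ∀ ζ ∈ ball ξ r, a / 2 ≤ ‖extn g ζ‖ := by
      intro ζ hζ
      have h5 := extn_lip g hg hb ξ ζ
      have h6 : ‖ξ - ζ‖ < r := by
        rw [norm_sub_rev]
        exact mem_ball_iff_norm.1 hζ
      have h7 : 2 * π * (sm n).real univ * ‖ξ - ζ‖ ≤ L * r := by
        refine mul_le_mul ?_ h6.le (norm_nonneg _) hL0.le
        linarith
      have h8 : L * r = a / 2 := by
        rw [hr]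
        field_simp
      have h9 : ‖extn g ξ‖ - ‖extn g ζ‖ ≤ ‖extn g ξ - extn g ζ‖ := norm_sub_norm_le _ _
      linarith
    have hsub : ball ξ r ⊆ {ζ : E n | ‖ξ‖ / 2 ≤ ‖ζ‖} := by
      intro ζ hζ
      have h6 : ‖ξ - ζ‖ < r := by
        rw [norm_sub_rev]
        exact mem_ball_iff_norm.1 hζ
      have h7 : ‖ξ‖ - ‖ζ‖ ≤ ‖ξ - ζ‖ := norm_sub_norm_le _ _
      change ‖ξ‖ / 2 ≤ ‖ζ‖
      linarith
    have h10 := hR (‖ξ‖ / 2) (by linarith)
    have h11 : ENNReal.ofReal (a / 2) ^ p * volume (ball ξ r) ≤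
        ENNReal.ofReal (C * (‖ξ‖ / 2) ^ (-η)) := by
      refine le_trans ?_ h10
      calc ENNReal.ofReal (a / 2) ^ p * volume (ball ξ r)
          = ∫⁻ ζ in ball ξ r, ENNReal.ofReal (a / 2) ^ p := by
            rw [setLIntegral_const]
        _ ≤ ∫⁻ ζ in ball ξ r, ‖extn g ζ‖ₑ ^ p := by
            refine setLIntegral_mono' measurableSet_ball fun ζ hζ => ?_
            refine ENNReal.rpow_le_rpow ?_ hp.le
            rw [← ofReal_norm]
            exact ENNReal.ofReal_le_ofReal (hball ζ hζ)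
        _ ≤ _ := lintegral_mono_set hsub
    have hvol : volume (ball ξ r) = ENNReal.ofReal (r ^ (n : ℝ) * vn) := by
      rw [Measure.addHaar_ball_of_pos _ _ hr0, hvn, ENNReal.ofReal_mul (by positivity),
        ENNReal.ofReal_toReal measure_ball_lt_top.ne, Real.rpow_natCast]
      simp
    rw [hvol, ENNReal.ofReal_rpow_of_pos (by positivity), ← ENNReal.ofReal_mul (by positivity)] at h11
    have h12 : (a / 2) ^ p * (r ^ (n : ℝ) * vn) ≤ |C| * (‖ξ‖ / 2) ^ (-η) := by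
      have hpos : 0 ≤ |C| * (‖ξ‖ / 2) ^ (-η) := by positivity
      refine (ENNReal.ofReal_le_ofReal_iff hpos).1 (h11.trans (ENNReal.ofReal_le_ofReal ?_))
      exact mul_le_mul_of_nonneg_right (le_abs_self _) (by positivity)
    have h13 : a ^ (p + n) ≤ K * ‖ξ‖ ^ (-η) := by
      have e1 : (a / 2) ^ p * (r ^ (n : ℝ) * vn) =
          a ^ (p + n) * (vn / (2 ^ p * (2 * L) ^ (n : ℝ))) := by
        rw [hr, Real.div_rpow ha0 two_pos.le, Real.div_rpow ha0 (by positivity),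
          Real.rpow_add h0]
        field_simp
      have e2 : |C| * (‖ξ‖ / 2) ^ (-η) = |C| * 2 ^ η * ‖ξ‖ ^ (-η) := by
        rw [Real.div_rpow hξ0.le two_pos.le, Real.rpow_neg two_pos.le η, div_inv_eq_mul]
        ring
      rw [e1, e2] at h12
      have hD : 0 < vn / (2 ^ p * (2 * L) ^ (n : ℝ)) := by positivity
      have h14 := (le_div_iff₀ hD).2 h12
      refine h14.trans (le_of_eq ?_)
      rw [hK]
      field_simp
    have h15 : a ≤ (K * ‖ξ‖ ^ (-η)) ^ (1 / (p + n)) := by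
      have h16 := Real.rpow_le_rpow (by positivity) h13 (z := 1 / (p + n)) (by positivity)
      rwa [← Real.rpow_mul ha0, mul_one_div_cancel hpn.ne', Real.rpow_one] at h16
    have h17 : (K * ‖ξ‖ ^ (-η)) ^ (1 / (p + n)) = K ^ (1 / (p + n)) * ‖ξ‖ ^ (-δ) := by
      rw [Real.mul_rpow hK0 (by positivity), ← Real.rpow_mul hξ0.le]
      congr 2
      rw [hδ]
      ring
    rw [h17] at h15
    have h18 : 0 ≤ L * 2 ^ δ * ‖ξ‖ ^ (-δ) := by positivity
    calc a ≤ _ := h15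
      _ ≤ _ := by
        rw [add_mul]
        linarith

/-- From pointwise decay and the bound at a smaller exponent to tails. -/
theorem tail_of_pd {n : ℕ} {p p' δ A : ℝ} (hp' : 0 < p') (hpp : p' < p) (hδ : 0 < δ) (hA : 0 ≤ A)
    {C' : ℝ≥0∞} (hC' : C' ≠ ∞) :
    ∃ C η : ℝ, 0 < η ∧ ∀ g : E n → ℂ, (∀ ξ, 1 ≤ ‖ξ‖ → ‖extn g ξ‖ ≤ A * ‖ξ‖ ^ (-δ)) →
      (∫⁻ ξ, ‖extn g ξ‖ₑ ^ p' ≤ C') → ∀ R : ℝ, 1 ≤ R →
      ∫⁻ ξ in {ξ : E n | R ≤ ‖ξ‖}, ‖extn g ξ‖ₑ ^ p ≤ ENNReal.ofReal (C * R ^ (-η)) := by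
  have hd : 0 < p - p' := by linarith
  refine ⟨A ^ (p - p') * C'.toReal, δ * (p - p'), mul_pos hδ hd, fun g hg hF R hR => ?_⟩
  have hR0 : 0 < R := by linarith
  have hms : MeasurableSet {ξ : E n | R ≤ ‖ξ‖} := measurableSet_le measurable_const measurable_norm
  have e : A ^ (p - p') * C'.toReal * R ^ (-(δ * (p - p'))) =
      (A * R ^ (-δ)) ^ (p - p') * C'.toReal := by
    rw [Real.mul_rpow hA (by positivity), ← Real.rpow_mul hR0.le]
    rw [show -δ * (p - p') = -(δ * (p - p')) by ring]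
    ring
  rw [e, ENNReal.ofReal_mul (by positivity), ENNReal.ofReal_toReal hC']
  calc ∫⁻ ξ in {ξ : E n | R ≤ ‖ξ‖}, ‖extn g ξ‖ₑ ^ p
      ≤ ∫⁻ ξ in {ξ : E n | R ≤ ‖ξ‖}, ENNReal.ofReal ((A * R ^ (-δ)) ^ (p - p')) *
          ‖extn g ξ‖ₑ ^ p' := by
        refine setLIntegral_mono' hms fun ξ hξ => ?_
        have hξ1 : 1 ≤ ‖ξ‖ := hR.trans hξ
        have h1 : ‖extn g ξ‖ ≤ A * R ^ (-δ) := by
          refine (hg ξ hξ1).trans (mul_le_mul_of_nonneg_left ?_ hA)
          exact Real.rpow_le_rpow_of_nonpos hR0 hξ (by linarith)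
        have h2 : ‖extn g ξ‖ₑ ^ p = ‖extn g ξ‖ₑ ^ (p - p') * ‖extn g ξ‖ₑ ^ p' := by
          rw [← ENNReal.rpow_add_of_nonneg _ _ hd.le hp'.le]
          congr 1
          ring
        rw [h2]
        refine mul_le_mul_left ?_ _
        rw [← ofReal_norm, ENNReal.ofReal_rpow_of_nonneg (norm_nonneg _) hd.le]
        exact ENNReal.ofReal_le_ofReal (Real.rpow_le_rpow (norm_nonneg _) h1 hd.le)
    _ ≤ ∫⁻ ξ, ENNReal.ofReal ((A * R ^ (-δ)) ^ (p - p')) * ‖extn g ξ‖ₑ ^ p' :=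
        setLIntegral_le_lintegral _ _
    _ = ENNReal.ofReal ((A * R ^ (-δ)) ^ (p - p')) * ∫⁻ ξ, ‖extn g ξ‖ₑ ^ p' :=
        lintegral_const_mul' _ _ ENNReal.ofReal_ne_top
    _ ≤ _ := mul_le_mul_right hF _

end Pool.Agent.TQ
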