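import Pool.Agent.LQ.TQ1
import Pool.Agent.LQ.LIFTQ2
import Pool.Agent.HSL.H

/-!
Tails for the functions of a quadratic form with repeated eigenvalues.
-/

set_option autoImplicit false

namespace Pool.Agent.TQ

open MeasureTheory Set Metric Pool.Agent.MP_6cbfb8_an Pool.Agent.LQ
open scoped ENNReal Real

/-- Tails for the functions of the form. -/
def Tail (n : ℕ) (b : Fin n → ℝ) : Prop :=
  ∀ p : ℝ, 2 * (n : ℝ) / (n - 1) < p → ∃ C η : ℝ, 0 < η ∧ ∀ F : ℝ → ℂ, Measurable F →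
    (∀ t, ‖F t‖ ≤ 1) → ∀ R : ℝ, 1 ≤ R →
      ∫⁻ ξ in {ξ : E n | R ≤ ‖ξ‖}, ‖extn (qf b F) ξ‖ₑ ^ p ≤ ENNReal.ofReal (C * R ^ (-η))

theorem norm_extn_leS {n : ℕ} (g : E n → ℂ) (hb : ∀ x, ‖x‖ = 1 → ‖g x‖ ≤ 1) (ξ : E n) :
    ‖extn g ξ‖ ≤ (sm n).real univ := by
  unfold extn
  have h := norm_integral_le_of_norm_le_const (μ := sm n) (C := 1)
    (f := fun x : S n => g x * Complex.exp (((-(2 * π * inner ℝ (x : E n) ξ) : ℝ) : ℂ) *
      Complex.I)) (Filter.Eventually.of_forall fun x => by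
        rw [norm_mul, Complex.norm_exp_ofReal_mul_I, mul_one]
        exact hb _ (by simp))
  rwa [one_mul] at h

/-- Pointwise decay on the half space. -/
theorem pd_tpow {k : ℕ} (hk : 2 ≤ k) {b : Fin (k + 1) → ℝ} (h : Tail (k + 1) b) :
    ∃ A δ : ℝ, 0 ≤ A ∧ 0 < δ ∧ ∀ F : ℝ → ℂ, Measurable F → (∀ t, ‖F t‖ ≤ 1) →
      ∀ ξ, 1 ≤ ‖ξ‖ → ‖extn (tpow 1 (qf b F)) ξ‖ ≤ A * ‖ξ‖ ^ (-δ) := by
  have hk' : (3 : ℝ) ≤ ((k + 1 : ℕ) : ℝ) := by exact_mod_cast (by omega : 3 ≤ k + 1)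
  obtain ⟨p, hp⟩ : ∃ p : ℝ, 2 * ((k + 1 : ℕ) : ℝ) / (((k + 1 : ℕ) : ℝ) - 1) < p := exists_gt _
  have hp1 : 1 < p := by
    refine lt_of_le_of_lt ?_ hp
    rw [le_div_iff₀ (by linarith)]
    linarith
  obtain ⟨C, η, hη, hT⟩ := h p hp
  obtain ⟨C', η', hη', hH⟩ := HSL.halfspaces (k + 1) 1 (C := C) hp1 hη
  obtain ⟨A, δ, hA, hδ, hP⟩ := pd_of_tail (k + 1) (C := C') (by linarith : 0 < p) hη'
  refine ⟨(powν 0).real univ * A, δ, by positivity, hδ, fun F hF hF1 ξ hξ => ?_⟩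
  have hQ : Measurable fun x : E (k + 1) => ∑ i, b i * x i ^ 2 := by
    have : Continuous fun x : E (k + 1) => ∑ i, b i * x i ^ 2 := by fun_prop
    exact this.measurable
  have hqm := measurable_qf b hF
  have he1 : ‖eLast k‖ = 1 := DecayAux.norm_join_zero_one
  -- the cut functions
  have hcut : ∀ c : ℝ, ‖extn (fun x => qf b F x * hsn c (eLast k) x) ξ‖ ≤ A * ‖ξ‖ ^ (-δ) := by
    intro c
    have hc := hH (T := ℝ) (fun x : E (k + 1) => ∑ i, b i * x i ^ 2)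
      (fun f => ∃ F : ℝ → ℂ, Measurable F ∧ (∀ t, ‖F t‖ ≤ 1) ∧ f = qf b F) hQ ?_ ?_ ?_ ?_
      (qf b F) ⟨F, hF, hF1, rfl⟩ (fun _ => eLast k) (fun _ => he1) (fun _ _ => c)
      (fun _ => measurable_const)
    · have e : (fun x => qf b F x * hsn c (eLast k) x) =
          ({x : E (k + 1) | ∀ _j : Fin 1, c < inner ℝ (eLast k) x}.indicator (qf b F)) := by
        funext x
        by_cases hx : c < inner ℝ (eLast k) x
        · rw [indicator_of_mem (show x ∈ {x : E (k + 1) | ∀ _j : Fin 1,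
            c < inner ℝ (eLast k) x} from fun _ => hx)]
          unfold hsn
          rw [if_pos (by rwa [real_inner_comm]), mul_one]
        · rw [indicator_of_notMem (show x ∉ {x : E (k + 1) | ∀ _j : Fin 1,
            c < inner ℝ (eLast k) x} from fun h => hx (h 0))]
          unfold hsn
          rw [if_neg (by rwa [real_inner_comm]), mul_zero]
      refine hP (fun x => qf b F x * hsn c (eLast k) x) (hqm.mul (measurable_hsn _ _))
        (fun x => ?_) (fun R hR => ?_) ξ hξ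
      · rw [norm_mul]
        exact mul_le_one₀ (hF1 _) (norm_nonneg _) (norm_hsn_le _ _ _)
      · rw [e]
        exact hc R hR
    · rintro f ⟨F, hF, -, rfl⟩
      exact measurable_qf b hF
    · rintro f ⟨F, -, hF1, rfl⟩ x
      exact hF1 _
    · rintro f ⟨F, hF, hF1, rfl⟩ F' hF' hF'1
      refine ⟨fun t => F t * F' t, hF.mul hF', fun t => ?_, rfl⟩
      rw [norm_mul, hF'1, mul_one]
      exact hF1 t
    · rintro f ⟨F, hF, hF1, rfl⟩ R hR
      exact hT F hF hF1 R hR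
  have hm : Measurable (Function.uncurry fun (c : ℝ) (x : E (k + 1)) =>
      qf b F x * hsn c (eLast k) x) := by
    have h1 : Measurable fun q : ℝ × E (k + 1) => qf b F q.2 := hqm.comp measurable_snd
    refine h1.mul ?_
    unfold hsn
    refine Measurable.ite ?_ measurable_const measurable_const
    exact measurableSet_lt measurable_fst (by fun_prop)
  have hrep : extn (tpow 1 (qf b F) : E (k + 1) → ℂ) = extn (mix (powν 0)
      (fun _ => LinearIsometryEquiv.refl ℝ (E (k + 1))) (fun _ => 0)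
      (fun c x => qf b F x * hsn c (eLast k) x)) := by
    refine extn_congr_sphere fun x hx => ?_
    unfold mix
    simp only [inner_zero_right, mul_zero, Complex.ofReal_zero, zero_mul,
      Complex.exp_zero, one_mul, LinearIsometryEquiv.coe_refl, id]
    rw [integral_const_mul]
    have e1 : (fun c : ℝ => hsn c (eLast k) x) =
        (Iio (x (Fin.last k))).indicator fun _ => (1:ℂ) := by
      funext c
      unfold hsn
      rw [inner_eLast]
      by_cases h : c < x (Fin.last k)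
      · rw [if_pos h, indicator_of_mem (mem_Iio.2 h)]
      · rw [if_neg h, indicator_of_notMem]
        exact h
    rw [e1, integral_indicator_const _ measurableSet_Iio]
    unfold tpow Measure.real
    split_ifs with h
    · rw [powν_Iio 0 h ((le_abs_self _).trans ((abs_last_le x).trans hx.le)),
        ENNReal.toReal_ofReal (by positivity)]
      simp
    · rw [powν_Iio_neg 0 (not_lt.1 h)]
      simp
  rw [hrep, extn_mix (powν 0) _ _ _ measurable_snd measurable_const hm (fun c x => by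
    rw [norm_mul]
    exact mul_le_one₀ (hF1 _) (norm_nonneg _) (norm_hsn_le _ _ _)) ξ]
  have h3 := norm_integral_le_of_norm_le_const (μ := powν 0) (C := A * ‖ξ‖ ^ (-δ))
    (f := fun c => extn (fun x => qf b F x * hsn c (eLast k) x)
      (LinearIsometryEquiv.refl ℝ (E (k + 1)) (ξ - 0))) (Filter.Eventually.of_forall fun c => by
        simpa using hcut c)
  refine h3.trans (le_of_eq ?_)
  ring

/-- Pointwise decay of the lift. -/
theorem pd_lift {κ : ℕ} {A δ : ℝ} (hA : 0 ≤ A) (hδ : 0 < δ) :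
    ∃ A' δ' : ℝ, 0 ≤ A' ∧ 0 < δ' ∧ ∀ G : E (κ + 2) → ℂ, Measurable G → (∀ x, ‖G x‖ ≤ 1) →
      (∀ ζ, 1 ≤ ‖ζ‖ → ‖extn (tpow 1 G) ζ‖ ≤ A * ‖ζ‖ ^ (-δ)) →
      ∀ ξ : E ((κ + 1) + (0 + 2)), 1 ≤ ‖ξ‖ → ‖extn (lift G) ξ‖ ≤ A' * ‖ξ‖ ^ (-δ') := by
  set β : ℝ := min δ (1 / 2) with hβ
  have hβ0 : 0 < β := lt_min hδ (by norm_num)
  have hβ1 : β < 1 := (min_le_right _ _).trans_lt (by norm_num)
  have hβδ : β ≤ δ := min_le_left _ _
  set Sg : ℝ := (sm (κ + 2)).real univ with hSg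
  have hSg0 : 0 ≤ Sg := measureReal_nonneg
  have hint : IntegrableOn (fun u : ℝ => |Real.cos u| ^ (-β)) (Ioo 0 π) := by
    have hM := liftC_M β hβ0.le hβ1
    refine ⟨(by fun_prop : Measurable fun u : ℝ => |Real.cos u| ^ (-β)).aestronglyMeasurable, ?_⟩
    refine lt_of_le_of_lt (lintegral_mono fun u => ?_) hM
    rw [← ofReal_norm, Real.norm_of_nonneg (by positivity)]
    exact ENNReal.ofReal_le_ofReal (by linarith)
  set M : ℝ := ∫ u in Ioo 0 π, |Real.cos u| ^ (-β) with hM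
  have hM0 : 0 ≤ M := integral_nonneg fun u => by positivity
  refine ⟨(sm (0 + 1)).real univ * ((A + Sg) * M), β, by positivity, hβ0,
    fun G hG hb hdec ξ hξ => ?_⟩
  have hξ0 : 0 < ‖ξ‖ := by linarith
  obtain ⟨y, w, rfl⟩ : ∃ (y : E (κ + 1)) (w : E (0 + 2)), ξ = bj y w :=
    ⟨fstE ξ, sndE ξ, (bj_fst_snd ξ).symm⟩
  rw [extn_lift κ 0 G hG hb y w, norm_mul, Complex.norm_real, Real.norm_eq_abs,
    abs_of_nonneg measureReal_nonneg, mul_assoc]
  refine mul_le_mul_of_nonneg_left ?_ measureReal_nonneg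
  set ρ : ℝ := ‖(bj y w : E ((κ + 1) + (0 + 2)))‖ with hρ
  have hρ2 : ρ ^ 2 = ‖y‖ ^ 2 + ‖w‖ ^ 2 := liftA_norm_bj_sq y w
  have hbd : ∀ u : ℝ, Real.cos u ≠ 0 →
      ‖((Real.sin u ^ 0 : ℝ) : ℂ) * extn (tpow (0 + 1) G) (join y (‖w‖ * Real.cos u))‖ ≤
        (A + Sg) * ρ ^ (-β) * |Real.cos u| ^ (-β) := by
    intro u hu
    have hcu : 0 < |Real.cos u| := abs_pos.2 hu
    set ζ : E (κ + 2) := join y (‖w‖ * Real.cos u) with hζ
    have hζ2 : ‖ζ‖ ^ 2 = ‖y‖ ^ 2 + (‖w‖ * Real.cos u) ^ 2 := norm_join_sq _ _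
    have hc1 : Real.cos u ^ 2 ≤ 1 := Real.cos_sq_le_one u
    have hlow : ρ * |Real.cos u| ≤ ‖ζ‖ := by
      refine abs_le_of_sq_le_sq' ?_ (norm_nonneg _) |>.2
      rw [mul_pow, sq_abs, hρ2, hζ2, mul_pow]
      nlinarith [sq_nonneg ‖y‖]
    have hpos : 0 < ρ * |Real.cos u| := mul_pos hξ0 hcu
    have hex : ‖extn (tpow (0 + 1) G) ζ‖ ≤ (A + Sg) * (ρ * |Real.cos u|) ^ (-β) := by
      by_cases h1 : 1 ≤ ‖ζ‖
      · have h2 := hdec ζ h1
        have h3 : ‖ζ‖ ^ (-δ) ≤ (ρ * |Real.cos u|) ^ (-β) := by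
          calc ‖ζ‖ ^ (-δ) ≤ ‖ζ‖ ^ (-β) :=
                Real.rpow_le_rpow_of_exponent_le h1 (by linarith)
            _ ≤ _ := Real.rpow_le_rpow_of_nonpos hpos hlow (by linarith)
        calc _ ≤ A * ‖ζ‖ ^ (-δ) := h2
          _ ≤ A * (ρ * |Real.cos u|) ^ (-β) := mul_le_mul_of_nonneg_left h3 hA
          _ ≤ _ := mul_le_mul_of_nonneg_right (by linarith) (by positivity)
      · push Not at h1
        have h2 : ‖extn (tpow (0 + 1) G) ζ‖ ≤ Sg :=
          norm_extn_leS _ (fun x hx => liftD_norm_tpow _ G hb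
            ⟨x, mem_sphere_zero_iff_norm.2 hx⟩) ζ
        have h3 : 1 ≤ (ρ * |Real.cos u|) ^ (-β) :=
          Real.one_le_rpow_of_pos_of_le_one_of_nonpos hpos (hlow.trans h1.le) (by linarith)
        calc _ ≤ Sg := h2
          _ ≤ Sg * (ρ * |Real.cos u|) ^ (-β) := le_mul_of_one_le_right hSg0 h3
          _ ≤ _ := mul_le_mul_of_nonneg_right (by linarith) (by positivity)
    rw [pow_zero, Complex.ofReal_one, one_mul]
    refine hex.trans (le_of_eq ?_)
    rw [Real.mul_rpow hξ0.le (abs_nonneg _)]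
    ring
  have h5 : ‖∫ u in Ioo 0 π, ((Real.sin u ^ 0 : ℝ) : ℂ) *
      extn (tpow (0 + 1) G) (join y (‖w‖ * Real.cos u))‖ ≤
      ∫ u in Ioo 0 π, (A + Sg) * ρ ^ (-β) * |Real.cos u| ^ (-β) := by
    refine norm_integral_le_of_norm_le (hint.const_mul _) ?_
    have h1 : ∀ᵐ u ∂(volume.restrict (Ioo (0:ℝ) π)), u ∈ Ioo 0 π :=
      ae_restrict_mem measurableSet_Ioo
    have h2 : ∀ᵐ u ∂(volume.restrict (Ioo (0:ℝ) π)), u ≠ π / 2 :=
      ae_restrict_of_ae (Measure.ae_ne volume (π / 2))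
    filter_upwards [h1, h2] with u hu hu2
    refine hbd u fun h0 => hu2 ?_
    have h6 := liftC_cos_ge hu.1.le hu.2.le
    rw [h0, abs_zero] at h6
    have h7 : |u - π / 2| ≤ 0 := by
      have hpi := Real.pi_pos
      by_contra h8
      push Not at h8
      have : 0 < 2 / π * |u - π / 2| := by positivity
      linarith
    have h8 := abs_nonpos_iff.1 h7
    linarith
  refine h5.trans (le_of_eq ?_)
  rw [integral_const_mul]
  ring

/-- Decay in the direction of a doubled coordinate, without any structure. -/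
theorem dec_w (κ : ℕ) : ∃ A : ℝ, 0 ≤ A ∧ ∀ G : E (κ + 2) → ℂ, Measurable G → (∀ x, ‖G x‖ ≤ 1) →
    ∀ (y : E (κ + 1)) (w : E (0 + 2)), w ≠ 0 →
      ‖extn (lift G : E ((κ + 1) + (0 + 2)) → ℂ) (bj y w)‖ ≤ A * ‖w‖ ^ (-(1 / 2) : ℝ) := by
  obtain ⟨C, hC, h1⟩ := DecayAux.one_dim 0
  have hpi := Real.pi_pos
  have hbes : ∀ ρ : ℝ, 0 < ρ → ‖∫ u in Ioo 0 π, ((Real.sin u ^ 0 : ℝ) : ℂ) *
      DecayAux.ch (ρ * Real.cos u)‖ ≤ (C + π) * ρ ^ (-(1 / 2) : ℝ) := by
    intro ρ hρ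
    by_cases h : 1 ≤ ρ
    · have h2 := h1 ρ h
      rw [intervalIntegral.integral_of_le hpi.le, integral_Ioc_eq_integral_Ioo] at h2
      have e : (-(((0 : ℕ) : ℝ) + 1) / 2) = (-(1 / 2) : ℝ) := by norm_num
      rw [e] at h2
      refine h2.trans (mul_le_mul_of_nonneg_right (by linarith) (by positivity))
    · push Not at h
      have h2 : ‖∫ u in Ioo 0 π, ((Real.sin u ^ 0 : ℝ) : ℂ) * DecayAux.ch (ρ * Real.cos u)‖ ≤ π := by
        have h3 := norm_setIntegral_le_of_norm_le_const (μ := volume) (s := Ioo (0 : ℝ) π) (C := 1)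
          (f := fun u => ((Real.sin u ^ 0 : ℝ) : ℂ) * DecayAux.ch (ρ * Real.cos u)) (by simp)
          (fun u _ => by
            rw [pow_zero, Complex.ofReal_one, one_mul, DecayAux.norm_ch])
        refine h3.trans (le_of_eq ?_)
        rw [one_mul]
        simp [hpi.le]
      have h3 : 1 ≤ ρ ^ (-(1 / 2) : ℝ) :=
        Real.one_le_rpow_of_pos_of_le_one_of_nonpos hρ h.le (by norm_num)
      calc _ ≤ π := h2
        _ ≤ π * ρ ^ (-(1 / 2) : ℝ) := le_mul_of_one_le_right hpi.le h3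
        _ ≤ _ := mul_le_mul_of_nonneg_right (by linarith) (by positivity)
  set S1 : ℝ := (sm (κ + 1)).real univ with hS1
  set S2 : ℝ := (sm (0 + 1)).real univ with hS2
  have hS10 : 0 ≤ S1 := measureReal_nonneg
  have hS20 : 0 ≤ S2 := measureReal_nonneg
  refine ⟨S1 * (S2 * (C + π)) * (π / 2), by positivity, fun G hG hb y w hw => ?_⟩
  have hw0 : 0 < ‖w‖ := norm_pos_iff.2 hw
  rw [liftB_lhs G hG hb y 0 w]
  unfold liftBμ
  rw [integral_withDensity_eq_integral_toReal_smul (by fun_prop) (by simp)]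
  have h6 := norm_setIntegral_le_of_norm_le_const (μ := volume) (s := Ioo (0 : ℝ) (π / 2))
    (C := S1 * (S2 * (C + π)) * ‖w‖ ^ (-(1 / 2) : ℝ))
    (f := fun θ => (ENNReal.ofReal (Real.sin θ ^ κ * Real.cos θ ^ (0 + 1))).toReal •
      (liftBK G y θ * ((((sm (0 + 1)).real univ : ℝ) : ℂ) *
        ∫ u in Ioo 0 π, ((Real.sin u ^ 0 : ℝ) : ℂ) *
          DecayAux.ch ((Real.cos θ * ‖w‖) * Real.cos u)))) (by simp) (fun θ hθ => by
      have hc : 0 < Real.cos θ := Real.cos_pos_of_mem_Ioo ⟨by linarith [hθ.1], hθ.2⟩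
      have hs : 0 < Real.sin θ := Real.sin_pos_of_pos_of_lt_pi hθ.1 (by linarith [hθ.2])
      have hc1 : Real.cos θ ≤ 1 := Real.cos_le_one θ
      have hs1 : Real.sin θ ^ κ ≤ 1 := pow_le_one₀ hs.le (Real.sin_le_one θ)
      rw [norm_smul, norm_mul, norm_mul, Complex.norm_real, Real.norm_eq_abs, Real.norm_eq_abs,
        abs_of_nonneg measureReal_nonneg, abs_of_nonneg ENNReal.toReal_nonneg,
        ENNReal.toReal_ofReal (by positivity)]
      have h7 := hbes (Real.cos θ * ‖w‖) (mul_pos hc hw0)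
      have h8 : ‖liftBK G y θ‖ ≤ S1 := norm_liftBK_le G hb y θ
      have h9 : Real.cos θ ^ (0 + 1) * (Real.cos θ * ‖w‖) ^ (-(1 / 2) : ℝ) ≤
          ‖w‖ ^ (-(1 / 2) : ℝ) := by
        rw [Real.mul_rpow hc.le hw0.le, ← mul_assoc]
        refine mul_le_of_le_one_left (by positivity) ?_
        rw [zero_add, pow_one]
        calc Real.cos θ * Real.cos θ ^ (-(1 / 2) : ℝ) = Real.cos θ ^ (1 / 2 : ℝ) := by
              rw [← Real.rpow_one_add' hc.le (by norm_num)]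
              norm_num
          _ ≤ 1 := Real.rpow_le_one hc.le hc1 (by norm_num)
      calc Real.sin θ ^ κ * Real.cos θ ^ (0 + 1) * (‖liftBK G y θ‖ * (S2 *
            ‖∫ u in Ioo 0 π, ((Real.sin u ^ 0 : ℝ) : ℂ) *
              DecayAux.ch ((Real.cos θ * ‖w‖) * Real.cos u)‖))
          ≤ 1 * Real.cos θ ^ (0 + 1) * (S1 * (S2 * ((C + π) *
              (Real.cos θ * ‖w‖) ^ (-(1 / 2) : ℝ)))) := by
            gcongr
        _ = S1 * (S2 * (C + π)) * (Real.cos θ ^ (0 + 1) *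
              (Real.cos θ * ‖w‖) ^ (-(1 / 2) : ℝ)) := by ring
        _ ≤ _ := mul_le_mul_of_nonneg_left h9 (by positivity))
  refine h6.trans (le_of_eq ?_)
  have : volume.real (Ioo (0 : ℝ) (π / 2)) = π / 2 := by
    rw [Real.volume_real_Ioo_of_le (by positivity)]
    ring
  rw [this]
  ring

end Pool.Agent.TQ
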