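import Pool.Agent.LQ.TQ2
import Pool.Agent.LQ.HSQ

/-!
Every quadratic form: half-spaces whose position is an arbitrary measurable function of `Q x`.
-/

set_option autoImplicit false

namespace Pool.Agent.TQ

open MeasureTheory Set Metric Pool.Agent.MP_6cbfb8_an Pool.Agent.LQ
open scoped ENNReal Real ContDiff

/-- Doubling the last eigenvalue. -/
theorem tail_dbl {κ : ℕ} (hκ : 1 ≤ κ) {b : Fin (κ + 2) → ℝ} (h : Tail (κ + 2) b)
    (hf : Full ((κ + 1) + (0 + 2)) (dbl b)) : Tail ((κ + 1) + (0 + 2)) (dbl b) := by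
  intro p hp
  obtain ⟨A, δ, hA, hδ, h1⟩ := pd_tpow (k := κ + 1) (by omega) h
  obtain ⟨A', δ', hA', hδ', h2⟩ := pd_lift (κ := κ) hA hδ
  obtain ⟨p', hp1, hp2⟩ := exists_between hp
  obtain ⟨C', hC', h3⟩ := hf p' hp1
  have h1' := LFD.one_le_exp (n := (κ + 1) + (0 + 2)) (by omega)
  have hp'0 : 0 < p' := by linarith
  obtain ⟨C, η, hη, h4⟩ := tail_of_pd (n := (κ + 1) + (0 + 2)) hp'0 hp2 hδ' hA' hC'
  refine ⟨C, η, hη, fun F hF hF1 R hR => h4 _ ?_ (h3 F hF hF1) R hR⟩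
  rw [← lift_qf]
  exact h2 (qf b F) (measurable_qf b hF) (fun x => hF1 _) (h1 F hF hF1)

/-- Isometries. -/
theorem lint_isom {n : ℕ} {p : ℝ} (S : E n ≃ₗᵢ[ℝ] E n) {g h : E n → ℂ}
    (e : ∀ x, ‖x‖ = 1 → g x = h (S x)) :
    (∀ ξ, extn g ξ = extn h (S ξ)) ∧ ∫⁻ ξ, ‖extn g ξ‖ₑ ^ p = ∫⁻ ξ, ‖extn h ξ‖ₑ ^ p := by
  have h1 : ∀ ξ, extn g ξ = extn h (S ξ) := by
    intro ξ
    rw [← extn_isometry, extn_congr_sphere e]
    rfl
  refine ⟨h1, ?_⟩
  simp only [h1]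
  exact S.measurePreserving.lintegral_comp_emb S.toHomeomorph.measurableEmbedding
    (fun ξ => ‖extn h ξ‖ₑ ^ p)

theorem exists_permIso {n : ℕ} (σ : Equiv.Perm (Fin n)) :
    ∃ R : E n ≃ₗᵢ[ℝ] E n, ∀ x i, R x i = x (σ.symm i) :=
  ⟨LinearIsometryEquiv.piLpCongrLeft 2 ℝ ℝ σ, fun _ _ => rfl⟩

theorem qf_perm {n : ℕ} {b : Fin n → ℝ} (σ : Equiv.Perm (Fin n)) (F : ℝ → ℂ)
    {R : E n ≃ₗᵢ[ℝ] E n} (hR : ∀ x i, R x i = x (σ.symm i)) (x : E n) :
    qf (fun i => b (σ i)) F x = qf b F (R x) := by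
  unfold qf
  refine congrArg F ?_
  rw [← Equiv.sum_comp σ (fun j => b j * R x j ^ 2)]
  refine Finset.sum_congr rfl fun i _ => ?_
  rw [hR, Equiv.symm_apply_apply]

theorem tail_perm {n : ℕ} {b : Fin n → ℝ} (σ : Equiv.Perm (Fin n)) (h : Tail n b) :
    Tail n (fun i => b (σ i)) := by
  intro p hp
  obtain ⟨C, η, hη, H⟩ := h p hp
  refine ⟨C, η, hη, fun F hF hF1 r hr => ?_⟩
  obtain ⟨R, hR⟩ := exists_permIso σ
  have h2 := (lint_isom (p := p) R (g := qf (fun i => b (σ i)) F) (h := qf b F)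
    fun x _ => qf_perm σ F hR x).1
  simp only [h2]
  have h3 := R.measurePreserving.setLIntegral_comp_preimage_emb
    R.toHomeomorph.measurableEmbedding (fun ξ => ‖extn (qf b F) ξ‖ₑ ^ p) {ξ : E n | r ≤ ‖ξ‖}
  have h4 : (R : E n → E n) ⁻¹' {ξ : E n | r ≤ ‖ξ‖} = {ξ : E n | r ≤ ‖ξ‖} := by
    ext ξ
    change r ≤ ‖R ξ‖ ↔ r ≤ ‖ξ‖
    rw [R.norm_map]
  rw [h4] at h3
  exact h3.trans_le (H F hF hF1 r hr)

/-- A doubled eigenvalue at two given places. -/
theorem exists_dbl' {κ : ℕ} {b : Fin (κ + 1 + 2) → ℝ} {i j : Fin (κ + 1 + 2)} (hne : i ≠ j)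
    (hij : b i = b j) : ∃ (σ : Equiv.Perm (Fin (κ + 1 + 2))) (c : Fin (κ + 2) → ℝ),
      (fun k => b (σ k)) = dbl c ∧ σ (Fin.last (κ + 1 + 1)) = j := by
  have ha : Fin.castSucc (Fin.last (κ + 1)) ≠ Fin.last (κ + 1 + 1) :=
    (Fin.castSucc_lt_last _).ne
  obtain ⟨σ, hσ1, hσ2⟩ := perm_two ha hne
  obtain ⟨c, hc⟩ : ∃ c : Fin (κ + 2) → ℝ, c = fun k => b (σ (Fin.castSucc k)) := ⟨_, rfl⟩
  have hl : b (σ (Fin.last (κ + 1 + 1))) = c (Fin.last (κ + 1)) := by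
    rw [hc]
    simp only
    rw [hσ1, hσ2, hij]
  refine ⟨σ, c, ?_, hσ2⟩
  funext k
  unfold dbl
  refine Fin.addCases (m := κ + 1) (n := 0 + 2) (fun l => ?_) (fun l => ?_) k
  · rw [Fin.append_left, hc]
    rfl
  · rw [Fin.append_right]
    fin_cases l
    · rw [hc]
      rfl
    · exact hl

/-- Decay in the direction of a repeated eigenvalue. -/
theorem dec_pair {κ : ℕ} {b : Fin (κ + 1 + 2) → ℝ} {i j : Fin (κ + 1 + 2)} (hne : i ≠ j)
    (hij : b i = b j) : ∃ A : ℝ, 0 ≤ A ∧ ∀ F : ℝ → ℂ, Measurable F → (∀ t, ‖F t‖ ≤ 1) →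
      ∀ ξ : E (κ + 1 + 2), ξ i ≠ 0 → ‖extn (qf b F) ξ‖ ≤ A * |ξ i| ^ (-(1 / 2) : ℝ) := by
  obtain ⟨σ, c, hσ, hl⟩ := exists_dbl' hne.symm hij.symm
  obtain ⟨A, hA, H⟩ := dec_w κ
  refine ⟨A, hA, fun F hF hF1 ξ hξ => ?_⟩
  obtain ⟨R, hR⟩ := exists_permIso σ
  have h1 := (lint_isom (p := 1) R (g := qf (fun i => b (σ i)) F) (h := qf b F)
    fun x _ => qf_perm σ F hR x).1 (R.symm ξ)
  rw [R.apply_symm_apply, hσ] at h1
  rw [← h1]
  obtain ⟨ζ, hζ⟩ : ∃ ζ : E ((κ + 1) + (0 + 2)), ζ = R.symm ξ := ⟨_, rfl⟩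
  have hζl : ζ (Fin.last (κ + 1 + 1)) = ξ i := by
    have h2 : R ζ = ξ := by
      rw [hζ]
      exact R.apply_symm_apply ξ
    rw [← h2, hR, ← hl, Equiv.symm_apply_apply]
  have hw : |ξ i| ≤ ‖(sndE ζ : E (0 + 2))‖ := by
    rw [← hζl]
    exact abs_last_le (k := 1) (sndE ζ : E (0 + 2))
  have hξ0 : 0 < |ξ i| := abs_pos.2 hξ
  have hw0 : (sndE ζ : E (0 + 2)) ≠ 0 := by
    intro h0
    rw [h0, norm_zero] at hw
    linarith
  have h3 := H (qf c F) (measurable_qf c hF) (fun x => hF1 _) (fstE ζ) (sndE ζ) hw0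
  rw [bj_fst_snd, lift_qf] at h3
  rw [← hζ]
  refine h3.trans (mul_le_mul_of_nonneg_left ?_ hA)
  exact Real.rpow_le_rpow_of_nonpos hξ0 hw (by norm_num)

/-- No simple eigenvalue. -/
theorem tail_nosimple {κ : ℕ} {b : Fin (κ + 1 + 2) → ℝ} (h : ∀ i, ∃ j, i ≠ j ∧ b i = b j)
    (hf : Full (κ + 1 + 2) b) : Tail (κ + 1 + 2) b := by
  intro p hp
  choose j hne hb using h
  choose A hA H using fun i => dec_pair (hne i) (hb i)
  obtain ⟨p', hp1, hp2⟩ := exists_between hp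
  obtain ⟨C', hC', h3⟩ := hf p' hp1
  have h1' := LFD.one_le_exp (n := κ + 1 + 2) (by omega)
  have hp'0 : 0 < p' := by linarith
  set N : ℝ := ((κ + 1 + 2 : ℕ) : ℝ) with hN
  have hN1 : 1 ≤ N := by
    rw [hN]
    exact_mod_cast (by omega : 1 ≤ κ + 1 + 2)
  have hAs : 0 ≤ ∑ i, A i := Finset.sum_nonneg fun i _ => hA i
  obtain ⟨C, η, hη, h4⟩ := tail_of_pd (n := κ + 1 + 2) (A := (∑ i, A i) * N ^ (1 / 2 : ℝ)) hp'0 hp2
    (by norm_num : (0 : ℝ) < 1 / 2) (by positivity) hC'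
  refine ⟨C, η, hη, fun F hF hF1 R hR => h4 _ (fun ξ hξ => ?_) (h3 F hF hF1) R hR⟩
  have hξ0 : 0 < ‖ξ‖ := by linarith
  obtain ⟨i, -, hi⟩ := Finset.exists_max_image (Finset.univ : Finset (Fin (κ + 1 + 2)))
    (fun k => |ξ k|) ⟨0, Finset.mem_univ _⟩
  have h5 : ‖ξ‖ ≤ N * |ξ i| := by
    have h6 : ‖ξ‖ ^ 2 ≤ N * |ξ i| ^ 2 := by
      rw [EuclideanSpace.norm_sq_eq]
      calc ∑ k, ‖ξ k‖ ^ 2 ≤ ∑ _k : Fin (κ + 1 + 2), |ξ i| ^ 2 := by
            refine Finset.sum_le_sum fun k hk => ?_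
            rw [Real.norm_eq_abs]
            exact pow_le_pow_left₀ (abs_nonneg _) (hi k hk) 2
        _ = N * |ξ i| ^ 2 := by
            rw [Finset.sum_const, Finset.card_univ, Fintype.card_fin, nsmul_eq_mul, hN]
    have h7 : ‖ξ‖ ^ 2 ≤ (N * |ξ i|) ^ 2 := by
      refine h6.trans ?_
      rw [mul_pow]
      refine mul_le_mul_of_nonneg_right ?_ (by positivity)
      nlinarith
    exact (abs_le_of_sq_le_sq' h7 (by positivity)).2
  have hi0 : 0 < |ξ i| := by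
    by_contra h
    have : |ξ i| = 0 := le_antisymm (not_lt.1 h) (abs_nonneg _)
    rw [this, mul_zero] at h5
    linarith
  have h8 := H i F hF hF1 ξ (abs_pos.1 hi0)
  have h9 : |ξ i| ^ (-(1 / 2) : ℝ) ≤ N ^ (1 / 2 : ℝ) * ‖ξ‖ ^ (-(1 / 2) : ℝ) := by
    have h10 : ‖ξ‖ / N ≤ |ξ i| := by
      rw [div_le_iff₀ (by linarith)]
      linarith
    refine (Real.rpow_le_rpow_of_nonpos (by positivity) h10 (by norm_num)).trans (le_of_eq ?_)
    rw [Real.div_rpow hξ0.le (by positivity), Real.rpow_neg (by positivity : (0 : ℝ) ≤ N),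
      div_inv_eq_mul]
    ring
  have h11 : A i ≤ ∑ i, A i := Finset.single_le_sum (fun i _ => hA i) (Finset.mem_univ i)
  calc _ ≤ A i * |ξ i| ^ (-(1 / 2) : ℝ) := h8
    _ ≤ (∑ i, A i) * (N ^ (1 / 2 : ℝ) * ‖ξ‖ ^ (-(1 / 2) : ℝ)) :=
        mul_le_mul h11 h9 (by positivity) hAs
    _ = _ := by ring

/-- Distinct eigenvalues. -/
theorem tail_inj {n : ℕ} (hn : 3 ≤ n) {b : Fin n → ℝ} (hb : Function.Injective b) : Tail n b :=
  fun _ hp => by
    obtain ⟨C, η, hη, h⟩ := LFD.qtail_inj hn hb hp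
    exact ⟨C, η, hη, h⟩

/-- At least three distinct eigenvalues. -/
theorem tail_ge3 : ∀ (κ : ℕ) (b : Fin (κ + 2) → ℝ), 3 ≤ (range b).ncard → Tail (κ + 2) b := by
  intro κ
  induction κ with
  | zero =>
    intro b hb
    have := ncard_range_le b
    omega
  | succ κ ih =>
    intro b hb
    by_cases hinj : Function.Injective b
    · exact tail_inj (by omega) hinj
    · obtain ⟨σ, c, hσ, hr⟩ := exists_dbl hinj
      have hc : 3 ≤ (range c).ncard := by rw [hr]; exact hb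
      have hκ : 1 ≤ κ := by
        have := ncard_range_le c
        omega
      have h := tail_dbl hκ (ih c hc) (LQN.full_any (by omega) (dbl c))
      rw [← hσ] at h
      simpa using tail_perm σ.symm h

/-- Tails, except for the functions of one coordinate. -/
theorem tail_or {κ : ℕ} (b : Fin (κ + 1 + 2) → ℝ) :
    Tail (κ + 1 + 2) b ∨ ∃ (i : Fin (κ + 1 + 2)) (α β : ℝ), ∀ k, b k = if k = i then α else β := by
  rcases le_or_gt 3 (range b).ncard with h | h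
  · exact Or.inl (tail_ge3 (κ + 1) b h)
  by_cases hs : ∀ i, ∃ j, i ≠ j ∧ b i = b j
  · exact Or.inl (tail_nosimple hs (LQN.full_any (by omega) b))
  · right
    push Not at hs
    obtain ⟨i, hi⟩ := hs
    obtain ⟨j, hj⟩ : ∃ j : Fin (κ + 1 + 2), j ≠ i := exists_ne i
    refine ⟨i, b i, b j, fun k => ?_⟩
    split_ifs with hk
    · rw [hk]
    · by_contra hkj
      have h1 : ({b i, b j, b k} : Finset ℝ).card = 3 :=
        Finset.card_eq_three.2 ⟨b i, b j, b k, hi j hj.symm, hi k (Ne.symm hk), fun h => hkj h.symm, rfl⟩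
      have h2 : ((({b i, b j, b k} : Finset ℝ) : Set ℝ)) ⊆ range b := by
        intro t ht
        simp only [Finset.coe_insert, Finset.coe_singleton, mem_insert_iff,
          mem_singleton_iff] at ht
        rcases ht with rfl | rfl | rfl <;> exact mem_range_self _
      have h3 := Set.ncard_le_ncard h2 (finite_range b)
      rw [Set.ncard_coe_finset, h1] at h3
      omega

/-- **Tails give half-spaces whose position is an arbitrary measurable function of `Q x`.** -/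
theorem sb_ft {n : ℕ} (hn : 3 ≤ n) {b : Fin n → ℝ} (hb : Tail n b) (N : ℕ) {p : ℝ}
    (hp : 2 * (n : ℝ) / (n - 1) < p) : ∃ C : ℝ≥0∞, C ≠ ⊤ ∧ ∀ g : E n → ℂ,
      LFD.FT (fun x => ∑ i, b i * x i ^ 2) {c | Measurable c} N g →
        ∫⁻ ξ, ‖extn g ξ‖ₑ ^ p ≤ C := by
  have hp1 : 1 < p := by
    have hn' : (3 : ℝ) ≤ n := by exact_mod_cast hn
    refine lt_of_le_of_lt ?_ hp
    rw [le_div_iff₀ (by linarith)]
    linarith
  have hQ : Measurable fun x : E n => ∑ i, b i * x i ^ 2 := by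
    have : Continuous fun x : E n => ∑ i, b i * x i ^ 2 := by fun_prop
    exact this.measurable
  obtain ⟨C, η, hη, h⟩ := hb p hp
  obtain ⟨C', η', hη', h'⟩ := HSL.halfspaces n N (C := C) hp1 hη
  obtain ⟨C0, -, h0⟩ := HSL.tail_all n (p := p) (η := η') (C := |C'|) (by linarith) hη'
    (abs_nonneg C')
  refine ⟨ENNReal.ofReal C0, ENNReal.ofReal_ne_top, ?_⟩
  rintro g ⟨F, v, c, hF, hF1, hc, hg⟩
  set Q : E n → ℝ := fun x => ∑ i, b i * x i ^ 2 with hQd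
  have hn0 : 0 < n := by omega
  choose l w hl hw hlw using fun j => LFD.unit_hs
    (EuclideanSpace.single (⟨0, hn0⟩ : Fin n) (1 : ℝ)) (by rw [PiLp.norm_single]; simp) (v j) (c j)
    (hc j)
  have h2 := h' (T := ℝ) Q
    (fun f => ∃ F : ℝ → ℂ, Measurable F ∧ (∀ t, ‖F t‖ ≤ 1) ∧ f = fun x => F (Q x)) hQ ?_ ?_ ?_ ?_
    (fun x => F (Q x)) ⟨F, hF, hF1, rfl⟩ l hl w hw
  · set g1 : E n → ℂ := {x | ∀ j, w j (Q x) < inner ℝ (l j) x}.indicator fun x => F (Q x) with hg1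
    have e : ∀ x, ‖x‖ = 1 → g x = g1 x := by
      intro x hx
      rw [hg, hg1]
      by_cases hx' : x ∈ {x : E n | ∀ j, w j (Q x) < inner ℝ (l j) x}
      · rw [indicator_of_mem hx', Finset.prod_eq_one, mul_one]
        intro j _
        exact if_pos ((hlw j x hx _).1 (hx' j))
      · rw [indicator_of_notMem hx']
        obtain ⟨j, hj⟩ : ∃ j, ¬ w j (Q x) < inner ℝ (l j) x := not_forall.1 hx'
        rw [Finset.prod_eq_zero (Finset.mem_univ j), mul_zero]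
        exact if_neg fun h3 => hj ((hlw j x hx _).2 h3)
    have hb1 : ∀ x, ‖g1 x‖ ≤ 1 := fun x =>
      (norm_indicator_le_norm_self _ _).trans (hF1 _)
    rw [extn_congr_sphere e]
    exact (h0 g1 hb1 fun R hR => (h2 R hR).trans (ENNReal.ofReal_le_ofReal
      (mul_le_mul_of_nonneg_right (le_abs_self C')
        (Real.rpow_nonneg (by linarith) _)))).2
  · rintro f ⟨F, hF, -, rfl⟩
    exact hF.comp hQ
  · rintro f ⟨F, -, hF1, rfl⟩ x
    exact hF1 _
  · rintro f ⟨F, hF, hF1, rfl⟩ F' hF' hF'1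
    refine ⟨fun t => F t * F' t, hF.mul hF', fun t => ?_, rfl⟩
    rw [norm_mul, hF'1, mul_one]
    exact hF1 t
  · rintro f ⟨F, hF, hF1, rfl⟩ R hR
    exact h F hF hF1 R hR

/-- From superpositions to single densities. -/
theorem sb_of_bd {n : ℕ} {p : ℝ} {H : (E n → ℂ) → Prop} (h : LFD.Bd n p H) :
    ∃ C : ℝ≥0∞, C ≠ ⊤ ∧ ∀ g : E n → ℂ, Measurable g → H g → ∫⁻ ξ, ‖extn g ξ‖ₑ ^ p ≤ C := by
  obtain ⟨C, hC, h⟩ := h
  refine ⟨C, hC, fun g hg hH => ?_⟩
  have h3 := h Unit (Measure.dirac ()) (fun _ => LinearIsometryEquiv.refl ℝ (E n)) (fun _ => 0)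
    (fun _ => g) measurable_snd measurable_const (hg.comp measurable_snd) (fun _ => hH)
  have h4 : mix (Measure.dirac ()) (fun _ => LinearIsometryEquiv.refl ℝ (E n)) (fun _ => 0)
      (fun (_ : Unit) x => g x) = g := by
    funext x
    unfold mix
    rw [integral_dirac]
    simp
  rw [h4, Measure.dirac_apply_of_mem (Set.mem_univ _), ENNReal.one_rpow, mul_one] at h3
  exact h3

/-- The functions of one coordinate: the remaining hypothesis. -/
def Zonal : Prop :=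
  ∀ (m : ℕ), 2 ≤ m → ∀ (N : ℕ) (p : ℝ),
    2 * ((m + 1 : ℕ) : ℝ) / (((m + 1 : ℕ) : ℝ) - 1) < p →
      LFD.Bd (m + 1) p (LFD.FT (fun x : E (m + 1) => x (Fin.last m) ^ 2) {c | Measurable c} N)

/-- **Every quadratic form.** -/
theorem bd_ft_every (hz : Zonal) {n : ℕ} (hn : 3 ≤ n) (Q : QuadraticForm ℝ (E n)) (N : ℕ) {p : ℝ}
    (hp : 2 * (n : ℝ) / (n - 1) < p) : LFD.Bd n p (LFD.FT Q {c | Measurable c} N) := by
  obtain ⟨κ, rfl⟩ : ∃ κ, n = κ + 1 + 2 := ⟨n - 3, by omega⟩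
  obtain ⟨b, R, hR⟩ := LQ.exists_diag Q
  have hp1 : 1 ≤ p := (LFD.one_le_exp hn).trans hp.le
  refine LFD.bd_of (M := 1) hp1 _ ?_ ?_
  · rintro g ⟨F, v, c, -, hF1, -, hg⟩ x
    rw [hg, norm_mul]
    exact mul_le_one₀ (hF1 _) (norm_nonneg _) (LFD.norm_tprod_le Q v c x)
  rcases tail_or b with hb | ⟨i, α, β, hb⟩
  · obtain ⟨C, hC, h⟩ := sb_ft hn hb N hp
    refine ⟨C, hC, ?_⟩
    rintro g - ⟨F, v, c, hF, hF1, hc, hg⟩
    have e := (lint_isom (p := p) R (g := g) (h := fun y => F (∑ i, b i * y i ^ 2) *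
      ∏ j, if c j (∑ i, b i * y i ^ 2) < inner ℝ y (R (v j)) then (1 : ℂ) else 0) (fun x _ => by
        simp only
        rw [hg, ← hR]
        simp only [R.inner_map_map])).2
    rw [e]
    exact h _ ⟨F, fun j => R (v j), c, hF, hF1, hc, fun y => rfl⟩
  · obtain ⟨C, hC, h⟩ := sb_of_bd (hz (κ + 1 + 1) (by omega) N p hp)
    refine ⟨C, hC, ?_⟩
    rintro g - ⟨F, v, c, hF, hF1, hc, hg⟩
    obtain ⟨P, hP⟩ := exists_permIso (Equiv.swap i (Fin.last (κ + 1 + 1)))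
    have hS : ∀ x, (R.trans P) x (Fin.last (κ + 1 + 1)) = R x i := by
      intro x
      rw [LinearIsometryEquiv.trans_apply, hP, Equiv.symm_swap, Equiv.swap_apply_right]
    have hQx : ∀ x, ‖x‖ = 1 → Q x = β + (α - β) * (R.trans P) x (Fin.last (κ + 1 + 1)) ^ 2 := by
      intro x hx
      rw [hR, hS]
      have h1 : ∑ k, R x k ^ 2 = 1 := by
        have h2 : ‖R x‖ ^ 2 = 1 := by rw [R.norm_map, hx, one_pow]
        rw [EuclideanSpace.norm_sq_eq] at h2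
        simpa using h2
      have h3 : ∀ k, b k * R x k ^ 2 = β * R x k ^ 2 + if k = i then (α - β) * R x i ^ 2 else 0 := by
        intro k
        rw [hb]
        split_ifs with hk
        · rw [hk]
          ring
        · ring
      simp only [h3]
      rw [Finset.sum_add_distrib, ← Finset.mul_sum, h1, Finset.sum_ite_eq' Finset.univ i,
        if_pos (Finset.mem_univ _), mul_one]
    set L : ℝ → ℝ := fun t => β + (α - β) * t with hL
    have hLm : Measurable L := by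
      rw [hL]
      fun_prop
    have e := (lint_isom (p := p) (R.trans P) (g := g) (h := fun y =>
      F (L (y (Fin.last (κ + 1 + 1)) ^ 2)) * ∏ j, if c j (L (y (Fin.last (κ + 1 + 1)) ^ 2)) <
        inner ℝ y ((R.trans P) (v j)) then (1 : ℂ) else 0) (fun x hx => by
        simp only
        rw [hg, hQx x hx]
        simp only [(R.trans P).inner_map_map, hL])).2
    rw [e]
    have hcont : Measurable fun y : E (κ + 1 + 2) => y (Fin.last (κ + 1 + 1)) ^ 2 := by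
      have : Continuous fun y : E (κ + 1 + 2) => y (Fin.last (κ + 1 + 1)) ^ 2 := by fun_prop
      exact this.measurable
    refine h _ ?_ ⟨fun t => F (L t), fun j => (R.trans P) (v j), fun j t => c j (L t),
      hF.comp hLm, fun t => hF1 _, fun j => (hc j).comp hLm, fun y => rfl⟩
    refine Measurable.mul (hF.comp (hLm.comp hcont)) (Finset.measurable_prod _ fun j _ => ?_)
    refine Measurable.ite ?_ measurable_const measurable_const
    exact measurableSet_lt ((hc j).comp (hLm.comp hcont)) (by fun_prop)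

/-- **Every quadratic form**, smooth along the level sets. -/
theorem bd_gt_every (hz : Zonal) {n : ℕ} (hn : 3 ≤ n) (Q : QuadraticForm ℝ (E n)) (N : ℕ) (B : ℝ)
    {p : ℝ} (hp : 2 * (n : ℝ) / (n - 1) < p) : LFD.Bd n p (LFD.GT Q {c | Measurable c} N B) :=
  LFD.bd_gt ((LFD.one_le_exp hn).trans hp.le) (LFD.measurable_form Q) (fun _ hc => hc) N
    (bd_ft_every hz hn Q N hp) B

end Pool.Agent.TQ
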