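import Pool.Agent.LQ.HSQ
import Pool.Agent.LQ.CAP
import Pool.Agent.MP_6cbfb8_an.Main
import Pool.Agent.MP_6cbfb8_an.Low4

/-!
Functions of the last coordinate, times half-spaces whose position is an arbitrary measurable
function of the last coordinate.
-/

set_option autoImplicit false

namespace Pool.Agent.LFD

open MeasureTheory Set Pool.Agent.MP_6cbfb8_an
open scoped ENNReal Real RealInnerProductSpace

/-- The energy of the indicator functions of caps is bounded. -/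
def CapE (n : ℕ) (s : ℝ) : Prop :=
  ∃ C : ℝ≥0∞, C ≠ ⊤ ∧ ∀ (u : E n) (a : ℝ),
    ∫⁻ ω : S n, (∫⁻ ω' : S n, ‖(if a < inner ℝ (ω : E n) u then (1 : ℂ) else 0) -
      (if a < inner ℝ (ω' : E n) u then (1 : ℂ) else 0)‖ₑ ^ (2 : ℝ) /
        ENNReal.ofReal (‖(ω : E n) - (ω' : E n)‖ ^ ((n : ℝ) - 1 + 2 * s)) ∂(sm n)) ∂(sm n) ≤ C

open Classical in
theorem prod01 {N : ℕ} (P Q : Fin N → Prop) :
    ‖(∏ j, (if P j then (1 : ℂ) else 0)) - ∏ j, (if Q j then (1 : ℂ) else 0)‖ₑ ^ (2 : ℝ) ≤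
      ∑ j, ‖(if P j then (1 : ℂ) else 0) - (if Q j then (1 : ℂ) else 0)‖ₑ ^ (2 : ℝ) := by
  by_cases h : ∀ j, (P j ↔ Q j)
  · have : P = Q := funext fun j => propext (h j)
    subst this
    rw [sub_self, enorm_zero, ENNReal.zero_rpow_of_pos (by norm_num)]
    exact zero_le
  · obtain ⟨j, hj⟩ := not_forall.1 h
    have h1 : (1 : ℝ≥0∞) ≤
        ‖(if P j then (1 : ℂ) else 0) - (if Q j then (1 : ℂ) else 0)‖ₑ ^ (2 : ℝ) := by
      by_cases hP : P j
      · by_cases hQ : Q j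
        · exact absurd ⟨fun _ => hQ, fun _ => hP⟩ hj
        · rw [if_pos hP, if_neg hQ]
          simp
      · by_cases hQ : Q j
        · rw [if_neg hP, if_pos hQ]
          simp
        · exact absurd ⟨fun h => absurd h hP, fun h => absurd h hQ⟩ hj
    have h2 : ∀ R : Fin N → Prop, (∏ j, (if R j then (1 : ℂ) else 0)) = 1 ∨
        (∏ j, (if R j then (1 : ℂ) else 0)) = 0 := by
      intro R
      by_cases hR : ∀ j, R j
      · left
        exact Finset.prod_eq_one fun j _ => if_pos (hR j)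
      · right
        obtain ⟨i, hi⟩ := not_forall.1 hR
        exact Finset.prod_eq_zero (Finset.mem_univ i) (if_neg hi)
    have h3 : ‖(∏ j, (if P j then (1 : ℂ) else 0)) - ∏ j, (if Q j then (1 : ℂ) else 0)‖ₑ ^ (2 : ℝ) ≤
        1 := by
      rcases h2 P with h4 | h4 <;> rcases h2 Q with h5 | h5 <;> rw [h4, h5] <;> simp
    exact (h3.trans h1).trans (Finset.single_le_sum (f := fun j =>
      ‖(if P j then (1 : ℂ) else 0) - (if Q j then (1 : ℂ) else 0)‖ₑ ^ (2 : ℝ))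
      (fun _ _ => zero_le) (Finset.mem_univ j))

/-- The integrand of the energy of a cap. -/
noncomputable def capD (n : ℕ) (s : ℝ) (u : E n) (a : ℝ) (ω ω' : S n) : ℝ≥0∞ :=
  ‖(if a < inner ℝ (ω : E n) u then (1 : ℂ) else 0) -
    (if a < inner ℝ (ω' : E n) u then (1 : ℂ) else 0)‖ₑ ^ (2 : ℝ) /
      ENNReal.ofReal (‖(ω : E n) - (ω' : E n)‖ ^ ((n : ℝ) - 1 + 2 * s))

theorem capD_meas (n : ℕ) (s : ℝ) (u : E n) (a : ℝ) :
    Measurable (Function.uncurry (capD n s u a)) := by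
  have h1 : Measurable fun q : S n × S n => (inner ℝ (q.1 : E n) u : ℝ) :=
    (measurable_subtype_coe.comp measurable_fst).inner measurable_const
  have h2 : Measurable fun q : S n × S n => (inner ℝ (q.2 : E n) u : ℝ) :=
    (measurable_subtype_coe.comp measurable_snd).inner measurable_const
  have h3 : Measurable fun q : S n × S n => ‖(q.1 : E n) - (q.2 : E n)‖ :=
    ((measurable_subtype_coe.comp measurable_fst).sub
      (measurable_subtype_coe.comp measurable_snd)).norm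
  unfold capD Function.uncurry
  refine Measurable.div ?_ (h3.pow_const _).ennreal_ofReal
  refine Measurable.pow_const (Measurable.enorm (Measurable.sub ?_ ?_)) _
  · exact Measurable.ite (measurableSet_lt measurable_const h1) measurable_const measurable_const
  · exact Measurable.ite (measurableSet_lt measurable_const h2) measurable_const measurable_const

theorem capE_capD {n : ℕ} {s : ℝ} (h : CapE n s) : ∃ C : ℝ≥0∞, C ≠ ⊤ ∧ ∀ (u : E n) (a : ℝ),
    ∫⁻ ω : S n, (∫⁻ ω' : S n, capD n s u a ω ω' ∂(sm n)) ∂(sm n) ≤ C := h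

/-- The integrand of the energy along a parallel. -/
theorem cap_pt {m N : ℕ} {s κ : ℝ} {F : ℝ → ℂ} (v : Fin N → E (m + 1)) (c : Fin N → ℝ → ℝ)
    (hF : ∀ t, ‖F t‖ ≤ κ) {θ : ℝ} (hθ : θ ∈ Ioo 0 π) (ω ω' : S m) :
    ‖(F ((pt θ (ω : E m)) (Fin.last m)) *
        ∏ j, if c j ((pt θ (ω : E m)) (Fin.last m)) < inner ℝ (pt θ (ω : E m)) (v j) then (1 : ℂ)
          else 0) -
      (F ((pt θ (ω' : E m)) (Fin.last m)) *
        ∏ j, if c j ((pt θ (ω' : E m)) (Fin.last m)) < inner ℝ (pt θ (ω' : E m)) (v j) then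
          (1 : ℂ) else 0)‖ₑ ^ (2:ℝ) /
      ENNReal.ofReal (‖(ω : E m) - (ω' : E m)‖ ^ ((m : ℝ) - 1 + 2 * s)) ≤
    ENNReal.ofReal κ ^ (2 : ℝ) * ∑ j : Fin N, capD m s (initE (v j))
      ((c j (Real.cos θ) - (v j) (Fin.last m) * Real.cos θ) / Real.sin θ) ω ω' := by
  classical
  have hsin : 0 < Real.sin θ := Real.sin_pos_of_mem_Ioo hθ
  have hcond : ∀ (j : Fin N) (ω : S m), (c j (Real.cos θ) < inner ℝ (pt θ (ω : E m)) (v j)) =
      ((c j (Real.cos θ) - (v j) (Fin.last m) * Real.cos θ) / Real.sin θ <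
        inner ℝ (ω : E m) (initE (v j))) := by
    intro j ω
    rw [inner_pt, div_lt_iff₀ hsin, sub_lt_iff_lt_add']
  have hP : ∀ ω : S m, (∏ j, if c j ((pt θ (ω : E m)) (Fin.last m)) <
      inner ℝ (pt θ (ω : E m)) (v j) then (1 : ℂ) else 0) =
      ∏ j, if (c j (Real.cos θ) - (v j) (Fin.last m) * Real.cos θ) / Real.sin θ <
        inner ℝ (ω : E m) (initE (v j)) then (1 : ℂ) else 0 := by
    intro ω
    refine Finset.prod_congr rfl fun j _ => ?_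
    rw [pt_last]
    by_cases h : c j (Real.cos θ) < inner ℝ (pt θ (ω : E m)) (v j)
    · rw [if_pos h, if_pos ((hcond j ω).mp h)]
    · rw [if_neg h, if_neg fun h' => h ((hcond j ω).mpr h')]
  rw [hP ω, hP ω', pt_last, pt_last, ← mul_sub, enorm_mul,
    ENNReal.mul_rpow_of_nonneg _ _ (by norm_num), div_eq_mul_inv, mul_assoc]
  refine mul_le_mul' ?_ ?_
  · refine ENNReal.rpow_le_rpow ?_ (by norm_num)
    rw [← ofReal_norm]
    exact ENNReal.ofReal_le_ofReal (hF _)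
  · have e : ∀ j : Fin N, capD m s (initE (v j))
        ((c j (Real.cos θ) - (v j) (Fin.last m) * Real.cos θ) / Real.sin θ) ω ω' =
        ‖(if (c j (Real.cos θ) - (v j) (Fin.last m) * Real.cos θ) / Real.sin θ <
          inner ℝ (ω : E m) (initE (v j)) then (1 : ℂ) else 0) -
        (if (c j (Real.cos θ) - (v j) (Fin.last m) * Real.cos θ) / Real.sin θ <
          inner ℝ (ω' : E m) (initE (v j)) then (1 : ℂ) else 0)‖ₑ ^ (2 : ℝ) *
        (ENNReal.ofReal (‖(ω : E m) - (ω' : E m)‖ ^ ((m : ℝ) - 1 + 2 * s)))⁻¹ := fun j => by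
      rw [capD, div_eq_mul_inv]
    rw [Finset.sum_congr rfl fun j _ => e j, ← Finset.sum_mul]
    refine mul_le_mul_left ?_ _
    have h := prod01 (fun j : Fin N => (c j (Real.cos θ) - (v j) (Fin.last m) * Real.cos θ) /
      Real.sin θ < inner ℝ (ω : E m) (initE (v j))) (fun j : Fin N =>
      (c j (Real.cos θ) - (v j) (Fin.last m) * Real.cos θ) / Real.sin θ <
        inner ℝ (ω' : E m) (initE (v j)))
    convert h using 1

attribute [irreducible] capD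

theorem capsum {n : ℕ} {s : ℝ} {C : ℝ≥0∞}
    (hcap : ∀ (u : E n) (a : ℝ), ∫⁻ ω : S n, (∫⁻ ω' : S n, capD n s u a ω ω' ∂(sm n)) ∂(sm n) ≤ C)
    {N : ℕ} (us : Fin N → E n) (as : Fin N → ℝ) :
    ∫⁻ ω : S n, (∫⁻ ω' : S n, ∑ j : Fin N, capD n s (us j) (as j) ω ω' ∂(sm n)) ∂(sm n) ≤
      (N : ℝ≥0∞) * C := by
  have h1 : ∀ ω : S n, ∫⁻ ω' : S n, ∑ j : Fin N, capD n s (us j) (as j) ω ω' ∂(sm n) =
      ∑ j : Fin N, ∫⁻ ω' : S n, capD n s (us j) (as j) ω ω' ∂(sm n) := by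
    intro ω
    rw [lintegral_finsetSum]
    intro j _
    exact (capD_meas n s (us j) (as j)).of_uncurry_left
  have h2 : ∫⁻ ω : S n, (∑ j : Fin N, ∫⁻ ω' : S n, capD n s (us j) (as j) ω ω' ∂(sm n)) ∂(sm n) =
      ∑ j : Fin N, ∫⁻ ω : S n, (∫⁻ ω' : S n, capD n s (us j) (as j) ω ω' ∂(sm n)) ∂(sm n) := by
    rw [lintegral_finsetSum]
    intro j _
    exact (capD_meas n s (us j) (as j)).lintegral_prod_right
  rw [lintegral_congr h1, h2]
  calc ∑ j : Fin N, ∫⁻ ω : S n, (∫⁻ ω' : S n, capD n s (us j) (as j) ω ω' ∂(sm n)) ∂(sm n)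
      ≤ ∑ _j : Fin N, C := Finset.sum_le_sum fun j _ => hcap _ _
    _ = (N : ℝ≥0∞) * C := by
        rw [Finset.sum_const, Finset.card_univ, Fintype.card_fin, nsmul_eq_mul]

/-- The energy along the parallels. -/
theorem ang_le {m : ℕ} {s : ℝ} (hcap : CapE m s) (N : ℕ) :
    ∃ A : ℝ≥0∞, A ≠ ⊤ ∧ ∀ (κ : ℝ) (F : ℝ → ℂ) (v : Fin N → E (m + 1)) (c : Fin N → ℝ → ℝ),
      (∀ t, ‖F t‖ ≤ κ) →
      angEnergy s (fun x : E (m + 1) => F (x (Fin.last m)) *
        ∏ j, if c j (x (Fin.last m)) < inner ℝ x (v j) then 1 else 0) ≤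
          ENNReal.ofReal κ ^ (2 : ℝ) * A := by
  obtain ⟨C, hC, hcap⟩ := capE_capD hcap
  refine ⟨ENNReal.ofReal π * ((N : ℝ≥0∞) * C), ENNReal.mul_ne_top ENNReal.ofReal_ne_top
    (ENNReal.mul_ne_top (ENNReal.natCast_ne_top N) hC), fun κ F v c hF => ?_⟩
  have hKt : ENNReal.ofReal κ ^ (2 : ℝ) ≠ ⊤ :=
    ENNReal.rpow_ne_top_of_nonneg (by norm_num) ENNReal.ofReal_ne_top
  unfold angEnergy
  calc _ ≤ ∫⁻ θ in Ioo 0 π, ENNReal.ofReal κ ^ (2 : ℝ) * ((N : ℝ≥0∞) * C) := by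
        refine setLIntegral_mono' measurableSet_Ioo fun θ hθ => ?_
        have hs1 : ENNReal.ofReal (Real.sin θ ^ (m - 2)) ≤ 1 := by
          rw [← ENNReal.ofReal_one]
          refine ENNReal.ofReal_le_ofReal ?_
          refine (le_abs_self _).trans ?_
          rw [abs_pow]
          exact pow_le_one₀ (abs_nonneg _) (Real.abs_sin_le_one θ)
        refine (mul_le_mul' hs1 (lintegral_mono fun ω => lintegral_mono fun ω' =>
            cap_pt (s := s) v c hF hθ ω ω')).trans ?_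
        rw [one_mul]
        have h3 : ∀ ω : S m, ∫⁻ ω' : S m, ENNReal.ofReal κ ^ (2 : ℝ) * ∑ j : Fin N,
              capD m s (initE (v j)) ((c j (Real.cos θ) - (v j) (Fin.last m) * Real.cos θ) /
                Real.sin θ) ω ω' ∂(sm m) = ENNReal.ofReal κ ^ (2 : ℝ) * ∫⁻ ω' : S m,
                ∑ j : Fin N, capD m s (initE (v j)) ((c j (Real.cos θ) - (v j) (Fin.last m) *
                  Real.cos θ) / Real.sin θ) ω ω' ∂(sm m) := fun ω =>
            lintegral_const_mul' _ _ hKt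
        rw [lintegral_congr h3, lintegral_const_mul' _ _ hKt]
        exact mul_le_mul_right (capsum hcap _ _) _
    _ = _ := by
        rw [setLIntegral_const, Real.volume_Ioo, sub_zero]
        ring

/-- The exponents. -/
theorem zft_exp {m : ℕ} (hm : 2 ≤ m) {p : ℝ}
    (hp : 2 * ((m + 1 : ℕ) : ℝ) / (((m + 1 : ℕ) : ℝ) - 1) < p) :
    2 * ((m : ℝ) + 1) / m < p ∧
      2 * ((m : ℝ) + 2) / (m + 2 * ((m : ℝ) / (2 * (m + 1)))) < p := by
  have hm' : (2 : ℝ) ≤ m := by exact_mod_cast hm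
  have h1 : 2 * ((m + 1 : ℕ) : ℝ) / (((m + 1 : ℕ) : ℝ) - 1) = 2 * ((m : ℝ) + 1) / m := by
    push_cast
    congr 1
    ring
  rw [h1] at hp
  refine ⟨hp, ?_⟩
  have h2 : 2 * ((m : ℝ) + 2) / (m + 2 * ((m : ℝ) / (2 * (m + 1)))) = 2 * ((m : ℝ) + 1) / m := by
    have : (m : ℝ) ≠ 0 := by linarith
    have : (m : ℝ) + 1 ≠ 0 := by linarith
    field_simp
    ring
  rwa [h2]

/-- **The last coordinate**: one constant for all the functions `F (x_n)`, cut by `N` half-spaces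
whose position is an arbitrary measurable function of `x_n`. -/
theorem zonal_one {m : ℕ} (hm : 2 ≤ m) (hcap : CapE m ((m : ℝ) / (2 * (m + 1)))) (N : ℕ) {p : ℝ}
    (hp : 2 * ((m + 1 : ℕ) : ℝ) / (((m + 1 : ℕ) : ℝ) - 1) < p) :
    ∃ C : ℝ≥0∞, C ≠ ⊤ ∧ ∀ (Φ : E (m + 1) → ℝ) (ψ : ℝ → ℝ), Measurable ψ →
      (∀ x, ‖x‖ = 1 → Φ x = ψ (x (Fin.last m))) → ∀ g, FT Φ {c | Measurable c} N g →
      ∫⁻ ξ, ‖extn g ξ‖ₑ ^ p ≤ C := by
  have hm' : (2 : ℝ) ≤ m := by exact_mod_cast hm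
  obtain ⟨hp1, hp2⟩ := zft_exp hm hp
  have hp0 : 0 < p := lt_of_le_of_lt (by positivity) hp1
  have hs : 0 < (m : ℝ) / (2 * (m + 1)) := by positivity
  obtain ⟨C, hC, H⟩ := main m hm _ p hs hp1 hp2
  obtain ⟨A, hA, hang⟩ := ang_le hcap N
  set κ : ℝ := (√(A.toReal + 1))⁻¹ with hκ
  have hA0 : 0 ≤ A.toReal := ENNReal.toReal_nonneg
  have hκ0 : 0 < κ := by
    rw [hκ]
    positivity
  have hκ1 : κ ≤ 1 := by
    rw [hκ]
    refine inv_le_one_of_one_le₀ ?_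
    rw [Real.one_le_sqrt]
    linarith
  have hκA : ENNReal.ofReal κ ^ (2 : ℝ) * A ≤ 1 := by
    rw [ENNReal.ofReal_rpow_of_pos hκ0, ← ENNReal.ofReal_toReal hA,
      ← ENNReal.ofReal_mul (by positivity), ← ENNReal.ofReal_one]
    refine ENNReal.ofReal_le_ofReal ?_
    rw [Real.rpow_two, hκ, inv_pow, Real.sq_sqrt (by linarith), inv_mul_le_iff₀ (by linarith)]
    linarith
  refine ⟨ENNReal.ofReal κ⁻¹ ^ p * C, ENNReal.mul_ne_top
    (ENNReal.rpow_ne_top_of_nonneg hp0.le ENNReal.ofReal_ne_top) hC, ?_⟩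
  rintro Φ ψ hψ hΦ g ⟨F, v, c, hF, hF1, hc, hg⟩
  have hlast : Measurable fun x : E (m + 1) => x (Fin.last m) := by fun_prop
  set g1 : E (m + 1) → ℂ := fun x => ((κ : ℂ) * F (ψ (x (Fin.last m)))) *
    ∏ j, if c j (ψ (x (Fin.last m))) < inner ℝ x (v j) then 1 else 0 with hg1
  have hg1m : Measurable g1 := by
    rw [hg1]
    refine (measurable_const.mul (hF.comp (hψ.comp hlast))).mul ?_
    refine Finset.measurable_prod _ fun j _ => ?_
    refine Measurable.ite ?_ measurable_const measurable_const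
    have h1 : Measurable fun x : E (m + 1) => (inner ℝ x (v j) : ℝ) :=
      measurable_id.inner measurable_const
    exact measurableSet_lt ((hc j).comp (hψ.comp hlast)) h1
  have hκF : ∀ t, ‖(κ : ℂ) * F (ψ t)‖ ≤ κ := by
    intro t
    rw [norm_mul, Complex.norm_real, Real.norm_eq_abs, abs_of_pos hκ0]
    exact mul_le_of_le_one_right hκ0.le (hF1 _)
  have hpr : ∀ x : E (m + 1), ‖∏ j, (if c j (ψ (x (Fin.last m))) < inner ℝ x (v j) then (1 : ℂ)
      else 0)‖ ≤ 1 := fun x => norm_tprod_le (fun x => ψ (x (Fin.last m))) v c x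
  have hg1b : ∀ x, ‖g1 x‖ ≤ 1 := by
    intro x
    rw [hg1, norm_mul]
    exact mul_le_one₀ ((hκF _).trans hκ1) (norm_nonneg _) (hpr x)
  have hE : angEnergy ((m : ℝ) / (2 * (m + 1))) g1 ≤ 1 :=
    (hang κ (fun t => (κ : ℂ) * F (ψ t)) v (fun j t => c j (ψ t)) hκF).trans hκA
  have h1 := H g1 hg1m hg1b hE
  have h2 : ∀ x, ‖x‖ = 1 → g x = ((κ⁻¹ : ℝ) : ℂ) * g1 x := by
    intro x hx
    rw [hg, hg1, hΦ x hx]
    simp only
    rw [← mul_assoc, ← mul_assoc, ← Complex.ofReal_mul, inv_mul_cancel₀ hκ0.ne',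
      Complex.ofReal_one, one_mul]
  have h3 : ∀ ξ, extn g ξ = ((κ⁻¹ : ℝ) : ℂ) * extn g1 ξ := by
    intro ξ
    rw [extn_congr_sphere h2]
    unfold extn
    rw [← integral_const_mul]
    refine integral_congr_ae (Filter.Eventually.of_forall fun x => ?_)
    simp only
    ring
  have h4 : ‖((κ⁻¹ : ℝ) : ℂ)‖ₑ = ENNReal.ofReal κ⁻¹ := by
    rw [← ofReal_norm, Complex.norm_real, Real.norm_eq_abs, abs_of_pos (inv_pos.2 hκ0)]
  calc ∫⁻ ξ, ‖extn g ξ‖ₑ ^ p = ∫⁻ ξ, ENNReal.ofReal κ⁻¹ ^ p * ‖extn g1 ξ‖ₑ ^ p := by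
        refine lintegral_congr fun ξ => ?_
        rw [h3, enorm_mul, ENNReal.mul_rpow_of_nonneg _ _ hp0.le, h4]
    _ = ENNReal.ofReal κ⁻¹ ^ p * ∫⁻ ξ, ‖extn g1 ξ‖ₑ ^ p :=
        lintegral_const_mul' _ _ (ENNReal.rpow_ne_top_of_nonneg hp0.le ENNReal.ofReal_ne_top)
    _ ≤ _ := mul_le_mul_right h1 _

/-- The same with superpositions. -/
theorem zonal_bd {m : ℕ} (hm : 2 ≤ m) (N : ℕ) {p : ℝ}
    (hp : 2 * ((m + 1 : ℕ) : ℝ) / (((m + 1 : ℕ) : ℝ) - 1) < p) (Φ : E (m + 1) → ℝ) (ψ : ℝ → ℝ)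
    (hψ : Measurable ψ) (hΦ : ∀ x, ‖x‖ = 1 → Φ x = ψ (x (Fin.last m))) :
    Bd (m + 1) p (FT Φ {c | Measurable c} N) := by
  have hm' : (2 : ℝ) ≤ m := by exact_mod_cast hm
  have hs : (m : ℝ) / (2 * (m + 1)) < 1 / 2 := by
    rw [div_lt_div_iff₀ (by positivity) (by norm_num)]
    linarith
  obtain ⟨C, hC, H⟩ := zonal_one hm (cap_energy hm (by positivity) hs) N hp
  refine bd_of (M := 1) ((one_le_exp (by omega)).trans hp.le) _ ?_
    ⟨C, hC, fun g _ hg => H Φ ψ hψ hΦ g hg⟩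
  rintro g ⟨F, v, c, -, hF1, -, hg⟩ x
  rw [hg, norm_mul]
  exact mul_le_one₀ (hF1 _) (norm_nonneg _) (norm_tprod_le Φ v c x)

theorem zonal_ft {m : ℕ} (hm : 2 ≤ m) (N : ℕ) (p : ℝ)
    (hp : 2 * ((m + 1 : ℕ) : ℝ) / (((m + 1 : ℕ) : ℝ) - 1) < p) :
    Bd (m + 1) p (FT (fun x : E (m + 1) => x (Fin.last m) ^ 2) {c | Measurable c} N) :=
  zonal_bd hm N hp _ (fun t => t ^ 2) (by fun_prop) fun _ _ => rfl

end Pool.Agent.LFD
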